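import Pool.Agent.H175R2.Conn

/-! Decomposition trees. -/

namespace Pool.Agent.H175R2

open Finset Classical

variable {V : Type} {G : SimpleGraph V}

/-- outside neighbourhood of `x` -/
noncomputable def on (G : SimpleGraph V) (R A : Finset V) (x : V) : Finset V :=
  (R \ A).filter (fun y => G.Adj x y)

/-- number of nonempty outside neighbourhoods of elements of `A` in `R` -/
noncomputable def nt (G : SimpleGraph V) (R A : Finset V) : ℕ :=
  ((A.image (on G R A)).erase ∅).card

/-- trees of sets with few outside types -/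
inductive DT (G : SimpleGraph V) (K : ℕ) (R : Finset V) : Finset V → Prop
  | leaf (x : V) : DT G K R {x}
  | node {A B : Finset V} (hd : Disjoint A B) (hA : DT G K R A) (hB : DT G K R B)
      (h : nt G R (A ∪ B) ≤ K) : DT G K R (A ∪ B)

lemma mem_on {R A : Finset V} {x y : V} : y ∈ on G R A x ↔ (y ∈ R ∧ y ∉ A) ∧ G.Adj x y := by
  simp [on]

lemma nt_le_of_inj {α : Type} {R A : Finset V} (F : Finset α) (l : Finset V → α)
    (h1 : ∀ x ∈ A, on G R A x ≠ ∅ → l (on G R A x) ∈ F)
    (h2 : ∀ x ∈ A, ∀ y ∈ A, on G R A x ≠ ∅ → on G R A y ≠ ∅ →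
      l (on G R A x) = l (on G R A y) → on G R A x = on G R A y) : nt G R A ≤ F.card := by
  unfold nt
  apply Finset.card_le_card_of_injOn l
  · intro s hs
    simp only [coe_erase, coe_image, Set.mem_diff, Set.mem_image, mem_coe, Set.mem_singleton_iff] at hs
    obtain ⟨⟨x, hx, rfl⟩, hne⟩ := hs
    exact h1 x hx hne
  · intro s hs t ht hst
    simp only [coe_erase, coe_image, Set.mem_diff, Set.mem_image, mem_coe, Set.mem_singleton_iff] at hs ht
    obtain ⟨⟨x, hx, rfl⟩, hne⟩ := hs
    obtain ⟨⟨y, hy, rfl⟩, hne'⟩ := ht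
    exact h2 x hx y hy hne hne' hst

lemma nt_le_of_label {α : Type} {R A : Finset V} (F : Finset α) (l : V → α)
    (h1 : ∀ x ∈ A, on G R A x ≠ ∅ → l x ∈ F)
    (h2 : ∀ x ∈ A, ∀ y ∈ A, on G R A x ≠ ∅ → on G R A y ≠ ∅ → l x = l y →
      on G R A x = on G R A y) : nt G R A ≤ F.card := by
  unfold nt
  apply Finset.card_le_card_of_surjOn (s := F)
    (f := fun a => if h : ∃ x ∈ A, on G R A x ≠ ∅ ∧ l x = a then on G R A h.choose else ∅)
  intro s hs
  simp only [coe_erase, coe_image, Set.mem_diff, Set.mem_image, mem_coe, Set.mem_singleton_iff] at hs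
  obtain ⟨⟨x, hx, rfl⟩, hne⟩ := hs
  refine ⟨l x, h1 x hx hne, ?_⟩
  have h : ∃ y ∈ A, on G R A y ≠ ∅ ∧ l y = l x := ⟨x, hx, hne, rfl⟩
  simp only [h, dif_pos]
  have hs := h.choose_spec
  exact h2 _ hs.1 _ hx hs.2.1 hne hs.2.2

/-- few boundary vertices inside -/
lemma nt_le_boundary {R A F : Finset V} (h : ∀ x ∈ A, on G R A x ≠ ∅ → x ∈ F) :
    nt G R A ≤ F.card :=
  nt_le_of_label F id h (by rintro x - y - - - h; simp at h; rw [h])

/-- few boundary vertices outside -/
lemma nt_le_pow {R A O : Finset V} (h : ∀ x ∈ A, on G R A x ⊆ O) : nt G R A ≤ 2 ^ O.card := by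
  rw [← card_powerset]
  exact nt_le_of_inj _ id (fun x hx _ => by simpa using h x hx) (fun _ _ _ _ _ _ h => h)

lemma nt_module {R A : Finset V}
    (h : ∀ x ∈ A, ∀ y ∈ A, ∀ z ∈ R, z ∉ A → (G.Adj x z ↔ G.Adj y z)) : nt G R A ≤ 1 := by
  have := nt_le_of_label (G := G) (R := R) (A := A) ({()} : Finset Unit) (fun _ => ())
    (fun _ _ _ => by simp) (fun x hx y hy _ _ _ => by
      ext z; rw [mem_on, mem_on]
      constructor
      · rintro ⟨⟨h1, h2⟩, h3⟩; exact ⟨⟨h1, h2⟩, (h x hx y hy z h1 h2).1 h3⟩
      · rintro ⟨⟨h1, h2⟩, h3⟩; exact ⟨⟨h1, h2⟩, (h x hx y hy z h1 h2).2 h3⟩)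
  simpa using this

lemma nt_closed {R A : Finset V} (h : ∀ x ∈ A, ∀ z ∈ R, z ∉ A → ¬ G.Adj x z) : nt G R A = 0 := by
  have := nt_le_boundary (G := G) (R := R) (A := A) (F := ∅) (fun x hx hne => by
    exfalso
    apply hne
    ext z
    simp only [mem_on, notMem_empty, iff_false, not_and]
    exact fun hz => h x hx z hz.1 hz.2)
  simpa using this

lemma DT.mono {K K' : ℕ} {R A : Finset V} (h : DT G K R A) (hK : K ≤ K') : DT G K' R A := by
  induction h with
  | leaf x => exact DT.leaf x
  | node hd _ _ h iA iB => exact DT.node hd iA iB (h.trans hK)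

lemma DT.nonempty {K : ℕ} {R A : Finset V} (h : DT G K R A) : A.Nonempty := by
  induction h with
  | leaf x => exact ⟨x, by simp⟩
  | node hd _ _ h iA iB => exact iA.mono subset_union_left

/-- general transfer lemma -/
lemma DT.transfer {G' : SimpleGraph V} {K K' : ℕ} {R R' A : Finset V} (h : DT G K R A)
    (hn : ∀ B ⊆ A, nt G R B ≤ K → nt G' R' B ≤ K') : DT G' K' R' A := by
  induction h with
  | leaf x => exact DT.leaf x
  | node hd _ _ h iA iB =>
    exact DT.node hd (iA fun B hB => hn B (hB.trans subset_union_left))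
      (iB fun B hB => hn B (hB.trans subset_union_right)) (hn _ (Subset.refl _) h)

/-- adding few vertices to the ambient set -/
lemma nt_ambient {R X A : Finset V} (hA : A ⊆ R) (hX : Disjoint R X) :
    nt G (R ∪ X) A ≤ (nt G R A + 1) * 2 ^ X.card := by
  have h0 : nt G R A + 1 ≥ (insert ∅ (A.image (on G R A))).card := by
    unfold nt
    by_cases h : ∅ ∈ A.image (on G R A)
    · rw [insert_eq_of_mem h, card_erase_of_mem h]; omega
    · rw [card_insert_of_notMem h, erase_eq_of_notMem h]
  have h1 : nt G (R ∪ X) A ≤ ((insert ∅ (A.image (on G R A))) ×ˢ X.powerset).card := by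
    apply nt_le_of_inj _ (fun s => (s ∩ R, s ∩ X))
    · intro x hx _
      simp only [mem_product, mem_powerset]
      refine ⟨mem_insert_of_mem ?_, inter_subset_right⟩
      rw [mem_image]
      refine ⟨x, hx, ?_⟩
      ext z; simp only [mem_on, mem_inter, mem_union]; tauto
    · intro x hx y hy _ _ he
      simp only [Prod.mk.injEq] at he
      ext z
      constructor
      · intro hz
        have hz' := hz
        rw [mem_on, mem_union] at hz'
        rcases hz'.1.1 with h | h
        · have : z ∈ on G (R ∪ X) A x ∩ R := mem_inter.2 ⟨hz, h⟩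
          rw [he.1] at this; exact (mem_inter.1 this).1
        · have : z ∈ on G (R ∪ X) A x ∩ X := mem_inter.2 ⟨hz, h⟩
          rw [he.2] at this; exact (mem_inter.1 this).1
      · intro hz
        have hz' := hz
        rw [mem_on, mem_union] at hz'
        rcases hz'.1.1 with h | h
        · have : z ∈ on G (R ∪ X) A y ∩ R := mem_inter.2 ⟨hz, h⟩
          rw [← he.1] at this; exact (mem_inter.1 this).1
        · have : z ∈ on G (R ∪ X) A y ∩ X := mem_inter.2 ⟨hz, h⟩
          rw [← he.2] at this; exact (mem_inter.1 this).1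
  rw [card_product, card_powerset] at h1
  exact h1.trans (Nat.mul_le_mul_right _ h0)

/-- a tree for `R` and few more vertices give a tree for `R ∪ X`. -/
lemma DT.add {K : ℕ} {R X : Finset V} (h : DT G K R R) (hX : Disjoint R X) :
    DT G ((K + 1) * 2 ^ X.card) (R ∪ X) (R ∪ X) := by
  have h1 : DT G ((K + 1) * 2 ^ X.card) (R ∪ X) R :=
    h.transfer fun B hB hn => (nt_ambient hB hX).trans (Nat.mul_le_mul_right _ (by omega))
  have : ∀ Y ⊆ X, DT G ((K + 1) * 2 ^ X.card) (R ∪ X) (R ∪ Y) := by
    intro Y
    induction Y using Finset.induction_on with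
    | empty => intro _; simpa using h1
    | insert a s ha ih =>
      intro hs
      have hs' : s ⊆ X := (subset_insert _ _).trans hs
      have haX : a ∈ X := hs (mem_insert_self _ _)
      have e : R ∪ insert a s = (R ∪ s) ∪ {a} := by
        ext z; simp only [mem_union, mem_insert, mem_singleton]; tauto
      rw [e]
      refine DT.node ?_ (ih hs') (DT.leaf a) ?_
      · rw [disjoint_singleton_right, mem_union, not_or]
        exact ⟨fun h => (Finset.disjoint_left.1 hX) h haX, ha⟩
      · refine (nt_le_pow (O := X) ?_).trans (Nat.le_mul_of_pos_left _ (by omega))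
        intro x _ z hz
        simp only [mem_on, mem_union, not_or] at hz
        tauto
  exact this X (Subset.refl _)

/-- union of components -/
lemma dt_of_components {K : ℕ} {R : Finset V} (hR : R.Nonempty)
    (h : ∀ x ∈ R, DT G K R (cpt G R x)) : DT G K R R := by
  have key : ∀ n : ℕ, ∀ S ⊆ R, S.card ≤ n → S.Nonempty → (∀ x ∈ S, cpt G R x ⊆ S) → DT G K R S := by
    intro n
    induction n with
    | zero =>
      intro S _ hc hn
      rw [Nat.le_zero, card_eq_zero] at hc
      rw [hc] at hn; simp at hn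
    | succ n ih =>
      intro S hS hc hn hcl
      obtain ⟨x, hx⟩ := hn
      by_cases he : (S \ cpt G R x).Nonempty
      · have e : S = cpt G R x ∪ (S \ cpt G R x) := by
          rw [union_sdiff_of_subset (hcl x hx)]
        have hcard : (S \ cpt G R x).card ≤ n := by
          have : (S \ cpt G R x).card < S.card := card_lt_card (by
            refine ⟨sdiff_subset, fun h' => ?_⟩
            exact (mem_sdiff.1 (h' hx)).2 (mem_cpt_self (hS hx)))
          omega
        have h2 := ih (S \ cpt G R x) (sdiff_subset.trans hS) hcard he (by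
          intro y hy z hz
          obtain ⟨hyS, hyc⟩ := mem_sdiff.1 hy
          refine mem_sdiff.2 ⟨hcl y hyS hz, fun hz' => hyc ?_⟩
          have e1 := cpt_eq_of_mem (hS hyS) hz
          have e2 := cpt_eq_of_mem (hS hx) hz'
          rw [← e2, e1]
          exact mem_cpt_self (hS hyS))
        rw [e]
        refine DT.node disjoint_sdiff (h x (hS hx)) h2 ?_
        rw [← e, nt_closed]
        · exact Nat.zero_le _
        · intro a ha z hz hzS hadj
          exact not_adj_cpt (hS ha) (mem_cpt_self (hS ha)) hz (fun h' => hzS (hcl a ha h')) hadj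
      · have : S = cpt G R x := by
          rw [not_nonempty_iff_eq_empty, sdiff_eq_empty_iff_subset] at he
          exact subset_antisymm he (hcl x hx)
        rw [this]; exact h x (hS hx)
  exact key R.card R (Subset.refl _) le_rfl hR (fun x _ => cpt_subset)

/-! ### regions of maximum degree two -/

lemma edges_le_two' {R P : Finset V} (hPR : P ⊆ R)
    (hdeg : ∀ x ∈ P, (R.filter (fun y => G.Adj x y)).card ≤ 2) :
    ∀ n : ℕ, ∀ A ⊆ P, A.card ≤ n → Cn G A → ∑ x ∈ A, (on G R A x).card ≤ 2 := by
  intro n
  induction n with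
  | zero =>
    intro A _ hc hA
    rw [Nat.le_zero, card_eq_zero] at hc
    have := hA.1
    rw [hc] at this; simp at this
  | succ n ih =>
    intro A hAP hc hA
    have hAR : A ⊆ R := hAP.trans hPR
    obtain ⟨a, ha⟩ := hA.1
    by_cases he : A = {a}
    · subst he
      rw [sum_singleton]
      refine (card_le_card ?_).trans (hdeg a (hAP ha))
      intro y hy
      rw [mem_on] at hy
      exact mem_filter.2 ⟨hy.1.1, hy.2⟩
    · obtain ⟨z, hz, hza, hcn⟩ := hA.leaf_ne ha he
      have hc' : (A.erase z).card ≤ n := by rw [card_erase_of_mem hz]; omega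
      have h1 := ih (A.erase z) ((erase_subset _ _).trans hAP) hc' hcn
      -- edges from `A.erase z` to `z`
      have hins : A = insert z (A.erase z) := (insert_erase hz).symm
      have hsum : ∑ x ∈ A, (on G R A x).card = (on G R A z).card + ∑ x ∈ A.erase z, (on G R A x).card := by
        rw [← Finset.add_sum_erase A _ hz]
      have hsplit : ∀ x ∈ A.erase z, (on G R (A.erase z) x).card =
          (on G R A x).card + (if G.Adj x z then 1 else 0) := by
        intro x hx
        by_cases hxz : G.Adj x z
        · have : on G R (A.erase z) x = insert z (on G R A x) := by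
            ext y
            simp only [mem_on, mem_erase, mem_insert, not_and]
            constructor
            · rintro ⟨⟨h1, h2⟩, h3⟩
              by_cases hyz : y = z
              · left; exact hyz
              · right; exact ⟨⟨h1, h2 hyz⟩, h3⟩
            · rintro (rfl | ⟨⟨h1, h2⟩, h3⟩)
              · exact ⟨⟨hAR hz, fun h => absurd rfl h⟩, hxz⟩
              · exact ⟨⟨h1, fun _ => h2⟩, h3⟩
          rw [this, card_insert_of_notMem (by simp [mem_on, hz]), if_pos hxz]
        · have : on G R (A.erase z) x = on G R A x := by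
            ext y
            simp only [mem_on, mem_erase, not_and]
            constructor
            · rintro ⟨⟨h1, h2⟩, h3⟩
              have hyz : y ≠ z := by rintro rfl; exact hxz h3
              exact ⟨⟨h1, h2 hyz⟩, h3⟩
            · rintro ⟨⟨h1, h2⟩, h3⟩
              exact ⟨⟨h1, fun _ => h2⟩, h3⟩
          rw [this, if_neg hxz]; rfl
      rw [sum_congr rfl hsplit, sum_add_distrib, ← card_filter] at h1
      -- degree of z
      have hd := hdeg z (hAP hz)
      have hdisj : Disjoint ((A.erase z).filter (fun x => G.Adj x z)) (on G R A z) := by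
        rw [Finset.disjoint_left]
        intro y hy hy'
        rw [mem_filter, mem_erase] at hy
        rw [mem_on] at hy'
        exact hy'.1.2 hy.1.2
      have hsub : ((A.erase z).filter (fun x => G.Adj x z)) ∪ (on G R A z) ⊆
          R.filter (fun y => G.Adj z y) := by
        intro y hy
        rcases mem_union.1 hy with hy | hy
        · rw [mem_filter, mem_erase] at hy
          exact mem_filter.2 ⟨hAR hy.1.2, hy.2.symm⟩
        · rw [mem_on] at hy
          exact mem_filter.2 ⟨hy.1.1, hy.2⟩
      have h3 := (card_le_card hsub).trans hd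
      rw [card_union_of_disjoint hdisj] at h3
      have h4 : 1 ≤ ((A.erase z).filter (fun x => G.Adj x z)).card := by
        obtain ⟨x, hx, y, hy, hxy⟩ := hA.2 (A.erase z) (erase_subset _ _) hcn.1
          ⟨z, mem_sdiff.2 ⟨hz, notMem_erase _ _⟩⟩
        have : y = z := by
          obtain ⟨h1, h2⟩ := mem_sdiff.1 hy
          by_contra hne
          exact h2 (mem_erase.2 ⟨hne, h1⟩)
        subst this
        exact card_pos.2 ⟨x, mem_filter.2 ⟨hx, hxy⟩⟩
      rw [hsum]; omega

lemma edges_le_two {R : Finset V} (hdeg : ∀ x ∈ R, (R.filter (fun y => G.Adj x y)).card ≤ 2) :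
    ∀ n : ℕ, ∀ A ⊆ R, A.card ≤ n → Cn G A → ∑ x ∈ A, (on G R A x).card ≤ 2 :=
  edges_le_two' (Subset.refl _) hdeg

lemma dt_deg_two {R : Finset V} (hdeg : ∀ x ∈ R, (R.filter (fun y => G.Adj x y)).card ≤ 2) :
    ∀ n : ℕ, ∀ A ⊆ R, A.card ≤ n → Cn G A → DT G 2 R A := by
  intro n
  induction n with
  | zero =>
    intro A _ hc hA
    rw [Nat.le_zero, card_eq_zero] at hc
    have := hA.1
    rw [hc] at this; simp at this
  | succ n ih =>
    intro A hAR hc hA
    obtain ⟨a, ha⟩ := hA.1
    by_cases he : A = {a}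
    · subst he; exact DT.leaf a
    · obtain ⟨z, hz, hza, hcn⟩ := hA.leaf_ne ha he
      have hc' : (A.erase z).card ≤ n := by rw [card_erase_of_mem hz]; omega
      have e : A = A.erase z ∪ {z} := by
        ext y; simp only [mem_union, mem_erase, mem_singleton]
        by_cases hyz : y = z
        · subst hyz; simp [hz]
        · simp [hyz]
      have h0 := edges_le_two hdeg A.card A hAR le_rfl hA
      rw [e]
      refine DT.node (by simp) (ih _ ((erase_subset _ _).trans hAR) hc' hcn) (DT.leaf z) ?_
      rw [← e]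
      have h1 : nt G R A ≤ (A.filter (fun x => on G R A x ≠ ∅)).card :=
        nt_le_boundary fun x hx hne => mem_filter.2 ⟨hx, hne⟩
      refine h1.trans (le_trans ?_ h0)
      rw [card_filter]
      apply sum_le_sum
      intro x _
      split_ifs with h
      · exact card_pos.2 (nonempty_iff_ne_empty.2 h)
      · exact Nat.zero_le _

/-! ### cographs -/

/-- no induced path on four vertices inside `D` -/
def P4Free (G : SimpleGraph V) (D : Finset V) : Prop :=
  ∀ a ∈ D, ∀ b ∈ D, ∀ c ∈ D, ∀ d ∈ D, a ≠ c → a ≠ d → b ≠ d → G.Adj a b → G.Adj b c → G.Adj c d →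
    G.Adj a c ∨ G.Adj a d ∨ G.Adj b d

lemma P4Free.mono {D D' : Finset V} (h : P4Free G D) (hs : D' ⊆ D) : P4Free G D' :=
  fun a ha b hb c hc d hd => h a (hs ha) b (hs hb) c (hs hc) d (hs hd)

lemma P4Free.compl {D : Finset V} (h : P4Free G D) : P4Free Gᶜ D := by
  intro a ha b hb c hc d hd hac had hbd hab hbc hcd
  simp only [SimpleGraph.compl_adj] at *
  by_contra hcon
  push Not at hcon
  obtain ⟨h1, h2, h3⟩ := hcon
  have h1 := h1 hac
  have h2 := h2 had
  have h3 := h3 hbd
  -- complement path : b d a c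
  rcases h b hb d hd a ha c hc (Ne.symm hab.1) hbc.1 (Ne.symm hcd.1) h3 h2.symm h1 with h | h | h
  · exact hab.2 h.symm
  · exact hbc.2 h
  · exact hcd.2 h.symm

def Spl (G : SimpleGraph V) (D : Finset V) : Prop :=
  ∃ A B : Finset V, A.Nonempty ∧ B.Nonempty ∧ Disjoint A B ∧ A ∪ B = D ∧
    ((∀ a ∈ A, ∀ b ∈ B, ¬ G.Adj a b) ∨ (∀ a ∈ A, ∀ b ∈ B, G.Adj a b))

lemma spl_compl {D : Finset V} (h : Spl Gᶜ D) : Spl G D := by
  obtain ⟨A, B, hA, hB, hd, hu, h⟩ := h
  refine ⟨A, B, hA, hB, hd, hu, ?_⟩
  rcases h with h | h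
  · right
    intro a ha b hb
    have := h a ha b hb
    simp only [SimpleGraph.compl_adj, not_and, not_not] at this
    exact this (fun h => (Finset.disjoint_left.1 hd) ha (h ▸ hb))
  · left
    intro a ha b hb
    exact (h a ha b hb).2

lemma spl_aux {D : Finset V} (hP : P4Free G D) {v : V} (hv : v ∈ D)
    {A B : Finset V} (hA : A.Nonempty) (hB : B.Nonempty) (hd : Disjoint A B)
    (hu : A ∪ B = D.erase v) (hno : ∀ a ∈ A, ∀ b ∈ B, ¬ G.Adj a b) : Spl G D := by
  by_cases hc : Cn G D
  · by_cases hcomp : ∀ w ∈ D.erase v, G.Adj v w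
    · refine ⟨{v}, D.erase v, ⟨v, by simp⟩, ?_, ?_, ?_, Or.inr ?_⟩
      · rw [← hu]; exact hA.mono subset_union_left
      · simp
      · rw [← Finset.insert_eq, insert_erase hv]
      · intro a ha b hb
        rw [mem_singleton] at ha; subst ha
        exact hcomp b hb
    · exfalso
      push Not at hcomp
      obtain ⟨w, hw, hvw⟩ := hcomp
      set D' := D.erase v with hD'
      have nb : ∀ u ∈ D', ∃ y ∈ cpt G D' u, G.Adj v y := by
        intro u hu'
        obtain ⟨x, hx, y, hy, hxy⟩ := hc.2 (cpt G D' u) (cpt_subset.trans (erase_subset _ _))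
          ⟨u, mem_cpt_self hu'⟩ ⟨v, mem_sdiff.2 ⟨hv, fun h => notMem_erase v D (cpt_subset h)⟩⟩
        obtain ⟨hy1, hy2⟩ := mem_sdiff.1 hy
        by_cases hyv : y = v
        · subst hyv; exact ⟨x, hx, hxy.symm⟩
        · exfalso
          exact not_adj_cpt hu' hx (mem_erase.2 ⟨hyv, hy1⟩) hy2 hxy
      set C1 := cpt G D' w with hC1
      have hC1c : Cn G C1 := cn_cpt hw
      -- another component
      have : ∃ u ∈ D', u ∉ C1 := by
        by_contra hcon
        push Not at hcon
        have hall : Cn G D' := by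
          apply cn_of_cpt_eq hw
          exact subset_antisymm cpt_subset hcon
        have hAD : A ⊆ D' := by rw [← hu]; exact subset_union_left
        obtain ⟨b0, hb0⟩ := hB
        obtain ⟨x, hx, y, hy, hxy⟩ := hall.2 A hAD hA ⟨b0, mem_sdiff.2
          ⟨by rw [← hu]; exact mem_union_right _ hb0, fun h => (Finset.disjoint_left.1 hd) h hb0⟩⟩
        obtain ⟨hy1, hy2⟩ := mem_sdiff.1 hy
        rw [← hu, mem_union] at hy1
        exact hno x hx y (hy1.resolve_left hy2) hxy
      obtain ⟨u, huD, huC⟩ := this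
      obtain ⟨c, hcC, hvc⟩ := nb u huD
      obtain ⟨y, hyC, hvy⟩ := nb w hw
      obtain ⟨a, ha, b, hb, hab⟩ := hC1c.2 (C1.filter (fun z => G.Adj v z)) (filter_subset _ _)
        ⟨y, mem_filter.2 ⟨hyC, hvy⟩⟩ ⟨w, mem_sdiff.2 ⟨mem_cpt_self hw, fun h => hvw (mem_filter.1 h).2⟩⟩
      obtain ⟨haC, hva⟩ := mem_filter.1 ha
      obtain ⟨hbC, hb'⟩ := mem_sdiff.1 hb
      have hvb : ¬ G.Adj v b := fun h => hb' (mem_filter.2 ⟨hbC, h⟩)
      have hcC1 : c ∉ C1 := by
        intro h
        apply huC
        have e1 := cpt_eq_of_mem hw h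
        have e2 := cpt_eq_of_mem huD hcC
        rw [hC1, ← e1, e2]; exact mem_cpt_self huD
      have hcD : c ∈ D' := cpt_subset hcC
      have haD : a ∈ D' := cpt_subset haC
      have hbD : b ∈ D' := cpt_subset hbC
      have hca : ¬ G.Adj c a := fun h => not_adj_cpt hw haC hcD hcC1 h.symm
      have hcb : ¬ G.Adj c b := fun h => not_adj_cpt hw hbC hcD hcC1 h.symm
      rcases hP c (mem_of_mem_erase hcD) v hv a (mem_of_mem_erase haD) b (mem_of_mem_erase hbD)
        (by rintro rfl; exact hcC1 haC) (by rintro rfl; exact hcC1 hbC)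
        (by rintro rfl; exact notMem_erase _ _ hbD) hvc.symm hva hab with h | h | h
      · exact hca h
      · exact hcb h
      · exact hvb h
  · -- `D` is disconnected
    refine ⟨cpt G D v, D \ cpt G D v, ⟨v, mem_cpt_self hv⟩, ?_, disjoint_sdiff,
      union_sdiff_of_subset cpt_subset, Or.inl ?_⟩
    · by_contra h
      rw [not_nonempty_iff_eq_empty, sdiff_eq_empty_iff_subset] at h
      exact hc (cn_of_cpt_eq hv (subset_antisymm cpt_subset h))
    · intro a ha b hb
      exact not_adj_cpt hv ha (mem_sdiff.1 hb).1 (mem_sdiff.1 hb).2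

theorem spl_of_p4free : ∀ n : ℕ, ∀ (G : SimpleGraph V) (D : Finset V), D.card ≤ n → 2 ≤ D.card →
    P4Free G D → Spl G D := by
  intro n
  induction n with
  | zero => intro G D h1 h2; omega
  | succ n ih =>
    intro G D h1 h2 hP
    obtain ⟨v, hv⟩ : D.Nonempty := card_pos.1 (by omega)
    have hce : (D.erase v).card = D.card - 1 := card_erase_of_mem hv
    by_cases h3 : 2 ≤ (D.erase v).card
    · obtain ⟨A, B, hA, hB, hd, hu, h⟩ := ih G (D.erase v) (by omega) h3 (hP.mono (erase_subset _ _))
      rcases h with h | h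
      · exact spl_aux hP hv hA hB hd hu h
      · apply spl_compl
        refine spl_aux hP.compl hv hA hB hd hu ?_
        intro a ha b hb
        simp only [SimpleGraph.compl_adj, not_and, not_not]
        exact fun _ => h a ha b hb
    · obtain ⟨w, hw⟩ : ∃ w, D.erase v = {w} := card_eq_one.1 (by omega)
      refine ⟨{v}, {w}, by simp, by simp, ?_, ?_, ?_⟩
      · rw [disjoint_singleton]
        rintro rfl
        exact notMem_erase v D (by rw [hw]; simp)
      · rw [← hw, ← Finset.insert_eq, insert_erase hv]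
      · by_cases hvw : G.Adj v w
        · right; simp [hvw]
        · left; simp [hvw]

lemma dt_cograph : ∀ n : ℕ, ∀ (R D : Finset V), D.card ≤ n → D.Nonempty → D ⊆ R → P4Free G D →
    (∀ x ∈ D, ∀ y ∈ D, ∀ z ∈ R, z ∉ D → (G.Adj x z ↔ G.Adj y z)) → DT G 1 R D := by
  intro n
  induction n with
  | zero =>
    intro R D h1 h2
    rw [Nat.le_zero, card_eq_zero] at h1
    rw [h1] at h2; simp at h2
  | succ n ih =>
    intro R D h1 h2 hDR hP hm
    by_cases h3 : 2 ≤ D.card
    · obtain ⟨A, B, hA, hB, hd, hu, h⟩ := spl_of_p4free D.card G D le_rfl h3 hP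
      have hAD : A ⊆ D := by rw [← hu]; exact subset_union_left
      have hBD : B ⊆ D := by rw [← hu]; exact subset_union_right
      have hcard : A.card + B.card = D.card := by rw [← hu, card_union_of_disjoint hd]
      have hA0 := card_pos.2 hA
      have hB0 := card_pos.2 hB
      have gen : ∀ A B : Finset V, A ∪ B = D → A ⊆ D → Disjoint A B →
          ((∀ a ∈ A, ∀ b ∈ B, ¬ G.Adj a b) ∨ (∀ a ∈ A, ∀ b ∈ B, G.Adj a b)) →
          (∀ x ∈ A, ∀ y ∈ A, ∀ z ∈ R, z ∉ A → (G.Adj x z ↔ G.Adj y z)) := by
        intro A B hu hAD hd h x hx y hy z hz hzA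
        by_cases hzD : z ∈ D
        · have hzB : z ∈ B := by
            rw [← hu, mem_union] at hzD; exact hzD.resolve_left hzA
          rcases h with h | h
          · exact iff_of_false (h x hx z hzB) (h y hy z hzB)
          · exact iff_of_true (h x hx z hzB) (h y hy z hzB)
        · exact hm x (hAD hx) y (hAD hy) z hz hzD
      rw [← hu]
      refine DT.node hd (ih R A (by omega) hA (hAD.trans hDR) (hP.mono hAD) (gen A B hu hAD hd h))
        (ih R B (by omega) hB (hBD.trans hDR) (hP.mono hBD) (gen B A (by rw [union_comm]; exact hu) hBD hd.symm ?_)) ?_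
      · rcases h with h | h
        · exact Or.inl fun b hb a ha hab => h a ha b hb hab.symm
        · exact Or.inr fun b hb a ha => (h a ha b hb).symm
      · rw [hu]; exact nt_module hm
    · obtain ⟨x, hx⟩ := h2
      have : D = {x} := by
        apply (Finset.eq_singleton_iff_unique_mem).2 ⟨hx, fun y hy => ?_⟩
        by_contra hne
        have : 2 ≤ D.card := Finset.one_lt_card.2 ⟨y, hy, x, hx, hne⟩
        omega
      rw [this]; exact DT.leaf x

/-- regions: every component of `R` has maximum degree two or is a cograph -/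
def Regions (G : SimpleGraph V) (R : Finset V) : Prop :=
  ∀ x ∈ R, (∀ y ∈ cpt G R x, (R.filter (fun z => G.Adj y z)).card ≤ 2) ∨ P4Free G (cpt G R x)

lemma dt_regions {R : Finset V} (hR : R.Nonempty) (h : Regions G R) : DT G 2 R R := by
  apply dt_of_components hR
  intro x hx
  rcases h x hx with h | h
  · -- transfer from the component
    have h1 : DT G 2 (cpt G R x) (cpt G R x) := by
      refine dt_deg_two (R := cpt G R x) ?_ _ _ (Subset.refl _) le_rfl (cn_cpt hx)
      intro y hy
      refine (card_le_card ?_).trans (h y hy)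
      exact filter_subset_filter _ cpt_subset
    refine h1.transfer fun B hB hn => ?_
    have : nt G R B = nt G (cpt G R x) B := by
      unfold nt
      congr 2
      apply image_congr
      intro y hy
      ext z
      simp only [mem_on]
      constructor
      · rintro ⟨⟨h1, h2⟩, h3⟩
        refine ⟨⟨?_, h2⟩, h3⟩
        by_contra hz
        exact not_adj_cpt hx (hB hy) h1 hz h3
      · rintro ⟨⟨h1, h2⟩, h3⟩
        exact ⟨⟨cpt_subset h1, h2⟩, h3⟩
    rw [this]; exact hn
  · refine (dt_cograph _ R (cpt G R x) le_rfl ⟨x, mem_cpt_self hx⟩ cpt_subset h ?_).mono (by omega)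
    intro y hy z hz w hw hw'
    exact iff_of_false (not_adj_cpt hx hy hw hw') (not_adj_cpt hx hz hw hw')

/-- `G` is tame: deleting at most `k` vertices leaves only regions. -/
def Tame [Fintype V] (G : SimpleGraph V) (k : ℕ) : Prop :=
  ∃ X : Finset V, X.card ≤ k ∧ Regions G (univ \ X)

lemma dt_of_tame [Fintype V] [Nonempty V] {k : ℕ} (h : Tame G k) : DT G (3 * 2 ^ k) univ univ := by
  obtain ⟨X, hX, hR⟩ := h
  by_cases hne : (univ \ X : Finset V).Nonempty
  · have h1 := (dt_regions hne hR).add (X := X) sdiff_disjoint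
    rw [sdiff_union_of_subset (subset_univ _)] at h1
    exact h1.mono (Nat.mul_le_mul_left _ (Nat.pow_le_pow_right (by omega) hX))
  · -- everything is in `X`
    have hu : (univ : Finset V).card ≤ k := by
      rw [not_nonempty_iff_eq_empty, sdiff_eq_empty_iff_subset] at hne
      exact (card_le_card hne).trans hX
    have : ∀ A : Finset V, A.Nonempty → DT G (3 * 2 ^ k) univ A := by
      intro A
      induction A using Finset.induction_on with
      | empty => intro h; simp at h
      | insert a s ha ih =>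
        intro _
        by_cases hs : s.Nonempty
        · rw [Finset.insert_eq]
          refine DT.node (by simpa using ha) (DT.leaf a) (ih hs) ?_
          refine (nt_le_pow (O := univ) fun _ _ => subset_univ _).trans ?_
          refine (Nat.pow_le_pow_right (by omega) hu).trans (by omega)
        · rw [not_nonempty_iff_eq_empty] at hs
          subst hs
          simpa using DT.leaf a
    exact this univ univ_nonempty

end Pool.Agent.H175R2
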