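import Pool.Agent.H175R2.Defs

set_option autoImplicit false

namespace Pool.Agent.H175R2

open SimpleGraph

/-! ### What the five families give -/

theorem cone_universal {W : Type} {H : SimpleGraph W} {n : ℕ} (h : IsContraction (famCone n) H) :
    ∃ w₀, ∀ w, w ≠ w₀ → H.Adj w₀ w := by
  obtain ⟨f, hc, ha⟩ := h
  refine ⟨f none, fun w hw => ?_⟩
  rw [ha _ _ hw.symm]
  obtain ⟨⟨v, hv⟩⟩ := (hc w).nonempty
  simp only [Set.mem_ofPred_eq] at hv
  refine ⟨none, v, rfl, hv, ?_⟩
  unfold famCone
  rw [SimpleGraph.fromRel_adj]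
  refine ⟨?_, Or.inl (Or.inl rfl)⟩
  intro h0
  apply hw
  rw [← hv, ← h0]

theorem cobip_alpha {W : Type} {H : SimpleGraph W} {n : ℕ} (h : IsContraction (famCobip n) H)
    (x y z : W) (hxy : x ≠ y) (hxz : x ≠ z) (hyz : y ≠ z) : H.Adj x y ∨ H.Adj x z ∨ H.Adj y z := by
  obtain ⟨f, hc, ha⟩ := h
  have key : ∀ a b : W, a ≠ b → (((∃ i, f (.inl i) = a) ∧ (∃ j, f (.inl j) = b)) ∨
      ((∃ p, f (.inr p) = a) ∧ (∃ q, f (.inr q) = b))) → H.Adj a b := by
    rintro a b hab (⟨⟨i, hi⟩, ⟨j, hj⟩⟩ | ⟨⟨i, hi⟩, ⟨j, hj⟩⟩)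
    · rw [ha _ _ hab]
      refine ⟨_, _, hi, hj, ?_⟩
      unfold famCobip
      rw [SimpleGraph.fromRel_adj]
      refine ⟨?_, Or.inl (Or.inl ⟨i, j, rfl, rfl⟩)⟩
      intro h0; rw [h0] at hi; exact hab (hi.symm.trans hj)
    · rw [ha _ _ hab]
      refine ⟨_, _, hi, hj, ?_⟩
      unfold famCobip
      rw [SimpleGraph.fromRel_adj]
      refine ⟨?_, Or.inl (Or.inr (Or.inl ⟨i, j, rfl, rfl⟩))⟩
      intro h0; rw [h0] at hi; exact hab (hi.symm.trans hj)
  have type : ∀ a : W, (∃ i, f (.inl i) = a) ∨ (∃ p, f (.inr p) = a) := by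
    intro a
    obtain ⟨⟨v, hv⟩⟩ := (hc a).nonempty
    simp only [Set.mem_ofPred_eq] at hv
    rcases v with i | p
    · exact Or.inl ⟨i, hv⟩
    · exact Or.inr ⟨p, hv⟩
  rcases type x with hx | hx <;> rcases type y with hy | hy
  · exact Or.inl (key x y hxy (Or.inl ⟨hx, hy⟩))
  · rcases type z with hz | hz
    · exact Or.inr (Or.inl (key x z hxz (Or.inl ⟨hx, hz⟩)))
    · exact Or.inr (Or.inr (key y z hyz (Or.inr ⟨hy, hz⟩)))
  · rcases type z with hz | hz
    · exact Or.inr (Or.inr (key y z hyz (Or.inl ⟨hy, hz⟩)))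
    · exact Or.inr (Or.inl (key x z hxz (Or.inr ⟨hx, hz⟩)))
  · exact Or.inl (key x y hxy (Or.inr ⟨hx, hy⟩))

theorem split_structure {W : Type} {H : SimpleGraph W} {n : ℕ}
    (h : IsContraction (famSplit n) H) :
    ∃ K : Set W, (∀ a ∈ K, ∀ b ∈ K, a ≠ b → H.Adj a b) ∧
      ∀ w, w ∉ K → ∃ a ∈ K, ∃ b ∈ K, ∀ w', H.Adj w w' → w' = a ∨ w' = b := by
  obtain ⟨f, hc, ha⟩ := h
  have noRR : ∀ p q : Fin n × Fin n, ¬ (famSplit n).Adj (.inr p) (.inr q) := by
    intro p q hpq
    unfold famSplit at hpq
    rw [SimpleGraph.fromRel_adj] at hpq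
    rcases hpq with ⟨_, (⟨a, b, h1, _⟩ | ⟨a, p', h1, _⟩) | (⟨a, b, h1, _⟩ | ⟨a, p', h1, _⟩)⟩ <;>
      cases h1
  refine ⟨{w | ∃ i, f (.inl i) = w}, ?_, ?_⟩
  · rintro a ⟨i, hi⟩ b ⟨j, hj⟩ hab
    rw [ha _ _ hab]
    refine ⟨_, _, hi, hj, ?_⟩
    unfold famSplit
    rw [SimpleGraph.fromRel_adj]
    refine ⟨?_, Or.inl (Or.inl ⟨i, j, rfl, rfl⟩)⟩
    intro h0; rw [h0] at hi; exact hab (hi.symm.trans hj)
  · intro w hw
    obtain ⟨⟨v, hv⟩⟩ := (hc w).nonempty
    simp only [Set.mem_ofPred_eq] at hv
    rcases v with i | p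
    · exact absurd ⟨i, hv⟩ hw
    · have huniq : ∀ v, f v = w → v = .inr p := by
        intro v' hv'
        by_contra hne
        obtain ⟨q⟩ := (hc w).preconnected ⟨.inr p, hv⟩ ⟨v', hv'⟩
        cases q with
        | nil => exact hne rfl
        | @cons _ u _ hadj _ =>
          obtain ⟨u, hu⟩ := u
          rw [SimpleGraph.induce_adj] at hadj
          rcases u with i | p'
          · exact hw ⟨i, hu⟩
          · exact noRR _ _ hadj
      refine ⟨f (.inl p.1), ⟨p.1, rfl⟩, f (.inl p.2), ⟨p.2, rfl⟩, fun w' hww' => ?_⟩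
      obtain ⟨x, y, hx, hy, hxy⟩ := (ha w w' hww'.ne).mp hww'
      rw [huniq x hx] at hxy
      unfold famSplit at hxy
      rw [SimpleGraph.fromRel_adj] at hxy
      rcases hxy with ⟨_, (⟨a, b, h1, _⟩ | ⟨a, p', h1, _⟩) | (⟨a, b, _, h1⟩ | ⟨a, p', h1, h2, h3⟩)⟩
      · cases h1
      · cases h1
      · cases h1
      · cases h2
        rcases h3 with h3 | h3
        · left; rw [← hy, h1, h3]
        · right; rw [← hy, h1, h3]

theorem no_five_clique {W : Type} {H : SimpleGraph W} (w₀ : W) (hu : ∀ w, w ≠ w₀ → H.Adj w₀ w)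
    (h4 : ¬ IsContraction H (⊤ : SimpleGraph (Fin 5))) (e : Fin 5 → W)
    (he : ∀ i j, i ≠ j → H.Adj (e i) (e j)) : False := by
  classical
  -- we may assume that `w₀` is in the clique
  have hinj : Function.Injective e := by
    intro i j hij
    by_contra hne
    exact (he i j hne).ne hij
  have main : ∀ e : Fin 5 → W, Function.Injective e → (∀ i j, i ≠ j → H.Adj (e i) (e j)) →
      e 0 = w₀ → False := by
    intro e hinj he h0
    apply h4
    refine ⟨fun w => if hw : ∃ i, e i = w then hw.choose else 0, ?_, ?_⟩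
    · intro i
      have hval : ∀ i, (if hw : ∃ k, e k = e i then hw.choose else 0) = i := by
        intro i
        have hw : ∃ k, e k = e i := ⟨i, rfl⟩
        rw [dif_pos hw]
        exact hinj hw.choose_spec
      by_cases hi : i = 0
      · subst hi
        have : Nonempty {w : W | (if hw : ∃ i, e i = w then hw.choose else 0) = 0} :=
          ⟨⟨e 0, hval 0⟩⟩
        refine ⟨?_⟩
        have hr : ∀ x : {w : W | (if hw : ∃ i, e i = w then hw.choose else 0) = 0},
            (H.induce {w : W | (if hw : ∃ i, e i = w then hw.choose else 0) = 0}).Reachable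
              ⟨e 0, hval 0⟩ x := by
          rintro ⟨x, hx⟩
          by_cases hx0 : x = e 0
          · subst hx0; exact Reachable.refl _
          · apply Adj.reachable
            rw [SimpleGraph.induce_adj]
            simp only
            rw [h0]
            exact hu x (h0 ▸ hx0)
        intro x y
        exact (hr x).symm.trans (hr y)
      · have hs : ∀ w, (if hw : ∃ k, e k = w then hw.choose else 0) = i → w = e i := by
          intro w hw
          by_cases h : ∃ k, e k = w
          · rw [dif_pos h] at hw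
            rw [← hw, h.choose_spec]
          · rw [dif_neg h] at hw
            exact absurd hw.symm hi
        have : Nonempty {w : W | (if hw : ∃ i, e i = w then hw.choose else 0) = i} :=
          ⟨⟨e i, hval i⟩⟩
        refine ⟨?_⟩
        rintro ⟨x, hx⟩ ⟨y, hy⟩
        have h1 := hs x hx
        have h2 := hs y hy
        subst h1; subst h2
        exact Reachable.refl _
    · intro i j hij
      have hval : ∀ i, (if hw : ∃ k, e k = e i then hw.choose else 0) = i := by
        intro i
        have hw : ∃ k, e k = e i := ⟨i, rfl⟩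
        rw [dif_pos hw]
        exact hinj hw.choose_spec
      simp only [top_adj]
      exact ⟨fun _ => ⟨e i, e j, hval i, hval j, he i j hij⟩, fun _ => hij⟩
  by_cases hw : ∃ i, e i = w₀
  · obtain ⟨i, hi⟩ := hw
    refine main (e ∘ Equiv.swap 0 i) (hinj.comp (Equiv.injective _)) ?_ ?_
    · intro a b hab
      apply he
      intro h
      exact hab ((Equiv.swap 0 i).injective h)
    · simp [hi]
  · push Not at hw
    have hinj' : Function.Injective (Function.update e 0 w₀) := by
      intro a b hab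
      by_cases ha : a = 0 <;> by_cases hb : b = 0
      · rw [ha, hb]
      · subst ha; simp [Function.update_of_ne hb] at hab; exact absurd hab.symm (hw b)
      · subst hb; simp [Function.update_of_ne ha] at hab; exact absurd hab (hw a)
      · simp [Function.update_of_ne ha, Function.update_of_ne hb] at hab; exact hinj hab
    refine main (Function.update e 0 w₀) hinj' ?_ (by simp)
    intro a b hab
    by_cases ha : a = 0
    · subst ha
      rw [Function.update_self, Function.update_of_ne (Ne.symm hab)]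
      exact hu _ (hw b)
    · by_cases hb : b = 0
      · subst hb
        rw [Function.update_self, Function.update_of_ne hab]
        exact (hu _ (hw a)).symm
      · rw [Function.update_of_ne ha, Function.update_of_ne hb]
        exact he a b hab

theorem trunc_adj {n : ℕ} (x y : {p : Fin n × Fin n // p.1 ≠ p.2}) :
    (famTrunc n).Adj x y ↔ x ≠ y ∧ ¬ (x.1.1 = y.1.1 ∨ (x.1.1 = y.1.2 ∧ x.1.2 = y.1.1)) := by
  unfold famTrunc
  rw [SimpleGraph.fromRel_adj]
  constructor
  · rintro ⟨h1, h2 | h2⟩
    · exact ⟨h1, h2⟩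
    · refine ⟨h1, fun h3 => h2 ?_⟩
      rcases h3 with h3 | ⟨h3, h4⟩
      · exact Or.inl h3.symm
      · exact Or.inr ⟨h4.symm, h3.symm⟩
  · rintro ⟨h1, h2⟩
    exact ⟨h1, Or.inl h2⟩

theorem trunc_no_pendant {W : Type} {H : SimpleGraph W} {n : ℕ}
    (h : IsContraction (famTrunc n) H) (P R S U : W) (hPR : P ≠ R) (hPS : P ≠ S) (hPU : P ≠ U)
    (nR : ¬ H.Adj P R) (nS : ¬ H.Adj P S) (nU : ¬ H.Adj P U)
    (hRS : H.Adj R S) (hRU : H.Adj R U) (hSU : H.Adj S U) : False := by
  obtain ⟨f, hc, ha⟩ := h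
  obtain ⟨⟨p, hp⟩⟩ := (hc P).nonempty
  simp only [Set.mem_ofPred_eq] at hp
  have hN : ∀ Q, P ≠ Q → ¬ H.Adj P Q → ∀ v, f v = Q →
      v.1.1 = p.1.1 ∨ (v.1.1 = p.1.2 ∧ v.1.2 = p.1.1) := by
    intro Q hPQ nQ v hv
    by_contra hcon
    apply nQ
    rw [ha _ _ hPQ]
    refine ⟨p, v, hp, hv, ?_⟩
    rw [trunc_adj]
    refine ⟨?_, ?_⟩
    · intro h0; rw [h0] at hp; exact hPQ (hp.symm.trans hv)
    · rintro (h0 | ⟨h0, h1⟩)
      · exact hcon (Or.inl h0.symm)
      · exact hcon (Or.inr ⟨h1.symm, h0.symm⟩)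
  -- two adjacent bags not containing the reversed flag give a contradiction
  have key : ∀ A B, P ≠ A → ¬ H.Adj P A → P ≠ B → ¬ H.Adj P B → H.Adj A B →
      (∃ v, (f v = A ∨ f v = B) ∧ v.1.1 = p.1.2 ∧ v.1.2 = p.1.1) := by
    intro A B hPA nA hPB nB hAB
    obtain ⟨v, v', hv, hv', hvv⟩ := (ha A B hAB.ne).mp hAB
    rw [trunc_adj] at hvv
    rcases hN A hPA nA v hv with h1 | h1
    · rcases hN B hPB nB v' hv' with h2 | h2
      · exact absurd (Or.inl (h1.trans h2.symm)) hvv.2
      · exact ⟨v', Or.inr hv', h2⟩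
    · exact ⟨v, Or.inl hv, h1⟩
  have huniq : ∀ v v' : {p : Fin n × Fin n // p.1 ≠ p.2}, v.1.1 = p.1.2 ∧ v.1.2 = p.1.1 →
      v'.1.1 = p.1.2 ∧ v'.1.2 = p.1.1 → v = v' := by
    intro v v' h1 h2
    apply Subtype.ext
    apply Prod.ext
    · rw [h1.1, h2.1]
    · rw [h1.2, h2.2]
  obtain ⟨a, ha1, ha2⟩ := key R S hPR nR hPS nS hRS
  obtain ⟨b, hb1, hb2⟩ := key R U hPR nR hPU nU hRU
  obtain ⟨c, hc1, hc2⟩ := key S U hPS nS hPU nU hSU
  have hab := huniq a b ha2 hb2
  have hac := huniq a c ha2 hc2
  subst hab; subst hac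
  have h1 : R ≠ S := hRS.ne
  have h2 : R ≠ U := hRU.ne
  have h3 : S ≠ U := hSU.ne
  rcases ha1 with h | h <;> rcases hb1 with h' | h' <;> rcases hc1 with h'' | h'' <;>
    first
      | exact h1 (h.symm.trans h')
      | exact h1 (h'.symm.trans h)
      | exact h1 (h.symm.trans h'')
      | exact h1 (h''.symm.trans h)
      | exact h2 (h.symm.trans h')
      | exact h2 (h.symm.trans h'')
      | exact h3 (h.symm.trans h')

/-! ### The classification -/

theorem iso_of {W : Type} (H : SimpleGraph W) {n : ℕ} (T : SimpleGraph (Fin n)) (e : Fin n → W)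
    (hinj : Function.Injective e) (hsurj : Function.Surjective e)
    (hadj : ∀ i j, i < j → (H.Adj (e i) (e j) ↔ T.Adj i j)) : Nonempty (H ≃g T) := by
  let E : Fin n ≃ W := Equiv.ofBijective e ⟨hinj, hsurj⟩
  refine ⟨⟨E.symm, ?_⟩⟩
  intro a b
  obtain ⟨i, rfl⟩ := E.surjective a
  obtain ⟨j, rfl⟩ := E.surjective b
  rw [Equiv.symm_apply_apply, Equiv.symm_apply_apply]
  have hE : ∀ i, E i = e i := fun i => rfl
  rw [hE, hE]
  rcases lt_trichotomy i j with h | h | h
  · exact (hadj i j h).symm
  · subst h; simp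
  · rw [T.adj_comm, H.adj_comm]; exact (hadj j i h).symm

theorem iso3 {W : Type} (H : SimpleGraph W) (T : SimpleGraph (Fin 3)) (a b c : W)
    (hd : a ≠ b ∧ a ≠ c ∧ b ≠ c) (hcov : ∀ w, w = a ∨ w = b ∨ w = c)
    (h01 : H.Adj a b ↔ T.Adj 0 1) (h02 : H.Adj a c ↔ T.Adj 0 2) (h12 : H.Adj b c ↔ T.Adj 1 2) :
    Nonempty (H ≃g T) := by
  obtain ⟨d1, d2, d3⟩ := hd
  refine iso_of H T ![a, b, c] ?_ ?_ ?_
  · intro i j hij
    fin_cases i <;> fin_cases j <;> simp_all
  · intro w
    rcases hcov w with h | h | h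
    · exact ⟨0, h.symm⟩
    · exact ⟨1, h.symm⟩
    · exact ⟨2, h.symm⟩
  · intro i j hij
    fin_cases i <;> fin_cases j <;> first | (exact absurd hij (by decide)) | assumption

theorem iso4 {W : Type} (H : SimpleGraph W) (T : SimpleGraph (Fin 4)) (a b c d : W)
    (hd : a ≠ b ∧ a ≠ c ∧ a ≠ d ∧ b ≠ c ∧ b ≠ d ∧ c ≠ d)
    (hcov : ∀ w, w = a ∨ w = b ∨ w = c ∨ w = d)
    (h01 : H.Adj a b ↔ T.Adj 0 1) (h02 : H.Adj a c ↔ T.Adj 0 2) (h03 : H.Adj a d ↔ T.Adj 0 3)
    (h12 : H.Adj b c ↔ T.Adj 1 2) (h13 : H.Adj b d ↔ T.Adj 1 3) (h23 : H.Adj c d ↔ T.Adj 2 3) :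
    Nonempty (H ≃g T) := by
  obtain ⟨d1, d2, d3, d4, d5, d6⟩ := hd
  refine iso_of H T ![a, b, c, d] ?_ ?_ ?_
  · intro i j hij
    fin_cases i <;> fin_cases j <;> simp_all
  · intro w
    rcases hcov w with h | h | h | h
    · exact ⟨0, h.symm⟩
    · exact ⟨1, h.symm⟩
    · exact ⟨2, h.symm⟩
    · exact ⟨3, h.symm⟩
  · intro i j hij
    fin_cases i <;> fin_cases j <;> first | (exact absurd hij (by decide)) | assumption

theorem iso5 {W : Type} (H : SimpleGraph W) (T : SimpleGraph (Fin 5)) (a b c d e : W)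
    (hd : a ≠ b ∧ a ≠ c ∧ a ≠ d ∧ a ≠ e ∧ b ≠ c ∧ b ≠ d ∧ b ≠ e ∧ c ≠ d ∧ c ≠ e ∧ d ≠ e)
    (hcov : ∀ w, w = a ∨ w = b ∨ w = c ∨ w = d ∨ w = e)
    (h01 : H.Adj a b ↔ T.Adj 0 1) (h02 : H.Adj a c ↔ T.Adj 0 2) (h03 : H.Adj a d ↔ T.Adj 0 3)
    (h04 : H.Adj a e ↔ T.Adj 0 4)
    (h12 : H.Adj b c ↔ T.Adj 1 2) (h13 : H.Adj b d ↔ T.Adj 1 3) (h14 : H.Adj b e ↔ T.Adj 1 4)
    (h23 : H.Adj c d ↔ T.Adj 2 3) (h24 : H.Adj c e ↔ T.Adj 2 4) (h34 : H.Adj d e ↔ T.Adj 3 4) :
    Nonempty (H ≃g T) := by
  obtain ⟨d1, d2, d3, d4, d5, d6, d7, d8, d9, d10⟩ := hd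
  refine iso_of H T ![a, b, c, d, e] ?_ ?_ ?_
  · intro i j hij
    fin_cases i <;> fin_cases j <;> simp_all
  · intro w
    rcases hcov w with h | h | h | h | h
    · exact ⟨0, h.symm⟩
    · exact ⟨1, h.symm⟩
    · exact ⟨2, h.symm⟩
    · exact ⟨3, h.symm⟩
    · exact ⟨4, h.symm⟩
  · intro i j hij
    fin_cases i <;> fin_cases j <;> first | (exact absurd hij (by decide)) | assumption

/-- The finite classification. -/
theorem classify {W : Type} [Finite W] (H : SimpleGraph W)
    (h1 : ∃ n, 2 ≤ n ∧ IsContraction (famCone n) H) (h2 : ∃ n, 2 ≤ n ∧ IsContraction (famCobip n) H)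
    (h3 : ∃ n, 2 ≤ n ∧ IsContraction (famSplit n) H)
    (h4 : ¬ IsContraction H (⊤ : SimpleGraph (Fin 5)))
    (h5 : ∃ n, 3 ≤ n ∧ IsContraction (famTrunc n) H) :
    Nonempty (H ≃g (⊤ : SimpleGraph (Fin 1))) ∨ Nonempty (H ≃g (⊤ : SimpleGraph (Fin 2))) ∨
      Nonempty (H ≃g (⊤ : SimpleGraph (Fin 3))) ∨ Nonempty (H ≃g (⊤ : SimpleGraph (Fin 4))) ∨
      Nonempty (H ≃g P3) ∨ Nonempty (H ≃g paw) ∨ Nonempty (H ≃g diamond) ∨
      Nonempty (H ≃g gem) ∨ Nonempty (H ≃g X5) := by
  classical
  have := Fintype.ofFinite W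
  obtain ⟨n1, -, h1⟩ := h1
  obtain ⟨n2, -, h2⟩ := h2
  obtain ⟨n3, -, h3⟩ := h3
  obtain ⟨n5, -, h5⟩ := h5
  obtain ⟨w₀, hu⟩ := cone_universal h1
  have hA := cobip_alpha h2
  obtain ⟨K, hK, hI⟩ := split_structure h3
  have hC := fun e he => no_five_clique w₀ hu h4 e he
  have hT := fun P R S U => trunc_no_pendant h5 P R S U
  by_cases hcomp : ∀ a b, a ≠ b → H.Adj a b
  · -- complete graphs
    have hcard : Fintype.card W < 5 := by
      by_contra hge
      push Not at hge
      have : Fintype.card (Fin 5) ≤ Fintype.card W := by simpa using hge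
      obtain ⟨g⟩ := Function.Embedding.nonempty_of_card_le this
      exact hC g (fun i j hij => hcomp _ _ (fun h => hij (g.injective h)))
    have hpos : 0 < Fintype.card W := Fintype.card_pos_iff.mpr ⟨w₀⟩
    have hiso : ∀ n, Fintype.card W = n → Nonempty (H ≃g (⊤ : SimpleGraph (Fin n))) := by
      intro n hn
      have e := Fintype.equivFinOfCardEq hn
      refine ⟨⟨e, ?_⟩⟩
      intro a b
      simp only [top_adj]
      constructor
      · intro h
        exact hcomp a b (fun h' => h (by rw [h']))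
      · intro h h'
        exact h.ne (e.injective h')
    have h14 : Fintype.card W = 1 ∨ Fintype.card W = 2 ∨ Fintype.card W = 3 ∨
        Fintype.card W = 4 := by omega
    rcases h14 with h | h | h | h
    · exact Or.inl (hiso 1 h)
    · exact Or.inr (Or.inl (hiso 2 h))
    · exact Or.inr (Or.inr (Or.inl (hiso 3 h)))
    · exact Or.inr (Or.inr (Or.inr (Or.inl (hiso 4 h))))
  right; right; right; right
  -- `w₀` is in `K`
  have hw₀ : w₀ ∈ K := by
    by_contra hno
    obtain ⟨a, haK, b, hbK, hab⟩ := hI w₀ hno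
    apply hcomp
    intro x y hxy
    by_cases hx : x = w₀
    · subst hx; exact hu y (Ne.symm hxy)
    by_cases hy : y = w₀
    · subst hy; exact (hu x hx).symm
    have h1 := hab x (hu x hx)
    have h2 := hab y (hu y hy)
    rcases h1 with h1 | h1 <;> rcases h2 with h2 | h2
    · exact absurd (h1.trans h2.symm) hxy
    · rw [h1, h2]; exact hK a haK b hbK (by rw [← h1, ← h2]; exact hxy)
    · rw [h1, h2]; exact hK b hbK a haK (by rw [← h1, ← h2]; exact hxy)
    · exact absurd (h1.trans h2.symm) hxy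
  have hII : ∀ x, x ∉ K → ∀ y, y ∉ K → ¬ H.Adj x y := by
    intro x hx y hy hxy
    obtain ⟨a, haK, b, hbK, hab⟩ := hI x hx
    rcases hab y hxy with h | h
    · exact hy (h ▸ haK)
    · exact hy (h ▸ hbK)
  have hdeg : ∀ x, x ∉ K → ∀ c, c ∈ K → c ≠ w₀ → ∀ d, d ∈ K → d ≠ w₀ →
      H.Adj x c → H.Adj x d → c = d := by
    intro x hx c hc hcw d hd hdw hxc hxd
    obtain ⟨a, haK, b, hbK, hab⟩ := hI x hx
    have hxw : x ≠ w₀ := fun h => hx (h ▸ hw₀)
    have e0 := hab w₀ (hu x hxw).symm
    have e1 := hab c hxc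
    have e2 := hab d hxd
    rcases e0 with e0 | e0 <;> rcases e1 with e1 | e1 <;> rcases e2 with e2 | e2
    · exact e1.trans e2.symm
    · exact absurd (e1.trans e0.symm) hcw
    · exact absurd (e2.trans e0.symm) hdw
    · exact e1.trans e2.symm
    · exact e1.trans e2.symm
    · exact absurd (e2.trans e0.symm) hdw
    · exact absurd (e1.trans e0.symm) hcw
    · exact e1.trans e2.symm
  set K' : Finset W := Finset.univ.filter (fun w => w ∈ K ∧ w ≠ w₀) with hK'
  set I : Finset W := Finset.univ.filter (fun w => w ∉ K) with hIdef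
  have mK' : ∀ w, w ∈ K' ↔ w ∈ K ∧ w ≠ w₀ := by intro w; simp [hK']
  have mI : ∀ w, w ∈ I ↔ w ∉ K := by intro w; simp [hIdef]
  have hcov : ∀ w, w = w₀ ∨ w ∈ K' ∨ w ∈ I := by
    intro w
    by_cases hw : w = w₀
    · exact Or.inl hw
    · by_cases hwK : w ∈ K
      · exact Or.inr (Or.inl ((mK' w).mpr ⟨hwK, hw⟩))
      · exact Or.inr (Or.inr ((mI w).mpr hwK))
  have hKcard : K'.card ≤ 3 := by
    by_contra hge
    push Not at hge
    obtain ⟨t, ht, htc⟩ := Finset.exists_subset_card_eq (show 4 ≤ K'.card by omega)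
    have e := (Finset.equivFinOfCardEq htc).symm
    have hmem : ∀ i, ((e i : t) : W) ∈ K' := fun i => ht (e i).2
    refine hC (Fin.cons w₀ (fun i => ((e i : t) : W))) ?_
    intro i j hij
    refine Fin.cases ?_ (fun i => ?_) i (motive := fun i => i ≠ j →
      H.Adj ((Fin.cons w₀ (fun i => ((e i : t) : W)) : Fin 5 → W) i)
        ((Fin.cons w₀ (fun i => ((e i : t) : W)) : Fin 5 → W) j)) hij
    · intro h0
      refine Fin.cases ?_ (fun j => ?_) j (motive := fun j => (0 : Fin 5) ≠ j →
        H.Adj ((Fin.cons w₀ (fun i => ((e i : t) : W)) : Fin 5 → W) 0)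
          ((Fin.cons w₀ (fun i => ((e i : t) : W)) : Fin 5 → W) j)) h0
      · intro h; exact absurd rfl h
      · intro _
        simp only [Fin.cons_zero, Fin.cons_succ]
        exact hu _ ((mK' _).mp (hmem j)).2
    · intro h0
      refine Fin.cases ?_ (fun j => ?_) j (motive := fun j => (Fin.succ i : Fin 5) ≠ j →
        H.Adj ((Fin.cons w₀ (fun i => ((e i : t) : W)) : Fin 5 → W) (Fin.succ i))
          ((Fin.cons w₀ (fun i => ((e i : t) : W)) : Fin 5 → W) j)) h0
      · intro _
        simp only [Fin.cons_zero, Fin.cons_succ]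
        exact (hu _ ((mK' _).mp (hmem i)).2).symm
      · intro h
        simp only [Fin.cons_succ]
        apply hK _ ((mK' _).mp (hmem i)).1 _ ((mK' _).mp (hmem j)).1
        intro h'
        apply h
        have : e i = e j := Subtype.ext h'
        rw [e.injective this]
  have hIcard : I.card ≤ 2 := by
    by_contra hge
    push Not at hge
    obtain ⟨t, ht, htc⟩ := Finset.exists_subset_card_eq (show 3 ≤ I.card by omega)
    obtain ⟨x, y, z, hxy, hxz, hyz, rfl⟩ := Finset.card_eq_three.mp htc
    have hx := (mI x).mp (ht (by simp))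
    have hy := (mI y).mp (ht (by simp))
    have hz := (mI z).mp (ht (by simp))
    rcases hA x y z hxy hxz hyz with h | h | h
    · exact hII x hx y hy h
    · exact hII x hx z hz h
    · exact hII y hy z hz h
  have hIpos : 0 < I.card := by
    rw [Finset.card_pos]
    by_contra hne
    rw [Finset.not_nonempty_iff_eq_empty] at hne
    apply hcomp
    have : ∀ w, w ∈ K := by
      intro w
      by_contra hw
      have := (mI w).mpr hw
      rw [hne] at this
      simp at this
    intro a b hab
    exact hK a (this a) b (this b) hab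
  have hKK : ∀ a b, a ∈ K' → b ∈ K' → a ≠ b → H.Adj a b := fun a b ha hb hab =>
    hK a ((mK' a).mp ha).1 b ((mK' b).mp hb).1 hab
  have hwK' : ∀ a, a ∈ K' → H.Adj w₀ a := fun a ha => hu a ((mK' a).mp ha).2
  have hwI : ∀ x, x ∈ I → H.Adj w₀ x := fun x hx =>
    hu x (fun h => (mI x).mp hx (h ▸ hw₀))
  have hKI : ∀ a x, a ∈ K' → x ∈ I → a ≠ x := fun a x ha hx h =>
    (mI x).mp hx (h ▸ ((mK' a).mp ha).1)
  have hdeg' : ∀ x, x ∈ I → ∀ c, c ∈ K' → ∀ d, d ∈ K' → H.Adj x c → H.Adj x d → c = d :=
    fun x hx c hc d hd => hdeg x ((mI x).mp hx) c ((mK' c).mp hc).1 ((mK' c).mp hc).2 d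
      ((mK' d).mp hd).1 ((mK' d).mp hd).2
  have hk03 : K'.card = 0 ∨ K'.card = 1 ∨ K'.card = 2 ∨ K'.card = 3 := by omega
  have hi12 : I.card = 1 ∨ I.card = 2 := by omega
  clear_value K' I
  rcases hi12 with hi | hi
  · obtain ⟨x, rfl⟩ := Finset.card_eq_one.mp hi
    have hx : x ∈ ({x} : Finset W) := by simp
    have wx := hwI x hx
    rcases hk03 with hk | hk | hk | hk
    · rw [Finset.card_eq_zero] at hk
      subst hk
      exfalso
      apply hcomp
      intro a b hab
      rcases hcov a with ha | ha | ha <;> rcases hcov b with hb | hb | hb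
      · exact absurd (ha.trans hb.symm) hab
      · simp at hb
      · rw [Finset.mem_singleton] at hb; rw [ha, hb]; exact wx
      · simp at ha
      · simp at ha
      · simp at ha
      · rw [Finset.mem_singleton] at ha; rw [ha, hb]; exact wx.symm
      · simp at hb
      · rw [Finset.mem_singleton] at ha hb; exact absurd (ha.trans hb.symm) hab
    · obtain ⟨a, rfl⟩ := Finset.card_eq_one.mp hk
      have ha : a ∈ ({a} : Finset W) := by simp
      have wa := hwK' a ha
      have ax := hKI a x ha hx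
      left
      by_cases hxa : H.Adj x a
      · exfalso
        apply hcomp
        intro p q hpq
        rcases hcov p with hp | hp | hp <;> rcases hcov q with hq | hq | hq <;>
          (try simp only [Finset.mem_singleton] at hp) <;> (try simp only [Finset.mem_singleton] at hq) <;>
          subst hp <;> subst hq
        · exact absurd rfl hpq
        · exact wa
        · exact wx
        · exact wa.symm
        · exact absurd rfl hpq
        · exact hxa.symm
        · exact wx.symm
        · exact hxa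
        · exact absurd rfl hpq
      · refine iso3 H P3 x w₀ a ⟨wx.ne', ax.symm, wa.ne⟩ ?_ ?_ ?_ ?_
        · intro w
          rcases hcov w with h | h | h <;> (try simp only [Finset.mem_singleton] at h) <;> simp [h]
        · simp [P3, wx.symm]
        · simp [P3, hxa]
        · simp [P3, wa]
    · obtain ⟨a, b, hab, rfl⟩ := Finset.card_eq_two.mp hk
      have ha : a ∈ ({a, b} : Finset W) := by simp
      have hb : b ∈ ({a, b} : Finset W) := by simp
      have wa := hwK' a ha
      have wb := hwK' b hb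
      have ax := hKI a x ha hx
      have bx := hKI b x hb hx
      have aab := hKK a b ha hb hab
      have cov : ∀ w, w = w₀ ∨ w = a ∨ w = b ∨ w = x := by
        intro w
        rcases hcov w with h | h | h
        · exact Or.inl h
        · simp only [Finset.mem_insert, Finset.mem_singleton] at h
          rcases h with h | h <;> simp [h]
        · simp only [Finset.mem_singleton] at h; simp [h]
      by_cases hxa : H.Adj x a
      · have hxb : ¬ H.Adj x b := fun h => hab (hdeg' x hx a ha b hb hxa h)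
        right; right; left
        refine iso4 H diamond w₀ a b x ⟨wa.ne, wb.ne, wx.ne, hab, ax, bx⟩ cov ?_ ?_ ?_ ?_ ?_ ?_
        · simp [diamond, wa]
        · simp [diamond, wb]
        · simp [diamond, wx]
        · simp [diamond, aab]
        · simp [diamond, hxa.symm]
        · (simp [diamond]; exact fun h => hxb (SimpleGraph.Adj.symm h))
      · by_cases hxb : H.Adj x b
        · right; right; left
          refine iso4 H diamond w₀ b a x ⟨wb.ne, wa.ne, wx.ne, hab.symm, bx, ax⟩ ?_ ?_ ?_ ?_ ?_ ?_ ?_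
          · intro w; rcases cov w with h | h | h | h <;> simp [h]
          · simp [diamond, wb]
          · simp [diamond, wa]
          · simp [diamond, wx]
          · simp [diamond, aab.symm]
          · simp [diamond, hxb.symm]
          · (simp [diamond]; exact fun h => hxa (SimpleGraph.Adj.symm h))
        · right; left
          refine iso4 H paw w₀ a b x ⟨wa.ne, wb.ne, wx.ne, hab, ax, bx⟩ cov ?_ ?_ ?_ ?_ ?_ ?_
          · simp [paw, wa]
          · simp [paw, wb]
          · simp [paw, wx]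
          · simp [paw, aab]
          · (simp [paw]; exact fun h => hxa (SimpleGraph.Adj.symm h))
          · (simp [paw]; exact fun h => hxb (SimpleGraph.Adj.symm h))
    · obtain ⟨a, b, c, hab, hac, hbc, rfl⟩ := Finset.card_eq_three.mp hk
      have ha : a ∈ ({a, b, c} : Finset W) := by simp
      have hb : b ∈ ({a, b, c} : Finset W) := by simp
      have hc : c ∈ ({a, b, c} : Finset W) := by simp
      have wa := hwK' a ha
      have wb := hwK' b hb
      have wc := hwK' c hc
      have ax := hKI a x ha hx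
      have bx := hKI b x hb hx
      have cx := hKI c x hc hx
      have aab := hKK a b ha hb hab
      have aac := hKK a c ha hc hac
      have abc := hKK b c hb hc hbc
      have cov : ∀ w, w = w₀ ∨ w = a ∨ w = b ∨ w = c ∨ w = x := by
        intro w
        rcases hcov w with h | h | h
        · exact Or.inl h
        · simp only [Finset.mem_insert, Finset.mem_singleton] at h
          rcases h with h | h | h <;> simp [h]
        · simp only [Finset.mem_singleton] at h; simp [h]
      -- the symmetric final step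
      have fin5 : ∀ p q r : W, H.Adj w₀ p → H.Adj w₀ q → H.Adj w₀ r → H.Adj p q → H.Adj p r →
          H.Adj q r → p ≠ x → q ≠ x → r ≠ x → H.Adj x p → ¬ H.Adj x q → ¬ H.Adj x r →
          (∀ w, w = w₀ ∨ w = p ∨ w = q ∨ w = r ∨ w = x) → Nonempty (H ≃g X5) := by
        intro p q r wp wq wr pq pr qr px qx rx xp xq xr cv
        refine iso5 H X5 q x r w₀ p ⟨qx, qr.ne, wq.ne', pq.ne', rx.symm, wx.ne', px.symm,
          wr.ne', pr.ne', wp.ne⟩ ?_ ?_ ?_ ?_ ?_ ?_ ?_ ?_ ?_ ?_ ?_
        · intro w; rcases cv w with h | h | h | h | h <;> simp [h]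
        · (simp [X5]; exact fun h => xq (SimpleGraph.Adj.symm h))
        · simp [X5, qr]
        · simp [X5, wq.symm]
        · simp [X5, pq.symm]
        · simp [X5, xr]
        · simp [X5, wx.symm]
        · simp [X5, xp]
        · simp [X5, wr.symm]
        · simp [X5, pr.symm]
        · simp [X5, wp]
      by_cases hxa : H.Adj x a
      · have hxb : ¬ H.Adj x b := fun h => hab (hdeg' x hx a ha b hb hxa h)
        have hxc : ¬ H.Adj x c := fun h => hac (hdeg' x hx a ha c hc hxa h)
        right; right; right; right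
        exact fin5 a b c wa wb wc aab aac abc ax bx cx hxa hxb hxc cov
      by_cases hxb : H.Adj x b
      · have hxc : ¬ H.Adj x c := fun h => hbc (hdeg' x hx b hb c hc hxb h)
        right; right; right; right
        refine fin5 b a c wb wa wc aab.symm abc aac bx ax cx hxb hxa hxc ?_
        intro w; rcases cov w with h | h | h | h | h <;> simp [h]
      by_cases hxc : H.Adj x c
      · right; right; right; right
        refine fin5 c a b wc wa wb aac.symm abc.symm aab cx ax bx hxc hxa hxb ?_
        intro w; rcases cov w with h | h | h | h | h <;> simp [h]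
      · exfalso
        exact hT x a b c ax.symm bx.symm cx.symm hxa hxb hxc aab aac abc
  · obtain ⟨x, y, hxy, rfl⟩ := Finset.card_eq_two.mp hi
    have hx : x ∈ ({x, y} : Finset W) := by simp
    have hy : y ∈ ({x, y} : Finset W) := by simp
    have wx := hwI x hx
    have wy := hwI y hy
    have nxy : ¬ H.Adj x y := hII x ((mI x).mp hx) y ((mI y).mp hy)
    have hcovA : ∀ c, c ∈ K' → H.Adj x c ∨ H.Adj y c := by
      intro c hc
      rcases hA x y c hxy (hKI c x hc hx).symm (hKI c y hc hy).symm with h | h | h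
      · exact absurd h nxy
      · exact Or.inl h
      · exact Or.inr h
    rcases hk03 with hk | hk | hk | hk
    · rw [Finset.card_eq_zero] at hk
      subst hk
      left
      refine iso3 H P3 x w₀ y ⟨wx.ne', hxy, wy.ne⟩ ?_ ?_ ?_ ?_
      · intro w
        rcases hcov w with h | h | h
        · simp [h]
        · simp at h
        · simp only [Finset.mem_insert, Finset.mem_singleton] at h
          rcases h with h | h <;> simp [h]
      · simp [P3, wx.symm]
      · simp [P3, nxy]
      · simp [P3, wy]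
    · obtain ⟨a, rfl⟩ := Finset.card_eq_one.mp hk
      have ha : a ∈ ({a} : Finset W) := by simp
      have wa := hwK' a ha
      have ax := hKI a x ha hx
      have ay := hKI a y ha hy
      have cov : ∀ w, w = w₀ ∨ w = a ∨ w = x ∨ w = y := by
        intro w
        rcases hcov w with h | h | h
        · exact Or.inl h
        · simp only [Finset.mem_singleton] at h; simp [h]
        · simp only [Finset.mem_insert, Finset.mem_singleton] at h
          rcases h with h | h <;> simp [h]
      by_cases hxa : H.Adj x a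
      · by_cases hya : H.Adj y a
        · right; right; left
          refine iso4 H diamond w₀ a x y ⟨wa.ne, wx.ne, wy.ne, ax, ay, hxy⟩ cov ?_ ?_ ?_ ?_ ?_ ?_
          · simp [diamond, wa]
          · simp [diamond, wx]
          · simp [diamond, wy]
          · simp [diamond, hxa.symm]
          · simp [diamond, hya.symm]
          · simp [diamond, nxy]
        · right; left
          refine iso4 H paw w₀ a x y ⟨wa.ne, wx.ne, wy.ne, ax, ay, hxy⟩ cov ?_ ?_ ?_ ?_ ?_ ?_
          · simp [paw, wa]
          · simp [paw, wx]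
          · simp [paw, wy]
          · simp [paw, hxa.symm]
          · (simp [paw]; exact fun h => hya (SimpleGraph.Adj.symm h))
          · simp [paw, nxy]
      · have hya : H.Adj y a := (hcovA a ha).resolve_left hxa
        right; left
        refine iso4 H paw w₀ a y x ⟨wa.ne, wy.ne, wx.ne, ay, ax, hxy.symm⟩ ?_ ?_ ?_ ?_ ?_ ?_ ?_
        · intro w; rcases cov w with h | h | h | h <;> simp [h]
        · simp [paw, wa]
        · simp [paw, wy]
        · simp [paw, wx]
        · simp [paw, hya.symm]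
        · (simp [paw]; exact fun h => hxa (SimpleGraph.Adj.symm h))
        · (simp [paw]; exact fun h => nxy (SimpleGraph.Adj.symm h))
    · obtain ⟨a, b, hab, rfl⟩ := Finset.card_eq_two.mp hk
      have ha : a ∈ ({a, b} : Finset W) := by simp
      have hb : b ∈ ({a, b} : Finset W) := by simp
      have wa := hwK' a ha
      have wb := hwK' b hb
      have ax := hKI a x ha hx
      have bx := hKI b x hb hx
      have ay := hKI a y ha hy
      have bY := hKI b y hb hy
      have aab := hKK a b ha hb hab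
      have cov : ∀ w, w = x ∨ w = a ∨ w = b ∨ w = y ∨ w = w₀ := by
        intro w
        rcases hcov w with h | h | h
        · simp [h]
        · simp only [Finset.mem_insert, Finset.mem_singleton] at h
          rcases h with h | h <;> simp [h]
        · simp only [Finset.mem_insert, Finset.mem_singleton] at h
          rcases h with h | h <;> simp [h]
      right; right; right; left
      by_cases hxa : H.Adj x a
      · have hxb : ¬ H.Adj x b := fun h => hab (hdeg' x hx a ha b hb hxa h)
        have hyb : H.Adj y b := (hcovA b hb).resolve_left hxb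
        have hya : ¬ H.Adj y a := fun h => hab (hdeg' y hy a ha b hb h hyb)
        refine iso5 H gem x a b y w₀ ⟨ax.symm, bx.symm, hxy, wx.ne', hab, ay, wa.ne', bY, wb.ne',
          wy.ne'⟩ cov ?_ ?_ ?_ ?_ ?_ ?_ ?_ ?_ ?_ ?_
        · simp [gem, hxa]
        · simp [gem, hxb]
        · simp [gem, nxy]
        · simp [gem, wx.symm]
        · simp [gem, aab]
        · (simp [gem]; exact fun h => hya (SimpleGraph.Adj.symm h))
        · simp [gem, wa.symm]
        · simp [gem, hyb.symm]
        · simp [gem, wb.symm]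
        · simp [gem, wy.symm]
      · have hya : H.Adj y a := (hcovA a ha).resolve_left hxa
        have hyb : ¬ H.Adj y b := fun h => hab (hdeg' y hy a ha b hb hya h)
        have hxb : H.Adj x b := (hcovA b hb).resolve_right hyb
        refine iso5 H gem x b a y w₀ ⟨bx.symm, ax.symm, hxy, wx.ne', hab.symm, bY, wb.ne', ay,
          wa.ne', wy.ne'⟩ ?_ ?_ ?_ ?_ ?_ ?_ ?_ ?_ ?_ ?_ ?_
        · intro w; rcases cov w with h | h | h | h | h <;> simp [h]
        · simp [gem, hxb]
        · simp [gem, hxa]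
        · simp [gem, nxy]
        · simp [gem, wx.symm]
        · simp [gem, aab.symm]
        · (simp [gem]; exact fun h => hyb (SimpleGraph.Adj.symm h))
        · simp [gem, wb.symm]
        · simp [gem, hya.symm]
        · simp [gem, wa.symm]
        · simp [gem, wy.symm]
    · obtain ⟨a, b, c, hab, hac, hbc, rfl⟩ := Finset.card_eq_three.mp hk
      have ha : a ∈ ({a, b, c} : Finset W) := by simp
      have hb : b ∈ ({a, b, c} : Finset W) := by simp
      have hc : c ∈ ({a, b, c} : Finset W) := by simp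
      exfalso
      rcases hcovA a ha with h1 | h1 <;> rcases hcovA b hb with h2 | h2 <;>
        rcases hcovA c hc with h3 | h3
      · exact hab (hdeg' x hx a ha b hb h1 h2)
      · exact hab (hdeg' x hx a ha b hb h1 h2)
      · exact hac (hdeg' x hx a ha c hc h1 h3)
      · exact hbc (hdeg' y hy b hb c hc h2 h3)
      · exact hbc (hdeg' x hx b hb c hc h2 h3)
      · exact hac (hdeg' y hy a ha c hc h1 h3)
      · exact hab (hdeg' y hy a ha b hb h1 h2)
      · exact hab (hdeg' y hy a ha b hb h1 h2)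

end Pool.Agent.H175R2
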