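import Pool.Agent.H175R2.Defs

/-! Literal edge contractions and witness structures (task CONTR of MP_80fcda_co). -/

namespace Pool.Agent.H175R2

open SimpleGraph

theorem conn_of_map {A B : Type} {G : SimpleGraph A} {H : SimpleGraph B} (φ : A → B)
    (hs : Function.Surjective φ) (h : ∀ x y, G.Adj x y → φ x = φ y ∨ H.Adj (φ x) (φ y))
    (hG : G.Connected) : H.Connected := by
  have key : ∀ x y, G.Reachable x y → H.Reachable (φ x) (φ y) := by
    intro x y hxy
    obtain ⟨p⟩ := hxy
    induction p with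
    | nil => exact Reachable.refl _
    | cons hadj _ ih =>
      rcases h _ _ hadj with h1 | h1
      · rw [h1]; exact ih
      · exact h1.reachable.trans ih
  have : Nonempty A := hG.nonempty
  have : Nonempty B := (inferInstance : Nonempty A).map φ
  refine ⟨fun b b' => ?_⟩
  obtain ⟨a, rfl⟩ := hs b
  obtain ⟨a', rfl⟩ := hs b'
  exact key _ _ (hG.preconnected a a')

/-- `f` is the bag map of a contraction. -/
def Wit {V W : Type} (G : SimpleGraph V) (H : SimpleGraph W) (f : V → W) : Prop :=
  (∀ w, (G.induce {v | f v = w}).Connected) ∧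
    ∀ w w', w ≠ w' → (H.Adj w w' ↔ ∃ v v', f v = w ∧ f v' = w' ∧ G.Adj v v')

theorem Wit.surj {V W : Type} {G : SimpleGraph V} {H : SimpleGraph W} {f : V → W}
    (h : Wit G H f) : Function.Surjective f := by
  intro w
  obtain ⟨⟨v, hv⟩⟩ := (h.1 w).nonempty
  exact ⟨v, hv⟩

theorem Wit.adj {V W : Type} {G : SimpleGraph V} {H : SimpleGraph W} {f : V → W}
    (h : Wit G H f) : ∀ x y, G.Adj x y → f x = f y ∨ H.Adj (f x) (f y) := by
  intro x y hxy
  by_cases he : f x = f y
  · exact Or.inl he
  · exact Or.inr ((h.2 _ _ he).2 ⟨x, y, rfl, rfl, hxy⟩)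

theorem Wit.preimage {V W : Type} {G : SimpleGraph V} {H : SimpleGraph W} {f : V → W}
    (h : Wit G H f) (S : Set W) (hS : (H.induce S).Connected) :
    (G.induce (f ⁻¹' S)).Connected := by
  have fib : ∀ (s : W) (_ : s ∈ S) (u u' : V) (hu : u ∈ f ⁻¹' S) (hu' : u' ∈ f ⁻¹' S),
      f u = s → f u' = s → (G.induce (f ⁻¹' S)).Reachable ⟨u, hu⟩ ⟨u', hu'⟩ := by
    intro s hs u u' hu hu' h1 h2
    have hle : {v | f v = s} ≤ f ⁻¹' S := by
      intro v hv
      have : f v = s := hv
      show f v ∈ S
      rw [this]; exact hs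
    have hr := (h.1 s).preconnected ⟨u, h1⟩ ⟨u', h2⟩
    exact hr.map (G.induceHomOfLE hle).toHom
  have key : ∀ (s s' : S), (H.induce S).Reachable s s' → ∀ (u u' : V) (hu : u ∈ f ⁻¹' S)
      (hu' : u' ∈ f ⁻¹' S), f u = s.1 → f u' = s'.1 →
      (G.induce (f ⁻¹' S)).Reachable ⟨u, hu⟩ ⟨u', hu'⟩ := by
    intro s s' hss
    obtain ⟨p⟩ := hss
    induction p with
    | @nil s => intro u u' hu hu' h1 h2; exact fib s.1 s.2 u u' hu hu' h1 h2
    | @cons s s1 s' hadj _ ih =>
      intro u u' hu hu' h1 h2
      have hne : s.1 ≠ s1.1 := by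
        intro he
        exact hadj.ne (Subtype.ext he)
      obtain ⟨v, v', hv, hv', hvv⟩ := (h.2 _ _ hne).1 hadj
      have hvS : v ∈ f ⁻¹' S := by show f v ∈ S; rw [hv]; exact s.2
      have hvS' : v' ∈ f ⁻¹' S := by show f v' ∈ S; rw [hv']; exact s1.2
      have r1 := fib s.1 s.2 u v hu hvS h1 hv
      have r2 : (G.induce (f ⁻¹' S)).Reachable ⟨v, hvS⟩ ⟨v', hvS'⟩ := Adj.reachable (by simpa using hvv)
      exact (r1.trans r2).trans (ih v' u' hvS' hu' hv' h2)
  obtain ⟨⟨s, hs⟩⟩ := hS.nonempty
  obtain ⟨v, hv⟩ := h.surj s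
  have : Nonempty (f ⁻¹' S) := ⟨⟨v, by show f v ∈ S; rw [hv]; exact hs⟩⟩
  refine ⟨fun a b => ?_⟩
  exact key ⟨f a.1, a.2⟩ ⟨f b.1, b.2⟩ (hS.preconnected _ _) a.1 b.1 a.2 b.2 rfl rfl

theorem Wit.trans {U V W : Type} {G : SimpleGraph U} {H : SimpleGraph V} {K : SimpleGraph W}
    {f : U → V} {g : V → W} (hf : Wit G H f) (hg : Wit H K g) : Wit G K (g ∘ f) := by
  refine ⟨fun w => ?_, fun w w' hne => ?_⟩
  · exact hf.preimage {v | g v = w} (hg.1 w)
  · rw [hg.2 w w' hne]
    constructor
    · rintro ⟨v, v', hv, hv', hadj⟩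
      obtain ⟨u, u', hu, hu', h3⟩ := (hf.2 v v' hadj.ne).1 hadj
      exact ⟨u, u', by simp [hu, hv], by simp [hu', hv'], h3⟩
    · rintro ⟨u, u', hu, hu', h3⟩
      refine ⟨f u, f u', hu, hu', ?_⟩
      refine (hf.adj _ _ h3).resolve_left ?_
      intro he
      apply hne
      rw [← hu, ← hu']
      simp [he]

theorem IsContraction.trans {U V W : Type} {G : SimpleGraph U} {H : SimpleGraph V}
    {K : SimpleGraph W} : IsContraction G H → IsContraction H K → IsContraction G K := by
  rintro ⟨f, hf⟩ ⟨g, hg⟩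
  exact ⟨g ∘ f, Wit.trans (G := G) (H := H) (K := K) hf hg⟩

theorem IsContraction.connected {V W : Type} {G : SimpleGraph V} {H : SimpleGraph W} :
    IsContraction G H → G.Connected → H.Connected := by
  rintro ⟨f, hf⟩ hG
  have hw : Wit G H f := hf
  exact conn_of_map f hw.surj hw.adj hG

theorem IsContraction.of_iso {V W : Type} {G : SimpleGraph V} {H : SimpleGraph W} (e : G ≃g H) :
    IsContraction G H := by
  refine ⟨e, fun w => ?_, fun w w' _ => ?_⟩
  · have : Nonempty {v | e v = w} := ⟨⟨e.symm w, by simp⟩⟩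
    refine ⟨fun a b => ?_⟩
    have : a = b := Subtype.ext (e.injective (by rw [a.2, b.2]))
    rw [this]
  · constructor
    · intro h
      exact ⟨e.symm w, e.symm w', by simp, by simp, e.symm.map_adj_iff.2 h⟩
    · rintro ⟨v, v', rfl, rfl, h⟩
      exact e.map_adj_iff.2 h

theorem IsContraction.refl {V : Type} (G : SimpleGraph V) : IsContraction G G :=
  IsContraction.of_iso (Iso.refl)

open Classical in
/-- the quotient map of the contraction of the edge `uv`. -/
noncomputable def quo {V : Type} (u v : V) (huv : u ≠ v) (x : V) : {x : V // x ≠ v} :=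
  if h : x = v then ⟨u, huv⟩ else ⟨x, h⟩

theorem quo_of_ne {V : Type} (u v : V) (huv : u ≠ v) (x : V) (h : x ≠ v) :
    quo u v huv x = ⟨x, h⟩ := by simp [quo, h]

theorem quo_self {V : Type} (u v : V) (huv : u ≠ v) :
    quo u v huv v = ⟨u, huv⟩ := by simp [quo]

theorem contractEdge_adj {V : Type} (G : SimpleGraph V) (u v : V) (huv : u ≠ v)
    (w w' : {x : V // x ≠ v}) (hne : w ≠ w') :
    (contractEdge G u v).Adj w w' ↔
      ∃ x x', quo u v huv x = w ∧ quo u v huv x' = w' ∧ G.Adj x x' := by
  constructor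
  · intro h
    rw [contractEdge, fromRel_adj] at h
    rcases h.2 with (h1 | ⟨h1, h2⟩) | (h1 | ⟨h1, h2⟩)
    · exact ⟨w.1, w'.1, quo_of_ne _ _ _ _ w.2, quo_of_ne _ _ _ _ w'.2, h1⟩
    · refine ⟨v, w'.1, ?_, quo_of_ne _ _ _ _ w'.2, h2⟩
      rw [quo_self]; exact Subtype.ext h1.symm
    · exact ⟨w.1, w'.1, quo_of_ne _ _ _ _ w.2, quo_of_ne _ _ _ _ w'.2, h1.symm⟩
    · refine ⟨w.1, v, quo_of_ne _ _ _ _ w.2, ?_, h2.symm⟩
      rw [quo_self]; exact Subtype.ext h1.symm
  · rintro ⟨x, x', hx, hx', hadj⟩
    rw [contractEdge, fromRel_adj]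
    refine ⟨hne, ?_⟩
    by_cases h1 : x = v
    · by_cases h2 : x' = v
      · subst h1; subst h2; exact absurd rfl hadj.ne
      · subst h1
        rw [quo_self] at hx
        rw [quo_of_ne _ _ _ _ h2] at hx'
        subst hx; subst hx'
        exact Or.inl (Or.inr ⟨rfl, hadj⟩)
    · by_cases h2 : x' = v
      · subst h2
        rw [quo_self] at hx'
        rw [quo_of_ne _ _ _ _ h1] at hx
        subst hx; subst hx'
        exact Or.inr (Or.inr ⟨rfl, hadj.symm⟩)
      · rw [quo_of_ne _ _ _ _ h1] at hx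
        rw [quo_of_ne _ _ _ _ h2] at hx'
        subst hx; subst hx'
        exact Or.inl (Or.inl hadj)

theorem contractEdge_wit {V : Type} (G : SimpleGraph V) (u v : V) (huv : G.Adj u v) :
    Wit G (contractEdge G u v) (quo u v huv.ne) := by
  refine ⟨fun w => ?_, fun w w' hne => contractEdge_adj G u v huv.ne w w' hne⟩
  have hw : w.1 ∈ {x | quo u v huv.ne x = w} := quo_of_ne _ _ _ _ w.2
  have : Nonempty {x | quo u v huv.ne x = w} := ⟨⟨w.1, hw⟩⟩
  have key : ∀ a : {x | quo u v huv.ne x = w},
      (G.induce {x | quo u v huv.ne x = w}).Reachable a ⟨w.1, hw⟩ := by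
    rintro ⟨a, ha⟩
    by_cases h1 : a = v
    · have ha' : quo u v huv.ne a = w := ha
      subst h1
      rw [quo_self] at ha'
      apply Adj.reachable
      rw [comap_adj]
      show G.Adj a w.1
      rw [← ha']
      exact huv.symm
    · have ha' : quo u v huv.ne a = w := ha
      rw [quo_of_ne _ _ _ _ h1] at ha'
      have : (⟨a, ha⟩ : {x | quo u v huv.ne x = w}) = ⟨w.1, hw⟩ := by
        apply Subtype.ext
        show a = w.1
        rw [← ha']
      rw [this]
  exact ⟨fun a b => (key a).trans (key b).symm⟩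

theorem isContraction_of_contracts {V W : Type} {G : SimpleGraph V} {H : SimpleGraph W}
    (h : Contracts G H) : IsContraction G H := by
  induction h with
  | iso e => exact IsContraction.of_iso e
  | step huv _ ih => exact IsContraction.trans ⟨_, contractEdge_wit _ _ _ huv⟩ ih

theorem exists_adj_of_connected {A : Type} {G : SimpleGraph A} (h : G.Connected) (a b : A)
    (hab : a ≠ b) : ∃ c d, G.Adj c d := by
  obtain ⟨p⟩ := h.preconnected a b
  cases p with
  | nil => exact absurd rfl hab
  | cons hadj _ => exact ⟨_, _, hadj⟩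

theorem contracts_of_wit {W : Type} (H : SimpleGraph W) (n : ℕ) :
    ∀ (V : Type) [Finite V] (G : SimpleGraph V) (f : V → W), Nat.card V = n → Wit G H f →
      Contracts G H := by
  induction n with
  | zero =>
    intro V _ G f hn hf
    have : IsEmpty V := by
      rcases Nat.card_eq_zero.1 hn with h | h
      · exact h
      · exact absurd ‹Finite V› (by simpa using h)
    have : IsEmpty W := ⟨fun w => by
      obtain ⟨v, _⟩ := hf.surj w
      exact IsEmpty.false v⟩
    exact Contracts.iso ⟨⟨f, fun w => isEmptyElim w, fun v => isEmptyElim v,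
      fun w => isEmptyElim w⟩, fun {a} => isEmptyElim a⟩
  | succ n ih =>
    intro V _ G f hn hf
    by_cases hinj : Function.Injective f
    · refine Contracts.iso ⟨Equiv.ofBijective f ⟨hinj, hf.surj⟩, ?_⟩
      intro a b
      simp only [Equiv.ofBijective_apply]
      constructor
      · intro h
        obtain ⟨v, v', hv, hv', hadj⟩ := (hf.2 _ _ h.ne).1 h
        rw [← hinj hv, ← hinj hv']
        exact hadj
      · intro h
        refine (hf.adj _ _ h).resolve_left ?_
        intro he
        exact h.ne (hinj he)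
    · rw [Function.not_injective_iff] at hinj
      obtain ⟨a, b, hab, hne⟩ := hinj
      obtain ⟨⟨u, hu⟩, ⟨v, hv⟩, huv⟩ := exists_adj_of_connected (hf.1 (f b))
        ⟨a, hab⟩ ⟨b, rfl⟩ (fun h => hne (congrArg Subtype.val h))
      have huv' : G.Adj u v := huv
      have hfuv : f u = f v := by
        have h1 : f u = f b := hu
        have h2 : f v = f b := hv
        rw [h1, h2]
      refine Contracts.step huv' ?_
      have hq : ∀ x, f (quo u v huv'.ne x).1 = f x := by
        intro x
        by_cases hx : x = v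
        · subst hx; rw [quo_self]; exact hfuv
        · rw [quo_of_ne _ _ _ _ hx]
      have hw := contractEdge_wit G u v huv'
      refine ih {x : V // x ≠ v} (contractEdge G u v) (fun x => f x.1) ?_ ⟨fun w => ?_, fun w w' hww => ?_⟩
      · have := Fintype.ofFinite V
        classical
        have h1 : Nat.card {x : V // x ≠ v} = Nat.card V - 1 := by
          rw [Nat.card_eq_fintype_card, Nat.card_eq_fintype_card, Fintype.card_subtype_compl,
            Fintype.card_subtype_eq]
        omega
      · refine conn_of_map (G := G.induce {x | f x = w})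
          (fun x => (⟨quo u v huv'.ne x.1, by
            show f (quo u v huv'.ne x.1).1 = w
            rw [hq]; exact x.2⟩ : {x : {x : V // x ≠ v} | f x.1 = w})) ?_ ?_ (hf.1 w)
        · rintro ⟨x, hx⟩
          refine ⟨⟨x.1, hx⟩, ?_⟩
          apply Subtype.ext
          exact quo_of_ne _ _ _ _ x.2
        · rintro ⟨x, hx⟩ ⟨y, hy⟩ hxy
          rcases hw.adj x y hxy with h | h
          · left; exact Subtype.ext h
          · right; exact h
      · rw [hf.2 w w' hww]
        constructor
        · rintro ⟨x, x', hx, hx', hadj⟩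
          refine ⟨quo u v huv'.ne x, quo u v huv'.ne x', ?_, ?_, ?_⟩
          · show f (quo u v huv'.ne x).1 = w
            rw [hq]; exact hx
          · show f (quo u v huv'.ne x').1 = w'
            rw [hq]; exact hx'
          · refine (hw.adj _ _ hadj).resolve_left ?_
            intro he
            apply hww
            rw [← hx, ← hx', ← hq x, ← hq x', he]
        · rintro ⟨x, x', hx, hx', hadj⟩
          obtain ⟨y, y', hy, hy', h3⟩ := (hw.2 x x' hadj.ne).1 hadj
          refine ⟨y, y', ?_, ?_, h3⟩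
          · rw [← hq, hy]; exact hx
          · rw [← hq, hy']; exact hx'

theorem contracts_iff {V W : Type} [Finite V] (G : SimpleGraph V) (H : SimpleGraph W) :
    Contracts G H ↔ IsContraction G H :=
  ⟨isContraction_of_contracts, fun ⟨f, hf⟩ => contracts_of_wit H _ V G f rfl hf⟩

end Pool.Agent.H175R2
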