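import Pool.Agent.H175R2.Defs

namespace Pool.Agent.H175R2

/-- k types across a cut -/
def Types {V : Type} (G : SimpleGraph V) (A : Set V) (k : ℕ) : Prop :=
  ∃ l : V → Fin k, ∀ x ∈ A, ∀ y ∈ A, l x = l y → ∀ z ∉ A, (G.Adj x z ↔ G.Adj y z)

theorem Types.iso {V V' : Type} {G : SimpleGraph V} {G' : SimpleGraph V'} (e : G ≃g G')
    {A : Set V'} {k : ℕ} (h : Types G' A k) : Types G (e ⁻¹' A) k := by
  obtain ⟨l, hl⟩ := h
  refine ⟨fun x => l (e x), fun x hx y hy hxy z hz => ?_⟩
  have := hl (e x) hx (e y) hy hxy (e z) hz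
  rw [e.map_adj_iff, e.map_adj_iff] at this
  exact this

namespace CutAux

/-- types which also refine the current labels -/
def Good {k : ℕ} {U : Type} (H : SimpleGraph U) (l : U → Fin k) (A : Set U) : Prop :=
  ∃ t : U → Fin k, ∀ x ∈ A, ∀ y ∈ A, t x = t y → l x = l y ∧ ∀ z ∉ A, (H.Adj x z ↔ H.Adj y z)

theorem good_univ {k : ℕ} {U : Type} (H : SimpleGraph U) (l : U → Fin k) :
    Good H l Set.univ :=
  ⟨l, fun _ _ _ _ h => ⟨h, fun _ hz => absurd (Set.mem_univ _) hz⟩⟩

theorem good_inl {k : ℕ} {V W : Type} {G : SimpleGraph V} {H : SimpleGraph W} {l : V → Fin k}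
    {m : W → Fin k} {A : Set V} (h : Good G l A) :
    Good (G ⊕g H) (Sum.elim l m) (Sum.inl '' A) := by
  obtain ⟨t, ht⟩ := h
  refine ⟨Sum.elim t m, ?_⟩
  rintro _ ⟨x, hx, rfl⟩ _ ⟨y, hy, rfl⟩ hxy
  have h1 := ht x hx y hy (by simpa using hxy)
  refine ⟨by simpa using h1.1, ?_⟩
  rintro (z | z) hz
  · have : z ∉ A := fun h => hz ⟨z, h, rfl⟩
    simpa using h1.2 z this
  · simp

theorem good_inr {k : ℕ} {V W : Type} {G : SimpleGraph V} {H : SimpleGraph W} {l : V → Fin k}
    {m : W → Fin k} {A : Set W} (h : Good H m A) :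
    Good (G ⊕g H) (Sum.elim l m) (Sum.inr '' A) := by
  obtain ⟨t, ht⟩ := h
  refine ⟨Sum.elim l t, ?_⟩
  rintro _ ⟨x, hx, rfl⟩ _ ⟨y, hy, rfl⟩ hxy
  have h1 := ht x hx y hy (by simpa using hxy)
  refine ⟨by simpa using h1.1, ?_⟩
  rintro (z | z) hz
  · simp
  · have : z ∉ A := fun h => hz ⟨z, h, rfl⟩
    simpa using h1.2 z this

theorem good_join {k : ℕ} {V : Type} {G : SimpleGraph V} {l : V → Fin k} {A : Set V} (i j : Fin k)
    (h : Good G l A) : Good (G ⊔ SimpleGraph.fromRel (fun u v => l u = i ∧ l v = j)) l A := by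
  obtain ⟨t, ht⟩ := h
  refine ⟨t, fun x hx y hy hxy => ?_⟩
  obtain ⟨h1, h2⟩ := ht x hx y hy hxy
  refine ⟨h1, fun z hz => ?_⟩
  have hxz : x ≠ z := fun h => hz (h ▸ hx)
  have hyz : y ≠ z := fun h => hz (h ▸ hy)
  simp only [SimpleGraph.sup_adj, SimpleGraph.fromRel_adj, h2 z hz, ne_eq, hxz, hyz, h1]

theorem good_relabel {k : ℕ} {V : Type} {G : SimpleGraph V} {l : V → Fin k} {A : Set V}
    (f : Fin k → Fin k) (h : Good G l A) : Good G (fun v => f (l v)) A := by
  obtain ⟨t, ht⟩ := h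
  refine ⟨t, fun x hx y hy hxy => ?_⟩
  obtain ⟨h1, h2⟩ := ht x hx y hy hxy
  exact ⟨by simp only [h1], h2⟩

theorem ncard_split {V W : Type} [Finite V] [Finite W] (S : Set (V ⊕ W)) :
    S.ncard = (Sum.inl ⁻¹' S).ncard + (Sum.inr ⁻¹' S).ncard := by
  have h1 : S = Sum.inl '' (Sum.inl ⁻¹' S) ∪ Sum.inr '' (Sum.inr ⁻¹' S) := by
    ext (x | x) <;> simp
  have h2 : Disjoint (Sum.inl '' (Sum.inl ⁻¹' S) : Set (V ⊕ W)) (Sum.inr '' (Sum.inr ⁻¹' S)) := by
    rw [Set.disjoint_left]
    rintro _ ⟨x, _, rfl⟩ ⟨y, _, h⟩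
    exact absurd h (by simp)
  conv_lhs => rw [h1]
  rw [Set.ncard_union_eq h2, Set.ncard_image_of_injective _ Sum.inl_injective,
    Set.ncard_image_of_injective _ Sum.inr_injective]

theorem finite_of_built {k : ℕ} {U : Type} {H : SimpleGraph U} {l : U → Fin k}
    (h : CwBuilt k U H l) : Finite U := by
  induction h with
  | single => infer_instance
  | union V W G H l m _ _ h1 h2 =>
    have := h1
    have := h2
    infer_instance
  | join _ _ _ _ _ _ _ h => exact h
  | relabel _ _ _ _ _ _ h => exact h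

theorem core {k : ℕ} {U : Type} {H : SimpleGraph U} {l : U → Fin k}
    (h : CwBuilt k U H l) (m : ℕ) (hm : 2 ≤ m) : ∀ W : Set U, 2 * m < 3 * W.ncard →
      ∃ A : Set U, Good H l A ∧ m ≤ 3 * (A ∩ W).ncard ∧ 3 * (A ∩ W).ncard ≤ 2 * m := by
  induction h with
  | single i =>
    intro W hW
    have : W.ncard ≤ 1 := by
      have h1 := Set.ncard_le_ncard (Set.subset_univ W) Set.finite_univ
      rw [Set.ncard_univ] at h1
      simpa using h1
    omega
  | union V W G H l m' hG hH ih1 ih2 =>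
    intro S hS
    have := finite_of_built hG
    have := finite_of_built hH
    rw [ncard_split] at hS
    have e1 : ∀ A : Set V, ((Sum.inl '' A : Set (V ⊕ W)) ∩ S).ncard = (A ∩ (Sum.inl ⁻¹' S)).ncard := by
      intro A
      rw [← Set.image_inter_preimage, Set.ncard_image_of_injective _ Sum.inl_injective]
    have e2 : ∀ A : Set W, ((Sum.inr '' A : Set (V ⊕ W)) ∩ S).ncard = (A ∩ (Sum.inr ⁻¹' S)).ncard := by
      intro A
      rw [← Set.image_inter_preimage, Set.ncard_image_of_injective _ Sum.inr_injective]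
    by_cases c1 : 2 * m < 3 * (Sum.inl ⁻¹' S).ncard
    · obtain ⟨A, hA, h1, h2⟩ := ih1 _ c1
      exact ⟨Sum.inl '' A, good_inl hA, by rw [e1]; exact h1, by rw [e1]; exact h2⟩
    by_cases c2 : 2 * m < 3 * (Sum.inr ⁻¹' S).ncard
    · obtain ⟨A, hA, h1, h2⟩ := ih2 _ c2
      exact ⟨Sum.inr '' A, good_inr hA, by rw [e2]; exact h1, by rw [e2]; exact h2⟩
    by_cases c3 : m ≤ 3 * (Sum.inl ⁻¹' S).ncard
    · refine ⟨Sum.inl '' Set.univ, good_inl (good_univ _ _), ?_, ?_⟩ <;> rw [e1, Set.univ_inter] <;> omega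
    · refine ⟨Sum.inr '' Set.univ, good_inr (good_univ _ _), ?_, ?_⟩ <;> rw [e2, Set.univ_inter] <;> omega
  | join V G l i j hij hG ih =>
    intro S hS
    obtain ⟨A, hA, h1, h2⟩ := ih S hS
    exact ⟨A, good_join i j hA, h1, h2⟩
  | relabel V G l i j hG ih =>
    intro S hS
    obtain ⟨A, hA, h1, h2⟩ := ih S hS
    exact ⟨A, good_relabel (fun x => if x = i then j else x) hA, h1, h2⟩

end CutAux

open CutAux

theorem balanced_cut {V : Type} [Finite V] (G : SimpleGraph V) (k : ℕ) (h : CwLE G k) (W : Set V)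
    (hW : 2 ≤ W.ncard) :
    ∃ A : Set V, Types G A k ∧ W.ncard ≤ 3 * (A ∩ W).ncard ∧ 3 * (A ∩ W).ncard ≤ 2 * W.ncard := by
  obtain ⟨U, G', l, hb, ⟨e⟩⟩ := h
  have hc : (e '' W).ncard = W.ncard := Set.ncard_image_of_injective _ e.injective
  obtain ⟨A, ⟨t, ht⟩, h1, h2⟩ := core hb W.ncard hW (e '' W) (by omega)
  have e1 : (A ∩ e '' W).ncard = ((e ⁻¹' A) ∩ W).ncard := by
    rw [Set.inter_comm, ← Set.image_inter_preimage, Set.inter_comm,
      Set.ncard_image_of_injective _ e.injective]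
  refine ⟨e ⁻¹' A, Types.iso e ⟨t, fun x hx y hy hxy z hz => (ht x hx y hy hxy).2 z hz⟩, ?_, ?_⟩
  · rw [← e1]; exact h1
  · rw [← e1]; exact h2

namespace CutAux

/-- swapping the coordinates of the grid -/
def swapIso (n : ℕ) : grid n ≃g grid n where
  toEquiv := Equiv.prodComm _ _
  map_rel_iff' := by
    intro p q
    simp only [grid, SimpleGraph.fromRel_adj, Equiv.prodComm_apply, Prod.fst_swap, Prod.snd_swap,
      ne_eq, Prod.swap_inj]
    tauto

open Classical in
/-- mixed rows -/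
noncomputable def mixed {n : ℕ} (A : Set (Fin n × Fin n)) : Finset (Fin n) :=
  Finset.univ.filter (fun i => (∃ j, (i, j) ∈ A) ∧ ∃ j, (i, j) ∉ A)

/-- discrete intermediate values -/
theorem step_exists {n : ℕ} (P : Fin n → Prop) (h1 : ∃ j, P j) (h2 : ∃ j, ¬ P j) :
    ∃ a b : Fin n, P a ∧ ¬ P b ∧ (a.val + 1 = b.val ∨ b.val + 1 = a.val) := by
  by_contra hcon
  push Not at hcon
  have hstep : ∀ (j : ℕ) (hj : j + 1 < n), P ⟨j, by omega⟩ ↔ P ⟨j + 1, hj⟩ := by
    intro j hj
    constructor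
    · intro h
      by_contra h'
      exact (hcon _ _ h h').1 rfl
    · intro h
      by_contra h'
      exact (hcon _ _ h h').2 rfl
  have hall : ∀ (j : ℕ) (hj : j < n), P ⟨j, hj⟩ ↔ P ⟨0, by omega⟩ := by
    intro j
    induction j with
    | zero => intro _; rfl
    | succ j ih =>
      intro hj
      rw [← hstep j hj]
      exact ih _
  obtain ⟨a, ha⟩ := h1
  obtain ⟨b, hb⟩ := h2
  exact hb ((hall b.1 b.2).2 ((hall a.1 a.2).1 ha))

theorem mixed_le {n k : ℕ} (A : Set (Fin n × Fin n)) (h : Types (grid n) A k) :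
    (mixed A).card ≤ 2 * k := by
  classical
  obtain ⟨l, hl⟩ := h
  have hch : ∀ i : Fin n, i ∈ mixed A → ∃ a b : Fin n, (i, a) ∈ A ∧ (i, b) ∉ A ∧
      (a.val + 1 = b.val ∨ b.val + 1 = a.val) := by
    intro i hi
    simp only [mixed, Finset.mem_filter, Finset.mem_univ, true_and] at hi
    exact step_exists (fun j => (i, j) ∈ A) hi.1 hi.2
  choose! a b ha hb hab using hch
  by_contra hcon
  push Not at hcon
  have hcard : (Finset.univ : Finset (Fin k)).card * 2 < (mixed A).card := by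
    simp; omega
  obtain ⟨t, _, ht⟩ := Finset.exists_lt_card_fiber_of_mul_lt_card_of_maps_to
    (f := fun i => l (i, a i)) (s := mixed A) (t := Finset.univ) (fun _ _ => Finset.mem_univ _) hcard
  rw [Finset.two_lt_card] at ht
  obtain ⟨x, hx, y, hy, z, hz, hxy, hxz, hyz⟩ := ht
  simp only [Finset.mem_filter] at hx hy hz
  have key : ∀ x y : Fin n, x ∈ mixed A → y ∈ mixed A → l (x, a x) = l (y, a y) →
      x.val ≤ y.val + 1 := by
    intro x y hx hy hxy
    have hadj : (grid n).Adj (x, a x) (x, b x) := by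
      simp only [grid, SimpleGraph.fromRel_adj, ne_eq, Prod.mk.injEq, true_and]
      refine ⟨?_, ?_⟩
      · intro h
        have := hab x hx
        rw [h] at this
        omega
      · rcases hab x hx with h | h
        · exact Or.inl (Or.inl h)
        · exact Or.inr (Or.inl h)
    have h2 := (hl _ (ha x hx) _ (ha y hy) hxy _ (hb x hx)).1 hadj
    simp only [grid, SimpleGraph.fromRel_adj, ne_eq, Prod.mk.injEq] at h2
    rcases h2.2 with (⟨h, _⟩ | ⟨_, h⟩) | (⟨h, _⟩ | ⟨_, h⟩)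
    · rw [h]; omega
    · omega
    · rw [h]; omega
    · omega
  have k1 := key x y hx.1 hy.1 (hx.2.trans hy.2.symm)
  have k2 := key y x hy.1 hx.1 (hy.2.trans hx.2.symm)
  have k3 := key x z hx.1 hz.1 (hx.2.trans hz.2.symm)
  have k4 := key z x hz.1 hx.1 (hz.2.trans hx.2.symm)
  have k5 := key y z hy.1 hz.1 (hy.2.trans hz.2.symm)
  have k6 := key z y hz.1 hy.1 (hz.2.trans hy.2.symm)
  have n1 : x.val ≠ y.val := fun h => hxy (Fin.ext h)
  have n2 : x.val ≠ z.val := fun h => hxz (Fin.ext h)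
  have n3 : y.val ≠ z.val := fun h => hyz (Fin.ext h)
  omega

/-- if every row meeting `A` is mixed then `A` is small -/
theorem card_le_mixed {n : ℕ} (A : Set (Fin n × Fin n)) (h : ∀ i, (∃ j, (i, j) ∈ A) → i ∈ mixed A) :
    A.ncard ≤ (mixed A).card * n := by
  have h1 : A ⊆ ((mixed A ×ˢ (Finset.univ : Finset (Fin n)) : Finset _) : Set (Fin n × Fin n)) := by
    rintro ⟨i, j⟩ hij
    simp only [Finset.coe_product, Finset.coe_univ, Set.mem_prod, Finset.mem_coe, Set.mem_univ,
      and_true]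
    exact h i ⟨j, hij⟩
  have h2 := Set.ncard_le_ncard h1 (Finset.finite_toSet _)
  rw [Set.ncard_coe_finset, Finset.card_product] at h2
  simpa using h2

theorem mixed_compl {n : ℕ} (A : Set (Fin n × Fin n)) : mixed Aᶜ = mixed A := by
  ext i
  simp only [mixed, Finset.mem_filter, Finset.mem_univ, true_and, Set.mem_compl_iff, not_not]
  tauto

end CutAux

theorem grid_unbounded : ∀ c N : ℕ, ∃ n ≥ N, ∀ k ≤ c, ¬ CwLE (grid n) k := by
  intro c N
  refine ⟨N + 6 * c + 2, by omega, ?_⟩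
  intro k hk hcw
  set n := N + 6 * c + 2 with hn
  have hcard : (Set.univ : Set (Fin n × Fin n)).ncard = n * n := by
    rw [Set.ncard_univ]; simp
  obtain ⟨A, hT, h1, h2⟩ := balanced_cut (grid n) k hcw Set.univ (by rw [hcard]; nlinarith)
  rw [Set.inter_univ, hcard] at h1 h2
  have hcompl : A.ncard + Aᶜ.ncard = n * n := by
    rw [Set.ncard_add_ncard_compl]; simp
  have hm := mixed_le A hT
  have hbig : n ≤ 3 * (mixed A).card → False := by
    intro h; omega
  by_cases hfull : ∃ i, ∀ j, (i, j) ∈ A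
  · by_cases hempty : ∃ i, ∀ j, (i, j) ∉ A
    · obtain ⟨i, hi⟩ := hfull
      obtain ⟨i', hi'⟩ := hempty
      have hT' : Types (grid n) (swapIso n ⁻¹' A) k := Types.iso _ hT
      have hm' := mixed_le _ hT'
      have : mixed (swapIso n ⁻¹' A) = Finset.univ := by
        ext j
        simp only [mixed, Finset.mem_filter, Finset.mem_univ, true_and, iff_true]
        exact ⟨⟨i, hi j⟩, ⟨i', hi' j⟩⟩
      rw [this] at hm'
      simp at hm'
      omega
    · push Not at hempty
      have h3 : Aᶜ.ncard ≤ (mixed Aᶜ).card * n := by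
        apply card_le_mixed
        rintro i ⟨j, hj⟩
        rw [mixed_compl]
        simp only [mixed, Finset.mem_filter, Finset.mem_univ, true_and]
        exact ⟨hempty i, j, hj⟩
      rw [mixed_compl] at h3
      apply hbig
      have : n * n ≤ 3 * ((mixed A).card * n) := by omega
      have : n * n ≤ (3 * (mixed A).card) * n := by linarith
      exact Nat.le_of_mul_le_mul_right this (by omega)
  · push Not at hfull
    have h3 : A.ncard ≤ (mixed A).card * n := by
      apply card_le_mixed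
      rintro i ⟨j, hj⟩
      simp only [mixed, Finset.mem_filter, Finset.mem_univ, true_and]
      exact ⟨⟨j, hj⟩, hfull i⟩
    apply hbig
    have : n * n ≤ (3 * (mixed A).card) * n := by linarith
    exact Nat.le_of_mul_le_mul_right this (by omega)

end Pool.Agent.H175R2
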