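import Pool.Agent.H175R2.Cut

namespace Pool.Agent.H175R2

namespace FamAux

open Finset

theorem arith {n k p q a b : ℕ} (hn : 21 * k < n) (hpq : p + q = n) (ha : n * n ≤ 3 * a)
    (hb : n * n ≤ 3 * b) (h1 : a ≤ p * p + 4 * k * n) (h2 : b ≤ q * q + 2 * k * n)
    (h3 : 2 * (p * q) ≤ 6 * k * n) : False := by
  have hn0 : 0 < n := by omega
  have hkn : 21 * (k * n) + n ≤ n * n := by nlinarith
  have l1 : n * n ≤ 7 * (p * p) := by nlinarith
  have l2 : n * n ≤ 7 * (q * q) := by nlinarith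
  have l3 : n * n ≤ 7 * (p * q) := by
    have l4 : (n * n) * (n * n) ≤ (7 * (p * q)) * (7 * (p * q)) := by
      calc (n * n) * (n * n) ≤ (7 * (p * p)) * (7 * (q * q)) := Nat.mul_le_mul l1 l2
        _ = _ := by ring
    exact Nat.mul_self_le_mul_self_iff.1 l4
  nlinarith

/-- the combinatorial core for the three incidence families -/
theorem inc_core {n k : ℕ} (hn : 21 * k < n) (X : Finset (Fin n)) (S : Finset (Fin n × Fin n))
    (t : Fin n × Fin n → Fin k) (s : Fin n → Fin k)
    (ht : ∀ p ∈ S, ∀ q ∈ S, t p = t q → ∀ b ∉ X, ((b = p.1 ∨ b = p.2) ↔ (b = q.1 ∨ b = q.2)))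
    (hs : ∀ a ∈ X, ∀ a' ∈ X, s a = s a' → ∀ p ∉ S, ((a = p.1 ∨ a = p.2) ↔ (a' = p.1 ∨ a' = p.2)))
    (h1 : n * n ≤ 3 * S.card) (h2 : n * n ≤ 3 * Sᶜ.card) : False := by
  classical
  -- representatives
  have hrep1 : ∃ B : Finset (Fin n), B.card ≤ 2 * k ∧
      ∀ p ∈ S, ∀ b ∉ X, (b = p.1 ∨ b = p.2) → b ∈ B := by
    have hch : ∀ τ : Fin k, ∃ q : Fin n × Fin n, (∃ p ∈ S, t p = τ) → q ∈ S ∧ t q = τ := by
      intro τ
      by_cases h : ∃ p ∈ S, t p = τ
      · obtain ⟨p, hp, hpt⟩ := h
        exact ⟨p, fun _ => ⟨hp, hpt⟩⟩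
      · exact ⟨(⟨0, by omega⟩, ⟨0, by omega⟩), fun h' => absurd h' h⟩
    choose q hq using hch
    refine ⟨univ.image (fun τ => (q τ).1) ∪ univ.image (fun τ => (q τ).2), ?_, ?_⟩
    · refine (card_union_le _ _).trans ?_
      have e1 := card_image_le (s := (univ : Finset (Fin k))) (f := fun τ => (q τ).1)
      have e2 := card_image_le (s := (univ : Finset (Fin k))) (f := fun τ => (q τ).2)
      simp only [card_univ, Fintype.card_fin] at e1 e2
      omega
    · intro p hp b hb hbp
      obtain ⟨hq1, hq2⟩ := hq (t p) ⟨p, hp, rfl⟩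
      have := (ht p hp _ hq1 hq2.symm b hb).1 hbp
      simp only [mem_union, mem_image, mem_univ, true_and]
      rcases this with h | h
      · exact Or.inl ⟨t p, h.symm⟩
      · exact Or.inr ⟨t p, h.symm⟩
  have hrep2 : ∃ R : Finset (Fin n), R.card ≤ k ∧
      ∀ a ∈ X, ∀ p ∉ S, (a = p.1 ∨ a = p.2) → p.1 ∈ R ∨ p.2 ∈ R := by
    have hch : ∀ τ : Fin k, ∃ r : Fin n, (∃ a ∈ X, s a = τ) → r ∈ X ∧ s r = τ := by
      intro τ
      by_cases h : ∃ a ∈ X, s a = τ
      · obtain ⟨p, hp, hpt⟩ := h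
        exact ⟨p, fun _ => ⟨hp, hpt⟩⟩
      · exact ⟨⟨0, by omega⟩, fun h' => absurd h' h⟩
    choose r hr using hch
    refine ⟨univ.image r, ?_, ?_⟩
    · have e1 := card_image_le (s := (univ : Finset (Fin k))) (f := r)
      simpa using e1
    · intro a ha p hp hap
      obtain ⟨hr1, hr2⟩ := hr (s a) ⟨a, ha, rfl⟩
      have := (hs a ha _ hr1 hr2.symm p hp).1 hap
      simp only [mem_image, mem_univ, true_and]
      rcases this with h | h
      · exact Or.inl ⟨s a, h⟩
      · exact Or.inr ⟨s a, h⟩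
  obtain ⟨B, hB, hB'⟩ := hrep1
  obtain ⟨R, hR, hR'⟩ := hrep2
  have cu : (univ : Finset (Fin n)).card = n := by simp
  -- T1
  have hT1 : ∀ p ∈ S, (p.1 ∉ X ∨ p.2 ∉ X) → p ∈ B ×ˢ (univ : Finset (Fin n)) ∪ (univ : Finset (Fin n)) ×ˢ B := by
    intro p hp h
    simp only [mem_union, mem_product, mem_univ, and_true, true_and]
    rcases h with h | h
    · exact Or.inl (hB' p hp _ h (Or.inl rfl))
    · exact Or.inr (hB' p hp _ h (Or.inr rfl))
  have hT2 : ∀ p ∉ S, (p.1 ∈ X ∨ p.2 ∈ X) → p ∈ R ×ˢ (univ : Finset (Fin n)) ∪ (univ : Finset (Fin n)) ×ˢ R := by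
    intro p hp h
    simp only [mem_union, mem_product, mem_univ, and_true, true_and]
    rcases h with h | h
    · exact hR' _ h p hp (Or.inl rfl)
    · exact hR' _ h p hp (Or.inr rfl)
  have cB : (B ×ˢ (univ : Finset (Fin n)) ∪ (univ : Finset (Fin n)) ×ˢ B).card ≤ 4 * k * n := by
    refine (card_union_le _ _).trans ?_
    rw [card_product, card_product, cu]
    nlinarith
  have cR : (R ×ˢ (univ : Finset (Fin n)) ∪ (univ : Finset (Fin n)) ×ˢ R).card ≤ 2 * k * n := by
    refine (card_union_le _ _).trans ?_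
    rw [card_product, card_product, cu]
    nlinarith
  set p := X.card with hp
  set q := Xᶜ.card with hq
  have hpq : p + q = n := by
    rw [hp, hq, card_add_card_compl]; simp
  -- S small
  have i1 : S ⊆ X ×ˢ X ∪ (B ×ˢ (univ : Finset (Fin n)) ∪ (univ : Finset (Fin n)) ×ˢ B) := by
    intro x hx
    by_cases h : x.1 ∉ X ∨ x.2 ∉ X
    · exact mem_union_right _ (hT1 x hx h)
    · push Not at h
      exact mem_union_left _ (mem_product.2 h)
  have i2 : Sᶜ ⊆ Xᶜ ×ˢ Xᶜ ∪ (R ×ˢ (univ : Finset (Fin n)) ∪ (univ : Finset (Fin n)) ×ˢ R) := by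
    intro x hx
    rw [mem_compl] at hx
    by_cases h : x.1 ∈ X ∨ x.2 ∈ X
    · exact mem_union_right _ (hT2 x hx h)
    · push Not at h
      exact mem_union_left _ (mem_product.2 ⟨mem_compl.2 h.1, mem_compl.2 h.2⟩)
  have i3 : X ×ˢ Xᶜ ∪ Xᶜ ×ˢ X ⊆ (B ×ˢ (univ : Finset (Fin n)) ∪ (univ : Finset (Fin n)) ×ˢ B) ∪
      (R ×ˢ (univ : Finset (Fin n)) ∪ (univ : Finset (Fin n)) ×ˢ R) := by
    intro x hx
    simp only [mem_union, mem_product, mem_compl] at hx
    by_cases hxS : x ∈ S
    · exact mem_union_left _ (hT1 x hxS (by tauto))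
    · exact mem_union_right _ (hT2 x hxS (by tauto))
  have j1 := card_le_card i1
  have j2 := card_le_card i2
  have j3 := card_le_card i3
  have j1' : S.card ≤ p * p + 4 * k * n := by
    refine j1.trans ((card_union_le _ _).trans ?_)
    rw [card_product, ← hp]
    omega
  have j2' : Sᶜ.card ≤ q * q + 2 * k * n := by
    refine j2.trans ((card_union_le _ _).trans ?_)
    rw [card_product, ← hq]
    omega
  have j3' : 2 * (p * q) ≤ 6 * k * n := by
    have d : Disjoint (X ×ˢ Xᶜ) (Xᶜ ×ˢ X) := by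
      rw [disjoint_left]
      intro x hx hx'
      simp only [mem_product, mem_compl] at hx hx'
      exact hx'.1 hx.1
    rw [card_union_of_disjoint d, card_product, card_product, ← hp, ← hq] at j3
    have := card_union_le (B ×ˢ (univ : Finset (Fin n)) ∪ (univ : Finset (Fin n)) ×ˢ B)
      (R ×ˢ (univ : Finset (Fin n)) ∪ (univ : Finset (Fin n)) ×ˢ R)
    nlinarith
  exact arith hn hpq h1 h2 j1' j2' j3'

/-- transfer to a graph containing the incidence structure -/
theorem inc_graph {V : Type} [Finite V] (G : SimpleGraph V) (n k : ℕ) (hn : 21 * k < n)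
    (L : Fin n → V) (P : Fin n × Fin n → V) (hP : Function.Injective P)
    (hadj : ∀ a p, G.Adj (L a) (P p) ↔ (a = p.1 ∨ a = p.2)) (hn2 : 2 ≤ n) : ¬ CwLE G k := by
  classical
  intro hcw
  have hW : (Set.range P).ncard = n * n := by
    rw [← Set.image_univ, Set.ncard_image_of_injective _ hP, Set.ncard_univ]; simp
  obtain ⟨A, ⟨l, hl⟩, h1, h2⟩ := balanced_cut G k hcw (Set.range P) (by rw [hW]; nlinarith)
  rw [hW] at h1 h2
  set S : Finset (Fin n × Fin n) := Finset.univ.filter (fun p => P p ∈ A) with hS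
  set X : Finset (Fin n) := Finset.univ.filter (fun a => L a ∈ A) with hX
  have hc : (A ∩ Set.range P).ncard = S.card := by
    have : A ∩ Set.range P = P '' (S : Set (Fin n × Fin n)) := by
      ext x
      simp only [hS, Set.mem_inter_iff, Set.mem_range, Finset.coe_filter, Finset.mem_univ, true_and,
        Set.mem_image, Set.mem_ofPred_eq]
      constructor
      · rintro ⟨hx, p, rfl⟩
        exact ⟨p, hx, rfl⟩
      · rintro ⟨p, hp, rfl⟩
        exact ⟨hp, p, rfl⟩
    rw [this, Set.ncard_image_of_injective _ hP, Set.ncard_coe_finset]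
  have hcc : S.card + Sᶜ.card = n * n := by
    rw [Finset.card_add_card_compl]; simp
  refine inc_core hn X S (fun p => l (P p)) (fun a => l (L a)) ?_ ?_ (by omega) (by omega)
  · intro p hp q hq hpq b hb
    simp only [hS, hX, Finset.mem_filter, Finset.mem_univ, true_and] at hp hq hb
    have := hl _ hp _ hq hpq _ hb
    rw [G.adj_comm, hadj, G.adj_comm, hadj] at this
    exact this
  · intro a ha a' ha' haa p hp
    simp only [hS, hX, Finset.mem_filter, Finset.mem_univ, true_and] at ha ha' hp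
    have := hl _ ha _ ha' haa _ hp
    rw [hadj, hadj] at this
    exact this

end FamAux

open FamAux

theorem famCone_unbounded : ∀ c N : ℕ, ∃ n ≥ N, ∀ k ≤ c, ¬ CwLE (famCone n) k := by
  intro c N
  refine ⟨N + 21 * c + 2, by omega, fun k hk => ?_⟩
  refine inc_graph _ _ k (by omega) (fun a => some (.inl a)) (fun p => some (.inr p)) ?_ ?_ (by omega)
  · intro p q h
    simpa using h
  · rintro a ⟨p, q⟩
    simp [famCone, SimpleGraph.fromRel_adj]

theorem famCobip_unbounded : ∀ c N : ℕ, ∃ n ≥ N, ∀ k ≤ c, ¬ CwLE (famCobip n) k := by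
  intro c N
  refine ⟨N + 21 * c + 2, by omega, fun k hk => ?_⟩
  refine inc_graph _ _ k (by omega) (fun a => .inl a) (fun p => .inr p) ?_ ?_ (by omega)
  · intro p q h
    simpa using h
  · rintro a ⟨p, q⟩
    simp [famCobip, SimpleGraph.fromRel_adj]

theorem famSplit_unbounded : ∀ c N : ℕ, ∃ n ≥ N, ∀ k ≤ c, ¬ CwLE (famSplit n) k := by
  intro c N
  refine ⟨N + 21 * c + 2, by omega, fun k hk => ?_⟩
  refine inc_graph _ _ k (by omega) (fun a => .inl a) (fun p => .inr p) ?_ ?_ (by omega)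
  · intro p q h
    simpa using h
  · rintro a ⟨p, q⟩
    simp [famSplit, SimpleGraph.fromRel_adj]

namespace FamAux

open Finset

/-- adjacency in the truncated complete graph -/
def TT {n : ℕ} (x y : Fin n × Fin n) : Prop := x.1 = y.1 ∨ (x.1 = y.2 ∧ x.2 = y.1)

theorem trunc_core {n k : ℕ} (hn : 6 * k + 8 ≤ n) (S S' : Finset (Fin n × Fin n))
    (hSS : ∀ p : Fin n × Fin n, p.1 ≠ p.2 → p ∈ S ∨ p ∈ S') (hd : Disjoint S S')
    (hS : ∀ p ∈ S, p.1 ≠ p.2)
    (t : Fin n × Fin n → Fin k)
    (ht : ∀ x ∈ S, ∀ y ∈ S, t x = t y → ∀ z ∈ S', (TT x z ↔ TT y z))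
    (h1 : n * (n - 1) ≤ 3 * S.card) (h2 : n * (n - 1) ≤ 3 * S'.card) : False := by
  classical
  obtain ⟨m, rfl⟩ : ∃ m, n = m + 1 := ⟨n - 1, by omega⟩
  rw [Nat.add_sub_cancel] at h1 h2
  have cu : (univ : Finset (Fin (m + 1))).card = m + 1 := by simp
  set M : Finset (Fin (m + 1)) := univ.filter
    (fun i => (∃ j, (i, j) ∈ S) ∧ ∃ j j', j ≠ j' ∧ (i, j) ∈ S' ∧ (i, j') ∈ S') with hM
  have hMc : M.card ≤ k := by
    have hch : ∀ i : Fin (m + 1), i ∈ M → ∃ j, (i, j) ∈ S := by
      intro i hi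
      simp only [hM, mem_filter, mem_univ, true_and] at hi
      exact hi.1
    choose! a ha using hch
    have : (univ : Finset (Fin k)).card = k := by simp
    rw [← this]
    refine card_le_card_of_injOn (fun i => t (i, a i)) (fun _ _ => mem_univ _) ?_
    intro i hi i' hi' hii
    have hi2 := hi
    simp only [hM, coe_filter, mem_univ, true_and, Set.mem_ofPred_eq] at hi2
    obtain ⟨_, j, j', hjj, hj, hj'⟩ := hi2
    have e1 := (ht _ (ha i (mem_coe.1 hi)) _ (ha i' (mem_coe.1 hi')) hii _ hj).1 (Or.inl rfl)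
    have e2 := (ht _ (ha i (mem_coe.1 hi)) _ (ha i' (mem_coe.1 hi')) hii _ hj').1 (Or.inl rfl)
    rcases e1 with e1 | ⟨e1, _⟩
    · exact e1.symm
    · rcases e2 with e2 | ⟨e2, _⟩
      · exact e2.symm
      · exact absurd (e1.symm.trans e2) hjj
  set R : Finset (Fin (m + 1)) := univ.filter (fun i => ∀ j, (i, j) ∉ S) with hR
  by_cases hP : ∃ i, i ∉ M ∧ ∃ j, (i, j) ∈ S
  · obtain ⟨i, hiM, hiS⟩ := hP
    have hi1 : ∀ j j', (i, j) ∈ S' → (i, j') ∈ S' → j = j' := by
      intro j j' hj hj'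
      by_contra hne
      apply hiM
      simp only [hM, mem_filter, mem_univ, true_and]
      exact ⟨hiS, j, j', hne, hj, hj'⟩
    have hRc : R.card ≤ k + 1 := by
      have c1 : (R.filter (fun j => (i, j) ∈ S)).card ≤ k := by
        have : (univ : Finset (Fin k)).card = k := by simp
        rw [← this]
        refine card_le_card_of_injOn (fun j => t (i, j)) (fun _ _ => mem_univ _) ?_
        intro j hj j' hj' hjj
        simp only [hR, coe_filter, mem_filter, mem_univ, true_and, Set.mem_ofPred_eq] at hj hj'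
        have hne := hS _ hj.2
        have hji : (j, i) ∈ S' := by
          rcases hSS (j, i) (fun h => hne h.symm) with h | h
          · exact absurd h (hj.1 i)
          · exact h
        have e := (ht _ hj.2 _ hj'.2 hjj _ hji).1 (Or.inr ⟨rfl, rfl⟩)
        rcases e with e | ⟨_, e⟩
        · exact absurd e hne
        · exact e.symm
      have c2 : (R.filter (fun j => ¬ (i, j) ∈ S)).card ≤ 1 := by
        rw [card_le_one]
        intro a ha b hb
        simp only [hR, mem_filter, mem_univ, true_and] at ha hb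
        have hai : i ≠ a := by
          rintro rfl
          obtain ⟨j, hj⟩ := hiS
          exact ha.1 j hj
        have hbi : i ≠ b := by
          rintro rfl
          obtain ⟨j, hj⟩ := hiS
          exact hb.1 j hj
        apply hi1
        · exact (hSS (i, a) hai).resolve_left ha.2
        · exact (hSS (i, b) hbi).resolve_left hb.2
      have := card_filter_add_card_filter_not (s := R) (fun j => (i, j) ∈ S)
      omega
    have c3 : (S'.filter (fun p => p.1 ∈ M ∪ R)).card ≤ (2 * k + 1) * (m + 1) := by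
      have : S'.filter (fun p => p.1 ∈ M ∪ R) ⊆ (M ∪ R) ×ˢ (univ : Finset (Fin (m + 1))) := by
        intro p hp
        simp only [mem_filter] at hp
        exact mem_product.2 ⟨hp.2, mem_univ _⟩
      refine (card_le_card this).trans ?_
      rw [card_product, cu]
      have := card_union_le M R
      gcongr
      omega
    have c4 : (S'.filter (fun p => ¬ p.1 ∈ M ∪ R)).card ≤ m + 1 := by
      refine le_of_le_of_eq ?_ cu
      refine card_le_card_of_injOn (fun p => p.1) (fun _ _ => mem_univ _) ?_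
      rintro ⟨a, b⟩ hp ⟨a', b'⟩ hp' hpp
      simp only [coe_filter, mem_union, Set.mem_ofPred_eq, not_or] at hp hp' hpp
      subst hpp
      congr 1
      by_contra hne
      apply hp.2.1
      simp only [hM, mem_filter, mem_univ, true_and]
      have h3 := hp.2.2
      simp only [hR, mem_filter, mem_univ, true_and, not_forall, not_not] at h3
      exact ⟨h3, b, b', hne, hp.1, hp'.1⟩
    have := card_filter_add_card_filter_not (s := S') (fun p => p.1 ∈ M ∪ R)
    have h5 : (m + 1) * m ≤ (m + 1) * (3 * (2 * k + 2)) := by nlinarith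
    have := Nat.le_of_mul_le_mul_left h5 (by omega)
    omega
  · push Not at hP
    have : S ⊆ M ×ˢ (univ : Finset (Fin (m + 1))) := by
      intro p hp
      refine mem_product.2 ⟨?_, mem_univ _⟩
      by_contra h
      exact hP p.1 h p.2 hp
    have h3 := card_le_card this
    rw [card_product, cu] at h3
    have h5 : (m + 1) * m ≤ (m + 1) * (3 * k) := by nlinarith
    have := Nat.le_of_mul_le_mul_left h5 (by omega)
    omega

end FamAux

theorem famTrunc_unbounded : ∀ c N : ℕ, ∃ n ≥ N, ∀ k ≤ c, ¬ CwLE (famTrunc n) k := by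
  classical
  intro c N
  refine ⟨N + 6 * c + 8, by omega, fun k hk => ?_⟩
  intro hcw
  set n := N + 6 * c + 8 with hn
  have hval : Function.Injective (Subtype.val : {p : Fin n × Fin n // p.1 ≠ p.2} → Fin n × Fin n) :=
    Subtype.val_injective
  have hW : (Set.univ : Set {p : Fin n × Fin n // p.1 ≠ p.2}).ncard = n * (n - 1) := by
    rw [← Set.ncard_image_of_injective _ hval]
    have : (Subtype.val '' (Set.univ : Set {p : Fin n × Fin n // p.1 ≠ p.2})) =
        ((Finset.univ : Finset (Fin n)).offDiag : Set (Fin n × Fin n)) := by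
      ext p
      simp
    rw [this, Set.ncard_coe_finset, Finset.offDiag_card]
    simp [Nat.mul_sub]
  have hn1 : 1 ≤ n - 1 := by omega
  obtain ⟨A, ⟨l, hl⟩, h1, h2⟩ := balanced_cut (famTrunc n) k hcw Set.univ
    (by rw [hW]; nlinarith)
  rw [hW, Set.inter_univ] at h1 h2
  have hcompl : A.ncard + Aᶜ.ncard = n * (n - 1) := by
    rw [Set.ncard_add_ncard_compl, ← Set.ncard_univ, hW]
  set S : Finset (Fin n × Fin n) :=
    Finset.univ.filter (fun p => ∃ h : p.1 ≠ p.2, (⟨p, h⟩ : {p : Fin n × Fin n // p.1 ≠ p.2}) ∈ A) with hS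
  set S' : Finset (Fin n × Fin n) :=
    Finset.univ.filter (fun p => ∃ h : p.1 ≠ p.2, (⟨p, h⟩ : {p : Fin n × Fin n // p.1 ≠ p.2}) ∉ A) with hS'
  have hcS : A.ncard = S.card := by
    rw [← Set.ncard_image_of_injective _ hval, ← Set.ncard_coe_finset]
    congr 1
    ext p
    simp [hS]
  have hcS' : Aᶜ.ncard = S'.card := by
    rw [← Set.ncard_image_of_injective _ hval, ← Set.ncard_coe_finset]
    congr 1
    ext p
    simp [hS']
  have h01 : (⟨0, by omega⟩ : Fin n) ≠ ⟨1, by omega⟩ := by simp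
  refine trunc_core (n := n) (k := k) (by omega) S S' ?_ ?_ ?_
    (fun p => if h : p.1 ≠ p.2 then l ⟨p, h⟩ else l ⟨(⟨0, by omega⟩, ⟨1, by omega⟩), h01⟩) ?_
    (by omega) (by omega)
  · intro p hp
    by_cases h : (⟨p, hp⟩ : {p : Fin n × Fin n // p.1 ≠ p.2}) ∈ A
    · left
      simp only [hS, Finset.mem_filter, Finset.mem_univ, true_and]
      exact ⟨hp, h⟩
    · right
      simp only [hS', Finset.mem_filter, Finset.mem_univ, true_and]
      exact ⟨hp, h⟩
  · rw [Finset.disjoint_left]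
    intro p hp hp'
    simp only [hS, hS', Finset.mem_filter, Finset.mem_univ, true_and] at hp hp'
    exact hp'.2 hp.2
  · intro p hp
    simp only [hS, Finset.mem_filter, Finset.mem_univ, true_and] at hp
    exact hp.1
  · intro x hx y hy hxy z hz
    simp only [hS, hS', Finset.mem_filter, Finset.mem_univ, true_and] at hx hy hz
    obtain ⟨hx1, hx2⟩ := hx
    obtain ⟨hy1, hy2⟩ := hy
    obtain ⟨hz1, hz2⟩ := hz
    have hxy' : l ⟨x, hx1⟩ = l ⟨y, hy1⟩ := by
      simpa [hx1, hy1] using hxy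
    have key := hl _ hx2 _ hy2 hxy' _ hz2
    have hxz : (⟨x, hx1⟩ : {p : Fin n × Fin n // p.1 ≠ p.2}) ≠ ⟨z, hz1⟩ := by
      intro h
      rw [h] at hx2
      exact hz2 hx2
    have hyz : (⟨y, hy1⟩ : {p : Fin n × Fin n // p.1 ≠ p.2}) ≠ ⟨z, hz1⟩ := by
      intro h
      rw [h] at hy2
      exact hz2 hy2
    simp only [famTrunc, SimpleGraph.fromRel_adj, hxz, hyz, ne_eq, not_false_eq_true, true_and] at key
    unfold TT
    constructor
    · intro h
      by_contra hcon
      have h3 := key.2 (Or.inl hcon)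
      rcases h with h | ⟨h, h'⟩
      · rcases h3 with h3 | h3
        · exact h3 (Or.inl h)
        · exact h3 (Or.inl h.symm)
      · rcases h3 with h3 | h3
        · exact h3 (Or.inr ⟨h, h'⟩)
        · exact h3 (Or.inr ⟨h'.symm, h.symm⟩)
    · intro h
      by_contra hcon
      have h3 := key.1 (Or.inl hcon)
      rcases h with h | ⟨h, h'⟩
      · rcases h3 with h3 | h3
        · exact h3 (Or.inl h)
        · exact h3 (Or.inl h.symm)
      · rcases h3 with h3 | h3
        · exact h3 (Or.inr ⟨h, h'⟩)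
        · exact h3 (Or.inr ⟨h'.symm, h.symm⟩)

end Pool.Agent.H175R2
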