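import Pool.Agent.H175R2.Classify

set_option autoImplicit false

namespace Pool.Agent.H175R2

open SimpleGraph

theorem connected_of_reach {V : Type} (G : SimpleGraph V) (v₀ : V)
    (h : ∀ v, G.Reachable v₀ v) : G.Connected := by
  have : Nonempty V := ⟨v₀⟩
  exact ⟨fun x y => (h x).symm.trans (h y)⟩

theorem famCone_connected (n : ℕ) : (famCone n).Connected := by
  apply connected_of_reach _ none
  intro v
  by_cases hv : v = none
  · subst hv; exact Reachable.refl _
  · apply Adj.reachable
    unfold famCone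
    rw [SimpleGraph.fromRel_adj]
    exact ⟨fun h => hv h.symm, Or.inl (Or.inl rfl)⟩

theorem famCobip_connected (n : ℕ) (hn : 1 ≤ n) : (famCobip n).Connected := by
  have i0 : Fin n := ⟨0, hn⟩
  have hL : ∀ a, (famCobip n).Reachable (.inl i0) (.inl a) := by
    intro a
    by_cases h : a = i0
    · subst h; exact Reachable.refl _
    · apply Adj.reachable
      unfold famCobip
      rw [SimpleGraph.fromRel_adj]
      refine ⟨?_, Or.inl (Or.inl ⟨i0, a, rfl, rfl⟩)⟩
      intro h'; exact h (Sum.inl.inj h').symm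
  apply connected_of_reach _ (.inl i0)
  intro v
  rcases v with a | p
  · exact hL a
  · refine (hL p.1).trans ?_
    apply Adj.reachable
    unfold famCobip
    rw [SimpleGraph.fromRel_adj]
    exact ⟨by simp, Or.inl (Or.inr (Or.inr ⟨p.1, p, rfl, rfl, Or.inl rfl⟩))⟩

theorem famSplit_connected (n : ℕ) (hn : 1 ≤ n) : (famSplit n).Connected := by
  have i0 : Fin n := ⟨0, hn⟩
  have hL : ∀ a, (famSplit n).Reachable (.inl i0) (.inl a) := by
    intro a
    by_cases h : a = i0
    · subst h; exact Reachable.refl _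
    · apply Adj.reachable
      unfold famSplit
      rw [SimpleGraph.fromRel_adj]
      refine ⟨?_, Or.inl (Or.inl ⟨i0, a, rfl, rfl⟩)⟩
      intro h'; exact h (Sum.inl.inj h').symm
  apply connected_of_reach _ (.inl i0)
  intro v
  rcases v with a | p
  · exact hL a
  · refine (hL p.1).trans ?_
    apply Adj.reachable
    unfold famSplit
    rw [SimpleGraph.fromRel_adj]
    exact ⟨by simp, Or.inl (Or.inr ⟨p.1, p, rfl, rfl, Or.inl rfl⟩)⟩

theorem famTrunc_connected (n : ℕ) (hn : 4 ≤ n) : (famTrunc n).Connected := by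
  classical
  have hne : Nonempty {p : Fin n × Fin n // p.1 ≠ p.2} :=
    ⟨⟨(⟨0, by omega⟩, ⟨1, by omega⟩), by simp [Fin.ext_iff]⟩⟩
  refine ⟨?_⟩
  intro x y
  -- choose a first coordinate different from the (at most three) bad values
  have hcard : ({x.1.1, x.1.2, y.1.2} : Finset (Fin n)).card < n :=
    lt_of_le_of_lt Finset.card_le_three (by omega)
  by_cases hadj : (famTrunc n).Adj x y
  · exact hadj.reachable
  by_cases hxy : x = y
  · subst hxy; exact Reachable.refl _
  rw [trunc_adj] at hadj
  have hcase : x.1.1 = y.1.1 ∨ (x.1.1 = y.1.2 ∧ x.1.2 = y.1.1) := by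
    by_contra h
    exact hadj ⟨hxy, h⟩
  obtain ⟨m, hm⟩ : ∃ m : Fin n, m ∉ ({x.1.1, x.1.2, y.1.2} : Finset (Fin n)) := by
    by_contra hall
    push Not at hall
    have : (Finset.univ : Finset (Fin n)) ⊆ {x.1.1, x.1.2, y.1.2} := fun m _ => hall m
    have h2 := Finset.card_le_card this
    rw [Finset.card_univ, Fintype.card_fin] at h2
    omega
  simp only [Finset.mem_insert, Finset.mem_singleton, not_or] at hm
  obtain ⟨m1, m2, m3⟩ := hm
  have m4 : m ≠ y.1.1 := by
    rcases hcase with h | ⟨_, h⟩
    · rw [← h]; exact m1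
    · rw [← h]; exact m2
  set z : {p : Fin n × Fin n // p.1 ≠ p.2} := ⟨(m, x.1.1), m1⟩ with hz
  have h1 : (famTrunc n).Adj x z := by
    rw [trunc_adj]
    refine ⟨?_, ?_⟩
    · intro h; apply m1; have := congrArg (fun t => t.1.1) h; simpa [hz] using this.symm
    · rintro (h | ⟨_, h⟩)
      · exact m1 h.symm
      · exact m2 h.symm
  have h2 : (famTrunc n).Adj z y := by
    rw [trunc_adj]
    refine ⟨?_, ?_⟩
    · intro h; apply m4; have := congrArg (fun t => t.1.1) h; simpa [hz] using this
    · rintro (h | ⟨h, _⟩)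
      · exact m4 h
      · exact m3 h
  exact h1.reachable.trans h2.reachable

theorem grid_connected (n : ℕ) (hn : 1 ≤ n) : (grid n).Connected := by
  have h0 : 0 < n := hn
  -- move along a row
  have hrow : ∀ (i : Fin n) (k : ℕ) (hk : k < n),
      (grid n).Reachable (i, ⟨0, h0⟩) (i, ⟨k, hk⟩) := by
    intro i k
    induction k with
    | zero => intro _; exact Reachable.refl _
    | succ k ih =>
      intro hk
      refine (ih (by omega)).trans ?_
      apply Adj.reachable
      unfold grid
      rw [SimpleGraph.fromRel_adj]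
      exact ⟨by simp, Or.inl (Or.inl ⟨rfl, rfl⟩)⟩
  have hcol : ∀ (k : ℕ) (hk : k < n),
      (grid n).Reachable (⟨0, h0⟩, ⟨0, h0⟩) (⟨k, hk⟩, ⟨0, h0⟩) := by
    intro k
    induction k with
    | zero => intro _; exact Reachable.refl _
    | succ k ih =>
      intro hk
      refine (ih (by omega)).trans ?_
      apply Adj.reachable
      unfold grid
      rw [SimpleGraph.fromRel_adj]
      exact ⟨by simp, Or.inl (Or.inr ⟨rfl, rfl⟩)⟩
  apply connected_of_reach _ (⟨0, h0⟩, ⟨0, h0⟩)
  rintro ⟨i, j⟩
  exact (hcol i.1 i.2).trans (hrow i j.1 j.2)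

end Pool.Agent.H175R2
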