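import Pool.Agent.H175R2.Defs

/-! The `n × n` grid has no `K₅` contraction (task K5 of MP_80fcda_co), by a mod-2 face argument. -/

namespace Pool.Agent.H175R2

open SimpleGraph Finset

/-- indicator with values in `ZMod 2` -/
def ind {V : Type} [DecidableEq V] (x u : V) : ZMod 2 := if u = x then 1 else 0

theorem k5_add_self (a : ZMod 2) : a + a = 0 := CharTwo.add_self_eq_zero a

/-- chains along walks inside a set -/
theorem k5_walk_chain {V : Type} [Fintype V] [DecidableEq V] (G : SimpleGraph V) (S : Set V)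
    (x y : S) (h : (G.induce S).Reachable x y) :
    ∃ c : V → V → ZMod 2, (∀ u v, c u v = c v u) ∧
      (∀ u v, c u v ≠ 0 → G.Adj u v ∧ u ∈ S ∧ v ∈ S) ∧
      ∀ u, ∑ v, c u v = ind x.1 u + ind y.1 u := by
  obtain ⟨p⟩ := h
  induction p with
  | nil => exact ⟨fun _ _ => 0, fun _ _ => rfl, fun _ _ h => absurd rfl h, fun u => by
      simp [k5_add_self]⟩
  | @cons x y z hadj _ ih =>
    obtain ⟨c, hc1, hc2, hc3⟩ := ih
    have hadj' : G.Adj x.1 y.1 := hadj
    refine ⟨fun u v => c u v + (ind x.1 u * ind y.1 v + ind y.1 u * ind x.1 v), ?_, ?_, ?_⟩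
    · intro u v
      beta_reduce
      rw [hc1 u v]
      ring
    · intro u v huv
      beta_reduce at huv
      by_cases h0 : c u v ≠ 0
      · exact hc2 u v h0
      · push Not at h0
        rw [h0, zero_add] at huv
        by_cases h1 : u = x.1 ∧ v = y.1
        · rw [h1.1, h1.2]; exact ⟨hadj', x.2, y.2⟩
        · by_cases h2 : u = y.1 ∧ v = x.1
          · rw [h2.1, h2.2]; exact ⟨hadj'.symm, y.2, x.2⟩
          · exfalso
            apply huv
            have e1 : ind x.1 u * ind y.1 v = 0 := by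
              unfold ind
              by_cases ha : u = x.1
              · by_cases hb : v = y.1
                · exact absurd ⟨ha, hb⟩ h1
                · simp [hb]
              · simp [ha]
            have e2 : ind y.1 u * ind x.1 v = 0 := by
              unfold ind
              by_cases ha : u = y.1
              · by_cases hb : v = x.1
                · exact absurd ⟨ha, hb⟩ h2
                · simp [hb]
              · simp [ha]
            rw [e1, e2, add_zero]
    · intro u
      rw [Finset.sum_add_distrib, Finset.sum_add_distrib, hc3, ← Finset.mul_sum, ← Finset.mul_sum]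
      have hs : ∀ a : V, ∑ v, ind a v = 1 := by
        intro a
        simp [ind]
      rw [hs, hs]
      have := k5_add_self (ind y.1 u)
      linear_combination this

/-- in a connected bag every even vertex function is a boundary -/
theorem k5_bag_chain {V : Type} [Fintype V] [DecidableEq V] (G : SimpleGraph V) (S : Set V)
    (hS : (G.induce S).Connected) (w : V → ZMod 2) (hw : ∀ u, u ∉ S → w u = 0)
    (hsum : ∑ u, w u = 0) :
    ∃ c : V → V → ZMod 2, (∀ u v, c u v = c v u) ∧
      (∀ u v, c u v ≠ 0 → G.Adj u v ∧ u ∈ S ∧ v ∈ S) ∧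
      ∀ u, ∑ v, c u v = w u := by
  classical
  obtain ⟨r⟩ := hS.nonempty
  have hch : ∀ x : V, ∃ c : V → V → ZMod 2, (∀ u v, c u v = c v u) ∧
      (∀ u v, c u v ≠ 0 → G.Adj u v ∧ u ∈ S ∧ v ∈ S) ∧
      (x ∈ S → ∀ u, ∑ v, c u v = ind x u + ind r.1 u) := by
    intro x
    by_cases hx : x ∈ S
    · obtain ⟨c, h1, h2, h3⟩ := k5_walk_chain G S ⟨x, hx⟩ r (hS.preconnected _ _)
      exact ⟨c, h1, h2, fun _ => h3⟩
    · exact ⟨fun _ _ => 0, fun _ _ => rfl, fun _ _ h => absurd rfl h, fun h => absurd h hx⟩
  choose c h1 h2 h3 using hch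
  refine ⟨fun u v => ∑ x, w x * c x u v, ?_, ?_, ?_⟩
  · intro u v
    exact Finset.sum_congr rfl fun x _ => by rw [h1 x u v]
  · intro u v huv
    obtain ⟨x, _, hx⟩ := Finset.exists_ne_zero_of_sum_ne_zero huv
    exact h2 x u v (right_ne_zero_of_mul hx)
  · intro u
    rw [Finset.sum_comm]
    have : ∀ x ∈ (Finset.univ : Finset V), ∑ v, w x * c x u v = w x * ind x u + w x * ind r.1 u := by
      intro x _
      rw [← Finset.mul_sum]
      by_cases hx : x ∈ S
      · rw [h3 x hx u]; ring
      · rw [hw x hx]; ring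
    rw [Finset.sum_congr rfl this, Finset.sum_add_distrib, ← Finset.sum_mul, hsum, zero_mul, add_zero]
    simp [ind]

/-- lifting even edge functions of `K₅` to even chains of `G` -/
theorem k5_lift {V : Type} [Fintype V] [DecidableEq V] (G : SimpleGraph V) (f : V → Fin 5)
    (hf : ∀ w, (G.induce {v | f v = w}).Connected) (a : Fin 5 → Fin 5 → V)
    (ha : ∀ i j, f (a i j) = i) (hadj : ∀ i j, i ≠ j → G.Adj (a i j) (a j i))
    (t : Fin 5 → Fin 5 → ZMod 2) (ht : ∀ i j, t i j = t j i) (ht0 : ∀ i, t i i = 0)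
    (hte : ∀ i, ∑ j, t i j = 0) :
    ∃ z : V → V → ZMod 2, (∀ u v, z u v = z v u) ∧ (∀ u v, z u v ≠ 0 → G.Adj u v) ∧
      (∀ u, ∑ v, z u v = 0) ∧
      ∀ u v, f u ≠ f v → z u v = ∑ i, ∑ j, t i j * (ind (a i j) u * ind (a j i) v) := by
  have hbag : ∀ i : Fin 5, ∃ c : V → V → ZMod 2, (∀ u v, c u v = c v u) ∧
      (∀ u v, c u v ≠ 0 → G.Adj u v ∧ u ∈ {v | f v = i} ∧ v ∈ {v | f v = i}) ∧
      ∀ u, ∑ v, c u v = ∑ j, t i j * ind (a i j) u := by
    intro i
    refine k5_bag_chain G _ (hf i) _ ?_ ?_
    · intro u hu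
      refine Finset.sum_eq_zero fun j _ => ?_
      have : u ≠ a i j := by
        rintro rfl
        exact hu (ha i j)
      simp [ind, this]
    · rw [Finset.sum_comm]
      rw [← hte i]
      refine Finset.sum_congr rfl fun j _ => ?_
      rw [← Finset.mul_sum]
      simp [ind]
  choose c h1 h2 h3 using hbag
  refine ⟨fun u v => (∑ i, ∑ j, t i j * (ind (a i j) u * ind (a j i) v)) + ∑ i, c i u v,
    ?_, ?_, ?_, ?_⟩
  · intro u v
    have e1 : (∑ i, ∑ j, t i j * (ind (a i j) u * ind (a j i) v)) =
        ∑ i, ∑ j, t i j * (ind (a i j) v * ind (a j i) u) := by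
      rw [Finset.sum_comm]
      refine Finset.sum_congr rfl fun i _ => Finset.sum_congr rfl fun j _ => ?_
      rw [ht j i]; ring
    have e2 : ∑ i, c i u v = ∑ i, c i v u := Finset.sum_congr rfl fun i _ => h1 i u v
    simp only [e1, e2]
  · intro u v huv
    beta_reduce at huv
    by_cases h0 : (∑ i, ∑ j, t i j * (ind (a i j) u * ind (a j i) v)) = 0
    · rw [h0, zero_add] at huv
      obtain ⟨i, _, hi⟩ := Finset.exists_ne_zero_of_sum_ne_zero huv
      exact (h2 i u v hi).1
    · obtain ⟨i, _, hi⟩ := Finset.exists_ne_zero_of_sum_ne_zero h0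
      obtain ⟨j, _, hj⟩ := Finset.exists_ne_zero_of_sum_ne_zero hi
      have hij : i ≠ j := by
        rintro rfl
        rw [ht0, zero_mul] at hj
        exact hj rfl
      have h4 := right_ne_zero_of_mul hj
      have h5 := left_ne_zero_of_mul h4
      have h6 := right_ne_zero_of_mul h4
      have hu : u = a i j := by
        by_contra hne
        exact h5 (by simp [ind, hne])
      have hv : v = a j i := by
        by_contra hne
        exact h6 (by simp [ind, hne])
      rw [hu, hv]
      exact hadj i j hij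
  · intro u
    rw [Finset.sum_add_distrib]
    have e1 : ∑ v, ∑ i, c i u v = ∑ i, ∑ j, t i j * ind (a i j) u := by
      rw [Finset.sum_comm]
      exact Finset.sum_congr rfl fun i _ => h3 i u
    have e2 : ∑ v, ∑ i, ∑ j, t i j * (ind (a i j) u * ind (a j i) v) =
        ∑ i, ∑ j, t i j * ind (a i j) u := by
      rw [Finset.sum_comm]
      refine Finset.sum_congr rfl fun i _ => ?_
      rw [Finset.sum_comm]
      refine Finset.sum_congr rfl fun j _ => ?_
      rw [← Finset.mul_sum, ← Finset.mul_sum]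
      have : ∑ v, ind (a j i) v = 1 := by simp [ind]
      rw [this, mul_one]
    rw [e1, e2]
    exact k5_add_self _
  · intro u v huv
    have : ∑ i, c i u v = 0 := by
      refine Finset.sum_eq_zero fun i _ => ?_
      by_contra hne
      obtain ⟨_, hu, hv⟩ := h2 i u v hne
      have hu' : f u = i := hu
      have hv' : f v = i := hv
      exact huv (by rw [hu', hv'])
    simp only [this, add_zero]

/-! ### the grid -/

theorem grid_adj_iff {n : ℕ} (u v : Fin n × Fin n) : (grid n).Adj u v ↔
    ((u.1 = v.1 ∧ u.2.val + 1 = v.2.val) ∨ (u.2 = v.2 ∧ u.1.val + 1 = v.1.val)) ∨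
    ((u.1 = v.1 ∧ v.2.val + 1 = u.2.val) ∨ (u.2 = v.2 ∧ v.1.val + 1 = u.1.val)) := by
  rw [grid, fromRel_adj]
  constructor
  · rintro ⟨_, h | h⟩
    · exact Or.inl h
    · right
      rcases h with h | h
      · exact Or.inl ⟨h.1.symm, h.2⟩
      · exact Or.inr ⟨h.1.symm, h.2⟩
  · intro h
    refine ⟨?_, ?_⟩
    · rintro rfl
      rcases h with (h | h) | (h | h) <;> omega
    · rcases h with h | h
      · exact Or.inl h
      · right
        rcases h with h | h
        · exact Or.inl ⟨h.1.symm, h.2⟩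
        · exact Or.inr ⟨h.1.symm, h.2⟩

/-- the value of a chain on the horizontal edge `(a,b)-(a+1,b)` -/
def hz {n : ℕ} (z : Fin n × Fin n → Fin n × Fin n → ZMod 2) (a b : ℕ) : ZMod 2 :=
  if h : a + 1 < n ∧ b < n then z (⟨a, by omega⟩, ⟨b, h.2⟩) (⟨a + 1, h.1⟩, ⟨b, h.2⟩) else 0

/-- the value of a chain on the vertical edge `(a,b)-(a,b+1)` -/
def vz {n : ℕ} (z : Fin n × Fin n → Fin n × Fin n → ZMod 2) (a b : ℕ) : ZMod 2 :=
  if h : a < n ∧ b + 1 < n then z (⟨a, h.1⟩, ⟨b, by omega⟩) (⟨a, h.1⟩, ⟨b + 1, h.2⟩) else 0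

theorem grid_nb {n : ℕ} (z : Fin n × Fin n → Fin n × Fin n → ZMod 2)
    (hs : ∀ u v, z u v = z v u) (hadj : ∀ u v, z u v ≠ 0 → (grid n).Adj u v)
    (x y : ℕ) (hx : x < n) (hy : y < n) :
    ∑ v, z (⟨x, hx⟩, ⟨y, hy⟩) v =
      hz z x y + (if x = 0 then 0 else hz z (x - 1) y) +
        vz z x y + (if y = 0 then 0 else vz z x (y - 1)) := by
  set u : Fin n × Fin n := (⟨x, hx⟩, ⟨y, hy⟩) with hu
  have hsplit : ∀ v : Fin n × Fin n, z u v =
      (if v.1.val = x + 1 ∧ v.2.val = y then z u v else 0) +
      (if v.1.val + 1 = x ∧ v.2.val = y then z u v else 0) +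
      (if v.1.val = x ∧ v.2.val = y + 1 then z u v else 0) +
      (if v.1.val = x ∧ v.2.val + 1 = y then z u v else 0) := by
    intro v
    by_cases h0 : z u v = 0
    · simp [h0]
    · have h := (grid_adj_iff u v).1 (hadj u v h0)
      rw [hu] at h
      simp only [Fin.ext_iff] at h
      rcases h with (h | h) | (h | h)
      · rw [if_neg (by omega), if_neg (by omega), if_pos (by omega), if_neg (by omega)]; ring
      · rw [if_pos (by omega), if_neg (by omega), if_neg (by omega), if_neg (by omega)]; ring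
      · rw [if_neg (by omega), if_neg (by omega), if_neg (by omega), if_pos (by omega)]; ring
      · rw [if_neg (by omega), if_pos (by omega), if_neg (by omega), if_neg (by omega)]; ring
  rw [Finset.sum_congr rfl fun v _ => hsplit v, Finset.sum_add_distrib, Finset.sum_add_distrib,
    Finset.sum_add_distrib]
  have e1 : ∑ v : Fin n × Fin n, (if v.1.val = x + 1 ∧ v.2.val = y then z u v else 0) = hz z x y := by
    unfold hz
    split_ifs with h
    · rw [Finset.sum_eq_single (⟨x + 1, h.1⟩, ⟨y, h.2⟩)]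
      · simp [hu]
      · intro v _ hv
        rw [if_neg]
        intro hc
        exact hv (Prod.ext (Fin.ext hc.1) (Fin.ext hc.2))
      · intro h; exact absurd (Finset.mem_univ _) h
    · refine Finset.sum_eq_zero fun v _ => if_neg ?_
      intro hc
      exact h ⟨by have := v.1.2; omega, hy⟩
  have e2 : ∑ v : Fin n × Fin n, (if v.1.val + 1 = x ∧ v.2.val = y then z u v else 0) =
      if x = 0 then 0 else hz z (x - 1) y := by
    split_ifs with h0
    · refine Finset.sum_eq_zero fun v _ => if_neg ?_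
      omega
    · have hx' : x - 1 + 1 = x := by omega
      unfold hz
      rw [dif_pos ⟨by omega, hy⟩, Finset.sum_eq_single (⟨x - 1, by omega⟩, ⟨y, hy⟩)]
      · rw [if_pos ⟨hx', rfl⟩, hs]
        congr 1
        rw [hu]
        exact Prod.ext (Fin.ext hx'.symm) rfl
      · intro v _ hv
        rw [if_neg]
        intro hc
        exact hv (Prod.ext (Fin.ext (by show v.1.val = x - 1; omega)) (Fin.ext hc.2))
      · intro h; exact absurd (Finset.mem_univ _) h
  have e3 : ∑ v : Fin n × Fin n, (if v.1.val = x ∧ v.2.val = y + 1 then z u v else 0) = vz z x y := by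
    unfold vz
    split_ifs with h
    · rw [Finset.sum_eq_single (⟨x, h.1⟩, ⟨y + 1, h.2⟩)]
      · simp [hu]
      · intro v _ hv
        rw [if_neg]
        intro hc
        exact hv (Prod.ext (Fin.ext hc.1) (Fin.ext hc.2))
      · intro h; exact absurd (Finset.mem_univ _) h
    · refine Finset.sum_eq_zero fun v _ => if_neg ?_
      intro hc
      exact h ⟨hx, by have := v.2.2; omega⟩
  have e4 : ∑ v : Fin n × Fin n, (if v.1.val = x ∧ v.2.val + 1 = y then z u v else 0) =
      if y = 0 then 0 else vz z x (y - 1) := by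
    split_ifs with h0
    · refine Finset.sum_eq_zero fun v _ => if_neg ?_
      omega
    · have hy' : y - 1 + 1 = y := by omega
      unfold vz
      rw [dif_pos ⟨hx, by omega⟩, Finset.sum_eq_single (⟨x, hx⟩, ⟨y - 1, by omega⟩)]
      · rw [if_pos ⟨rfl, hy'⟩, hs]
        congr 1
        rw [hu]
        exact Prod.ext rfl (Fin.ext hy'.symm)
      · intro v _ hv
        rw [if_neg]
        intro hc
        exact hv (Prod.ext (Fin.ext hc.1) (Fin.ext (by show v.2.val = y - 1; omega)))
      · intro h; exact absurd (Finset.mem_univ _) h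
  rw [e1, e2, e3, e4]

/-- first side of the edge `uv` -/
def s1 {n : ℕ} (u v : Fin n × Fin n) : ℕ × ℕ := (max u.1.val v.1.val, max u.2.val v.2.val)

/-- second side of the edge `uv` -/
def s2 {n : ℕ} (u v : Fin n × Fin n) : ℕ × ℕ :=
  (max u.1.val v.1.val + (if u.1 = v.1 then 1 else 0), max u.2.val v.2.val + (if u.2 = v.2 then 1 else 0))

theorem s1_comm {n : ℕ} (u v : Fin n × Fin n) : s1 u v = s1 v u := by
  simp [s1, max_comm]

theorem s2_comm {n : ℕ} (u v : Fin n × Fin n) : s2 u v = s2 v u := by
  simp [s2, max_comm, eq_comm]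

/-- faces outside the grid -/
def outer (n : ℕ) (F : ℕ × ℕ) : Prop := F.1 = 0 ∨ F.2 = 0 ∨ n ≤ F.1 ∨ n ≤ F.2

/-- the potential of an even chain -/
def pot {n : ℕ} (z : Fin n × Fin n → Fin n × Fin n → ZMod 2) (F : ℕ × ℕ) : ZMod 2 :=
  if F.2 = 0 then 0 else ∑ a ∈ Finset.range F.1, vz z a (F.2 - 1)

theorem pot_vert {n : ℕ} (z : Fin n × Fin n → Fin n × Fin n → ZMod 2) (x y : ℕ) :
    pot z (x + 1, y + 1) = pot z (x, y + 1) + vz z x y := by
  simp [pot, Finset.sum_range_succ]

theorem pot_hor {n : ℕ} (z : Fin n × Fin n → Fin n × Fin n → ZMod 2)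
    (hs : ∀ u v, z u v = z v u) (hadj : ∀ u v, z u v ≠ 0 → (grid n).Adj u v)
    (he : ∀ u, ∑ v, z u v = 0) (x y : ℕ) :
    pot z (x + 1, y + 1) + pot z (x + 1, y) = hz z x y := by
  have rel : ∀ a b : ℕ, hz z a b + (if a = 0 then 0 else hz z (a - 1) b) +
        vz z a b + (if b = 0 then 0 else vz z a (b - 1)) = 0 := by
    intro a b
    by_cases ha : a < n
    · by_cases hb : b < n
      · rw [← grid_nb z hs hadj a b ha hb]; exact he _
      · have h1 : hz z a b = 0 := by unfold hz; rw [dif_neg (by omega)]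
        have h2 : hz z (a - 1) b = 0 := by unfold hz; rw [dif_neg (by omega)]
        have h3 : vz z a b = 0 := by unfold vz; rw [dif_neg (by omega)]
        rw [h1, h2, h3]
        split_ifs with h5 h6
        · ring
        · have h4 : vz z a (b - 1) = 0 := by unfold vz; rw [dif_neg (by omega)]
          rw [h4]; ring
        · ring
        · have h4 : vz z a (b - 1) = 0 := by unfold vz; rw [dif_neg (by omega)]
          rw [h4]; ring
    · have h1 : hz z a b = 0 := by unfold hz; rw [dif_neg (by omega)]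
      have h3 : vz z a b = 0 := by unfold vz; rw [dif_neg (by omega)]
      have h4 : vz z a (b - 1) = 0 := by unfold vz; rw [dif_neg (by omega)]
      rw [h1, h3, h4]
      split_ifs with h5 h6
      · ring
      · ring
      · have h2 : hz z (a - 1) b = 0 := by unfold hz; rw [dif_neg (by omega)]
        rw [h2]; ring
      · have h2 : hz z (a - 1) b = 0 := by unfold hz; rw [dif_neg (by omega)]
        rw [h2]; ring
  have step : ∀ x : ℕ, pot z (x + 1, y) = pot z (x, y) + (if y = 0 then 0 else vz z x (y - 1)) := by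
    intro x
    by_cases hy : y = 0
    · simp [pot, hy]
    · simp [pot, hy, Finset.sum_range_succ]
  have two : ∀ a : ZMod 2, 2 * a = 0 := by decide
  induction x with
  | zero =>
    rw [pot_vert, step]
    have h1 := rel 0 y
    rw [if_pos rfl] at h1
    have h2 : pot z (0, y + 1) = 0 := by simp [pot]
    have h3 : pot z (0, y) = 0 := by simp [pot]
    rw [h2, h3]
    linear_combination h1 - two (hz z 0 y)
  | succ x ih =>
    rw [pot_vert, step]
    have h1 := rel (x + 1) y
    rw [if_neg (by omega), Nat.add_sub_cancel] at h1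
    linear_combination ih + h1 - two (hz z (x + 1) y) 

theorem pot_outer {n : ℕ} (z : Fin n × Fin n → Fin n × Fin n → ZMod 2)
    (hs : ∀ u v, z u v = z v u) (hadj : ∀ u v, z u v ≠ 0 → (grid n).Adj u v)
    (he : ∀ u, ∑ v, z u v = 0) (F : ℕ × ℕ) (hF : outer n F) : pot z F = 0 := by
  obtain ⟨x, y⟩ := F
  rcases hF with h | h | h | h
  · have h' : x = 0 := h
    simp [pot, h']
  · have h' : y = 0 := h
    simp [pot, h']
  · have h' : n ≤ x := h
    rcases Nat.eq_zero_or_pos x with h0 | h0
    · simp [pot, h0]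
    · obtain ⟨x', rfl⟩ : ∃ x', x = x' + 1 := ⟨x - 1, by omega⟩
      induction y with
      | zero => simp [pot]
      | succ y ih =>
        have h1 := pot_hor z hs hadj he x' y
        rw [ih h, add_zero] at h1
        rw [h1]
        unfold hz
        rw [dif_neg (by omega)]
  · have h' : n ≤ y := h
    unfold pot
    split_ifs with h0
    · rfl
    · refine Finset.sum_eq_zero fun a _ => ?_
      unfold vz
      rw [dif_neg]
      have h0' : ¬ y = 0 := h0
      show ¬ (a < n ∧ y - 1 + 1 < n)
      omega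

theorem pot_side {n : ℕ} (z : Fin n × Fin n → Fin n × Fin n → ZMod 2)
    (hs : ∀ u v, z u v = z v u) (hadj : ∀ u v, z u v ≠ 0 → (grid n).Adj u v)
    (he : ∀ u, ∑ v, z u v = 0) (u v : Fin n × Fin n) (huv : (grid n).Adj u v) :
    z u v = pot z (s1 u v) + pot z (s2 u v) := by
  have main : ∀ u v : Fin n × Fin n,
      ((u.1 = v.1 ∧ u.2.val + 1 = v.2.val) ∨ (u.2 = v.2 ∧ u.1.val + 1 = v.1.val)) →
      z u v = pot z (s1 u v) + pot z (s2 u v) := by
    rintro ⟨⟨x, hx⟩, ⟨y, hy⟩⟩ ⟨⟨x', hx'⟩, ⟨y', hy'⟩⟩ h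
    rcases h with ⟨h1, h2⟩ | ⟨h1, h2⟩
    · have e1 : x = x' := congrArg Fin.val h1
      have e2 : y + 1 = y' := h2
      subst e1; subst e2
      have a1 : s1 ((⟨x, hx⟩, ⟨y, hy⟩) : Fin n × Fin n) (⟨x, hx'⟩, ⟨y + 1, hy'⟩) = (x, y + 1) := by
        simp [s1]
      have a2 : s2 ((⟨x, hx⟩, ⟨y, hy⟩) : Fin n × Fin n) (⟨x, hx'⟩, ⟨y + 1, hy'⟩) = (x + 1, y + 1) := by
        simp [s2, Fin.ext_iff]
      rw [a1, a2, pot_vert]
      have : vz z x y = z (⟨x, hx⟩, ⟨y, hy⟩) (⟨x, hx'⟩, ⟨y + 1, hy'⟩) := by
        unfold vz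
        rw [dif_pos ⟨hx, hy'⟩]
      rw [this]
      have := k5_add_self (pot z (x, y + 1))
      linear_combination -this
    · have e1 : y = y' := congrArg Fin.val h1
      have e2 : x + 1 = x' := h2
      subst e1; subst e2
      have a1 : s1 ((⟨x, hx⟩, ⟨y, hy⟩) : Fin n × Fin n) (⟨x + 1, hx'⟩, ⟨y, hy'⟩) = (x + 1, y) := by
        simp [s1]
      have a2 : s2 ((⟨x, hx⟩, ⟨y, hy⟩) : Fin n × Fin n) (⟨x + 1, hx'⟩, ⟨y, hy'⟩) = (x + 1, y + 1) := by
        simp [s2, Fin.ext_iff]
      have hh := pot_hor z hs hadj he x y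
      rw [a1, a2, add_comm (pot z (x + 1, y)), hh]
      unfold hz
      rw [dif_pos ⟨hx', hy⟩]
  rcases (grid_adj_iff u v).1 huv with h | h
  · exact main u v h
  · rw [hs u v, s1_comm, s2_comm]
    refine main v u ?_
    rcases h with h | h
    · exact Or.inl ⟨h.1.symm, h.2⟩
    · exact Or.inr ⟨h.1.symm, h.2⟩

open Classical in
/-- the boundary chain of a face function -/
noncomputable def bd {n : ℕ} (ψ : ℕ × ℕ → ZMod 2) (u v : Fin n × Fin n) : ZMod 2 :=
  if (grid n).Adj u v then ψ (s1 u v) + ψ (s2 u v) else 0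

theorem bd_comm {n : ℕ} (ψ : ℕ × ℕ → ZMod 2) (u v : Fin n × Fin n) :
    bd ψ u v = bd ψ v u := by
  unfold bd
  rw [s1_comm u v, s2_comm u v]
  by_cases h : (grid n).Adj u v
  · rw [if_pos h, if_pos h.symm]
  · rw [if_neg h, if_neg (fun h' => h h'.symm)]

theorem bd_even {n : ℕ} (ψ : ℕ × ℕ → ZMod 2) (hψ : ∀ F, outer n F → ψ F = ψ (0, 0))
    (u : Fin n × Fin n) : ∑ v, bd ψ u v = 0 := by
  obtain ⟨⟨x, hx⟩, ⟨y, hy⟩⟩ := u
  rw [grid_nb (bd ψ) (bd_comm ψ) (fun u v h => by
    by_contra hne
    exact h (by unfold bd; rw [if_neg hne])) x y hx hy]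
  have e1 : hz (n := n) (bd ψ) x y = ψ (x + 1, y) + ψ (x + 1, y + 1) := by
    unfold hz
    split_ifs with h
    · have hadj : (grid n).Adj (⟨x, by omega⟩, ⟨y, h.2⟩) (⟨x + 1, h.1⟩, ⟨y, h.2⟩) := by
        rw [grid_adj_iff]; left; right; exact ⟨rfl, rfl⟩
      unfold bd
      rw [if_pos hadj]
      simp [s1, s2, Fin.ext_iff]
    · rw [hψ (x + 1, y) (by right; right; left; show n ≤ x + 1; omega),
        hψ (x + 1, y + 1) (by right; right; left; show n ≤ x + 1; omega), k5_add_self]
  have e2 : (if x = 0 then 0 else hz (n := n) (bd ψ) (x - 1) y) = ψ (x, y) + ψ (x, y + 1) := by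
    split_ifs with h0
    · subst h0
      rw [hψ (0, y) (Or.inl rfl), hψ (0, y + 1) (Or.inl rfl), k5_add_self]
    · obtain ⟨x', rfl⟩ : ∃ x', x = x' + 1 := ⟨x - 1, by omega⟩
      rw [Nat.add_sub_cancel]
      unfold hz
      rw [dif_pos ⟨hx, hy⟩]
      have hadj : (grid n).Adj (⟨x', by omega⟩, ⟨y, hy⟩) (⟨x' + 1, hx⟩, ⟨y, hy⟩) := by
        rw [grid_adj_iff]; left; right; exact ⟨rfl, rfl⟩
      unfold bd
      rw [if_pos hadj]
      simp [s1, s2, Fin.ext_iff]
  have e3 : vz (n := n) (bd ψ) x y = ψ (x, y + 1) + ψ (x + 1, y + 1) := by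
    unfold vz
    split_ifs with h
    · have hadj : (grid n).Adj (⟨x, h.1⟩, ⟨y, by omega⟩) (⟨x, h.1⟩, ⟨y + 1, h.2⟩) := by
        rw [grid_adj_iff]; left; left; exact ⟨rfl, rfl⟩
      unfold bd
      rw [if_pos hadj]
      simp [s1, s2, Fin.ext_iff]
    · rw [hψ (x, y + 1) (by right; right; right; show n ≤ y + 1; omega),
        hψ (x + 1, y + 1) (by right; right; right; show n ≤ y + 1; omega), k5_add_self]
  have e4 : (if y = 0 then 0 else vz (n := n) (bd ψ) x (y - 1)) = ψ (x, y) + ψ (x + 1, y) := by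
    split_ifs with h0
    · subst h0
      rw [hψ (x, 0) (Or.inr (Or.inl rfl)), hψ (x + 1, 0) (Or.inr (Or.inl rfl)), k5_add_self]
    · obtain ⟨y', rfl⟩ : ∃ y', y = y' + 1 := ⟨y - 1, by omega⟩
      rw [Nat.add_sub_cancel]
      unfold vz
      rw [dif_pos ⟨hx, hy⟩]
      have hadj : (grid n).Adj (⟨x, hx⟩, ⟨y', by omega⟩) (⟨x, hx⟩, ⟨y' + 1, hy⟩) := by
        rw [grid_adj_iff]; left; left; exact ⟨rfl, rfl⟩
      unfold bd
      rw [if_pos hadj]
      simp [s1, s2, Fin.ext_iff]
  rw [e1, e2, e3, e4]
  have two : ∀ a : ZMod 2, 2 * a = 0 := by decide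
  linear_combination two (ψ (x, y)) + two (ψ (x + 1, y)) + two (ψ (x, y + 1)) + two (ψ (x + 1, y + 1))


/-! ### counting -/

/-- the six triangles of `K₅` through `0` -/
def P5 : Fin 6 → Fin 5 × Fin 5 := ![(1, 2), (1, 3), (1, 4), (2, 3), (2, 4), (3, 4)]

def T5 (k : Fin 6) (i j : Fin 5) : ZMod 2 :=
  if i ≠ j ∧ (i = 0 ∨ i = (P5 k).1 ∨ i = (P5 k).2) ∧ (j = 0 ∨ j = (P5 k).1 ∨ j = (P5 k).2) then 1 else 0

theorem T5_symm : ∀ k i j, T5 k i j = T5 k j i := by decide

theorem T5_diag : ∀ k i, T5 k i i = 0 := by decide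

theorem T5_even : ∀ k i, ∑ j, T5 k i j = 0 := by decide

theorem T5_unit : ∀ k k', T5 k' (P5 k).1 (P5 k).2 = if k = k' then 1 else 0 := by decide

theorem T5_ne : ∀ i j, i ≠ j → ∃ k, T5 k i j ≠ 0 := by decide

theorem P5_ne : ∀ k, (P5 k).1 ≠ (P5 k).2 := by decide

theorem k5_count (A B : Fin 5 → Fin 5 → (Fin 6 → ZMod 2))
    (hA : ∀ i j, i ≠ j → A i j = A j i) (hB : ∀ i j, i ≠ j → B i j = B j i)
    (hAB : ∀ i j, i ≠ j → A i j + B i j = fun k => T5 k i j)
    (hev : ∀ (μ : Fin 6 → ZMod 2) (i : Fin 5), ∑ j, (if i = j then (0 : ZMod 2) else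
      (if A i j = μ then 1 else 0) + (if B i j = μ then 1 else 0)) = 0) : False := by
  classical
  set Off : Finset (Fin 5 × Fin 5) := Finset.univ.filter (fun p => p.1 ≠ p.2) with hOff
  have hOffc : Off.card = 20 := by rw [hOff]; decide
  set L : Finset (Fin 6 → ZMod 2) := Off.image (fun p => A p.1 p.2) ∪ Off.image (fun p => B p.1 p.2)
    with hL
  have memA : ∀ i j, i ≠ j → A i j ∈ L := fun i j h =>
    Finset.mem_union_left _ (Finset.mem_image.2 ⟨(i, j), by simp [hOff, h], rfl⟩)
  have memB : ∀ i j, i ≠ j → B i j ∈ L := fun i j h =>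
    Finset.mem_union_right _ (Finset.mem_image.2 ⟨(i, j), by simp [hOff, h], rfl⟩)
  have hne : ∀ i j, i ≠ j → A i j ≠ B i j := by
    intro i j h he
    obtain ⟨k, hk⟩ := T5_ne i j h
    have := congrFun (hAB i j h) k
    rw [he] at this
    rw [Pi.add_apply, k5_add_self] at this
    exact hk this.symm
  -- every label occurs on at least three edges
  have hstar : ∀ μ ∈ L, 6 ≤ (Off.filter (fun p => A p.1 p.2 = μ ∨ B p.1 p.2 = μ)).card := by
    intro μ hμ
    have ex : ∃ i j, i ≠ j ∧ (A i j = μ ∨ B i j = μ) := by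
      rcases Finset.mem_union.1 hμ with h | h
      · obtain ⟨p, hp, hpe⟩ := Finset.mem_image.1 h
        exact ⟨p.1, p.2, (Finset.mem_filter.1 hp).2, Or.inl hpe⟩
      · obtain ⟨p, hp, hpe⟩ := Finset.mem_image.1 h
        exact ⟨p.1, p.2, (Finset.mem_filter.1 hp).2, Or.inr hpe⟩
    have next : ∀ i j, i ≠ j → (A i j = μ ∨ B i j = μ) →
        ∃ k, k ≠ i ∧ k ≠ j ∧ (A i k = μ ∨ B i k = μ) := by
      intro i j hij hm
      by_contra hcon
      push Not at hcon
      have h1 := hev μ i
      rw [Finset.sum_eq_single j] at h1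
      · rw [if_neg hij] at h1
        rcases hm with h | h
        · rw [if_pos h, if_neg (fun h' => hne i j hij (h.trans h'.symm))] at h1
          exact absurd h1 (by decide)
        · rw [if_pos h, if_neg (fun h' => hne i j hij (h'.trans h.symm))] at h1
          exact absurd h1 (by decide)
      · intro k _ hk
        by_cases hki : i = k
        · rw [if_pos hki]
        · rw [if_neg hki]
          have h2 := hcon k (Ne.symm hki) hk
          rw [if_neg h2.1, if_neg h2.2, add_zero]
      · intro h; exact absurd (Finset.mem_univ _) h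
    have sym : ∀ i j, i ≠ j → (A i j = μ ∨ B i j = μ) → (A j i = μ ∨ B j i = μ) := by
      intro i j hij hm
      rw [← hA i j hij, ← hB i j hij]; exact hm
    obtain ⟨i, j, hij, hm⟩ := ex
    obtain ⟨k, hki, hkj, hk⟩ := next i j hij hm
    obtain ⟨l, hlj, hli, hl⟩ := next j i hij.symm (sym i j hij hm)
    have hsub : ({(i, j), (j, i), (i, k), (k, i), (j, l), (l, j)} : Finset (Fin 5 × Fin 5)) ⊆
        Off.filter (fun p => A p.1 p.2 = μ ∨ B p.1 p.2 = μ) := by
      intro p hp
      simp only [Finset.mem_insert, Finset.mem_singleton] at hp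
      rw [Finset.mem_filter, hOff, Finset.mem_filter]
      rcases hp with rfl | rfl | rfl | rfl | rfl | rfl
      · exact ⟨⟨Finset.mem_univ _, hij⟩, hm⟩
      · exact ⟨⟨Finset.mem_univ _, hij.symm⟩, sym _ _ hij hm⟩
      · exact ⟨⟨Finset.mem_univ _, hki.symm⟩, hk⟩
      · exact ⟨⟨Finset.mem_univ _, hki⟩, sym _ _ hki.symm hk⟩
      · exact ⟨⟨Finset.mem_univ _, hlj.symm⟩, hl⟩
      · exact ⟨⟨Finset.mem_univ _, hlj⟩, sym _ _ hlj.symm hl⟩
    refine le_trans (le_of_eq ?_) (Finset.card_le_card hsub)
    rw [Finset.card_insert_of_notMem, Finset.card_insert_of_notMem, Finset.card_insert_of_notMem,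
      Finset.card_insert_of_notMem, Finset.card_insert_of_notMem, Finset.card_singleton]
    all_goals
      simp only [Finset.mem_insert, Finset.mem_singleton, Prod.mk.injEq, not_or, not_and]
      grind
  have hcount : 6 * L.card ≤ 40 := by
    have h1 : L.card * 6 ≤ ∑ μ ∈ L, (Off.filter (fun p => A p.1 p.2 = μ ∨ B p.1 p.2 = μ)).card := by
      rw [← smul_eq_mul]
      exact Finset.card_nsmul_le_sum _ _ _ hstar
    have h2 : ∑ μ ∈ L, (Off.filter (fun p => A p.1 p.2 = μ ∨ B p.1 p.2 = μ)).card =
        ∑ p ∈ Off, (L.filter (fun μ => A p.1 p.2 = μ ∨ B p.1 p.2 = μ)).card := by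
      simp only [Finset.card_filter]
      rw [Finset.sum_comm]
    have h3 : ∑ p ∈ Off, (L.filter (fun μ => A p.1 p.2 = μ ∨ B p.1 p.2 = μ)).card ≤ Off.card * 2 := by
      rw [← smul_eq_mul]
      refine Finset.sum_le_card_nsmul _ _ _ fun p _ => ?_
      refine le_trans (Finset.card_le_card (t := {A p.1 p.2, B p.1 p.2}) ?_) Finset.card_le_two
      intro μ hμ
      rcases (Finset.mem_filter.1 hμ).2 with h | h
      · rw [← h]; exact Finset.mem_insert_self _ _
      · rw [← h]; exact Finset.mem_insert_of_mem (Finset.mem_singleton_self _)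
    rw [hOffc] at h3
    omega
  have hspan : 7 ≤ L.card := by
    set μ0 := A 0 1 with hμ0
    have hμ0L : μ0 ∈ L := memA 0 1 (by decide)
    set S : Finset (Fin 6 → ZMod 2) := (L.erase μ0).image (fun μ => μ + μ0) with hS
    have hScard : S.card ≤ L.card - 1 := by
      refine le_trans Finset.card_image_le ?_
      rw [Finset.card_erase_of_mem hμ0L]
    have hmem : ∀ μ ∈ L, μ + μ0 ∈ Submodule.span (ZMod 2) (S : Set (Fin 6 → ZMod 2)) := by
      intro μ hμ
      by_cases h : μ = μ0
      · rw [h]
        have : μ0 + μ0 = 0 := by funext k; exact k5_add_self _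
        rw [this]; exact Submodule.zero_mem _
      · exact Submodule.subset_span (Finset.mem_coe.2 (Finset.mem_image.2
          ⟨μ, Finset.mem_erase.2 ⟨h, hμ⟩, rfl⟩))
    have htop : Submodule.span (ZMod 2) (S : Set (Fin 6 → ZMod 2)) = ⊤ := by
      rw [Submodule.eq_top_iff']
      intro x
      rw [pi_eq_sum_univ x]
      refine Submodule.sum_mem _ fun k _ => Submodule.smul_mem _ _ ?_
      have h1 := hmem _ (memA (P5 k).1 (P5 k).2 (P5_ne k))
      have h2 := hmem _ (memB (P5 k).1 (P5 k).2 (P5_ne k))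
      have h3 := Submodule.add_mem _ h1 h2
      have h4 : (A (P5 k).1 (P5 k).2 + μ0) + (B (P5 k).1 (P5 k).2 + μ0) =
          fun j => if k = j then (1 : ZMod 2) else 0 := by
        have h5 := hAB _ _ (P5_ne k)
        funext j
        have h6 := congrFun h5 j
        rw [T5_unit, Pi.add_apply] at h6
        rw [← h6]
        simp only [Pi.add_apply]
        linear_combination k5_add_self (μ0 j)
      rw [h4] at h3
      exact h3
    have hfr := finrank_span_finset_le_card (R := ZMod 2) S
    rw [Set.finrank, htop, finrank_top, Module.finrank_fin_fun] at hfr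
    omega
  omega

theorem k5_symm_sum {V : Type} [DecidableEq V] (c : V → V → ZMod 2) (hs : ∀ u v, c u v = c v u)
    (h0 : ∀ u, c u u = 0) (B : Finset V) : ∑ u ∈ B, ∑ v ∈ B, c u v = 0 := by
  induction B using Finset.induction_on with
  | empty => simp
  | insert a B ha ih =>
    rw [Finset.sum_insert ha, Finset.sum_insert ha, h0]
    have : ∑ u ∈ B, ∑ v ∈ insert a B, c u v = ∑ u ∈ B, c u a + ∑ u ∈ B, ∑ v ∈ B, c u v := by
      rw [← Finset.sum_add_distrib]
      exact Finset.sum_congr rfl fun u _ => Finset.sum_insert ha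
    rw [this, ih]
    have h2 : ∑ v ∈ B, c a v = ∑ u ∈ B, c u a := Finset.sum_congr rfl fun u _ => hs _ _
    rw [h2, zero_add, add_zero]
    exact k5_add_self _

theorem grid_no_K5 (n : ℕ) : ¬ IsContraction (grid n) (⊤ : SimpleGraph (Fin 5)) := by
  classical
  rintro ⟨f, hf, hK⟩
  have hr : ∀ i : Fin 5, ∃ v, f v = i := fun i => by
    obtain ⟨v, hv⟩ := (hf i).nonempty
    exact ⟨v, hv⟩
  choose r hr using hr
  have he : ∀ i j : Fin 5, ∃ p : (Fin n × Fin n) × (Fin n × Fin n), i ≠ j →
      f p.1 = i ∧ f p.2 = j ∧ (grid n).Adj p.1 p.2 := by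
    intro i j
    by_cases h : i = j
    · exact ⟨(r i, r i), fun h' => absurd h h'⟩
    · obtain ⟨v, v', h1, h2, h3⟩ := (hK i j h).1 (by simpa using h)
      exact ⟨(v, v'), fun _ => ⟨h1, h2, h3⟩⟩
  choose e he using he
  set a : Fin 5 → Fin 5 → Fin n × Fin n := fun i j =>
    if i < j then (e i j).1 else if j < i then (e j i).2 else r i with ha
  have haf : ∀ i j, f (a i j) = i := by
    intro i j
    simp only [ha]
    split_ifs with h1 h2
    · exact (he i j (ne_of_lt h1)).1
    · exact (he j i (ne_of_lt h2)).2.1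
    · exact hr i
  have hadj : ∀ i j, i ≠ j → (grid n).Adj (a i j) (a j i) := by
    intro i j hij
    rcases lt_or_gt_of_ne hij with h | h
    · have e1 : a i j = (e i j).1 := by simp only [ha]; rw [if_pos h]
      have e2 : a j i = (e i j).2 := by simp only [ha]; rw [if_neg (not_lt_of_gt h), if_pos h]
      rw [e1, e2]; exact (he i j hij).2.2
    · have e1 : a j i = (e j i).1 := by simp only [ha]; rw [if_pos h]
      have e2 : a i j = (e j i).2 := by simp only [ha]; rw [if_neg (not_lt_of_gt h), if_pos h]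
      rw [e1, e2]; exact (he j i hij.symm).2.2.symm
  have hz := fun k => k5_lift (grid n) f hf a haf hadj (T5 k) (T5_symm k) (T5_diag k) (T5_even k)
  choose z z1 z2 z3 z4 using hz
  set lab : ℕ × ℕ → (Fin 6 → ZMod 2) := fun F k => pot (z k) F with hlab
  have labout : ∀ F, outer n F → lab F = 0 := by
    intro F hF
    funext k
    exact pot_outer (z k) (z1 k) (z2 k) (z3 k) F hF
  have hterm : ∀ k i j, i ≠ j → z k (a i j) (a j i) = T5 k i j := by
    intro k i j hij
    rw [z4 k _ _ (by rw [haf, haf]; exact hij)]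
    rw [Finset.sum_eq_single i, Finset.sum_eq_single j]
    · simp [ind]
    · intro j' _ hj'
      have : a j i ≠ a j' i := by
        intro h
        apply hj'
        rw [← haf j' i, ← h, haf]
      simp [ind, this]
    · intro h; exact absurd (Finset.mem_univ _) h
    · intro i' _ hi'
      refine Finset.sum_eq_zero fun j' _ => ?_
      have : a i j ≠ a i' j' := by
        intro h
        apply hi'
        rw [← haf i' j', ← h, haf]
      simp [ind, this]
    · intro h; exact absurd (Finset.mem_univ _) h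
  have hcross : ∀ u v, (grid n).Adj u v → f u ≠ f v → lab (s1 u v) ≠ lab (s2 u v) →
      u = a (f u) (f v) ∧ v = a (f v) (f u) := by
    intro u v huv hfuv hne
    obtain ⟨k, hk⟩ := Function.ne_iff.1 hne
    have h1 : z k u v ≠ 0 := by
      rw [pot_side (z k) (z1 k) (z2 k) (z3 k) u v huv]
      intro h0
      apply hk
      have : pot (z k) (s1 u v) = pot (z k) (s2 u v) := by
        have h2 := k5_add_self (pot (z k) (s2 u v))
        linear_combination h0 - h2
      exact this
    rw [z4 k u v hfuv] at h1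
    obtain ⟨i, _, hi⟩ := Finset.exists_ne_zero_of_sum_ne_zero h1
    obtain ⟨j, _, hj⟩ := Finset.exists_ne_zero_of_sum_ne_zero hi
    have h4 := right_ne_zero_of_mul hj
    have h5 := left_ne_zero_of_mul h4
    have h6 := right_ne_zero_of_mul h4
    have hu : u = a i j := by
      by_contra hne
      exact h5 (by simp [ind, hne])
    have hv : v = a j i := by
      by_contra hne
      exact h6 (by simp [ind, hne])
    have hfu : f u = i := by rw [hu, haf]
    have hfv : f v = j := by rw [hv, haf]
    rw [hfu, hfv]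
    exact ⟨hu, hv⟩
  refine k5_count (fun i j => lab (s1 (a i j) (a j i))) (fun i j => lab (s2 (a i j) (a j i)))
    ?_ ?_ ?_ ?_
  · intro i j _
    simp only [s1_comm (a i j)]
  · intro i j _
    simp only [s2_comm (a i j)]
  · intro i j hij
    funext k
    rw [← hterm k i j hij]
    exact (pot_side (z k) (z1 k) (z2 k) (z3 k) _ _ (hadj i j hij)).symm
  · intro μ i
    set ψ : ℕ × ℕ → ZMod 2 := fun F => if lab F = μ then 1 else 0 with hψ
    have hev := fun u => bd_even (n := n) ψ (fun F hF => by
      simp only [hψ]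
      rw [labout F hF, labout (0, 0) (Or.inl rfl)]) u
    have hsum : ∑ u ∈ Finset.univ.filter (fun u => f u = i), ∑ v, bd ψ u v = 0 :=
      Finset.sum_eq_zero fun u _ => hev u
    have hsplit : ∀ u ∈ Finset.univ.filter (fun u => f u = i), ∑ v, bd ψ u v =
        ∑ v ∈ Finset.univ.filter (fun u => f u = i), bd ψ u v +
        ∑ v, ∑ j, (if i = j then (0 : ZMod 2) else bd ψ (a i j) (a j i)) *
          (ind (a i j) u * ind (a j i) v) := by
      intro u hu
      have hfu : f u = i := (Finset.mem_filter.1 hu).2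
      rw [Finset.sum_filter, ← Finset.sum_add_distrib]
      refine Finset.sum_congr rfl fun v _ => ?_
      by_cases hv : f v = i
      · rw [if_pos hv]
        have : ∑ j, (if i = j then (0 : ZMod 2) else bd ψ (a i j) (a j i)) *
          (ind (a i j) u * ind (a j i) v) = 0 := by
          refine Finset.sum_eq_zero fun j _ => ?_
          by_cases hij : i = j
          · rw [if_pos hij, zero_mul]
          · have : v ≠ a j i := by
              rintro rfl
              apply hij
              rw [haf] at hv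
              exact hv.symm
            simp [ind, this]
        rw [this, add_zero]
      · rw [if_neg hv, zero_add]
        rw [Finset.sum_eq_single (f v)]
        · rw [if_neg (fun h => hv h.symm)]
          by_cases hc : u = a i (f v) ∧ v = a (f v) i
          · have i1 : ind (a i (f v)) u = 1 := by unfold ind; rw [if_pos hc.1]
            have i2 : ind (a (f v) i) v = 1 := by unfold ind; rw [if_pos hc.2]
            rw [i1, i2, ← hc.1, ← hc.2]; ring
          · have hR : ind (a i (f v)) u * ind (a (f v) i) v = 0 := by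
              unfold ind
              by_cases h1 : u = a i (f v)
              · by_cases h2 : v = a (f v) i
                · exact absurd ⟨h1, h2⟩ hc
                · rw [if_neg h2, mul_zero]
              · rw [if_neg h1, zero_mul]
            rw [hR, mul_zero]
            by_cases huv : (grid n).Adj u v
            · by_cases hl : lab (s1 u v) = lab (s2 u v)
              · unfold bd
                rw [if_pos huv]
                simp only [hψ, hl]
                exact k5_add_self _
              · exfalso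
                apply hc
                have := hcross u v huv (by rw [hfu]; exact fun h => hv h.symm) hl
                rw [hfu] at this
                exact this
            · unfold bd; rw [if_neg huv]
        · intro j _ hj
          have : v ≠ a j i := by
            intro h
            apply hj
            rw [h, haf]
          simp [ind, this]
        · intro h; exact absurd (Finset.mem_univ _) h
    rw [Finset.sum_congr rfl hsplit, Finset.sum_add_distrib,
      k5_symm_sum (bd ψ) (bd_comm ψ) (fun u => by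
        unfold bd; rw [if_neg (fun h => h.ne rfl)]), zero_add] at hsum
    have e2 : ∑ u ∈ Finset.univ.filter (fun u => f u = i), ∑ v, ∑ j,
        (if i = j then (0 : ZMod 2) else bd ψ (a i j) (a j i)) * (ind (a i j) u * ind (a j i) v) =
        ∑ j, (if i = j then (0 : ZMod 2) else bd ψ (a i j) (a j i)) := by
      have e3 : ∀ u ∈ Finset.univ.filter (fun u => f u = i), ∑ v, ∑ j,
          (if i = j then (0 : ZMod 2) else bd ψ (a i j) (a j i)) * (ind (a i j) u * ind (a j i) v) =
          ∑ j, (if i = j then (0 : ZMod 2) else bd ψ (a i j) (a j i)) * ind (a i j) u := by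
        intro u _
        rw [Finset.sum_comm]
        refine Finset.sum_congr rfl fun j _ => ?_
        rw [← Finset.mul_sum, ← Finset.mul_sum]
        have : ∑ v, ind (a j i) v = 1 := by simp [ind]
        rw [this, mul_one]
      rw [Finset.sum_congr rfl e3, Finset.sum_comm]
      refine Finset.sum_congr rfl fun j _ => ?_
      rw [← Finset.mul_sum]
      have : ∑ u ∈ Finset.univ.filter (fun u => f u = i), ind (a i j) u = 1 := by
        rw [Finset.sum_eq_single (a i j)]
        · simp [ind]
        · intro u _ hu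
          simp [ind, hu]
        · intro h
          exact absurd (show a i j ∈ Finset.univ.filter (fun u => f u = i) from
            Finset.mem_filter.2 ⟨Finset.mem_univ _, haf i j⟩) h
      rw [this, mul_one]
    rw [e2] at hsum
    refine Eq.trans ?_ hsum
    refine Finset.sum_congr rfl fun j _ => ?_
    by_cases hij : i = j
    · rw [if_pos hij, if_pos hij]
    · rw [if_neg hij, if_neg hij]
      unfold bd
      rw [if_pos (hadj i j hij)]

end Pool.Agent.H175R2
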