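import Pool.Agent.H175R2.Gem4
import Pool.Agent.H175R2.Contr
import Pool.Agent.H175R2.Cut
import Pool.Agent.H175R2.Fam
import Pool.Agent.H175R2.FamConn
import Pool.Agent.H175R2.GridK5
import Pool.Agent.H175R2.Classify

/-! Assembly. -/

namespace Pool.Agent.H175R2

open Finset Classical

lemma exists_cwLE {V : Type} [Finite V] [Nonempty V] (G : SimpleGraph V) : ∃ k, CwLE G k := by
  have : Fintype V := Fintype.ofFinite V
  have ht : Tame G (Fintype.card V) := ⟨univ, by simp, fun x hx => by simp at hx⟩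
  exact ⟨_, cwLE_of_dt (dt_of_tame ht)⟩

lemma cwLE_cliqueWidth {V : Type} [Finite V] [Nonempty V] (G : SimpleGraph V) :
    CwLE G (cliqueWidth G) :=
  Nat.sInf_mem (s := {k | CwLE G k}) (exists_cwLE G)

lemma cn_univ_iff {V : Type} [Fintype V] {G : SimpleGraph V} : Cn G univ ↔ G.Connected := by
  rw [cn_iff_induce]
  have f : G ≃g G.induce ((univ : Finset V) : Set V) :=
    ⟨⟨fun x => ⟨x, by simp⟩, fun x => x.1, fun _ => rfl, fun _ => rfl⟩, by simp⟩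
  exact (f.connected_iff).symm

/-- a bounded class misses members of an unbounded family -/
lemma mem_of_unbounded {W : Type} {H : SimpleGraph W} (hb : BddCw H) {V : ℕ → Type}
    [∀ n, Finite (V n)] [∀ n, Nonempty (V n)] (fam : ∀ n, SimpleGraph (V n)) (N : ℕ)
    (hconn : ∀ n ≥ N, (fam n).Connected)
    (hu : ∀ c N : ℕ, ∃ n ≥ N, ∀ k ≤ c, ¬ CwLE (fam n) k) : ∃ n ≥ N, IsContraction (fam n) H := by
  obtain ⟨c, hc⟩ := hb
  obtain ⟨n, hn, hk⟩ := hu c N
  refine ⟨n, hn, ?_⟩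
  by_contra hno
  rw [← contracts_iff] at hno
  have := hc (V n) (fam n) (hconn n hn) hno
  exact hk _ this (cwLE_cliqueWidth (fam n))

lemma BddCw.of_isContraction {W W' : Type} {H : SimpleGraph W} {H' : SimpleGraph W'}
    (h : IsContraction H H') (hb : BddCw H) : BddCw H' := by
  obtain ⟨c, hc⟩ := hb
  refine ⟨c, fun V _ G hG hno => hc V G hG fun hyes => hno ?_⟩
  rw [contracts_iff] at hyes ⊢
  exact hyes.trans h

lemma BddCw.of_iso {W W' : Type} {H : SimpleGraph W} {H' : SimpleGraph W'}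
    (e : H' ≃g H) (hb : BddCw H) : BddCw H' :=
  hb.of_isContraction (IsContraction.of_iso e.symm)

/-- the nine graphs -/
def Nine {W : Type} (H : SimpleGraph W) : Prop :=
  Nonempty (H ≃g (⊤ : SimpleGraph (Fin 1))) ∨ Nonempty (H ≃g (⊤ : SimpleGraph (Fin 2))) ∨
  Nonempty (H ≃g (⊤ : SimpleGraph (Fin 3))) ∨ Nonempty (H ≃g (⊤ : SimpleGraph (Fin 4))) ∨
  Nonempty (H ≃g P3) ∨ Nonempty (H ≃g paw) ∨ Nonempty (H ≃g diamond) ∨ Nonempty (H ≃g gem) ∨
  Nonempty (H ≃g X5)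

theorem necessity {W : Type} [Finite W] (H : SimpleGraph W) (hb : BddCw H) : Nine H := by
  obtain ⟨n1, hn1, h1⟩ := mem_of_unbounded hb (fun n => famCone n) 2 (fun n _ => famCone_connected n)
    famCone_unbounded
  obtain ⟨n2, hn2, h2⟩ := mem_of_unbounded hb (V := fun n => Fin (n + 1) ⊕ (Fin (n + 1) × Fin (n + 1)))
    (fun n => famCobip (n + 1)) 2
    (fun n hn => famCobip_connected (n + 1) (by omega)) (fun c N => by
      obtain ⟨n, hn, h⟩ := famCobip_unbounded c (N + 1)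
      refine ⟨n - 1, by omega, ?_⟩
      have e : n - 1 + 1 = n := by omega
      rw [e]; exact h)
  obtain ⟨n3, hn3, h3⟩ := mem_of_unbounded hb (V := fun n => Fin (n + 1) ⊕ (Fin (n + 1) × Fin (n + 1)))
    (fun n => famSplit (n + 1)) 2
    (fun n hn => famSplit_connected (n + 1) (by omega)) (fun c N => by
      obtain ⟨n, hn, h⟩ := famSplit_unbounded c (N + 1)
      refine ⟨n - 1, by omega, ?_⟩
      have e : n - 1 + 1 = n := by omega
      rw [e]; exact h)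
  obtain ⟨n4, hn4, h4⟩ := mem_of_unbounded hb (V := fun n => Fin (n + 1) × Fin (n + 1))
    (fun n => grid (n + 1)) 2
    (fun n hn => grid_connected (n + 1) (by omega)) (fun c N => by
      obtain ⟨n, hn, h⟩ := grid_unbounded c (N + 1)
      refine ⟨n - 1, by omega, ?_⟩
      have e : n - 1 + 1 = n := by omega
      rw [e]; exact h)
  haveI : ∀ n : ℕ, Nonempty {p : Fin (n + 4) × Fin (n + 4) // p.1 ≠ p.2} := fun n =>
    ⟨⟨(⟨0, by omega⟩, ⟨1, by omega⟩), by simp⟩⟩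
  obtain ⟨n5, hn5, h5⟩ := mem_of_unbounded hb
    (V := fun n => {p : Fin (n + 4) × Fin (n + 4) // p.1 ≠ p.2})
    (fun n => famTrunc (n + 4)) 2
    (fun n hn => famTrunc_connected (n + 4) (by omega)) (fun c N => by
      obtain ⟨n, hn, h⟩ := famTrunc_unbounded c (N + 4)
      refine ⟨n - 4, by omega, ?_⟩
      have e : n - 4 + 4 = n := by omega
      rw [e]; exact h)
  exact classify H ⟨n1, hn1, h1⟩ ⟨n2 + 1, by omega, h2⟩ ⟨n3 + 1, by omega, h3⟩
    (fun h => grid_no_K5 _ (h4.trans h)) ⟨n5 + 4, by omega, h5⟩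

theorem bdd_of_dt {t : ℕ} {H : SimpleGraph (Fin t)} {T : Fin t → Fin t → Bool}
    (hT : ∀ i j, H.Adj i j ↔ (i ≠ j ∧ T i j = true)) (K : ℕ)
    (h : ∀ (V : Type) [Fintype V] (G : SimpleGraph V), Cn G univ → ¬ HasC G T → DT G K univ univ) :
    BddCw H := by
  refine ⟨3 * (K + 1), fun V _ G hG hno => ?_⟩
  have : Fintype V := Fintype.ofFinite V
  apply cliqueWidth_le_of_dt
  refine h V G (cn_univ_iff.2 hG) fun hc => hno ?_
  rw [contracts_iff]
  exact (hasC_iff T H hT).1 hc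

theorem bdd_gem : BddCw gem :=
  bdd_of_dt gem_adj 49 fun _ _ _ hG hg => dt_of_gem_free hG hg

theorem bdd_K4 : BddCw (⊤ : SimpleGraph (Fin 4)) :=
  bdd_of_dt (T := fun _ _ => true) (by simp [SimpleGraph.top_adj]) 8
    fun _ _ _ hG hg => dt_of_no_k4 hG hg

/-- contraction of graphs on `Fin` by a Boolean check -/
lemma isContraction_of_chk {m t : ℕ} {G : SimpleGraph (Fin m)} {H : SimpleGraph (Fin t)}
    (M : Fin m → Fin m → ℕ) (T : Fin t → Fin t → Bool)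
    (hM1 : ∀ i j, i ≠ j → M i j = 1 → G.Adj i j) (hM0 : ∀ i j, M i j = 0 → ¬ G.Adj i j)
    (hT : ∀ i j, H.Adj i j ↔ (i ≠ j ∧ T i j = true)) (c : Fin m → Fin t) (p : Fin m → Fin m)
    (r : Fin t → Fin m) (h : Chk M T c p r) : IsContraction G H := by
  rw [← hasC_iff T H hT]
  refine hasC_of_chk (M := M) (B := fun i => {i}) ⟨fun i => Cn.singleton i, ?_, fun v => ⟨v, by simp⟩,
    fun i j hij hM => ⟨i, by simp, j, by simp, hM1 i j hij hM⟩, ?_⟩ h
  · intro i j hij; simpa using hij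
  · rintro i j hij hM ⟨x, hx, y, hy, hxy⟩
    rw [mem_singleton] at hx hy
    subst hx; subst hy
    exact hM0 _ _ hM hxy

def gemM (i j : Fin 5) : ℕ := if gemT i j then 1 else 0
def x5M (i j : Fin 5) : ℕ := if x5T i j then 1 else 0

lemma gem_contracts {t : ℕ} {H : SimpleGraph (Fin t)} (T : Fin t → Fin t → Bool)
    (hT : ∀ i j, H.Adj i j ↔ (i ≠ j ∧ T i j = true)) (c : Fin 5 → Fin t) (p : Fin 5 → Fin 5)
    (r : Fin t → Fin 5) (h : Chk gemM T c p r) : IsContraction gem H := by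
  refine isContraction_of_chk gemM T ?_ ?_ hT c p r h
  · intro i j hij h
    rw [gem_adj]; refine ⟨hij, ?_⟩
    by_contra hc; simp [gemM, hc] at h
  · intro i j h hadj
    rw [gem_adj] at hadj
    simp [gemM, hadj.2] at h

lemma top_adj' {t : ℕ} (i j : Fin t) : (⊤ : SimpleGraph (Fin t)).Adj i j ↔ (i ≠ j ∧ true = true) := by
  simp

lemma bdd_K1 : BddCw (⊤ : SimpleGraph (Fin 1)) :=
  bdd_gem.of_isContraction (gem_contracts (fun _ _ => true) top_adj' (fun _ => 0) (fun _ => 4)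
    (fun _ => 4) (by decide))

lemma bdd_K2 : BddCw (⊤ : SimpleGraph (Fin 2)) :=
  bdd_gem.of_isContraction (gem_contracts (fun _ _ => true) top_adj' ![0, 0, 0, 0, 1] ![0, 0, 1, 2, 4]
    ![0, 4] (by decide))

lemma bdd_K3 : BddCw (⊤ : SimpleGraph (Fin 3)) :=
  bdd_gem.of_isContraction (gem_contracts (fun _ _ => true) top_adj' ![0, 0, 1, 1, 2] ![0, 0, 2, 2, 4]
    ![0, 2, 4] (by decide))

lemma bdd_P3 : BddCw P3 :=
  bdd_gem.of_isContraction (gem_contracts (fun i j => i = 1 || j = 1)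
    (by intro i j; fin_cases i <;> fin_cases j <;> simp [P3]) ![0, 1, 2, 2, 1] ![0, 4, 2, 2, 4]
    ![0, 4, 2] (by decide))

lemma bdd_paw : BddCw paw :=
  bdd_gem.of_isContraction (gem_contracts (fun i j => i = 0 || j = 0 || (i = 1 && j = 2) || (i = 2 && j = 1))
    (by intro i j; fin_cases i <;> fin_cases j <;> simp [paw]) ![1, 2, 0, 3, 0] ![0, 1, 4, 3, 4]
    ![4, 0, 1, 3] (by decide))

lemma bdd_diamond : BddCw diamond :=
  bdd_gem.of_isContraction (gem_contracts (fun i j => i = 0 || j = 0 || i = 1 || j = 1)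
    (by intro i j; fin_cases i <;> fin_cases j <;> simp [diamond]) ![2, 1, 3, 3, 0] ![0, 1, 2, 2, 4]
    ![4, 1, 0, 2] (by decide))

/-- The classification, up to the graph `X5`. -/
theorem main_of (hx : BddCw X5) {W : Type} [Finite W] (H : SimpleGraph W) : BddCw H ↔ Nine H := by
  refine ⟨necessity H, ?_⟩
  rintro (⟨⟨e⟩⟩ | ⟨⟨e⟩⟩ | ⟨⟨e⟩⟩ | ⟨⟨e⟩⟩ | ⟨⟨e⟩⟩ | ⟨⟨e⟩⟩ | ⟨⟨e⟩⟩ | ⟨⟨e⟩⟩ | ⟨⟨e⟩⟩)
  · exact bdd_K1.of_iso e
  · exact bdd_K2.of_iso e
  · exact bdd_K3.of_iso e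
  · exact bdd_K4.of_iso e
  · exact bdd_P3.of_iso e
  · exact bdd_paw.of_iso e
  · exact bdd_diamond.of_iso e
  · exact bdd_gem.of_iso e
  · exact hx.of_iso e

theorem main_partial {W : Type} [Finite W] (H : SimpleGraph W) (hH : IsEmpty (H ≃g X5)) :
    BddCw H ↔ Nine H := by
  refine ⟨necessity H, ?_⟩
  rintro (⟨⟨e⟩⟩ | ⟨⟨e⟩⟩ | ⟨⟨e⟩⟩ | ⟨⟨e⟩⟩ | ⟨⟨e⟩⟩ | ⟨⟨e⟩⟩ | ⟨⟨e⟩⟩ | ⟨⟨e⟩⟩ | ⟨⟨e⟩⟩)
  · exact bdd_K1.of_iso e
  · exact bdd_K2.of_iso e
  · exact bdd_K3.of_iso e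
  · exact bdd_K4.of_iso e
  · exact bdd_P3.of_iso e
  · exact bdd_paw.of_iso e
  · exact bdd_diamond.of_iso e
  · exact bdd_gem.of_iso e
  · exact (hH.false e).elim

end Pool.Agent.H175R2
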