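import Pool.Agent.H175R2.Defs
import Pool.Agent.H175R2.Width

/-! Decomposition trees give clique-width expressions. -/

namespace Pool.Agent.H175R2

open Finset Classical

variable {V : Type}

/-- the graph `H` restricted to `A`, labelled by `l`, can be built -/
def GB (k : ℕ) (H : SimpleGraph V) (A : Finset V) (l : V → Fin k) : Prop :=
  ∃ (W : Type) (G' : SimpleGraph W) (m : W → Fin k), CwBuilt k W G' m ∧
    ∃ e : (H.induce (A : Set V)) ≃g G', ∀ x : (A : Set V), m (e x) = l x

lemma GB.congr {k : ℕ} {H H' : SimpleGraph V} {A : Finset V} {l l' : V → Fin k} (h : GB k H A l)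
    (h1 : ∀ x ∈ A, ∀ y ∈ A, (H.Adj x y ↔ H'.Adj x y)) (h2 : ∀ x ∈ A, l x = l' x) :
    GB k H' A l' := by
  obtain ⟨W, G', m, hb, e, he⟩ := h
  have : H.induce (A : Set V) = H'.induce (A : Set V) := by
    ext ⟨x, hx⟩ ⟨y, hy⟩
    simpa using h1 x hx y hy
  refine ⟨W, G', m, hb, this ▸ e, fun x => ?_⟩
  have e2 : ∀ (K1 K2 : SimpleGraph (A : Set V)) (h : K1 = K2) (e : K1 ≃g G') (x : (A : Set V)),
      (h ▸ e : K2 ≃g G') x = e x := by
    intro K1 K2 h e x
    subst h; rfl
  rw [e2, he x, h2 x.1 x.2]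

lemma GB.single {k : ℕ} {H : SimpleGraph V} (x : V) (l : V → Fin k) : GB k H {x} l := by
  refine ⟨Unit, ⊥, fun _ => l x, CwBuilt.single _, ⟨⟨fun _ => (), fun _ => ⟨x, by simp⟩, ?_, ?_⟩, ?_⟩, ?_⟩
  · rintro ⟨y, hy⟩
    simp only [coe_singleton, Set.mem_singleton_iff] at hy
    subst hy; rfl
  · intro _; rfl
  · rintro ⟨y, hy⟩ ⟨z, hz⟩
    simp only [coe_singleton, Set.mem_singleton_iff] at hy hz
    subst hy; subst hz
    simp
  · rintro ⟨y, hy⟩
    simp only [coe_singleton, Set.mem_singleton_iff] at hy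
    subst hy; rfl

lemma GB.union {k : ℕ} {H : SimpleGraph V} {A B : Finset V} {l : V → Fin k} (hd : Disjoint A B)
    (hno : ∀ x ∈ A, ∀ y ∈ B, ¬ H.Adj x y) (hA : GB k H A l) (hB : GB k H B l) :
    GB k H (A ∪ B) l := by
  obtain ⟨W1, G1, m1, hb1, e1, he1⟩ := hA
  obtain ⟨W2, G2, m2, hb2, e2, he2⟩ := hB
  have hd' : Disjoint (A : Set V) (B : Set V) := by exact_mod_cast hd
  have hu : ((A ∪ B : Finset V) : Set V) = (A : Set V) ∪ (B : Set V) := by simp
  let q : ((A ∪ B : Finset V) : Set V) ≃ W1 ⊕ W2 :=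
    (Equiv.setCongr hu).trans ((Equiv.Set.union hd').trans (Equiv.sumCongr e1.toEquiv e2.toEquiv))
  have qA : ∀ (x : V) (hx : x ∈ ((A ∪ B : Finset V) : Set V)) (hxA : x ∈ (A : Set V)),
      q ⟨x, hx⟩ = Sum.inl (e1 ⟨x, hxA⟩) := by
    intro x hx hxA
    have := Equiv.Set.union_apply_left hd' (a := ⟨x, by rw [← hu]; exact hx⟩) hxA
    exact congrArg (Equiv.sumCongr e1.toEquiv e2.toEquiv) this
  have qB : ∀ (x : V) (hx : x ∈ ((A ∪ B : Finset V) : Set V)) (hxB : x ∈ (B : Set V)),
      q ⟨x, hx⟩ = Sum.inr (e2 ⟨x, hxB⟩) := by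
    intro x hx hxB
    have := Equiv.Set.union_apply_right hd' (a := ⟨x, by rw [← hu]; exact hx⟩) hxB
    exact congrArg (Equiv.sumCongr e1.toEquiv e2.toEquiv) this
  refine ⟨W1 ⊕ W2, G1 ⊕g G2, Sum.elim m1 m2, CwBuilt.union _ _ _ _ _ _ hb1 hb2, ⟨q, ?_⟩, ?_⟩
  · rintro ⟨x, hx⟩ ⟨y, hy⟩
    have hx' : x ∈ A ∨ x ∈ B := by simpa using hx
    have hy' : y ∈ A ∨ y ∈ B := by simpa using hy
    rcases hx' with hxA | hxB <;> rcases hy' with hyA | hyB
    · rw [qA x hx hxA, qA y hy hyA]
      rw [SimpleGraph.sum_adj_inl, e1.map_adj_iff]; simp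
    · rw [qA x hx hxA, qB y hy hyB]
      simp only [SimpleGraph.comap_adj, Function.Embedding.subtype_apply]
      constructor
      · intro h; simp at h
      · intro h; exact absurd h (hno x hxA y hyB)
    · rw [qB x hx hxB, qA y hy hyA]
      simp only [SimpleGraph.comap_adj, Function.Embedding.subtype_apply]
      constructor
      · intro h; simp at h
      · intro h; exact absurd h.symm (hno y hyA x hxB)
    · rw [qB x hx hxB, qB y hy hyB]
      rw [SimpleGraph.sum_adj_inr, e2.map_adj_iff]; simp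
  · rintro ⟨x, hx⟩
    have hx' : x ∈ A ∨ x ∈ B := by simpa using hx
    rcases hx' with hxA | hxB
    · show Sum.elim m1 m2 (q ⟨x, hx⟩) = _
      rw [qA x hx hxA, Sum.elim_inl, he1]
    · show Sum.elim m1 m2 (q ⟨x, hx⟩) = _
      rw [qB x hx hxB, Sum.elim_inr, he2]

lemma GB.join {k : ℕ} {H : SimpleGraph V} {A : Finset V} {l : V → Fin k} {i j : Fin k} (hij : i ≠ j)
    (h : GB k H A l) : GB k (H ⊔ SimpleGraph.fromRel (fun u v => l u = i ∧ l v = j)) A l := by
  obtain ⟨W, G', m, hb, e, he⟩ := h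
  refine ⟨W, _, m, CwBuilt.join _ _ _ i j hij hb, ⟨e.toEquiv, ?_⟩, he⟩
  rintro ⟨x, hx⟩ ⟨y, hy⟩
  have h1 : m (e ⟨x, hx⟩) = l x := he ⟨x, hx⟩
  have h2 : m (e ⟨y, hy⟩) = l y := he ⟨y, hy⟩
  simp only [SimpleGraph.sup_adj, SimpleGraph.fromRel_adj, SimpleGraph.comap_adj,
    Function.Embedding.subtype_apply, RelIso.coe_fn_toEquiv, e.map_adj_iff, h1, h2, ne_eq,
    EmbeddingLike.apply_eq_iff_eq, Subtype.mk.injEq]

lemma GB.relabel {k : ℕ} {H : SimpleGraph V} {A : Finset V} {l : V → Fin k} (i j : Fin k)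
    (h : GB k H A l) : GB k H A (fun v => if l v = i then j else l v) := by
  obtain ⟨W, G', m, hb, e, he⟩ := h
  refine ⟨W, G', _, CwBuilt.relabel _ _ _ i j hb, e, fun x => ?_⟩
  show (if m (e x) = i then j else m (e x)) = _
  rw [he x]

lemma GB.relabelMany {k : ℕ} {H : SimpleGraph V} {A : Finset V} (g : Fin k → Fin k)
    (I : Finset (Fin k)) : (∀ i ∈ I, g i ∉ I) → ∀ l : V → Fin k, GB k H A l →
    GB k H A (fun v => if l v ∈ I then g (l v) else l v) := by
  induction I using Finset.induction_on with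
  | empty => intro _ l h; simpa using h
  | insert a s ha ih =>
    intro hg l h
    have h1 := ih (fun i hi hgi => hg i (mem_insert_of_mem hi) (mem_insert_of_mem hgi)) l h
    refine (h1.relabel a (g a)).congr (fun _ _ _ _ => Iff.rfl) fun x _ => ?_
    simp only [mem_insert]
    by_cases hx : l x ∈ s
    · have : g (l x) ≠ a := fun h => hg (l x) (mem_insert_of_mem hx) (h ▸ mem_insert_self _ _)
      simp [hx, this]
    · by_cases hxa : l x = a
      · simp [hxa, ha]
      · simp [hx, hxa]

lemma GB.joinMany {k : ℕ} {H : SimpleGraph V} {A : Finset V} {l : V → Fin k}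
    (P : Finset (Fin k × Fin k)) : (∀ p ∈ P, p.1 ≠ p.2) → GB k H A l →
    GB k (H ⊔ SimpleGraph.fromRel (fun u v => (l u, l v) ∈ P)) A l := by
  induction P using Finset.induction_on with
  | empty =>
    intro _ h
    refine h.congr (fun x _ y _ => ?_) fun _ _ => rfl
    simp
  | insert a s ha ih =>
    intro hP h
    have h1 := ih (fun p hp => hP p (mem_insert_of_mem hp)) h
    refine (h1.join (hP a (mem_insert_self _ _))).congr (fun x _ y _ => ?_) fun _ _ => rfl
    obtain ⟨a1, a2⟩ := a
    simp only [SimpleGraph.sup_adj, SimpleGraph.fromRel_adj, mem_insert, Prod.mk.injEq]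
    tauto

/-- choose a small injective code for few sets -/
lemma exists_code (S : Finset (Finset V)) (n : ℕ) (h : S.card ≤ n) (hn : 0 < n) :
    ∃ τ : Finset V → ℕ, (∀ s, τ s < n) ∧ ∀ s ∈ S, ∀ t ∈ S, τ s = τ t → s = t := by
  obtain ⟨f⟩ : Nonempty (S ↪ Fin n) := by
    rw [Function.Embedding.nonempty_iff_card_le]; simpa using h
  refine ⟨fun s => if hs : s ∈ S then (f ⟨s, hs⟩).val else 0, fun s => ?_, fun s hs t ht he => ?_⟩
  · dsimp only
    split_ifs
    · exact (f _).isLt
    · exact hn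
  · simp only [hs, ht, dif_pos] at he
    have := f.injective (Fin.ext he)
    simpa using this

theorem gb_of_dt [Fintype V] {G : SimpleGraph V} {K : ℕ} {A : Finset V} (h : DT G K univ A) :
    ∃ l : V → Fin (3 * (K + 1)), (∀ x ∈ A, (l x).val < K + 1) ∧
      (∀ x ∈ A, ∀ y ∈ A, l x = l y → on G univ A x = on G univ A y) ∧ GB (3 * (K + 1)) G A l := by
  induction h with
  | leaf x =>
    refine ⟨fun _ => ⟨0, by omega⟩, fun _ _ => by simp, ?_, GB.single _ _⟩
    intro a ha b hb _
    rw [mem_singleton] at ha hb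
    rw [ha, hb]
  | @node A B hd _ _ hnt ihA ihB =>
    obtain ⟨l1, hl1, ht1, hb1⟩ := ihA
    obtain ⟨l2, hl2, ht2, hb2⟩ := ihB
    -- shift the labels of B
    let g1 : Fin (3 * (K + 1)) → Fin (3 * (K + 1)) := fun i =>
      if h : i.val < K + 1 then ⟨i.val + (K + 1), by omega⟩ else i
    have hb2' := GB.relabelMany g1 (univ.filter (fun i : Fin (3 * (K + 1)) => i.val < K + 1)) (by
      intro i hi
      simp only [mem_filter, mem_univ, true_and] at hi ⊢
      simp only [g1, hi, dif_pos]; omega) l2 hb2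
    set l2' : V → Fin (3 * (K + 1)) := fun v => if l2 v ∈ (univ.filter (fun i : Fin (3 * (K + 1)) => i.val < K + 1)) then g1 (l2 v) else l2 v with hl2'
    have hv2 : ∀ x ∈ B, (l2' x).val = (l2 x).val + (K + 1) := by
      intro x hx
      have := hl2 x hx
      simp only [hl2', g1, mem_filter, mem_univ, true_and, this, if_true, dif_pos]
    let l : V → Fin (3 * (K + 1)) := fun x => if x ∈ A then l1 x else l2' x
    have hlA : ∀ x ∈ A, l x = l1 x := fun x hx => by simp [l, hx]
    have hBA : ∀ x ∈ B, x ∉ A := fun x hx hxA => (Finset.disjoint_left.1 hd) hxA hx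
    have hlB : ∀ x ∈ B, l x = l2' x := fun x hx => by simp [l, hBA x hx]
    let H0 : SimpleGraph V := { Adj := fun x y => G.Adj x y ∧ (x ∈ A ↔ y ∈ A),
                                symm := ⟨fun x y h => ⟨h.1.symm, h.2.symm⟩⟩,
                                loopless := ⟨fun x h => G.loopless.irrefl x h.1⟩ }
    have hA' : GB (3 * (K + 1)) H0 A l := hb1.congr
      (fun x hx y hy => by simp [H0, hx, hy]) (fun x hx => (hlA x hx).symm)
    have hB' : GB (3 * (K + 1)) H0 B l := hb2'.congr
      (fun x hx y hy => by simp [H0, hBA x hx, hBA y hy]) (fun x hx => (hlB x hx).symm)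
    have hAB : GB (3 * (K + 1)) H0 (A ∪ B) l := GB.union hd (fun x hx y hy h => by
      have h2 := h.2
      simp [hx, hBA y hy] at h2) hA' hB'
    have hvA : ∀ x ∈ A, (l x).val < K + 1 := fun x hx => by rw [hlA x hx]; exact hl1 x hx
    have hvB : ∀ x ∈ B, K + 1 ≤ (l x).val ∧ (l x).val < 2 * (K + 1) := fun x hx => by
      have h2 := hl2 x hx
      have h3 := hv2 x hx
      rw [hlB x hx]; omega
    -- joins
    let P : Finset (Fin (3 * (K + 1)) × Fin (3 * (K + 1))) := univ.filter (fun p =>
      ∃ x ∈ A, ∃ y ∈ B, l x = p.1 ∧ l y = p.2 ∧ G.Adj x y)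
    have hJ := hAB.joinMany P (by
      rintro ⟨i, j⟩ hp
      simp only [P, mem_filter, mem_univ, true_and] at hp
      obtain ⟨x, hx, y, hy, h1, h2, _⟩ := hp
      have a1 := hvA x hx
      have a2 := hvB y hy
      intro h
      simp only at h h1 h2
      rw [h1] at a1
      rw [h2] at a2
      rw [h] at a1
      omega)
    have same1 : ∀ x ∈ A, ∀ y ∈ A, l x = l y → on G univ A x = on G univ A y := by
      intro x hx y hy h
      rw [hlA x hx, hlA y hy] at h
      exact ht1 x hx y hy h
    have same2 : ∀ x ∈ B, ∀ y ∈ B, l x = l y → on G univ B x = on G univ B y := by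
      intro x hx y hy h
      rw [hlB x hx, hlB y hy] at h
      have h3 := hv2 x hx
      have h4 := hv2 y hy
      rw [h] at h3
      exact ht2 x hx y hy (Fin.ext (by omega))
    have cross : ∀ x ∈ A, ∀ y ∈ B, ((l x, l y) ∈ P ↔ G.Adj x y) := by
      intro x hx y hy
      simp only [P, mem_filter, mem_univ, true_and]
      constructor
      · rintro ⟨x', hx', y', hy', h1, h2, h3⟩
        have e1 := same1 x' hx' x hx h1
        have e2 := same2 y' hy' y hy h2
        have m1 : y' ∈ on G univ A x' := mem_on.2 ⟨⟨mem_univ _, hBA y' hy'⟩, h3⟩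
        rw [e1, mem_on] at m1
        have m2 : x ∈ on G univ B y' := mem_on.2 ⟨⟨mem_univ _, fun h => hBA x h hx⟩, m1.2.symm⟩
        rw [e2, mem_on] at m2
        exact m2.2.symm
      · intro h
        exact ⟨x, hx, y, hy, rfl, rfl, h⟩
    have hG : GB (3 * (K + 1)) G (A ∪ B) l := by
      refine hJ.congr (fun x hx y hy => ?_) (fun _ _ => rfl)
      simp only [SimpleGraph.sup_adj, SimpleGraph.fromRel_adj, H0]
      have noP : ∀ u v : V, (l u, l v) ∈ P → (l u).val < K + 1 ∧ K + 1 ≤ (l v).val := by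
        intro u v hp
        simp only [P, mem_filter, mem_univ, true_and] at hp
        obtain ⟨x, hx, y, hy, h1, h2, _⟩ := hp
        have := hvA x hx
        have := hvB y hy
        rw [← h1, ← h2]; omega
      rcases mem_union.1 hx with hxA | hxB <;> rcases mem_union.1 hy with hyA | hyB
      · have h1 : (l x, l y) ∉ P := fun h => by have := noP _ _ h; have := hvA y hyA; omega
        have h2 : (l y, l x) ∉ P := fun h => by have := noP _ _ h; have := hvA x hxA; omega
        simp [h1, h2, hxA, hyA]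
      · have h2 : (l y, l x) ∉ P := fun h => by have := noP _ _ h; have := hvA x hxA; omega
        rw [cross x hxA y hyB]
        have hne : x ≠ y := by rintro rfl; exact hBA x hyB hxA
        simp [h2, hxA, hBA y hyB, hne]
      · have h2 : (l x, l y) ∉ P := fun h => by have := noP _ _ h; have := hvA y hyA; omega
        rw [cross y hyA x hxB]
        have hne : x ≠ y := by rintro rfl; exact hBA x hxB hyA
        simp [h2, hyA, hBA x hxB, hne, G.adj_comm]
      · have h1 : (l x, l y) ∉ P := fun h => by have := noP _ _ h; have := hvB x hxB; omega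
        have h2 : (l y, l x) ∉ P := fun h => by have := noP _ _ h; have := hvB y hyB; omega
        simp [h1, h2, hBA x hxB, hBA y hyB]
    -- final relabelling
    obtain ⟨τ, hτ1, hτ2⟩ := exists_code ((A ∪ B).image (on G univ (A ∪ B))) (K + 1) (by
      unfold nt at hnt
      have := Finset.card_le_card (Finset.subset_insert_iff.2
        (Finset.Subset.refl (((A ∪ B).image (on G univ (A ∪ B))).erase ∅)))
      exact this.trans ((Finset.card_insert_le _ _).trans (by omega))) (by omega)
    have sameAB : ∀ x ∈ A ∪ B, ∀ y ∈ A ∪ B, l x = l y → on G univ (A ∪ B) x = on G univ (A ∪ B) y := by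
      intro x hx y hy h
      rcases mem_union.1 hx with hxA | hxB <;> rcases mem_union.1 hy with hyA | hyB
      · have := same1 x hxA y hyA h
        ext z
        have hz := congrArg (fun s => z ∈ s) this
        simp only [mem_on, eq_iff_iff] at hz
        simp only [mem_on, mem_union]
        tauto
      · exfalso
        have := hvA x hxA; have := hvB y hyB; rw [h] at *; omega
      · exfalso
        have := hvA y hyA; have := hvB x hxB; rw [h] at *; omega
      · have := same2 x hxB y hyB h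
        ext z
        have hz := congrArg (fun s => z ∈ s) this
        simp only [mem_on, eq_iff_iff] at hz
        simp only [mem_on, mem_union]
        tauto
    let g2 : Fin (3 * (K + 1)) → Fin (3 * (K + 1)) := fun i =>
      if h : ∃ x ∈ A ∪ B, l x = i then ⟨2 * (K + 1) + τ (on G univ (A ∪ B) h.choose), by
        have := hτ1 (on G univ (A ∪ B) h.choose); omega⟩ else ⟨2 * (K + 1), by omega⟩
    have hg2 : ∀ x ∈ A ∪ B, (g2 (l x)).val = 2 * (K + 1) + τ (on G univ (A ∪ B) x) := by
      intro x hx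
      have h : ∃ y ∈ A ∪ B, l y = l x := ⟨x, hx, rfl⟩
      simp only [g2, h, dif_pos]
      rw [sameAB _ h.choose_spec.1 x hx h.choose_spec.2]
    have h5 := GB.relabelMany g2 (univ.filter (fun i : Fin (3 * (K + 1)) => i.val < 2 * (K + 1))) (by
      intro i hi
      simp only [mem_filter, mem_univ, true_and, g2]
      split_ifs <;> simp) l hG
    let g3 : Fin (3 * (K + 1)) → Fin (3 * (K + 1)) := fun i => ⟨i.val - 2 * (K + 1), by omega⟩
    have h6 := GB.relabelMany g3 (univ.filter (fun i : Fin (3 * (K + 1)) => 2 * (K + 1) ≤ i.val)) (by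
      intro i hi
      simp only [mem_filter, mem_univ, true_and, g3]
      omega) _ h5
    let lf : V → Fin (3 * (K + 1)) := fun x => ⟨τ (on G univ (A ∪ B) x), by
      have := hτ1 (on G univ (A ∪ B) x); omega⟩
    refine ⟨lf, fun x _ => hτ1 _, fun x hx y hy h => ?_, h6.congr (fun _ _ _ _ => Iff.rfl) fun x hx => ?_⟩
    · have := congrArg Fin.val h
      exact hτ2 _ (mem_image_of_mem _ hx) _ (mem_image_of_mem _ hy) this
    · have hlt : (l x).val < 2 * (K + 1) := by
        rcases mem_union.1 hx with hxA | hxB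
        · have := hvA x hxA; omega
        · exact (hvB x hxB).2
      have := hg2 x hx
      apply Fin.ext
      simp only [mem_filter, mem_univ, true_and, hlt, if_true, g3, lf]
      rw [if_pos (by omega)]
      simp only [this]
      omega

theorem cwLE_of_dt [Fintype V] {G : SimpleGraph V} {K : ℕ} (h : DT G K univ univ) :
    CwLE G (3 * (K + 1)) := by
  obtain ⟨l, _, _, W, G', m, hb, e, _⟩ := gb_of_dt h
  refine ⟨W, G', m, hb, ⟨?_⟩⟩
  have f : G ≃g G.induce ((univ : Finset V) : Set V) :=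
    ⟨⟨fun x => ⟨x, by simp⟩, fun x => x.1, fun _ => rfl, fun _ => rfl⟩, by simp⟩
  exact f.trans e

theorem cliqueWidth_le_of_dt [Fintype V] {G : SimpleGraph V} {K : ℕ} (h : DT G K univ univ) :
    cliqueWidth G ≤ 3 * (K + 1) := Nat.sInf_le (cwLE_of_dt h)

end Pool.Agent.H175R2
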