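import Pool.Agent.H175R2.Quot
import Pool.Agent.H175R2.Cw

/-! Reduction to 2-connected graphs. -/

namespace Pool.Agent.H175R2

open Finset Classical

/-- 2-connected (at least three vertices) -/
structure TwoConn {V : Type} [Fintype V] (G : SimpleGraph V) : Prop where
  card : 3 ≤ Fintype.card V
  conn : Cn G univ
  del : ∀ v, Cn G (univ.erase v)

/-- a 1-separation -/
structure Sep {V : Type} [Fintype V] (G : SimpleGraph V) (R1 R2 : Finset V) (c : V) : Prop where
  cover : ∀ x, x ∈ R1 ∨ x ∈ R2
  c1 : c ∈ R1
  c2 : c ∈ R2
  inter : ∀ x, x ∈ R1 → x ∈ R2 → x = c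
  sep : ∀ x ∈ R1, ∀ y ∈ R2, G.Adj x y → x = c ∨ y = c

section
variable {V : Type} {G : SimpleGraph V}

/-- subtype without decidable equality instance -/
def Sub (R : Finset V) : Type := {x // x ∈ R}

noncomputable instance (R : Finset V) : Fintype (Sub R) := inferInstanceAs (Fintype {x // x ∈ R})

/-- the embedding -/
def emb (R : Finset V) : Sub R ↪ V := ⟨Subtype.val, Subtype.val_injective⟩

/-- constructor -/
def mkS {R : Finset V} (x : V) (h : x ∈ R) : Sub R := ⟨x, h⟩

lemma emb_mkS {R : Finset V} (x : V) (h : x ∈ R) : emb R (mkS x h) = x := rfl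

lemma mkS_emb {R : Finset V} (x : Sub R) (h : emb R x ∈ R) : mkS (emb R x) h = x := rfl

lemma emb_mem {R : Finset V} (x : Sub R) : emb R x ∈ R := x.2

lemma exists_emb {R : Finset V} {x : V} (hx : x ∈ R) : ∃ u : Sub R, emb R u = x := ⟨⟨x, hx⟩, rfl⟩

lemma card_sub (R : Finset V) : Fintype.card (Sub R) = R.card := Fintype.card_coe R

variable {U : Type} {e : U ↪ V}

lemma Cn.comap {A : Finset U} (h : Cn G (A.map e)) : Cn (G.comap e) A := by
  refine ⟨by simpa using h.1, fun T hT hn hn' => ?_⟩
  obtain ⟨x, hx, y, hy, hxy⟩ := h.2 (T.map e)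
    (map_subset_map.2 hT) (by simpa using hn) (by
      obtain ⟨z, hz⟩ := hn'
      obtain ⟨h1, h2⟩ := mem_sdiff.1 hz
      exact ⟨e z, mem_sdiff.2 ⟨mem_map_of_mem e h1, by
        intro h3
        rw [mem_map] at h3
        obtain ⟨u, hu, he⟩ := h3
        have : u = z := e.injective he
        exact h2 (this ▸ hu)⟩⟩)
  rw [mem_map] at hx
  obtain ⟨x', hx', rfl⟩ := hx
  obtain ⟨h1, h2⟩ := mem_sdiff.1 hy
  rw [mem_map] at h1
  obtain ⟨y', hy', rfl⟩ := h1
  exact ⟨x', hx', y', mem_sdiff.2 ⟨hy', fun h3 => h2 (mem_map_of_mem _ h3)⟩, hxy⟩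

lemma Cn.map {A : Finset U} (h : Cn (G.comap e) A) : Cn G (A.map e) := by
  refine ⟨by simpa using h.1, fun T hT hn hn' => ?_⟩
  have hpre : ∀ y ∈ T, ∃ y' ∈ A, e y' = y := by
    intro y hy
    have := hT hy
    rw [mem_map] at this
    exact this
  obtain ⟨x, hx, y, hy, hxy⟩ := h.2 (A.filter (fun z => e z ∈ T)) (filter_subset _ _) (by
      obtain ⟨z, hz⟩ := hn
      obtain ⟨z', hz', rfl⟩ := hpre z hz
      exact ⟨z', mem_filter.2 ⟨hz', hz⟩⟩) (by
      obtain ⟨z, hz⟩ := hn'
      obtain ⟨h1, h2⟩ := mem_sdiff.1 hz
      rw [mem_map] at h1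
      obtain ⟨z', hz', rfl⟩ := h1
      exact ⟨z', mem_sdiff.2 ⟨hz', fun h3 => h2 (mem_filter.1 h3).2⟩⟩)
  obtain ⟨h1, h2⟩ := mem_sdiff.1 hy
  exact ⟨e x, (mem_filter.1 hx).2, e y, mem_sdiff.2
    ⟨mem_map_of_mem e h1, fun h3 => h2 (mem_filter.2 ⟨h1, h3⟩)⟩, hxy⟩

lemma nt_map (S A : Finset U) : nt G (S.map e) (A.map e) ≤ nt (G.comap e) S A := by
  unfold nt
  have key : ∀ x : U, on G (S.map e) (A.map e) (e x) = (on (G.comap e) S A x).map e := by
    intro x
    ext y
    simp only [mem_on, mem_map]
    constructor
    · rintro ⟨⟨⟨y', hy', rfl⟩, h2⟩, h3⟩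
      refine ⟨y', ⟨⟨hy', fun h => h2 ⟨y', h, rfl⟩⟩, h3⟩, rfl⟩
    · rintro ⟨y', ⟨⟨h1, h2⟩, h3⟩, rfl⟩
      refine ⟨⟨⟨y', h1, rfl⟩, ?_⟩, h3⟩
      rintro ⟨z, hz, hze⟩
      have : z = y' := e.injective hze
      exact h2 (this ▸ hz)
  have : (((A.map e).image (on G (S.map e) (A.map e))).erase ∅) ⊆
      ((((A.image (on (G.comap e) S A)).erase ∅)).image (fun s => s.map e)) := by
    intro s hs
    rw [mem_erase, mem_image] at hs
    obtain ⟨hne, y, hy, rfl⟩ := hs
    rw [mem_map] at hy
    obtain ⟨x, hx, rfl⟩ := hy
    rw [mem_image]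
    refine ⟨on (G.comap e) S A x, ?_, (key x).symm⟩
    rw [mem_erase]
    refine ⟨fun h => hne ?_, mem_image_of_mem _ hx⟩
    rw [key x, h]; rfl
  exact (card_le_card this).trans card_image_le

lemma DT.map {K : ℕ} {S A : Finset U} (h : DT (G.comap e) K S A) :
    DT G K (S.map e) (A.map e) := by
  induction h with
  | leaf x => rw [map_singleton]; exact DT.leaf _
  | @node A B hd _ _ h ihA ihB =>
    rw [map_union]
    refine DT.node ((disjoint_map _).2 hd) ihA ihB ?_
    rw [← map_union]
    exact (nt_map _ _).trans h

lemma map_univ_sub (R : Finset V) : (univ : Finset (Sub R)).map (emb R) = R := by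
  ext x
  simp only [mem_map, mem_univ, true_and]
  exact ⟨by rintro ⟨u, rfl⟩; exact emb_mem u, fun h => exists_emb h⟩

/-- extension of a contraction over a 1-separation -/
lemma Sep.hasC [Fintype V] {R1 R2 : Finset V} {c : V} (h : Sep G R1 R2 c) (h2 : Cn G R2) {t : ℕ}
    {T : Fin t → Fin t → Bool} (hc : HasC (G.comap (emb R1)) T) :
    HasC G T := by
  obtain ⟨f, hf1, hf2⟩ := hc
  let e : Sub R1 ↪ V := emb R1
  let F : V → Fin t := fun v => if hv : v ∈ R1 then f (mkS v hv) else f (mkS c h.c1)
  have hF1 : ∀ v (hv : v ∈ R1), F v = f (mkS v hv) := fun v hv => by simp only [F, hv, dif_pos]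
  have hF2 : ∀ v, v ∈ R2 → F v = f (mkS c h.c1) := by
    intro v hv
    by_cases hv1 : v ∈ R1
    · have := h.inter v hv1 hv
      subst this; exact hF1 _ _
    · simp only [F, hv1, dif_neg, not_false_eq_true]
  have hF3 : ∀ x : Sub R1, F (e x) = f x := fun x => by
    have := hF1 (e x) (emb_mem x)
    rwa [mkS_emb] at this
  have fib1 : ∀ w, w ≠ f (mkS c h.c1) → univ.filter (fun v => F v = w) =
      (univ.filter (fun v => f v = w)).map e := by
    intro w hw
    ext v
    simp only [mem_filter, mem_univ, true_and, mem_map]
    constructor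
    · intro hv
      by_cases hv1 : v ∈ R1
      · exact ⟨mkS v hv1, by rw [← hF1 v hv1]; exact hv, rfl⟩
      · exfalso
        have := hF2 v ((h.cover v).resolve_left hv1)
        exact hw (hv ▸ this)
    · rintro ⟨x, hx, rfl⟩
      rw [hF3]; exact hx
  have fib2 : univ.filter (fun v => F v = f (mkS c h.c1)) =
      (univ.filter (fun v => f v = f (mkS c h.c1))).map e ∪ R2 := by
    ext v
    simp only [mem_filter, mem_univ, true_and, mem_map, mem_union]
    constructor
    · intro hv
      by_cases hv1 : v ∈ R1
      · exact Or.inl ⟨mkS v hv1, by rw [← hF1 v hv1]; exact hv, rfl⟩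
      · exact Or.inr ((h.cover v).resolve_left hv1)
    · rintro (⟨x, hx, rfl⟩ | hv)
      · rw [hF3]; exact hx
      · exact hF2 v hv
  have memF : ∀ w v, v ∈ univ.filter (fun v => F v = w) ↔ F v = w := by simp
  have memf : ∀ w v, v ∈ univ.filter (fun v => f v = w) ↔ f v = w := by simp
  have tc : ∀ w w', w ≠ w' → (Tc G (univ.filter (fun v => F v = w)) (univ.filter (fun v => F v = w')) ↔
      Tc (G.comap (emb R1)) (univ.filter (fun v => f v = w))
        (univ.filter (fun v => f v = w'))) := by
    intro w w' hne
    constructor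
    · rintro ⟨x, hx, y, hy, hxy⟩
      rw [memF] at hx hy
      have hxR : x ∈ R1 := by
        by_contra hx1
        have hx2 := (h.cover x).resolve_left hx1
        have e1 := hF2 x hx2
        by_cases hy1 : y ∈ R1
        · rcases h.sep y hy1 x hx2 hxy.symm with h3 | h3
          · subst h3
            apply hne
            rw [← hx, ← hy, e1, hF1 _ h.c1]
          · exact hx1 (h3 ▸ h.c1)
        · have := hF2 y ((h.cover y).resolve_left hy1)
          exact hne (by rw [← hx, ← hy, e1, this])
      have hyR : y ∈ R1 := by
        by_contra hy1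
        have hy2 := (h.cover y).resolve_left hy1
        have e1 := hF2 y hy2
        rcases h.sep x hxR y hy2 hxy with h3 | h3
        · subst h3
          apply hne
          rw [← hx, ← hy, e1, hF1 _ h.c1]
        · exact hy1 (h3 ▸ h.c1)
      exact ⟨mkS x hxR, (memf _ _).2 ((hF1 x hxR).symm.trans hx), mkS y hyR,
        (memf _ _).2 ((hF1 y hyR).symm.trans hy), hxy⟩
    · rintro ⟨x, hx, y, hy, hxy⟩
      rw [memf] at hx hy
      refine ⟨e x, ?_, e y, ?_, hxy⟩
      · rw [memF, hF3]; exact hx
      · rw [memF, hF3]; exact hy
  refine ⟨F, fun w => ?_, fun w w' hne => ?_⟩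
  · by_cases hw : w = f (mkS c h.c1)
    · subst hw
      rw [fib2]
      refine (hf1 _).map.union h2 (Or.inr ⟨c, mem_inter.2 ⟨?_, h.c2⟩⟩)
      rw [mem_map]
      exact ⟨mkS c h.c1, by simp, rfl⟩
    · rw [fib1 w hw]; exact (hf1 w).map
  · rw [tc w w' hne]; exact hf2 w w' hne

lemma Sep.symm [Fintype V] {R1 R2 : Finset V} {c : V} (h : Sep G R1 R2 c) : Sep G R2 R1 c :=
  ⟨fun x => (h.cover x).symm, h.c2, h.c1, fun x h1 h2 => h.inter x h2 h1,
    fun x hx y hy hxy => (h.sep y hy x hx hxy.symm).symm⟩

/-- neighbours of a vertex of `R1` other than `c` are in `R1` -/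
lemma Sep.nb [Fintype V] {R1 R2 : Finset V} {c : V} (h : Sep G R1 R2 c) {x y : V} (hx : x ∈ R1)
    (hxc : x ≠ c) (hxy : G.Adj x y) : y ∈ R1 := by
  by_contra hy
  rcases h.sep x hx y ((h.cover y).resolve_left hy) hxy with h1 | h1
  · exact hxc h1
  · exact hy (h1 ▸ h.c1)

lemma Sep.dt1 [Fintype V] {R1 R2 : Finset V} {c : V} (h : Sep G R1 R2 c) {K : ℕ}
    (hd : DT G K R1 R1) : DT G (K + 1) univ R1 := by
  refine hd.transfer fun B hB hn => ?_
  have hsub : ((B.image (on G univ B)).erase ∅) ⊆
      insert (on G univ B c) ((B.image (on G R1 B)).erase ∅) := by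
    intro s hs
    rw [mem_erase, mem_image] at hs
    obtain ⟨hne, x, hx, rfl⟩ := hs
    rw [mem_insert]
    by_cases hxc : x = c
    · left; rw [hxc]
    · right
      have : on G univ B x = on G R1 B x := by
        ext y
        simp only [mem_on, mem_univ, true_and]
        constructor
        · rintro ⟨h1, h2⟩
          exact ⟨⟨h.nb (hB hx) hxc h2, h1⟩, h2⟩
        · rintro ⟨⟨_, h1⟩, h2⟩
          exact ⟨h1, h2⟩
      rw [this] at hne ⊢
      exact mem_erase.2 ⟨hne, mem_image_of_mem _ hx⟩
  have := (card_le_card hsub).trans (card_insert_le _ _)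
  unfold nt at hn ⊢
  omega

lemma Sep.dt2 [Fintype V] {R1 R2 : Finset V} {c : V} (h : Sep G R1 R2 c) {K : ℕ}
    (h1 : DT G K univ R1) {A : Finset V} (hA : DT G K R2 A) : A ⊆ R2 →
    DT G K univ (if c ∈ A then A ∪ R1 else A) := by
  induction hA with
  | leaf x =>
    intro _
    by_cases hx : x = c
    · subst hx
      have : ({x} : Finset V) ∪ R1 = R1 := union_eq_right.2 (by simpa using h.c1)
      simpa [this] using h1
    · have : c ∉ ({x} : Finset V) := by simpa using Ne.symm hx
      rw [if_neg this]; exact DT.leaf x
  | @node A B hd hA' hB' hn ihA ihB =>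
    intro hs
    have hAs : A ⊆ R2 := subset_union_left.trans hs
    have hBs : B ⊆ R2 := subset_union_right.trans hs
    have iA := ihA hAs
    have iB := ihB hBs
    have ntc : c ∈ A ∪ B → nt G univ ((A ∪ B) ∪ R1) ≤ K := by
      intro hcU
      refine le_trans ?_ hn
      unfold nt
      apply card_le_card
      intro s hs'
      rw [mem_erase, mem_image] at hs' ⊢
      obtain ⟨hne, x, hx, rfl⟩ := hs'
      refine ⟨hne, ?_⟩
      by_cases hxc : x ∈ A ∪ B
      · refine ⟨x, hxc, ?_⟩
        ext y
        simp only [mem_on, mem_univ, true_and]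
        constructor
        · rintro ⟨⟨h2, h3⟩, h4⟩
          refine ⟨fun h5 => ?_, h4⟩
          rcases mem_union.1 h5 with h5 | h5
          · exact h3 h5
          · have := h.inter y h5 h2
            subst this; exact h3 hcU
        · rintro ⟨h2, h3⟩
          rw [mem_union, not_or] at h2
          exact ⟨⟨(h.cover y).resolve_left h2.2, h2.1⟩, h3⟩
      · exfalso
        have hxR : x ∈ R1 := by
          rcases mem_union.1 hx with h2 | h2
          · exact absurd h2 hxc
          · exact h2
        apply hne
        ext y
        simp only [mem_on, mem_univ, true_and, notMem_empty, iff_false, not_and]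
        intro h2 h3
        apply h2
        have hxc' : x ≠ c := by rintro rfl; exact hxc hcU
        exact mem_union_right _ (h.nb hxR hxc' h3)
    have disR : ∀ S : Finset V, S ⊆ R2 → c ∉ S → Disjoint S R1 := by
      intro S hS hc
      rw [Finset.disjoint_left]
      intro x hx hx1
      have := h.inter x hx1 (hS hx)
      subst this; exact hc hx
    by_cases hcA : c ∈ A
    · have hcB : c ∉ B := fun hcB => (Finset.disjoint_left.1 hd) hcA hcB
      have hcU : c ∈ A ∪ B := mem_union_left _ hcA
      rw [if_pos hcA] at iA
      rw [if_neg hcB] at iB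
      rw [if_pos hcU]
      have e : A ∪ B ∪ R1 = (A ∪ R1) ∪ B := by
        ext x; simp only [mem_union]; tauto
      rw [e]
      refine DT.node ?_ iA iB ?_
      · rw [disjoint_union_left]
        exact ⟨hd, (disR B hBs hcB).symm⟩
      · rw [← e]; exact ntc hcU
    · by_cases hcB : c ∈ B
      · have hcU : c ∈ A ∪ B := mem_union_right _ hcB
        rw [if_neg hcA] at iA
        rw [if_pos hcB] at iB
        rw [if_pos hcU]
        have e : A ∪ B ∪ R1 = A ∪ (B ∪ R1) := by
          ext x; simp only [mem_union]; tauto
        rw [e]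
        refine DT.node ?_ iA iB ?_
        · rw [disjoint_union_right]
          exact ⟨hd, disR A hAs hcA⟩
        · rw [← e]; exact ntc hcU
      · have hcU : c ∉ A ∪ B := by rw [mem_union, not_or]; exact ⟨hcA, hcB⟩
        rw [if_neg hcA] at iA
        rw [if_neg hcB] at iB
        rw [if_neg hcU]
        refine DT.node hd iA iB (le_trans ?_ hn)
        unfold nt
        apply card_le_card
        intro s hs'
        rw [mem_erase, mem_image] at hs' ⊢
        obtain ⟨hne, x, hx, rfl⟩ := hs'
        refine ⟨hne, x, hx, ?_⟩
        ext y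
        simp only [mem_on, mem_univ, true_and]
        constructor
        · rintro ⟨⟨h2, h3⟩, h4⟩; exact ⟨h3, h4⟩
        · rintro ⟨h3, h4⟩
          exact ⟨⟨h.symm.nb (hs hx) (by rintro rfl; exact hcU hx) h4, h3⟩, h4⟩

end

/-- Reduction to 2-connected graphs. -/
theorem dt_of_blocks {t : ℕ} (T : Fin t → Fin t → Bool) (K : ℕ)
    (h2 : ∀ (V : Type) [Fintype V] (G : SimpleGraph V), TwoConn G → ¬ HasC G T → DT G K univ univ) :
    ∀ (n : ℕ) (V : Type) [Fintype V] (G : SimpleGraph V), Fintype.card V ≤ n → Cn G univ →
      ¬ HasC G T → DT G (K + 1) univ univ := by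
  intro n
  induction n with
  | zero =>
    intro V _ G hn hc _
    obtain ⟨x, _⟩ := hc.1
    have := Fintype.card_pos_iff.2 ⟨x⟩
    omega
  | succ n ih =>
    intro V _ G hn hc hT
    obtain ⟨x0, _⟩ := hc.1
    by_cases h3 : 3 ≤ Fintype.card V
    · by_cases hcut : ∀ v, Cn G (univ.erase v)
      · exact (h2 V G ⟨h3, hc, hcut⟩ hT).mono (by omega)
      push Not at hcut
      obtain ⟨c0, hc0⟩ := hcut
      -- choose a smallest leaf
      have hex : ((univ : Finset (V × V)).filter (fun p => p.2 ≠ p.1 ∧ ¬ Cn G (univ.erase p.1))).Nonempty := by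
        have : 1 < Fintype.card V := by omega
        obtain ⟨y, hy⟩ := Fintype.exists_ne_of_one_lt_card this c0
        exact ⟨(c0, y), by simp [hy, hc0]⟩
      obtain ⟨⟨c, x⟩, hcx, hmin⟩ := exists_min_image _
        (fun p : V × V => (cpt G (univ.erase p.1) p.2).card) hex
      simp only [mem_filter, mem_univ, true_and] at hcx hmin
      obtain ⟨hxc, hcn⟩ := hcx
      have hxE : x ∈ univ.erase c := mem_erase.2 ⟨hxc, mem_univ _⟩
      set D := cpt G (univ.erase c) x with hD
      have hDc : Cn G D := cn_cpt hxE
      have hcD : c ∉ D := fun h => notMem_erase c univ (cpt_subset h)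
      have hDne : ∃ y, y ≠ c ∧ y ∉ D := by
        by_contra hcon
        push Not at hcon
        apply hcn
        apply cn_of_cpt_eq hxE
        apply subset_antisymm cpt_subset
        intro y hy
        exact hcon y (mem_erase.1 hy).1
      have hnb : ∀ a ∈ D, ∀ b, b ∉ D → G.Adj a b → b = c := by
        intro a ha b hb hab
        by_contra hbc
        exact not_adj_cpt hxE ha (mem_erase.2 ⟨hbc, mem_univ _⟩) hb hab
      have hcD' : Tc G {c} D := by
        obtain ⟨a, ha, b, hb, hab⟩ := hc.2 D (subset_univ _) hDc.1 ⟨c, by simp [hcD]⟩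
        have := hnb a ha b (mem_sdiff.1 hb).2 hab
        subst this
        exact ⟨b, by simp, a, ha, hab.symm⟩
      have hR1 : Cn G (D ∪ {c}) := hDc.union (Cn.singleton c) (Or.inl hcD'.symm)
      have hR2 : Cn G (univ \ D) := by
        have hcU : c ∈ univ \ D := by simp [hcD]
        apply cn_of_cpt_eq hcU
        apply subset_antisymm cpt_subset
        intro y hy
        by_contra hyc
        -- the component of y in `univ \ D` avoids c
        have hyU : y ∈ univ \ D := hy
        have hc' : c ∉ cpt G (univ \ D) y := by
          intro h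
          apply hyc
          have := cpt_eq_of_mem hyU h
          rw [this]; exact mem_cpt_self hyU
        obtain ⟨a, ha, b, hb, hab⟩ := hc.2 (cpt G (univ \ D) y) (subset_univ _)
          ⟨y, mem_cpt_self hyU⟩ ⟨c, by simp [hc']⟩
        have hbc := (mem_sdiff.1 hb).2
        by_cases hbD : b ∈ D
        · have haD : a ∉ D := by
            have := cpt_subset (G := G) ha
            simpa using this
          have := hnb b hbD a haD hab.symm
          subst this; exact hc' ha
        · exact not_adj_cpt hyU ha (by simp [hbD]) hbc hab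
      have hsep : Sep G (D ∪ {c}) (univ \ D) c := by
        refine ⟨fun y => ?_, by simp, by simp [hcD], fun y h1 h2 => ?_, fun a ha b hb hab => ?_⟩
        · simp only [mem_union, mem_singleton, mem_sdiff, mem_univ, true_and]; tauto
        · simp only [mem_union, mem_singleton, mem_sdiff, mem_univ, true_and] at h1 h2; tauto
        · simp only [mem_union, mem_singleton, mem_sdiff, mem_univ, true_and] at ha hb
          rcases ha with ha | ha
          · right; exact hnb a ha b hb hab
          · left; exact ha
      have hcardR2 : (univ \ D).card ≤ n := by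
        have : (univ \ D).card < (univ : Finset V).card := card_lt_card (by
          refine ⟨sdiff_subset, fun h => ?_⟩
          obtain ⟨d, hd⟩ := hDc.1
          exact (mem_sdiff.1 (h (mem_univ d))).2 hd)
        rw [card_univ] at this; omega
      have dtR2 : DT G (K + 1) (univ \ D) (univ \ D) := by
        have := ih (Sub (univ \ D)) (G.comap (emb _)) (by
          rw [card_sub]; exact hcardR2) (by
            apply Cn.comap; rw [map_univ_sub]; exact hR2)
          (fun h => hT (hsep.symm.hasC hR1 h))
        have := this.map
        rwa [map_univ_sub] at this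
      have dtR1 : DT G K (D ∪ {c}) (D ∪ {c}) := by
        by_cases hD1 : D.card ≤ 1
        · obtain ⟨d, hd⟩ := card_eq_one.1 (le_antisymm hD1 (card_pos.2 hDc.1))
          rw [hd]
          refine DT.node ?_ (DT.leaf d) (DT.leaf c) ?_
          · rw [disjoint_singleton]
            rintro rfl; exact hcD (by rw [hd]; simp)
          · rw [nt_closed]
            · exact Nat.zero_le _
            · intro a _ z hz hz' _
              exact hz' hz
        · have hTwo : TwoConn (G.comap (emb (D ∪ {c}))) := by
            refine ⟨?_, ?_, ?_⟩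
            · rw [card_sub, card_union_of_disjoint (by simpa using hcD)]
              simp; omega
            · apply Cn.comap; rw [map_univ_sub]; exact hR1
            · intro v'
              obtain ⟨v, hv, rfl⟩ : ∃ (v : V) (hv : v ∈ D ∪ {c}), v' = mkS v hv :=
                ⟨emb _ v', emb_mem v', rfl⟩
              apply Cn.comap
              have e : ((univ : Finset (Sub (D ∪ {c}))).erase (mkS v hv)).map
                  (emb (D ∪ {c})) = (D ∪ {c}).erase v := by
                ext z
                rw [mem_map, mem_erase]
                constructor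
                · rintro ⟨u, h1, rfl⟩
                  rw [mem_erase] at h1
                  exact ⟨fun h => h1.1 (Subtype.ext h), emb_mem u⟩
                · rintro ⟨h1, h2⟩
                  refine ⟨mkS z h2, ?_, rfl⟩
                  rw [mem_erase]
                  exact ⟨fun h => h1 (congrArg (emb _) h), mem_univ _⟩
              rw [e]
              by_cases hvc : v = c
              · subst hvc
                have : (D ∪ {v}).erase v = D := by
                  ext z; simp only [mem_erase, mem_union, mem_singleton]
                  constructor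
                  · tauto
                  · intro hz; exact ⟨by rintro rfl; exact hcD hz, Or.inl hz⟩
                rw [this]; exact hDc
              · have hvD : v ∈ D := by
                  rcases mem_union.1 hv with h | h
                  · exact h
                  · exact absurd (mem_singleton.1 h) hvc
                have hcR : c ∈ (D ∪ {c}).erase v := mem_erase.2 ⟨Ne.symm hvc, by simp⟩
                apply cn_of_cpt_eq hcR
                apply subset_antisymm cpt_subset
                intro y hy
                by_contra hyc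
                have hc' : c ∉ cpt G ((D ∪ {c}).erase v) y := by
                  intro h
                  apply hyc
                  have := cpt_eq_of_mem hy h
                  rw [this]; exact mem_cpt_self hy
                set D' := cpt G ((D ∪ {c}).erase v) y with hD'
                have hyv : y ≠ v := (mem_erase.1 hy).1
                have hD'sub : D' ⊆ D.erase v := by
                  intro z hz
                  have h1 := mem_erase.1 (cpt_subset hz)
                  refine mem_erase.2 ⟨h1.1, ?_⟩
                  rcases mem_union.1 h1.2 with h | h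
                  · exact h
                  · rw [mem_singleton] at h; subst h; exact absurd hz hc'
                have hclosed : cpt G (univ.erase v) y ⊆ D' := by
                  by_contra hns
                  have hyE : y ∈ univ.erase v := mem_erase.2 ⟨hyv, mem_univ _⟩
                  have hDs : D' ⊆ cpt G (univ.erase v) y := by
                    apply subset_cpt _ (cn_cpt hy) (mem_cpt_self hy)
                    intro z hz
                    exact mem_erase.2 ⟨(mem_erase.1 (hD'sub hz)).1, mem_univ _⟩
                  obtain ⟨a, ha, b, hb, hab⟩ := (cn_cpt hyE).2 D' hDs ⟨y, mem_cpt_self hy⟩ (by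
                    rw [sdiff_nonempty]; exact hns)
                  obtain ⟨hb1, hb2⟩ := mem_sdiff.1 hb
                  have hbv : b ≠ v := (mem_erase.1 (cpt_subset hb1)).1
                  have haD := (mem_erase.1 (hD'sub ha)).2
                  have hbR : b ∈ D ∪ {c} := by
                    by_cases hbD : b ∈ D
                    · exact mem_union_left _ hbD
                    · have := hnb a haD b hbD hab
                      subst this; simp
                  exact not_adj_cpt hy ha (mem_erase.2 ⟨hbv, hbR⟩) hb2 hab
                have := hmin (v, y) ⟨hyv, fun hcnv => by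
                  have hyE : y ∈ univ.erase v := mem_erase.2 ⟨hyv, mem_univ _⟩
                  have h5 := hcnv.cpt_eq hyE
                  have h6 : c ∈ cpt G (univ.erase v) y := by
                    rw [h5]; exact mem_erase.2 ⟨Ne.symm hvc, mem_univ _⟩
                  exact hc' (hclosed h6)⟩
                simp only at this
                have h7 := (card_le_card hclosed).trans (card_le_card hD'sub)
                have h8 : (D.erase v).card < D.card := by
                  rw [card_erase_of_mem hvD]
                  have := card_pos.2 ⟨v, hvD⟩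
                  omega
                omega
          have := (h2 _ _ hTwo (fun h => hT (hsep.hasC hR2 h))).map
          rwa [map_univ_sub] at this
      have h5 := hsep.dt2 (hsep.dt1 dtR1) dtR2 (Subset.refl _)
      rw [if_pos (by simp [hcD])] at h5
      have e : univ \ D ∪ (D ∪ {c}) = (univ : Finset V) := by
        ext z; simp only [mem_union, mem_sdiff, mem_univ, true_and, mem_singleton, iff_true]; tauto
      rwa [e] at h5
    · -- at most two vertices
      by_cases h1 : Fintype.card V ≤ 1
      · have : (univ : Finset V) = {x0} := by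
          apply (Finset.eq_singleton_iff_unique_mem).2 ⟨mem_univ _, fun y _ => ?_⟩
          exact Fintype.card_le_one_iff.1 h1 y x0
        rw [this]; exact DT.leaf x0
      · have h22 : (univ : Finset V).card = 2 := by rw [card_univ]; omega
        obtain ⟨a, b, hab, he⟩ := card_eq_two.1 h22
        have e : (univ : Finset V) = {a} ∪ {b} := by rw [he]; rfl
        have : DT G (K + 1) univ ({a} ∪ {b}) := by
          refine DT.node (by simpa using hab) (DT.leaf a) (DT.leaf b) ?_
          rw [← e, nt_closed]
          · exact Nat.zero_le _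
          · intro a _ z hz hz' _
            exact hz' hz
        rw [← e] at this; exact this

end Pool.Agent.H175R2
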