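import Pool.Agent.H175R2.Gem1

/-! Fast finite certificates and splitting of bags. -/

namespace Pool.Agent.H175R2

open Finset Classical

variable {V : Type} {G : SimpleGraph V}

/-- hexadecimal digit -/
def dg (n i : ℕ) : ℕ := (n >>> (4 * i)) &&& 15

/-- bit as a number -/
def tb (n i : ℕ) : ℕ := if n.testBit i then 1 else 0

def allN : ℕ → (ℕ → Bool) → Bool
  | 0, _ => true
  | n + 1, f => f n && allN n f

def anyN : ℕ → (ℕ → Bool) → Bool
  | 0, _ => false
  | n + 1, f => f n || anyN n f

lemma allN_iff {n : ℕ} {f : ℕ → Bool} : allN n f = true ↔ ∀ i < n, f i = true := by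
  induction n with
  | zero => simp [allN]
  | succ n ih =>
    simp only [allN, Bool.and_eq_true, ih]
    constructor
    · rintro ⟨h1, h2⟩ i hi
      rcases Nat.lt_succ_iff_lt_or_eq.1 hi with h | h
      · exact h2 i h
      · rw [h]; exact h1
    · intro h
      exact ⟨h n (by omega), fun i hi => h i (by omega)⟩

lemma anyN_iff {n : ℕ} {f : ℕ → Bool} : anyN n f = true ↔ ∃ i < n, f i = true := by
  induction n with
  | zero => simp [anyN]
  | succ n ih =>
    simp only [anyN, Bool.or_eq_true, ih]
    constructor
    · rintro (h | ⟨i, hi, h⟩)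
      · exact ⟨n, by omega, h⟩
      · exact ⟨i, by omega, h⟩
    · rintro ⟨i, hi, h⟩
      rcases Nat.lt_succ_iff_lt_or_eq.1 hi with h' | h'
      · exact Or.inr ⟨i, h', h⟩
      · rw [h'] at h; exact Or.inl h

/-- certificate check; `C` = digits of the map, `P` = parents, `R` = roots -/
def chkN (m t : ℕ) (M : ℕ → ℕ → ℕ) (T : ℕ → ℕ → Bool) (C P R : ℕ) : Bool :=
  allN m (fun i => (dg C (dg P i) == dg C i) && ((dg P i == i) || (M i (dg P i) == 1)) &&
    (dg P (dg P (dg P i)) == dg R (dg C i)) && Nat.blt (dg C i) t && Nat.blt (dg P i) m) &&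
  (allN t (fun w => (dg C (dg R w) == w) && Nat.blt (dg R w) m) &&
  (allN m (fun i => allN m (fun j => (dg C i == dg C j) || (T (dg C i) (dg C j)) || (M i j == 0))) &&
  allN t (fun w => allN t (fun w' => (w == w') || (!(T w w')) ||
    anyN m (fun i => (dg C i == w) && anyN m (fun j => (dg C j == w') && (M i j == 1)))))))

theorem hasC_of_chkN [Fintype V] {m t : ℕ} {M : ℕ → ℕ → ℕ} {B : Fin m → Finset V}
    (pq : PQ G (fun i j : Fin m => M i j) B) {T : ℕ → ℕ → Bool} {C P R : ℕ}
    (h : chkN m t M T C P R = true) : HasC G (fun i j : Fin t => T i j) := by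
  simp only [chkN, Bool.and_eq_true, allN_iff, anyN_iff, Bool.or_eq_true, beq_iff_eq,
    Bool.not_eq_true', Nat.blt_eq] at h
  obtain ⟨h1, h2, h3, h4⟩ := h
  let c : Fin m → Fin t := fun i => ⟨dg C i, (h1 i i.2).1.2⟩
  let p : Fin m → Fin m := fun i => ⟨dg P i, (h1 i i.2).2⟩
  let r : Fin t → Fin m := fun w => ⟨dg R w, (h2 w w.2).2⟩
  refine hasC_of_chk pq (c := c) (p := p) (r := r) ⟨fun i => ⟨?_, ?_, ?_⟩, fun w => ?_, fun i j hc hT => ?_,
    fun w w' hne hT => ?_⟩
  · exact Fin.ext (h1 i i.2).1.1.1.1
  · rcases (h1 i i.2).1.1.1.2 with h | h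
    · exact Or.inl (Fin.ext h)
    · exact Or.inr h
  · exact Fin.ext (h1 i i.2).1.1.2
  · exact Fin.ext (h2 w w.2).1
  · rcases h3 i i.2 j j.2 with (h | h) | h
    · exact absurd (Fin.ext h) hc
    · exfalso
      have : T (dg C i) (dg C j) = false := hT
      rw [h] at this; exact absurd this (by simp)
    · exact h
  · rcases h4 w w.2 w' w'.2 with (h | h) | ⟨i, hi, hci, j, hj, hcj, hM⟩
    · exact absurd (Fin.ext h) hne
    · have : T w w' = true := hT
      rw [h] at this; exact absurd this (by simp)
    · exact ⟨⟨i, hi⟩, ⟨j, hj⟩, Fin.ext hci, Fin.ext hcj, hM⟩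

def gemN (i j : ℕ) : Bool := i = 4 || j = 4 || i + 1 = j || j + 1 = i

def x5N (i j : ℕ) : Bool :=
  !((i = 0 && j = 1) || (i = 1 && j = 0) || (i = 1 && j = 2) || (i = 2 && j = 1))

lemma gemN_eq : (fun i j : Fin 5 => gemN i j) = gemT := rfl
lemma x5N_eq : (fun i j : Fin 5 => x5N i j) = x5T := rfl

/-- matrix after splitting bag `k` into `k` (labels `α`) and `m` (labels `β`) -/
def spM (m k α β : ℕ) (M : ℕ → ℕ → ℕ) (i j : ℕ) : ℕ :=
  if i = m then (if j = k then 1 else if j = m then 1 else tb β j) else
  if j = m then (if i = k then 1 else tb β i) else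
  if i = k then (if j = k then 1 else tb α j) else
  if j = k then tb α i else M i j

noncomputable def spB {m : ℕ} (B : Fin m → Finset V) (k : Fin m) (X Y : Finset V) :
    Fin (m + 1) → Finset V :=
  fun i => if h : i.val < m then (if i.val = k.val then X else B ⟨i, h⟩) else Y

theorem PQ.split [Fintype V] {m : ℕ} {M : ℕ → ℕ → ℕ} {B : Fin m → Finset V}
    (pq : PQ G (fun i j : Fin m => M i j) B) (k : Fin m) {X Y : Finset V} (s : Split G (B k) X Y)
    (α β : ℕ) (hα : ∀ i : Fin m, i ≠ k → (α.testBit i = true ↔ Tc G X (B i)))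
    (hβ : ∀ i : Fin m, i ≠ k → (β.testBit i = true ↔ Tc G Y (B i))) :
    PQ G (fun i j : Fin (m + 1) => spM m k α β M i j) (spB B k X Y) := by
  have hXY : Tc G X Y := s.tc (pq.cn k)
  have last : ∀ i : Fin (m + 1), ¬ i.val < m → spB B k X Y i = Y := by
    intro i hi; simp [spB, hi]
  have isk : ∀ i : Fin (m + 1), i.val = k.val → spB B k X Y i = X := by
    intro i hi; simp [spB, hi]
  have oth : ∀ (i : Fin (m + 1)) (h : i.val < m), i.val ≠ k.val → spB B k X Y i = B ⟨i, h⟩ := by
    intro i h hi; simp [spB, h, hi]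
  refine ⟨?_, ?_, ?_, ?_, ?_⟩
  · intro i
    by_cases h1 : i.val < m
    · by_cases h2 : i.val = k.val
      · rw [isk i h2]; exact s.cX
      · rw [oth i h1 h2]; exact pq.cn _
    · rw [last i h1]; exact s.cY
  · intro i j hij
    have hij' : i.val ≠ j.val := fun h => hij (Fin.ext h)
    by_cases h1 : i.val < m
    · by_cases h2 : i.val = k.val
      · rw [isk i h2]
        by_cases h3 : j.val < m
        · rw [oth j h3 (by omega)]
          exact (pq.disj k ⟨j, h3⟩ (fun h => by have := congrArg Fin.val h; simp at this; omega)).mono_left s.left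
        · rw [last j h3]; exact s.d
      · rw [oth i h1 h2]
        by_cases h3 : j.val < m
        · by_cases h4 : j.val = k.val
          · rw [isk j h4]
            exact (pq.disj ⟨i, h1⟩ k (fun h => by have := congrArg Fin.val h; simp at this; omega)).mono_right s.left
          · rw [oth j h3 h4]
            exact pq.disj _ _ (fun h => by have := congrArg Fin.val h; simp at this; omega)
        · rw [last j h3]
          exact (pq.disj ⟨i, h1⟩ k (fun h => by have := congrArg Fin.val h; simp at this; omega)).mono_right s.right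
    · rw [last i h1]
      have h3 : j.val < m := by omega
      by_cases h4 : j.val = k.val
      · rw [isk j h4]; exact s.d.symm
      · rw [oth j h3 h4]
        exact (pq.disj k ⟨j, h3⟩ (fun h => by have := congrArg Fin.val h; simp at this; omega)).mono_left s.right
  · intro v
    obtain ⟨i, hi⟩ := pq.cover v
    by_cases h : i = k
    · subst h
      rw [← s.u, mem_union] at hi
      rcases hi with hi | hi
      · exact ⟨⟨i, by omega⟩, by rw [isk _ rfl]; exact hi⟩
      · exact ⟨⟨m, by omega⟩, by rw [last _ (by simp)]; exact hi⟩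
    · exact ⟨⟨i, by omega⟩, by
        rw [oth _ (by simp) (by intro h'; exact h (Fin.ext h'))]; exact hi⟩
  · intro i j hij hM
    have hij' : i.val ≠ j.val := fun h => hij (Fin.ext h)
    simp only [spM, tb] at hM
    by_cases h1 : i.val = m
    · rw [last i (by omega)]
      have h3 : j.val < m := by omega
      rw [if_pos h1] at hM
      by_cases h4 : j.val = k.val
      · rw [isk j h4]; exact hXY.symm
      · rw [oth j h3 h4]
        rw [if_neg h4, if_neg (by omega)] at hM
        split_ifs at hM with hb
        exact (hβ ⟨j, h3⟩ (fun h => by have := congrArg Fin.val h; simp at this; omega)).1 hb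
    · rw [if_neg h1] at hM
      by_cases h2 : j.val = m
      · rw [last j (by omega)]
        rw [if_pos h2] at hM
        have h3 : i.val < m := by omega
        by_cases h4 : i.val = k.val
        · rw [isk i h4]; exact hXY
        · rw [oth i h3 h4]
          rw [if_neg h4] at hM
          split_ifs at hM with hb
          exact ((hβ ⟨i, h3⟩ (fun h => by have := congrArg Fin.val h; simp at this; omega)).1 hb).symm
      · rw [if_neg h2] at hM
        have h3 : i.val < m := by omega
        have h5 : j.val < m := by omega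
        by_cases h4 : i.val = k.val
        · rw [isk i h4, oth j h5 (by omega)]
          rw [if_pos h4, if_neg (by omega)] at hM
          split_ifs at hM with hb
          exact (hα ⟨j, h5⟩ (fun h => by have := congrArg Fin.val h; simp at this; omega)).1 hb
        · rw [if_neg h4] at hM
          by_cases h6 : j.val = k.val
          · rw [isk j h6, oth i h3 h4]
            rw [if_pos h6] at hM
            split_ifs at hM with hb
            exact ((hα ⟨i, h3⟩ (fun h => by have := congrArg Fin.val h; simp at this; omega)).1 hb).symm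
          · rw [if_neg h6] at hM
            rw [oth i h3 h4, oth j h5 h6]
            exact pq.yes ⟨i, h3⟩ ⟨j, h5⟩ (fun h => by have := congrArg Fin.val h; simp at this; omega) hM
  · intro i j hij hM
    have hij' : i.val ≠ j.val := fun h => hij (Fin.ext h)
    simp only [spM, tb] at hM
    by_cases h1 : i.val = m
    · rw [last i (by omega)]
      have h3 : j.val < m := by omega
      rw [if_pos h1] at hM
      by_cases h4 : j.val = k.val
      · rw [if_pos h4] at hM; exact absurd hM (by norm_num)
      · rw [oth j h3 h4]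
        rw [if_neg h4, if_neg (by omega)] at hM
        split_ifs at hM with hb
        exact fun ht => hb ((hβ ⟨j, h3⟩ (fun h => by have := congrArg Fin.val h; simp at this; omega)).2 ht)
    · rw [if_neg h1] at hM
      by_cases h2 : j.val = m
      · rw [last j (by omega)]
        rw [if_pos h2] at hM
        have h3 : i.val < m := by omega
        by_cases h4 : i.val = k.val
        · rw [if_pos h4] at hM; exact absurd hM (by norm_num)
        · rw [oth i h3 h4]
          rw [if_neg h4] at hM
          split_ifs at hM with hb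
          exact fun ht => hb ((hβ ⟨i, h3⟩ (fun h => by have := congrArg Fin.val h; simp at this; omega)).2 ht.symm)
      · rw [if_neg h2] at hM
        have h3 : i.val < m := by omega
        have h5 : j.val < m := by omega
        by_cases h4 : i.val = k.val
        · rw [isk i h4, oth j h5 (by omega)]
          rw [if_pos h4, if_neg (by omega)] at hM
          split_ifs at hM with hb
          exact fun ht => hb ((hα ⟨j, h5⟩ (fun h => by have := congrArg Fin.val h; simp at this; omega)).2 ht)
        · rw [if_neg h4] at hM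
          by_cases h6 : j.val = k.val
          · rw [isk j h6, oth i h3 h4]
            rw [if_pos h6] at hM
            split_ifs at hM with hb
            exact fun ht => hb ((hα ⟨i, h3⟩ (fun h => by have := congrArg Fin.val h; simp at this; omega)).2 ht.symm)
          · rw [if_neg h6] at hM
            rw [oth i h3 h4, oth j h5 h6]
            exact pq.no ⟨i, h3⟩ ⟨j, h5⟩ (fun h => by have := congrArg Fin.val h; simp at this; omega) hM

/-- label of a part of bag `k` -/
noncomputable def lbl (G : SimpleGraph V) {m : ℕ} (B : Fin m → Finset V) (k : Fin m)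
    (X : Finset V) : ℕ := Nat.ofBits (fun i : Fin m => decide (i ≠ k ∧ Tc G X (B i)))

lemma lbl_lt {m : ℕ} {B : Fin m → Finset V} {k : Fin m} {X : Finset V} : lbl G B k X < 2 ^ m :=
  Nat.ofBits_lt_two_pow _

lemma lbl_testBit {m : ℕ} {B : Fin m → Finset V} {k : Fin m} {X : Finset V} (i : Fin m) :
    (lbl G B k X).testBit i = true ↔ (i ≠ k ∧ Tc G X (B i)) := by
  rw [lbl, Nat.testBit_ofBits_lt _ _ i.2]
  simp

lemma lbl_testBit' {m : ℕ} {B : Fin m → Finset V} {k : Fin m} {X : Finset V} (i : Fin m)
    (hi : i ≠ k) : (lbl G B k X).testBit i = true ↔ Tc G X (B i) := by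
  rw [lbl_testBit]; simp [hi]

lemma lbl_eq_zero {m : ℕ} {B : Fin m → Finset V} {k : Fin m} {X : Finset V}
    (h : lbl G B k X = 0) (i : Fin m) (hi : i ≠ k) : ¬ Tc G X (B i) := by
  rw [← lbl_testBit' i hi, h]; simp

lemma lbl_ne_zero {m : ℕ} {B : Fin m → Finset V} {k : Fin m} {X : Finset V} {i : Fin m}
    (hi : i ≠ k) (h : Tc G X (B i)) : lbl G B k X ≠ 0 := fun h0 => lbl_eq_zero h0 i hi h

lemma lbl_or [Fintype V] {m : ℕ} {M : ℕ → ℕ → ℕ} {B : Fin m → Finset V}
    (pq : PQ G (fun i j : Fin m => M i j) B) (k : Fin m) {X Y : Finset V} (s : Split G (B k) X Y)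
    {N : ℕ} (hN : N < 2 ^ m) (hbit : ∀ i < m, tb N i = if i = k.val then 0 else M k i) :
    lbl G B k X ||| lbl G B k Y = N := by
  apply Nat.eq_of_testBit_eq
  intro i
  rw [Nat.testBit_or]
  by_cases hi : i < m
  · have hb := hbit i hi
    by_cases hk : i = k.val
    · rw [if_pos hk] at hb
      have h1 : (lbl G B k X).testBit i = false := by
        by_contra h
        rw [Bool.not_eq_false] at h
        exact ((lbl_testBit (⟨i, hi⟩ : Fin m)).1 h).1 (Fin.ext hk)
      have h2 : (lbl G B k Y).testBit i = false := by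
        by_contra h
        rw [Bool.not_eq_false] at h
        exact ((lbl_testBit (⟨i, hi⟩ : Fin m)).1 h).1 (Fin.ext hk)
      have h3 : N.testBit i = false := by
        by_contra h
        rw [Bool.not_eq_false] at h
        simp [tb, h] at hb
      rw [h1, h2, h3]; rfl
    · rw [if_neg hk] at hb
      have hne : (⟨i, hi⟩ : Fin m) ≠ k := fun h => hk (congrArg Fin.val h)
      have e1 := lbl_testBit' (G := G) (B := B) (k := k) (X := X) ⟨i, hi⟩ hne
      have e2 := lbl_testBit' (G := G) (B := B) (k := k) (X := Y) ⟨i, hi⟩ hne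
      have hu : Tc G (B k) (B ⟨i, hi⟩) ↔ Tc G X (B ⟨i, hi⟩) ∨ Tc G Y (B ⟨i, hi⟩) := by
        rw [← s.u, Tc.union_left]
      simp only at e1 e2
      cases hNi : N.testBit i with
      | true =>
        have : M k i = 1 := by rw [← hb]; simp [tb, hNi]
        have ht := pq.yes k ⟨i, hi⟩ hne.symm this
        rw [hu] at ht
        rcases ht with ht | ht
        · rw [e1.2 ht]; simp
        · rw [e2.2 ht]; simp
      | false =>
        have : M k i = 0 := by rw [← hb]; simp [tb, hNi]
        have ht := pq.no k ⟨i, hi⟩ hne.symm this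
        rw [hu] at ht
        push Not at ht
        have a1 : (lbl G B k X).testBit i = false := by
          by_contra h
          rw [Bool.not_eq_false] at h
          exact ht.1 (e1.1 h)
        have a2 : (lbl G B k Y).testBit i = false := by
          by_contra h
          rw [Bool.not_eq_false] at h
          exact ht.2 (e2.1 h)
        rw [a1, a2]; rfl
  · have big : ∀ n, n < 2 ^ m → n.testBit i = false := fun n hn =>
      Nat.testBit_lt_two_pow (lt_of_lt_of_le hn (Nat.pow_le_pow_right (by omega) (by omega)))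
    rw [big _ lbl_lt, big _ lbl_lt, big _ hN]; rfl

/-- check all splits of bag `k` -/
def spChk (m t : ℕ) (M : ℕ → ℕ → ℕ) (T : ℕ → ℕ → Bool) (k N : ℕ) (exc : ℕ → ℕ → Bool)
    (certs : List (ℕ × ℕ × ℕ)) : Bool :=
  Nat.blt N (2 ^ m) && allN m (fun i => tb N i == if i = k then 0 else M k i) &&
  allN (2 ^ m) (fun α => (!(α ||| N == N)) || allN (2 ^ m) (fun β => (!(α ||| β == N)) || exc α β ||
    certs.any (fun c => chkN (m + 1) t (spM m k α β M) T c.1 c.2.1 c.2.2)))

theorem spChk_sound [Fintype V] {m t : ℕ} {M : ℕ → ℕ → ℕ} {B : Fin m → Finset V}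
    (pq : PQ G (fun i j : Fin m => M i j) B) {T : ℕ → ℕ → Bool} {k : Fin m} {N : ℕ}
    {exc : ℕ → ℕ → Bool} {certs : List (ℕ × ℕ × ℕ)} (h : spChk m t M T k N exc certs = true)
    {X Y : Finset V} (s : Split G (B k) X Y) :
    exc (lbl G B k X) (lbl G B k Y) = true ∨ HasC G (fun i j : Fin t => T i j) := by
  simp only [spChk, Bool.and_eq_true, allN_iff, Bool.or_eq_true, beq_iff_eq, Bool.not_eq_true',
    Nat.blt_eq, beq_eq_false_iff_ne] at h
  obtain ⟨⟨hN, hbit⟩, hall⟩ := h
  have hor := lbl_or pq k s hN hbit
  have hα : lbl G B k X ||| N = N := by rw [← hor, ← Nat.or_assoc, Nat.or_self]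
  rcases hall _ (lbl_lt (G := G) (B := B) (k := k) (X := X)) with h | h
  · exact absurd hα h
  rcases h _ (lbl_lt (G := G) (B := B) (k := k) (X := Y)) with (h | h) | h
  · exact absurd hor h
  · exact Or.inl h
  · right
    rw [List.any_eq_true] at h
    obtain ⟨c, _, hc⟩ := h
    exact hasC_of_chkN (pq.split k s _ _ (fun i hi => lbl_testBit' i hi) (fun i hi => lbl_testBit' i hi)) hc

end Pool.Agent.H175R2
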