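import Mathlib

/-! Connected finite vertex sets. -/

namespace Pool.Agent.H175R2

open Finset Classical

variable {V : Type} {G : SimpleGraph V}

/-- `S` induces a connected subgraph (nonempty). -/
def Cn (G : SimpleGraph V) (S : Finset V) : Prop :=
  S.Nonempty ∧ ∀ T ⊆ S, T.Nonempty → (S \ T).Nonempty → ∃ x ∈ T, ∃ y ∈ S \ T, G.Adj x y

/-- two sets touch -/
def Tc (G : SimpleGraph V) (A B : Finset V) : Prop := ∃ x ∈ A, ∃ y ∈ B, G.Adj x y

lemma Tc.symm {A B : Finset V} (h : Tc G A B) : Tc G B A := by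
  obtain ⟨x, hx, y, hy, h⟩ := h
  exact ⟨y, hy, x, hx, h.symm⟩

lemma Tc.comm {A B : Finset V} : Tc G A B ↔ Tc G B A := ⟨Tc.symm, Tc.symm⟩

lemma Tc.mono {A B A' B' : Finset V} (h : Tc G A B) (hA : A ⊆ A') (hB : B ⊆ B') : Tc G A' B' := by
  obtain ⟨x, hx, y, hy, h⟩ := h
  exact ⟨x, hA hx, y, hB hy, h⟩

lemma Tc.union_left {A A' B : Finset V} : Tc G (A ∪ A') B ↔ Tc G A B ∨ Tc G A' B := by
  unfold Tc; simp only [mem_union]; grind

lemma Tc.union_right {A B B' : Finset V} : Tc G A (B ∪ B') ↔ Tc G A B ∨ Tc G A B' := by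
  unfold Tc; simp only [mem_union]; grind

lemma Tc.of_adj {A B : Finset V} {x y : V} (h : G.Adj x y) (hx : x ∈ A) (hy : y ∈ B) : Tc G A B :=
  ⟨x, hx, y, hy, h⟩

lemma Cn.singleton (x : V) : Cn G {x} := by
  refine ⟨⟨x, by simp⟩, fun T hT hn hn' => ?_⟩
  exfalso
  obtain ⟨y, hy⟩ := hn'
  obtain ⟨z, hz⟩ := hn
  have := hT hz
  simp at this hy
  subst this
  exact hy.2 (hy.1 ▸ hz)

lemma Cn.union {S T : Finset V} (hS : Cn G S) (hT : Cn G T) (h : Tc G S T ∨ (S ∩ T).Nonempty) :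
    Cn G (S ∪ T) := by
  refine ⟨hS.1.mono subset_union_left, fun P hP hn hn' => ?_⟩
  by_cases h1 : (S ∩ P).Nonempty ∧ (S \ P).Nonempty
  · obtain ⟨x, hx, y, hy, ha⟩ := hS.2 (S ∩ P) inter_subset_left h1.1 (by
      obtain ⟨y, hy⟩ := h1.2; exact ⟨y, by grind⟩)
    exact ⟨x, by grind, y, by grind, ha⟩
  by_cases h2 : (T ∩ P).Nonempty ∧ (T \ P).Nonempty
  · obtain ⟨x, hx, y, hy, ha⟩ := hT.2 (T ∩ P) inter_subset_left h2.1 (by
      obtain ⟨y, hy⟩ := h2.2; exact ⟨y, by grind⟩)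
    exact ⟨x, by grind, y, by grind, ha⟩
  obtain ⟨p, hp⟩ := hn
  obtain ⟨q, hq⟩ := hn'
  have k1 : ∀ x ∈ S, ∀ y ∈ S, (x ∈ P ↔ y ∈ P) := by
    intro x hx y hy
    by_contra hc
    apply h1
    by_cases hxP : x ∈ P
    · exact ⟨⟨x, by grind⟩, ⟨y, by grind⟩⟩
    · exact ⟨⟨y, by grind⟩, ⟨x, by grind⟩⟩
  have k2 : ∀ x ∈ T, ∀ y ∈ T, (x ∈ P ↔ y ∈ P) := by
    intro x hx y hy
    by_contra hc
    apply h2
    by_cases hxP : x ∈ P
    · exact ⟨⟨x, by grind⟩, ⟨y, by grind⟩⟩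
    · exact ⟨⟨y, by grind⟩, ⟨x, by grind⟩⟩
  rcases h with ⟨x, hx, y, hy, ha⟩ | ⟨x, hx⟩
  · by_cases hxP : x ∈ P
    · refine ⟨x, hxP, y, ?_, ha⟩
      grind
    · refine ⟨y, ?_, x, ?_, ha.symm⟩ <;> grind
  · exfalso
    grind

/-- the component of `x` in `S` -/
noncomputable def cpt (G : SimpleGraph V) (S : Finset V) (x : V) : Finset V :=
  S.filter (fun y => ∃ C ⊆ S, Cn G C ∧ x ∈ C ∧ y ∈ C)

lemma cpt_subset {S : Finset V} {x : V} : cpt G S x ⊆ S := filter_subset _ _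

lemma mem_cpt_self {S : Finset V} {x : V} (hx : x ∈ S) : x ∈ cpt G S x := by
  simp only [cpt, mem_filter]
  exact ⟨hx, {x}, by simpa using hx, Cn.singleton x, by simp, by simp⟩

lemma subset_cpt {S : Finset V} {x : V} {C : Finset V} (hC : C ⊆ S) (h : Cn G C) (hx : x ∈ C) :
    C ⊆ cpt G S x := by
  intro y hy
  simp only [cpt, mem_filter]
  exact ⟨hC hy, C, hC, h, hx, hy⟩

lemma cn_cpt {S : Finset V} {x : V} (hx : x ∈ S) : Cn G (cpt G S x) := by
  refine ⟨⟨x, mem_cpt_self hx⟩, fun T hT hn hn' => ?_⟩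
  obtain ⟨t, ht⟩ := hn
  obtain ⟨u, hu⟩ := hn'
  -- there are connected sets containing x, t and x, u
  have ht' := hT ht
  have hu' := (mem_sdiff.1 hu).1
  simp only [cpt, mem_filter] at ht' hu'
  obtain ⟨_, C, hCS, hC, hxC, htC⟩ := ht'
  obtain ⟨_, C', hCS', hC', hxC', huC'⟩ := hu'
  have hU : Cn G (C ∪ C') := hC.union hC' (Or.inr ⟨x, by grind⟩)
  have hsub : C ∪ C' ⊆ cpt G S x := subset_cpt (union_subset hCS hCS') hU (by grind)
  obtain ⟨a, ha, b, hb, hab⟩ := hU.2 ((C ∪ C') ∩ T) inter_subset_left ⟨t, by grind⟩ ⟨u, by grind⟩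
  exact ⟨a, by grind, b, by
    have := hsub (mem_sdiff.1 hb).1
    grind, hab⟩

lemma subset_cpt_of_inter {S : Finset V} {x : V} {C : Finset V} (hx : x ∈ S) (hC : C ⊆ S)
    (h : Cn G C) (hi : (C ∩ cpt G S x).Nonempty) : C ⊆ cpt G S x := by
  have := subset_cpt (union_subset hC cpt_subset) (h.union (cn_cpt hx) (Or.inr hi))
    (mem_union_right _ (mem_cpt_self hx))
  exact subset_union_left.trans this

lemma subset_cpt_of_tc {S : Finset V} {x : V} {C : Finset V} (hx : x ∈ S) (hC : C ⊆ S)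
    (h : Cn G C) (hi : Tc G C (cpt G S x)) : C ⊆ cpt G S x := by
  have := subset_cpt (union_subset hC cpt_subset) (h.union (cn_cpt hx) (Or.inl hi))
    (mem_union_right _ (mem_cpt_self hx))
  exact subset_union_left.trans this

lemma not_adj_cpt {S : Finset V} {x y z : V} (hx : x ∈ S) (hy : y ∈ cpt G S x) (hz : z ∈ S)
    (hz' : z ∉ cpt G S x) : ¬ G.Adj y z := by
  intro h
  have := subset_cpt_of_tc hx (C := {z}) (by simpa using hz) (Cn.singleton z)
    ⟨z, by simp, y, hy, h.symm⟩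
  exact hz' (this (by simp))

lemma cpt_eq_of_mem {S : Finset V} {x y : V} (hx : x ∈ S) (hy : y ∈ cpt G S x) :
    cpt G S y = cpt G S x := by
  have hyS : y ∈ S := cpt_subset hy
  apply subset_antisymm
  · exact subset_cpt_of_inter hx cpt_subset (cn_cpt hyS) ⟨y, by simp [mem_cpt_self hyS, hy]⟩
  · exact subset_cpt_of_inter hyS cpt_subset (cn_cpt hx) ⟨y, by simp [mem_cpt_self hyS, hy]⟩

lemma cn_of_cpt_eq {S : Finset V} {x : V} (hx : x ∈ S) (h : cpt G S x = S) : Cn G S := by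
  rw [← h]; exact cn_cpt hx

lemma Cn.cpt_eq {S : Finset V} {x : V} (h : Cn G S) (hx : x ∈ S) : cpt G S x = S :=
  subset_antisymm cpt_subset (subset_cpt (Subset.refl _) h hx)

/-- a connected set has an edge leaving any proper nonempty subset -/
lemma Cn.tc_sdiff {S T : Finset V} (h : Cn G S) (hT : T ⊆ S) (hn : T.Nonempty)
    (hn' : (S \ T).Nonempty) : Tc G T (S \ T) := by
  obtain ⟨x, hx, y, hy, ha⟩ := h.2 T hT hn hn'
  exact ⟨x, hx, y, hy, ha⟩

/-- two disjoint nonempty sets covering a connected set touch -/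
lemma Cn.tc_of_cover {S A B : Finset V} (h : Cn G S) (hS : S = A ∪ B) (hd : Disjoint A B)
    (hA : A.Nonempty) (hB : B.Nonempty) : Tc G A B := by
  have : S \ A = B := by
    rw [hS, union_sdiff_left]
    exact sdiff_eq_self_of_disjoint hd.symm
  have h2 := h.tc_sdiff (T := A) (by rw [hS]; exact subset_union_left) hA (by rwa [this])
  rwa [this] at h2

/-- leaf lemma: a connected proper subset `A` of `D` extends to `D` minus one vertex. -/
lemma Cn.leaf {A D : Finset V} (hD : Cn G D) (hA : Cn G A) (hAD : A ⊆ D) (hne : A ≠ D) :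
    ∃ z ∈ D \ A, Cn G (D.erase z) := by
  -- maximal connected proper superset of A
  obtain ⟨M, hM⟩ := (D.powerset.filter (fun M => Cn G M ∧ A ⊆ M ∧ M ≠ D)).exists_maximal
    ⟨A, by simp [hAD, hA, hne]⟩
  have hM1 := hM.prop
  simp only [mem_filter, mem_powerset] at hM1
  obtain ⟨hMD, hMc, hAM, hMne⟩ := hM1
  have hn : (D \ M).Nonempty := by
    by_contra hc
    rw [not_nonempty_iff_eq_empty, sdiff_eq_empty_iff_subset] at hc
    exact hMne (subset_antisymm hMD hc)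
  obtain ⟨x, hx, y, hy, hxy⟩ := hD.2 M hMD hMc.1 hn
  have hc : Cn G (M ∪ {y}) := hMc.union (Cn.singleton y) (Or.inl ⟨x, hx, y, by simp, hxy⟩)
  have hyD := (mem_sdiff.1 hy).1
  have hyM := (mem_sdiff.1 hy).2
  have heq : M ∪ {y} = D := by
    by_contra hne'
    have := hM.le_of_ge (y := M ∪ {y}) (by
      simp only [mem_filter, mem_powerset]
      exact ⟨union_subset hMD (by simpa using hyD), hc, hAM.trans subset_union_left, hne'⟩)
      subset_union_left
    exact hyM (this (by simp))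
  refine ⟨y, by grind, ?_⟩
  have : D.erase y = M := by
    rw [← heq]; ext z; simp only [mem_erase, mem_union, mem_singleton]; grind
  rwa [this]

/-- every connected set with at least two elements has a non-cut vertex different from `a`. -/
lemma Cn.leaf_ne {D : Finset V} (hD : Cn G D) {a : V} (ha : a ∈ D) (hne : D ≠ {a}) :
    ∃ z ∈ D, z ≠ a ∧ Cn G (D.erase z) := by
  obtain ⟨z, hz, h⟩ := hD.leaf (Cn.singleton a) (by simpa using ha) (Ne.symm hne)
  exact ⟨z, by grind, by grind, h⟩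

/-- extension lemma -/
lemma Cn.extend {A B D : Finset V} (hD : Cn G D) (hA : Cn G A) (hB : Cn G B) (hAD : A ⊆ D)
    (hBD : B ⊆ D) (hd : Disjoint A B) :
    ∃ A' B', A ⊆ A' ∧ B ⊆ B' ∧ A' ∪ B' = D ∧ Disjoint A' B' ∧ Cn G A' ∧ Cn G B' := by
  -- choose A' ⊇ A maximal connected in D \ B, ...
  obtain ⟨P, hP⟩ := ((D.powerset ×ˢ D.powerset).filter (fun P : Finset V × Finset V =>
      Cn G P.1 ∧ Cn G P.2 ∧ A ⊆ P.1 ∧ B ⊆ P.2 ∧ Disjoint P.1 P.2)).exists_maximal
    ⟨(A, B), by simp [hAD, hBD, hA, hB, hd]⟩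
  obtain ⟨P1, P2⟩ := P
  have h1 := hP.prop
  simp only [mem_filter, mem_product, mem_powerset] at h1
  obtain ⟨⟨hP1, hP2⟩, hc1, hc2, hA1, hB2, hd'⟩ := h1
  refine ⟨P1, P2, hA1, hB2, ?_, hd', hc1, hc2⟩
  by_contra hne
  have hsub : P1 ∪ P2 ⊆ D := union_subset hP1 hP2
  have hn : (D \ (P1 ∪ P2)).Nonempty := by
    by_contra hc
    rw [not_nonempty_iff_eq_empty, sdiff_eq_empty_iff_subset] at hc
    exact hne (subset_antisymm hsub hc)
  obtain ⟨x, hx, y, hy, hxy⟩ := hD.2 _ hsub (hc1.1.mono subset_union_left) hn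
  have hyD := (mem_sdiff.1 hy).1
  have hyM := (mem_sdiff.1 hy).2
  rcases mem_union.1 hx with hx | hx
  · have := hP.le_of_ge (y := (P1 ∪ {y}, P2)) (by
      simp only [mem_filter, mem_product, mem_powerset]
      refine ⟨⟨union_subset hP1 (by simpa using hyD), hP2⟩,
        hc1.union (Cn.singleton y) (Or.inl ⟨x, hx, y, by simp, hxy⟩), hc2,
        hA1.trans subset_union_left, hB2, ?_⟩
      rw [disjoint_union_left]
      exact ⟨hd', by simp only [disjoint_singleton_left]; grind⟩)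
      ⟨subset_union_left, Subset.refl _⟩
    exact hyM (mem_union_left _ (this.1 (by simp)))
  · have := hP.le_of_ge (y := (P1, P2 ∪ {y})) (by
      simp only [mem_filter, mem_product, mem_powerset]
      refine ⟨⟨hP1, union_subset hP2 (by simpa using hyD)⟩, hc1,
        hc2.union (Cn.singleton y) (Or.inl ⟨x, hx, y, by simp, hxy⟩), 
        hA1, hB2.trans subset_union_left, ?_⟩
      rw [disjoint_union_right]
      exact ⟨hd', by simp only [disjoint_singleton_right]; grind⟩)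
      ⟨Subset.refl _, subset_union_left⟩
    exact hyM (mem_union_right _ (this.2 (by simp)))

end Pool.Agent.H175R2
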