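import Mathlib

/-! Definitions for MP_80fcda_co: clique-width of connected `H`-contraction-free graphs. -/

namespace Pool.Agent.H175R2

/-- Labelled graphs that can be built with labels `Fin k` by the four operations of clique-width:
a single labelled vertex, disjoint union, joining all vertices labelled `i` to all vertices
labelled `j` (`i ≠ j`), relabelling `i` to `j`. -/
inductive CwBuilt (k : ℕ) : ∀ V : Type, SimpleGraph V → (V → Fin k) → Prop
  | single (i : Fin k) : CwBuilt k Unit ⊥ (fun _ => i)
  | union (V W : Type) (G : SimpleGraph V) (H : SimpleGraph W) (l : V → Fin k) (m : W → Fin k) :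
      CwBuilt k V G l → CwBuilt k W H m → CwBuilt k (V ⊕ W) (G ⊕g H) (Sum.elim l m)
  | join (V : Type) (G : SimpleGraph V) (l : V → Fin k) (i j : Fin k) : i ≠ j →
      CwBuilt k V G l →
      CwBuilt k V (G ⊔ SimpleGraph.fromRel (fun u v => l u = i ∧ l v = j)) l
  | relabel (V : Type) (G : SimpleGraph V) (l : V → Fin k) (i j : Fin k) :
      CwBuilt k V G l → CwBuilt k V G (fun v => if l v = i then j else l v)

/-- `G` has clique-width at most `k`. -/
def CwLE {V : Type} (G : SimpleGraph V) (k : ℕ) : Prop :=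
  ∃ (W : Type) (G' : SimpleGraph W) (l : W → Fin k), CwBuilt k W G' l ∧ Nonempty (G ≃g G')

/-- The clique-width: the least number of labels of a construction of `G`. -/
noncomputable def cliqueWidth {V : Type} (G : SimpleGraph V) : ℕ := sInf {k | CwLE G k}

/-- `G / uv`: delete `v` and join `u` to all former neighbours of `v` (other than `u`). -/
def contractEdge {V : Type} (G : SimpleGraph V) (u v : V) : SimpleGraph {x : V // x ≠ v} :=
  SimpleGraph.fromRel (fun x y => G.Adj x y ∨ (x.1 = u ∧ G.Adj v y))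

/-- `Contracts G H`: a sequence of zero or more edge contractions applied to `G` yields a graph
isomorphic to `H`. -/
inductive Contracts : ∀ {V W : Type}, SimpleGraph V → SimpleGraph W → Prop
  | iso {V W : Type} {G : SimpleGraph V} {H : SimpleGraph W} (e : G ≃g H) : Contracts G H
  | step {V W : Type} {G : SimpleGraph V} {H : SimpleGraph W} {u v : V} (huv : G.Adj u v)
      (h : Contracts (contractEdge G u v) H) : Contracts G H

/-- Witness form of `G` contains `H` as a contraction: the vertex set of `G` is partitioned into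
connected bags, one for each vertex of `H`, and two bags are adjacent iff the vertices of `H`
are. -/
def IsContraction {V W : Type} (G : SimpleGraph V) (H : SimpleGraph W) : Prop :=
  ∃ f : V → W, (∀ w, (G.induce {v | f v = w}).Connected) ∧
    ∀ w w', w ≠ w' → (H.Adj w w' ↔ ∃ v v', f v = w ∧ f v' = w' ∧ G.Adj v v')

/-- The connected `H`-contraction-free graphs have bounded clique-width. -/
def BddCw {W : Type} (H : SimpleGraph W) : Prop :=
  ∃ c : ℕ, ∀ (V : Type) [Finite V] (G : SimpleGraph V), G.Connected → ¬ Contracts G H →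
    cliqueWidth G ≤ c

/-- the 3-vertex path -/
def P3 : SimpleGraph (Fin 3) := SimpleGraph.fromRel (fun x y => x = 1 ∧ y ≠ 1)

/-- the paw: triangle `0 1 2` and the pendant edge `0 3` -/
def paw : SimpleGraph (Fin 4) :=
  SimpleGraph.fromRel (fun x y => x = 0 ∨ (x = 1 ∧ y = 2))

/-- the diamond: `K₄` minus the edge `2 3` -/
def diamond : SimpleGraph (Fin 4) :=
  SimpleGraph.fromRel (fun x _ => x = 0 ∨ x = 1)

/-- the gem: the vertex `4` joined to the path `0 1 2 3` -/
def gem : SimpleGraph (Fin 5) :=
  SimpleGraph.fromRel (fun x y => x = 4 ∨ x.val + 1 = y.val)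

/-- `complement(2P₁ + P₃)`: `K₅` minus the edges `0 1` and `1 2` -/
def X5 : SimpleGraph (Fin 5) :=
  SimpleGraph.fromRel (fun x y => x = 3 ∨ x = 4 ∨ (x = 0 ∧ y = 2))

/-- the `n × n` grid -/
def grid (n : ℕ) : SimpleGraph (Fin n × Fin n) :=
  SimpleGraph.fromRel (fun p q =>
    (p.1 = q.1 ∧ p.2.val + 1 = q.2.val) ∨ (p.2 = q.2 ∧ p.1.val + 1 = q.1.val))

/-- apex vertex joined to everything in the incidence graph: `inr (i, j)` is adjacent to `inl i`
and `inl j`. -/
def famCone (n : ℕ) : SimpleGraph (Option (Fin n ⊕ (Fin n × Fin n))) :=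
  SimpleGraph.fromRel (fun x y => x = none ∨
    ∃ (a : Fin n) (p : Fin n × Fin n), x = some (.inl a) ∧ y = some (.inr p) ∧ (a = p.1 ∨ a = p.2))

/-- both sides of the incidence graph made complete -/
def famCobip (n : ℕ) : SimpleGraph (Fin n ⊕ (Fin n × Fin n)) :=
  SimpleGraph.fromRel (fun x y => (∃ a b, x = .inl a ∧ y = .inl b) ∨ (∃ p q, x = .inr p ∧ y = .inr q) ∨
    ∃ (a : Fin n) (p : Fin n × Fin n), x = .inl a ∧ y = .inr p ∧ (a = p.1 ∨ a = p.2))

/-- the left side of the incidence graph made complete -/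
def famSplit (n : ℕ) : SimpleGraph (Fin n ⊕ (Fin n × Fin n)) :=
  SimpleGraph.fromRel (fun x y => (∃ a b, x = .inl a ∧ y = .inl b) ∨
    ∃ (a : Fin n) (p : Fin n × Fin n), x = .inl a ∧ y = .inr p ∧ (a = p.1 ∨ a = p.2))

/-- complement of the truncated complete graph: flags `(i, j)`, `i ≠ j`; in the truncated complete
graph `(i, j)` is adjacent to `(i, j')` and to `(j, i)`. -/
def famTrunc (n : ℕ) : SimpleGraph {p : Fin n × Fin n // p.1 ≠ p.2} :=
  SimpleGraph.fromRel (fun x y => ¬ (x.1.1 = y.1.1 ∨ (x.1.1 = y.1.2 ∧ x.1.2 = y.1.1)))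

end Pool.Agent.H175R2
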