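import Pool.Agent.H175R2.Sp

/-! Gem contractions: the basic claim about a side of a 2-separation. -/

namespace Pool.Agent.H175R2

open Finset Classical

variable {V : Type} {G : SimpleGraph V}

/-- membership pattern of a partition into five sets -/
def Part5 (P0 P1 P2 P3 H : Finset V) : Prop :=
  ∀ v, (v ∈ P0 ∧ v ∉ P1 ∧ v ∉ P2 ∧ v ∉ P3 ∧ v ∉ H) ∨ (v ∉ P0 ∧ v ∈ P1 ∧ v ∉ P2 ∧ v ∉ P3 ∧ v ∉ H) ∨
    (v ∉ P0 ∧ v ∉ P1 ∧ v ∈ P2 ∧ v ∉ P3 ∧ v ∉ H) ∨ (v ∉ P0 ∧ v ∉ P1 ∧ v ∉ P2 ∧ v ∈ P3 ∧ v ∉ H) ∨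
    (v ∉ P0 ∧ v ∉ P1 ∧ v ∉ P2 ∧ v ∉ P3 ∧ v ∈ H)

lemma gem_bags [Fintype V] {P0 P1 P2 P3 H : Finset V} (hp : Part5 P0 P1 P2 P3 H)
    (c0 : Cn G P0) (c1 : Cn G P1) (c2 : Cn G P2) (c3 : Cn G P3) (cH : Cn G H)
    (t01 : Tc G P0 P1) (t12 : Tc G P1 P2) (t23 : Tc G P2 P3)
    (n02 : ¬ Tc G P0 P2) (n03 : ¬ Tc G P0 P3) (n13 : ¬ Tc G P1 P3)
    (h0 : Tc G H P0) (h1 : Tc G H P1) (h2 : Tc G H P2) (h3 : Tc G H P3) : HasC G gemT := by
  have n20 : ¬ Tc G P2 P0 := fun h => n02 h.symm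
  have n30 : ¬ Tc G P3 P0 := fun h => n03 h.symm
  have n31 : ¬ Tc G P3 P1 := fun h => n13 h.symm
  have t10 := t01.symm
  have t21 := t12.symm
  have t32 := t23.symm
  have k0 := h0.symm
  have k1 := h1.symm
  have k2 := h2.symm
  have k3 := h3.symm
  have d01 : Disjoint P0 P1 := Finset.disjoint_left.2 fun v a b => by have := hp v; clear * - this a b; grind (splits := 80)
  have d02 : Disjoint P0 P2 := Finset.disjoint_left.2 fun v a b => by have := hp v; clear * - this a b; grind (splits := 80)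
  have d03 : Disjoint P0 P3 := Finset.disjoint_left.2 fun v a b => by have := hp v; clear * - this a b; grind (splits := 80)
  have d04 : Disjoint P0 H := Finset.disjoint_left.2 fun v a b => by have := hp v; clear * - this a b; grind (splits := 80)
  have d12 : Disjoint P1 P2 := Finset.disjoint_left.2 fun v a b => by have := hp v; clear * - this a b; grind (splits := 80)
  have d13 : Disjoint P1 P3 := Finset.disjoint_left.2 fun v a b => by have := hp v; clear * - this a b; grind (splits := 80)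
  have d14 : Disjoint P1 H := Finset.disjoint_left.2 fun v a b => by have := hp v; clear * - this a b; grind (splits := 80)
  have d23 : Disjoint P2 P3 := Finset.disjoint_left.2 fun v a b => by have := hp v; clear * - this a b; grind (splits := 80)
  have d24 : Disjoint P2 H := Finset.disjoint_left.2 fun v a b => by have := hp v; clear * - this a b; grind (splits := 80)
  have d34 : Disjoint P3 H := Finset.disjoint_left.2 fun v a b => by have := hp v; clear * - this a b; grind (splits := 80)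
  have pq : PQ G (fun i j : Fin 5 => if gemT i j then 1 else 0) ![P0, P1, P2, P3, H] := by
    refine ⟨?_, ?_, ?_, ?_, ?_⟩
    · intro i; fin_cases i <;> assumption
    · intro i j hij
      fin_cases i <;> fin_cases j <;> first
        | exact absurd rfl hij
        | assumption
        | (apply Disjoint.symm; assumption)
    · intro v
      rcases hp v with h | h | h | h | h
      · exact ⟨0, h.1⟩
      · exact ⟨1, h.2.1⟩
      · exact ⟨2, h.2.2.1⟩
      · exact ⟨3, h.2.2.2.1⟩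
      · exact ⟨4, h.2.2.2.2⟩
    · intro i j hij hM
      fin_cases i <;> fin_cases j <;> first
        | exact absurd rfl hij
        | assumption
        | (exfalso; revert hM; decide)
    · intro i j hij hM
      fin_cases i <;> fin_cases j <;> first
        | exact absurd rfl hij
        | assumption
        | (exfalso; revert hM; decide)
  exact hasC_of_chk pq (c := id) (p := id) (r := id) (by decide)

/-- attaching a set all of whose components touch `U` -/
lemma Cn.attach {U S : Finset V} (hU : Cn G U) (h : ∀ x ∈ S, Tc G (cpt G S x) U) : Cn G (U ∪ S) := by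
  obtain ⟨u, hu⟩ := hU.1
  apply cn_of_cover (r := u) (mem_union_left _ hu)
  intro x hx
  rcases mem_union.1 hx with hx | hx
  · exact ⟨U, subset_union_left, hU, hu, hx⟩
  · exact ⟨U ∪ cpt G S x, union_subset_union_right cpt_subset, hU.union (cn_cpt hx) (Or.inl (h x hx).symm),
      mem_union_left _ hu, mem_union_right _ (mem_cpt_self hx)⟩

/-- removing a component of `D \ W0` from `D` leaves a connected set if `W0` is connected -/
lemma Cn.sdiff_cpt' {D W0 : Finset V} (hD : Cn G D) (hW : Cn G W0) (hWD : W0 ⊆ D) {x : V}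
    (hx : x ∈ D \ W0) : Cn G (D \ cpt G (D \ W0) x) := by
  obtain ⟨z, hz⟩ := hW.1
  have hWU : W0 ⊆ D \ cpt G (D \ W0) x := by
    intro w hw
    exact mem_sdiff.2 ⟨hWD hw, fun h => (mem_sdiff.1 (cpt_subset h)).2 hw⟩
  apply cn_of_cover (r := z) (hWU hz)
  intro y hy
  obtain ⟨hyD, hyK⟩ := mem_sdiff.1 hy
  by_cases hyW : y ∈ W0
  · exact ⟨W0, hWU, hW, hz, hyW⟩
  have hyE : y ∈ D \ W0 := mem_sdiff.2 ⟨hyD, hyW⟩
  have hsub : cpt G (D \ W0) y ⊆ D \ cpt G (D \ W0) x := by
    intro u hu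
    refine mem_sdiff.2 ⟨(mem_sdiff.1 (cpt_subset hu)).1, fun hu' => hyK ?_⟩
    have e1 := cpt_eq_of_mem hyE hu
    have e2 := cpt_eq_of_mem hx hu'
    rw [← e2, e1]; exact mem_cpt_self hyE
  obtain ⟨a, ha, b, hb, hab⟩ := hD.2 (cpt G (D \ W0) y) (cpt_subset.trans sdiff_subset)
    ⟨y, mem_cpt_self hyE⟩ ⟨z, mem_sdiff.2 ⟨hWD hz, fun h => (mem_sdiff.1 (cpt_subset h)).2 hz⟩⟩
  obtain ⟨hb1, hb2⟩ := mem_sdiff.1 hb
  have hbW : b ∈ W0 := by
    by_contra hbz
    exact not_adj_cpt hyE ha (mem_sdiff.2 ⟨hb1, hbz⟩) hb2 hab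
  exact ⟨W0 ∪ cpt G (D \ W0) y, union_subset hWU hsub,
    hW.union (cn_cpt hyE) (Or.inl ⟨b, hbW, a, ha, hab.symm⟩), mem_union_left _ hz,
    mem_union_right _ (mem_cpt_self hyE)⟩

/-- a component of `D \ W0` touches `W0` -/
lemma Cn.cpt_tc {D W0 : Finset V} (hD : Cn G D) (hWD : W0 ⊆ D) (hW : W0.Nonempty) {x : V}
    (hx : x ∈ D \ W0) : Tc G (cpt G (D \ W0) x) W0 := by
  obtain ⟨z, hz⟩ := hW
  obtain ⟨a, ha, b, hb, hab⟩ := hD.2 (cpt G (D \ W0) x) (cpt_subset.trans sdiff_subset)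
    ⟨x, mem_cpt_self hx⟩ ⟨z, mem_sdiff.2 ⟨hWD hz, fun h => (mem_sdiff.1 (cpt_subset h)).2 hz⟩⟩
  obtain ⟨hb1, hb2⟩ := mem_sdiff.1 hb
  refine ⟨a, ha, b, ?_, hab⟩
  by_contra hbz
  exact not_adj_cpt hx ha (mem_sdiff.2 ⟨hb1, hbz⟩) hb2 hab

/-- configuration: poles `U`, `W` touching; `Q` and `D` touch both poles, `D` and `Q` do not touch -/
structure Cfg [Fintype V] (G : SimpleGraph V) (U W Q D : Finset V) : Prop where
  cU : Cn G U
  cW : Cn G W
  cQ : Cn G Q
  cD : Cn G D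
  part : ∀ v, (v ∈ U ∧ v ∉ W ∧ v ∉ Q ∧ v ∉ D) ∨ (v ∉ U ∧ v ∈ W ∧ v ∉ Q ∧ v ∉ D) ∨
    (v ∉ U ∧ v ∉ W ∧ v ∈ Q ∧ v ∉ D) ∨ (v ∉ U ∧ v ∉ W ∧ v ∉ Q ∧ v ∈ D)
  tUW : Tc G U W
  tQU : Tc G Q U
  tQW : Tc G Q W
  tDU : Tc G D U
  tDW : Tc G D W
  nDQ : ¬ Tc G D Q

lemma Cfg.symm [Fintype V] {U W Q D : Finset V} (h : Cfg G U W Q D) : Cfg G W U Q D :=
  ⟨h.cW, h.cU, h.cQ, h.cD, fun v => by have := h.part v; clear * - this; grind (splits := 80), h.tUW.symm, h.tQW, h.tQU, h.tDW,
    h.tDU, h.nDQ⟩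

lemma Cfg.UD [Fintype V] {U W Q D : Finset V} (h : Cfg G U W Q D) {v : V} (hv : v ∈ U) : v ∉ D := by
  have := h.part v; clear * - this hv; grind (splits := 80)

lemma Cfg.WD [Fintype V] {U W Q D : Finset V} (h : Cfg G U W Q D) {v : V} (hv : v ∈ W) : v ∉ D := by
  have := h.part v; clear * - this hv; grind (splits := 80)

lemma Cfg.QD [Fintype V] {U W Q D : Finset V} (h : Cfg G U W Q D) {v : V} (hv : v ∈ Q) : v ∉ D := by
  have := h.part v; clear * - this hv; grind (splits := 80)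

lemma Cfg.out [Fintype V] {U W Q D : Finset V} (h : Cfg G U W Q D) {v : V} (hv : v ∉ D) :
    v ∈ U ∨ v ∈ W ∨ v ∈ Q := by
  have := h.part v; clear * - this hv; grind (splits := 80)

/-- splits of `D` -/
structure Split (G : SimpleGraph V) (D X Y : Finset V) : Prop where
  cX : Cn G X
  cY : Cn G Y
  u : X ∪ Y = D
  d : Disjoint X Y

lemma Split.symm {D X Y : Finset V} (h : Split G D X Y) : Split G D Y X :=
  ⟨h.cY, h.cX, by rw [union_comm]; exact h.u, h.d.symm⟩

lemma Split.left {D X Y : Finset V} (h : Split G D X Y) : X ⊆ D := by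
  rw [← h.u]; exact subset_union_left

lemma Split.right {D X Y : Finset V} (h : Split G D X Y) : Y ⊆ D := by
  rw [← h.u]; exact subset_union_right

lemma Split.tc {D X Y : Finset V} (h : Split G D X Y) (hD : Cn G D) : Tc G X Y :=
  hD.tc_of_cover h.u.symm h.d h.cX.1 h.cY.1

lemma Split.mem {D X Y : Finset V} (h : Split G D X Y) (v : V) :
    (v ∈ D ↔ v ∈ X ∨ v ∈ Y) ∧ ¬ (v ∈ X ∧ v ∈ Y) := by
  refine ⟨by rw [← h.u, mem_union], fun hv => (Finset.disjoint_left.1 h.d) hv.1 hv.2⟩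

/-- `(U | UW)` splits give a gem -/
lemma Cfg.gem1 [Fintype V] {U W Q D X Y : Finset V} (h : Cfg G U W Q D) (s : Split G D X Y)
    (h1 : Tc G X U) (h2 : ¬ Tc G X W) (h3 : Tc G Y U) (h4 : Tc G Y W) : HasC G gemT := by
  refine gem_bags (P0 := Q) (P1 := W) (P2 := Y) (P3 := X) (H := U) ?_ h.cQ h.cW s.cY s.cX h.cU
    h.tQW h4.symm (s.tc h.cD).symm ?_ ?_ (fun h' => h2 h'.symm) h.tQU.symm h.tUW h3.symm h1.symm
  · intro v
    have h1 := h.part v
    have h2 := s.mem v
    clear * - h1 h2; grind (splits := 80)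
  · exact fun h' => h.nDQ (h'.symm.mono s.right (Subset.refl _))
  · exact fun h' => h.nDQ (h'.symm.mono s.left (Subset.refl _))

/-- the conclusion of the second case -/
def Full (G : SimpleGraph V) (U W D : Finset V) : Prop :=
  (∀ x ∈ D, Tc G {x} U ∧ Tc G {x} W) ∧ P4Free G D

/-- key alternative: a `(U | W)` split, or `D` is complete to both and a cograph. -/
theorem Cfg.alt [Fintype V] {U W Q D : Finset V} (h : Cfg G U W Q D) (h2c : ∀ v, Cn G (univ.erase v))
    (hg : ¬ HasC G gemT) :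
    (∃ X Y, Split G D X Y ∧ Tc G X U ∧ ¬ Tc G X W ∧ ¬ Tc G Y U ∧ Tc G Y W) ∨ Full G U W D := by
  by_contra hcon
  push Not at hcon
  obtain ⟨hno, hnf⟩ := hcon
  -- live sets
  have tcD : ∀ (X Y : Finset V), Split G D X Y → ∀ S, Tc G D S → Tc G X S ∨ Tc G Y S := by
    intro X Y s S hS
    rw [← s.u] at hS
    exact Tc.union_left.1 hS
  have both : ∀ X Y, Split G D X Y → (Tc G X U ∨ Tc G X W) → (Tc G Y U ∨ Tc G Y W) →
      (Tc G X U ∧ Tc G X W) := by
    intro X Y s hX hY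
    have hU := tcD X Y s U h.tDU
    have hW := tcD X Y s W h.tDW
    by_contra hc
    by_cases a1 : Tc G X U
    · have a2 : ¬ Tc G X W := fun a2 => hc ⟨a1, a2⟩
      have a3 : Tc G Y W := hW.resolve_left a2
      by_cases a4 : Tc G Y U
      · exact hg (h.gem1 s a1 a2 a4 a3)
      · exact hno X Y s a1 a2 a4 a3
    · have a2 : Tc G X W := hX.resolve_left a1
      have a3 : Tc G Y U := hU.resolve_left a1
      by_cases a4 : Tc G Y W
      · exact hg (h.symm.gem1 s a2 a1 a4 a3)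
      · exact hno Y X s.symm a3 a4 a1 a2
  -- symmetric facts
  have both' : ∀ X Y, Split G D X Y → (Tc G X U ∨ Tc G X W) → (Tc G Y U ∨ Tc G Y W) →
      (Tc G X U ∧ Tc G X W) ∧ (Tc G Y U ∧ Tc G Y W) :=
    fun X Y s hX hY => ⟨both X Y s hX hY, both Y X s.symm hY hX⟩
  have live_mono : ∀ X Y : Finset V, X ⊆ Y → (Tc G X U ∨ Tc G X W) → (Tc G Y U ∨ Tc G Y W) :=
    fun X Y hs hX => hX.imp (fun t => t.mono hs (Subset.refl _)) (fun t => t.mono hs (Subset.refl _))
  -- Step 1: no dead vertices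
  have live : ∀ x ∈ D, Tc G {x} U ∨ Tc G {x} W := by
    by_contra hcon
    push Not at hcon
    obtain ⟨w0, hw0, hw1, hw2⟩ := hcon
    set N0 := D.filter (fun x => ¬ Tc G {x} U ∧ ¬ Tc G {x} W) with hN0
    have hw0N : w0 ∈ N0 := mem_filter.2 ⟨hw0, hw1, hw2⟩
    set W0 := cpt G N0 w0 with hW0
    have hW0c : Cn G W0 := cn_cpt hw0N
    have hW0N : W0 ⊆ N0 := cpt_subset
    have hW0D : W0 ⊆ D := hW0N.trans (filter_subset _ _)
    have deadU : ¬ Tc G W0 U := by
      rintro ⟨x, hx, y, hy, hxy⟩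
      exact (mem_filter.1 (hW0N hx)).2.1 ⟨x, by simp, y, hy, hxy⟩
    have deadW : ¬ Tc G W0 W := by
      rintro ⟨x, hx, y, hy, hxy⟩
      exact (mem_filter.1 (hW0N hx)).2.2 ⟨x, by simp, y, hy, hxy⟩
    -- neighbours of W0 in D are live
    have nbl : ∀ x ∈ W0, ∀ y ∈ D, y ∉ W0 → G.Adj x y → (Tc G {y} U ∨ Tc G {y} W) := by
      intro x hx y hy hyW hxy
      by_contra hc
      push Not at hc
      have : y ∈ N0 := mem_filter.2 ⟨hy, hc⟩
      exact not_adj_cpt hw0N hx this hyW hxy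
    have livecomp : ∀ y ∈ D \ W0, (Tc G (cpt G (D \ W0) y) U ∨ Tc G (cpt G (D \ W0) y) W) := by
      intro y hy
      obtain ⟨a, ha, b, hb, hab⟩ := h.cD.cpt_tc hW0D hW0c.1 hy
      obtain ⟨haD, haW⟩ := mem_sdiff.1 (cpt_subset ha)
      have := nbl b hb a haD haW hab.symm
      exact live_mono {a} _ (by simpa using ha) this
    -- gem construction
    have build : ∀ Y2 R : Finset V, (∀ v, (v ∈ D ↔ v ∈ W0 ∨ v ∈ Y2 ∨ v ∈ R) ∧ ¬ (v ∈ W0 ∧ v ∈ Y2) ∧
        ¬ (v ∈ W0 ∧ v ∈ R) ∧ ¬ (v ∈ Y2 ∧ v ∈ R)) → Cn G Y2 → Tc G Y2 U → Tc G Y2 W →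
        Tc G W0 Y2 → Tc G R W0 → (∀ x ∈ R, Tc G (cpt G R x) U) → False := by
      intro Y2 R hpart hY2 hYU hYW hWY hRW hR
      apply hg
      refine gem_bags (P0 := W0) (P1 := Y2) (P2 := W) (P3 := Q) (H := U ∪ R) ?_ hW0c hY2 h.cW h.cQ
        (h.cU.attach hR) hWY hYW h.tQW.symm deadW ?_ ?_ ?_ ?_ ?_ ?_
      · intro v
        have h1 := h.part v
        have h2 := hpart v
        simp only [mem_union]
        clear * - h1 h2; grind (splits := 80)
      · exact fun h' => h.nDQ (h'.mono hW0D (Subset.refl _))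
      · refine fun h' => h.nDQ (h'.mono (fun v hv => ((hpart v).1).2 (Or.inr (Or.inl hv))) (Subset.refl _))
      · exact hRW.mono subset_union_right (Subset.refl _)
      · exact hYU.symm.mono subset_union_left (Subset.refl _)
      · exact h.tUW.mono subset_union_left (Subset.refl _)
      · exact h.tQU.symm.mono subset_union_left (Subset.refl _)
    have hne : (D \ W0).Nonempty := by
      obtain ⟨x, hx, y, hy, hxy⟩ := h.tDU
      refine ⟨x, mem_sdiff.2 ⟨hx, fun hxW => deadU ⟨x, hxW, y, hy, hxy⟩⟩⟩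
    by_cases hconn : Cn G (D \ W0)
    · -- case (ii)
      obtain ⟨y1, hy1, w1, hw1', ha1⟩ := h.cD.tc_sdiff hW0D hW0c.1 hne |>.symm
      -- second neighbour
      obtain ⟨x2, hx2, y2, hy2, ha2⟩ := (h2c y1).2 W0 (fun v hv => mem_erase.2
        ⟨fun he => (mem_sdiff.1 hy1).2 (he ▸ hv), mem_univ _⟩) hW0c.1 (by
          obtain ⟨u, hu⟩ := h.cU.1
          refine ⟨u, mem_sdiff.2 ⟨mem_erase.2 ⟨?_, mem_univ _⟩, ?_⟩⟩
          · rintro rfl
            exact h.UD hu (mem_sdiff.1 hy1).1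
          · intro huW
            exact h.UD hu (hW0D huW))
      obtain ⟨hy2a, hy2b⟩ := mem_sdiff.1 hy2
      have hy21 : y2 ≠ y1 := (mem_erase.1 hy2a).1
      have hy2D : y2 ∈ D := by
        by_contra hc
        rcases h.out hc with h' | h' | h'
        · exact deadU ⟨x2, hx2, y2, h', ha2⟩
        · exact deadW ⟨x2, hx2, y2, h', ha2⟩
        · exact h.nDQ ⟨x2, hW0D hx2, y2, h', ha2⟩
      have hy2' : y2 ∈ D \ W0 := mem_sdiff.2 ⟨hy2D, hy2b⟩
      obtain ⟨Y1, Y2, s1, s2, hu, hd, c1, c2⟩ := hconn.extend (Cn.singleton y1) (Cn.singleton y2)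
        (by simpa using hy1) (by simpa using hy2') (by simpa using Ne.symm hy21)
      have m1 : y1 ∈ Y1 := s1 (by simp)
      have m2 : y2 ∈ Y2 := s2 (by simp)
      have live1 := nbl w1 hw1' y1 (mem_sdiff.1 hy1).1 (mem_sdiff.1 hy1).2 ha1.symm
      have live2 := nbl x2 hx2 y2 hy2D hy2b ha2
      have sub1 : Y1 ⊆ D \ W0 := by rw [← hu]; exact subset_union_left
      have sub2 : Y2 ⊆ D \ W0 := by rw [← hu]; exact subset_union_right
      have hpart : ∀ v, (v ∈ D ↔ v ∈ W0 ∨ v ∈ Y2 ∨ v ∈ Y1) ∧ ¬ (v ∈ W0 ∧ v ∈ Y2) ∧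
        ¬ (v ∈ W0 ∧ v ∈ Y1) ∧ ¬ (v ∈ Y2 ∧ v ∈ Y1) := by
        intro v
        have a1 : v ∈ Y1 ∪ Y2 ↔ v ∈ D \ W0 := by rw [hu]
        rw [mem_union, mem_sdiff] at a1
        have a2 : v ∈ W0 → v ∈ D := fun hv => hW0D hv
        have a3 : v ∈ Y1 → v ∉ Y2 := fun hv => (Finset.disjoint_left.1 hd) hv
        clear * - a1 a2 a3; grind (splits := 80)
      have tW1 : Tc G Y1 W0 := ⟨y1, m1, w1, hw1', ha1⟩
      have tW2 : Tc G Y2 W0 := ⟨y2, m2, x2, hx2, ha2.symm⟩
      have f1 := both Y1 (Y2 ∪ W0) ⟨c1, c2.union hW0c (Or.inl tW2), by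
        ext v; have := hpart v; simp only [mem_union]; clear * - this; grind (splits := 80), by
        rw [Finset.disjoint_left]; intro v hv hv'; have := hpart v; rw [mem_union] at hv'
        clear * - this hv hv'; grind (splits := 80)⟩
        (live_mono _ _ (by simpa using m1) live1)
        (live_mono _ _ (by simpa using Or.inl m2) live2)
      have f2 := both Y2 (Y1 ∪ W0) ⟨c2, c1.union hW0c (Or.inl tW1), by
        ext v; have := hpart v; simp only [mem_union]; clear * - this; grind (splits := 80), by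
        rw [Finset.disjoint_left]; intro v hv hv'; have := hpart v; rw [mem_union] at hv'
        clear * - this hv hv'; grind (splits := 80)⟩
        (live_mono _ _ (by simpa using m2) live2)
        (live_mono _ _ (by simpa using Or.inl m1) live1)
      refine build Y2 Y1 hpart c2 f2.1 f2.2 tW2.symm tW1 fun x hx => ?_
      rw [c1.cpt_eq hx]; exact f1.1
    · -- case (i)
      obtain ⟨y, hy⟩ := hne
      set Y2 := cpt G (D \ W0) y with hY2
      have hYc : Cn G Y2 := cn_cpt hy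
      have hYs : Y2 ⊆ D \ W0 := cpt_subset
      have exists_other : ∀ z ∈ D \ W0, ∃ z' ∈ D \ W0, z' ∉ cpt G (D \ W0) z := by
        intro z hz
        by_contra hcon
        push Not at hcon
        exact hconn (cn_of_cpt_eq hz (subset_antisymm cpt_subset hcon))
      have compfull : ∀ z ∈ D \ W0, Tc G (cpt G (D \ W0) z) U ∧ Tc G (cpt G (D \ W0) z) W := by
        intro z hz
        obtain ⟨z', hz', hz''⟩ := exists_other z hz
        refine both _ (D \ cpt G (D \ W0) z) ⟨cn_cpt hz, h.cD.sdiff_cpt' hW0c hW0D hz,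
          union_sdiff_of_subset (cpt_subset.trans sdiff_subset), disjoint_sdiff⟩ (livecomp z hz) ?_
        refine live_mono (cpt G (D \ W0) z') _ ?_ (livecomp z' hz')
        intro v hv
        refine mem_sdiff.2 ⟨(mem_sdiff.1 (cpt_subset hv)).1, fun hv' => hz'' ?_⟩
        have e1 := cpt_eq_of_mem hz' hv
        have e2 := cpt_eq_of_mem hz hv'
        rw [← e2, e1]; exact mem_cpt_self hz'
      have hR : ∀ x ∈ (D \ W0) \ Y2, Tc G (cpt G ((D \ W0) \ Y2) x) U := by
        intro x hx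
        obtain ⟨hx1, hx2⟩ := mem_sdiff.1 hx
        refine (compfull x hx1).1.mono ?_ (Subset.refl _)
        apply subset_cpt _ (cn_cpt hx1) (mem_cpt_self hx1)
        intro v hv
        refine mem_sdiff.2 ⟨cpt_subset hv, fun hv' => hx2 ?_⟩
        have e1 := cpt_eq_of_mem hx1 hv
        have e2 := cpt_eq_of_mem hy hv'
        rw [hY2, ← e2, e1]; exact mem_cpt_self hx1
      obtain ⟨z', hz', hz''⟩ := exists_other y hy
      refine build Y2 ((D \ W0) \ Y2) ?_ hYc (compfull y hy).1 (compfull y hy).2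
        (h.cD.cpt_tc hW0D hW0c.1 hy).symm ?_ hR
      · intro v
        have a1 : v ∈ W0 → v ∈ D := fun hv => hW0D hv
        have a2 : v ∈ Y2 → v ∈ D \ W0 := fun hv => hYs hv
        simp only [mem_sdiff] at a2 ⊢
        clear * - a1 a2; grind (splits := 80)
      · obtain ⟨a, ha, b, hb, hab⟩ := h.cD.cpt_tc hW0D hW0c.1 hz'
        refine ⟨a, mem_sdiff.2 ⟨cpt_subset ha, fun ha' => hz'' ?_⟩, b, hb, hab⟩
        have e1 := cpt_eq_of_mem hz' ha
        have e2 := cpt_eq_of_mem hy ha'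
        rw [← e2, e1]; exact mem_cpt_self hz'
  -- Step 2: every vertex touches both
  have step2 : ∀ (U W : Finset V), Cfg G U W Q D →
      (∀ X Y, Split G D X Y → (Tc G X U ∧ Tc G X W)) → ∀ x ∈ D, Tc G {x} W := by
    intro U W h both x hx
    by_contra hxW
    have hDx : (D.erase x).Nonempty := by
      obtain ⟨a, ha, b, hb, hab⟩ := h.tDW
      refine ⟨a, mem_erase.2 ⟨?_, ha⟩⟩
      rintro rfl
      exact hxW ⟨a, by simp, b, hb, hab⟩
    have eqe : D.erase x = D \ {x} := by ext v; simp [and_comm]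
    by_cases hconn : Cn G (D.erase x)
    · have := both {x} (D.erase x) ⟨Cn.singleton x, hconn, by
        rw [← Finset.insert_eq, insert_erase hx], by simp⟩
      exact hxW this.2
    · obtain ⟨y, hy⟩ := hDx
      rw [eqe] at hconn hy
      have hxD : ({x} : Finset V) ⊆ D := by simpa using hx
      set K2 := cpt G (D \ {x}) y with hK2
      have compfull : ∀ z ∈ D \ {x}, Tc G (cpt G (D \ {x}) z) U ∧ Tc G (cpt G (D \ {x}) z) W := by
        intro z hz
        exact both _ (D \ cpt G (D \ {x}) z) ⟨cn_cpt hz, h.cD.sdiff_cpt' (Cn.singleton x) hxD hz,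
          union_sdiff_of_subset (cpt_subset.trans sdiff_subset), disjoint_sdiff⟩
      have hother : ∃ z' ∈ D \ {x}, z' ∉ K2 := by
        by_contra hcon
        push Not at hcon
        exact hconn (cn_of_cpt_eq hy (subset_antisymm cpt_subset hcon))
      obtain ⟨z', hz', hz''⟩ := hother
      have hR : ∀ w ∈ (D \ {x}) \ K2, Tc G (cpt G ((D \ {x}) \ K2) w) U := by
        intro w hw
        obtain ⟨hx1, hx2⟩ := mem_sdiff.1 hw
        refine (compfull w hx1).1.mono ?_ (Subset.refl _)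
        apply subset_cpt _ (cn_cpt hx1) (mem_cpt_self hx1)
        intro v hv
        refine mem_sdiff.2 ⟨cpt_subset hv, fun hv' => hx2 ?_⟩
        have e1 := cpt_eq_of_mem hx1 hv
        have e2 := cpt_eq_of_mem hy hv'
        rw [hK2, ← e2, e1]; exact mem_cpt_self hx1
      apply hg
      refine gem_bags (P0 := Q) (P1 := W) (P2 := K2) (P3 := {x}) (H := U ∪ ((D \ {x}) \ K2)) ?_ h.cQ
        h.cW (cn_cpt hy) (Cn.singleton x) (h.cU.attach hR) h.tQW (compfull y hy).2.symm
        (h.cD.cpt_tc hxD (by simp) hy) ?_ ?_ (fun h' => hxW h'.symm) ?_ ?_ ?_ ?_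
      · intro v
        have h1 := h.part v
        have a1 : v ∈ K2 → v ∈ D \ {x} := fun hv => cpt_subset hv
        have a2 : v ∈ ({x} : Finset V) → v ∈ D := fun hv => hxD hv
        simp only [mem_sdiff, mem_union] at a1 a2 ⊢
        clear * - h1 a1 a2; grind (splits := 80)
      · exact fun h' => h.nDQ (h'.symm.mono (cpt_subset.trans sdiff_subset) (Subset.refl _))
      · exact fun h' => h.nDQ (h'.symm.mono hxD (Subset.refl _))
      · exact h.tQU.symm.mono subset_union_left (Subset.refl _)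
      · exact h.tUW.mono subset_union_left (Subset.refl _)
      · exact (compfull y hy).1.symm.mono subset_union_left (Subset.refl _)
      · obtain ⟨a, ha, b, hb, hab⟩ := h.cD.cpt_tc hxD (by simp) hz'
        refine ⟨a, mem_union_right _ (mem_sdiff.2 ⟨cpt_subset ha, fun ha' => hz'' ?_⟩), b, hb, hab⟩
        have e1 := cpt_eq_of_mem hz' ha
        have e2 := cpt_eq_of_mem hy ha'
        rw [hK2, ← e2, e1]; exact mem_cpt_self hz'
  have livesub : ∀ X : Finset V, X.Nonempty → X ⊆ D → (Tc G X U ∨ Tc G X W) := by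
    rintro X ⟨x, hx⟩ hX
    exact live_mono {x} X (by simpa using hx) (live x (hX hx))
  have all : ∀ X Y, Split G D X Y → (Tc G X U ∧ Tc G X W) := fun X Y s =>
    both X Y s (livesub X s.cX.1 s.left) (livesub Y s.cY.1 s.right)
  have allW : ∀ x ∈ D, Tc G {x} W := step2 U W h all
  have allU : ∀ x ∈ D, Tc G {x} U := step2 W U h.symm (fun X Y s => (all X Y s).symm)
  apply hnf
  refine ⟨fun x hx => ⟨allU x hx, allW x hx⟩, ?_⟩
  -- Step 3: no induced P4
  intro a ha b hb c hc d hd hac had hbd hab hbc hcd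
  by_contra hcon
  push Not at hcon
  obtain ⟨n1, n2, n3⟩ := hcon
  apply hg
  have sing : ∀ x y : V, ¬ G.Adj x y → ¬ Tc G {x} {y} := by
    rintro x y hxy ⟨p, hp, q, hq, hpq⟩
    rw [mem_singleton] at hp hq
    subst hp; subst hq; exact hxy hpq
  have sing' : ∀ x y : V, G.Adj x y → Tc G {x} {y} := fun x y h => ⟨x, by simp, y, by simp, h⟩
  have hH : Cn G ((U ∪ W ∪ Q) ∪ (D \ {a, b, c, d})) := by
    apply Cn.attach
    · exact (h.cU.union h.cW (Or.inl h.tUW)).union h.cQ
        (Or.inl (h.tQU.symm.mono subset_union_left (Subset.refl _)))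
    · intro x hx
      have hxD := (mem_sdiff.1 hx).1
      exact (allU x hxD).mono (by simpa using mem_cpt_self hx)
        (subset_union_left.trans subset_union_left)
  have hU' : ∀ x ∈ D, Tc G ((U ∪ W ∪ Q) ∪ (D \ {a, b, c, d})) {x} := fun x hx =>
    (allU x hx).symm.mono ((subset_union_left.trans subset_union_left).trans subset_union_left)
      (Subset.refl _)
  refine gem_bags (P0 := {a}) (P1 := {b}) (P2 := {c}) (P3 := {d}) ?_ (Cn.singleton a)
    (Cn.singleton b) (Cn.singleton c) (Cn.singleton d) hH (sing' _ _ hab) (sing' _ _ hbc)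
    (sing' _ _ hcd) (sing _ _ n1) (sing _ _ n2) (sing _ _ n3) (hU' a ha) (hU' b hb) (hU' c hc)
    (hU' d hd)
  intro v
  have hp := h.part v
  have e1 : v = a → v ∈ D := fun e => e ▸ ha
  have e2 : v = b → v ∈ D := fun e => e ▸ hb
  have e3 : v = c → v ∈ D := fun e => e ▸ hc
  have e4 : v = d → v ∈ D := fun e => e ▸ hd
  have e5 : v = a → v ≠ b := fun e e' => hab.ne (e ▸ e')
  have e6 : v = a → v ≠ c := fun e e' => hac (e ▸ e')
  have e7 : v = a → v ≠ d := fun e e' => had (e ▸ e')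
  have e8 : v = b → v ≠ c := fun e e' => hbc.ne (e ▸ e')
  have e9 : v = b → v ≠ d := fun e e' => hbd (e ▸ e')
  have e10 : v = c → v ≠ d := fun e e' => hcd.ne (e ▸ e')
  simp only [mem_union, mem_sdiff, mem_insert, mem_singleton]
  clear * - hp e1 e2 e3 e4 e5 e6 e7 e8 e9 e10
  grind (splits := 80)

end Pool.Agent.H175R2
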