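import Pool.Agent.H175R2.Gem1

/-! Gem-free graphs: path sides and triangle partitions of sides. -/

namespace Pool.Agent.H175R2

open Finset Classical

variable {V : Type} {G : SimpleGraph V}

lemma erase_eq_sdiff' {D : Finset V} {p : V} : D.erase p = D \ {p} := by
  ext v; simp [and_comm]

lemma tc_sing {x y : V} : Tc G {x} {y} ↔ G.Adj x y := by simp [Tc]

lemma tc_sing_left {x : V} {B : Finset V} : Tc G {x} B ↔ ∃ y ∈ B, G.Adj x y := by simp [Tc]

lemma tc_sing_right {x : V} {B : Finset V} : Tc G B {x} ↔ ∃ y ∈ B, G.Adj y x := by simp [Tc]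

lemma tc_exists_left {A B : Finset V} (h : Tc G A B) : ∃ x ∈ A, Tc G {x} B := by
  obtain ⟨x, hx, y, hy, hxy⟩ := h
  exact ⟨x, hx, x, by simp, y, hy, hxy⟩

lemma tc_of_mem {A B : Finset V} {x : V} (hx : x ∈ A) (h : Tc G {x} B) : Tc G A B :=
  h.mono (by simpa using hx) (Subset.refl _)

/-- two vertices of different components -/
lemma cpt_disj {S : Finset V} {x y z : V} (hx : x ∈ S) (hy : y ∈ S) (hxy : y ∉ cpt G S x)
    (hz : z ∈ cpt G S y) : z ∉ cpt G S x := by
  intro hz'
  apply hxy
  have e1 := cpt_eq_of_mem hy hz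
  have e2 := cpt_eq_of_mem hx hz'
  rw [← e2, e1]; exact mem_cpt_self hy

lemma split_erase {D : Finset V} {p : V} (hp : p ∈ D) (h : Cn G (D.erase p)) :
    Split G D {p} (D.erase p) :=
  ⟨Cn.singleton p, h, by rw [← Finset.insert_eq, insert_erase hp], by simp⟩

/-- the path case -/
theorem Cfg.path [Fintype V] {W Q : Finset V} (h2c : ∀ v, Cn G (univ.erase v))
    (hg : ¬ HasC G gemT) : ∀ n : ℕ, ∀ U D X Y : Finset V, D.card ≤ n → Cfg G U W Q D →
    Split G D X Y → Tc G X U → ¬ Tc G X W → ¬ Tc G Y U → Tc G Y W →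
    ∃ p ∈ D, (∀ x ∈ D, Tc G {x} U → x = p) ∧ (D.filter (fun y => G.Adj p y)).card ≤ 1 ∧
      ∀ x ∈ D, (D.filter (fun y => G.Adj x y)).card ≤ 2 := by
  intro n
  induction n with
  | zero =>
    intro U D X Y hn h
    have := card_pos.2 h.cD.1
    omega
  | succ n ih =>
    intro U D X Y hn h s t1 t2 t3 t4
    obtain ⟨p, hpX, hpU⟩ := tc_exists_left t1
    obtain ⟨y0, hy0⟩ := s.cY.1
    have hpD : p ∈ D := s.left hpX
    have hpY : p ∉ Y := fun hp => (Finset.disjoint_left.1 s.d) hpX hp
    have hpsub : ({p} : Finset V) ⊆ D := by simpa using hpD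
    have hYS : Y ⊆ D \ {p} := fun v hv => mem_sdiff.2 ⟨s.right hv, fun hv' => by
      rw [mem_singleton] at hv'; exact hpY (hv' ▸ hv)⟩
    have hy0S : y0 ∈ D \ {p} := hYS hy0
    have hYK : Y ⊆ cpt G (D \ {p}) y0 := subset_cpt hYS s.cY hy0
    have hS : Cn G (D \ {p}) := by
      apply cn_of_cpt_eq hy0S
      by_contra hne
      have : ∃ z ∈ D \ {p}, z ∉ cpt G (D \ {p}) y0 := by
        by_contra hcon
        push Not at hcon
        exact hne (subset_antisymm cpt_subset hcon)
      obtain ⟨z, hz, hz'⟩ := this
      have hK' : ∀ v ∈ cpt G (D \ {p}) z, v ∈ X := by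
        intro v hv
        have h1 : v ∉ Y := fun hvY => cpt_disj hy0S hz hz' hv (hYK hvY)
        have h2 : v ∈ D := (mem_sdiff.1 (cpt_subset hv)).1
        exact ((s.mem v).1.1 h2).resolve_right h1
      have tp : Tc G (cpt G (D \ {p}) z) {p} := h.cD.cpt_tc hpsub (by simp) hz
      have tU : Tc G (cpt G (D \ {p}) z) U := by
        obtain ⟨a, ha, b, hb, hab⟩ := (h2c p).2 (cpt G (D \ {p}) z) (fun v hv => mem_erase.2
          ⟨fun he => (mem_sdiff.1 (cpt_subset hv)).2 (by simp [he]), mem_univ _⟩)
          ⟨z, mem_cpt_self hz⟩ ⟨y0, mem_sdiff.2 ⟨mem_erase.2 ⟨fun he => hpY (he ▸ hy0), mem_univ _⟩,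
            fun hv => (Finset.disjoint_left.1 s.d) (hK' _ hv) hy0⟩⟩
        obtain ⟨hb1, hb2⟩ := mem_sdiff.1 hb
        have hbp : b ≠ p := (mem_erase.1 hb1).1
        have hbD : b ∉ D := fun hbD => not_adj_cpt hz ha (mem_sdiff.2 ⟨hbD, by simpa using hbp⟩) hb2 hab
        have haX := hK' a ha
        rcases h.out hbD with h' | h' | h'
        · exact ⟨a, ha, b, h', hab⟩
        · exact absurd ⟨a, haX, b, h', hab⟩ t2
        · exact absurd ⟨a, s.left haX, b, h', hab⟩ h.nDQ
      have hpK' : p ∉ cpt G (D \ {p}) z := fun hp => (mem_sdiff.1 (cpt_subset hp)).2 (by simp)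
      apply hg
      refine h.gem1 (X := cpt G (D \ {p}) z) (Y := D \ cpt G (D \ {p}) z) ⟨cn_cpt hz,
        h.cD.sdiff_cpt' (Cn.singleton p) hpsub hz,
        union_sdiff_of_subset (cpt_subset.trans sdiff_subset), disjoint_sdiff⟩ tU ?_ ?_ ?_
      · exact fun h' => t2 (h'.mono hK' (Subset.refl _))
      · exact tc_of_mem (mem_sdiff.2 ⟨hpD, hpK'⟩) hpU
      · exact t4.mono (fun v hv => mem_sdiff.2 ⟨s.right hv, fun hv' =>
          cpt_disj hy0S hz hz' hv' (hYK hv)⟩) (Subset.refl _)
    rw [← erase_eq_sdiff'] at hS hYS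
    have sp := split_erase hpD hS
    have hSU : ¬ Tc G (D.erase p) U := fun h' => hg (h.gem1 sp hpU
      (fun h'' => t2 (tc_of_mem hpX h'')) h' (t4.mono hYS (Subset.refl _)))
    have huniq : ∀ x ∈ D, Tc G {x} U → x = p := by
      intro x hx hxU
      by_contra hne
      exact hSU (tc_of_mem (mem_erase.2 ⟨hne, hx⟩) hxU)
    have cfg' : Cfg G (U ∪ {p}) W Q (D.erase p) := by
      refine ⟨h.cU.union (Cn.singleton p) (Or.inl hpU.symm), h.cW, h.cQ, hS, fun v => ?_, 
        h.tUW.mono subset_union_left (Subset.refl _), h.tQU.mono (Subset.refl _) subset_union_left,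
        h.tQW, ?_, t4.mono hYS (Subset.refl _), fun h' => h.nDQ (h'.mono (erase_subset _ _) (Subset.refl _))⟩
      · have h1 := h.part v
        have h2 : v = p → v ∈ D := fun e => e ▸ hpD
        simp only [mem_union, mem_singleton, mem_erase]
        clear * - h1 h2; grind (splits := 80)
      · exact (sp.tc h.cD).symm.mono (Subset.refl _) subset_union_right
    have hcardS : (D.erase p).card ≤ n := by rw [card_erase_of_mem hpD]; omega
    have hDfil : ∀ x, D.filter (fun y => G.Adj x y) ⊆ insert p ((D.erase p).filter (fun y => G.Adj x y)) := by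
      intro x y hy
      rw [mem_filter] at hy
      by_cases hyp : y = p
      · simp [hyp]
      · exact mem_insert_of_mem (mem_filter.2 ⟨mem_erase.2 ⟨hyp, hy.1⟩, hy.2⟩)
    have hDfil' : ∀ x, ¬ G.Adj x p → D.filter (fun y => G.Adj x y) ⊆ ((D.erase p).filter (fun y => G.Adj x y)) := by
      intro x hx y hy
      rw [mem_filter] at hy
      refine mem_filter.2 ⟨mem_erase.2 ⟨fun hyp => hx (hyp ▸ hy.2), hy.1⟩, hy.2⟩
    -- touching `U ∪ {p}` inside `D.erase p` means adjacent to `p`
    have hadj : ∀ x ∈ D.erase p, Tc G {x} (U ∪ {p}) → G.Adj x p := by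
      intro x hx h'
      rcases Tc.union_right.1 h' with h' | h'
      · exact absurd (tc_of_mem hx h') hSU
      · exact tc_sing.1 h'
    rcases cfg'.alt h2c hg with ⟨X', Y', s', a1, a2, a3, a4⟩ | hfull
    · obtain ⟨p2, hp2, b1, b2, b3⟩ := ih _ _ X' Y' hcardS cfg' s' a1 a2 a3 a4
      have hpp : ∀ x ∈ D.erase p, G.Adj x p → x = p2 := fun x hx hxp =>
        b1 x hx (Tc.union_right.2 (Or.inr (tc_sing.2 hxp)))
      refine ⟨p, hpD, huniq, ?_, ?_⟩
      · refine (card_le_card (hDfil' p (G.loopless.irrefl p))).trans ?_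
        have : (D.erase p).filter (fun y => G.Adj p y) ⊆ {p2} := by
          intro y hy
          rw [mem_filter] at hy
          simpa using hpp y hy.1 hy.2.symm
        exact (card_le_card this).trans (by simp)
      · intro x hx
        by_cases hxp : x = p
        · subst hxp
          refine (card_le_card (hDfil' x (G.loopless.irrefl x))).trans ?_
          have : (D.erase x).filter (fun y => G.Adj x y) ⊆ {p2} := by
            intro y hy
            rw [mem_filter] at hy
            simpa using hpp y hy.1 hy.2.symm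
          exact (card_le_card this).trans (by simp)
        · have hxS : x ∈ D.erase p := mem_erase.2 ⟨hxp, hx⟩
          by_cases hadjp : G.Adj x p
          · have := hpp x hxS hadjp
            subst this
            refine (card_le_card (hDfil x)).trans ((card_insert_le _ _).trans ?_)
            omega
          · exact (card_le_card (hDfil' x hadjp)).trans (b3 x hxS)
    · -- all of `D.erase p` is adjacent to `p` and touches `W`
      have hadjall : ∀ x ∈ D.erase p, G.Adj x p := fun x hx => hadj x hx (hfull.1 x hx).1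
      have hsingle : ∃ q, D.erase p = {q} := by
        obtain ⟨q, hq⟩ := hS.1
        refine ⟨q, ?_⟩
        by_contra hne
        obtain ⟨z, hz, hzq, hzc⟩ := hS.leaf_ne hq hne
        have s2 := split_erase hz hzc
        have hqz : q ∈ (D.erase p).erase z := mem_erase.2 ⟨Ne.symm hzq, hq⟩
        apply hg
        refine gem_bags (P0 := Q) (P1 := U) (P2 := {p}) (P3 := {z}) (H := W ∪ (D.erase p).erase z) ?_
          h.cQ h.cU (Cn.singleton p) (Cn.singleton z)
          (h.cW.union hzc (Or.inl (tc_of_mem hqz (hfull.1 q hq).2).symm)) h.tQU hpU.symm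
          (tc_sing.2 (hadjall z hz).symm) ?_ ?_ ?_ ?_ ?_ ?_ ?_
        · intro v
          have h1 := h.part v
          have h2 : v = p → v ∈ D := fun e => e ▸ hpD
          have h3 : v = z → v ∈ D := fun e => e ▸ mem_of_mem_erase hz
          have h4 : v = z → v ≠ p := fun e => e ▸ (mem_erase.1 hz).1
          simp only [mem_union, mem_singleton, mem_erase]
          clear * - h1 h2 h3 h4; grind (splits := 80)
        · exact fun h' => h.nDQ (h'.symm.mono hpsub (Subset.refl _))
        · exact fun h' => h.nDQ (h'.symm.mono (by simpa using mem_of_mem_erase hz) (Subset.refl _))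
        · exact fun h' => hSU (tc_of_mem hz h'.symm)
        · exact h.tQW.symm.mono subset_union_left (Subset.refl _)
        · exact h.tUW.symm.mono subset_union_left (Subset.refl _)
        · exact (tc_sing_right.2 ⟨q, mem_union_right _ hqz, hadjall q hq⟩)
        · exact (s2.tc hS).symm.mono subset_union_right (Subset.refl _)
      obtain ⟨q, hq⟩ := hsingle
      refine ⟨p, hpD, huniq, ?_, ?_⟩
      · refine (card_le_card (hDfil' p (G.loopless.irrefl p))).trans ?_
        rw [hq]; exact (card_filter_le _ _).trans (by simp)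
      · intro x hx
        refine (card_le_card (hDfil x)).trans ((card_insert_le _ _).trans ?_)
        rw [hq]
        have := card_filter_le ({q} : Finset V) (fun y => G.Adj x y)
        simp at this ⊢
        omega

/-- Claim (I) -/
theorem Cfg.claim [Fintype V] {U W Q D : Finset V} (h : Cfg G U W Q D)
    (h2c : ∀ v, Cn G (univ.erase v)) (hg : ¬ HasC G gemT) :
    (∀ x ∈ D, (D.filter (fun y => G.Adj x y)).card ≤ 2) ∨ P4Free G D := by
  rcases h.alt h2c hg with ⟨X, Y, s, a1, a2, a3, a4⟩ | hfull
  · obtain ⟨p, _, _, _, h3⟩ := Cfg.path h2c hg D.card U D X Y le_rfl h s a1 a2 a3 a4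
    exact Or.inl h3
  · exact Or.inr hfull.2

/-- a side of a 2-separation -/
structure Side [Fintype V] (G : SimpleGraph V) (D : Finset V) (u v : V) : Prop where
  cD : Cn G D
  hu : u ∉ D
  hv : v ∉ D
  huv : u ≠ v
  tu : Tc G D {u}
  tv : Tc G D {v}
  nb : ∀ x ∈ D, ∀ y, y ∉ D → G.Adj x y → y = u ∨ y = v

lemma Side.symm [Fintype V] {D : Finset V} {u v : V} (h : Side G D u v) : Side G D v u :=
  ⟨h.cD, h.hv, h.hu, h.huv.symm, h.tv, h.tu, fun x hx y hy hxy => (h.nb x hx y hy hxy).symm⟩

/-- triangle partition of `D ∪ {u, v}` -/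
structure Tri [Fintype V] (G : SimpleGraph V) (D : Finset V) (u v : V) (U W Q : Finset V) : Prop where
  cU : Cn G U
  cW : Cn G W
  cQ : Cn G Q
  hu : u ∈ U
  hv : v ∈ W
  tUW : Tc G U W
  tQU : Tc G Q U
  tQW : Tc G Q W
  part : ∀ x, ((x ∈ D ∨ x = u ∨ x = v) ↔ (x ∈ U ∨ x ∈ W ∨ x ∈ Q)) ∧ ¬ (x ∈ U ∧ x ∈ W) ∧
    ¬ (x ∈ U ∧ x ∈ Q) ∧ ¬ (x ∈ W ∧ x ∈ Q)

/-- path side -/
def PathSide [Fintype V] (G : SimpleGraph V) (D : Finset V) : Prop :=
  ∀ x ∈ D, (univ.filter (fun y => G.Adj x y)).card ≤ 2

theorem Side.dich [Fintype V] (h2c : ∀ v, Cn G (univ.erase v)) : ∀ n : ℕ, ∀ (D : Finset V) (u v : V),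
    D.card ≤ n → Side G D u v →
    (PathSide G D ∧ (D.filter (fun y => G.Adj u y)).card ≤ 1) ∨ ∃ U W Q, Tri G D u v U W Q := by
  intro n
  induction n with
  | zero =>
    intro D u v hn h
    have := card_pos.2 h.cD.1
    omega
  | succ n ih =>
    intro D u v hn h
    by_cases hA : 2 ≤ (D.filter (fun y => G.Adj u y)).card
    · right
      obtain ⟨p1, hp1, p2, hp2, hne⟩ := Finset.one_lt_card.1 hA
      rw [mem_filter] at hp1 hp2
      obtain ⟨E1, E2, s1, s2, hu, hd, c1, c2⟩ := h.cD.extend (Cn.singleton p1) (Cn.singleton p2)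
        (by simpa using hp1.1) (by simpa using hp2.1) (by simpa using hne)
      have m1 : p1 ∈ E1 := s1 (by simp)
      have m2 : p2 ∈ E2 := s2 (by simp)
      have sp : Split G D E1 E2 := ⟨c1, c2, hu, hd⟩
      have tri : ∀ E1 E2 : Finset V, Split G D E1 E2 → Tc G E1 {u} → Tc G E2 {u} → Tc G E1 {v} →
          Tri G D u v {u} ({v} ∪ E1) E2 := by
        intro E1 E2 sp t1 t2 t3
        refine ⟨Cn.singleton u, (Cn.singleton v).union sp.cX (Or.inl t3.symm), sp.cY, by simp, by simp,
          t1.symm.mono (Subset.refl _) subset_union_right, t2,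
          (sp.tc h.cD).symm.mono (Subset.refl _) subset_union_right, fun x => ?_⟩
        have h1 := sp.mem x
        have h2 : x = u → x ∉ D := fun e => e ▸ h.hu
        have h3 : x = v → x ∉ D := fun e => e ▸ h.hv
        have h4 : x = u → x ≠ v := fun e => e ▸ h.huv
        simp only [mem_union, mem_singleton]
        clear * - h1 h2 h3 h4; grind (splits := 80)
      have t1 : Tc G E1 {u} := tc_sing_right.2 ⟨p1, m1, hp1.2.symm⟩
      have t2 : Tc G E2 {u} := tc_sing_right.2 ⟨p2, m2, hp2.2.symm⟩
      have hv := h.tv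
      rw [← hu] at hv
      rcases Tc.union_left.1 hv with t3 | t3
      · exact ⟨_, _, _, tri E1 E2 sp t1 t2 t3⟩
      · exact ⟨_, _, _, tri E2 E1 sp.symm t2 t1 t3⟩
    · obtain ⟨p, hpD, hpu⟩ := tc_sing_right.1 h.tu
      have huniq : ∀ x ∈ D, G.Adj u x → x = p := by
        intro x hx hux
        by_contra hne
        apply hA
        exact Finset.one_lt_card.2 ⟨x, mem_filter.2 ⟨hx, hux⟩, p, mem_filter.2 ⟨hpD, hpu.symm⟩, hne⟩
      have hA1 : (D.filter (fun y => G.Adj u y)).card ≤ 1 := by omega
      have hpsub : ({p} : Finset V) ⊆ D := by simpa using hpD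
      by_cases hD1 : D = {p}
      · left
        refine ⟨?_, hA1⟩
        intro x hx
        rw [hD1, mem_singleton] at hx
        subst hx
        have : univ.filter (fun y => G.Adj x y) ⊆ {u, v} := by
          intro y hy
          rw [mem_filter] at hy
          have hyD : y ∉ D := by
            rw [hD1, mem_singleton]
            exact hy.2.ne'
          have := h.nb x (by rw [hD1]; simp) y hyD hy.2
          simpa using this
        exact (card_le_card this).trans card_le_two
      · -- components of `D \ {p}` touch `p` and `v`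
        have hSne : (D \ {p}).Nonempty := by
          rw [← erase_eq_sdiff']
          by_contra hcon
          rw [not_nonempty_iff_eq_empty, erase_eq_empty_iff] at hcon
          rcases hcon with h1 | h1
          · rw [h1] at hpD; simp at hpD
          · exact hD1 h1
        have tv : ∀ z ∈ D \ {p}, Tc G (cpt G (D \ {p}) z) {v} := by
          intro z hz
          obtain ⟨a, ha, b, hb, hab⟩ := (h2c p).2 (cpt G (D \ {p}) z) (fun v hv => mem_erase.2
            ⟨fun he => (mem_sdiff.1 (cpt_subset hv)).2 (by simp [he]), mem_univ _⟩)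
            ⟨z, mem_cpt_self hz⟩ ⟨u, mem_sdiff.2 ⟨mem_erase.2 ⟨fun he => h.hu (he ▸ hpD), mem_univ _⟩,
              fun hv => h.hu (mem_sdiff.1 (cpt_subset hv)).1⟩⟩
          obtain ⟨hb1, hb2⟩ := mem_sdiff.1 hb
          have hbp : b ≠ p := (mem_erase.1 hb1).1
          have hbD : b ∉ D := fun hbD => not_adj_cpt hz ha (mem_sdiff.2 ⟨hbD, by simpa using hbp⟩) hb2 hab
          obtain ⟨haD, hap⟩ := mem_sdiff.1 (cpt_subset ha)
          rcases h.nb a haD b hbD hab with h1 | h1
          · subst h1
            exact absurd (by simpa using huniq a haD hab.symm) hap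
          · subst h1
            exact tc_sing_right.2 ⟨a, ha, hab⟩
        have tp : ∀ z ∈ D \ {p}, Tc G (cpt G (D \ {p}) z) {p} := fun z hz =>
          h.cD.cpt_tc hpsub (by simp) hz
        have hup : Cn G {u, p} := by
          have := (Cn.singleton (G := G) u).union (Cn.singleton p) (Or.inl (tc_sing.2 hpu.symm))
          exact this
        by_cases hS : Cn G (D \ {p})
        · obtain ⟨z0, hz0⟩ := hSne
          have tvS : Tc G (D \ {p}) {v} := by have := tv z0 hz0; rwa [hS.cpt_eq hz0] at this
          have tpS : Tc G (D \ {p}) {p} := by have := tp z0 hz0; rwa [hS.cpt_eq hz0] at this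
          by_cases hpv : G.Adj p v
          · right
            refine ⟨{u, p}, {v}, D \ {p}, hup, Cn.singleton v, hS, by simp, by simp,
              tc_sing_right.2 ⟨p, by simp, hpv⟩, tpS.mono (Subset.refl _) (by simp), tvS, fun x => ?_⟩
            have h2 : x = u → x ∉ D := fun e => e ▸ h.hu
            have h3 : x = v → x ∉ D := fun e => e ▸ h.hv
            have h4 : x = u → x ≠ v := fun e => e ▸ h.huv
            have h5 : x = p → x ∈ D := fun e => e ▸ hpD
            simp only [mem_insert, mem_sdiff, mem_singleton]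
            clear * - h2 h3 h4 h5; grind (splits := 80)
          · have side' : Side G (D \ {p}) p v := by
              refine ⟨hS, by simp, fun hv => h.hv (mem_sdiff.1 hv).1, fun he => h.hv (he ▸ hpD), tpS, tvS, ?_⟩
              intro x hx y hy hxy
              obtain ⟨hxD, hxp⟩ := mem_sdiff.1 hx
              by_cases hyD : y ∈ D
              · left
                by_contra hne
                exact hy (mem_sdiff.2 ⟨hyD, by simpa using hne⟩)
              · rcases h.nb x hxD y hyD hxy with h1 | h1
                · subst h1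
                  exact absurd (by simpa using huniq x hxD hxy.symm) hxp
                · right; exact h1
            have hcard : (D \ {p}).card ≤ n := by
              rw [← erase_eq_sdiff', card_erase_of_mem hpD]; omega
            rcases ih _ p v hcard side' with ⟨h1, h2⟩ | ⟨U, W, Q, ht⟩
            · left
              refine ⟨?_, hA1⟩
              intro x hx
              by_cases hxp : x = p
              · subst hxp
                have : univ.filter (fun y => G.Adj x y) ⊆ insert u ((D \ {x}).filter (fun y => G.Adj x y)) := by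
                  intro y hy
                  rw [mem_filter] at hy
                  by_cases hyD : y ∈ D
                  · refine mem_insert_of_mem (mem_filter.2 ⟨mem_sdiff.2 ⟨hyD, ?_⟩, hy.2⟩)
                    simpa using hy.2.ne'
                  · rcases h.nb x hx y hyD hy.2 with h3 | h3
                    · simp [h3]
                    · subst h3; exact absurd hy.2 hpv
                refine (card_le_card this).trans ((card_insert_le _ _).trans ?_)
                omega
              · exact h1 x (mem_sdiff.2 ⟨hx, by simpa using hxp⟩)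
            · right
              refine ⟨U ∪ {u}, W, Q, ht.cU.union (Cn.singleton u) (Or.inl (tc_sing_right.2 ⟨p, ht.hu, hpu⟩)),
                ht.cW, ht.cQ, by simp, ht.hv, ht.tUW.mono subset_union_left (Subset.refl _),
                ht.tQU.mono (Subset.refl _) subset_union_left, ht.tQW, fun x => ?_⟩
              have h1 := ht.part x
              have h2 : x = u → x ∉ D := fun e => e ▸ h.hu
              have h3 : x = v → x ∉ D := fun e => e ▸ h.hv
              have h4 : x = u → x ≠ v := fun e => e ▸ h.huv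
              have h5 : x = p → x ∈ D := fun e => e ▸ hpD
              simp only [mem_union, mem_sdiff, mem_singleton] at h1 ⊢
              clear * - h1 h2 h3 h4 h5; grind (splits := 80)
        · right
          obtain ⟨z, hz⟩ := hSne
          have : ∃ z' ∈ D \ {p}, z' ∉ cpt G (D \ {p}) z := by
            by_contra hcon
            push Not at hcon
            exact hS (cn_of_cpt_eq hz (subset_antisymm cpt_subset hcon))
          obtain ⟨z', hz', hz''⟩ := this
          have hatt : ∀ w ∈ (D \ {p}) \ cpt G (D \ {p}) z,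
              Tc G (cpt G ((D \ {p}) \ cpt G (D \ {p}) z) w) {v} := by
            intro w hw
            obtain ⟨hw1, hw2⟩ := mem_sdiff.1 hw
            refine (tv w hw1).mono ?_ (Subset.refl _)
            apply subset_cpt _ (cn_cpt hw1) (mem_cpt_self hw1)
            intro y hy
            exact mem_sdiff.2 ⟨cpt_subset hy, cpt_disj hz hw1 hw2 hy⟩
          refine ⟨{u, p}, {v} ∪ ((D \ {p}) \ cpt G (D \ {p}) z), cpt G (D \ {p}) z, hup,
            (Cn.singleton v).attach hatt, cn_cpt hz, by simp, by simp, ?_, (tp z hz).mono (Subset.refl _) (by simp),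
            (tv z hz).mono (Subset.refl _) subset_union_left, fun x => ?_⟩
          · obtain ⟨a, ha, hap⟩ := tc_sing_right.1 (tp z' hz')
            exact ⟨p, by simp, a, mem_union_right _ (mem_sdiff.2 ⟨cpt_subset ha, cpt_disj hz hz' hz'' ha⟩), hap.symm⟩
          · have h1 : x ∈ cpt G (D \ {p}) z → x ∈ D \ {p} := fun hx => cpt_subset hx
            have h2 : x = u → x ∉ D := fun e => e ▸ h.hu
            have h3 : x = v → x ∉ D := fun e => e ▸ h.hv
            have h4 : x = u → x ≠ v := fun e => e ▸ h.huv
            have h5 : x = p → x ∈ D := fun e => e ▸ hpD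
            simp only [mem_insert, mem_union, mem_sdiff, mem_singleton] at h1 ⊢
            clear * - h1 h2 h3 h4 h5; grind (splits := 80)

end Pool.Agent.H175R2
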