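import Pool.Agent.H175R2.Gem2

/-! Gem-free 2-connected graphs with a 2-cut are tame. -/

namespace Pool.Agent.H175R2

open Finset Classical

variable {V : Type} {G : SimpleGraph V}

lemma side_of_cpt [Fintype V] (h2 : TwoConn G) {u v : V} (huv : u ≠ v) {x : V}
    (hx : x ∈ (univ : Finset V) \ {u, v}) : Side G (cpt G (univ \ {u, v}) x) u v := by
  have aux : ∀ u v : V, u ≠ v → ∀ x ∈ (univ : Finset V) \ {u, v}, Tc G (cpt G (univ \ {u, v}) x) {u} := by
    intro u v huv x hx
    obtain ⟨a, ha, b, hb, hab⟩ := (h2.del v).2 (cpt G (univ \ {u, v}) x) (fun y hy => mem_erase.2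
      ⟨fun he => (mem_sdiff.1 (cpt_subset hy)).2 (by simp [he]), mem_univ _⟩)
      ⟨x, mem_cpt_self hx⟩ ⟨u, mem_sdiff.2 ⟨mem_erase.2 ⟨huv, mem_univ _⟩,
        fun hy => (mem_sdiff.1 (cpt_subset hy)).2 (by simp)⟩⟩
    obtain ⟨hb1, hb2⟩ := mem_sdiff.1 hb
    have hbv : b ≠ v := (mem_erase.1 hb1).1
    by_cases hbu : b = u
    · subst hbu; exact tc_sing_right.2 ⟨a, ha, hab⟩
    · exfalso
      exact not_adj_cpt hx ha (mem_sdiff.2 ⟨mem_univ _, by simp [hbu, hbv]⟩) hb2 hab
  refine ⟨cn_cpt hx, fun h => (mem_sdiff.1 (cpt_subset h)).2 (by simp),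
    fun h => (mem_sdiff.1 (cpt_subset h)).2 (by simp), huv, aux u v huv x hx, ?_, ?_⟩
  · have hx' : x ∈ (univ : Finset V) \ {v, u} := by rw [pair_comm]; exact hx
    have := aux v u huv.symm x hx'
    rw [pair_comm] at this; exact this
  · intro a ha b hb hab
    by_contra hc
    push Not at hc
    exact not_adj_cpt hx ha (mem_sdiff.2 ⟨mem_univ _, by simp [hc.1, hc.2]⟩) hb hab

lemma regions_of {R : Finset V} (h : ∀ x ∈ R, (∀ y ∈ cpt G R x, ((cpt G R x).filter (fun z => G.Adj y z)).card ≤ 2)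
    ∨ P4Free G (cpt G R x)) : Regions G R := by
  intro x hx
  rcases h x hx with h1 | h1
  · left
    intro y hy
    refine (card_le_card ?_).trans (h1 y hy)
    intro z hz
    rw [mem_filter] at hz ⊢
    refine ⟨?_, hz.2⟩
    by_contra hz'
    exact not_adj_cpt hx hy hz.1 hz' hz.2
  · exact Or.inr h1

/-- cuts whose poles touch outside two given components -/
lemma gem_cut1 [Fintype V] (h2 : TwoConn G) (hg : ¬ HasC G gemT) {u v : V} (huv : u ≠ v)
    (hc : ∀ x ∈ (univ : Finset V) \ {u, v}, ∃ y ∈ (univ : Finset V) \ {u, v},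
      y ∉ cpt G (univ \ {u, v}) x ∧ (G.Adj u v ∨ ∃ z ∈ (univ : Finset V) \ {u, v},
        z ∉ cpt G (univ \ {u, v}) x ∧ z ∉ cpt G (univ \ {u, v}) y)) : Tame G 2 := by
  refine ⟨{u, v}, card_le_two, regions_of fun x hx => ?_⟩
  obtain ⟨y, hy, hyx, hor⟩ := hc x hx
  set R := (univ : Finset V) \ {u, v} with hR
  have sD := side_of_cpt h2 huv hx
  have sQ := side_of_cpt h2 huv hy
  have hatt : ∀ w ∈ (R \ cpt G R x) \ cpt G R y, Tc G (cpt G ((R \ cpt G R x) \ cpt G R y) w) {u} := by
    intro w hw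
    obtain ⟨hw1, hw2⟩ := mem_sdiff.1 hw
    obtain ⟨hw0, hw1⟩ := mem_sdiff.1 hw1
    refine (side_of_cpt h2 huv hw0).tu.mono ?_ (Subset.refl _)
    apply subset_cpt _ (cn_cpt hw0) (mem_cpt_self hw0)
    intro z hz
    exact mem_sdiff.2 ⟨mem_sdiff.2 ⟨cpt_subset hz, cpt_disj hx hw0 hw1 hz⟩, cpt_disj hy hw0 hw2 hz⟩
  have cfg : Cfg G ({u} ∪ ((R \ cpt G R x) \ cpt G R y)) {v} (cpt G R y) (cpt G R x) := by
    refine ⟨(Cn.singleton u).attach hatt, Cn.singleton v, cn_cpt hy, cn_cpt hx, fun w => ?_, ?_,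
      sQ.tu.mono (Subset.refl _) subset_union_left, sQ.tv, sD.tu.mono (Subset.refl _) subset_union_left,
      sD.tv, ?_⟩
    · have h1 : w ∈ cpt G R x → w ∈ R := fun h => cpt_subset h
      have h2 : w ∈ cpt G R y → w ∈ R := fun h => cpt_subset h
      have h3 : w ∈ cpt G R y → w ∉ cpt G R x := fun h => cpt_disj hx hy hyx h
      have h4 : w = u → w ≠ v := fun e => e ▸ huv
      have h5 : w ∈ R ↔ ¬ (w = u ∨ w = v) := by rw [hR]; simp
      simp only [mem_union, mem_sdiff, mem_singleton]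
      clear * - h1 h2 h3 h4 h5; grind (splits := 80)
    · rcases hor with h | ⟨z, hz, hz1, hz2⟩
      · exact ⟨u, by simp, v, by simp, h⟩
      · refine (side_of_cpt h2 huv hz).tv.mono ?_ (Subset.refl _)
        intro w hw
        exact mem_union_right _ (mem_sdiff.2 ⟨mem_sdiff.2 ⟨cpt_subset hw, cpt_disj hx hz hz1 hw⟩,
          cpt_disj hy hz hz2 hw⟩)
    · rintro ⟨a, ha, b, hb, hab⟩
      exact not_adj_cpt hx ha (cpt_subset hb) (cpt_disj hx hy hyx hb) hab
  exact cfg.claim h2.del hg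

/-- two sides, the second one has a triangle partition -/
lemma cfg_of_tri [Fintype V] {D D' U W Q : Finset V} {u v : V} (hD : Side G D u v)
    (part : ∀ z, (z ∈ D ∨ z ∈ D' ∨ z = u ∨ z = v) ∧ ¬ (z ∈ D ∧ z ∈ D')) (hn : ¬ Tc G D D')
    (hu' : u ∉ D') (hv' : v ∉ D')
    (ht : Tri G D' u v U W Q) : Cfg G U W Q D := by
  have hQ : Q ⊆ D' := by
    intro z hz
    have h1 := ht.part z
    have h2 := ht.part u
    have h3 := ht.part v
    have h4 := ht.hu
    have h5 := ht.hv
    have h6 : z = u → u ∈ Q := fun e => e ▸ hz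
    have h7 : z = v → v ∈ Q := fun e => e ▸ hz
    clear * - h1 h2 h3 h4 h5 h6 h7 hz; grind (splits := 80)
  refine ⟨ht.cU, ht.cW, ht.cQ, hD.cD, fun z => ?_, ht.tUW, ht.tQU, ht.tQW,
    hD.tu.mono (Subset.refl _) (by simpa using ht.hu), hD.tv.mono (Subset.refl _) (by simpa using ht.hv),
    fun h => hn (h.mono (Subset.refl _) hQ)⟩
  have h1 := ht.part z
  have h2 := part z
  have h3 : z = u → z ∉ D := fun e => e ▸ hD.hu
  have h4 : z = v → z ∉ D := fun e => e ▸ hD.hv
  clear * - h1 h2 h3 h4; grind (splits := 80)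

/-- the thin case -/
theorem gem_thin [Fintype V] (h2 : TwoConn G) (hg : ¬ HasC G gemT)
    (thin : ∀ u v x : V, u ≠ v → x ∈ (univ : Finset V) \ {u, v} →
      cpt G (univ \ {u, v}) x ≠ univ \ {u, v} → ¬ G.Adj u v ∧
        Cn G ((univ \ {u, v}) \ cpt G (univ \ {u, v}) x) ∧
        (PathSide G (cpt G (univ \ {u, v}) x) ∨ PathSide G ((univ \ {u, v}) \ cpt G (univ \ {u, v}) x)))
    (hcut : ∃ u v x : V, u ≠ v ∧ x ∈ (univ : Finset V) \ {u, v} ∧
      cpt G (univ \ {u, v}) x ≠ univ \ {u, v}) : Tame G 2 := by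
  set L := (univ : Finset V).filter (fun x => (univ.filter (fun y => G.Adj x y)).card ≤ 2) with hL
  by_cases hall : ∀ y, y ∈ L
  · refine ⟨∅, by simp, fun x hx => Or.inl fun y hy => ?_⟩
    have := hall y
    rw [hL, mem_filter] at this
    simpa using this.2
  push Not at hall
  obtain ⟨y0, hy0⟩ := hall
  -- a vertex of degree at most two
  obtain ⟨x0, hx0⟩ : ∃ x0, x0 ∈ L := by
    obtain ⟨u, v, x, huv, hx, hne⟩ := hcut
    obtain ⟨_, hc, hp | hp⟩ := thin u v x huv hx hne
    · exact ⟨x, by rw [hL, mem_filter]; exact ⟨mem_univ _, hp x (mem_cpt_self hx)⟩⟩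
    · obtain ⟨z, hz⟩ := hc.1
      exact ⟨z, by rw [hL, mem_filter]; exact ⟨mem_univ _, hp z hz⟩⟩
  set P := cpt G L x0 with hP
  have hPc : Cn G P := cn_cpt hx0
  have hPL : P ⊆ L := cpt_subset
  have hPdeg : ∀ x ∈ P, (univ.filter (fun y => G.Adj x y)).card ≤ 2 := fun x hx =>
    (mem_filter.1 (hPL hx)).2
  have hsum := edges_le_two' (subset_univ P) hPdeg P.card P (Subset.refl _) le_rfl hPc
  have hnL : ∀ x ∈ P, ∀ y, y ∉ P → G.Adj x y → y ∉ L := fun x hx y hy hxy hyL =>
    not_adj_cpt hx0 hx hyL hy hxy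
  have hy0P : y0 ∉ P := fun h => hy0 (hPL h)
  -- first outside neighbour
  obtain ⟨a1, ha1, u, hu, hau⟩ := h2.conn.2 P (subset_univ _) hPc.1 ⟨y0, by simp [hy0P]⟩
  have huP : u ∉ P := (mem_sdiff.1 hu).2
  have huL := hnL a1 ha1 u huP hau
  have hdegu : 3 ≤ (univ.filter (fun y => G.Adj u y)).card := by
    rw [hL, mem_filter] at huL
    have : ¬ (univ.filter (fun y => G.Adj u y)).card ≤ 2 := fun h => huL ⟨mem_univ _, h⟩
    omega
  -- second one
  have hne : (univ.erase u \ P).Nonempty := by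
    by_contra hcon
    rw [not_nonempty_iff_eq_empty, sdiff_eq_empty_iff_subset] at hcon
    have : (univ.filter (fun y => G.Adj u y)).card ≤ ∑ x ∈ P, (on G univ P x).card := by
      have e1 : (univ.filter (fun y => G.Adj u y)) ⊆ P.filter (fun x => G.Adj x u) := by
        intro y hy
        rw [mem_filter] at hy ⊢
        exact ⟨hcon (mem_erase.2 ⟨hy.2.ne', mem_univ _⟩), hy.2.symm⟩
      refine (card_le_card e1).trans ?_
      rw [card_filter]
      apply sum_le_sum
      intro x hx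
      split_ifs with h
      · exact card_pos.2 ⟨u, by rw [mem_on]; exact ⟨⟨mem_univ _, huP⟩, h⟩⟩
      · exact Nat.zero_le _
    omega
  obtain ⟨a2, ha2, v, hv, hav⟩ := (h2.del u).2 P (fun x hx => mem_erase.2
    ⟨fun he => huP (he ▸ hx), mem_univ _⟩) hPc.1 hne
  obtain ⟨hv1, hvP⟩ := mem_sdiff.1 hv
  have hvu : v ≠ u := (mem_erase.1 hv1).1
  have hvL := hnL a2 ha2 v hvP hav
  have hdegv : 3 ≤ (univ.filter (fun y => G.Adj v y)).card := by
    rw [hL, mem_filter] at hvL
    have : ¬ (univ.filter (fun y => G.Adj v y)).card ≤ 2 := fun h => hvL ⟨mem_univ _, h⟩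
    omega
  -- exactly one edge to each
  have hone : (P.filter (fun x => G.Adj x u)).card + (P.filter (fun x => G.Adj x v)).card ≤ 2 := by
    refine le_trans ?_ hsum
    rw [card_filter, card_filter, ← sum_add_distrib]
    apply sum_le_sum
    intro x hx
    have hmem : ∀ w, w ∉ P → G.Adj x w → w ∈ on G univ P x := fun w hw h => by
      rw [mem_on]; exact ⟨⟨mem_univ _, hw⟩, h⟩
    by_cases h1 : G.Adj x u <;> by_cases h2 : G.Adj x v
    · simp only [h1, h2, if_true]
      exact Finset.one_lt_card.2 ⟨u, hmem u huP h1, v, hmem v hvP h2, hvu.symm⟩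
    · simp only [h1, h2, if_true, if_false]
      exact card_pos.2 ⟨u, hmem u huP h1⟩
    · simp only [h1, h2, if_true, if_false]
      exact card_pos.2 ⟨v, hmem v hvP h2⟩
    · simp [h1, h2]
  have hu1 : 1 ≤ (P.filter (fun x => G.Adj x u)).card := card_pos.2 ⟨a1, mem_filter.2 ⟨ha1, hau⟩⟩
  have hv1' : 1 ≤ (P.filter (fun x => G.Adj x v)).card := card_pos.2 ⟨a2, mem_filter.2 ⟨ha2, hav⟩⟩
  have hPnb : ∀ x ∈ P, ∀ y, y ∉ P → G.Adj x y → y = u ∨ y = v := by
    intro x hx y hy hxy
    by_contra hc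
    push Not at hc
    have hthree : 3 ≤ ∑ x ∈ P, (on G univ P x).card := by
      have : ((P.biUnion (on G univ P))).card ≤ ∑ x ∈ P, (on G univ P x).card := card_biUnion_le
      refine le_trans ?_ this
      refine Finset.two_lt_card.2 ⟨u, mem_biUnion.2 ⟨a1, ha1, ?_⟩, v, mem_biUnion.2 ⟨a2, ha2, ?_⟩, y,
        mem_biUnion.2 ⟨x, hx, ?_⟩, hvu.symm, hc.1.symm, hc.2.symm⟩
      · rw [mem_on]; exact ⟨⟨mem_univ _, huP⟩, hau⟩
      · rw [mem_on]; exact ⟨⟨mem_univ _, hvP⟩, hav⟩
      · rw [mem_on]; exact ⟨⟨mem_univ _, hy⟩, hxy⟩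
    omega
  set R := (univ : Finset V) \ {u, v} with hR
  have memR : ∀ z, z ∈ R ↔ z ≠ u ∧ z ≠ v := by intro z; rw [hR]; simp
  have hPR : P ⊆ R := fun z hz => (memR z).2 ⟨fun e => huP (e ▸ hz), fun e => hvP (e ▸ hz)⟩
  have hx0R : x0 ∈ R := hPR (mem_cpt_self hx0)
  have hcptP : cpt G R x0 = P := by
    apply subset_antisymm
    · by_contra hns
      obtain ⟨a, ha, b, hb, hab⟩ := (cn_cpt hx0R).2 P (subset_cpt hPR hPc (mem_cpt_self hx0)) hPc.1
        (by rw [sdiff_nonempty]; exact hns)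
      obtain ⟨hb1, hb2⟩ := mem_sdiff.1 hb
      have := (memR b).1 (cpt_subset hb1)
      rcases hPnb a ha b hb2 hab with h | h
      · exact this.1 h
      · exact this.2 h
    · exact subset_cpt hPR hPc (mem_cpt_self hx0)
  set D := R \ P with hD
  have memD : ∀ z, z ∈ D ↔ z ≠ u ∧ z ≠ v ∧ z ∉ P := by
    intro z; rw [hD, mem_sdiff, memR, and_assoc]
  -- neighbours of u
  have hNu : (univ.filter (fun y => G.Adj u y)) ⊆ (P.filter (fun x => G.Adj x u)) ∪
      ({v} ∪ (D.filter (fun y => G.Adj u y))) := by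
    intro y hy
    rw [mem_filter] at hy
    simp only [mem_union, mem_filter, mem_singleton, memD]
    by_cases h1 : y ∈ P
    · exact Or.inl ⟨h1, hy.2.symm⟩
    · by_cases h2 : y = v
      · exact Or.inr (Or.inl h2)
      · exact Or.inr (Or.inr ⟨⟨hy.2.ne', h2, h1⟩, hy.2⟩)
  have hDu : 1 ≤ (D.filter (fun y => G.Adj u y)).card := by
    have := card_le_card hNu
    have h3 := card_union_le (P.filter (fun x => G.Adj x u)) ({v} ∪ (D.filter (fun y => G.Adj u y)))
    have h4 := card_union_le {v} (D.filter (fun y => G.Adj u y))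
    have h5 : ({v} : Finset V).card = 1 := card_singleton v
    omega
  have hcne : cpt G R x0 ≠ R := by
    rw [hcptP]
    intro he
    obtain ⟨y, hy⟩ := card_pos.1 hDu
    rw [mem_filter, hD, he] at hy
    simp at hy
  obtain ⟨hnuv, hDc0, _⟩ := thin u v x0 hvu.symm hx0R hcne
  rw [hcptP] at hDc0
  have hDc : Cn G D := hDc0
  clear hDc0
  have hDu2 : 2 ≤ (D.filter (fun y => G.Adj u y)).card := by
    have hsub : (univ.filter (fun y => G.Adj u y)) ⊆ (P.filter (fun x => G.Adj x u)) ∪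
        ((D.filter (fun y => G.Adj u y))) := by
      intro y hy
      have h3 := hNu hy
      rw [mem_filter] at hy
      simp only [mem_union, mem_filter, mem_singleton] at h3 ⊢
      rcases h3 with h3 | h3 | h3
      · exact Or.inl h3
      · subst h3; exact absurd hy.2 hnuv
      · exact Or.inr h3
    have := card_le_card hsub
    have h3 := card_union_le (P.filter (fun x => G.Adj x u)) (D.filter (fun y => G.Adj u y))
    omega
  have hDP : ¬ Tc G D P := by
    rintro ⟨a, ha, b, hb, hab⟩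
    have := (memD a).1 ha
    rcases hPnb b hb a this.2.2 hab.symm with h | h
    · exact this.1 h
    · exact this.2.1 h
  have sP := side_of_cpt h2 hvu.symm hx0R
  rw [hcptP] at sP
  have hDne := hDc.1
  obtain ⟨d0, hd0⟩ := hDne
  have hd0R : d0 ∈ R := by rw [hD] at hd0; exact (mem_sdiff.1 hd0).1
  have hcptD : cpt G R d0 = D := by
    apply subset_antisymm
    · intro z hz
      rw [hD, mem_sdiff]
      refine ⟨cpt_subset hz, fun hzP => ?_⟩
      have e1 := cpt_eq_of_mem hd0R hz
      rw [← hcptP] at hzP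
      have e2 := cpt_eq_of_mem hx0R hzP
      have : d0 ∈ P := by rw [← hcptP, ← e2, e1]; exact mem_cpt_self hd0R
      rw [hD] at hd0; exact (mem_sdiff.1 hd0).2 this
    · exact subset_cpt (by rw [hD]; exact sdiff_subset) hDc hd0
  have sD := side_of_cpt h2 hvu.symm hd0R
  rw [hcptD] at sD
  by_cases hM : ∀ z ∈ D, ∃ Q ⊆ D.erase z, Cn G Q ∧ (Q ∩ D.filter (fun y => G.Adj u y)).Nonempty ∧
      (Q ∩ D.filter (fun y => G.Adj v y)).Nonempty
  · -- a split with both parts touching both poles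
    obtain ⟨Y, C, hYC, hd, hcY, hcC, hYA, hYB, hCA, hCB⟩ := hDc.menger hM
    have tc_of : ∀ (S : Finset V) (w : V), (S ∩ D.filter (fun y => G.Adj w y)).Nonempty → Tc G S {w} := by
      rintro S w ⟨y, hy⟩
      rw [mem_inter, mem_filter] at hy
      exact tc_sing_right.2 ⟨y, hy.1, hy.2.2.symm⟩
    have key : ∀ (u v : V) (Y C : Finset V), u ≠ v → u ∉ D → v ∉ D → u ∉ P → v ∉ P →
        (∀ z, z = u ∨ z = v ∨ z ∈ P ∨ z ∈ D) → (∀ z ∈ P, z ∉ D) → Tc G P {u} → Tc G P {v} →
        Y ∪ C = D → Disjoint Y C → Cn G Y → Cn G C → Tc G Y {u} → Tc G Y {v} →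
        Tc G C {u} → Tc G C {v} → ∀ x ∈ C, Tc G {x} {v} := by
      intro u v Y C huv huD hvD huP hvP hcov hPD tPu tPv hYC hd hcY hcC t1 t2 t3 t4
      have sp : Split G D Y C := ⟨hcY, hcC, hYC, hd⟩
      have hYD : Y ⊆ D := sp.left
      have hCD : C ⊆ D := sp.right
      have hCP : ¬ Tc G C P := fun h => hDP (h.mono hCD (Subset.refl _))
      have tYC : Tc G Y C := sp.tc hDc
      have c1 : Cfg G ({u} ∪ Y) {v} P C := by
        refine ⟨(Cn.singleton u).union hcY (Or.inl t1.symm), Cn.singleton v, hPc, hcC, fun z => ?_,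
          t2.mono subset_union_right (Subset.refl _), tPu.mono (Subset.refl _) subset_union_left, tPv,
          t3.mono (Subset.refl _) subset_union_left, t4, hCP⟩
        have h1 := sp.mem z
        have h2 := hcov z
        have h3 := hPD z
        have h4 : z = u → z ∉ D := fun e => e ▸ huD
        have h5 : z = v → z ∉ D := fun e => e ▸ hvD
        have h6 : z = u → z ∉ P := fun e => e ▸ huP
        have h7 : z = v → z ∉ P := fun e => e ▸ hvP
        have h8 : z = u → z ≠ v := fun e => e ▸ huv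
        simp only [mem_union, mem_singleton]
        clear * - h1 h2 h3 h4 h5 h6 h7 h8; grind (splits := 80)
      have c2 : Cfg G {u} ({v} ∪ Y) P C := by
        refine ⟨Cn.singleton u, (Cn.singleton v).union hcY (Or.inl t2.symm), hPc, hcC, fun z => ?_,
          t1.symm.mono (Subset.refl _) subset_union_right, tPu, tPv.mono (Subset.refl _) subset_union_left, 
          t3, t4.mono (Subset.refl _) subset_union_left, hCP⟩
        have h1 := sp.mem z
        have h2 := hcov z
        have h3 := hPD z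
        have h4 : z = u → z ∉ D := fun e => e ▸ huD
        have h5 : z = v → z ∉ D := fun e => e ▸ hvD
        have h6 : z = u → z ∉ P := fun e => e ▸ huP
        have h7 : z = v → z ∉ P := fun e => e ▸ hvP
        have h8 : z = u → z ≠ v := fun e => e ▸ huv
        simp only [mem_union, mem_singleton]
        clear * - h1 h2 h3 h4 h5 h6 h7 h8; grind (splits := 80)
      rcases c1.alt h2.del hg with ⟨E1, E2, s, b1, b2, b3, b4⟩ | hfull
      · exfalso
        have nE2u : ¬ Tc G E2 {u} := fun h => b3 (h.mono (Subset.refl _) subset_union_left)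
        have nE2Y : ¬ Tc G E2 Y := fun h => b3 (h.mono (Subset.refl _) subset_union_right)
        have tE1u : Tc G E1 {u} := by
          rw [← s.u] at t3
          exact (Tc.union_left.1 t3).resolve_right nE2u
        have tE1Y : Tc G E1 Y := by
          have := tYC.symm
          rw [← s.u] at this
          exact (Tc.union_left.1 this).resolve_right nE2Y
        exact hg (c2.symm.gem1 s.symm (b4.mono (Subset.refl _) subset_union_left) nE2u
          (tE1Y.mono (Subset.refl _) subset_union_right) tE1u)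
      · exact fun x hx => (hfull.1 x hx).2
    have huD : u ∉ D := fun h => ((memD u).1 h).1 rfl
    have hvD : v ∉ D := fun h => ((memD v).1 h).2.1 rfl
    have hcov : ∀ z, z = u ∨ z = v ∨ z ∈ P ∨ z ∈ D := by
      intro z; rw [memD]; clear * -; grind (splits := 80)
    have hPD : ∀ z ∈ P, z ∉ D := fun z hz h => ((memD z).1 h).2.2 hz
    have k1 := key u v Y C hvu.symm huD hvD huP hvP hcov hPD sP.tu sP.tv hYC hd hcY hcC
      (tc_of _ _ hYA) (tc_of _ _ hYB) (tc_of _ _ hCA) (tc_of _ _ hCB)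
    have k2 := key v u Y C hvu hvD huD hvP huP (fun z => by have := hcov z; clear * - this; grind (splits := 80)) hPD sP.tv sP.tu hYC hd hcY hcC
      (tc_of _ _ hYB) (tc_of _ _ hYA) (tc_of _ _ hCB) (tc_of _ _ hCA)
    have hCY : C ∪ Y = D := by rw [union_comm]; exact hYC
    have k3 := key u v C Y hvu.symm huD hvD huP hvP hcov hPD sP.tu sP.tv hCY hd.symm hcC hcY
      (tc_of _ _ hCA) (tc_of _ _ hCB) (tc_of _ _ hYA) (tc_of _ _ hYB)
    have k4 := key v u C Y hvu hvD huD hvP huP (fun z => by have := hcov z; clear * - this; grind (splits := 80)) hPD sP.tv sP.tu hCY hd.symm hcC hcY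
      (tc_of _ _ hCB) (tc_of _ _ hCA) (tc_of _ _ hYB) (tc_of _ _ hYA)
    have hDu' : ∀ x ∈ D, G.Adj x u := by
      intro x hx
      rw [← hYC, mem_union] at hx
      rcases hx with hx | hx
      · exact tc_sing.1 (k4 x hx)
      · exact tc_sing.1 (k2 x hx)
    -- `D` is a cograph
    have hP4 : P4Free G D := by
      intro a ha b hb c hc d hd' hac had hbd hab hbc hcd
      by_contra hcon
      push Not at hcon
      obtain ⟨n1, n2, n3⟩ := hcon
      apply hg
      have hH : Cn G (({u} ∪ P ∪ {v}) ∪ (D \ {a, b, c, d})) := by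
        apply Cn.attach
        · exact ((Cn.singleton u).union hPc (Or.inl sP.tu.symm)).union (Cn.singleton v)
            (Or.inl (sP.tv.mono subset_union_right (Subset.refl _)))
        · intro x hx
          have hxD := (mem_sdiff.1 hx).1
          exact ⟨x, mem_cpt_self hx, u, by simp, hDu' x hxD⟩
      have hU' : ∀ x ∈ D, Tc G (({u} ∪ P ∪ {v}) ∪ (D \ {a, b, c, d})) {x} := fun x hx =>
        ⟨u, by simp, x, by simp, (hDu' x hx).symm⟩
      refine gem_bags (P0 := {a}) (P1 := {b}) (P2 := {c}) (P3 := {d}) ?_ (Cn.singleton a)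
        (Cn.singleton b) (Cn.singleton c) (Cn.singleton d) hH (tc_sing.2 hab) (tc_sing.2 hbc)
        (tc_sing.2 hcd) (fun h => n1 (tc_sing.1 h)) (fun h => n2 (tc_sing.1 h))
        (fun h => n3 (tc_sing.1 h)) (hU' a ha) (hU' b hb) (hU' c hc) (hU' d hd')
      intro z
      have hp := hcov z
      have e0 := hPD z
      have e1 : z = a → z ∈ D := fun e => e ▸ ha
      have e2 : z = b → z ∈ D := fun e => e ▸ hb
      have e3 : z = c → z ∈ D := fun e => e ▸ hc
      have e4 : z = d → z ∈ D := fun e => e ▸ hd'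
      have e5 : z = a → z ≠ b := fun e e' => hab.ne (e ▸ e')
      have e6 : z = a → z ≠ c := fun e e' => hac (e ▸ e')
      have e7 : z = a → z ≠ d := fun e e' => had (e ▸ e')
      have e8 : z = b → z ≠ c := fun e e' => hbc.ne (e ▸ e')
      have e9 : z = b → z ≠ d := fun e e' => hbd (e ▸ e')
      have e10 : z = c → z ≠ d := fun e e' => hcd.ne (e ▸ e')
      have e11 : z = u → z ∉ D := fun e => e ▸ huD
      have e12 : z = v → z ∉ D := fun e => e ▸ hvD
      simp only [mem_union, mem_sdiff, mem_insert, mem_singleton]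
      clear * - hp e0 e1 e2 e3 e4 e5 e6 e7 e8 e9 e10 e11 e12
      grind (splits := 80)
    refine ⟨{u, v}, card_le_two, ?_⟩
    rw [← hR]
    intro x hx
    by_cases hxP : x ∈ P
    · left
      have : cpt G R x = P := by
        rw [← hcptP] at hxP ⊢
        exact cpt_eq_of_mem hx0R hxP
      rw [this]
      intro y hy
      exact (card_le_card (filter_subset_filter _ (subset_univ _))).trans (hPdeg y hy)
    · right
      have hxD : x ∈ cpt G R d0 := by rw [hcptD, hD]; exact mem_sdiff.2 ⟨hx, hxP⟩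
      rw [cpt_eq_of_mem hd0R hxD, hcptD]
      exact hP4
  · -- no such split: contradiction
    exfalso
    push Not at hM
    obtain ⟨z, hz, hzQ⟩ := hM
    have hzu : z ≠ u := ((memD z).1 hz).1
    have huz : u ≠ z := hzu.symm
    obtain ⟨p1, hp1, p2, hp2, hp12⟩ := Finset.one_lt_card.1 hDu2
    rw [mem_filter] at hp1 hp2
    set R' := (univ : Finset V) \ {u, z} with hR'
    have memR' : ∀ w, w ∈ R' ↔ w ≠ u ∧ w ≠ z := by intro w; rw [hR']; simp
    -- components of `D \ z` meeting N(u) are components of `R'`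
    have comp : ∀ a ∈ D.erase z, G.Adj u a → cpt G R' a = cpt G (D.erase z) a := by
      intro a ha hua
      have hno : ∀ y ∈ cpt G (D.erase z) a, ¬ G.Adj v y := by
        intro y hy hvy
        have hn := hzQ (cpt G (D.erase z) a) cpt_subset (cn_cpt ha) ⟨a, mem_inter.2 ⟨mem_cpt_self ha,
          mem_filter.2 ⟨mem_of_mem_erase ha, hua⟩⟩⟩
        have : y ∈ cpt G (D.erase z) a ∩ D.filter (fun y => G.Adj v y) :=
          mem_inter.2 ⟨hy, mem_filter.2 ⟨mem_of_mem_erase (cpt_subset hy), hvy⟩⟩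
        rw [hn] at this; simp at this
      have hsub : cpt G (D.erase z) a ⊆ R' := by
        intro y hy
        have h1 := mem_erase.1 (cpt_subset hy)
        exact (memR' y).2 ⟨((memD y).1 h1.2).1, h1.1⟩
      have haR' : a ∈ R' := hsub (mem_cpt_self ha)
      apply subset_antisymm
      · by_contra hns
        obtain ⟨s, hs, t, ht, hst⟩ := (cn_cpt haR').2 (cpt G (D.erase z) a)
          (subset_cpt hsub (cn_cpt ha) (mem_cpt_self ha)) ⟨a, mem_cpt_self ha⟩
          (by rw [sdiff_nonempty]; exact hns)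
        obtain ⟨ht1, ht2⟩ := mem_sdiff.1 ht
        have htR := (memR' t).1 (cpt_subset ht1)
        have hsD := mem_erase.1 (cpt_subset hs)
        by_cases htD : t ∈ D
        · exact not_adj_cpt ha hs (mem_erase.2 ⟨htR.2, htD⟩) ht2 hst
        · rcases sD.nb s hsD.2 t htD hst with h | h
          · exact htR.1 h
          · subst h; exact hno s hs hst.symm
      · exact subset_cpt hsub (cn_cpt ha) (mem_cpt_self ha)
    -- pick a neighbour of u different from z
    obtain ⟨p, hpD, hup, hpz⟩ : ∃ p ∈ D, G.Adj u p ∧ p ≠ z := by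
      by_cases h : p1 = z
      · exact ⟨p2, hp2.1, hp2.2, fun h' => hp12 (h.trans h'.symm)⟩
      · exact ⟨p1, hp1.1, hp1.2, h⟩
    have hpE : p ∈ D.erase z := mem_erase.2 ⟨hpz, hpD⟩
    set K := cpt G (D.erase z) p with hK
    have hKR' : cpt G R' p = K := comp p hpE hup
    have hpR' : p ∈ R' := (memR' p).2 ⟨((memD p).1 hpD).1, hpz⟩
    have hvR' : v ∈ R' := (memR' v).2 ⟨hvu, fun e => ((memD z).1 hz).2.1 e.symm⟩
    have hvK : v ∉ K := fun h => ((memD v).1 (mem_of_mem_erase (cpt_subset h))).2.1 rfl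
    have hKne : cpt G R' p ≠ R' := by rw [hKR']; intro he; exact hvK (he ▸ hvR')
    obtain ⟨hnuz, hrest, hps⟩ := thin u z p huz hpR' hKne
    rw [hKR'] at hrest hps
    -- the rest contains v, so it is not a path side
    have hKpath : PathSide G K := by
      rcases hps with h | h
      · exact h
      · exfalso
        have := h v (mem_sdiff.2 ⟨hvR', hvK⟩)
        omega
    -- all neighbours of u in D are in K
    have hallK : ∀ a ∈ D, G.Adj u a → a ∈ K := by
      intro a ha hua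
      by_contra haK
      have haz : a ≠ z := fun e => hnuz (e ▸ hua)
      have haE : a ∈ D.erase z := mem_erase.2 ⟨haz, ha⟩
      have haR' : a ∈ R' := (memR' a).2 ⟨((memD a).1 ha).1, haz⟩
      have e1 := comp a haE hua
      have hsub : R' \ K ⊆ cpt G R' a := subset_cpt sdiff_subset hrest (mem_sdiff.2 ⟨haR', haK⟩)
      have : v ∈ cpt G R' a := hsub (mem_sdiff.2 ⟨hvR', hvK⟩)
      rw [e1] at this
      exact ((memD v).1 (mem_of_mem_erase (cpt_subset this))).2.1 rfl
    have hKc : Cn G K := cn_cpt hpE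
    have hsumK := edges_le_two' (subset_univ K) hKpath K.card K (Subset.refl _) le_rfl hKc
    have sK := side_of_cpt h2 huz hpR'
    rw [← hR', hKR'] at sK
    obtain ⟨k, hk, hkz⟩ := tc_sing_right.1 sK.tv
    have hcount : (K.filter (fun x => G.Adj x u)).card + (K.filter (fun x => G.Adj x z)).card ≤ 2 := by
      refine le_trans ?_ hsumK
      rw [card_filter, card_filter, ← sum_add_distrib]
      apply sum_le_sum
      intro x hx
      have hmem : ∀ w, w ∉ K → G.Adj x w → w ∈ on G univ K x := fun w hw h => by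
        rw [mem_on]; exact ⟨⟨mem_univ _, hw⟩, h⟩
      by_cases h1 : G.Adj x u <;> by_cases h2 : G.Adj x z
      · simp only [h1, h2, if_true]
        exact Finset.one_lt_card.2 ⟨u, hmem u sK.hu h1, z, hmem z sK.hv h2, huz⟩
      · simp only [h1, h2, if_true, if_false]
        exact card_pos.2 ⟨u, hmem u sK.hu h1⟩
      · simp only [h1, h2, if_true, if_false]
        exact card_pos.2 ⟨z, hmem z sK.hv h2⟩
      · simp [h1, h2]
    have h5 : 2 ≤ (K.filter (fun x => G.Adj x u)).card :=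
      Finset.one_lt_card.2 ⟨p1, mem_filter.2 ⟨hallK p1 hp1.1 hp1.2, hp1.2.symm⟩, p2,
        mem_filter.2 ⟨hallK p2 hp2.1 hp2.2, hp2.2.symm⟩, hp12⟩
    have h6 : 1 ≤ (K.filter (fun x => G.Adj x z)).card := card_pos.2 ⟨k, mem_filter.2 ⟨hk, hkz⟩⟩
    omega

/-- 2-connected gem-free graphs with a 2-cut are tame -/
theorem gem_cut [Fintype V] (h2 : TwoConn G) (hg : ¬ HasC G gemT)
    (hcut : ∃ u v x : V, u ≠ v ∧ x ∈ (univ : Finset V) \ {u, v} ∧
      cpt G (univ \ {u, v}) x ≠ univ \ {u, v}) : Tame G 2 := by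
  by_contra hnt
  refine hnt (gem_thin h2 hg ?_ hcut)
  intro u v x huv hx hne
  set R := (univ : Finset V) \ {u, v} with hR
  have memR : ∀ z, z ∈ R ↔ z ≠ u ∧ z ≠ v := by intro z; rw [hR]; simp
  have hother : ∀ x ∈ R, cpt G R x ≠ R → ∃ y ∈ R, y ∉ cpt G R x := by
    intro x _ hne
    by_contra hcon
    push Not at hcon
    exact hne (subset_antisymm cpt_subset hcon)
  have hotherall : ∀ z ∈ R, ∃ y ∈ R, y ∉ cpt G R z := by
    intro z hz
    by_cases h : cpt G R z = R
    · exfalso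
      have hxz : x ∈ cpt G R z := by rw [h]; exact hx
      exact hne ((cpt_eq_of_mem hz hxz).trans h)
    · exact hother z hz h
  have hnadj : ¬ G.Adj u v := by
    intro hadj
    apply hnt
    apply gem_cut1 h2 hg huv
    intro z hz
    obtain ⟨y, hy, hyz⟩ := hotherall z hz
    exact ⟨y, hy, hyz, Or.inl hadj⟩
  obtain ⟨y, hy, hyx⟩ := hother x hx hne
  have htwo : ∀ z ∈ R, z ∈ cpt G R x ∨ z ∈ cpt G R y := by
    by_contra hcon
    push Not at hcon
    obtain ⟨w, hw, hwx, hwy⟩ := hcon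
    apply hnt
    apply gem_cut1 h2 hg huv
    intro z hz
    by_cases h1 : z ∈ cpt G R x
    · have e := cpt_eq_of_mem hx h1
      refine ⟨y, hy, by rw [e]; exact hyx, Or.inr ⟨w, hw, by rw [e]; exact hwx, hwy⟩⟩
    · by_cases h3 : z ∈ cpt G R y
      · have e := cpt_eq_of_mem hy h3
        refine ⟨x, hx, ?_, Or.inr ⟨w, hw, by rw [e]; exact hwy, hwx⟩⟩
        rw [e]
        intro h4
        have e2 := cpt_eq_of_mem hy h4
        exact hyx (by rw [e2]; exact mem_cpt_self hy)
      · refine ⟨x, hx, ?_, Or.inr ⟨y, hy, ?_, hyx⟩⟩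
        · intro h4
          have e2 := cpt_eq_of_mem hz h4
          exact h1 (by rw [e2]; exact mem_cpt_self hz)
        · intro h4
          have e2 := cpt_eq_of_mem hz h4
          exact h3 (by rw [e2]; exact mem_cpt_self hz)
  have hrest : R \ cpt G R x = cpt G R y := by
    ext z
    rw [mem_sdiff]
    constructor
    · rintro ⟨h1, h3⟩; exact (htwo z h1).resolve_left h3
    · intro h; exact ⟨cpt_subset h, cpt_disj hx hy hyx h⟩
  refine ⟨hnadj, by rw [hrest]; exact cn_cpt hy, ?_⟩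
  rw [hrest]
  by_contra hnp
  push Not at hnp
  obtain ⟨np1, np2⟩ := hnp
  have sx := side_of_cpt h2 huv hx
  have sy := side_of_cpt h2 huv hy
  rw [← hR] at sx sy
  have hnt' : ¬ Tc G (cpt G R x) (cpt G R y) := by
    rintro ⟨a, ha, b, hb, hab⟩
    exact not_adj_cpt hx ha (cpt_subset hb) (cpt_disj hx hy hyx hb) hab
  have hpart : ∀ z, (z ∈ cpt G R x ∨ z ∈ cpt G R y ∨ z = u ∨ z = v) ∧
      ¬ (z ∈ cpt G R x ∧ z ∈ cpt G R y) := by
    intro z
    refine ⟨?_, fun h => cpt_disj hx hy hyx h.2 h.1⟩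
    by_cases hz : z ∈ R
    · rcases htwo z hz with h | h
      · exact Or.inl h
      · exact Or.inr (Or.inl h)
    · rw [memR] at hz
      clear * - hz; grind (splits := 80)
  rcases Side.dich h2.del _ _ u v le_rfl sx with h | ⟨U, W, Q, ht⟩
  · exact np1 h.1
  rcases Side.dich h2.del _ _ u v le_rfl sy with h | ⟨U', W', Q', ht'⟩
  · exact np2 h.1
  have c1 := cfg_of_tri sx hpart hnt' sy.hu sy.hv ht'
  have c2 := cfg_of_tri sy (fun z => by have := hpart z; clear * - this; grind (splits := 80)) (fun h => hnt' h.symm) sx.hu sx.hv ht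
  apply hnt
  refine ⟨{u, v}, card_le_two, regions_of fun z hz => ?_⟩
  rw [← hR] at hz ⊢
  rcases htwo z hz with h | h
  · rw [cpt_eq_of_mem hx h]; exact c1.claim h2.del hg
  · rw [cpt_eq_of_mem hy h]; exact c2.claim h2.del hg

end Pool.Agent.H175R2
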