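import Pool.Agent.H175R2.Gem3

/-! 2-connected gem-free graphs are tame; gem-free connected graphs have bounded clique-width. -/

namespace Pool.Agent.H175R2

open Finset Classical

variable {V : Type} {G : SimpleGraph V}

theorem gem_tame [Fintype V] (h2 : TwoConn G) (hg : ¬ HasC G gemT) : Tame G 4 := by
  by_cases hcut : ∃ u v x : V, u ≠ v ∧ x ∈ (univ : Finset V) \ {u, v} ∧
      cpt G (univ \ {u, v}) x ≠ univ \ {u, v}
  · obtain ⟨X, hX, hR⟩ := gem_cut h2 hg hcut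
    exact ⟨X, by omega, hR⟩
  push Not at hcut
  by_cases hP : P4Free G univ
  · exact ⟨∅, by simp, fun x _ => Or.inr (hP.mono (subset_univ _))⟩
  simp only [P4Free] at hP
  push Not at hP
  obtain ⟨a, -, b, -, c, -, d, -, hac, had, hbd, hab, hbc, hcd, nac, nad, nbd⟩ := hP
  -- closed sets avoiding two vertices
  have close : ∀ u v : V, u ≠ v → ∀ K : Finset V, K.Nonempty → (∀ z ∈ K, z ≠ u ∧ z ≠ v) →
      ∀ w, w ≠ u → w ≠ v → w ∉ K → ∃ x ∈ K, ∃ y, y ≠ u ∧ y ≠ v ∧ y ∉ K ∧ G.Adj x y := by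
    intro u v huv K hK hKuv w hwu hwv hwK
    obtain ⟨k, hk⟩ := hK
    have memR : ∀ z, z ∈ (univ : Finset V) \ {u, v} ↔ z ≠ u ∧ z ≠ v := by intro z; simp
    have hkR : k ∈ (univ : Finset V) \ {u, v} := (memR k).2 (hKuv k hk)
    have hc : Cn G (univ \ {u, v}) := cn_of_cpt_eq hkR (hcut u v k huv hkR)
    obtain ⟨x, hx, y, hy, hxy⟩ := hc.2 K (fun z hz => (memR z).2 (hKuv z hz)) ⟨k, hk⟩
      ⟨w, mem_sdiff.2 ⟨(memR w).2 ⟨hwu, hwv⟩, hwK⟩⟩
    obtain ⟨hy1, hy2⟩ := mem_sdiff.1 hy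
    exact ⟨x, hx, y, ((memR y).1 hy1).1, ((memR y).1 hy1).2, hy2, hxy⟩
  set C := (univ : Finset V) \ {a, b, c, d} with hC
  have memC : ∀ z, z ∈ C ↔ z ≠ a ∧ z ≠ b ∧ z ≠ c ∧ z ≠ d := by intro z; rw [hC]; simp
  have nba := hab.ne'
  have nab := hab.ne
  have ncb := hbc.ne'
  have nbc := hbc.ne
  have ndc := hcd.ne'
  have ncd := hcd.ne
  -- each vertex of the path has a neighbour in C
  have nbA : ∃ x ∈ C, G.Adj a x := by
    obtain ⟨x, hx, y, h1, h2, h3, h4⟩ := close b c nbc {a} (by simp) (by simp [nab, hac]) d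
      hbd.symm ndc (by simpa using had.symm)
    rw [mem_singleton] at hx h3
    subst hx
    exact ⟨y, (memC y).2 ⟨h3, h1, h2, fun e => nad (e ▸ h4)⟩, h4⟩
  have nbB : ∃ x ∈ C, G.Adj b x := by
    obtain ⟨x, hx, y, h1, h2, h3, h4⟩ := close a c hac {b} (by simp) (by simp [nba, nbc]) d
      had.symm ndc (by simpa using hbd.symm)
    rw [mem_singleton] at hx h3
    subst hx
    exact ⟨y, (memC y).2 ⟨h1, h3, h2, fun e => nbd (e ▸ h4)⟩, h4⟩
  have nbC : ∃ x ∈ C, G.Adj c x := by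
    obtain ⟨x, hx, y, h1, h2, h3, h4⟩ := close b d hbd {c} (by simp) (by simp [ncb, ncd]) a
      nab had (by simpa using hac)
    rw [mem_singleton] at hx h3
    subst hx
    exact ⟨y, (memC y).2 ⟨fun e => nac (e ▸ h4).symm, h1, h3, h2⟩, h4⟩
  have nbD : ∃ x ∈ C, G.Adj d x := by
    obtain ⟨x, hx, y, h1, h2, h3, h4⟩ := close b c nbc {d} (by simp) (by simp [hbd.symm, ndc]) a
      nab hac (by simpa using had)
    rw [mem_singleton] at hx h3
    subst hx
    exact ⟨y, (memC y).2 ⟨fun e => nad (e ▸ h4).symm, h1, h2, h3⟩, h4⟩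
  -- components touch `{a,b}` and `{c,d}`
  have tAB : ∀ x ∈ C, Tc G (cpt G C x) ({a} ∪ {b}) := by
    intro x hx
    have hK : ∀ z ∈ cpt G C x, z ≠ c ∧ z ≠ d := fun z hz => ((memC z).1 (cpt_subset hz)).2.2
    obtain ⟨s, hs, t, h1, h2, h3, h4⟩ := close c d ncd (cpt G C x) ⟨x, mem_cpt_self hx⟩ hK a hac had
      (fun h => ((memC a).1 (cpt_subset h)).1 rfl)
    refine ⟨s, hs, t, ?_, h4⟩
    by_contra hcon
    simp only [mem_union, mem_singleton, not_or] at hcon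
    exact not_adj_cpt hx hs ((memC t).2 ⟨hcon.1, hcon.2, h1, h2⟩) h3 h4
  have tCD : ∀ x ∈ C, Tc G (cpt G C x) ({c} ∪ {d}) := by
    intro x hx
    have hK : ∀ z ∈ cpt G C x, z ≠ a ∧ z ≠ b := fun z hz =>
      ⟨((memC z).1 (cpt_subset hz)).1, ((memC z).1 (cpt_subset hz)).2.1⟩
    obtain ⟨s, hs, t, h1, h2, h3, h4⟩ := close a b nab (cpt G C x) ⟨x, mem_cpt_self hx⟩ hK c hac.symm ncb
      (fun h => ((memC c).1 (cpt_subset h)).2.2.1 rfl)
    refine ⟨s, hs, t, ?_, h4⟩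
    by_contra hcon
    simp only [mem_union, mem_singleton, not_or] at hcon
    exact not_adj_cpt hx hs ((memC t).2 ⟨h1, h2, hcon.1, hcon.2⟩) h3 h4
  -- at least two components
  have htwo : ∀ x ∈ C, ∃ y ∈ C, y ∉ cpt G C x := by
    intro x hx
    by_contra hcon
    push Not at hcon
    have hCc : Cn G C := cn_of_cpt_eq hx (subset_antisymm cpt_subset hcon)
    obtain ⟨xa, ha1, ha2⟩ := nbA
    obtain ⟨xb, hb1, hb2⟩ := nbB
    obtain ⟨xc, hc1, hc2⟩ := nbC
    obtain ⟨xd, hd1, hd2⟩ := nbD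
    apply hg
    refine gem_bags (P0 := {a}) (P1 := {b}) (P2 := {c}) (P3 := {d}) (H := C) ?_ (Cn.singleton a)
      (Cn.singleton b) (Cn.singleton c) (Cn.singleton d) hCc (tc_sing.2 hab) (tc_sing.2 hbc)
      (tc_sing.2 hcd) (fun h => nac (tc_sing.1 h)) (fun h => nad (tc_sing.1 h))
      (fun h => nbd (tc_sing.1 h)) (tc_sing_right.2 ⟨xa, ha1, ha2.symm⟩)
      (tc_sing_right.2 ⟨xb, hb1, hb2.symm⟩) (tc_sing_right.2 ⟨xc, hc1, hc2.symm⟩)
      (tc_sing_right.2 ⟨xd, hd1, hd2.symm⟩)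
    intro z
    have h1 := memC z
    have e1 : z = a → z ≠ b := fun e => e ▸ nab
    have e2 : z = a → z ≠ c := fun e => e ▸ hac
    have e3 : z = a → z ≠ d := fun e => e ▸ had
    have e4 : z = b → z ≠ c := fun e => e ▸ nbc
    have e5 : z = b → z ≠ d := fun e => e ▸ hbd
    have e6 : z = c → z ≠ d := fun e => e ▸ ncd
    simp only [mem_singleton]
    clear * - h1 e1 e2 e3 e4 e5 e6; grind (splits := 80)
  refine ⟨{a, b, c, d}, card_le_four, regions_of fun x hx => ?_⟩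
  rw [← hC] at hx ⊢
  obtain ⟨y, hy, hyx⟩ := htwo x hx
  have hcd' : Cn G ({c} ∪ {d}) := (Cn.singleton c).union (Cn.singleton d) (Or.inl (tc_sing.2 hcd))
  have hatt : ∀ w ∈ (C \ cpt G C x) \ cpt G C y,
      Tc G (cpt G ((C \ cpt G C x) \ cpt G C y) w) ({c} ∪ {d}) := by
    intro w hw
    obtain ⟨hw1, hw2⟩ := mem_sdiff.1 hw
    obtain ⟨hw0, hw1⟩ := mem_sdiff.1 hw1
    refine (tCD w hw0).mono ?_ (Subset.refl _)
    apply subset_cpt _ (cn_cpt hw0) (mem_cpt_self hw0)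
    intro z hz
    exact mem_sdiff.2 ⟨mem_sdiff.2 ⟨cpt_subset hz, cpt_disj hx hw0 hw1 hz⟩, cpt_disj hy hw0 hw2 hz⟩
  have cfg : Cfg G ({a} ∪ {b}) (({c} ∪ {d}) ∪ ((C \ cpt G C x) \ cpt G C y)) (cpt G C y) (cpt G C x) := by
    refine ⟨(Cn.singleton a).union (Cn.singleton b) (Or.inl (tc_sing.2 hab)), hcd'.attach hatt,
      cn_cpt hy, cn_cpt hx, fun z => ?_, ⟨b, by simp, c, by simp, hbc⟩, tAB y hy,
      (tCD y hy).mono (Subset.refl _) subset_union_left, tAB x hx,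
      (tCD x hx).mono (Subset.refl _) subset_union_left, ?_⟩
    · have h1 := memC z
      have h2 : z ∈ cpt G C x → z ∈ C := fun h => cpt_subset h
      have h3 : z ∈ cpt G C y → z ∈ C := fun h => cpt_subset h
      have h4 : z ∈ cpt G C y → z ∉ cpt G C x := fun h => cpt_disj hx hy hyx h
      have e2 : z = a → z ≠ c := fun e => e ▸ hac
      have e3 : z = a → z ≠ d := fun e => e ▸ had
      have e4 : z = b → z ≠ c := fun e => e ▸ nbc
      have e5 : z = b → z ≠ d := fun e => e ▸ hbd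
      simp only [mem_union, mem_sdiff, mem_singleton]
      clear * - h1 h2 h3 h4 e2 e3 e4 e5; grind (splits := 80)
    · rintro ⟨s, hs, t, ht, hst⟩
      exact not_adj_cpt hx hs (cpt_subset ht) (cpt_disj hx hy hyx ht) hst
  exact cfg.claim h2.del hg

/-- connected gem-free graphs -/
theorem dt_of_gem_free [Fintype V] (hG : Cn G univ) (hg : ¬ HasC G gemT) :
    DT G 49 univ univ := by
  refine dt_of_blocks gemT 48 (fun V _ G h2 hg => ?_) _ V G le_rfl hG hg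
  haveI : Nonempty V := Fintype.card_pos_iff.1 (by have := h2.card; omega)
  exact dt_of_tame (gem_tame h2 hg)

end Pool.Agent.H175R2
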