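import Pool.Agent.H175R2.Conn

/-! Menger's theorem for two connected sets. -/

namespace Pool.Agent.H175R2

open Finset Classical

variable {V : Type} {G : SimpleGraph V}

lemma Cn.insert {C : Finset V} {t : V} (hC : Cn G C) (h : Tc G {t} C) : Cn G (C ∪ {t}) :=
  hC.union (Cn.singleton t) (Or.inl h.symm)

lemma tc_singleton {t : V} {C : Finset V} : Tc G {t} C ↔ ∃ y ∈ C, G.Adj t y := by
  simp [Tc]

structure MP (G : SimpleGraph V) (D A B Y C : Finset V) : Prop where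
  hY : Y ⊆ D
  hC : C ⊆ D
  dis : Disjoint Y C
  cnY : Cn G Y
  cnC : C = ∅ ∨ Cn G C
  YA : (Y ∩ A).Nonempty
  YB : (Y ∩ B).Nonempty

lemma menger_aux {D A B Y C : Finset V} (hD : Cn G D)
    (h : ∀ z ∈ D, ∃ Q ⊆ D.erase z, Cn G Q ∧ (Q ∩ A).Nonempty ∧ (Q ∩ B).Nonempty)
    (hp : MP G D A B Y C) (hC : Cn G C)
    (hmax : ∀ Y' C', MP G D A B Y' C' → C'.card ≤ C.card) (hCB : ¬ (C ∩ B).Nonempty) : False := by
  have hdis := hp.dis
  rw [Finset.disjoint_left] at hdis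
  have big : ∀ x, x ∉ C → (C ∪ {x}).card = C.card + 1 := by
    intro x hx
    rw [union_comm, ← Finset.insert_eq, Finset.card_insert_of_notMem hx]
  set N := Y.filter (fun y => Tc G {y} C) with hN
  -- attaching a vertex outside `Y`
  have out : ∀ x ∈ D, x ∉ C → x ∉ Y → ¬ Tc G {x} C := by
    intro x hx hxC hxY ht
    have := hmax Y (C ∪ {x}) ⟨hp.hY, union_subset hp.hC (by simpa using hx), by
      rw [disjoint_union_right]; exact ⟨hp.dis, by simpa using hxY⟩, hp.cnY, Or.inr (hC.insert ht),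
      hp.YA, hp.YB⟩
    rw [big x hxC] at this; omega
  have hNne : N.Nonempty := by
    obtain ⟨y0, hy0⟩ := hp.cnY.1
    obtain ⟨x, hx, y, hy, ha⟩ := hD.2 C hp.hC hC.1 ⟨y0, mem_sdiff.2 ⟨hp.hY hy0, hdis hy0⟩⟩
    obtain ⟨hyD, hyC⟩ := mem_sdiff.1 hy
    have ht : Tc G {y} C := ⟨y, by simp, x, hx, ha.symm⟩
    refine ⟨y, ?_⟩
    rw [hN, mem_filter]
    refine ⟨?_, ht⟩
    by_contra hyY
    exact out y hyD hyC hyY ht
  obtain ⟨P, hP⟩ := (Y.powerset.filter (fun P => Cn G P ∧ (P ∩ A).Nonempty ∧ N ⊆ P)).exists_minimal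
    ⟨Y, by simp only [mem_filter, mem_powerset]; exact ⟨Subset.refl _, hp.cnY, hp.YA, filter_subset _ _⟩⟩
  have hP1 := hP.prop
  simp only [mem_filter, mem_powerset] at hP1
  obtain ⟨hPY, hPc, ⟨a, haPA⟩, hNP⟩ := hP1
  rw [mem_inter] at haPA
  obtain ⟨haP, haA⟩ := haPA
  -- choose t
  obtain ⟨t, htP, htN, hY1⟩ : ∃ t ∈ P, t ∈ N ∧
      (P.erase t = ∅ ∨ (Cn G (P.erase t) ∧ (P.erase t ∩ A).Nonempty)) := by
    by_cases hPa : P = {a}
    · obtain ⟨n, hn⟩ := hNne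
      have hna : n = a := by
        have := hNP hn
        rw [hPa] at this; simpa using this
      subst hna
      exact ⟨n, haP, hn, Or.inl (by rw [hPa]; simp)⟩
    · obtain ⟨z, hzP, hza, hzc⟩ := hPc.leaf_ne haP hPa
      have haz : a ∈ P.erase z := mem_erase.2 ⟨Ne.symm hza, haP⟩
      refine ⟨z, hzP, ?_, Or.inr ⟨hzc, a, mem_inter.2 ⟨haz, haA⟩⟩⟩
      by_contra hzN
      have := hP.le_of_le (y := P.erase z) (by
        simp only [mem_filter, mem_powerset]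
        refine ⟨(erase_subset _ _).trans hPY, hzc, ⟨a, mem_inter.2 ⟨haz, haA⟩⟩, ?_⟩
        intro n hn
        exact mem_erase.2 ⟨by rintro rfl; exact hzN hn, hNP hn⟩) (erase_subset _ _)
      exact (notMem_erase z P) (this hzP)
  set Y1 := P.erase t with hY1def
  have htY : t ∈ Y := hPY htP
  have htC : t ∉ C := hdis htY
  have httc : Tc G {t} C := (mem_filter.1 htN).2
  have hCt : Cn G (C ∪ {t}) := hC.insert httc
  have hCtD : C ∪ {t} ⊆ D := union_subset hp.hC (by simpa using hp.hY htY)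
  have fin : ∀ Y', Y' ⊆ D → Cn G Y' → (Y' ∩ A).Nonempty → (Y' ∩ B).Nonempty →
      (∀ x ∈ Y', x ∉ C ∧ x ≠ t) → False := by
    intro Y' h1 h2 h3 h4 h5
    have := hmax Y' (C ∪ {t}) ⟨h1, hCtD, by
      rw [Finset.disjoint_left]
      intro x hx hx'
      rcases mem_union.1 hx' with h | h
      · exact (h5 x hx).1 h
      · exact (h5 x hx).2 (by simpa using h), h2, Or.inr hCt, h3, h4⟩
    rw [big t htC] at this; omega
  have hY1D : Y1 ⊆ D := (erase_subset _ _).trans (hPY.trans hp.hY)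
  have hY1o : ∀ x ∈ Y1, x ∉ C ∧ x ≠ t := fun x hx =>
    ⟨hdis (hPY (mem_of_mem_erase hx)), ne_of_mem_erase hx⟩
  by_cases hB1 : (Y1 ∩ B).Nonempty
  · rcases hY1 with he | ⟨hc, hA⟩
    · rw [he] at hB1; simp at hB1
    · exact fin Y1 hY1D hc hA hB1 hY1o
  obtain ⟨Q, hQD, hQc, hQA, ⟨b, hb⟩⟩ := h t (hp.hY htY)
  obtain ⟨hbQ, hbB⟩ := mem_inter.1 hb
  have hQD' : Q ⊆ D := hQD.trans (erase_subset _ _)
  have hQt : ∀ x ∈ Q, x ≠ t := fun x hx => ne_of_mem_erase (hQD hx)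
  by_cases hQi : (Q ∩ (Y1 ∪ C)).Nonempty
  · have hbR : b ∈ Q \ (Y1 ∪ C) := by
      rw [mem_sdiff, mem_union, not_or]
      refine ⟨hbQ, fun hb1 => hB1 ⟨b, mem_inter.2 ⟨hb1, hbB⟩⟩, fun hb1 => hCB ⟨b, mem_inter.2 ⟨hb1, hbB⟩⟩⟩
    set Q' := cpt G (Q \ (Y1 ∪ C)) b with hQ'
    have hQ'c : Cn G Q' := cn_cpt hbR
    have hQ's : Q' ⊆ Q \ (Y1 ∪ C) := cpt_subset
    have hne : (Q \ Q').Nonempty := by
      obtain ⟨x, hx⟩ := hQi
      obtain ⟨hx1, hx2⟩ := mem_inter.1 hx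
      exact ⟨x, mem_sdiff.2 ⟨hx1, fun hx3 => (mem_sdiff.1 (hQ's hx3)).2 hx2⟩⟩
    obtain ⟨x, hx, y, hy, hxy⟩ := hQc.2 Q' (hQ's.trans sdiff_subset) hQ'c.1 hne
    obtain ⟨hyQ, hyQ'⟩ := mem_sdiff.1 hy
    have hyU : y ∈ Y1 ∪ C := by
      by_contra hyU
      exact not_adj_cpt hbR hx (mem_sdiff.2 ⟨hyQ, hyU⟩) hyQ' hxy
    have hx1 := mem_sdiff.1 (hQ's hx)
    rw [mem_union, not_or] at hx1
    obtain ⟨hxQ, hxY1, hxC⟩ := hx1
    rcases mem_union.1 hyU with hy1 | hyC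
    · rcases hY1 with he | ⟨hc, hA⟩
      · rw [he] at hy1; simp at hy1
      · refine fin (Y1 ∪ Q') (union_subset hY1D (hQ's.trans (sdiff_subset.trans hQD')))
          (hc.union hQ'c (Or.inl ⟨y, hy1, x, hx, hxy.symm⟩)) ?_ ?_ ?_
        · obtain ⟨a', ha'⟩ := hA
          exact ⟨a', by rw [mem_inter] at ha' ⊢; exact ⟨mem_union_left _ ha'.1, ha'.2⟩⟩
        · exact ⟨b, mem_inter.2 ⟨mem_union_right _ (mem_cpt_self hbR), hbB⟩⟩
        · intro u hu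
          rcases mem_union.1 hu with hu | hu
          · exact hY1o u hu
          · have := mem_sdiff.1 (hQ's hu)
            rw [mem_union, not_or] at this
            exact ⟨this.2.2, hQt u this.1⟩
    · have hxt : Tc G {x} C := ⟨x, by simp, y, hyC, hxy⟩
      by_cases hxY : x ∈ Y
      · have hxN : x ∈ N := mem_filter.2 ⟨hxY, hxt⟩
        exact hxY1 (mem_erase.2 ⟨hQt x hxQ, hNP hxN⟩)
      · exact out x (hQD' hxQ) hxC hxY hxt
  · refine fin Q hQD' hQc hQA ⟨b, hb⟩ fun x hx => ⟨fun hxC => hQi ⟨x, ?_⟩, hQt x hx⟩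
    rw [mem_inter, mem_union]
    exact ⟨hx, Or.inr hxC⟩

/-- Menger's theorem for two disjoint connected sets meeting both `A` and `B`. -/
theorem Cn.menger {D A B : Finset V} (hD : Cn G D)
    (h : ∀ z ∈ D, ∃ Q ⊆ D.erase z, Cn G Q ∧ (Q ∩ A).Nonempty ∧ (Q ∩ B).Nonempty) :
    ∃ Y C, Y ∪ C = D ∧ Disjoint Y C ∧ Cn G Y ∧ Cn G C ∧
      (Y ∩ A).Nonempty ∧ (Y ∩ B).Nonempty ∧ (C ∩ A).Nonempty ∧ (C ∩ B).Nonempty := by
  obtain ⟨z0, hz0⟩ := hD.1
  obtain ⟨Q0, hQ0, hc0, hA0, hB0⟩ := h z0 hz0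
  obtain ⟨P, hPm, hPmax⟩ := ((D.powerset ×ˢ D.powerset).filter
    (fun P : Finset V × Finset V => MP G D A B P.1 P.2)).exists_max_image (fun P => P.2.card)
    ⟨(Q0, ∅), by
      simp only [mem_filter, mem_product, mem_powerset]
      exact ⟨⟨hQ0.trans (erase_subset _ _), empty_subset _⟩,
        ⟨hQ0.trans (erase_subset _ _), empty_subset _, disjoint_empty_right _, hc0, Or.inl rfl, hA0, hB0⟩⟩⟩
  obtain ⟨Y, C⟩ := P
  simp only [mem_filter, mem_product, mem_powerset] at hPm hPmax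
  have hp := hPm.2
  have hmax : ∀ Y' C', MP G D A B Y' C' → C'.card ≤ C.card := fun Y' C' h' =>
    hPmax (Y', C') ⟨⟨h'.hY, h'.hC⟩, h'⟩
  have hC : Cn G C := by
    rcases hp.cnC with he | hc
    · exfalso
      obtain ⟨z, hz⟩ := hp.cnY.1
      obtain ⟨Q, hQ, hQc, hQA, hQB⟩ := h z (hp.hY hz)
      have := hmax Q {z} ⟨hQ.trans (erase_subset _ _), by simpa using hp.hY hz, by
        rw [disjoint_singleton_right]
        intro hzQ
        exact ne_of_mem_erase (hQ hzQ) rfl, hQc, Or.inr (Cn.singleton z), hQA, hQB⟩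
      rw [he] at this; simp at this
    · exact hc
  have hCB : (C ∩ B).Nonempty := by
    by_contra hCB
    exact menger_aux hD h hp hC hmax hCB
  have hCA : (C ∩ A).Nonempty := by
    by_contra hCA
    refine menger_aux (A := B) (B := A) hD (fun z hz => ?_) ⟨hp.hY, hp.hC, hp.dis, hp.cnY, hp.cnC, hp.YB, hp.YA⟩ hC
      (fun Y' C' h' => hmax Y' C' ⟨h'.hY, h'.hC, h'.dis, h'.cnY, h'.cnC, h'.YB, h'.YA⟩) hCA
    obtain ⟨Q, h1, h2, h3, h4⟩ := h z hz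
    exact ⟨Q, h1, h2, h4, h3⟩
  obtain ⟨Y', C', hY', hC', hu, hd, hcY, hcC⟩ := hD.extend hp.cnY hC hp.hY hp.hC hp.dis
  have mono : ∀ {S S' T : Finset V}, S ⊆ S' → (S ∩ T).Nonempty → (S' ∩ T).Nonempty :=
    fun hs hn => hn.mono (inter_subset_inter_right hs)
  exact ⟨Y', C', hu, hd, hcY, hcC, mono hY' hp.YA, mono hY' hp.YB, mono hC' hCA, mono hC' hCB⟩

end Pool.Agent.H175R2
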