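import Pool.Agent.H175R2.Defs
import Pool.Agent.H175R2.Conn

/-! Quotients of a graph into bags and finite certificates for contractions. -/

namespace Pool.Agent.H175R2

open Finset Classical

variable {V : Type} {G : SimpleGraph V}

lemma cn_iff_induce {S : Finset V} : Cn G S ↔ (G.induce (S : Set V)).Connected := by
  constructor
  · intro h
    have hne : Nonempty (S : Set V) := by
      obtain ⟨x, hx⟩ := h.1
      exact ⟨⟨x, hx⟩⟩
    refine { preconnected := ?_, nonempty := hne }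
    rintro ⟨x, hx⟩ ⟨y, hy⟩
    by_contra hc
    let T : Finset V := S.filter (fun z => ∃ hz : z ∈ (S : Set V), (G.induce (S : Set V)).Reachable ⟨x, hx⟩ ⟨z, hz⟩)
    have hxT : x ∈ T := by
      simp only [T, mem_filter]
      exact ⟨hx, hx, SimpleGraph.Reachable.refl _⟩
    have hyT : y ∉ T := by
      simp only [T, mem_filter, not_and, not_exists]
      intro _ hy'
      exact hc
    obtain ⟨a, ha, b, hb, hab⟩ := h.2 T (filter_subset _ _) ⟨x, hxT⟩ ⟨y, mem_sdiff.2 ⟨hy, hyT⟩⟩
    obtain ⟨hbS, hbT⟩ := mem_sdiff.1 hb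
    apply hbT
    simp only [T, mem_filter] at ha ⊢
    obtain ⟨haS, haS', hr⟩ := ha
    refine ⟨hbS, hbS, hr.trans ?_⟩
    exact SimpleGraph.Adj.reachable (by simpa using hab)
  · intro h
    obtain ⟨⟨x0, hx0⟩⟩ := h.nonempty
    refine ⟨⟨x0, hx0⟩, fun T hT hn hn' => ?_⟩
    obtain ⟨x, hx⟩ := hn
    obtain ⟨y, hy⟩ := hn'
    obtain ⟨hyS, hyT⟩ := mem_sdiff.1 hy
    obtain ⟨w⟩ := h.preconnected ⟨x, hT hx⟩ ⟨y, hyS⟩
    by_contra hc
    push Not at hc
    -- walking along w stays in T
    have key : ∀ (a b : (S : Set V)) (w : (G.induce (S : Set V)).Walk a b), a.1 ∈ T → b.1 ∈ T := by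
      intro a b w
      induction w with
      | nil => exact id
      | cons hadj _ ih =>
        intro ha
        apply ih
        by_contra hb
        rename_i u v w' h'
        exact hc _ ha _ (mem_sdiff.2 ⟨v.2, hb⟩) (by simpa using hadj)
    exact hyT (key _ _ w hx)

/-- `G` has a contraction onto the graph with Boolean adjacency `T`. -/
def HasC [Fintype V] (G : SimpleGraph V) {t : ℕ} (T : Fin t → Fin t → Bool) : Prop :=
  ∃ f : V → Fin t, (∀ w, Cn G (univ.filter (fun v => f v = w))) ∧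
    ∀ w w', w ≠ w' → (T w w' = true ↔
      Tc G (univ.filter (fun v => f v = w)) (univ.filter (fun v => f v = w')))

lemma hasC_iff [Fintype V] {t : ℕ} (T : Fin t → Fin t → Bool) (H : SimpleGraph (Fin t))
    (hT : ∀ i j, H.Adj i j ↔ (i ≠ j ∧ T i j = true)) : HasC G T ↔ IsContraction G H := by
  unfold HasC IsContraction
  refine exists_congr fun f => and_congr (forall_congr' fun w => ?_) ?_
  · rw [cn_iff_induce]
    have : (↑(univ.filter (fun v => f v = w)) : Set V) = {v | f v = w} := by ext; simp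
    rw [this]
  · refine forall_congr' fun w => forall_congr' fun w' => ?_
    refine forall_congr' fun hne => ?_
    rw [hT]
    simp only [ne_eq, hne, not_false_eq_true, true_and, Tc, mem_filter, mem_univ]
    constructor
    · intro h
      rw [h]
      constructor
      · rintro ⟨x, hx, y, hy, ha⟩
        exact ⟨x, y, hx, hy, ha⟩
      · rintro ⟨x, y, hx, hy, ha⟩
        exact ⟨x, hx, y, hy, ha⟩
    · intro h
      rw [h]
      constructor
      · rintro ⟨x, y, hx, hy, ha⟩
        exact ⟨x, hx, y, hy, ha⟩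
      · rintro ⟨x, hx, y, hy, ha⟩
        exact ⟨x, y, hx, hy, ha⟩

/-- partition into bags with (partially) known adjacency: `1` touching, `0` not touching. -/
structure PQ [Fintype V] (G : SimpleGraph V) {m : ℕ} (M : Fin m → Fin m → ℕ)
    (B : Fin m → Finset V) : Prop where
  cn : ∀ i, Cn G (B i)
  disj : ∀ i j, i ≠ j → Disjoint (B i) (B j)
  cover : ∀ v, ∃ i, v ∈ B i
  yes : ∀ i j, i ≠ j → M i j = 1 → Tc G (B i) (B j)
  no : ∀ i j, i ≠ j → M i j = 0 → ¬ Tc G (B i) (B j)

/-- finite certificate check -/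
def Chk {m t : ℕ} (M : Fin m → Fin m → ℕ) (T : Fin t → Fin t → Bool) (c : Fin m → Fin t)
    (p : Fin m → Fin m) (r : Fin t → Fin m) : Prop :=
  (∀ i, c (p i) = c i ∧ (p i = i ∨ M i (p i) = 1) ∧ p (p (p i)) = r (c i)) ∧
  (∀ w, c (r w) = w) ∧
  (∀ i j, c i ≠ c j → T (c i) (c j) = false → M i j = 0) ∧
  ∀ w w', w ≠ w' → T w w' = true → ∃ i j, c i = w ∧ c j = w' ∧ M i j = 1

instance {m t : ℕ} (M : Fin m → Fin m → ℕ) (T : Fin t → Fin t → Bool) (c : Fin m → Fin t)
    (p : Fin m → Fin m) (r : Fin t → Fin m) : Decidable (Chk M T c p r) := by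
  unfold Chk; infer_instance

lemma cn_of_cover {X : Finset V} {r : V} (hr : r ∈ X)
    (h : ∀ x ∈ X, ∃ U ⊆ X, Cn G U ∧ r ∈ U ∧ x ∈ U) : Cn G X := by
  apply cn_of_cpt_eq hr
  apply subset_antisymm cpt_subset
  intro x hx
  obtain ⟨U, hU, hc, hrU, hxU⟩ := h x hx
  exact subset_cpt hU hc hrU hxU

theorem hasC_of_chk [Fintype V] {m t : ℕ} {M : Fin m → Fin m → ℕ} {B : Fin m → Finset V}
    (pq : PQ G M B) {T : Fin t → Fin t → Bool} {c : Fin m → Fin t} {p : Fin m → Fin m}
    {r : Fin t → Fin m} (h : Chk M T c p r) : HasC G T := by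
  obtain ⟨h1, h2, h3, h4⟩ := h
  choose q hq using pq.cover
  have hqu : ∀ v i, v ∈ B i → q v = i := by
    intro v i hv
    by_contra hne
    exact (Finset.disjoint_left.1 (pq.disj _ _ hne)) (hq v) hv
  have hfib : ∀ w v, v ∈ univ.filter (fun v => c (q v) = w) ↔ ∃ i, c i = w ∧ v ∈ B i := by
    intro w v
    simp only [mem_filter, mem_univ, true_and]
    constructor
    · intro h; exact ⟨q v, h, hq v⟩
    · rintro ⟨i, hi, hv⟩
      rw [hqu v i hv]; exact hi
  have hsub : ∀ w i, c i = w → B i ⊆ univ.filter (fun v => c (q v) = w) := by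
    intro w i hi v hv
    rw [hfib]; exact ⟨i, hi, hv⟩
  have step : ∀ i (U : Finset V), Cn G U → B (p i) ⊆ U → Cn G (B i ∪ U) := by
    intro i U hU hs
    apply (pq.cn i).union hU
    rcases (h1 i).2.1 with he | ha
    · right
      rw [he] at hs
      obtain ⟨x, hx⟩ := (pq.cn i).1
      exact ⟨x, mem_inter.2 ⟨hx, hs hx⟩⟩
    · by_cases he : p i = i
      · right
        rw [he] at hs
        obtain ⟨x, hx⟩ := (pq.cn i).1
        exact ⟨x, mem_inter.2 ⟨hx, hs hx⟩⟩
      · left
        exact (pq.yes i (p i) (Ne.symm he) ha).mono (Subset.refl _) hs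
  refine ⟨fun v => c (q v), fun w => ?_, fun w w' hne => ?_⟩
  · obtain ⟨x0, hx0⟩ := (pq.cn (r w)).1
    apply cn_of_cover (r := x0) (hsub w _ (h2 w) hx0)
    intro x hx
    rw [hfib] at hx
    obtain ⟨i, hi, hxi⟩ := hx
    have hp1 := (h1 i).1
    have hp2 := (h1 (p i)).1
    have hp3 := (h1 (p (p i))).1
    have e3 := (h1 i).2.2
    refine ⟨B i ∪ (B (p i) ∪ (B (p (p i)) ∪ B (p (p (p i))))), ?_, ?_, ?_, ?_⟩
    · refine union_subset (hsub _ _ hi) (union_subset (hsub _ _ ?_) (union_subset (hsub _ _ ?_) (hsub _ _ ?_)))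
      · rw [hp1, hi]
      · rw [hp2, hp1, hi]
      · rw [hp3, hp2, hp1, hi]
    · apply step _ _ _ subset_union_left
      apply step _ _ _ subset_union_left
      apply step _ _ (pq.cn _) (Subset.refl _)
    · rw [e3, hi]; simp [hx0]
    · simp [hxi]
  · constructor
    · intro hT
      obtain ⟨i, j, hi, hj, hM⟩ := h4 w w' hne hT
      have hij : i ≠ j := by rintro rfl; exact hne (hi.symm.trans hj)
      exact (pq.yes i j hij hM).mono (hsub _ _ hi) (hsub _ _ hj)
    · rintro ⟨x, hx, y, hy, ha⟩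
      by_contra hT
      rw [hfib] at hx hy
      obtain ⟨i, hi, hxi⟩ := hx
      obtain ⟨j, hj, hyj⟩ := hy
      have hcij : c i ≠ c j := by rw [hi, hj]; exact hne
      have hij : i ≠ j := by rintro rfl; exact hcij rfl
      have := h3 i j hcij (by rw [hi, hj]; simpa using hT)
      exact pq.no i j hij this ⟨x, hxi, y, hyj, ha⟩

/-- adjacency of the gem: path `0 1 2 3`, hub `4` -/
def gemT (i j : Fin 5) : Bool := i.val = 4 || j.val = 4 || i.val + 1 = j.val || j.val + 1 = i.val

/-- adjacency of `X5`: `K₅` minus `01`, `12`. -/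
def x5T (i j : Fin 5) : Bool :=
  !((i.val = 0 && j.val = 1) || (i.val = 1 && j.val = 0) || (i.val = 1 && j.val = 2) ||
    (i.val = 2 && j.val = 1))

def k4T (_ _ : Fin 4) : Bool := true

lemma gem_adj (i j : Fin 5) : gem.Adj i j ↔ (i ≠ j ∧ gemT i j = true) := by
  fin_cases i <;> fin_cases j <;> simp [gem, gemT]

lemma x5_adj (i j : Fin 5) : X5.Adj i j ↔ (i ≠ j ∧ x5T i j = true) := by
  fin_cases i <;> fin_cases j <;> simp [X5, x5T]

end Pool.Agent.H175R2
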