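import Pool.Agent.H175R2.Blocks
import Pool.Agent.H175R2.Menger

/-! Graphs without a `K₄` contraction. -/

namespace Pool.Agent.H175R2

open Finset Classical

variable {V : Type} {G : SimpleGraph V}

/-- pairwise touching disjoint connected sets of a connected graph give a contraction to a
complete graph -/
lemma hasC_complete [Fintype V] (hG : Cn G univ) {m : ℕ} (hm : 0 < m) (B : Fin m → Finset V)
    (h1 : ∀ i, Cn G (B i)) (h2 : ∀ i j, i ≠ j → Disjoint (B i) (B j))
    (h3 : ∀ i j, i ≠ j → Tc G (B i) (B j)) : HasC G (fun _ _ : Fin m => true) := by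
  obtain ⟨P, hP⟩ := ((univ : Finset (Fin m → Finset V)).filter (fun P =>
      (∀ i, Cn G (P i)) ∧ (∀ i j, i ≠ j → Disjoint (P i) (P j)) ∧
      (∀ i j, i ≠ j → Tc G (P i) (P j)))).exists_maximal
    ⟨B, by simp only [mem_filter, mem_univ, true_and]; exact ⟨h1, h2, h3⟩⟩
  have hp := hP.prop
  simp only [mem_filter, mem_univ, true_and] at hp
  obtain ⟨p1, p2, p3⟩ := hp
  have cover : ∀ v, ∃ i, v ∈ P i := by
    by_contra hcon
    push Not at hcon
    obtain ⟨v, hv⟩ := hcon
    obtain ⟨x0, hx0⟩ := (p1 ⟨0, hm⟩).1
    obtain ⟨x, hx, y, hy, hxy⟩ := hG.2 (univ.biUnion P) (subset_univ _)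
      ⟨x0, mem_biUnion.2 ⟨_, mem_univ _, hx0⟩⟩ ⟨v, by simp [hv]⟩
    rw [mem_biUnion] at hx
    obtain ⟨i, _, hx⟩ := hx
    have hy' : ∀ j, y ∉ P j := by
      intro j hj
      exact (mem_sdiff.1 hy).2 (mem_biUnion.2 ⟨j, mem_univ _, hj⟩)
    have hle : P ≤ Function.update P i (P i ∪ {y}) := by
      intro j
      by_cases hj : j = i
      · subst hj; simp
      · simp [hj]
    have := hP.le_of_ge (y := Function.update P i (P i ∪ {y})) (by
      simp only [mem_filter, mem_univ, true_and]
      refine ⟨fun j => ?_, fun j k hjk => ?_, fun j k hjk => ?_⟩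
      · by_cases hj : j = i
        · subst hj
          rw [Function.update_self]
          exact (p1 j).union (Cn.singleton y) (Or.inl ⟨x, hx, y, by simp, hxy⟩)
        · rw [Function.update_of_ne hj]; exact p1 j
      · by_cases hj : j = i
        · subst hj
          rw [Function.update_self, Function.update_of_ne (Ne.symm hjk), disjoint_union_left]
          exact ⟨p2 j k hjk, by simpa using hy' k⟩
        · rw [Function.update_of_ne hj]
          by_cases hk : k = i
          · subst hk
            rw [Function.update_self, disjoint_union_right]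
            exact ⟨p2 j k hjk, by simpa using hy' j⟩
          · rw [Function.update_of_ne hk]; exact p2 j k hjk
      · exact (p3 j k hjk).mono (hle j) (hle k)) hle
    have h4 := this i
    rw [Function.update_self] at h4
    exact hy' i (h4 (by simp))
  have pq : PQ G (fun _ _ : Fin m => 1) P := ⟨p1, p2, cover, fun i j h _ => p3 i j h, by simp⟩
  exact hasC_of_chk pq (c := id) (p := id) (r := id) ⟨by simp, by simp, by simp, by
    intro w w' _ _; exact ⟨w, w', rfl, rfl, rfl⟩⟩

/-- assembling the components of a set with small boundary -/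
lemma dt_assemble [Fintype V] {K : ℕ} {R O : Finset V} (hR : R.Nonempty)
    (hO : ∀ x ∈ R, ∀ y, y ∉ R → G.Adj x y → y ∈ O) (hK : 2 ^ O.card ≤ K)
    (h : ∀ x ∈ R, DT G K univ (cpt G R x)) : DT G K univ R := by
  have key : ∀ n : ℕ, ∀ S ⊆ R, S.card ≤ n → S.Nonempty → (∀ x ∈ S, cpt G R x ⊆ S) →
      DT G K univ S := by
    intro n
    induction n with
    | zero =>
      intro S _ hc hn
      rw [Nat.le_zero, card_eq_zero] at hc
      rw [hc] at hn; simp at hn
    | succ n ih =>
      intro S hS hc hn hcl
      obtain ⟨x, hx⟩ := hn
      by_cases he : (S \ cpt G R x).Nonempty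
      · have e : S = cpt G R x ∪ (S \ cpt G R x) := by
          rw [union_sdiff_of_subset (hcl x hx)]
        have hcard : (S \ cpt G R x).card ≤ n := by
          have : (S \ cpt G R x).card < S.card := card_lt_card (by
            refine ⟨sdiff_subset, fun h' => ?_⟩
            exact (mem_sdiff.1 (h' hx)).2 (mem_cpt_self (hS hx)))
          omega
        have h2 := ih (S \ cpt G R x) (sdiff_subset.trans hS) hcard he (by
          intro y hy z hz
          obtain ⟨hyS, hyc⟩ := mem_sdiff.1 hy
          refine mem_sdiff.2 ⟨hcl y hyS hz, fun hz' => hyc ?_⟩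
          have e1 := cpt_eq_of_mem (hS hyS) hz
          have e2 := cpt_eq_of_mem (hS hx) hz'
          rw [← e2, e1]
          exact mem_cpt_self (hS hyS))
        rw [e]
        refine DT.node disjoint_sdiff (h x (hS hx)) h2 ?_
        rw [← e]
        refine (nt_le_pow (O := O) fun a ha z hz => ?_).trans hK
        rw [mem_on] at hz
        refine hO a (hS ha) z (fun hzR => ?_) hz.2
        exact not_adj_cpt (hS ha) (mem_cpt_self (hS ha)) hzR (fun h' => hz.1.2 (hcl a ha h')) hz.2
      · have : S = cpt G R x := by
          rw [not_nonempty_iff_eq_empty, sdiff_eq_empty_iff_subset] at he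
          exact subset_antisymm he (hcl x hx)
        rw [this]; exact h x (hS hx)
  exact key R.card R (Subset.refl _) le_rfl hR (fun x _ => cpt_subset)

/-- removing one component of `D \ z` from `D` leaves a connected set -/
lemma Cn.sdiff_cpt {D : Finset V} (hD : Cn G D) {z x : V} (hz : z ∈ D) (hx : x ∈ D.erase z) :
    Cn G (D \ cpt G (D.erase z) x) := by
  have hzU : z ∈ D \ cpt G (D.erase z) x :=
    mem_sdiff.2 ⟨hz, fun h => notMem_erase z D (cpt_subset h)⟩
  apply cn_of_cpt_eq hzU
  apply subset_antisymm cpt_subset
  intro y hy
  by_contra hyz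
  have hyne : y ≠ z := by rintro rfl; exact hyz (mem_cpt_self hy)
  obtain ⟨hyD, hyK⟩ := mem_sdiff.1 hy
  have hyE : y ∈ D.erase z := mem_erase.2 ⟨hyne, hyD⟩
  -- the component of `y` in `D \ z` touches `z`
  have hsub : cpt G (D.erase z) y ⊆ D \ cpt G (D.erase z) x := by
    intro u hu
    refine mem_sdiff.2 ⟨mem_of_mem_erase (cpt_subset hu), fun hu' => hyK ?_⟩
    have e1 := cpt_eq_of_mem hyE hu
    have e2 := cpt_eq_of_mem hx hu'
    rw [← e2, e1]; exact mem_cpt_self hyE
  obtain ⟨a, ha, b, hb, hab⟩ := hD.2 (cpt G (D.erase z) y) (cpt_subset.trans (erase_subset _ _))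
    ⟨y, mem_cpt_self hyE⟩ ⟨z, mem_sdiff.2 ⟨hz, fun h => notMem_erase z D (cpt_subset h)⟩⟩
  obtain ⟨hb1, hb2⟩ := mem_sdiff.1 hb
  have hbz : b = z := by
    by_contra hbz
    exact not_adj_cpt hyE ha (mem_erase.2 ⟨hbz, hb1⟩) hb2 hab
  subst hbz
  have : Cn G (cpt G (D.erase b) y ∪ {b}) :=
    (cn_cpt hyE).union (Cn.singleton b) (Or.inl ⟨a, ha, b, by simp, hab⟩)
  have h3 := subset_cpt (S := D \ cpt G (D.erase b) x) (x := b)
    (union_subset hsub (by simpa using hzU)) this (by simp)
  exact hyz (h3 (mem_union_left _ (mem_cpt_self hyE)))

structure Term (G : SimpleGraph V) (D U W : Finset V) (u w : V) : Prop where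
  cD : Cn G D
  cU : Cn G U
  cW : Cn G W
  hu : u ∈ U
  hw : w ∈ W
  dU : Disjoint D U
  dW : Disjoint D W
  dUW : Disjoint U W
  tc : Tc G U W
  nb : ∀ x ∈ D, ∀ y, y ∉ D → G.Adj x y → y = u ∨ y = w

lemma Term.symm {D U W : Finset V} {u w : V} (h : Term G D U W u w) : Term G D W U w u :=
  ⟨h.cD, h.cW, h.cU, h.hw, h.hu, h.dW, h.dU, h.dUW.symm, h.tc.symm,
    fun x hx y hy hxy => (h.nb x hx y hy hxy).symm⟩

/-- step: a component of `D \ z` avoiding the neighbours of `w` -/
lemma Term.step {D U W : Finset V} {u w : V} (h : Term G D U W u w) {z x : V} (hz : z ∈ D)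
    (hx : x ∈ D.erase z) (hB : (D.filter (fun y => G.Adj w y)).Nonempty)
    (hxB : ∀ y ∈ cpt G (D.erase z) x, ¬ G.Adj w y) :
    Term G (cpt G (D.erase z) x) U ((D \ cpt G (D.erase z) x) ∪ W) u z := by
  have hzK : z ∉ cpt G (D.erase z) x := fun h => notMem_erase z D (cpt_subset h)
  have hKD : cpt G (D.erase z) x ⊆ D := cpt_subset.trans (erase_subset _ _)
  refine ⟨cn_cpt hx, h.cU, ?_, h.hu, mem_union_left _ (mem_sdiff.2 ⟨hz, hzK⟩),
    h.dU.mono_left hKD, ?_, ?_, h.tc.mono (Subset.refl _) subset_union_right, ?_⟩
  · obtain ⟨b, hb⟩ := hB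
    rw [mem_filter] at hb
    refine (h.cD.sdiff_cpt hz hx).union h.cW (Or.inl ⟨b, mem_sdiff.2 ⟨hb.1, fun hbK => hxB b hbK hb.2⟩,
      w, h.hw, hb.2.symm⟩)
  · rw [disjoint_union_right]
    exact ⟨disjoint_sdiff, h.dW.mono_left hKD⟩
  · rw [disjoint_union_right]
    exact ⟨h.dU.symm.mono_right sdiff_subset, h.dUW⟩
  · intro a ha b hb hab
    by_cases hbD : b ∈ D
    · right
      by_contra hbz
      exact not_adj_cpt hx ha (mem_erase.2 ⟨hbz, hbD⟩) hb hab
    · rcases h.nb a (hKD ha) b hbD hab with h1 | h1
      · left; exact h1
      · subst h1; exact absurd hab.symm (hxB a ha)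

lemma sp_rec [Fintype V] (hG : Cn G univ) (hT : ¬ HasC G (fun _ _ : Fin 4 => true)) :
    ∀ n : ℕ, ∀ (D U W : Finset V) (u w : V), D.card ≤ n → Term G D U W u w →
      DT G 8 univ D := by
  intro n
  induction n with
  | zero =>
    intro D U W u w hn h
    have := card_pos.2 h.cD.1
    omega
  | succ n ih =>
    intro D U W u w hn h
    -- it suffices to find a good `z`
    have good : ∀ z ∈ D, (∀ x ∈ D.erase z, ∃ (U' W' : Finset V) (u' w' : V),
        Term G (cpt G (D.erase z) x) U' W' u' w') → DT G 8 univ D := by
      intro z hz hall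
      by_cases hne : (D.erase z).Nonempty
      · have hcard : ∀ x, (cpt G (D.erase z) x).card ≤ n := by
          intro x
          have := card_le_card (cpt_subset (G := G) (S := D.erase z) (x := x))
          rw [card_erase_of_mem hz] at this
          omega
        have h1 : DT G 8 univ (D.erase z) := by
          refine dt_assemble (O := {z, u, w}) hne ?_ ?_ ?_
          · intro x hx y hy hxy
            by_cases hyD : y ∈ D
            · have : y = z := by
                by_contra hne'
                exact hy (mem_erase.2 ⟨hne', hyD⟩)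
              simp [this]
            · rcases h.nb x (mem_of_mem_erase hx) y hyD hxy with h1 | h1 <;> simp [h1]
          · calc 2 ^ ({z, u, w} : Finset V).card ≤ 2 ^ 3 := Nat.pow_le_pow_right (by omega) card_le_three
              _ = 8 := by norm_num
          · intro x hx
            obtain ⟨U', W', u', w', ht⟩ := hall x hx
            exact ih _ U' W' u' w' (hcard x) ht
        have e : D = D.erase z ∪ {z} := by
          ext y; simp only [mem_union, mem_erase, mem_singleton]
          by_cases hyz : y = z
          · subst hyz; simp [hz]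
          · simp [hyz]
        rw [e]
        refine DT.node (by simp) h1 (DT.leaf z) ?_
        rw [← e]
        refine (nt_le_pow (O := {u, w}) fun x hx y hy => ?_).trans ?_
        · rw [mem_on] at hy
          rcases h.nb x hx y hy.1.2 hy.2 with h1 | h1 <;> simp [h1]
        · calc 2 ^ ({u, w} : Finset V).card ≤ 2 ^ 2 := Nat.pow_le_pow_right (by omega) card_le_two
            _ ≤ 8 := by norm_num
      · have : D = {z} := by
          rw [not_nonempty_iff_eq_empty, erase_eq_empty_iff] at hne
          rcases hne with h1 | h1
          · rw [h1] at hz; simp at hz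
          · exact h1
        rw [this]; exact DT.leaf z
    -- neighbours of the terminals
    have single : ∀ (U W : Finset V) (u w : V), Term G D U W u w →
        (D.filter (fun y => G.Adj u y)).Nonempty → ¬ (D.filter (fun y => G.Adj w y)).Nonempty →
        DT G 8 univ D := by
      intro U W u w h hA hB
      obtain ⟨z, hz⟩ := hA
      rw [mem_filter] at hz
      refine good z hz.1 fun x hx => ⟨{u}, {z}, u, z, cn_cpt hx, Cn.singleton u, Cn.singleton z,
        by simp, by simp, ?_, ?_, ?_, ⟨u, by simp, z, by simp, hz.2⟩, ?_⟩
      · have : u ∉ D := fun h' => (Finset.disjoint_left.1 h.dU) h' h.hu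
        rw [disjoint_singleton_right]
        exact fun h' => this (mem_of_mem_erase (cpt_subset h'))
      · rw [disjoint_singleton_right]
        exact fun h' => notMem_erase z D (cpt_subset h')
      · rw [disjoint_singleton]; exact hz.2.ne
      · intro a ha b hb hab
        by_cases hbD : b ∈ D
        · right
          by_contra hbz
          exact not_adj_cpt hx ha (mem_erase.2 ⟨hbz, hbD⟩) hb hab
        · rcases h.nb a (mem_of_mem_erase (cpt_subset ha)) b hbD hab with h1 | h1
          · left; exact h1
          · exfalso
            subst h1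
            exact hB ⟨a, mem_filter.2 ⟨mem_of_mem_erase (cpt_subset ha), hab.symm⟩⟩
    by_cases hA : (D.filter (fun y => G.Adj u y)).Nonempty
    · by_cases hB : (D.filter (fun y => G.Adj w y)).Nonempty
      · by_cases hM : ∀ z ∈ D, ∃ Q ⊆ D.erase z, Cn G Q ∧
            (Q ∩ D.filter (fun y => G.Adj u y)).Nonempty ∧
            (Q ∩ D.filter (fun y => G.Adj w y)).Nonempty
        · exfalso
          obtain ⟨Y, C, hYC, hd, hcY, hcC, hYA, hYB, hCA, hCB⟩ := h.cD.menger hM
          have hY : Y ⊆ D := by rw [← hYC]; exact subset_union_left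
          have hC : C ⊆ D := by rw [← hYC]; exact subset_union_right
          have tcof : ∀ (S S' : Finset V) (s : V), s ∈ S' →
              (S ∩ D.filter (fun y => G.Adj s y)).Nonempty → Tc G S S' := by
            rintro S S' s hs ⟨y, hy⟩
            rw [mem_inter, mem_filter] at hy
            exact ⟨y, hy.1, s, hs, hy.2.2.symm⟩
          have t1 := tcof Y U u h.hu hYA
          have t2 := tcof Y W w h.hw hYB
          have t3 := tcof C U u h.hu hCA
          have t4 := tcof C W w h.hw hCB
          have t5 : Tc G Y C := h.cD.tc_of_cover hYC.symm hd hcY.1 hcC.1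
          have t6 := h.tc
          have d1 := h.dU.mono_left hY
          have d2 := h.dW.mono_left hY
          have d3 := h.dU.mono_left hC
          have d4 := h.dW.mono_left hC
          have d5 := h.dUW
          apply hT
          refine hasC_complete hG (by norm_num) ![U, W, Y, C] ?_ ?_ ?_
          · intro i
            fin_cases i
            · exact h.cU
            · exact h.cW
            · exact hcY
            · exact hcC
          · intro i j hij
            fin_cases i <;> fin_cases j <;> first
              | exact absurd rfl hij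
              | assumption
              | (apply Disjoint.symm; assumption)
          · intro i j hij
            fin_cases i <;> fin_cases j <;> first
              | exact absurd rfl hij
              | assumption
              | (apply Tc.symm; assumption)
        · push Not at hM
          obtain ⟨z, hz, hzQ⟩ := hM
          refine good z hz fun x hx => ?_
          have hK := hzQ (cpt G (D.erase z) x) cpt_subset (cn_cpt hx)
          have hKD : cpt G (D.erase z) x ⊆ D := cpt_subset.trans (erase_subset _ _)
          by_cases h1 : ∀ y ∈ cpt G (D.erase z) x, ¬ G.Adj w y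
          · exact ⟨_, _, _, _, h.step hz hx hB h1⟩
          · push Not at h1
            obtain ⟨y1, hy1, hy2⟩ := h1
            refine ⟨_, _, _, _, h.symm.step hz hx hA ?_⟩
            intro y hy hyu
            have h2 := hK ⟨y, mem_inter.2 ⟨hy, mem_filter.2 ⟨hKD hy, hyu⟩⟩⟩
            have : y1 ∈ cpt G (D.erase z) x ∩ D.filter (fun y => G.Adj w y) :=
              mem_inter.2 ⟨hy1, mem_filter.2 ⟨hKD hy1, hy2⟩⟩
            rw [h2] at this
            simp at this
      · exact single U W u w h hA hB
    · by_cases hB : (D.filter (fun y => G.Adj w y)).Nonempty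
      · exact single W U w u h.symm hB hA
      · exfalso
        -- `D` is closed, contradicting connectivity
        have huD : u ∉ D := fun h' => (Finset.disjoint_left.1 h.dU) h' h.hu
        obtain ⟨a, ha, b, hb, hab⟩ := hG.2 D (subset_univ _) h.cD.1 ⟨u, by simp [huD]⟩
        rcases h.nb a ha b (mem_sdiff.1 hb).2 hab with h1 | h1
        · subst h1; exact hA ⟨a, mem_filter.2 ⟨ha, hab.symm⟩⟩
        · subst h1; exact hB ⟨a, mem_filter.2 ⟨ha, hab.symm⟩⟩

/-- connected graphs without a `K₄` contraction -/
theorem dt_of_no_k4 [Fintype V] (hG : Cn G univ) (hT : ¬ HasC G (fun _ _ : Fin 4 => true)) :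
    DT G 8 univ univ := by
  obtain ⟨u, _⟩ := hG.1
  by_cases hne : (univ.erase u).Nonempty
  · have h1 : DT G 8 univ (univ.erase u) := by
      refine dt_assemble (O := {u}) hne ?_ (by simp) ?_
      · intro x hx y hy hxy
        have : y = u := by
          by_contra hne'
          exact hy (mem_erase.2 ⟨hne', mem_univ _⟩)
        simp [this]
      · intro x hx
        set K := cpt G (univ.erase u) x with hK
        have hKc : Cn G K := cn_cpt hx
        have huK : u ∉ K := fun h => notMem_erase u univ (cpt_subset h)
        have hnb : ∀ a ∈ K, ∀ b, b ∉ K → G.Adj a b → b = u := by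
          intro a ha b hb hab
          by_contra hbu
          exact not_adj_cpt hx ha (mem_erase.2 ⟨hbu, mem_univ _⟩) hb hab
        obtain ⟨z, hz, b, hb, hzb⟩ := hG.2 K (subset_univ _) hKc.1 ⟨u, by simp [huK]⟩
        have hbu := hnb z hz b (mem_sdiff.1 hb).2 hzb
        subst hbu
        by_cases hne2 : (K.erase z).Nonempty
        · have h2 : DT G 8 univ (K.erase z) := by
            refine dt_assemble (O := {z, b}) hne2 ?_ ?_ ?_
            · intro x hx y hy hxy
              by_cases hyK : y ∈ K
              · have : y = z := by
                  by_contra hne'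
                  exact hy (mem_erase.2 ⟨hne', hyK⟩)
                simp [this]
              · have := hnb x (mem_of_mem_erase hx) y hyK hxy
                simp [this]
            · calc 2 ^ ({z, b} : Finset V).card ≤ 2 ^ 2 := Nat.pow_le_pow_right (by omega) card_le_two
                _ ≤ 8 := by norm_num
            · intro y hy
              refine sp_rec hG hT (cpt G (K.erase z) y).card _ {b} {z} b z le_rfl ⟨cn_cpt hy,
                Cn.singleton b, Cn.singleton z, by simp, by simp, ?_, ?_, ?_,
                ⟨b, by simp, z, by simp, hzb.symm⟩, ?_⟩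
              · rw [disjoint_singleton_right]
                exact fun h' => huK (mem_of_mem_erase (cpt_subset h'))
              · rw [disjoint_singleton_right]
                exact fun h' => notMem_erase z K (cpt_subset h')
              · rw [disjoint_singleton]; exact hzb.ne'
              · intro a ha c hc hac
                by_cases hcK : c ∈ K
                · right
                  by_contra hbz
                  exact not_adj_cpt hy ha (mem_erase.2 ⟨hbz, hcK⟩) hc hac
                · left; exact hnb a (mem_of_mem_erase (cpt_subset ha)) c hcK hac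
          have e : K = K.erase z ∪ {z} := by
            ext y; simp only [mem_union, mem_erase, mem_singleton]
            by_cases hyz : y = z
            · subst hyz; simp [hz]
            · simp [hyz]
          rw [e]
          refine DT.node (by simp) h2 (DT.leaf z) ?_
          rw [← e]
          refine (nt_le_pow (O := {b}) fun x hx y hy => ?_).trans (by simp)
          rw [mem_on] at hy
          simp [hnb x hx y hy.1.2 hy.2]
        · have : K = {z} := by
            rw [not_nonempty_iff_eq_empty, erase_eq_empty_iff] at hne2
            rcases hne2 with h1 | h1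
            · rw [h1] at hz; simp at hz
            · exact h1
          rw [this]; exact DT.leaf z
    have e : (univ : Finset V) = univ.erase u ∪ {u} := by
      ext y; simp only [mem_union, mem_erase, mem_singleton, mem_univ, and_true, true_iff]
      by_cases hyz : y = u
      · simp [hyz]
      · simp [hyz]
    have : DT G 8 univ (univ.erase u ∪ {u}) := by
      refine DT.node (by simp) h1 (DT.leaf u) ?_
      rw [← e, nt_closed]
      · exact Nat.zero_le _
      · intro a _ z hz hz' _
        exact hz' hz
    rw [← e] at this; exact this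
  · have : (univ : Finset V) = {u} := by
      rw [not_nonempty_iff_eq_empty, erase_eq_empty_iff] at hne
      rcases hne with h1 | h1
      · exact absurd (mem_univ u) (by rw [h1]; simp)
      · exact h1
    rw [this]; exact DT.leaf u

end Pool.Agent.H175R2
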