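import Pool.Agent.H175R2.Gem1

/-! Centre-or-triangle lemma for a bag. -/

namespace Pool.Agent.H175R2

open Finset Classical

/-- labels of a set: the indices `i` such that the set touches `L i` -/
noncomputable def lab {V : Type} (G : SimpleGraph V) {m : ℕ} (L : Fin m → Finset V) (X : Finset V) :
    Finset (Fin m) := univ.filter (fun i => Tc G X (L i))

section

variable {V : Type} {G : SimpleGraph V} {m : ℕ} {L : Fin m → Finset V}

lemma mem_lab {X : Finset V} {i : Fin m} : i ∈ lab G L X ↔ Tc G X (L i) := by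
  simp [lab]

lemma lab_mono {X Y : Finset V} (h : X ⊆ Y) : lab G L X ⊆ lab G L Y := by
  intro i hi
  rw [mem_lab] at hi ⊢
  exact hi.mono h (Subset.refl _)

lemma lab_union (X Y : Finset V) : lab G L (X ∪ Y) = lab G L X ∪ lab G L Y := by
  ext i
  rw [mem_union, mem_lab, mem_lab, mem_lab, Tc.union_left]

lemma Split.lab_eq {B X Y : Finset V} (s : Split G B X Y) : lab G L B = lab G L X ∪ lab G L Y := by
  rw [← s.u, lab_union]

end

theorem center_or_triangle {V : Type} {G : SimpleGraph V} {m : ℕ} (L : Fin m → Finset V) (B : Finset V)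
    (hB : Cn G B) (h3 : 3 ≤ (lab G L B).card)
    (hno : ∀ X Y, Split G B X Y → ¬ (2 ≤ (lab G L X).card ∧ 2 ≤ (lab G L Y).card)) :
    (∃ c ∈ B, ∀ x ∈ B \ {c}, (lab G L (cpt G (B \ {c}) x)).card ≤ 1) ∨
    (∃ T0 T1 T2 : Finset V, ∃ i0 i1 i2 : Fin m, Cn G T0 ∧ Cn G T1 ∧ Cn G T2 ∧ Tc G T0 T1 ∧ Tc G T0 T2 ∧
      Tc G T1 T2 ∧
      Disjoint T0 T1 ∧ Disjoint T0 T2 ∧ Disjoint T1 T2 ∧ T0 ∪ T1 ∪ T2 = B ∧
      lab G L T0 = {i0} ∧ lab G L T1 = {i1} ∧ lab G L T2 = {i2} ∧ i0 ≠ i1 ∧ i0 ≠ i2 ∧ i1 ≠ i2) := by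
  obtain ⟨b, hb⟩ := hB.1
  by_cases hsing : B = {b}
  · left
    refine ⟨b, hb, fun x hx => ?_⟩
    rw [hsing] at hx
    simp at hx
  -- the family of admissible splits
  have key : ∀ X Y, Split G B X Y → (lab G L X).card ≤ 1 ∨ (lab G L Y).card ≤ 1 := by
    intro X Y s
    have := hno X Y s
    by_contra hc
    push Not at hc
    exact this ⟨hc.1, hc.2⟩
  have hex : ∃ T K, Split G B T K ∧ (lab G L T).card ≤ 1 := by
    obtain ⟨z, hz, hzb, hc⟩ := hB.leaf_ne hb hsing
    have s : Split G B {z} (B.erase z) := by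
      refine ⟨Cn.singleton z, hc, ?_, ?_⟩
      · ext y
        simp only [mem_union, mem_singleton, mem_erase]
        constructor
        · rintro (h | h)
          · rw [h]; exact hz
          · exact h.2
        · intro h
          by_cases hy : y = z
          · exact Or.inl hy
          · exact Or.inr ⟨hy, h⟩
      · simp
    rcases key _ _ s with h | h
    · exact ⟨_, _, s, h⟩
    · exact ⟨_, _, s.symm, h⟩
  -- maximal `T0`
  obtain ⟨P, hPm, hPmax⟩ := ((B.powerset ×ˢ B.powerset).filter (fun P : Finset V × Finset V =>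
      Split G B P.1 P.2 ∧ (lab G L P.1).card ≤ 1)).exists_max_image (fun P => P.1.card) (by
    obtain ⟨T, K, s, h⟩ := hex
    exact ⟨(T, K), by simp [s, h, s.left, s.right]⟩)
  obtain ⟨T0, K⟩ := P
  simp only [mem_filter, mem_product, mem_powerset] at hPm hPmax
  obtain ⟨⟨hT0B, hKB⟩, s, hT1⟩ := hPm
  have hmax : ∀ X Y, Split G B X Y → T0.card < X.card → 2 ≤ (lab G L X).card := by
    intro X Y s' hlt
    by_contra hc
    push Not at hc
    have := hPmax (X, Y) ⟨⟨s'.left, s'.right⟩, s', by simpa using Nat.lt_succ_iff.1 hc⟩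
    simp only at this
    omega
  have hK2 : 2 ≤ (lab G L K).card := by
    have := card_union_le (lab G L T0) (lab G L K)
    rw [← s.lab_eq] at this
    omega
  -- a vertex of `K` touching `T0`
  obtain ⟨t, ht, z, hz, htz⟩ := s.tc hB
  have hzB : z ∈ B := hKB hz
  have hzT : z ∉ T0 := fun h => (Finset.disjoint_left.1 s.d) h hz
  have hW : Cn G (T0 ∪ {z}) := s.cX.union (Cn.singleton z) (Or.inl ⟨t, ht, z, by simp, htz⟩)
  have hWB : T0 ∪ {z} ⊆ B := union_subset hT0B (by simpa using hzB)
  have hBW : B \ (T0 ∪ {z}) = K \ {z} := by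
    ext y
    have := s.mem y
    simp only [mem_sdiff, mem_union, mem_singleton]
    tauto
  -- components of `K \ {z}`
  have hcomp : ∀ x ∈ K \ {z}, (lab G L (cpt G (K \ {z}) x)).card ≤ 1 := by
    intro x hx
    have hx' : x ∈ B \ (T0 ∪ {z}) := by rw [hBW]; exact hx
    have hc := hB.sdiff_cpt' hW hWB hx'
    rw [hBW] at hc
    have hsub : cpt G (K \ {z}) x ⊆ B := cpt_subset.trans (sdiff_subset.trans hKB)
    have s' : Split G B (B \ cpt G (K \ {z}) x) (cpt G (K \ {z}) x) :=
      ⟨hc, cn_cpt hx, by rw [sdiff_union_of_subset hsub], sdiff_disjoint⟩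
    by_contra hcon
    push Not at hcon
    have h1 := hno _ _ s'
    apply h1
    refine ⟨hmax _ _ s' ?_, hcon⟩
    apply card_lt_card
    rw [Finset.ssubset_iff_of_subset]
    · refine ⟨z, mem_sdiff.2 ⟨hzB, fun h => ?_⟩, hzT⟩
      have := cpt_subset h
      simp at this
    · intro y hy
      refine mem_sdiff.2 ⟨hT0B hy, fun h => ?_⟩
      have h' := (mem_sdiff.1 (cpt_subset h)).1
      exact (Finset.disjoint_left.1 s.d) hy h'
  by_cases htch : ∃ x ∈ K \ {z}, Tc G T0 (cpt G (K \ {z}) x)
  · right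
    obtain ⟨x, hx, hT⟩ := htch
    set K1 := cpt G (K \ {z}) x with hK1
    have hK1K : K1 ⊆ K := cpt_subset.trans sdiff_subset
    have hzK1 : z ∉ K1 := by
      intro h
      have := cpt_subset h
      simp at this
    have hcK1 : Cn G K1 := cn_cpt hx
    have hcR : Cn G (K \ K1) := s.cY.sdiff_cpt' (Cn.singleton z) (by simpa using hz) hx
    have hzR : z ∈ K \ K1 := mem_sdiff.2 ⟨hz, hzK1⟩
    have s1 : Split G B (T0 ∪ K1) (K \ K1) := by
      refine ⟨s.cX.union hcK1 (Or.inl hT), hcR, ?_, ?_⟩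
      · rw [union_assoc, union_sdiff_of_subset hK1K, s.u]
      · rw [disjoint_union_left]
        exact ⟨s.d.mono_right sdiff_subset, disjoint_sdiff⟩
    have hlt : T0.card < (T0 ∪ K1).card := by
      apply card_lt_card
      rw [Finset.ssubset_iff_of_subset subset_union_left]
      obtain ⟨y, hy⟩ := hcK1.1
      exact ⟨y, mem_union_right _ hy, fun h => (Finset.disjoint_left.1 s.d) h (hK1K hy)⟩
    have hc1 : 2 ≤ (lab G L (T0 ∪ K1)).card := hmax _ _ s1 hlt
    have hc2 : (lab G L (K \ K1)).card ≤ 1 := by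
      by_contra hcon
      push Not at hcon
      exact hno _ _ s1 ⟨hc1, hcon⟩
    have hc3 : (lab G L K1).card ≤ 1 := hcomp x hx
    have hB3 : lab G L B = lab G L T0 ∪ lab G L K1 ∪ lab G L (K \ K1) := by
      rw [s1.lab_eq, lab_union]
    have e1 := card_union_le (lab G L T0 ∪ lab G L K1) (lab G L (K \ K1))
    have e2 := card_union_le (lab G L T0) (lab G L K1)
    rw [← hB3] at e1
    have f0 : (lab G L T0).card = 1 := by omega
    have f1 : (lab G L K1).card = 1 := by omega
    have f2 : (lab G L (K \ K1)).card = 1 := by omega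
    have f3 : (lab G L T0 ∪ lab G L K1).card = 2 := by omega
    obtain ⟨i0, hi0⟩ := card_eq_one.1 f0
    obtain ⟨i1, hi1⟩ := card_eq_one.1 f1
    obtain ⟨i2, hi2⟩ := card_eq_one.1 f2
    refine ⟨T0, K1, K \ K1, i0, i1, i2, s.cX, hcK1, hcR, hT, ⟨t, ht, z, hzR, htz⟩,
      ?_, s.d.mono_right hK1K, s.d.mono_right sdiff_subset, disjoint_sdiff, ?_, hi0, hi1, hi2, ?_, ?_, ?_⟩
    · exact s.cY.tc_sdiff hK1K hcK1.1 ⟨z, hzR⟩
    · rw [union_assoc, union_sdiff_of_subset hK1K, s.u]
    · rintro rfl
      rw [hi0, hi1] at f3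
      simp at f3
    · rintro rfl
      rw [hi0, hi1, hi2] at hB3
      have hle : (lab G L B).card ≤ ({i0, i1} : Finset (Fin m)).card := by
        apply card_le_card
        rw [hB3]
        intro i hi
        simp only [mem_union, mem_singleton, mem_insert] at hi ⊢
        tauto
      have := card_le_two (a := i0) (b := i1)
      omega
    · rintro rfl
      rw [hi0, hi1, hi2] at hB3
      have hle : (lab G L B).card ≤ ({i0, i1} : Finset (Fin m)).card := by
        apply card_le_card
        rw [hB3]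
        intro i hi
        simp only [mem_union, mem_singleton, mem_insert] at hi ⊢
        tauto
      have := card_le_two (a := i0) (b := i1)
      omega
  · left
    push Not at htch
    -- no edge from `T0` to `K \ {z}`
    have hne : ∀ u ∈ T0, ∀ v ∈ K \ {z}, ¬ G.Adj u v := by
      intro u hu v hv huv
      exact htch v hv ⟨u, hu, v, mem_cpt_self hv, huv⟩
    have hBz : B \ {z} = T0 ∪ (K \ {z}) := by
      ext y
      have := s.mem y
      simp only [mem_sdiff, mem_union, mem_singleton]
      constructor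
      · tauto
      · rintro (h | h)
        · exact ⟨hT0B h, fun h' => hzT (h' ▸ h)⟩
        · exact ⟨hKB h.1, h.2⟩
    -- a connected subset of `B \ {z}` is inside `T0` or inside `K \ {z}`
    have hdich : ∀ C ⊆ B \ {z}, Cn G C → C ⊆ T0 ∨ C ⊆ K \ {z} := by
      intro C hC hcC
      by_cases h1 : (C ∩ T0).Nonempty
      · by_cases h2 : (C \ T0).Nonempty
        · exfalso
          obtain ⟨u, hu, v, hv, huv⟩ := hcC.2 (C ∩ T0) inter_subset_left h1 (by
            rw [sdiff_inter_self_left]; exact h2)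
          rw [sdiff_inter_self_left, mem_sdiff] at hv
          have hv' := hC hv.1
          rw [hBz, mem_union] at hv'
          exact hne u (mem_inter.1 hu).2 v (hv'.resolve_left hv.2) huv
        · left
          rw [not_nonempty_iff_eq_empty, sdiff_eq_empty_iff_subset] at h2
          exact h2
      · right
        intro y hy
        have hy' := hC hy
        rw [hBz, mem_union] at hy'
        refine hy'.resolve_left fun h => h1 ⟨y, mem_inter.2 ⟨hy, h⟩⟩
    refine ⟨z, hzB, fun x hx => ?_⟩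
    have hcx : Cn G (cpt G (B \ {z}) x) := cn_cpt hx
    rcases hdich _ cpt_subset hcx with h | h
    · exact (card_le_card (lab_mono h)).trans hT1
    · have hxK : x ∈ K \ {z} := h (mem_cpt_self hx)
      exact (card_le_card (lab_mono (subset_cpt h hcx (mem_cpt_self hx)))).trans (hcomp x hxK)

end Pool.Agent.H175R2
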