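import Pool.Agent.H175R2.XStateCert
import Pool.Agent.H175R2.Sp

/-! Dichotomy for quotients of `X5`-free graphs. -/

namespace Pool.Agent.H175R2

open Finset Classical

variable {V : Type} [Fintype V] {G : SimpleGraph V}

/-- `G` has a state quotient with `m` bags -/
def HasSt (G : SimpleGraph V) (m : ℕ) : Prop :=
  ∃ N ∈ sts m, ∃ B : Fin m → Finset V, PQ G (fun i j : Fin m => bM m N i j) B

/-- `G` has a quotient that is an exit -/
def ExitQ (G : SimpleGraph V) : Prop :=
  (∃ (m : ℕ) (M' : ℕ → ℕ → ℕ) (B' : Fin (m + 1) → Finset V),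
    PQ G (fun i j : Fin (m + 1) => M' i j) B' ∧ 5 ≤ m ∧ multChk (m + 1) M' = true) ∨
  (∃ B : Fin 6 → Finset V, PQ G (fun i j : Fin 6 => bM 6 W5N i j) B) ∨
  ∃ B : Fin 6 → Finset V, PQ G (fun i j : Fin 6 => bM 6 K33eN i j) B

/-- `G` has a quotient all of whose bags have centres -/
def CentQ (G : SimpleGraph V) : Prop :=
  ∃ (m : ℕ) (B : Fin m → Finset V), 4 ≤ m ∧ m ≤ 6 ∧ Part G B ∧
    (∀ k, 3 ≤ (lab G (Lk B k) (B k)).card) ∧
    ∀ k, ∃ c ∈ B k, ∀ x ∈ B k \ {c}, (lab G (Lk B k) (cpt G (B k \ {c}) x)).card ≤ 1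

lemma hasSt_four (hK : HasC G (fun _ _ : Fin 4 => true)) : HasSt G 4 := by
  obtain ⟨f, h1, h2⟩ := hK
  refine ⟨K4N, by simp [sts], fun w => univ.filter (fun v => f v = w), h1, ?_, ?_, ?_, ?_⟩
  · intro i j hij
    rw [Finset.disjoint_left]
    intro v hv hv'
    simp only [mem_filter, mem_univ, true_and] at hv hv'
    exact hij (hv.symm.trans hv')
  · intro v
    exact ⟨f v, by simp⟩
  · intro i j hij _
    exact (h2 i j hij).1 rfl
  · intro i j hij h0
    exfalso
    revert h0
    revert hij
    revert i j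
    decide

lemma st_step {m N : ℕ} (hN : N ∈ sts m) {B : Fin m → Finset V}
    (pq : PQ G (fun i j : Fin m => bM m N i j) B) (hX : ¬ HasC G x5T) :
    ExitQ G ∨ (HasSt G (m + 1)) ∨ (m = 4 ∧ HasSt G 6) ∨ CentQ G := by
  have hok := fun k => sts_ok hN k
  have hm : 4 ≤ m ∧ m ≤ 6 := by
    have hm0 : m = 4 ∨ m = 5 ∨ m = 6 := by
      unfold sts at hN
      split_ifs at hN with h4 h5 h6
      · exact Or.inl h4
      · exact Or.inr (Or.inl h5)
      · exact Or.inr (Or.inr h6)
      · simp at hN
    omega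
  by_cases hc : ∀ k, ∃ c ∈ B k, ∀ x ∈ B k \ {c}, (lab G (Lk B k) (cpt G (B k \ {c}) x)).card ≤ 1
  · right; right; right
    refine ⟨m, B, hm.1, hm.2, pq.part, fun k => ?_, hc⟩
    obtain ⟨i0, i1, i2, h0, h1, h2, n01, n02, n12, e0, e1, e2⟩ := (hok k).2.2.2.2
    have key : ({i0, i1, i2} : Finset (Fin m)) ⊆ lab G (Lk B k) (B k) := by
      intro i hi
      rw [mem_labk]
      rw [mem_insert, mem_insert, mem_singleton] at hi
      rcases hi with rfl | rfl | rfl
      · exact ⟨h0, pq.yes _ _ h0.symm e0⟩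
      · exact ⟨h1, pq.yes _ _ h1.symm e1⟩
      · exact ⟨h2, pq.yes _ _ h2.symm e2⟩
    have h3 : ({i0, i1, i2} : Finset (Fin m)).card = 3 := by
      rw [card_insert_of_notMem, card_insert_of_notMem, card_singleton]
      · simpa using n12
      · simp [n01, n02]
    rw [← h3]
    exact card_le_card key
  · push Not at hc
    obtain ⟨k, hk⟩ := hc
    obtain ⟨hm4, hm6, hbag, htri, i0, i1, i2, h0, h1, h2, n01, n02, n12, e0, e1, e2⟩ := hok k
    have h3' : 3 ≤ (lab G (Lk B k) (B k)).card := by
      have key : ({i0, i1, i2} : Finset (Fin m)) ⊆ lab G (Lk B k) (B k) := by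
        intro i hi
        rw [mem_labk]
        rw [mem_insert, mem_insert, mem_singleton] at hi
        rcases hi with rfl | rfl | rfl
        · exact ⟨h0, pq.yes _ _ h0.symm e0⟩
        · exact ⟨h1, pq.yes _ _ h1.symm e1⟩
        · exact ⟨h2, pq.yes _ _ h2.symm e2⟩
      have h3 : ({i0, i1, i2} : Finset (Fin m)).card = 3 := by
        rw [card_insert_of_notMem, card_insert_of_notMem, card_singleton]
        · simpa using n12
        · simp [n01, n02]
      rw [← h3]
      exact card_le_card key
    by_cases hs : ∃ X Y, Split G (B k) X Y ∧ 2 ≤ (lab G (Lk B k) X).card ∧ 2 ≤ (lab G (Lk B k) Y).card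
    · obtain ⟨X, Y, s, hX2, hY2⟩ := hs
      obtain ⟨row, certs, isos, hchk, hiso⟩ := hbag
      rcases bagChk_sound pq hchk s hX2 hY2 with h | h | ⟨c, hc, B', hB'⟩
      · exact absurd h hX
      · left; left
        obtain ⟨M', B', hp, h5, hmu⟩ := h
        exact ⟨m, M', B', hp, h5, hmu⟩
      · have hc' := hiso c hc
        unfold tgt at hc'
        split_ifs at hc' with h4 h5
        · right; left
          subst h4
          exact ⟨c.1, by simpa [sts] using hc', B', hB'⟩
        · subst h5
          simp only [List.mem_cons, List.mem_nil_iff, or_false] at hc'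
          rcases hc' with h | h | h | h
          · right; left
            exact ⟨c.1, by rw [h]; simp [sts], B', hB'⟩
          · right; left
            exact ⟨c.1, by rw [h]; simp [sts], B', hB'⟩
          · left; right; left
            rw [h] at hB'
            exact ⟨B', hB'⟩
          · left; right; right
            rw [h] at hB'
            exact ⟨B', hB'⟩
        · simp at hc'
    · push Not at hs
      rcases center_or_triangle (Lk B k) (B k) (pq.cn k) h3' (fun X Y s h => by
        have := hs X Y s h.1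
        omega) with h | ⟨T0, T1, T2, j0, j1, j2, c0, c1, c2, t01, t02, t12, d01, d02, d12, hu, l0, l1, l2,
          m01, m02, m12⟩
      · exfalso
        obtain ⟨c, hc, h⟩ := h
        obtain ⟨x, hx, hx'⟩ := hk c hc
        have := h x hx
        omega
      · obtain ⟨row, certs, isos, hchk, hiso⟩ := htri
        rcases triChk_sound pq hchk c0 c1 c2 t01 t02 t12 d01 d02 d12 hu l0 l1 l2 m01 m02 m12 with h |
          ⟨c, hc, B', hB'⟩
        · exact absurd h hX
        · obtain ⟨h4, hc'⟩ := hiso c hc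
          right; right; left
          subst h4
          exact ⟨rfl, c.1, by rw [hc']; simp [sts], B', hB'⟩

theorem state_dich (hX : ¬ HasC G x5T) (hK : HasC G (fun _ _ : Fin 4 => true)) :
    ExitQ G ∨ CentQ G := by
  have h7 : ¬ HasSt G 7 := by
    rintro ⟨N, hN, _⟩
    simp [sts] at hN
  have s6 : HasSt G 6 → ExitQ G ∨ CentQ G := by
    rintro ⟨N, hN, B, pq⟩
    rcases st_step hN pq hX with h | h | h | h
    · exact Or.inl h
    · exact absurd h h7
    · exact absurd h.1 (by norm_num)
    · exact Or.inr h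
  have s5 : HasSt G 5 → ExitQ G ∨ CentQ G := by
    rintro ⟨N, hN, B, pq⟩
    rcases st_step hN pq hX with h | h | h | h
    · exact Or.inl h
    · exact s6 h
    · exact absurd h.1 (by norm_num)
    · exact Or.inr h
  obtain ⟨N, hN, B, pq⟩ := hasSt_four hK
  rcases st_step hN pq hX with h | h | h | h
  · exact Or.inl h
  · exact s5 h
  · exact s6 h.2
  · exact Or.inr h

end Pool.Agent.H175R2
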