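import Pool.Agent.H175R2.Gem2
import Pool.Agent.H175R2.Menger

/-! `X5`-free graphs: all 2-cuts are thin. -/

namespace Pool.Agent.H175R2

open Finset Classical

variable {V : Type} {G : SimpleGraph V}

/-- five bags forming an `X5` quotient: `A1, A2, A3, A4` pairwise touching, `Q` touches exactly
`A1` and `A2`. -/
lemma x5_bags [Fintype V] {A1 A2 A3 A4 Q : Finset V} (hp : Part5 A3 Q A4 A1 A2)
    (c1 : Cn G A1) (c2 : Cn G A2) (c3 : Cn G A3) (c4 : Cn G A4) (cQ : Cn G Q)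
    (t12 : Tc G A1 A2) (t13 : Tc G A1 A3) (t14 : Tc G A1 A4) (t23 : Tc G A2 A3)
    (t24 : Tc G A2 A4) (t34 : Tc G A3 A4)
    (q1 : Tc G Q A1) (q2 : Tc G Q A2) (q3 : ¬ Tc G Q A3) (q4 : ¬ Tc G Q A4) : HasC G x5T := by
  have t21 := t12.symm
  have t31 := t13.symm
  have t41 := t14.symm
  have t32 := t23.symm
  have t42 := t24.symm
  have t43 := t34.symm
  have k1 := q1.symm
  have k2 := q2.symm
  have k3 : ¬ Tc G A3 Q := fun h => q3 h.symm
  have k4 : ¬ Tc G A4 Q := fun h => q4 h.symm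
  have d01 : Disjoint A3 Q := Finset.disjoint_left.2 fun v a b => by have := hp v; clear * - this a b; grind (splits := 80)
  have d02 : Disjoint A3 A4 := Finset.disjoint_left.2 fun v a b => by have := hp v; clear * - this a b; grind (splits := 80)
  have d03 : Disjoint A3 A1 := Finset.disjoint_left.2 fun v a b => by have := hp v; clear * - this a b; grind (splits := 80)
  have d04 : Disjoint A3 A2 := Finset.disjoint_left.2 fun v a b => by have := hp v; clear * - this a b; grind (splits := 80)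
  have d12 : Disjoint Q A4 := Finset.disjoint_left.2 fun v a b => by have := hp v; clear * - this a b; grind (splits := 80)
  have d13 : Disjoint Q A1 := Finset.disjoint_left.2 fun v a b => by have := hp v; clear * - this a b; grind (splits := 80)
  have d14 : Disjoint Q A2 := Finset.disjoint_left.2 fun v a b => by have := hp v; clear * - this a b; grind (splits := 80)
  have d23 : Disjoint A4 A1 := Finset.disjoint_left.2 fun v a b => by have := hp v; clear * - this a b; grind (splits := 80)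
  have d24 : Disjoint A4 A2 := Finset.disjoint_left.2 fun v a b => by have := hp v; clear * - this a b; grind (splits := 80)
  have d34 : Disjoint A1 A2 := Finset.disjoint_left.2 fun v a b => by have := hp v; clear * - this a b; grind (splits := 80)
  have pq : PQ G (fun i j : Fin 5 => if x5T i j then 1 else 0) ![A3, Q, A4, A1, A2] := by
    refine ⟨?_, ?_, ?_, ?_, ?_⟩
    · intro i; fin_cases i <;> assumption
    · intro i j hij
      fin_cases i <;> fin_cases j <;> first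
        | exact absurd rfl hij
        | assumption
        | (apply Disjoint.symm; assumption)
    · intro v
      rcases hp v with h | h | h | h | h
      · exact ⟨0, h.1⟩
      · exact ⟨1, h.2.1⟩
      · exact ⟨2, h.2.2.1⟩
      · exact ⟨3, h.2.2.2.1⟩
      · exact ⟨4, h.2.2.2.2⟩
    · intro i j hij hM
      fin_cases i <;> fin_cases j <;> first
        | exact absurd rfl hij
        | assumption
        | (exfalso; revert hM; decide)
    · intro i j hij hM
      fin_cases i <;> fin_cases j <;> first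
        | exact absurd rfl hij
        | assumption
        | (exfalso; revert hM; decide)
  exact hasC_of_chk pq (c := id) (p := id) (r := id) (by decide)

/-- removing an added edge -/
lemma Cn.of_sup_edge {S : Finset V} {u w : V} (h : Cn (G ⊔ SimpleGraph.edge u w) S)
    (hS : ¬ (u ∈ S ∧ w ∈ S)) : Cn G S := by
  refine ⟨h.1, fun T hT hn hn' => ?_⟩
  obtain ⟨x, hx, y, hy, hxy⟩ := h.2 T hT hn hn'
  refine ⟨x, hx, y, hy, ?_⟩
  rw [SimpleGraph.sup_adj, SimpleGraph.edge_adj] at hxy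
  rcases hxy with h1 | ⟨⟨rfl, rfl⟩ | ⟨rfl, rfl⟩, _⟩
  · exact h1
  · exact absurd ⟨hT hx, (mem_sdiff.1 hy).1⟩ hS
  · exact absurd ⟨(mem_sdiff.1 hy).1, hT hx⟩ hS

lemma Cn.mono_graph {G' : SimpleGraph V} (hG : G ≤ G') {S : Finset V} (h : Cn G S) : Cn G' S := by
  refine ⟨h.1, fun T hT hn hn' => ?_⟩
  obtain ⟨x, hx, y, hy, hxy⟩ := h.2 T hT hn hn'
  exact ⟨x, hx, y, hy, hG hxy⟩

/-- the final bags of the second case -/
lemma x5_case2 [Fintype V] {Q P R X Y Z : Finset V}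
    (hp : ∀ v, (v ∈ P ∧ v ∉ R ∧ v ∉ Q ∧ v ∉ X ∧ v ∉ Y ∧ v ∉ Z) ∨
      (v ∉ P ∧ v ∈ R ∧ v ∉ Q ∧ v ∉ X ∧ v ∉ Y ∧ v ∉ Z) ∨
      (v ∉ P ∧ v ∉ R ∧ v ∈ Q ∧ v ∉ X ∧ v ∉ Y ∧ v ∉ Z) ∨
      (v ∉ P ∧ v ∉ R ∧ v ∉ Q ∧ v ∈ X ∧ v ∉ Y ∧ v ∉ Z) ∨
      (v ∉ P ∧ v ∉ R ∧ v ∉ Q ∧ v ∉ X ∧ v ∈ Y ∧ v ∉ Z) ∨
      (v ∉ P ∧ v ∉ R ∧ v ∉ Q ∧ v ∉ X ∧ v ∉ Y ∧ v ∈ Z))
    (cP : Cn G P) (cR : Cn G R) (cQ : Cn G Q) (cX : Cn G X) (cY : Cn G Y) (cZ : Cn G Z)
    (tPR : Tc G P R) (tQP : Tc G Q P) (tQR : Tc G Q R) (nX : ¬ Tc G Q X) (nY : ¬ Tc G Q Y)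
    (nZ : ¬ Tc G Q Z) (tXY : Tc G X Y) (tXZ : Tc G X Z) (tYZ : Tc G Y Z)
    (tPX : Tc G P X) (tRY : Tc G R Y) (tRZ : Tc G R Z) : HasC G x5T := by
  refine x5_bags (A1 := P ∪ X) (A2 := R) (A3 := Y) (A4 := Z) (Q := Q) ?_ (cP.union cX (Or.inl tPX))
    cR cY cZ cQ (tPR.mono subset_union_left (Subset.refl _))
    (tXY.mono subset_union_right (Subset.refl _)) (tXZ.mono subset_union_right (Subset.refl _))
    tRY tRZ tYZ (tQP.mono (Subset.refl _) subset_union_left) tQR nY nZ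
  intro v
  have h1 := hp v
  simp only [mem_union]
  clear * - h1; grind (splits := 80)

/-- the symmetric choice of the labels -/
lemma x5_case2' [Fintype V] {Q P R X Y Z : Finset V}
    (hp : ∀ v, (v ∈ P ∧ v ∉ R ∧ v ∉ Q ∧ v ∉ X ∧ v ∉ Y ∧ v ∉ Z) ∨
      (v ∉ P ∧ v ∈ R ∧ v ∉ Q ∧ v ∉ X ∧ v ∉ Y ∧ v ∉ Z) ∨
      (v ∉ P ∧ v ∉ R ∧ v ∈ Q ∧ v ∉ X ∧ v ∉ Y ∧ v ∉ Z) ∨
      (v ∉ P ∧ v ∉ R ∧ v ∉ Q ∧ v ∈ X ∧ v ∉ Y ∧ v ∉ Z) ∨
      (v ∉ P ∧ v ∉ R ∧ v ∉ Q ∧ v ∉ X ∧ v ∈ Y ∧ v ∉ Z) ∨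
      (v ∉ P ∧ v ∉ R ∧ v ∉ Q ∧ v ∉ X ∧ v ∉ Y ∧ v ∈ Z))
    (cP : Cn G P) (cR : Cn G R) (cQ : Cn G Q) (cX : Cn G X) (cY : Cn G Y) (cZ : Cn G Z)
    (tPR : Tc G P R) (tQP : Tc G Q P) (tQR : Tc G Q R) (nX : ¬ Tc G Q X) (nY : ¬ Tc G Q Y)
    (nZ : ¬ Tc G Q Z) (tXY : Tc G X Y) (tXZ : Tc G X Z) (tYZ : Tc G Y Z)
    (hX : Tc G P X ∨ Tc G R X) (hY : Tc G P Y ∨ Tc G R Y) (hZ : Tc G P Z ∨ Tc G R Z)
    (hP : Tc G P X ∨ Tc G P Y ∨ Tc G P Z) (hR : Tc G R X ∨ Tc G R Y ∨ Tc G R Z) :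
    HasC G x5T := by
  have r1 : Tc G P X → Tc G R Y → Tc G R Z → HasC G x5T := fun a b c =>
    x5_case2 hp cP cR cQ cX cY cZ tPR tQP tQR nX nY nZ tXY tXZ tYZ a b c
  have r2 : Tc G P Y → Tc G R X → Tc G R Z → HasC G x5T := fun a b c =>
    x5_case2 (Q := Q) (P := P) (R := R) (X := Y) (Y := X) (Z := Z)
      (fun v => by have := hp v; clear * - this; grind (splits := 80)) cP cR cQ cY cX cZ tPR tQP tQR nY nX nZ
      tXY.symm tYZ tXZ a b c
  have r3 : Tc G P Z → Tc G R X → Tc G R Y → HasC G x5T := fun a b c =>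
    x5_case2 (Q := Q) (P := P) (R := R) (X := Z) (Y := X) (Z := Y)
      (fun v => by have := hp v; clear * - this; grind (splits := 80)) cP cR cQ cZ cX cY tPR tQP tQR nZ nX nY
      tXZ.symm tYZ.symm tXY a b c
  have s1 : Tc G R X → Tc G P Y → Tc G P Z → HasC G x5T := fun a b c =>
    x5_case2 (Q := Q) (P := R) (R := P) (X := X) (Y := Y) (Z := Z)
      (fun v => by have := hp v; clear * - this; grind (splits := 80)) cR cP cQ cX cY cZ tPR.symm tQR tQP nX nY nZ
      tXY tXZ tYZ a b c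
  have s2 : Tc G R Y → Tc G P X → Tc G P Z → HasC G x5T := fun a b c =>
    x5_case2 (Q := Q) (P := R) (R := P) (X := Y) (Y := X) (Z := Z)
      (fun v => by have := hp v; clear * - this; grind (splits := 80)) cR cP cQ cY cX cZ tPR.symm tQR tQP nY nX nZ
      tXY.symm tYZ tXZ a b c
  have s3 : Tc G R Z → Tc G P X → Tc G P Y → HasC G x5T := fun a b c =>
    x5_case2 (Q := Q) (P := R) (R := P) (X := Z) (Y := X) (Z := Y)
      (fun v => by have := hp v; clear * - this; grind (splits := 80)) cR cP cQ cZ cX cY tPR.symm tQR tQP nZ nX nY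
      tXZ.symm tYZ.symm tXY a b c
  by_contra hc
  have r1' := fun a b c => hc (r1 a b c)
  have r2' := fun a b c => hc (r2 a b c)
  have r3' := fun a b c => hc (r3 a b c)
  have s1' := fun a b c => hc (s1 a b c)
  have s2' := fun a b c => hc (s2 a b c)
  have s3' := fun a b c => hc (s3 a b c)
  clear * - r1' r2' r3' s1' s2' s3' hX hY hZ hP hR
  grind (splits := 80)

/-- Key lemma. -/
theorem key_x5 [Fintype V] {U W Q D : Finset V} (h : Cfg G U W Q D)
    (h2c : ∀ v, Cn G (univ.erase v)) {u w : V} (hu : u ∈ U) (hw : w ∈ W)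
    (ex : ∀ x ∈ D, ∀ y, y ∉ D → G.Adj x y → y = u ∨ y = w)
    {f : V → Fin 4} (hf1 : ∀ i, Cn G (univ.filter (fun v => f v = i)))
    (hf2 : ∀ i j, i ≠ j → Tc G (univ.filter (fun v => f v = i)) (univ.filter (fun v => f v = j)))
    {i0 : Fin 4} (hi0 : univ.filter (fun v => f v = i0) ⊆ D) : HasC G x5T := by
  obtain ⟨B, hB⟩ : ∃ B : Fin 4 → Finset V, B = fun i => univ.filter (fun v => f v = i) := ⟨_, rfl⟩
  have hBm : ∀ i v, v ∈ B i ↔ f v = i := by intro i v; simp [hB]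
  have hc : ∀ i, Cn G (B i) := by intro i; rw [hB]; exact hf1 i
  have ht : ∀ i j, i ≠ j → Tc G (B i) (B j) := by intro i j hij; rw [hB]; exact hf2 i j hij
  have hB0 : B i0 ⊆ D := by rw [hB]; exact hi0
  have huD : u ∉ D := h.UD hu
  have hwD : w ∉ D := h.WD hw
  have huw : u ≠ w := by
    rintro rfl
    have := h.part u
    clear * - this hu hw; grind (splits := 80)
  -- bags avoiding `u` and `w` are inside `D`
  have inD : ∀ i, i ≠ f u → i ≠ f w → B i ⊆ D := by
    intro i h1 h2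
    by_cases hi : i = i0
    · rw [hi]; exact hB0
    have hui : u ∉ B i := by rw [hBm]; exact Ne.symm h1
    have hwi : w ∉ B i := by rw [hBm]; exact Ne.symm h2
    obtain ⟨x, hx, y, hy, hxy⟩ := ht i0 i (Ne.symm hi)
    have hyD : y ∈ D := by
      by_contra hyD
      rcases ex x (hB0 hx) y hyD hxy with h3 | h3
      · exact hui (h3 ▸ hy)
      · exact hwi (h3 ▸ hy)
    by_contra hsub
    have hn : (B i \ (B i ∩ D)).Nonempty := by
      rw [Finset.not_subset] at hsub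
      obtain ⟨z, hz, hzD⟩ := hsub
      exact ⟨z, mem_sdiff.2 ⟨hz, fun hz' => hzD (mem_inter.1 hz').2⟩⟩
    obtain ⟨a, ha, b, hb, hab⟩ := (hc i).2 (B i ∩ D) inter_subset_left ⟨y, mem_inter.2 ⟨hy, hyD⟩⟩ hn
    obtain ⟨ha1, ha2⟩ := mem_inter.1 ha
    obtain ⟨hb1, hb2⟩ := mem_sdiff.1 hb
    have hbD : b ∉ D := fun hbD => hb2 (mem_inter.2 ⟨hb1, hbD⟩)
    rcases ex a ha2 b hbD hab with h3 | h3
    · exact hui (h3 ▸ hb1)
    · exact hwi (h3 ▸ hb1)
  have nQ : ∀ S, S ⊆ D → ¬ Tc G Q S := fun S hS h' => h.nDQ (h'.symm.mono hS (Subset.refl _))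
  by_cases hcase : f u = f w
  · -- Case 2
    obtain ⟨b, c, d, hb, hcc, hd, hbc, hbd, hcd, hall⟩ : ∃ b c d : Fin 4, b ≠ f u ∧ c ≠ f u ∧ d ≠ f u ∧
        b ≠ c ∧ b ≠ d ∧ c ≠ d ∧ ∀ i, i = f u ∨ i = b ∨ i = c ∨ i = d := by
      have : ∀ a : Fin 4, ∃ b c d : Fin 4, b ≠ a ∧ c ≠ a ∧ d ≠ a ∧
        b ≠ c ∧ b ≠ d ∧ c ≠ d ∧ ∀ i, i = a ∨ i = b ∨ i = c ∨ i = d := by decide
      exact this _
    have hbD := inD b hb (hcase ▸ hb)
    have hcD := inD c hcc (hcase ▸ hcc)
    have hdD := inD d hd (hcase ▸ hd)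
    set T := B b ∪ (B c ∪ B d) with hT
    have hTD : T ⊆ D := union_subset hbD (union_subset hcD hdD)
    have huT : u ∉ T := fun h' => huD (hTD h')
    have hwT : w ∉ T := fun h' => hwD (hTD h')
    set D0 := (B (f u) ∩ D) ∪ {u, w} with hD0
    have memD0 : ∀ y, y ∈ D0 ↔ (y ∈ B (f u) ∧ y ∈ D) ∨ y = u ∨ y = w := by
      intro y; simp only [hD0, mem_union, mem_inter, mem_insert, mem_singleton]
    have hDmem : ∀ y, y ∈ D → y ∉ T → y ∈ D0 := by
      intro y hy hyT
      rw [memD0]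
      left
      refine ⟨?_, hy⟩
      rw [hBm]
      rcases hall (f y) with h1 | h1 | h1 | h1
      · exact h1
      · exact absurd (mem_union_left _ ((hBm _ _).2 h1)) hyT
      · exact absurd (mem_union_right _ (mem_union_left _ ((hBm _ _).2 h1))) hyT
      · exact absurd (mem_union_right _ (mem_union_right _ ((hBm _ _).2 h1))) hyT
    have hD0T : ∀ y, y ∈ D0 → y ∉ T := by
      intro y hy hyT
      rw [memD0] at hy
      rcases hy with ⟨h1, h2⟩ | rfl | rfl
      · rw [hBm] at h1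
        rw [hT, mem_union, mem_union, hBm, hBm, hBm, h1] at hyT
        rcases hyT with h3 | h3 | h3
        · exact hb h3.symm
        · exact hcc h3.symm
        · exact hd h3.symm
      · exact huT hyT
      · exact hwT hyT
    have nbD : ∀ x ∈ D, ∀ y, G.Adj x y → y ∈ T ∨ y ∈ D0 := by
      intro x hx y hxy
      by_cases hyD : y ∈ D
      · by_cases hyT : y ∈ T
        · exact Or.inl hyT
        · exact Or.inr (hDmem y hyD hyT)
      · right
        rw [memD0]
        rcases ex x hx y hyD hxy with h1 | h1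
        · exact Or.inr (Or.inl h1)
        · exact Or.inr (Or.inr h1)
    have huD0 : u ∈ D0 := by rw [memD0]; simp
    have hwD0 : w ∈ D0 := by rw [memD0]; simp
    have hTne : T.Nonempty := (hc b).1.mono subset_union_left
    -- `D0` is connected in `G + uw`
    have hG' : G ≤ G ⊔ SimpleGraph.edge u w := le_sup_left
    have huwc : Cn (G ⊔ SimpleGraph.edge u w) {u, w} := by
      have := (Cn.singleton (G := G ⊔ SimpleGraph.edge u w) u).union (Cn.singleton w) (Or.inl (tc_sing.2 (by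
        rw [SimpleGraph.sup_adj, SimpleGraph.edge_adj]; exact Or.inr ⟨Or.inl ⟨rfl, rfl⟩, huw⟩)))
      exact this
    have hD0c : Cn (G ⊔ SimpleGraph.edge u w) D0 := by
      apply cn_of_cover (r := u) huD0
      intro x hx
      rcases (memD0 x).1 hx with ⟨h1, h2⟩ | h1
      · have hxS : x ∈ B (f u) ∩ D := mem_inter.2 ⟨h1, h2⟩
        have hKsub : cpt G (B (f u) ∩ D) x ⊆ B (f u) ∩ D := cpt_subset
        obtain ⟨a, ha, b', hb', hab⟩ := (hc (f u)).2 (cpt G (B (f u) ∩ D) x)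
          (hKsub.trans inter_subset_left) ⟨x, mem_cpt_self hxS⟩ ⟨u, mem_sdiff.2 ⟨(hBm _ _).2 rfl, fun h' =>
            huD (mem_inter.1 (hKsub h')).2⟩⟩
        obtain ⟨hb1, hb2⟩ := mem_sdiff.1 hb'
        have hbD' : b' ∉ D := fun hbD' => not_adj_cpt hxS ha (mem_inter.2 ⟨hb1, hbD'⟩) hb2 hab
        have hb3 := ex a (mem_inter.1 (hKsub ha)).2 b' hbD' hab
        refine ⟨cpt G (B (f u) ∩ D) x ∪ {u, w}, ?_, ?_, by simp, mem_union_left _ (mem_cpt_self hxS)⟩
        · rw [hD0]; exact union_subset_union_left hKsub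
        · refine ((cn_cpt hxS).mono_graph hG').union huwc (Or.inl ⟨a, ha, b', ?_, hG' hab⟩)
          rcases hb3 with h3 | h3 <;> simp [h3]
      · refine ⟨{u, w}, ?_, huwc, by simp, ?_⟩
        · rw [hD0]; exact subset_union_right
        · rcases h1 with h1 | h1 <;> simp [h1]
    -- Menger
    obtain ⟨Y, C, hYC, hdis, cY, cC, YA, YB, CA, CB⟩ := Cn.menger (G := G ⊔ SimpleGraph.edge u w)
      (D := D0) (A := {u, w}) (B := D0.filter (fun x => Tc G {x} T)) hD0c (by
        intro z hz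
        -- some `a ∈ {u, w} \ z` whose component in `D0 \ z` touches `T`
        have hzT : z ∉ T := hD0T z hz
        obtain ⟨a, ha, haz, hat⟩ : ∃ a, (a = u ∨ a = w) ∧ a ≠ z ∧ Tc G (cpt G (D0 \ {z}) a) T := by
          by_contra hcon
          push Not at hcon
          set R := univ.filter (fun y => y ∈ T ∨ (y ∈ D0 \ {z} ∧ Tc G (cpt G (D0 \ {z}) y) T)) with hR
          have memR : ∀ y, y ∈ R ↔ y ∈ T ∨ (y ∈ D0 \ {z} ∧ Tc G (cpt G (D0 \ {z}) y) T) := by
            intro y; simp [hR]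
          obtain ⟨a0, ha0, haz0⟩ : ∃ a, (a = u ∨ a = w) ∧ a ≠ z := by
            by_cases huz : u = z
            · exact ⟨w, Or.inr rfl, fun h' => huw (huz.trans h'.symm)⟩
            · exact ⟨u, Or.inl rfl, huz⟩
          have ha0T : a0 ∉ T := by rcases ha0 with rfl | rfl <;> assumption
          have haR : ∀ a, (a = u ∨ a = w) → a ∉ R := by
            intro a ha haR
            have haT : a ∉ T := by rcases ha with rfl | rfl <;> assumption
            rcases (memR a).1 haR with h1 | ⟨h1, h2⟩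
            · exact haT h1
            · refine hcon a ha ?_ h2
              intro he
              rw [he, mem_sdiff] at h1
              exact h1.2 (by simp)
          have hRz : R ⊆ univ.erase z := by
            intro y hy
            refine mem_erase.2 ⟨?_, mem_univ _⟩
            rintro rfl
            rcases (memR _).1 hy with h1 | ⟨h1, _⟩
            · exact hzT h1
            · exact (mem_sdiff.1 h1).2 (by simp)
          obtain ⟨x, hx, y, hy, hxy⟩ := (h2c z).2 R hRz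
            (by obtain ⟨t, ht'⟩ := hTne; exact ⟨t, (memR t).2 (Or.inl ht')⟩)
            ⟨a0, mem_sdiff.2 ⟨mem_erase.2 ⟨haz0, mem_univ _⟩, haR a0 ha0⟩⟩
          obtain ⟨hy1, hyR⟩ := mem_sdiff.1 hy
          have hyz : y ≠ z := (mem_erase.1 hy1).1
          have hyT : y ∉ T := fun h' => hyR ((memR y).2 (Or.inl h'))
          have hyS : y ∈ D0 → y ∈ D0 \ {z} := fun h' => mem_sdiff.2 ⟨h', by simpa using hyz⟩
          rcases (memR x).1 hx with h1 | ⟨h1, h3⟩
          · have hyD0 := (nbD x (hTD h1) y hxy).resolve_left hyT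
            apply hyR
            rw [memR]
            right
            refine ⟨hyS hyD0, y, mem_cpt_self (hyS hyD0), x, h1, hxy.symm⟩
          · have hxu : ¬ (x = u ∨ x = w) := fun h' => haR x h' hx
            have hxD : x ∈ D := by
              have := (memD0 x).1 (mem_sdiff.1 h1).1
              rcases this with h4 | h4
              · exact h4.2
              · exact absurd h4 hxu
            have hyD0 := (nbD x hxD y hxy).resolve_left hyT
            apply hyR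
            rw [memR]
            right
            refine ⟨hyS hyD0, ?_⟩
            have hyc : y ∈ cpt G (D0 \ {z}) x := by
              by_contra hyc
              exact not_adj_cpt h1 (mem_cpt_self h1) (hyS hyD0) hyc hxy
            rw [cpt_eq_of_mem h1 hyc]
            exact h3
        have haD0 : a ∈ D0 := by rcases ha with rfl | rfl <;> assumption
        have haS : a ∈ D0 \ {z} := mem_sdiff.2 ⟨haD0, by simpa using haz⟩
        refine ⟨cpt G (D0 \ {z}) a, ?_, (cn_cpt haS).mono_graph hG', ⟨a, mem_inter.2 ⟨mem_cpt_self haS, ?_⟩⟩, ?_⟩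
        · rw [erase_eq_sdiff']; exact cpt_subset
        · rcases ha with rfl | rfl <;> simp
        · obtain ⟨x, hx, y, hy, hxy⟩ := hat
          exact ⟨x, mem_inter.2 ⟨hx, mem_filter.2 ⟨(mem_sdiff.1 (cpt_subset hx)).1, x, by simp, y, hy, hxy⟩⟩⟩)
    -- wlog `u ∈ Y`
    have main : ∀ Y C : Finset V, Y ∪ C = D0 → Disjoint Y C → Cn (G ⊔ SimpleGraph.edge u w) Y →
        Cn (G ⊔ SimpleGraph.edge u w) C → u ∈ Y → w ∈ C →
        (Y ∩ (D0.filter (fun x => Tc G {x} T))).Nonempty → (C ∩ (D0.filter (fun x => Tc G {x} T))).Nonempty →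
        HasC G x5T := by
      intro Y C hYC hdis cY cC huY hwC YB CB
      rw [Finset.disjoint_left] at hdis
      have huC : u ∉ C := hdis huY
      have hwY : w ∉ Y := fun h' => hdis h' hwC
      have cY' : Cn G Y := cY.of_sup_edge (fun h' => hwY h'.2)
      have cC' : Cn G C := cC.of_sup_edge (fun h' => huC h'.1)
      have tYT : Tc G Y T := by
        obtain ⟨x, hx⟩ := YB
        obtain ⟨h1, h3⟩ := mem_inter.1 hx
        exact tc_of_mem h1 (mem_filter.1 h3).2
      have tCT : Tc G C T := by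
        obtain ⟨x, hx⟩ := CB
        obtain ⟨h1, h3⟩ := mem_inter.1 hx
        exact tc_of_mem h1 (mem_filter.1 h3).2
      have touch : ∀ i, i ≠ f u → Tc G (Y ∪ U) (B i) ∨ Tc G (C ∪ W) (B i) := by
        intro i hi
        have hiD := inD i hi (hcase ▸ hi)
        obtain ⟨x, hx, y, hy, hxy⟩ := ht (f u) i (Ne.symm hi)
        have hxD0 : x ∈ D0 := by
          rw [memD0]
          by_cases hxD : x ∈ D
          · exact Or.inl ⟨hx, hxD⟩
          · right
            exact ex y (hiD hy) x hxD hxy.symm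
        rw [← hYC, mem_union] at hxD0
        rcases hxD0 with h1 | h1
        · left; exact ⟨x, mem_union_left _ h1, y, hy, hxy⟩
        · right; exact ⟨x, mem_union_left _ h1, y, hy, hxy⟩
      have split3 : ∀ S : Finset V, Tc G S T → Tc G S (B b) ∨ Tc G S (B c) ∨ Tc G S (B d) := by
        intro S hS
        rw [hT, Tc.union_right, Tc.union_right] at hS
        exact hS
      refine x5_case2' (Q := Q) (P := Y ∪ U) (R := C ∪ W) (X := B b) (Y := B c) (Z := B d) ?_
        (cY'.union h.cU (Or.inr ⟨u, mem_inter.2 ⟨huY, hu⟩⟩))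
        (cC'.union h.cW (Or.inr ⟨w, mem_inter.2 ⟨hwC, hw⟩⟩)) h.cQ (hc b) (hc c) (hc d)
        (h.tUW.mono subset_union_right subset_union_right)
        (h.tQU.mono (Subset.refl _) subset_union_right) (h.tQW.mono (Subset.refl _) subset_union_right)
        (nQ _ hbD) (nQ _ hcD) (nQ _ hdD) (ht b c hbc) (ht b d hbd) (ht c d hcd)
        (touch b hb) (touch c hcc) (touch d hd)
        (split3 _ (tYT.mono subset_union_left (Subset.refl _)))
        (split3 _ (tCT.mono subset_union_left (Subset.refl _)))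
      intro v
      have e1 := h.part v
      have e2 : v ∈ Y ∨ v ∈ C ↔ (v ∈ B (f u) ∧ v ∈ D) ∨ v = u ∨ v = w := by
        rw [← memD0, ← hYC, mem_union]
      have e3 : v ∈ Y → v ∉ C := fun h' => hdis h'
      have e4 : v = u → v ∈ U ∧ v ∈ Y := fun e => e ▸ ⟨hu, huY⟩
      have e5 : v = w → v ∈ W ∧ v ∈ C := fun e => e ▸ ⟨hw, hwC⟩
      have e6 : v ∈ B b → v ∈ D := fun h' => hbD h'
      have e7 : v ∈ B c → v ∈ D := fun h' => hcD h'
      have e8 : v ∈ B d → v ∈ D := fun h' => hdD h'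
      have e9 : (v ∈ B (f u) ∧ v ∉ B b ∧ v ∉ B c ∧ v ∉ B d) ∨ (v ∉ B (f u) ∧ v ∈ B b ∧ v ∉ B c ∧ v ∉ B d) ∨
          (v ∉ B (f u) ∧ v ∉ B b ∧ v ∈ B c ∧ v ∉ B d) ∨ (v ∉ B (f u) ∧ v ∉ B b ∧ v ∉ B c ∧ v ∈ B d) := by
        simp only [hBm]
        rcases hall (f v) with h1 | h1 | h1 | h1 <;> rw [h1]
        · exact Or.inl ⟨rfl, Ne.symm hb, Ne.symm hcc, Ne.symm hd⟩
        · exact Or.inr (Or.inl ⟨hb, rfl, hbc, hbd⟩)
        · exact Or.inr (Or.inr (Or.inl ⟨hcc, Ne.symm hbc, rfl, hcd⟩))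
        · exact Or.inr (Or.inr (Or.inr ⟨hd, Ne.symm hbd, Ne.symm hcd, rfl⟩))
      simp only [mem_union]
      clear * - e1 e2 e3 e4 e5 e6 e7 e8 e9; grind (splits := 80)
    have hdis' := Finset.disjoint_left.1 hdis
    obtain ⟨a, ha⟩ := YA
    obtain ⟨a', ha'⟩ := CA
    rw [mem_inter, mem_insert, mem_singleton] at ha ha'
    obtain ⟨haY, ha⟩ := ha
    obtain ⟨haC, ha'⟩ := ha'
    rcases ha with rfl | rfl
    · rcases ha' with rfl | rfl
      · exact absurd haC (hdis' haY)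
      · exact main Y C hYC hdis cY cC haY haC YB CB
    · rcases ha' with rfl | rfl
      · exact main C Y (by rw [union_comm]; exact hYC) hdis.symm cC cY haC haY CB YB
      · exact absurd haC (hdis' haY)
  · -- Case 1
    obtain ⟨c, d, hc1, hc2, hd1, hd2, hcd, hall⟩ : ∃ c d : Fin 4, c ≠ f u ∧ c ≠ f w ∧ d ≠ f u ∧ d ≠ f w ∧
        c ≠ d ∧ ∀ i, i = f u ∨ i = f w ∨ i = c ∨ i = d := by
      have : ∀ a b : Fin 4, a ≠ b → ∃ c d : Fin 4, c ≠ a ∧ c ≠ b ∧ d ≠ a ∧ d ≠ b ∧
        c ≠ d ∧ ∀ i, i = a ∨ i = b ∨ i = c ∨ i = d := by decide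
      exact this _ _ hcase
    have hcD := inD c hc1 hc2
    have hdD := inD d hd1 hd2
    have conn : ∀ (P : Finset V) (p q : V), Cn G P → p ∈ P → p ∉ D → (∀ x ∈ D, ∀ y, y ∉ D → G.Adj x y →
        y = p ∨ y = q) → f p ≠ f q → Cn G (P ∪ (B (f p) ∩ D)) := by
      intro P p q hP hp hpD hex hpq
      apply hP.attach
      intro x hx
      have hKsub : cpt G (B (f p) ∩ D) x ⊆ B (f p) ∩ D := cpt_subset
      obtain ⟨a, ha, b', hb', hab⟩ := (hc (f p)).2 (cpt G (B (f p) ∩ D) x)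
        (hKsub.trans inter_subset_left) ⟨x, mem_cpt_self hx⟩ ⟨p, mem_sdiff.2 ⟨(hBm _ _).2 rfl, fun h' =>
          hpD (mem_inter.1 (hKsub h')).2⟩⟩
      obtain ⟨hb1, hb2⟩ := mem_sdiff.1 hb'
      have hbD' : b' ∉ D := fun hbD' => not_adj_cpt hx ha (mem_inter.2 ⟨hb1, hbD'⟩) hb2 hab
      rcases hex a (mem_inter.1 (hKsub ha)).2 b' hbD' hab with h3 | h3
      · exact ⟨a, ha, b', h3 ▸ hp, hab⟩
      · exfalso
        rw [hBm, h3] at hb1
        exact hpq hb1.symm
    have touch : ∀ (P : Finset V) (p q : V), p ∈ P → p ∉ D → (∀ x ∈ D, ∀ y, y ∉ D → G.Adj x y →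
        y = p ∨ y = q) → f p ≠ f q → ∀ i, i ≠ f p → B i ⊆ D → Tc G (P ∪ (B (f p) ∩ D)) (B i) := by
      intro P p q hp hpD hex hpq i hi hiD
      obtain ⟨x, hx, y, hy, hxy⟩ := ht (f p) i (Ne.symm hi)
      refine ⟨x, ?_, y, hy, hxy⟩
      by_cases hxD : x ∈ D
      · exact mem_union_right _ (mem_inter.2 ⟨hx, hxD⟩)
      · rcases hex y (hiD hy) x hxD hxy.symm with h3 | h3
        · exact mem_union_left _ (h3 ▸ hp)
        · exfalso
          rw [hBm, h3] at hx
          exact hpq hx.symm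
    have ex' : ∀ x ∈ D, ∀ y, y ∉ D → G.Adj x y → y = w ∨ y = u := fun x hx y hy hxy =>
      (ex x hx y hy hxy).symm
    refine x5_bags (A1 := U ∪ (B (f u) ∩ D)) (A2 := W ∪ (B (f w) ∩ D)) (A3 := B c) (A4 := B d) (Q := Q) ?_
      (conn U u w h.cU hu huD ex hcase) (conn W w u h.cW hw hwD ex' (Ne.symm hcase)) (hc c) (hc d) h.cQ
      (h.tUW.mono subset_union_left subset_union_left)
      (touch U u w hu huD ex hcase c hc1 hcD) (touch U u w hu huD ex hcase d hd1 hdD)
      (touch W w u hw hwD ex' (Ne.symm hcase) c hc2 hcD) (touch W w u hw hwD ex' (Ne.symm hcase) d hd2 hdD)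
      (ht c d hcd) (h.tQU.mono (Subset.refl _) subset_union_left) (h.tQW.mono (Subset.refl _) subset_union_left)
      (nQ _ hcD) (nQ _ hdD)
    intro v
    have e1 := h.part v
    have e6 : v ∈ B c → v ∈ D := fun h' => hcD h'
    have e7 : v ∈ B d → v ∈ D := fun h' => hdD h'
    have e9 : (v ∈ B (f u) ∧ v ∉ B (f w) ∧ v ∉ B c ∧ v ∉ B d) ∨ (v ∉ B (f u) ∧ v ∈ B (f w) ∧ v ∉ B c ∧ v ∉ B d) ∨
        (v ∉ B (f u) ∧ v ∉ B (f w) ∧ v ∈ B c ∧ v ∉ B d) ∨ (v ∉ B (f u) ∧ v ∉ B (f w) ∧ v ∉ B c ∧ v ∈ B d) := by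
      simp only [hBm]
      rcases hall (f v) with h1 | h1 | h1 | h1 <;> rw [h1]
      · exact Or.inl ⟨rfl, hcase, Ne.symm hc1, Ne.symm hd1⟩
      · exact Or.inr (Or.inl ⟨Ne.symm hcase, rfl, Ne.symm hc2, Ne.symm hd2⟩)
      · exact Or.inr (Or.inr (Or.inl ⟨hc1, hc2, rfl, hcd⟩))
      · exact Or.inr (Or.inr (Or.inr ⟨hd1, hd2, Ne.symm hcd, rfl⟩))
    simp only [mem_union, mem_inter]
    clear * - e1 e6 e7 e9; grind (splits := 80)

/-- all 2-cuts are thin -/
theorem x5_thin {V : Type} [Fintype V] {G : SimpleGraph V} (h2 : TwoConn G) (hX : ¬ HasC G x5T)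
    (hK : HasC G (fun _ _ : Fin 4 => true))
    {u v : V} (huv : u ≠ v) {x : V} (hx : x ∈ univ \ {u, v})
    (hne : cpt G (univ \ {u, v}) x ≠ univ \ {u, v}) :
    ¬ G.Adj u v ∧ Cn G ((univ \ {u, v}) \ cpt G (univ \ {u, v}) x) ∧
    (PathSide G (cpt G (univ \ {u, v}) x) ∨ PathSide G ((univ \ {u, v}) \ cpt G (univ \ {u, v}) x)) := by
  obtain ⟨f, hf1, hf2⟩ := hK
  have hf2' : ∀ i j, i ≠ j → Tc G (univ.filter (fun v => f v = i)) (univ.filter (fun v => f v = j)) :=
    fun i j hij => (hf2 i j hij).1 rfl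
  set R : Finset V := univ \ {u, v} with hR
  have memR : ∀ y, y ∈ R ↔ y ≠ u ∧ y ≠ v := by intro y; simp [hR]
  have huR : u ∉ R := by rw [memR]; simp
  have hvR : v ∉ R := by rw [memR]; simp
  -- sides
  have side : ∀ y ∈ R, Side G (cpt G R y) u v := by
    intro y hy
    have hsub : cpt G R y ⊆ R := cpt_subset
    have nb : ∀ x ∈ cpt G R y, ∀ z, z ∉ cpt G R y → G.Adj x z → z = u ∨ z = v := by
      intro a ha z hz haz
      by_contra hcon
      push Not at hcon
      exact not_adj_cpt hy ha ((memR z).2 hcon) hz haz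
    refine ⟨cn_cpt hy, fun h => huR (hsub h), fun h => hvR (hsub h), huv, ?_, ?_, nb⟩
    · obtain ⟨a, ha, b, hb, hab⟩ := (h2.del v).2 (cpt G R y) (fun z hz => mem_erase.2
        ⟨((memR z).1 (hsub hz)).2, mem_univ _⟩) ⟨y, mem_cpt_self hy⟩
        ⟨u, mem_sdiff.2 ⟨mem_erase.2 ⟨huv, mem_univ _⟩, fun h => huR (hsub h)⟩⟩
      obtain ⟨hb1, hb2⟩ := mem_sdiff.1 hb
      rcases nb a ha b hb2 hab with h | h
      · exact tc_sing_right.2 ⟨a, ha, h ▸ hab⟩
      · exact absurd h (mem_erase.1 hb1).1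
    · obtain ⟨a, ha, b, hb, hab⟩ := (h2.del u).2 (cpt G R y) (fun z hz => mem_erase.2
        ⟨((memR z).1 (hsub hz)).1, mem_univ _⟩) ⟨y, mem_cpt_self hy⟩
        ⟨v, mem_sdiff.2 ⟨mem_erase.2 ⟨huv.symm, mem_univ _⟩, fun h => hvR (hsub h)⟩⟩
      obtain ⟨hb1, hb2⟩ := mem_sdiff.1 hb
      rcases nb a ha b hb2 hab with h | h
      · exact absurd h (mem_erase.1 hb1).1
      · exact tc_sing_right.2 ⟨a, ha, h ▸ hab⟩
  -- the component of the `K₄`
  obtain ⟨i0, hi1, hi2⟩ : ∃ i : Fin 4, i ≠ f u ∧ i ≠ f v := by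
    have : ∀ a b : Fin 4, ∃ i : Fin 4, i ≠ a ∧ i ≠ b := by decide
    exact this _ _
  obtain ⟨y0, hy0⟩ := (hf1 i0).1
  have hBR : univ.filter (fun v => f v = i0) ⊆ R := by
    intro z hz
    rw [mem_filter] at hz
    rw [memR]
    refine ⟨?_, ?_⟩
    · rintro rfl; exact hi1 hz.2.symm
    · rintro rfl; exact hi2 hz.2.symm
  have hy0R : y0 ∈ R := hBR hy0
  set D := cpt G R y0 with hD
  have hDR : D ⊆ R := cpt_subset
  have hBD : univ.filter (fun v => f v = i0) ⊆ D := subset_cpt hBR (hf1 i0) hy0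
  have sD : Side G D u v := side y0 hy0R
  have nDR : ∀ y ∈ R, y ∉ D → ∀ a ∈ D, ¬ G.Adj a y := fun y hy hyD a ha => not_adj_cpt hy0R ha hy hyD
  -- another component
  obtain ⟨z, hz, hzD⟩ : ∃ z ∈ R, z ∉ D := by
    by_contra hcon
    push Not at hcon
    have hDR' : D = R := subset_antisymm hDR hcon
    have h1 : Cn G R := by rw [← hDR']; exact sD.cD
    exact hne (h1.cpt_eq hx)
  have key : ∀ (U W Q : Finset V), Cfg G U W Q D → u ∈ U → v ∈ W → False := by
    intro U W Q hcfg hu hv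
    exact hX (key_x5 hcfg h2.del hu hv sD.nb hf1 hf2' hBD)
  have hQD : ∀ y ∈ cpt G R z, y ∉ D := fun y hy => cpt_disj hy0R hz hzD hy
  have sQ := side z hz
  -- configuration with the rest attached to `u`
  have cfgRest : (G.Adj u v ∨ ∃ y ∈ R, y ∉ D ∧ y ∉ cpt G R z) → False := by
    intro hor
    set S := R \ (D ∪ cpt G R z) with hS
    have memS : ∀ y, y ∈ S ↔ y ∈ R ∧ y ∉ D ∧ y ∉ cpt G R z := by
      intro y; simp only [hS, mem_sdiff, mem_union]; tauto
    -- components in `S` are components in `R`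
    have hcomp : ∀ y ∈ S, cpt G R y ⊆ S := by
      intro y hy
      rw [memS] at hy
      intro a ha
      rw [memS]
      exact ⟨cpt_subset ha, cpt_disj hy0R hy.1 hy.2.1 ha, cpt_disj hz hy.1 hy.2.2 ha⟩
    have hcomp' : ∀ y ∈ S, cpt G R y ⊆ cpt G S y := fun y hy =>
      subset_cpt (hcomp y hy) (cn_cpt ((memS y).1 hy).1) (mem_cpt_self ((memS y).1 hy).1)
    refine key ({u} ∪ S) {v} (cpt G R z) ⟨?_, Cn.singleton v, sQ.cD, sD.cD, ?_, ?_, ?_, sQ.tv, ?_, sD.tv, ?_⟩
      (by simp) (by simp)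
    · apply (Cn.singleton u).attach
      intro y hy
      exact (side y ((memS y).1 hy).1).tu.mono (hcomp' y hy) (Subset.refl _)
    · intro a
      have e1 := memS a
      have e2 := memR a
      have e3 : a ∈ D → a ∈ R := fun h => hDR h
      have e4 : a ∈ cpt G R z → a ∈ R := fun h => cpt_subset h
      have e5 := hQD a
      have e6 : a = u → a ≠ v := fun e => e ▸ huv
      simp only [mem_union, mem_singleton]
      clear * - e1 e2 e3 e4 e5 e6; grind (splits := 80)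
    · rcases hor with h | ⟨y, hy1, hy2, hy3⟩
      · exact tc_sing_right.2 ⟨u, by simp, h⟩
      · have hyS : y ∈ S := (memS y).2 ⟨hy1, hy2, hy3⟩
        exact (side y hy1).tv.mono ((hcomp y hyS).trans subset_union_right) (Subset.refl _)
    · exact sQ.tu.mono (Subset.refl _) subset_union_left
    · exact sD.tu.mono (Subset.refl _) subset_union_left
    · rintro ⟨a, ha, b, hb, hab⟩
      exact nDR b (cpt_subset hb) (hQD b hb) a ha hab
  have hnadj : ¬ G.Adj u v := fun h => cfgRest (Or.inl h)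
  have htwo : ∀ y ∈ R, y ∉ D → y ∈ cpt G R z := by
    intro y hy hyD
    by_contra hyz
    exact cfgRest (Or.inr ⟨y, hy, hyD, hyz⟩)
  have hRD : R \ D = cpt G R z := by
    apply subset_antisymm
    · intro y hy
      exact htwo y (mem_sdiff.1 hy).1 (mem_sdiff.1 hy).2
    · intro y hy
      exact mem_sdiff.2 ⟨cpt_subset hy, hQD y hy⟩
  have hRQ : R \ cpt G R z = D := by
    apply subset_antisymm
    · intro y hy
      by_contra hyD
      exact (mem_sdiff.1 hy).2 (htwo y (mem_sdiff.1 hy).1 hyD)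
    · intro y hy
      exact mem_sdiff.2 ⟨hDR hy, fun h => hQD y h hy⟩
  have hpath : PathSide G (cpt G R z) := by
    rcases Side.dich h2.del _ _ u v le_rfl sQ with h | ⟨U, W, Q, ht⟩
    · exact h.1
    · exfalso
      refine key U W Q ⟨ht.cU, ht.cW, ht.cQ, sD.cD, ?_, ht.tUW, ht.tQU, ht.tQW, ?_, ?_, ?_⟩ ht.hu ht.hv
      · intro a
        have e1 := ht.part a
        have e2 := memR a
        have e3 : a ∈ D → a ∈ R := fun h => hDR h
        have e4 : a ∈ cpt G R z → a ∈ R := fun h => cpt_subset h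
        have e5 := hQD a
        have e6 := htwo a
        clear * - e1 e2 e3 e4 e5 e6; grind (splits := 80)
      · exact sD.tu.mono (Subset.refl _) (by simpa using ht.hu)
      · exact sD.tv.mono (Subset.refl _) (by simpa using ht.hv)
      · rintro ⟨a, ha, b, hb, hab⟩
        have e1 := ht.part b
        have hbu : b ≠ u := by
          rintro rfl
          exact e1.2.2.1 ⟨ht.hu, hb⟩
        have hbv : b ≠ v := by
          rintro rfl
          exact e1.2.2.2 ⟨ht.hv, hb⟩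
        have hbc : b ∈ cpt G R z := by
          rcases e1.1.2 (Or.inr (Or.inr hb)) with h | h | h
          · exact h
          · exact absurd h hbu
          · exact absurd h hbv
        exact nDR b (cpt_subset hbc) (hQD b hbc) a ha hab
  refine ⟨hnadj, ?_⟩
  by_cases hxD : x ∈ D
  · have e1 : cpt G R x = D := cpt_eq_of_mem hy0R hxD
    rw [e1, hRD]
    exact ⟨sQ.cD, Or.inr hpath⟩
  · have e1 : cpt G R x = cpt G R z := cpt_eq_of_mem hz (htwo x hx hxD)
    rw [e1, hRQ]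
    exact ⟨sD.cD, Or.inl hpath⟩

end Pool.Agent.H175R2
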