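import Pool.Agent.H175R2.XWCert

/-! Wheel-like quotients: the step theorem. -/

set_option autoImplicit false

namespace Pool.Agent.H175R2

open Finset Classical

/-- `R` is a wheel-like graph with hub `h` and rim `c 0, ..., c (n-1)`; at least five spokes. -/
structure Whl {V : Type} [Fintype V] (R : SimpleGraph V) (n : ℕ) (h : V) (c : ℕ → V) : Prop where
  ne : ∀ i < n, c i ≠ h
  inj : ∀ i < n, ∀ j < n, c i = c j → i = j
  surj : ∀ v, v ≠ h → ∃ i < n, c i = v
  adj : ∀ i j, i < j → j < n → (R.Adj (c i) (c j) ↔ (j = i + 1 ∨ (i = 0 ∧ j + 1 = n)))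
  deg : 5 ≤ (univ.filter (fun v => R.Adj h v)).card

/-- wheel-like graphs with at least five spokes -/
def GoodW {V : Type} [Fintype V] (R : SimpleGraph V) : Prop := ∃ n h c, Whl R n h c

section basic

variable {V : Type} [Fintype V] {R : SimpleGraph V} {n : ℕ} {h : V} {c : ℕ → V}

/-- rotation -/
lemma Whl.rot (w : Whl R n h c) {k : ℕ} (hk : k < n) :
    Whl R n h (fun i => if i + k < n then c (i + k) else c (i + k - n)) where
  ne := by
    intro i hi
    split_ifs with h1
    · exact w.ne _ h1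
    · exact w.ne _ (by omega)
  inj := by
    intro i hi j hj hij
    split_ifs at hij with h1 h2 h2
    · have := w.inj _ h1 _ h2 hij; omega
    · have := w.inj _ h1 _ (by omega) hij; omega
    · have := w.inj _ (by omega) _ h2 hij; omega
    · have := w.inj _ (by omega) _ (by omega) hij; omega
  surj := by
    intro v hv
    obtain ⟨i, hi, rfl⟩ := w.surj v hv
    by_cases h1 : k ≤ i
    · refine ⟨i - k, by omega, ?_⟩
      have e : i - k + k = i := by omega
      simp only [e, if_pos hi]
    · refine ⟨i + n - k, by omega, ?_⟩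
      have e : ¬ (i + n - k + k < n) := by omega
      have e2 : i + n - k + k - n = i := by omega
      simp only [if_neg e, e2]
  adj := by
    intro i j hij hj
    split_ifs with h1 h2 h2
    · rw [w.adj _ _ (by omega) h2]; omega
    · rw [SimpleGraph.adj_comm, w.adj _ _ (by omega) h1]; omega
    · omega
    · rw [w.adj _ _ (by omega) (by omega)]; omega
  deg := w.deg

/-- the positions of the spokes -/
lemma Whl.card_spokes (w : Whl R n h c) :
    5 ≤ ((range n).filter (fun i => R.Adj h (c i))).card := by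
  refine w.deg.trans ?_
  have : univ.filter (fun v => R.Adj h v) ⊆ ((range n).filter (fun i => R.Adj h (c i))).image c := by
    intro v hv
    simp only [mem_filter, mem_univ, true_and] at hv
    obtain ⟨i, hi, rfl⟩ := w.surj v hv.ne'
    exact mem_image_of_mem _ (by simp [hi, hv])
  exact (card_le_card this).trans card_image_le

omit [Fintype V] in
lemma cn_arc {G : SimpleGraph V} {d : ℕ → V} {s t : ℕ} (hst : s < t)
    (hadj : ∀ i, s ≤ i → i + 1 < t → G.Adj (d i) (d (i + 1))) : Cn G ((Ico s t).image d) := by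
  induction t with
  | zero => omega
  | succ t ih =>
    by_cases hs : s = t
    · subst hs
      have : (Ico s (s + 1)).image d = {d s} := by simp
      rw [this]; exact Cn.singleton _
    · have h1 := ih (by omega) (fun i h1 h2 => hadj i h1 (by omega))
      have : (Ico s (t + 1)).image d = (Ico s t).image d ∪ {d t} := by
        rw [← Finset.image_singleton d t, ← Finset.image_union]
        congr 1
        ext x; simp only [mem_Ico, mem_union, mem_singleton]; omega
      rw [this]
      refine h1.union (Cn.singleton _) (Or.inl ⟨d (t - 1), ?_, d t, by simp, ?_⟩)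
      · exact mem_image_of_mem _ (by simp only [mem_Ico]; omega)
      · have := hadj (t - 1) (by omega) (by omega)
        rwa [show t - 1 + 1 = t by omega] at this

/-- building a bag partition from the entries above the diagonal -/
lemma PQ.mk' {G : SimpleGraph V} {m : ℕ} {M : Fin m → Fin m → ℕ} {B : Fin m → Finset V}
    (cn : ∀ i, Cn G (B i)) (disj : ∀ i j, i < j → Disjoint (B i) (B j))
    (cover : ∀ v, ∃ i, v ∈ B i) (hs : ∀ i j, M i j = M j i)
    (tc : ∀ i j, i < j → (Tc G (B i) (B j) ↔ M i j = 1)) : PQ G M B where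
  cn := cn
  disj := by
    intro i j hij
    rcases lt_or_gt_of_ne hij with h | h
    · exact disj i j h
    · exact (disj j i h).symm
  cover := cover
  yes := by
    intro i j hij hM
    rcases lt_or_gt_of_ne hij with h | h
    · exact (tc i j h).2 hM
    · exact ((tc j i h).2 (by rw [hs, hM])).symm
  no := by
    intro i j hij hM hT
    rcases lt_or_gt_of_ne hij with h | h
    · have := (tc i j h).1 hT; omega
    · have := (tc j i h).1 hT.symm; rw [hs] at this; omega

omit [Fintype V] in
lemma tc_single_arc {G : SimpleGraph V} {d : ℕ → V} {x : V} {s t : ℕ} :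
    Tc G {x} ((Ico s t).image d) ↔ ∃ i, s ≤ i ∧ i < t ∧ G.Adj x (d i) := by
  constructor
  · rintro ⟨a, ha, b, hb, hab⟩
    rw [mem_singleton] at ha
    obtain ⟨i, hi, rfl⟩ := mem_image.1 hb
    rw [mem_Ico] at hi
    exact ⟨i, hi.1, hi.2, ha ▸ hab⟩
  · rintro ⟨i, h1, h2, h3⟩
    exact ⟨x, by simp, d i, mem_image_of_mem _ (mem_Ico.2 ⟨h1, h2⟩), h3⟩

omit [Fintype V] in
lemma tc_arc_arc {G : SimpleGraph V} {d : ℕ → V} {s t s' t' : ℕ} :
    Tc G ((Ico s t).image d) ((Ico s' t').image d) ↔
      ∃ i j, s ≤ i ∧ i < t ∧ s' ≤ j ∧ j < t' ∧ G.Adj (d i) (d j) := by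
  constructor
  · rintro ⟨a, ha, b, hb, hab⟩
    obtain ⟨i, hi, rfl⟩ := mem_image.1 ha
    obtain ⟨j, hj, rfl⟩ := mem_image.1 hb
    rw [mem_Ico] at hi hj
    exact ⟨i, j, hi.1, hi.2, hj.1, hj.2, hab⟩
  · rintro ⟨i, j, h1, h2, h3, h4, h5⟩
    exact ⟨d i, mem_image_of_mem _ (mem_Ico.2 ⟨h1, h2⟩), d j,
      mem_image_of_mem _ (mem_Ico.2 ⟨h3, h4⟩), h5⟩

lemma four_pos (S : Finset ℕ) (h : 4 ≤ S.card) : ∃ i1 i2 i3 i4, i1 < i2 ∧ i2 < i3 ∧ i3 < i4 ∧
    i1 ∈ S ∧ i2 ∈ S ∧ i3 ∈ S ∧ i4 ∈ S :=
  ⟨S.orderEmbOfCardLe h 0, S.orderEmbOfCardLe h 1, S.orderEmbOfCardLe h 2,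
    S.orderEmbOfCardLe h 3, (S.orderEmbOfCardLe h).strictMono (by decide),
    (S.orderEmbOfCardLe h).strictMono (by decide), (S.orderEmbOfCardLe h).strictMono (by decide),
    S.orderEmbOfCardLe_mem h _, S.orderEmbOfCardLe_mem h _, S.orderEmbOfCardLe_mem h _,
    S.orderEmbOfCardLe_mem h _⟩

lemma five_pos (S : Finset ℕ) (h : 5 ≤ S.card) : ∃ i0 i1 i2 i3 i4, i0 < i1 ∧ i1 < i2 ∧ i2 < i3 ∧
    i3 < i4 ∧ i0 ∈ S ∧ i1 ∈ S ∧ i2 ∈ S ∧ i3 ∈ S ∧ i4 ∈ S :=
  ⟨S.orderEmbOfCardLe h 0, S.orderEmbOfCardLe h 1, S.orderEmbOfCardLe h 2,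
    S.orderEmbOfCardLe h 3, S.orderEmbOfCardLe h 4, (S.orderEmbOfCardLe h).strictMono (by decide),
    (S.orderEmbOfCardLe h).strictMono (by decide), (S.orderEmbOfCardLe h).strictMono (by decide),
    (S.orderEmbOfCardLe h).strictMono (by decide),
    S.orderEmbOfCardLe_mem h _, S.orderEmbOfCardLe_mem h _, S.orderEmbOfCardLe_mem h _,
    S.orderEmbOfCardLe_mem h _, S.orderEmbOfCardLe_mem h _⟩

omit [Fintype V] in
lemma disj_arc {d : ℕ → V} {n s t s' t' : ℕ}
    (hinj : ∀ i j, 1 ≤ i → i < n → 1 ≤ j → j < n → d i = d j → i = j) (h1 : 1 ≤ s)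
    (h3 : t ≤ s') (h5 : t' ≤ n) : Disjoint ((Ico s t).image d) ((Ico s' t').image d) := by
  rw [Finset.disjoint_left]
  intro v hv hv'
  obtain ⟨i, hi, rfl⟩ := mem_image.1 hv
  obtain ⟨j, hj, hij⟩ := mem_image.1 hv'
  rw [mem_Ico] at hi hj
  have := hinj j i (by omega) (by omega) (by omega) (by omega) hij
  omega

omit [Fintype V] in
lemma disj_single_arc {d : ℕ → V} {n s t : ℕ} {x : V}
    (hx : ∀ i, 1 ≤ i → i < n → d i ≠ x) (h1 : 1 ≤ s)
    (h5 : t ≤ n) : Disjoint {x} ((Ico s t).image d) := by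
  rw [Finset.disjoint_singleton_left]
  intro hv
  obtain ⟨i, hi, hix⟩ := mem_image.1 hv
  rw [mem_Ico] at hi
  exact hx i (by omega) (by omega) hix

end basic

/-- splitting a rim vertex into `X, Y` -/
theorem caseA {V : Type} [Fintype V] (R : SimpleGraph V) (X Y H : V) (n : ℕ) (d : ℕ → V)
    (hXY : R.Adj X Y) (hXH : X ≠ H) (hYH : Y ≠ H)
    (hdX : ∀ i, 1 ≤ i → i < n → d i ≠ X) (hdY : ∀ i, 1 ≤ i → i < n → d i ≠ Y)
    (hdH : ∀ i, 1 ≤ i → i < n → d i ≠ H)
    (hinj : ∀ i j, 1 ≤ i → i < n → 1 ≤ j → j < n → d i = d j → i = j)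
    (hsurj : ∀ v, v = X ∨ v = Y ∨ v = H ∨ ∃ i, 1 ≤ i ∧ i < n ∧ d i = v)
    (hadj : ∀ i j, 1 ≤ i → i < j → j < n → (R.Adj (d i) (d j) ↔ j = i + 1))
    (hXYd : ∀ i, 1 ≤ i → i < n → ((R.Adj X (d i) ∨ R.Adj Y (d i)) ↔ (i = 1 ∨ i + 1 = n)))
    (i1 i2 i3 i4 : ℕ) (h1 : 1 ≤ i1) (h12 : i1 < i2) (h23 : i2 < i3) (h34 : i3 < i4) (h4 : i4 < n)
    (s1 : R.Adj H (d i1)) (s2 : R.Adj H (d i2)) (s3 : R.Adj H (d i3)) (s4 : R.Adj H (d i4))
    (hX : R.Adj X H ∨ ∃ i, 1 ≤ i ∧ i < n ∧ R.Adj X (d i))
    (hY : R.Adj Y H ∨ ∃ i, 1 ≤ i ∧ i < n ∧ R.Adj Y (d i))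
    (hng1 : ¬ (R.Adj X (d 1) ∧ R.Adj Y (d (n - 1)) ∧ ¬ R.Adj X (d (n - 1)) ∧ ¬ R.Adj Y (d 1)))
    (hng2 : ¬ (R.Adj X (d (n - 1)) ∧ R.Adj Y (d 1) ∧ ¬ R.Adj X (d 1) ∧ ¬ R.Adj Y (d (n - 1)))) :
    HasC R x5T := by
  have hXd : ∀ i, 1 ≤ i → i < n → R.Adj X (d i) → (i = 1 ∨ i = n - 1) := by
    intro i hi hin ha
    have := (hXYd i hi hin).1 (Or.inl ha); omega
  have hYd : ∀ i, 1 ≤ i → i < n → R.Adj Y (d i) → (i = 1 ∨ i = n - 1) := by
    intro i hi hin ha
    have := (hXYd i hi hin).1 (Or.inr ha); omega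
  -- touching of a single vertex with an arc
  have tcx : ∀ (x : V), (∀ i, 1 ≤ i → i < n → R.Adj x (d i) → (i = 1 ∨ i = n - 1)) →
      ∀ s t, 1 ≤ s → s < t → t ≤ n → (Tc R {x} ((Ico s t).image d) ↔
        ((s = 1 ∧ R.Adj x (d 1)) ∨ (t = n ∧ R.Adj x (d (n - 1))))) := by
    intro x hx s t hs hst htn
    rw [tc_single_arc]
    constructor
    · rintro ⟨i, hi1, hi2, ha⟩
      rcases hx i (by omega) (by omega) ha with h | h
      · left; subst h; exact ⟨by omega, ha⟩
      · right; subst h; exact ⟨by omega, ha⟩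
    · rintro (⟨rfl, ha⟩ | ⟨rfl, ha⟩)
      · exact ⟨1, le_rfl, hst, ha⟩
      · exact ⟨t - 1, by omega, by omega, ha⟩
  have tcH : ∀ s t i, s ≤ i → i < t → R.Adj H (d i) → Tc R {H} ((Ico s t).image d) := by
    intro s t i h1 h2 h3
    rw [tc_single_arc]
    exact ⟨i, h1, h2, h3⟩
  have tca : ∀ s t s' t', 1 ≤ s → s < t → t ≤ s' → s' < t' → t' ≤ n →
      (Tc R ((Ico s t).image d) ((Ico s' t').image d) ↔ s' = t) := by
    intro s t s' t' g1 g2 g3 g4 g5
    rw [tc_arc_arc]
    constructor
    · rintro ⟨i, j, k1, k2, k3, k4, k5⟩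
      rw [hadj i j (by omega) (by omega) (by omega)] at k5
      omega
    · rintro rfl
      refine ⟨s' - 1, s', by omega, by omega, le_rfl, g4, ?_⟩
      rw [hadj _ _ (by omega) (by omega) (by omega)]
      omega
  have tcs : ∀ x y : V, Tc R {x} {y} ↔ R.Adj x y := by
    intro x y
    simp [Tc]
  have hcn : ∀ s t, 1 ≤ s → s < t → t ≤ n → Cn R ((Ico s t).image d) := by
    intro s t g1 g2 g3
    exact cn_arc g2 fun i k1 k2 => (hadj i (i + 1) (by omega) (by omega) (by omega)).2 rfl
  obtain ⟨k, hk⟩ := certA (decide (R.Adj X (d 1))) (decide (R.Adj X (d (n - 1))))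
    (decide (R.Adj X H)) (decide (R.Adj Y (d 1))) (decide (R.Adj Y (d (n - 1))))
    (decide (R.Adj Y H))
    (by
      have := (hXYd 1 (by omega) (by omega)).2 (Or.inl rfl)
      simpa using this)
    (by
      have := (hXYd (n - 1) (by omega) (by omega)).2 (Or.inr (by omega))
      simpa using this)
    (by
      simp only [Bool.or_eq_true, decide_eq_true_eq]
      rcases hX with h | ⟨i, g1, g2, g3⟩
      · exact Or.inr h
      · rcases hXd i g1 g2 g3 with rfl | rfl
        · exact Or.inl (Or.inl g3)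
        · exact Or.inl (Or.inr g3))
    (by
      simp only [Bool.or_eq_true, decide_eq_true_eq]
      rcases hY with h | ⟨i, g1, g2, g3⟩
      · exact Or.inr h
      · rcases hYd i g1 g2 g3 with rfl | rfl
        · exact Or.inl (Or.inl g3)
        · exact Or.inl (Or.inr g3))
    (by
      rw [← Bool.not_eq_true]
      simpa [and_assoc] using hng1)
    (by
      rw [← Bool.not_eq_true]
      simpa [and_assoc] using hng2)
  have pq : PQ R (MA (decide (R.Adj X (d 1))) (decide (R.Adj X (d (n - 1))))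
    (decide (R.Adj X H)) (decide (R.Adj Y (d 1))) (decide (R.Adj Y (d (n - 1))))
    (decide (R.Adj Y H))) ![{X}, {Y}, {H}, (Ico 1 (i1 + 1)).image d,
      (Ico (i1 + 1) (i2 + 1)).image d, (Ico (i2 + 1) (i3 + 1)).image d,
      (Ico (i3 + 1) n).image d] := by
    apply PQ.mk'
    · intro i
      fin_cases i
      · exact Cn.singleton X
      · exact Cn.singleton Y
      · exact Cn.singleton H
      · exact hcn _ _ (by omega) (by omega) (by omega)
      · exact hcn _ _ (by omega) (by omega) (by omega)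
      · exact hcn _ _ (by omega) (by omega) (by omega)
      · exact hcn _ _ (by omega) (by omega) (by omega)
    · have dx : ∀ s t, 1 ≤ s → t ≤ n → Disjoint {X} ((Ico s t).image d) := fun s t g1 g2 =>
        disj_single_arc hdX g1 g2
      have dy : ∀ s t, 1 ≤ s → t ≤ n → Disjoint {Y} ((Ico s t).image d) := fun s t g1 g2 =>
        disj_single_arc hdY g1 g2
      have dh : ∀ s t, 1 ≤ s → t ≤ n → Disjoint {H} ((Ico s t).image d) := fun s t g1 g2 =>
        disj_single_arc hdH g1 g2
      have da : ∀ s t s' t', 1 ≤ s → t ≤ s' → t' ≤ n →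
        Disjoint ((Ico s t).image d) ((Ico s' t').image d) := fun s t s' t' g1 g2 g3 =>
        disj_arc hinj g1 g2 g3
      have dxy : Disjoint ({X} : Finset V) {Y} := by simpa using hXY.ne
      have dxh : Disjoint ({X} : Finset V) {H} := by simpa using hXH
      have dyh : Disjoint ({Y} : Finset V) {H} := by simpa using hYH
      intro i j hij
      fin_cases i <;> fin_cases j <;> first | (exfalso; revert hij; decide) | skip
      · exact dxy
      · exact dxh
      · exact dx _ _ (by omega) (by omega)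
      · exact dx _ _ (by omega) (by omega)
      · exact dx _ _ (by omega) (by omega)
      · exact dx _ _ (by omega) (by omega)
      · exact dyh
      · exact dy _ _ (by omega) (by omega)
      · exact dy _ _ (by omega) (by omega)
      · exact dy _ _ (by omega) (by omega)
      · exact dy _ _ (by omega) (by omega)
      · exact dh _ _ (by omega) (by omega)
      · exact dh _ _ (by omega) (by omega)
      · exact dh _ _ (by omega) (by omega)
      · exact dh _ _ (by omega) (by omega)
      · exact da _ _ _ _ (by omega) (by omega) (by omega)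
      · exact da _ _ _ _ (by omega) (by omega) (by omega)
      · exact da _ _ _ _ (by omega) (by omega) (by omega)
      · exact da _ _ _ _ (by omega) (by omega) (by omega)
      · exact da _ _ _ _ (by omega) (by omega) (by omega)
      · exact da _ _ _ _ (by omega) (by omega) (by omega)
    · intro v
      rcases hsurj v with rfl | rfl | rfl | ⟨i, g1, g2, rfl⟩
      · exact ⟨0, by simp⟩
      · exact ⟨1, by simp⟩
      · exact ⟨2, by simp⟩
      · by_cases k1 : i < i1 + 1
        · exact ⟨3, mem_image_of_mem d (mem_Ico.2 ⟨g1, k1⟩)⟩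
        by_cases k2 : i < i2 + 1
        · exact ⟨4, mem_image_of_mem d (mem_Ico.2 ⟨by omega, k2⟩)⟩
        by_cases k3 : i < i3 + 1
        · exact ⟨5, mem_image_of_mem d (mem_Ico.2 ⟨by omega, k3⟩)⟩
        · exact ⟨6, mem_image_of_mem d (mem_Ico.2 ⟨by omega, g2⟩)⟩
    · intro i j
      fin_cases i <;> fin_cases j <;> rfl
    · have bt : ∀ P : Prop, (P ↔ (decide P).toNat = 1) := by
        intro P
        by_cases hP : P <;> simp [hP]
      intro i j hij
      fin_cases i <;> fin_cases j <;> first | (exfalso; revert hij; decide) | skip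
      · exact iff_of_true ((tcs X Y).2 hXY) rfl
      · exact (tcs X H).trans (bt _)
      · refine (tcx X hXd _ _ (by omega) (by omega) (by omega)).trans (Iff.trans ?_ (bt _))
        constructor
        · rintro (h | h)
          · exact h.2
          · omega
        · exact fun h => Or.inl ⟨rfl, h⟩
      · refine iff_of_false ?_ (by simp [MA])
        refine (tcx X hXd _ _ (by omega) (by omega) (by omega)).not.2 ?_
        omega
      · refine iff_of_false ?_ (by simp [MA])
        refine (tcx X hXd _ _ (by omega) (by omega) (by omega)).not.2 ?_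
        omega
      · refine (tcx X hXd _ _ (by omega) (by omega) (by omega)).trans (Iff.trans ?_ (bt _))
        constructor
        · rintro (h | h)
          · omega
          · exact h.2
        · exact fun h => Or.inr ⟨rfl, h⟩
      · exact (tcs Y H).trans (bt _)
      · refine (tcx Y hYd _ _ (by omega) (by omega) (by omega)).trans (Iff.trans ?_ (bt _))
        constructor
        · rintro (h | h)
          · exact h.2
          · omega
        · exact fun h => Or.inl ⟨rfl, h⟩
      · refine iff_of_false ?_ (by simp [MA])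
        refine (tcx Y hYd _ _ (by omega) (by omega) (by omega)).not.2 ?_
        omega
      · refine iff_of_false ?_ (by simp [MA])
        refine (tcx Y hYd _ _ (by omega) (by omega) (by omega)).not.2 ?_
        omega
      · refine (tcx Y hYd _ _ (by omega) (by omega) (by omega)).trans (Iff.trans ?_ (bt _))
        constructor
        · rintro (h | h)
          · omega
          · exact h.2
        · exact fun h => Or.inr ⟨rfl, h⟩
      · exact iff_of_true (tcH _ _ i1 (by omega) (by omega) s1) rfl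
      · exact iff_of_true (tcH _ _ i2 (by omega) (by omega) s2) rfl
      · exact iff_of_true (tcH _ _ i3 (by omega) (by omega) s3) rfl
      · exact iff_of_true (tcH _ _ i4 (by omega) (by omega) s4) rfl
      · exact iff_of_true ((tca _ _ _ _ (by omega) (by omega) (by omega) (by omega) (by omega)).2 rfl) rfl
      · refine iff_of_false ((tca _ _ _ _ (by omega) (by omega) (by omega) (by omega) (by omega)).not.2 (by omega)) (by simp [MA])
      · refine iff_of_false ((tca _ _ _ _ (by omega) (by omega) (by omega) (by omega) (by omega)).not.2 (by omega)) (by simp [MA])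
      · exact iff_of_true ((tca _ _ _ _ (by omega) (by omega) (by omega) (by omega) (by omega)).2 rfl) rfl
      · refine iff_of_false ((tca _ _ _ _ (by omega) (by omega) (by omega) (by omega) (by omega)).not.2 (by omega)) (by simp [MA])
      · exact iff_of_true ((tca _ _ _ _ (by omega) (by omega) (by omega) (by omega) (by omega)).2 rfl) rfl
  exact hasC_of_chk pq hk

/-- splitting the hub into `X, Y` -/
theorem caseB {V : Type} [Fintype V] (R : SimpleGraph V) (X Y : V) (n : ℕ) (d : ℕ → V)
    (hXY : R.Adj X Y)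
    (hdX : ∀ i, i < n → d i ≠ X) (hdY : ∀ i, i < n → d i ≠ Y)
    (hinj : ∀ i j, i < n → j < n → d i = d j → i = j)
    (hsurj : ∀ v, v = X ∨ v = Y ∨ ∃ i, i < n ∧ d i = v)
    (hadj : ∀ i j, i < j → j < n → (R.Adj (d i) (d j) ↔ (j = i + 1 ∨ (i = 0 ∧ j + 1 = n))))
    (i0 i1 i2 i3 i4 : ℕ) (h01 : i0 < i1) (h12 : i1 < i2) (h23 : i2 < i3) (h34 : i3 < i4)
    (h4 : i4 < n)
    (s0 : R.Adj X (d i0) ∨ R.Adj Y (d i0)) (s1 : R.Adj X (d i1) ∨ R.Adj Y (d i1))
    (s2 : R.Adj X (d i2) ∨ R.Adj Y (d i2)) (s3 : R.Adj X (d i3) ∨ R.Adj Y (d i3))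
    (s4 : R.Adj X (d i4) ∨ R.Adj Y (d i4))
    (hX : ∃ i, i < n ∧ R.Adj X (d i)) (hY : ∃ i, i < n ∧ R.Adj Y (d i)) :
    HasC R x5T := by
  have tca : ∀ s t s' t', s < t → t ≤ s' → s' < t' → t' ≤ n →
      (Tc R ((Ico s t).image d) ((Ico s' t').image d) ↔ (s' = t ∨ (s = 0 ∧ t' = n))) := by
    intro s t s' t' g2 g3 g4 g5
    rw [tc_arc_arc]
    constructor
    · rintro ⟨i, j, k1, k2, k3, k4, k5⟩
      rw [hadj i j (by omega) (by omega)] at k5
      omega
    · rintro (rfl | ⟨rfl, rfl⟩)
      · refine ⟨s' - 1, s', by omega, by omega, le_rfl, g4, ?_⟩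
        rw [hadj _ _ (by omega) (by omega)]
        omega
      · refine ⟨0, t' - 1, le_rfl, g2, by omega, by omega, ?_⟩
        rw [hadj _ _ (by omega) (by omega)]
        omega
  have tcs : ∀ x y : V, Tc R {x} {y} ↔ R.Adj x y := by
    intro x y
    simp [Tc]
  have hcn : ∀ s t, s < t → t ≤ n → Cn R ((Ico s t).image d) := by
    intro s t g2 g3
    exact cn_arc g2 fun i k1 k2 => (hadj i (i + 1) (by omega) (by omega)).2 (Or.inl rfl)
  have cov : ∀ x : V, (∃ i, i < n ∧ R.Adj x (d i)) →
      ((((Tc R {x} ((Ico 0 (i0 + 1)).image d) ∨ Tc R {x} ((Ico (i0 + 1) (i1 + 1)).image d)) ∨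
      Tc R {x} ((Ico (i1 + 1) (i2 + 1)).image d)) ∨ Tc R {x} ((Ico (i2 + 1) (i3 + 1)).image d)) ∨
      Tc R {x} ((Ico (i3 + 1) n).image d)) := by
    rintro x ⟨i, g1, g2⟩
    simp only [tc_single_arc]
    by_cases k0 : i < i0 + 1
    · exact Or.inl (Or.inl (Or.inl (Or.inl ⟨i, by omega, by omega, g2⟩)))
    by_cases k1 : i < i1 + 1
    · exact Or.inl (Or.inl (Or.inl (Or.inr ⟨i, by omega, by omega, g2⟩)))
    by_cases k2 : i < i2 + 1
    · exact Or.inl (Or.inl (Or.inr ⟨i, by omega, by omega, g2⟩))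
    by_cases k3 : i < i3 + 1
    · exact Or.inl (Or.inr ⟨i, by omega, by omega, g2⟩)
    · exact Or.inr ⟨i, by omega, by omega, g2⟩
  have lab : ∀ s t i, s ≤ i → i < t → (R.Adj X (d i) ∨ R.Adj Y (d i)) →
      (Tc R {X} ((Ico s t).image d) ∨ Tc R {Y} ((Ico s t).image d)) := by
    intro s t i g1 g2 g3
    simp only [tc_single_arc]
    rcases g3 with g3 | g3
    · exact Or.inl ⟨i, g1, g2, g3⟩
    · exact Or.inr ⟨i, g1, g2, g3⟩
  obtain ⟨k, hk⟩ := certB
    (decide (Tc R {X} ((Ico 0 (i0 + 1)).image d)))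
    (decide (Tc R {X} ((Ico (i0 + 1) (i1 + 1)).image d)))
    (decide (Tc R {X} ((Ico (i1 + 1) (i2 + 1)).image d)))
    (decide (Tc R {X} ((Ico (i2 + 1) (i3 + 1)).image d)))
    (decide (Tc R {X} ((Ico (i3 + 1) n).image d)))
    (decide (Tc R {Y} ((Ico 0 (i0 + 1)).image d)))
    (decide (Tc R {Y} ((Ico (i0 + 1) (i1 + 1)).image d)))
    (decide (Tc R {Y} ((Ico (i1 + 1) (i2 + 1)).image d)))
    (decide (Tc R {Y} ((Ico (i2 + 1) (i3 + 1)).image d)))
    (decide (Tc R {Y} ((Ico (i3 + 1) n).image d)))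
    (by simpa using lab 0 (i0 + 1) i0 (by omega) (by omega) s0)
    (by simpa using lab (i0 + 1) (i1 + 1) i1 (by omega) (by omega) s1)
    (by simpa using lab (i1 + 1) (i2 + 1) i2 (by omega) (by omega) s2)
    (by simpa using lab (i2 + 1) (i3 + 1) i3 (by omega) (by omega) s3)
    (by simpa using lab (i3 + 1) n i4 (by omega) (by omega) s4)
    (by simpa using cov X hX) (by simpa using cov Y hY)
  have pq : PQ R (MB (decide (Tc R {X} ((Ico 0 (i0 + 1)).image d)))
      (decide (Tc R {X} ((Ico (i0 + 1) (i1 + 1)).image d)))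
      (decide (Tc R {X} ((Ico (i1 + 1) (i2 + 1)).image d)))
      (decide (Tc R {X} ((Ico (i2 + 1) (i3 + 1)).image d)))
      (decide (Tc R {X} ((Ico (i3 + 1) n).image d)))
      (decide (Tc R {Y} ((Ico 0 (i0 + 1)).image d)))
      (decide (Tc R {Y} ((Ico (i0 + 1) (i1 + 1)).image d)))
      (decide (Tc R {Y} ((Ico (i1 + 1) (i2 + 1)).image d)))
      (decide (Tc R {Y} ((Ico (i2 + 1) (i3 + 1)).image d)))
      (decide (Tc R {Y} ((Ico (i3 + 1) n).image d)))) ![{X}, {Y}, (Ico 0 (i0 + 1)).image d,
      (Ico (i0 + 1) (i1 + 1)).image d, (Ico (i1 + 1) (i2 + 1)).image d,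
      (Ico (i2 + 1) (i3 + 1)).image d, (Ico (i3 + 1) n).image d] := by
    apply PQ.mk'
    · intro i
      fin_cases i
      · exact Cn.singleton X
      · exact Cn.singleton Y
      · exact hcn _ _ (by omega) (by omega)
      · exact hcn _ _ (by omega) (by omega)
      · exact hcn _ _ (by omega) (by omega)
      · exact hcn _ _ (by omega) (by omega)
      · exact hcn _ _ (by omega) (by omega)
    · have ds : ∀ x, (∀ i, i < n → d i ≠ x) → ∀ s t, t ≤ n →
          Disjoint {x} ((Ico s t).image d) := by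
        intro x hx s t g2
        rw [Finset.disjoint_singleton_left]
        intro hv
        obtain ⟨i, hi, hix⟩ := mem_image.1 hv
        rw [mem_Ico] at hi
        exact hx i (by omega) hix
      have dx := ds X hdX
      have dy := ds Y hdY
      have da : ∀ s t s' t', t ≤ s' → t' ≤ n →
          Disjoint ((Ico s t).image d) ((Ico s' t').image d) := by
        intro s t s' t' g2 g3
        rw [Finset.disjoint_left]
        intro v hv hv'
        obtain ⟨i, hi, rfl⟩ := mem_image.1 hv
        obtain ⟨j, hj, hij⟩ := mem_image.1 hv'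
        rw [mem_Ico] at hi hj
        have := hinj j i (by omega) (by omega) hij
        omega
      have dxy : Disjoint ({X} : Finset V) {Y} := by simpa using hXY.ne
      intro i j hij
      fin_cases i <;> fin_cases j <;> first | (exfalso; revert hij; decide) | skip
      · exact dxy
      · exact dx _ _ (by omega)
      · exact dx _ _ (by omega)
      · exact dx _ _ (by omega)
      · exact dx _ _ (by omega)
      · exact dx _ _ (by omega)
      · exact dy _ _ (by omega)
      · exact dy _ _ (by omega)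
      · exact dy _ _ (by omega)
      · exact dy _ _ (by omega)
      · exact dy _ _ (by omega)
      · exact da _ _ _ _ (by omega) (by omega)
      · exact da _ _ _ _ (by omega) (by omega)
      · exact da _ _ _ _ (by omega) (by omega)
      · exact da _ _ _ _ (by omega) (by omega)
      · exact da _ _ _ _ (by omega) (by omega)
      · exact da _ _ _ _ (by omega) (by omega)
      · exact da _ _ _ _ (by omega) (by omega)
      · exact da _ _ _ _ (by omega) (by omega)
      · exact da _ _ _ _ (by omega) (by omega)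
      · exact da _ _ _ _ (by omega) (by omega)
    · intro v
      rcases hsurj v with rfl | rfl | ⟨i, g2, rfl⟩
      · exact ⟨0, by simp⟩
      · exact ⟨1, by simp⟩
      · by_cases k0 : i < i0 + 1
        · exact ⟨2, mem_image_of_mem d (mem_Ico.2 ⟨by omega, k0⟩)⟩
        by_cases k1 : i < i1 + 1
        · exact ⟨3, mem_image_of_mem d (mem_Ico.2 ⟨by omega, k1⟩)⟩
        by_cases k2 : i < i2 + 1
        · exact ⟨4, mem_image_of_mem d (mem_Ico.2 ⟨by omega, k2⟩)⟩
        by_cases k3 : i < i3 + 1
        · exact ⟨5, mem_image_of_mem d (mem_Ico.2 ⟨by omega, k3⟩)⟩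
        · exact ⟨6, mem_image_of_mem d (mem_Ico.2 ⟨by omega, g2⟩)⟩
    · intro i j
      fin_cases i <;> fin_cases j <;> rfl
    · have bt : ∀ P : Prop, (P ↔ (decide P).toNat = 1) := by
        intro P
        by_cases hP : P <;> simp [hP]
      intro i j hij
      fin_cases i <;> fin_cases j <;> first | (exfalso; revert hij; decide) | skip
      · exact iff_of_true ((tcs X Y).2 hXY) rfl
      · exact bt _
      · exact bt _
      · exact bt _
      · exact bt _
      · exact bt _
      · exact bt _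
      · exact bt _
      · exact bt _
      · exact bt _
      · exact bt _
      · exact iff_of_true ((tca _ _ _ _ (by omega) (by omega) (by omega) (by omega)).2 (Or.inl rfl)) rfl
      · exact iff_of_false ((tca _ _ _ _ (by omega) (by omega) (by omega) (by omega)).not.2 (by omega)) (by simp [MB])
      · exact iff_of_false ((tca _ _ _ _ (by omega) (by omega) (by omega) (by omega)).not.2 (by omega)) (by simp [MB])
      · exact iff_of_true ((tca _ _ _ _ (by omega) (by omega) (by omega) (by omega)).2 (Or.inr ⟨rfl, rfl⟩)) rfl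
      · exact iff_of_true ((tca _ _ _ _ (by omega) (by omega) (by omega) (by omega)).2 (Or.inl rfl)) rfl
      · exact iff_of_false ((tca _ _ _ _ (by omega) (by omega) (by omega) (by omega)).not.2 (by omega)) (by simp [MB])
      · exact iff_of_false ((tca _ _ _ _ (by omega) (by omega) (by omega) (by omega)).not.2 (by omega)) (by simp [MB])
      · exact iff_of_true ((tca _ _ _ _ (by omega) (by omega) (by omega) (by omega)).2 (Or.inl rfl)) rfl
      · exact iff_of_false ((tca _ _ _ _ (by omega) (by omega) (by omega) (by omega)).not.2 (by omega)) (by simp [MB])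
      · exact iff_of_true ((tca _ _ _ _ (by omega) (by omega) (by omega) (by omega)).2 (Or.inl rfl)) rfl
  exact hasC_of_chk pq hk

/-- a longer wheel -/
theorem mkWheel {V : Type} [Fintype V] (R : SimpleGraph V) (X Y H : V) (n : ℕ) (d : ℕ → V)
    (hn : 3 ≤ n) (hXY : R.Adj X Y) (hXH : X ≠ H) (hYH : Y ≠ H)
    (hdX : ∀ i, 1 ≤ i → i < n → d i ≠ X) (hdY : ∀ i, 1 ≤ i → i < n → d i ≠ Y)
    (hdH : ∀ i, 1 ≤ i → i < n → d i ≠ H)
    (hinj : ∀ i j, 1 ≤ i → i < n → 1 ≤ j → j < n → d i = d j → i = j)
    (hsurj : ∀ v, v = X ∨ v = Y ∨ v = H ∨ ∃ i, 1 ≤ i ∧ i < n ∧ d i = v)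
    (hadj : ∀ i j, 1 ≤ i → i < j → j < n → (R.Adj (d i) (d j) ↔ j = i + 1))
    (hXd : ∀ i, 1 ≤ i → i < n → (R.Adj X (d i) ↔ i = 1))
    (hYd : ∀ i, 1 ≤ i → i < n → (R.Adj Y (d i) ↔ i + 1 = n))
    (hdeg : 5 ≤ (univ.filter (fun v => R.Adj H v)).card) :
    Whl R (n + 1) H (fun i => if i = 0 then X else if i = n then Y else d i) where
  ne := by
    intro i hi
    split_ifs with h1 h2
    · exact hXH
    · exact hYH
    · exact hdH i (by omega) (by omega)
  inj := by
    intro i hi j hj hij
    split_ifs at hij with h1 h2 h3 h4 h5 h6 h7 h8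
    · omega
    · exact absurd hij hXY.ne
    · exact absurd hij.symm (hdX j (by omega) (by omega))
    · exact absurd hij hXY.ne'
    · omega
    · exact absurd hij.symm (hdY j (by omega) (by omega))
    · exact absurd hij (hdX i (by omega) (by omega))
    · exact absurd hij (hdY i (by omega) (by omega))
    · exact hinj i j (by omega) (by omega) (by omega) (by omega) hij
  surj := by
    intro v hv
    rcases hsurj v with rfl | rfl | rfl | ⟨i, g1, g2, rfl⟩
    · exact ⟨0, by omega, by simp⟩
    · exact ⟨n, by omega, by simp; omega⟩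
    · exact absurd rfl hv
    · refine ⟨i, by omega, ?_⟩
      rw [if_neg (by omega), if_neg (by omega)]
  adj := by
    intro i j hij hj
    split_ifs with h1 h2 h3 h4 h5 h6 h7 h8
    · omega
    · exact iff_of_true hXY (by omega)
    · rw [hXd j (by omega) (by omega)]; omega
    · omega
    · omega
    · omega
    · omega
    · rw [SimpleGraph.adj_comm, hYd i (by omega) (by omega)]; omega
    · rw [hadj i j (by omega) hij (by omega)]; omega
  deg := hdeg

/-- step theorem: `Q` is the contraction of the edge `X Y` of `R` (keeping the name `X`) -/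
theorem stepW' {V : Type} [Fintype V] (R : SimpleGraph V) (X Y : V)
    (Q : SimpleGraph {v : V // v ≠ Y}) (hQ : ∀ u w : {v : V // v ≠ Y}, Q.Adj u w ↔
      (u ≠ w ∧ (R.Adj u w ∨ (u.1 = X ∧ R.Adj Y w) ∨ (w.1 = X ∧ R.Adj Y u))))
    (hXY : R.Adj X Y) (hX : ∃ z, z ≠ Y ∧ R.Adj X z) (hY : ∃ z, z ≠ X ∧ R.Adj Y z)
    (hG : GoodW Q) : GoodW R ∨ HasC R x5T := by
  obtain ⟨n, h, c, w⟩ := hG
  set B : {v : V // v ≠ Y} := ⟨X, hXY.ne⟩ with hB
  -- adjacency away from B
  have ha1 : ∀ u v : {v : V // v ≠ Y}, u ≠ B → v ≠ B → (Q.Adj u v ↔ R.Adj u v) := by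
    intro u v hu hv
    rw [hQ]
    have hu' : u.1 ≠ X := fun e => hu (Subtype.ext e)
    have hv' : v.1 ≠ X := fun e => hv (Subtype.ext e)
    simp only [hu', hv', false_and, or_false]
    constructor
    · exact fun h => h.2
    · exact fun h => ⟨fun e => h.ne (congrArg _ e), h⟩
  have ha2 : ∀ v : {v : V // v ≠ Y}, v ≠ B → (Q.Adj B v ↔ (R.Adj X v ∨ R.Adj Y v)) := by
    intro v hv
    rw [hQ]
    have hv' : v.1 ≠ X := fun e => hv (Subtype.ext e)
    simp only [hv', false_and, or_false, hB, true_and]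
    constructor
    · exact fun h => h.2
    · exact fun h => ⟨fun e => hv e.symm, h⟩
  by_cases hh : h = B
  · -- the hub is split
    right
    subst hh
    obtain ⟨i0, i1, i2, i3, i4, h01, h12, h23, h34, m0, m1, m2, m3, m4⟩ :=
      five_pos _ w.card_spokes
    simp only [mem_filter, mem_range] at m0 m1 m2 m3 m4
    have hcB : ∀ i < n, c i ≠ B := w.ne
    have hnb : ∀ x : V, (x = X ∨ x = Y) → (∃ z, z ≠ X ∧ z ≠ Y ∧ R.Adj x z) →
        ∃ i, i < n ∧ R.Adj x (c i) := by
      rintro x _ ⟨z, hzX, hzY, hz⟩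
      obtain ⟨i, hi, hci⟩ := w.surj ⟨z, hzY⟩ (fun e => hzX (congrArg Subtype.val e))
      exact ⟨i, hi, by rw [hci]; exact hz⟩
    refine caseB R X Y n (fun i => (c i).1) hXY (fun i hi e => hcB i hi (Subtype.ext e))
      (fun i _ => (c i).2) (fun i j hi hj e => w.inj i hi j hj (Subtype.ext e)) ?_ ?_
      i0 i1 i2 i3 i4 h01 h12 h23 h34 m4.1 ((ha2 _ (hcB _ m0.1)).1 m0.2)
      ((ha2 _ (hcB _ m1.1)).1 m1.2) ((ha2 _ (hcB _ m2.1)).1 m2.2) ((ha2 _ (hcB _ m3.1)).1 m3.2)
      ((ha2 _ (hcB _ m4.1)).1 m4.2) (hnb X (Or.inl rfl) ?_) (hnb Y (Or.inr rfl) ?_)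
    · intro v
      by_cases h1 : v = X
      · exact Or.inl h1
      by_cases h2 : v = Y
      · exact Or.inr (Or.inl h2)
      obtain ⟨i, hi, hci⟩ := w.surj ⟨v, h2⟩ (fun e => h1 (congrArg Subtype.val e))
      exact Or.inr (Or.inr ⟨i, hi, by rw [hci]⟩)
    · intro i j hij hj
      rw [← w.adj i j hij hj, ha1 _ _ (hcB i (by omega)) (hcB j hj)]
    · obtain ⟨z, hz1, hz2⟩ := hX
      exact ⟨z, hz2.ne', hz1, hz2⟩
    · obtain ⟨z, hz1, hz2⟩ := hY
      exact ⟨z, hz1, hz2.ne', hz2⟩
  · -- a rim vertex is split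
    have hBh : B ≠ h := fun e => hh e.symm
    obtain ⟨k, hk, hck⟩ := w.surj B hBh
    -- rotate
    obtain ⟨c', w', h0⟩ : ∃ c' : ℕ → {v : V // v ≠ Y}, Whl Q n h c' ∧ c' 0 = B := by
      refine ⟨_, w.rot hk, ?_⟩
      simp [hk, hck]
    clear hck hk w
    have hn5 : 5 ≤ n := by
      have h1 := w'.card_spokes
      have h2 := card_filter_le (range n) (fun i => Q.Adj h (c' i))
      rw [card_range] at h2
      omega
    have hcB : ∀ i, 1 ≤ i → i < n → c' i ≠ B := by
      intro i hi hin e
      have := w'.inj i hin 0 (by omega) (e.trans h0.symm)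
      omega
    obtain ⟨i1, i2, i3, i4, h12, h23, h34, m1, m2, m3, m4⟩ :=
      four_pos (((range n).filter (fun i => Q.Adj h (c' i))).erase 0) (by
        have h1 := w'.card_spokes
        have h2 := pred_card_le_card_erase
          (s := (range n).filter (fun i => Q.Adj h (c' i))) (a := 0)
        omega)
    simp only [mem_erase, mem_filter, mem_range] at m1 m2 m3 m4
    have hdX : ∀ i, 1 ≤ i → i < n → (c' i).1 ≠ X := fun i h1 h2 e => hcB i h1 h2 (Subtype.ext e)
    have hinj : ∀ i j, 1 ≤ i → i < n → 1 ≤ j → j < n → (c' i).1 = (c' j).1 → i = j :=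
      fun i j _ h2 _ h4 e => w'.inj i h2 j h4 (Subtype.ext e)
    have hsurj : ∀ v, v = X ∨ v = Y ∨ v = h.1 ∨ ∃ i, 1 ≤ i ∧ i < n ∧ (c' i).1 = v := by
      intro v
      by_cases h1 : v = X
      · exact Or.inl h1
      by_cases h2 : v = Y
      · exact Or.inr (Or.inl h2)
      by_cases h3 : v = h.1
      · exact Or.inr (Or.inr (Or.inl h3))
      obtain ⟨i, hi, hci⟩ := w'.surj ⟨v, h2⟩ (fun e => h3 (congrArg Subtype.val e))
      refine Or.inr (Or.inr (Or.inr ⟨i, ?_, hi, by rw [hci]⟩))
      by_contra hc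
      have hi0 : i = 0 := by omega
      rw [hi0, h0] at hci
      exact h1 (congrArg Subtype.val hci).symm
    have hadj : ∀ i j, 1 ≤ i → i < j → j < n → (R.Adj (c' i).1 (c' j).1 ↔ j = i + 1) := by
      intro i j h1 h2 h3
      rw [← ha1 _ _ (hcB i h1 (by omega)) (hcB j (by omega) h3), w'.adj i j h2 h3]
      omega
    have hXYd : ∀ i, 1 ≤ i → i < n →
        ((R.Adj X (c' i).1 ∨ R.Adj Y (c' i).1) ↔ (i = 1 ∨ i + 1 = n)) := by
      intro i h1 h2
      rw [← ha2 _ (hcB i h1 h2), ← h0, w'.adj 0 i (by omega) h2]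
      omega
    have hXh : X ≠ h.1 := fun e => hBh (Subtype.ext e)
    have hsp : ∀ i, 1 ≤ i → i < n → (Q.Adj h (c' i) ↔ R.Adj h.1 (c' i).1) := by
      intro i h1 h2
      exact ha1 _ _ hh (hcB i h1 h2)
    -- new hub degree
    have hdeg : 5 ≤ (univ.filter (fun v => R.Adj h.1 v)).card := by
      refine w'.deg.trans ?_
      apply card_le_card_of_injOn (fun v => if v = B ∧ ¬ R.Adj h.1 X then Y else v.1)
      · intro v hv
        simp only [coe_filter, mem_univ, true_and, Set.mem_ofPred_eq] at hv ⊢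
        by_cases hvB : v = B
        · have h2 := (ha2 h hh).1 (by rw [← hvB]; exact hv.symm)
          by_cases h3 : R.Adj h.1 X
          · simp only [h3, not_true_eq_false, and_false, if_false]
            rw [hvB]; exact h3
          · simp only [hvB, h3, not_false_eq_true, and_self, if_true]
            rcases h2 with h2 | h2
            · exact absurd h2.symm h3
            · exact h2.symm
        · simp only [hvB, false_and, if_false]
          exact (ha1 h v hh hvB).1 hv
      · intro u _ v _ huv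
        simp only at huv
        split_ifs at huv with g1 g2 g2
        · exact g1.1.trans g2.1.symm
        · exact absurd huv.symm v.2
        · exact absurd huv u.2
        · exact Subtype.ext huv
    by_cases hg1 : R.Adj X (c' 1).1 ∧ R.Adj Y (c' (n - 1)).1 ∧ ¬ R.Adj X (c' (n - 1)).1 ∧
        ¬ R.Adj Y (c' 1).1
    · left
      refine ⟨n + 1, h.1, _, mkWheel R X Y h.1 n (fun i => (c' i).1) (by omega) hXY hXh h.2.symm
        hdX (fun i _ _ => (c' i).2) (fun i _ h2 e => w'.ne i h2 (Subtype.ext e)) hinj hsurj hadj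
        ?_ ?_ hdeg⟩
      · intro i g1 g2
        have k1 := hXYd i g1 g2
        constructor
        · intro ha
          rcases k1.1 (Or.inl ha) with h | h
          · exact h
          · have : i = n - 1 := by omega
            subst this
            exact absurd ha hg1.2.2.1
        · rintro rfl
          exact hg1.1
      · intro i g1 g2
        have k1 := hXYd i g1 g2
        constructor
        · intro ha
          rcases k1.1 (Or.inr ha) with h | h
          · subst h
            exact absurd ha hg1.2.2.2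
          · exact h
        · intro h
          have : i = n - 1 := by omega
          subst this
          exact hg1.2.1
    by_cases hg2 : R.Adj X (c' (n - 1)).1 ∧ R.Adj Y (c' 1).1 ∧ ¬ R.Adj X (c' 1).1 ∧
        ¬ R.Adj Y (c' (n - 1)).1
    · left
      refine ⟨n + 1, h.1, _, mkWheel R Y X h.1 n (fun i => (c' i).1) (by omega) hXY.symm
        h.2.symm hXh (fun i _ _ => (c' i).2) hdX (fun i _ h2 e => w'.ne i h2 (Subtype.ext e)) hinj
        (fun v => ?_) hadj ?_ ?_ hdeg⟩
      · rcases hsurj v with h | h | h | h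
        · exact Or.inr (Or.inl h)
        · exact Or.inl h
        · exact Or.inr (Or.inr (Or.inl h))
        · exact Or.inr (Or.inr (Or.inr h))
      · intro i g1 g2
        have k1 := hXYd i g1 g2
        constructor
        · intro ha
          rcases k1.1 (Or.inr ha) with h | h
          · exact h
          · have : i = n - 1 := by omega
            subst this
            exact absurd ha hg2.2.2.2
        · rintro rfl
          exact hg2.2.1
      · intro i g1 g2
        have k1 := hXYd i g1 g2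
        constructor
        · intro ha
          rcases k1.1 (Or.inl ha) with h | h
          · subst h
            exact absurd ha hg2.2.2.1
          · exact h
        · intro h
          have : i = n - 1 := by omega
          subst this
          exact hg2.1
    right
    refine caseA R X Y h.1 n (fun i => (c' i).1) hXY hXh h.2.symm hdX (fun i _ _ => (c' i).2)
      (fun i _ h2 e => w'.ne i h2 (Subtype.ext e)) hinj hsurj hadj hXYd i1 i2 i3 i4 (by omega)
      h12 h23 h34 m4.2.1 ((hsp _ (by omega) m1.2.1).1 m1.2.2) ((hsp _ (by omega) m2.2.1).1 m2.2.2)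
      ((hsp _ (by omega) m3.2.1).1 m3.2.2) ((hsp _ (by omega) m4.2.1).1 m4.2.2) ?_ ?_ hg1 hg2
    · obtain ⟨z, hz1, hz2⟩ := hX
      rcases hsurj z with rfl | rfl | rfl | ⟨i, g1, g2, rfl⟩
      · exact absurd hz2 (R.irrefl)
      · exact absurd rfl hz1
      · exact Or.inl hz2
      · exact Or.inr ⟨i, g1, g2, hz2⟩
    · obtain ⟨z, hz1, hz2⟩ := hY
      rcases hsurj z with rfl | rfl | rfl | ⟨i, g1, g2, rfl⟩
      · exact absurd rfl hz1
      · exact absurd hz2 (R.irrefl)
      · exact Or.inl hz2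
      · exact Or.inr ⟨i, g1, g2, hz2⟩

/-- invariance under isomorphism -/
theorem GoodW.iso {V V' : Type} [Fintype V] [Fintype V'] {R : SimpleGraph V} {R' : SimpleGraph V'}
    (e : R ≃g R') (hR : GoodW R) : GoodW R' := by
  obtain ⟨n, h, c, w⟩ := hR
  refine ⟨n, e h, fun i => e (c i), ⟨?_, ?_, ?_, ?_, ?_⟩⟩
  · intro i hi hh
    exact w.ne i hi (e.injective hh)
  · intro i hi j hj hij
    exact w.inj i hi j hj (e.injective hij)
  · intro v hv
    obtain ⟨i, hi, hci⟩ := w.surj (e.symm v) (fun hh => hv (by rw [← hh]; simp))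
    exact ⟨i, hi, by simp only [hci]; simp⟩
  · intro i j hij hj
    rw [e.map_adj_iff]
    exact w.adj i j hij hj
  · refine w.deg.trans ?_
    apply card_le_card_of_injOn (fun v => e v)
    · intro v hv
      simp only [coe_filter, mem_univ, true_and, Set.mem_ofPred_eq] at hv ⊢
      exact e.map_adj_iff.2 hv
    · intro u _ v _ huv
      exact e.injective huv

/-- the wheel with hub `5` and rim `0 1 2 3 4` -/
theorem goodW_W5 {V : Type} [Fintype V] {R : SimpleGraph V} (h : V) (c : Fin 5 → V)
    (hinj : Function.Injective c) (hne : ∀ i, c i ≠ h) (hsurj : ∀ v, v = h ∨ ∃ i, c i = v)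
    (hrim : ∀ i j, R.Adj (c i) (c j) ↔ (j = i + 1 ∨ i = j + 1)) (hhub : ∀ i, R.Adj h (c i)) :
    GoodW R := by
  refine ⟨5, h, fun i => if hi : i < 5 then c ⟨i, hi⟩ else h, ⟨?_, ?_, ?_, ?_, ?_⟩⟩
  · intro i hi
    simp only [hi, dif_pos]
    exact hne _
  · intro i hi j hj hij
    simp only [hi, hj, dif_pos] at hij
    have := hinj hij
    simpa using this
  · intro v hv
    rcases hsurj v with h | ⟨i, hi⟩
    · exact absurd h hv
    · refine ⟨i.1, i.2, ?_⟩
      simp only [i.2, dif_pos]
      exact hi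
  · intro i j hij hj
    have hi : i < 5 := by omega
    simp only [hi, hj, dif_pos, hrim]
    interval_cases j <;> interval_cases i <;> simp_all
  · have : (univ.image c).card = 5 := by
      rw [card_image_of_injective _ hinj]; simp
    rw [← this]
    apply card_le_card
    intro v hv
    obtain ⟨i, _, rfl⟩ := mem_image.1 hv
    simp [hhub i]

/-- wheel-like graphs are tame -/
theorem GoodW.tame {V : Type} [Fintype V] {R : SimpleGraph V} (hR : GoodW R) : Tame R 1 := by
  obtain ⟨n, h, c, w⟩ := hR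
  refine ⟨{h}, by simp, fun x _ => Or.inl fun y hy => ?_⟩
  have hy' := cpt_subset hy
  have hyh : y ≠ h := by simpa using hy'
  obtain ⟨i, hi, rfl⟩ := w.surj y hyh
  have key : (univ \ {h}).filter (fun z => R.Adj (c i) z) ⊆
      {c (if i + 1 < n then i + 1 else 0), c (if 0 < i then i - 1 else n - 1)} := by
    intro z hz
    simp only [mem_filter, mem_sdiff, mem_univ, mem_singleton, true_and] at hz
    obtain ⟨j, hj, rfl⟩ := w.surj z hz.1
    rw [mem_insert, mem_singleton]
    rcases lt_trichotomy i j with hij | hij | hij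
    · rcases (w.adj i j hij hj).1 hz.2 with h1 | ⟨h1, h2⟩
      · left
        rw [if_pos (by omega), h1]
      · right
        rw [if_neg (by omega)]
        congr 1; omega
    · subst hij
      exact absurd hz.2 (R.irrefl)
    · rcases (w.adj j i hij hi).1 hz.2.symm with h1 | ⟨h1, h2⟩
      · right
        rw [if_pos (by omega)]
        congr 1; omega
      · left
        rw [if_neg (by omega), h1]
  exact (card_le_card key).trans card_le_two

end Pool.Agent.H175R2
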