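import Pool.Agent.H175R2.XM
import Pool.Agent.H175R2.XW
import Pool.Agent.H175R2.XE
import Pool.Agent.H175R2.XDich
import Pool.Agent.H175R2.Assemble

/-! `X5`-contraction-free graphs have bounded clique-width. -/

namespace Pool.Agent.H175R2

theorem k33e_dec : adj (bM 6 K33eN) ((0 : Fin 6) : ℕ) ((1 : Fin 6) : ℕ) = true ∧
    ¬ adj (bM 6 K33eN) ((0 : Fin 6) : ℕ) ((2 : Fin 6) : ℕ) = true ∧
    ¬ adj (bM 6 K33eN) ((1 : Fin 6) : ℕ) ((2 : Fin 6) : ℕ) = true ∧ (0 : Fin 6) ≠ 2 ∧ (1 : Fin 6) ≠ 2 ∧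
    (∀ v : Fin 6, v ≠ 0 → v ≠ 1 → v ≠ 2 → adj (bM 6 K33eN) (v : ℕ) ((0 : Fin 6) : ℕ) = true ∧
      adj (bM 6 K33eN) (v : ℕ) ((1 : Fin 6) : ℕ) = true ∧ adj (bM 6 K33eN) (v : ℕ) ((2 : Fin 6) : ℕ) = true) ∧
    ∀ v w : Fin 6, v ≠ 0 → v ≠ 1 → v ≠ 2 → w ≠ 0 → w ≠ 1 → w ≠ 2 →
      ¬ adj (bM 6 K33eN) (v : ℕ) (w : ℕ) = true := by
  refine ⟨by decide +kernel, by decide +kernel, by decide +kernel, by decide, by decide, ?_, ?_⟩
  · have h : ∀ v : Fin 6, v = 0 ∨ v = 1 ∨ v = 2 ∨ (adj (bM 6 K33eN) (v : ℕ) ((0 : Fin 6) : ℕ) = true ∧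
      adj (bM 6 K33eN) (v : ℕ) ((1 : Fin 6) : ℕ) = true ∧
      adj (bM 6 K33eN) (v : ℕ) ((2 : Fin 6) : ℕ) = true) := by decide +kernel
    intro v h0 h1 h2
    rcases h v with h' | h' | h' | h'
    · exact absurd h' h0
    · exact absurd h' h1
    · exact absurd h' h2
    · exact h'
  · have h : ∀ v w : Fin 6, v = 0 ∨ v = 1 ∨ v = 2 ∨ w = 0 ∨ w = 1 ∨ w = 2 ∨
      adj (bM 6 K33eN) (v : ℕ) (w : ℕ) = false := by decide +kernel
    intro v w h0 h1 h2 h3 h4 h5 hadj
    rcases h v w with h' | h' | h' | h' | h' | h' | h'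
    · exact h0 h'
    · exact h1 h'
    · exact h2 h'
    · exact h3 h'
    · exact h4 h'
    · exact h5 h'
    · rw [hadj] at h'; exact absurd h' (by simp)

theorem w5_dec1 : ∀ i : Fin 5, i.castSucc ≠ (5 : Fin 6) := by decide

theorem w5_dec2 : ∀ v : Fin 6, v = 5 ∨ ∃ i : Fin 5, i.castSucc = v := by decide

theorem w5_dec3 : ∀ i j : Fin 5, adj (bM 6 W5N) (i.castSucc : ℕ) (j.castSucc : ℕ) = true ↔
    (j = i + 1 ∨ i = j + 1) := by
  decide +kernel

theorem w5_dec4 : ∀ i : Fin 5, adj (bM 6 W5N) ((5 : Fin 6) : ℕ) (i.castSucc : ℕ) = true := by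
  decide +kernel

open Finset Classical

variable {V : Type} [Fintype V] {G : SimpleGraph V}

lemma multChk_goodM {m : ℕ} {M : ℕ → ℕ → ℕ} {B : Fin m → Finset V} (hm : 6 ≤ m)
    (pq : PQ G (fun i j : Fin m => M i j) B) (h : multChk m M = true) : GoodM (qg G B) := by
  simp only [multChk, Bool.and_eq_true, allN_iff, anyN_iff, Bool.or_eq_true, Bool.not_eq_true',
    beq_iff_eq] at h
  obtain ⟨h01, htr, hdeg⟩ := h
  have hadj := pq.qg_adj (fun i j hij => by
    rcases h01 i i.2 j j.2 with (h | h) | h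
    · exact Or.inl h
    · exact Or.inr h
    · exact absurd (Fin.ext h) hij)
  refine ⟨by simpa using hm, Or.inl ⟨fun x y z hxy hyz hxz => ?_, fun x => ?_⟩⟩
  · rw [hadj] at hxy hyz hxz
    rcases htr x x.2 y y.2 z z.2 with (h | h) | h
    · exact hxy h
    · exact hyz h
    · rw [hxz] at h; exact absurd h (by simp)
  · obtain ⟨i, hi, j, hj, k, hk, h1, h2, h3⟩ := hdeg x x.2
    have key : ({⟨i, hi⟩, ⟨j, by omega⟩, ⟨k, by omega⟩} : Finset (Fin m)) ⊆
        univ.filter (fun y => (qg G B).Adj x y) := by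
      intro y hy
      rw [mem_insert, mem_insert, mem_singleton] at hy
      rw [mem_filter, hadj]
      refine ⟨mem_univ _, ?_⟩
      rcases hy with rfl | rfl | rfl
      · exact h1
      · exact h2
      · exact h3
    refine le_trans ?_ (card_le_card key)
    rw [card_insert_of_notMem, card_insert_of_notMem, card_singleton]
    · simp only [mem_singleton, Fin.mk.injEq]; omega
    · simp only [mem_insert, mem_singleton, Fin.mk.injEq]; omega

lemma bM_01 (m N : ℕ) (i j : ℕ) : bM m N i j = 1 ∨ bM m N i j = 0 := by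
  unfold bM tb; split_ifs <;> simp

lemma k33e_goodM {B : Fin 6 → Finset V} (pq : PQ G (fun i j : Fin 6 => bM 6 K33eN i j) B) :
    GoodM (qg G B) := by
  have hadj := pq.qg_adj (fun i j _ => bM_01 _ _ _ _)
  refine ⟨by simp, Or.inr ⟨0, 1, 2, ?_⟩⟩
  simp only [hadj]
  exact k33e_dec

lemma w5_goodW {B : Fin 6 → Finset V} (pq : PQ G (fun i j : Fin 6 => bM 6 W5N i j) B) :
    GoodW (qg G B) := by
  have hadj := pq.qg_adj (fun i j _ => bM_01 _ _ _ _)
  apply goodW_W5 (5 : Fin 6) (fun i : Fin 5 => i.castSucc)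
  · exact Fin.castSucc_injective 5
  · exact w5_dec1
  · exact w5_dec2
  · simp only [hadj]; exact w5_dec3
  · simp only [hadj]; exact w5_dec4

lemma exit_tame (h2 : TwoConn G) (hX : ¬ HasC G x5T) (h : ExitQ G) : Tame G 3 := by
  have mM : ∀ m : ℕ, 2 ≤ m → ∀ B : Fin m → Finset V, Part G B → GoodM (qg G B) → Tame G 3 := by
    intro m hm B p hg
    rcases lift_good (fun W _ R => GoodM R) (fun W W' _ _ R R' e h => h.iso e)
      (fun W _ R X Y Q hQ hXY hx hy hg => by
        have : Q = ctr R X Y := by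
          ext u w
          rw [hQ]; rfl
        subst this
        exact stepM R X Y hXY hx hy hg) h2 (Fintype.card V) m (by omega) hm B p hg with h | h
    · exact h.tame
    · exact absurd h hX
  rcases h with ⟨m, M', B, pq, h5, hmu⟩ | ⟨B, pq⟩ | ⟨B, pq⟩
  · exact mM (m + 1) (by omega) B pq.part (multChk_goodM (by omega) pq hmu)
  · rcases lift_good (fun W _ R => GoodW R) (fun W W' _ _ R R' e h => h.iso e)
      (fun W _ R X Y Q hQ hXY hx hy hg => by
        exact stepW' R X Y Q hQ hXY hx hy hg) h2 (Fintype.card V) 6 (by omega) (by omega) B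
          pq.part (w5_goodW pq) with h | h
    · obtain ⟨X, hX', hR⟩ := h.tame
      exact ⟨X, by omega, hR⟩
    · exact absurd h hX
  · exact mM 6 (by omega) B pq.part (k33e_goodM pq)

omit [Fintype V] in
/-- the component of `x` in a set, when a subset is closed -/
lemma cpt_eq_of_closed {S C : Finset V} {x : V} (hx : x ∈ C) (hC : C ⊆ S) (hc : Cn G C)
    (hcl : ∀ y ∈ C, ∀ z ∈ S, G.Adj y z → z ∈ C) : cpt G S x = C := by
  apply subset_antisymm
  · by_contra hns
    have hxS : x ∈ S := hC hx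
    obtain ⟨z, hz, hzC⟩ := Finset.not_subset.1 hns
    obtain ⟨a, ha, b, hb, hab⟩ := (cn_cpt (G := G) hxS).2 C (subset_cpt hC hc hx) ⟨x, hx⟩
      ⟨z, mem_sdiff.2 ⟨hz, hzC⟩⟩
    exact (mem_sdiff.1 hb).2 (hcl a ha b (cpt_subset (mem_sdiff.1 hb).1) hab)
  · exact subset_cpt hC hc hx

theorem cent_tame (h2 : TwoConn G) (hX : ¬ HasC G x5T) (hK : HasC G (fun _ _ : Fin 4 => true))
    (h : CentQ G) : Tame G 6 := by
  obtain ⟨m, B, hm4, hm6, p, hdeg, hcen⟩ := h
  choose c hcB hc using hcen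
  obtain ⟨q, hq, hq'⟩ := p.idx
  have hqc : ∀ k, q (c k) = k := fun k => hq' _ _ (hcB k)
  have hinj : Function.Injective c := by
    intro i j hij
    rw [← hqc i, ← hqc j, hij]
  refine ⟨univ.image c, ?_, ?_⟩
  · rw [card_image_of_injective _ hinj, card_univ, Fintype.card_fin]; exact hm6
  -- labels of components of bags minus centres
  have hlab : ∀ k, ∀ x ∈ B k \ {c k}, ∀ i j, i ≠ k → j ≠ k → Tc G (cpt G (B k \ {c k}) x) (B i) →
      Tc G (cpt G (B k \ {c k}) x) (B j) → i = j := by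
    intro k x hx i j hi hj ti tj
    exact card_le_one.1 (hc k x hx) i (mem_labk.2 ⟨hi, ti⟩) j (mem_labk.2 ⟨hj, tj⟩)
  -- centres have degree at least three
  have hcdeg : ∀ k, 3 ≤ (univ.filter (fun y => G.Adj (c k) y)).card := by
    intro k
    -- choose for each label a neighbour
    have hex : ∀ i ∈ lab G (Lk B k) (B k), ∃ y, G.Adj (c k) y ∧
        (y ∈ B i ∨ (y ∈ B k \ {c k} ∧ Tc G (cpt G (B k \ {c k}) y) (B i))) := by
      intro i hi
      obtain ⟨hik, x, hx, y, hy, hxy⟩ := mem_labk.1 hi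
      by_cases hxc : x = c k
      · exact ⟨y, hxc ▸ hxy, Or.inl hy⟩
      · have hx' : x ∈ B k \ {c k} := by rw [mem_sdiff, mem_singleton]; exact ⟨hx, hxc⟩
        obtain ⟨a, ha, b, hb, hab⟩ := (p.cn k).cpt_tc (W0 := {c k}) (by simpa using hcB k) (by simp) hx'
        rw [mem_singleton] at hb
        subst hb
        refine ⟨a, hab.symm, Or.inr ⟨cpt_subset ha, ?_⟩⟩
        rw [cpt_eq_of_mem hx' ha]
        exact ⟨x, mem_cpt_self hx', y, hy, hxy⟩
    have : Nonempty V := ⟨c k⟩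
    choose! f hf1 hf2 using hex
    refine (hdeg k).trans ?_
    apply card_le_card_of_injOn f
    · intro i hi
      simp only [coe_filter, mem_univ, true_and, Set.mem_ofPred_eq]
      exact hf1 i hi
    · intro i hi j hj hij
      have hi' := mem_coe.1 hi
      have hj' := mem_coe.1 hj
      have hik := (mem_labk.1 hi').1
      have hjk := (mem_labk.1 hj').1
      rcases hf2 i hi' with h1 | ⟨h1, t1⟩
      · rcases hf2 j hj' with h3 | ⟨h3, t3⟩
        · rw [← hij] at h3
          rw [← hq' _ _ h1, ← hq' _ _ h3]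
        · exfalso
          rw [← hij] at h3
          have e1 := hq' _ _ h1
          have e2 := hq' _ _ (mem_sdiff.1 h3).1
          exact hik (e1.symm.trans e2)
      · rcases hf2 j hj' with h3 | ⟨h3, t3⟩
        · exfalso
          rw [← hij] at h3
          have e1 := hq' _ _ h3
          have e2 := hq' _ _ (mem_sdiff.1 h1).1
          exact hjk (e1.symm.trans e2)
        · rw [← hij] at t3
          exact hlab k _ h1 i j hik hjk t1 t3
  intro x hx
  left
  obtain ⟨k, hk⟩ := p.cover x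
  have hxX : x ∉ univ.image c := (mem_sdiff.1 hx).2
  have hxc : x ≠ c k := fun h => hxX (by rw [h]; exact mem_image_of_mem _ (mem_univ _))
  have hxk : x ∈ B k \ {c k} := by rw [mem_sdiff, mem_singleton]; exact ⟨hk, hxc⟩
  -- the partner label
  obtain ⟨j, hjk, hj⟩ : ∃ j, j ≠ k ∧ ∀ i, i ≠ k → Tc G (cpt G (B k \ {c k}) x) (B i) → i = j := by
    by_cases hex : ∃ i, i ≠ k ∧ Tc G (cpt G (B k \ {c k}) x) (B i)
    · obtain ⟨i, hi, ti⟩ := hex
      exact ⟨i, hi, fun i' hi' ti' => hlab k x hxk i' i hi' hi ti' ti⟩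
    · push Not at hex
      obtain ⟨j, hj⟩ : ∃ j : Fin m, j ≠ k := by
        by_contra hcon
        push Not at hcon
        have h0 := hcon ⟨0, by omega⟩
        have h1 := hcon ⟨1, by omega⟩
        rw [← h1] at h0
        simp at h0
      exact ⟨j, hj, fun i hi ti => absurd ti (hex i hi)⟩
  -- the closed set `U`
  let U : Finset V := univ.filter (fun y => (y ∈ B k \ {c k} ∧ ∀ i, i ≠ k → Tc G (cpt G (B k \ {c k}) y) (B i) → i = j) ∨
    (y ∈ B j \ {c j} ∧ ∀ i, i ≠ j → Tc G (cpt G (B j \ {c j}) y) (B i) → i = k))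
  have hUc : ∀ y ∈ U, ∀ z, G.Adj y z → z ≠ c k → z ≠ c j → z ∈ U := by
    have half : ∀ a b : Fin m, a ≠ b → ∀ y, (y ∈ B a \ {c a} ∧ ∀ i, i ≠ a → Tc G (cpt G (B a \ {c a}) y) (B i) → i = b) →
        ∀ z, G.Adj y z → z ≠ c a → z ≠ c b →
        (z ∈ B a \ {c a} ∧ ∀ i, i ≠ a → Tc G (cpt G (B a \ {c a}) z) (B i) → i = b) ∨
        (z ∈ B b \ {c b} ∧ ∀ i, i ≠ b → Tc G (cpt G (B b \ {c b}) z) (B i) → i = a) := by
      intro a b hab y hy z hyz hza hzb
      obtain ⟨hy1, hy2⟩ := hy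
      obtain ⟨i, hi⟩ := p.cover z
      by_cases hia : i = a
      · left
        subst hia
        have hz : z ∈ B i \ {c i} := by rw [mem_sdiff, mem_singleton]; exact ⟨hi, hza⟩
        refine ⟨hz, ?_⟩
        have hzy : z ∈ cpt G (B i \ {c i}) y := by
          by_contra hc'
          exact not_adj_cpt hy1 (mem_cpt_self hy1) hz hc' hyz
        rw [cpt_eq_of_mem hy1 hzy]
        exact hy2
      · right
        have hib : i = b := hy2 i hia ⟨y, mem_cpt_self hy1, z, hi, hyz⟩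
        subst hib
        have hz : z ∈ B i \ {c i} := by rw [mem_sdiff, mem_singleton]; exact ⟨hi, hzb⟩
        refine ⟨hz, fun i' hi' ti' => ?_⟩
        exact hlab i z hz i' a hi' hab ti' ⟨z, mem_cpt_self hz, y, (mem_sdiff.1 hy1).1, hyz.symm⟩
    intro y hy z hyz h1 h3
    simp only [U, mem_filter, mem_univ, true_and] at hy ⊢
    rcases hy with hy | hy
    · exact half k j hjk.symm y hy z hyz h1 h3
    · rcases half j k hjk y hy z hyz h3 h1 with h | h
      · exact Or.inr h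
      · exact Or.inl h
  have hxU : x ∈ U := by
    simp only [U, mem_filter, mem_univ, true_and]
    exact Or.inl ⟨hxk, hj⟩
  have hUX : ∀ y ∈ U, y ∉ univ.image c := by
    intro y hy hyX
    obtain ⟨l, _, rfl⟩ := mem_image.1 hyX
    simp only [U, mem_filter, mem_univ, true_and, mem_sdiff, mem_singleton] at hy
    rcases hy with ⟨⟨h1, h3⟩, _⟩ | ⟨⟨h1, h3⟩, _⟩
    · have := hq' _ _ h1
      rw [hqc] at this
      exact h3 (by rw [this])
    · have := hq' _ _ h1
      rw [hqc] at this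
      exact h3 (by rw [this])
  -- the component
  have hCU : cpt G (univ \ univ.image c) x ⊆ U := by
    by_contra hns
    obtain ⟨z, hz, hzU⟩ := Finset.not_subset.1 hns
    obtain ⟨a, ha, b, hb, hab⟩ := (cn_cpt (G := G) hx).2 (cpt G (univ \ univ.image c) x ∩ U)
      inter_subset_left ⟨x, mem_inter.2 ⟨mem_cpt_self hx, hxU⟩⟩
      ⟨z, mem_sdiff.2 ⟨hz, fun h => hzU (mem_inter.1 h).2⟩⟩
    obtain ⟨hb1, hb2⟩ := mem_sdiff.1 hb
    have hbX := (mem_sdiff.1 (cpt_subset hb1)).2
    apply hb2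
    refine mem_inter.2 ⟨hb1, hUc a (mem_inter.1 ha).2 b hab ?_ ?_⟩
    · rintro rfl; exact hbX (mem_image_of_mem _ (mem_univ _))
    · rintro rfl; exact hbX (mem_image_of_mem _ (mem_univ _))
  have hne : c k ≠ c j := fun h => hjk (hinj h).symm
  have hCsub : cpt G (univ \ univ.image c) x ⊆ univ \ {c k, c j} := by
    intro y hy
    have := (mem_sdiff.1 (cpt_subset hy)).2
    rw [mem_sdiff, mem_insert, mem_singleton]
    refine ⟨mem_univ _, ?_⟩
    rintro (rfl | rfl)
    · exact this (mem_image_of_mem _ (mem_univ _))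
    · exact this (mem_image_of_mem _ (mem_univ _))
  have hCeq : cpt G (univ \ {c k, c j}) x = cpt G (univ \ univ.image c) x := by
    apply cpt_eq_of_closed (mem_cpt_self hx) hCsub (cn_cpt hx)
    intro y hy z hz hyz
    rw [mem_sdiff, mem_insert, mem_singleton] at hz
    have hzU := hUc y (hCU hy) z hyz (fun h => hz.2 (Or.inl h)) (fun h => hz.2 (Or.inr h))
    have hzX : z ∈ univ \ univ.image c := mem_sdiff.2 ⟨mem_univ _, hUX z hzU⟩
    by_contra hcon
    exact not_adj_cpt hx hy hzX hcon hyz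
  -- another centre
  obtain ⟨l, hlk, hlj⟩ : ∃ l : Fin m, l ≠ k ∧ l ≠ j := by
    have : ∃ l : Fin m, l ∉ ({k, j} : Finset (Fin m)) := by
      by_contra hcon
      push Not at hcon
      have h1 : (univ : Finset (Fin m)) ⊆ {k, j} := fun l _ => hcon l
      have h3 := card_le_card h1
      rw [card_univ, Fintype.card_fin] at h3
      have := card_le_two (a := k) (b := j)
      omega
    obtain ⟨l, hl⟩ := this
    rw [mem_insert, mem_singleton] at hl
    push Not at hl
    exact ⟨l, hl⟩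
  have hlC : c l ∉ cpt G (univ \ {c k, c j}) x := by
    rw [hCeq]
    intro h
    exact (mem_sdiff.1 (cpt_subset h)).2 (mem_image_of_mem _ (mem_univ _))
  have hlS : c l ∈ univ \ {c k, c j} := by
    rw [mem_sdiff, mem_insert, mem_singleton]
    refine ⟨mem_univ _, ?_⟩
    rintro (h | h)
    · exact hlk (hinj h)
    · exact hlj (hinj h)
  have hxS : x ∈ univ \ {c k, c j} := hCsub (mem_cpt_self hx)
  obtain ⟨_, _, hps⟩ := x5_thin h2 hX hK hne hxS (fun h => hlC (by rw [h]; exact hlS))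
  rcases hps with hps | hps
  · intro y hy
    rw [← hCeq] at hy
    exact (card_le_card (filter_subset_filter _ (subset_univ _))).trans (hps y hy)
  · exfalso
    have := hps (c l) (mem_sdiff.2 ⟨hlS, hlC⟩)
    have := hcdeg l
    omega

theorem dt_of_x5_free2 (h2 : TwoConn G) (hX : ¬ HasC G x5T) : DT G (3 * 2 ^ 6) univ univ := by
  have hne : Nonempty V := by
    obtain ⟨x, _⟩ := h2.conn.1
    exact ⟨x⟩
  by_cases hK : HasC G (fun _ _ : Fin 4 => true)
  · rcases state_dich hX hK with h | h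
    · exact (dt_of_tame (exit_tame h2 hX h)).mono (by norm_num)
    · exact dt_of_tame (cent_tame h2 hX hK h)
  · exact (dt_of_no_k4 h2.conn hK).mono (by norm_num)

theorem bdd_X5 : BddCw X5 :=
  bdd_of_dt x5_adj (3 * 2 ^ 6 + 1) fun V _ G hG hX =>
    dt_of_blocks x5T (3 * 2 ^ 6) (fun V _ G h2 hX => dt_of_x5_free2 h2 hX) (Fintype.card V) V G le_rfl hG hX

theorem main {W : Type} [Finite W] (H : SimpleGraph W) : BddCw H ↔ Nine H := main_of bdd_X5 H

end Pool.Agent.H175R2
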