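import Pool.Agent.H175R2.Cert
import Pool.Agent.H175R2.Blocks
import Pool.Agent.H175R2.Contr

/-! Lifting good quotients to the whole graph. -/

namespace Pool.Agent.H175R2

open Finset Classical

/-- partition into connected bags -/
structure Part {V : Type} [Fintype V] (G : SimpleGraph V) {m : ℕ} (B : Fin m → Finset V) : Prop where
  cn : ∀ i, Cn G (B i)
  disj : ∀ i j, i ≠ j → Disjoint (B i) (B j)
  cover : ∀ v, ∃ i, v ∈ B i

/-- quotient graph -/
def qg {V : Type} (G : SimpleGraph V) {m : ℕ} (B : Fin m → Finset V) : SimpleGraph (Fin m) where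
  Adj i j := i ≠ j ∧ Tc G (B i) (B j)
  symm := ⟨fun i j h => ⟨h.1.symm, h.2.symm⟩⟩
  loopless := ⟨fun i h => h.1 rfl⟩

section

variable {V : Type} [Fintype V] {G : SimpleGraph V} {m : ℕ} {B : Fin m → Finset V}

lemma PQ.part {M : Fin m → Fin m → ℕ} (pq : PQ G M B) : Part G B := ⟨pq.cn, pq.disj, pq.cover⟩

lemma Part.pq2 (p : Part G B) : PQ G (fun i j : Fin m => (fun _ _ : ℕ => 2) i j) B :=
  ⟨p.cn, p.disj, p.cover, fun _ _ _ h => absurd h (by norm_num), fun _ _ _ h => absurd h (by norm_num)⟩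

lemma Part.split (p : Part G B) (k : Fin m) {X Y : Finset V} (s : Split G (B k) X Y) :
    Part G (spB B k X Y) :=
  (PQ.split (M := fun _ _ => 2) p.pq2 k s (lbl G B k X) (lbl G B k Y) (fun i hi => lbl_testBit' i hi)
    (fun i hi => lbl_testBit' i hi)).part

lemma Part.idx (p : Part G B) : ∃ q : V → Fin m, (∀ v, v ∈ B (q v)) ∧ ∀ v i, v ∈ B i → q v = i := by
  choose q hq using p.cover
  refine ⟨q, hq, fun v i hi => ?_⟩
  by_contra hne
  exact (Finset.disjoint_left.1 (p.disj _ _ hne)) (hq v) hi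

lemma Part.wit (p : Part G B) {q : V → Fin m} (hq : ∀ v, v ∈ B (q v)) (hq' : ∀ v i, v ∈ B i → q v = i) :
    (∀ w, (G.induce {v | q v = w}).Connected) ∧
    ∀ w w', w ≠ w' → ((qg G B).Adj w w' ↔ ∃ x y, q x = w ∧ q y = w' ∧ G.Adj x y) := by
  have hfib : ∀ w, {v | q v = w} = (B w : Set V) := by
    intro w
    ext v
    simp only [Set.mem_ofPred_eq, Finset.mem_coe]
    exact ⟨fun h => h ▸ hq v, fun h => hq' v w h⟩
  refine ⟨fun w => ?_, fun w w' hne => ?_⟩
  · rw [hfib]; exact cn_iff_induce.1 (p.cn w)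
  · constructor
    · rintro ⟨_, x, hx, y, hy, ha⟩
      exact ⟨x, y, hq' x w hx, hq' y w' hy, ha⟩
    · rintro ⟨x, y, hx, hy, ha⟩
      exact ⟨hne, x, hx ▸ hq x, y, hy ▸ hq y, ha⟩

lemma Part.isContraction (p : Part G B) : IsContraction G (qg G B) := by
  obtain ⟨q, hq, hq'⟩ := p.idx
  exact ⟨q, p.wit hq hq'⟩

lemma Part.hasC5 (p : Part G B) (h : HasC (qg G B) x5T) : HasC G x5T := by
  rw [hasC_iff x5T X5 x5_adj] at h ⊢
  exact p.isContraction.trans h

lemma Part.iso (p : Part G B) (h1 : ∀ i, (B i).card = 1) : Nonempty (G ≃g qg G B) := by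
  obtain ⟨q, hq, hq'⟩ := p.idx
  choose b hb using fun i => card_eq_one.1 (h1 i)
  have hbq : ∀ v, b (q v) = v := by
    intro v
    have := hq v
    rw [hb] at this
    exact (mem_singleton.1 this).symm
  have hqb : ∀ i, q (b i) = i := fun i => hq' _ _ (by rw [hb i]; simp)
  refine ⟨⟨⟨q, b, hbq, hqb⟩, ?_⟩⟩
  intro x y
  simp only [Equiv.coe_fn_mk, qg]
  constructor
  · rintro ⟨_, x', hx', y', hy', ha⟩
    rw [hb, mem_singleton, hbq] at hx' hy'
    rw [← hx', ← hy']; exact ha
  · intro h
    refine ⟨fun he => ?_, x, hq x, y, hq y, h⟩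
    have : x = y := by rw [← hbq x, ← hbq y, he]
    exact h.ne this

lemma Part.card_le (p : Part G B) : m ≤ Fintype.card V := by
  obtain ⟨q, hq, hq'⟩ := p.idx
  have hs : Function.Surjective q := by
    intro i
    obtain ⟨x, hx⟩ := (p.cn i).1
    exact ⟨x, hq' x i hx⟩
  simpa using Fintype.card_le_of_surjective q hs

lemma TwoConn.split (h2 : TwoConn G) {D : Finset V} (hD : Cn G D) (h2D : 2 ≤ D.card)
    (hne : ∃ v, v ∉ D) : ∃ X Y, Split G D X Y ∧ Tc G X (univ \ D) ∧ Tc G Y (univ \ D) := by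
  obtain ⟨v, hv⟩ := hne
  obtain ⟨x1, hx1, y1, hy1, h1⟩ := h2.conn.2 D (subset_univ _) hD.1 ⟨v, by simp [hv]⟩
  have hy1D : y1 ∉ D := (mem_sdiff.1 hy1).2
  obtain ⟨x2, hx2, y2, hy2, h2'⟩ := (h2.del x1).2 (D.erase x1) (erase_subset_erase _ (subset_univ _))
    (by
      rw [← card_pos, card_erase_of_mem hx1]; omega)
    ⟨y1, by
      rw [mem_sdiff, mem_erase, mem_erase]
      exact ⟨⟨fun h => hy1D (h ▸ hx1), mem_univ _⟩, fun h => hy1D h.2⟩⟩
  have hx2D : x2 ∈ D := mem_of_mem_erase hx2
  have hne12 : x2 ≠ x1 := ne_of_mem_erase hx2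
  have hy2D : y2 ∉ D := by
    rw [mem_sdiff, mem_erase, mem_erase] at hy2
    exact fun h => hy2.2 ⟨hy2.1.1, h⟩
  obtain ⟨A, A', hA, hA', hu, hd, hc, hc'⟩ := hD.extend (Cn.singleton x1) (Cn.singleton x2)
    (by simpa using hx1) (by simpa using hx2D) (by simpa using hne12.symm)
  refine ⟨A, A', ⟨hc, hc', hu, hd⟩, ⟨x1, hA (by simp), y1, hy1, h1⟩,
    ⟨x2, hA' (by simp), y2, by simp [hy2D], h2'⟩⟩

lemma Part.out (p : Part G B) (k : Fin m) {X : Finset V} (h : Tc G X (univ \ B k)) :
    ∃ j, j ≠ k ∧ Tc G X (B j) := by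
  obtain ⟨x, hx, y, hy, ha⟩ := h
  obtain ⟨j, hj⟩ := p.cover y
  refine ⟨j, ?_, x, hx, y, hj, ha⟩
  rintro rfl
  exact (mem_sdiff.1 hy).2 hj

end

/-- The lifting theorem. -/
theorem lift_good (Good : ∀ (W : Type) [Fintype W], SimpleGraph W → Prop)
    (hiso : ∀ (W W' : Type) [Fintype W] [Fintype W'] (R : SimpleGraph W) (R' : SimpleGraph W'),
      (R ≃g R') → Good W R → Good W' R')
    (hstep : ∀ (W : Type) [Fintype W] (R : SimpleGraph W) (X Y : W) (Q : SimpleGraph {v : W // v ≠ Y}),
      (∀ u w : {v : W // v ≠ Y}, Q.Adj u w ↔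
        (u ≠ w ∧ (R.Adj u w ∨ (u.1 = X ∧ R.Adj Y w) ∨ (w.1 = X ∧ R.Adj Y u)))) → R.Adj X Y →
      (∃ z, z ≠ Y ∧ R.Adj X z) → (∃ z, z ≠ X ∧ R.Adj Y z) → Good _ Q → Good W R ∨ HasC R x5T)
    {V : Type} [Fintype V] {G : SimpleGraph V} (h2 : TwoConn G) :
    ∀ n m : ℕ, Fintype.card V ≤ m + n → 2 ≤ m → ∀ B : Fin m → Finset V, Part G B →
      Good (Fin m) (qg G B) → Good V G ∨ HasC G x5T := by
  intro n
  induction n with
  | zero =>
    intro m hn hm B p hg
    by_cases hall : ∀ i, (B i).card = 1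
    · obtain ⟨e⟩ := p.iso hall
      exact Or.inl (hiso _ _ _ _ e.symm hg)
    · exfalso
      push Not at hall
      obtain ⟨k, hk⟩ := hall
      have hk2 : 2 ≤ (B k).card := by
        have := card_pos.2 (p.cn k).1
        omega
      have hout : ∃ v, v ∉ B k := by
        obtain ⟨j, hj⟩ : ∃ j : Fin m, j ≠ k := by
          by_contra hc
          push Not at hc
          have h0 := hc ⟨0, by omega⟩
          have h1 := hc ⟨1, by omega⟩
          rw [← h1] at h0
          simp at h0
        obtain ⟨y, hy⟩ := (p.cn j).1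
        exact ⟨y, fun h => (Finset.disjoint_left.1 (p.disj _ _ hj)) hy h⟩
      obtain ⟨X, Y, s, tX, tY⟩ := h2.split (p.cn k) hk2 hout
      have := (p.split k s).card_le
      omega
  | succ n ih =>
    intro m hn hm B p hg
    by_cases hall : ∀ i, (B i).card = 1
    · obtain ⟨e⟩ := p.iso hall
      exact Or.inl (hiso _ _ _ _ e.symm hg)
    · push Not at hall
      obtain ⟨k, hk⟩ := hall
      have hk2 : 2 ≤ (B k).card := by
        have := card_pos.2 (p.cn k).1
        omega
      have hout : ∃ v, v ∉ B k := by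
        obtain ⟨j, hj⟩ : ∃ j : Fin m, j ≠ k := by
          by_contra hc
          push Not at hc
          have h0 := hc ⟨0, by omega⟩
          have h1 := hc ⟨1, by omega⟩
          rw [← h1] at h0
          simp at h0
        obtain ⟨y, hy⟩ := (p.cn j).1
        exact ⟨y, fun h => (Finset.disjoint_left.1 (p.disj _ _ hj)) hy h⟩
      obtain ⟨X, Y, s, tX, tY⟩ := h2.split (p.cn k) hk2 hout
      have p' := p.split k s
      -- values of the new partition
      have last : spB B k X Y (Fin.last m) = Y := by simp [spB]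
      have isk : spB B k X Y k.castSucc = X := by simp [spB]
      have oth : ∀ i : Fin m, i ≠ k → spB B k X Y i.castSucc = B i := by
        intro i hi
        have : i.val ≠ k.val := fun h => hi (Fin.ext h)
        simp [spB, this]
      have hXY : Tc G X Y := s.tc (p.cn k)
      -- the contraction
      let Q : SimpleGraph {v : Fin (m + 1) // v ≠ Fin.last m} :=
        { Adj := fun u w => u ≠ w ∧ ((qg G (spB B k X Y)).Adj u w ∨
            (u.1 = k.castSucc ∧ (qg G (spB B k X Y)).Adj (Fin.last m) w) ∨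
            (w.1 = k.castSucc ∧ (qg G (spB B k X Y)).Adj (Fin.last m) u))
          symm := ⟨by
            rintro u w ⟨h1, h2⟩
            refine ⟨h1.symm, ?_⟩
            rcases h2 with h2 | h2 | h2
            · exact Or.inl h2.symm
            · exact Or.inr (Or.inr h2)
            · exact Or.inr (Or.inl h2)⟩
          loopless := ⟨fun u h => h.1 rfl⟩ }
      have hf : ∀ i : Fin m, i.castSucc ≠ Fin.last m := fun i => Fin.castSucc_ne_last i
      let f : Fin m → {v : Fin (m + 1) // v ≠ Fin.last m} := fun i => ⟨i.castSucc, hf i⟩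
      have hfb : Function.Bijective f := by
        constructor
        · intro i j hij
          have := congrArg Subtype.val hij
          exact Fin.castSucc_injective m this
        · rintro ⟨v, hv⟩
          obtain ⟨i, hi⟩ := Fin.exists_castSucc_eq.2 hv
          exact ⟨i, Subtype.ext hi⟩
      have e : qg G B ≃g Q := by
        refine ⟨Equiv.ofBijective f hfb, ?_⟩
        intro i j
        simp only [Equiv.ofBijective_apply, Q, qg, f, ne_eq, Subtype.mk.injEq,
          (Fin.castSucc_injective m).eq_iff, last, (hf _).symm, not_false_eq_true, true_and]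
        by_cases hi : i = k
        · by_cases hj : j = k
          · rw [hi, hj]; simp
          · have hij : i ≠ j := by rw [hi]; exact Ne.symm hj
            rw [hi, isk, oth j hj]
            have hkj : k ≠ j := Ne.symm hj
            have e1 : Tc G (B k) (B j) ↔ Tc G X (B j) ∨ Tc G Y (B j) := by
              rw [← s.u, Tc.union_left]
            rw [e1]
            simp [hkj, hj]
        · by_cases hj : j = k
          · rw [hj, isk, oth i hi]
            have e1 : Tc G (B i) (B k) ↔ Tc G (B i) X ∨ Tc G Y (B i) := by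
              rw [← s.u, Tc.union_right, @Tc.comm _ _ (B i) Y]
            rw [e1]
            simp [hi]
          · rw [oth i hi, oth j hj]
            simp only [hi, hj, false_and, or_false]
            tauto
      have hQ : Good _ Q := hiso _ _ _ _ e hg
      have hinst : ∀ (i1 i2 : Fintype {v : Fin (m + 1) // v ≠ Fin.last m}),
          @Good _ i1 Q → @Good _ i2 Q := fun i1 i2 h => by
        rw [Subsingleton.elim i2 i1]; exact h
      obtain ⟨i, hi, ti⟩ := p.out k tX
      obtain ⟨j, hj, tj⟩ := p.out k tY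
      rcases hstep (Fin (m + 1)) (qg G (spB B k X Y)) k.castSucc (Fin.last m) Q (fun _ _ => Iff.rfl)
        ⟨hf k, by rw [isk, last]; exact hXY⟩
        ⟨i.castSucc, hf i, fun h => hi (Fin.castSucc_injective m h).symm, by rw [isk, oth i hi]; exact ti⟩
        ⟨j.castSucc, fun h => hj (Fin.castSucc_injective m h), (hf j).symm, by
          rw [last, oth j hj]; exact tj⟩ (hinst _ _ hQ) with h | h
      · exact ih (m + 1) (by omega) (by omega) _ p' h
      · exact Or.inr (p'.hasC5 h)

end Pool.Agent.H175R2
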