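import Pool.Agent.H175R2.Quot
import Pool.Agent.H175R2.Width

namespace Pool.Agent.H175R2

open Finset Classical

/-- contraction of the edge X Y (keeps X) -/
def ctr {V : Type} (R : SimpleGraph V) (X Y : V) : SimpleGraph {v : V // v ≠ Y} where
  Adj u w := u ≠ w ∧ (R.Adj u w ∨ (u.1 = X ∧ R.Adj Y w) ∨ (w.1 = X ∧ R.Adj Y u))
  symm := ⟨by
    rintro u w ⟨h1, h2⟩
    refine ⟨h1.symm, ?_⟩
    rcases h2 with h | h | h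
    · exact Or.inl h.symm
    · exact Or.inr (Or.inr h)
    · exact Or.inr (Or.inl h)⟩
  loopless := ⟨fun u h => h.1 rfl⟩

def GoodM {V : Type} [Fintype V] (R : SimpleGraph V) : Prop :=
  6 ≤ Fintype.card V ∧
  (((∀ x y z, ¬R.Adj x y → ¬R.Adj y z → ¬R.Adj x z) ∧ ∀ x, 3 ≤ (univ.filter (fun y => R.Adj x y)).card) ∨
   (∃ x1 x2 x3, R.Adj x1 x2 ∧ ¬R.Adj x1 x3 ∧ ¬R.Adj x2 x3 ∧ x1 ≠ x3 ∧ x2 ≠ x3 ∧
     (∀ v, v ≠ x1 → v ≠ x2 → v ≠ x3 → R.Adj v x1 ∧ R.Adj v x2 ∧ R.Adj v x3) ∧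
     (∀ v w, v ≠ x1 → v ≠ x2 → v ≠ x3 → w ≠ x1 → w ≠ x2 → w ≠ x3 → ¬R.Adj v w)))

namespace XM

variable {V : Type} {R : SimpleGraph V}

/-- two connected hubs inside a connected complement of a co-P3 -/
lemma x5_sets [Fintype V] {w0 w1 w2 : V} (h01 : w0 ≠ w1) (h02 : w0 ≠ w2) (h12 : R.Adj w1 w2)
    (n1 : ¬R.Adj w0 w1) (n2 : ¬R.Adj w0 w2) {D0 E0 : Finset V} (hD : Cn R D0) (hE : Cn R E0)
    (hDT : D0 ⊆ univ \ {w0, w1, w2}) (hET : E0 ⊆ univ \ {w0, w1, w2}) (hdis : Disjoint D0 E0)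
    (hT : Cn R (univ \ {w0, w1, w2}))
    (tD0 : Tc R D0 {w0}) (tD1 : Tc R D0 {w1}) (tD2 : Tc R D0 {w2})
    (tE0 : Tc R E0 {w0}) (tE1 : Tc R E0 {w1}) (tE2 : Tc R E0 {w2}) : HasC R x5T := by
  obtain ⟨D, E, hDD, hEE, hDE, hd, hcD, hcE⟩ := hT.extend hD hE hDT hET hdis
  have hDEt : Tc R D E := hT.tc_of_cover hDE.symm hd hcD.1 hcE.1
  have hDW : ∀ x ∈ D, x ≠ w0 ∧ x ≠ w1 ∧ x ≠ w2 := by
    intro x hx
    have : x ∈ univ \ {w0, w1, w2} := by rw [← hDE]; exact mem_union_left _ hx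
    simpa using this
  have hEW : ∀ x ∈ E, x ≠ w0 ∧ x ≠ w1 ∧ x ≠ w2 := by
    intro x hx
    have : x ∈ univ \ {w0, w1, w2} := by rw [← hDE]; exact mem_union_right _ hx
    simpa using this
  have hne12 : w1 ≠ w2 := h12.ne
  -- bags: 0 = {w1}, 1 = {w0}, 2 = {w2}, 3 = D, 4 = E
  let B : Fin 5 → Finset V := ![{w1}, {w0}, {w2}, D, E]
  have pq : PQ R (fun i j => if x5T i j then 1 else 0) B := by
    refine ⟨?_, ?_, ?_, ?_, ?_⟩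
    · intro i
      fin_cases i
      · exact Cn.singleton _
      · exact Cn.singleton _
      · exact Cn.singleton _
      · exact hcD
      · exact hcE
    · have key : ∀ i j : Fin 5, i < j → Disjoint (B i) (B j) := by
        intro i j hij
        fin_cases i <;> fin_cases j <;> simp [B] at hij ⊢ <;> first
          | exact hd
          | (intro h; simpa using hDW _ h)
          | (intro h; simpa using hEW _ h)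
          | (intro h; first | exact h01 h | exact h02 h | exact hne12 h | exact h01 h.symm)
      intro i j hij
      rcases lt_or_gt_of_ne hij with h | h
      · exact key i j h
      · exact (key j i h).symm
    · intro v
      by_cases h0 : v = w0
      · exact ⟨1, by simp [B, h0]⟩
      by_cases h1 : v = w1
      · exact ⟨0, by simp [B, h1]⟩
      by_cases h2 : v = w2
      · exact ⟨2, by simp [B, h2]⟩
      have : v ∈ D ∪ E := by rw [hDE]; simp [h0, h1, h2]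
      rcases mem_union.1 this with h | h
      · exact ⟨3, by simpa [B] using h⟩
      · exact ⟨4, by simpa [B] using h⟩
    · have key : ∀ i j : Fin 5, i < j → x5T i j = true → Tc R (B i) (B j) := by
        intro i j hij hM
        fin_cases i <;> fin_cases j <;> simp [B, x5T] at hij hM ⊢ <;> first
          | exact (tD0.mono hDD (Subset.refl _)).symm
          | exact (tD1.mono hDD (Subset.refl _)).symm
          | exact (tD2.mono hDD (Subset.refl _)).symm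
          | exact (tE0.mono hEE (Subset.refl _)).symm
          | exact (tE1.mono hEE (Subset.refl _)).symm
          | exact (tE2.mono hEE (Subset.refl _)).symm
          | exact hDEt
          | exact ⟨w1, by simp, w2, by simp, h12⟩
      intro i j hij hM
      have hM' : x5T i j = true := by
        by_contra h
        simp [h] at hM
      rcases lt_or_gt_of_ne hij with h | h
      · exact key i j h hM'
      · have : x5T j i = true := by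
          revert hM'; revert i j; decide
        exact (key j i h this).symm
    · intro i j hij hM
      have hM' : x5T i j = false := by
        by_contra h
        simp at h
        simp [h] at hM
      have : (i = 0 ∧ j = 1) ∨ (i = 1 ∧ j = 0) ∨ (i = 1 ∧ j = 2) ∨ (i = 2 ∧ j = 1) := by
        revert hM'; revert i j; decide
      rintro ⟨x, hx, y, hy, hxy⟩
      rcases this with ⟨rfl, rfl⟩ | ⟨rfl, rfl⟩ | ⟨rfl, rfl⟩ | ⟨rfl, rfl⟩ <;>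
        simp [B] at hx hy <;> subst hx <;> subst hy
      · exact n1 hxy.symm
      · exact n1 hxy
      · exact n2 hxy
      · exact n2 hxy.symm
  refine hasC_of_chk pq (c := id) (p := id) (r := id) ?_
  unfold Chk
  decide

/-- path-like set on three (possibly equal) vertices -/
lemma cn3 {d1 d2 d3 : V} (h1 : d1 = d2 ∨ R.Adj d1 d2) (h2 : d2 = d3 ∨ R.Adj d2 d3) :
    Cn R ({d1} ∪ ({d2} ∪ {d3})) := by
  have c2 : Cn R ({d2} ∪ {d3}) := by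
    apply (Cn.singleton d2).union (Cn.singleton d3)
    rcases h2 with rfl | h
    · right; simp
    · left; exact ⟨d2, by simp, d3, by simp, h⟩
  apply (Cn.singleton d1).union c2
  rcases h1 with rfl | h
  · right; exact ⟨d1, by simp⟩
  · left; exact ⟨d1, by simp, d2, by simp, h⟩

lemma tc3 {d1 d2 d3 w : V} (h : R.Adj d1 w ∨ R.Adj d2 w ∨ R.Adj d3 w) :
    Tc R ({d1} ∪ ({d2} ∪ {d3})) {w} := by
  rcases h with h | h | h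
  · exact ⟨d1, by simp, w, by simp, h⟩
  · exact ⟨d2, by simp, w, by simp, h⟩
  · exact ⟨d3, by simp, w, by simp, h⟩

/-- point form -/
lemma x5_pts [Fintype V] (w0 w1 w2 d1 d2 d3 e1 e2 e3 : V)
    (hT : Cn R (univ \ {w0, w1, w2}))
    (hW : w0 ≠ w1 ∧ w0 ≠ w2 ∧ R.Adj w1 w2 ∧ ¬R.Adj w0 w1 ∧ ¬R.Adj w0 w2)
    (hD : (d1 = d2 ∨ R.Adj d1 d2) ∧ (d2 = d3 ∨ R.Adj d2 d3))
    (hE : (e1 = e2 ∨ R.Adj e1 e2) ∧ (e2 = e3 ∨ R.Adj e2 e3))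
    (hDW : ∀ d, d = d1 ∨ d = d2 ∨ d = d3 → d ≠ w0 ∧ d ≠ w1 ∧ d ≠ w2)
    (hEW : ∀ d, d = e1 ∨ d = e2 ∨ d = e3 → d ≠ w0 ∧ d ≠ w1 ∧ d ≠ w2)
    (hDE : ∀ d, d = d1 ∨ d = d2 ∨ d = d3 → d ≠ e1 ∧ d ≠ e2 ∧ d ≠ e3)
    (tD : (R.Adj d1 w0 ∨ R.Adj d2 w0 ∨ R.Adj d3 w0) ∧ (R.Adj d1 w1 ∨ R.Adj d2 w1 ∨ R.Adj d3 w1) ∧
      (R.Adj d1 w2 ∨ R.Adj d2 w2 ∨ R.Adj d3 w2))
    (tE : (R.Adj e1 w0 ∨ R.Adj e2 w0 ∨ R.Adj e3 w0) ∧ (R.Adj e1 w1 ∨ R.Adj e2 w1 ∨ R.Adj e3 w1) ∧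
      (R.Adj e1 w2 ∨ R.Adj e2 w2 ∨ R.Adj e3 w2)) : HasC R x5T := by
  refine x5_sets hW.1 hW.2.1 hW.2.2.1 hW.2.2.2.1 hW.2.2.2.2 (cn3 hD.1 hD.2) (cn3 hE.1 hE.2)
    ?_ ?_ ?_ hT (tc3 tD.1) (tc3 tD.2.1) (tc3 tD.2.2) (tc3 tE.1) (tc3 tE.2.1) (tc3 tE.2.2)
  · intro x hx
    simp only [mem_union, mem_singleton] at hx
    have := hDW x hx
    simpa using this
  · intro x hx
    simp only [mem_union, mem_singleton] at hx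
    have := hEW x hx
    simpa using this
  · rw [disjoint_left]
    intro x hx hx'
    simp only [mem_union, mem_singleton] at hx hx'
    have := hDE x hx
    rcases hx' with h | h | h
    · exact this.1 h
    · exact this.2.1 h
    · exact this.2.2 h

/-- connectivity of a set through a hub, radius three -/
lemma cn_hub {T : Finset V} {h : V} (hh : h ∈ T)
    (H : ∀ t ∈ T, ∃ s ∈ T, ∃ s' ∈ T, (t = s ∨ R.Adj t s) ∧ (s = s' ∨ R.Adj s s') ∧ (s' = h ∨ R.Adj s' h)) :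
    Cn R T := by
  apply cn_of_cover hh
  intro t ht
  obtain ⟨s, hs, s', hs', h1, h2, h3⟩ := H t ht
  refine ⟨{t} ∪ ({s} ∪ ({s'} ∪ {h})), ?_, ?_, by simp, by simp⟩
  · refine union_subset (singleton_subset_iff.2 ht) (union_subset (singleton_subset_iff.2 hs)
      (union_subset (singleton_subset_iff.2 hs') (singleton_subset_iff.2 hh)))
  · have c2 : Cn R ({s} ∪ ({s'} ∪ {h})) := cn3 h2 h3
    apply (Cn.singleton t).union c2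
    rcases h1 with rfl | h
    · right; exact ⟨t, by simp⟩
    · left; exact ⟨t, by simp, s, by simp, h⟩

/-- connectivity in the multipartite situation -/
lemma conM [Fintype V] {X Y : V}
    (F1 : ∀ x y z, x ≠ X → x ≠ Y → y ≠ X → y ≠ Y → z ≠ X → z ≠ Y → ¬R.Adj x y → ¬R.Adj y z → ¬R.Adj x z)
    (w0 w1 w2 : V) (o s : V) (ho : o ≠ X ∧ o ≠ Y ∧ o ≠ w0 ∧ o ≠ w1 ∧ o ≠ w2)
    (hs : s ≠ X ∧ s ≠ Y ∧ s ≠ w0 ∧ s ≠ w1 ∧ s ≠ w2) (hos : R.Adj o s)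
    (hX : (X = w0 ∨ X = w1 ∨ X = w2) ∨ ∃ q, q ≠ X ∧ q ≠ Y ∧ q ≠ w0 ∧ q ≠ w1 ∧ q ≠ w2 ∧ R.Adj X q)
    (hY : (Y = w0 ∨ Y = w1 ∨ Y = w2) ∨ ∃ q, q ≠ X ∧ q ≠ Y ∧ q ≠ w0 ∧ q ≠ w1 ∧ q ≠ w2 ∧ R.Adj Y q) :
    Cn R (univ \ {w0, w1, w2}) := by
  have mT : ∀ t, t ∈ univ \ ({w0, w1, w2} : Finset V) ↔ t ≠ w0 ∧ t ≠ w1 ∧ t ≠ w2 := by
    intro t; simp
  have base : ∀ t, t ≠ X → t ≠ Y → R.Adj t o ∨ R.Adj t s := by
    intro t h1 h2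
    by_contra hc
    push Not at hc
    exact F1 o t s ho.1 ho.2.1 h1 h2 hs.1 hs.2.1 (fun h => hc.1 h.symm) hc.2 hos
  apply cn_hub (h := o) (by rw [mT]; tauto)
  intro t ht
  rw [mT] at ht
  by_cases hXt : t = X
  · subst hXt
    rcases hX with h | ⟨q, q1, q2, q3, q4, q5, q6⟩
    · tauto
    rcases base q q1 q2 with h | h
    · exact ⟨q, by rw [mT]; tauto, o, by rw [mT]; tauto, Or.inr q6, Or.inr h, Or.inl rfl⟩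
    · exact ⟨q, by rw [mT]; tauto, s, by rw [mT]; tauto, Or.inr q6, Or.inr h, Or.inr hos.symm⟩
  by_cases hYt : t = Y
  · subst hYt
    rcases hY with h | ⟨q, q1, q2, q3, q4, q5, q6⟩
    · tauto
    rcases base q q1 q2 with h | h
    · exact ⟨q, by rw [mT]; tauto, o, by rw [mT]; tauto, Or.inr q6, Or.inr h, Or.inl rfl⟩
    · exact ⟨q, by rw [mT]; tauto, s, by rw [mT]; tauto, Or.inr q6, Or.inr h, Or.inr hos.symm⟩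
  rcases base t hXt hYt with h | h
  · exact ⟨t, by rw [mT]; tauto, t, by rw [mT]; tauto, Or.inl rfl, Or.inl rfl, Or.inr h⟩
  · exact ⟨t, by rw [mT]; tauto, s, by rw [mT]; tauto, Or.inl rfl, Or.inr h, Or.inr hos.symm⟩

/-- connectivity through a hub, radius two -/
lemma conH [Fintype V] (w0 w1 w2 h : V) (hh : h ≠ w0 ∧ h ≠ w1 ∧ h ≠ w2)
    (H : ∀ t, t ≠ w0 → t ≠ w1 → t ≠ w2 → t = h ∨ R.Adj t h ∨
      ∃ s, s ≠ w0 ∧ s ≠ w1 ∧ s ≠ w2 ∧ R.Adj t s ∧ R.Adj s h) :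
    Cn R (univ \ {w0, w1, w2}) := by
  have mT : ∀ t, t ∈ univ \ ({w0, w1, w2} : Finset V) ↔ t ≠ w0 ∧ t ≠ w1 ∧ t ≠ w2 := by
    intro t; simp
  apply cn_hub (h := h) (by rw [mT]; exact hh)
  intro t ht
  have ht' := (mT t).1 ht
  rcases H t ht'.1 ht'.2.1 ht'.2.2 with h1 | h1 | ⟨s, s1, s2, s3, s4, s5⟩
  · exact ⟨t, ht, t, ht, Or.inl rfl, Or.inl rfl, Or.inl h1⟩
  · exact ⟨t, ht, t, ht, Or.inl rfl, Or.inl rfl, Or.inr h1⟩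
  · exact ⟨t, ht, s, by rw [mT]; exact ⟨s1, s2, s3⟩, Or.inl rfl, Or.inr s4, Or.inr s5⟩

/-- the multipartite situation, symmetric in `X`, `Y` -/
structure CtxM [Fintype V] (R : SimpleGraph V) (X Y : V) : Prop where
  xy : R.Adj X Y
  F1 : ∀ x y z, x ≠ X → x ≠ Y → y ≠ X → y ≠ Y → z ≠ X → z ≠ Y → ¬R.Adj x y → ¬R.Adj y z → ¬R.Adj x z
  PO : ∀ p o, p ≠ X → p ≠ Y → o ≠ X → o ≠ Y → ¬R.Adj X p → ¬R.Adj Y p → (R.Adj X o ∨ R.Adj Y o) → R.Adj p o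
  PP : ∀ p q, p ≠ X → p ≠ Y → q ≠ X → q ≠ Y → ¬R.Adj X p → ¬R.Adj Y p → ¬R.Adj X q → ¬R.Adj Y q → ¬R.Adj p q
  C1 : ∀ u v, ∃ o, o ≠ X ∧ o ≠ Y ∧ (R.Adj X o ∨ R.Adj Y o) ∧ o ≠ u ∧ o ≠ v
  C2 : ∀ v, v ≠ X → v ≠ Y → (R.Adj X v ∨ R.Adj Y v) → ∀ u, ∃ w, w ≠ X ∧ w ≠ Y ∧ R.Adj v w ∧ w ≠ u
  C4 : ∀ u1 u2 u3 u4, ∃ w, w ≠ X ∧ w ≠ Y ∧ w ≠ u1 ∧ w ≠ u2 ∧ w ≠ u3 ∧ w ≠ u4
  hX : ∃ z, z ≠ X ∧ z ≠ Y ∧ R.Adj X z
  hY : ∃ z, z ≠ X ∧ z ≠ Y ∧ R.Adj Y z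

lemma CtxM.symm [Fintype V] {X Y : V} (c : CtxM R X Y) : CtxM R Y X := by
  refine ⟨c.xy.symm, ?_, ?_, ?_, ?_, ?_, ?_, ?_, ?_⟩
  · intro x y z h1 h2 h3 h4 h5 h6; exact c.F1 x y z h2 h1 h4 h3 h6 h5
  · intro p o h1 h2 h3 h4 h5 h6 h7; exact c.PO p o h2 h1 h4 h3 h6 h5 h7.symm
  · intro p o h1 h2 h3 h4 h5 h6 h7 h8; exact c.PP p o h2 h1 h4 h3 h6 h5 h8 h7
  · intro u v
    obtain ⟨o, h1, h2, h3, h4, h5⟩ := c.C1 u v
    exact ⟨o, h2, h1, h3.symm, h4, h5⟩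
  · intro v h1 h2 h3 u
    obtain ⟨w, k1, k2, k3, k4⟩ := c.C2 v h2 h1 h3.symm u
    exact ⟨w, k2, k1, k3, k4⟩
  · intro u1 u2 u3 u4
    obtain ⟨w, k1, k2, k3⟩ := c.C4 u1 u2 u3 u4
    exact ⟨w, k2, k1, k3⟩
  · obtain ⟨z, h1, h2, h3⟩ := c.hY; exact ⟨z, h2, h1, h3⟩
  · obtain ⟨z, h1, h2, h3⟩ := c.hX; exact ⟨z, h2, h1, h3⟩

lemma caseI1 [Fintype V] {X Y : V} (c : CtxM R X Y) {p o1 o2 : V} (hp : p ≠ X ∧ p ≠ Y)
    (hp1 : ¬R.Adj X p) (hp2 : ¬R.Adj Y p) (h1 : o1 ≠ X ∧ o1 ≠ Y) (h2 : o2 ≠ X ∧ o2 ≠ Y)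
    (h12 : o1 ≠ o2) (a1 : R.Adj X o1) (b1 : R.Adj Y o1) (a2 : R.Adj X o2) (b2 : R.Adj Y o2) :
    HasC R x5T := by
  have e1 := c.PO p o1 hp.1 hp.2 h1.1 h1.2 hp1 hp2 (Or.inl a1)
  have e2 := c.PO p o2 hp.1 hp.2 h2.1 h2.2 hp1 hp2 (Or.inl a2)
  have exy := c.xy
  obtain ⟨s, s1, s2, s3, s4⟩ := c.C2 o1 h1.1 h1.2 (Or.inl a1) p
  have sy : ∀ x y, R.Adj x y → R.Adj y x := fun x y h => h.symm
  have ir : ∀ x, ¬ R.Adj x x := fun x h => h.ne rfl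
  refine x5_pts p X Y o1 o1 o1 o2 o2 o2 ?_ ?_ ?_ ?_ ?_ ?_ ?_ ?_ ?_
  · refine conM c.F1 p X Y o1 s ?_ ?_ s3 ?_ ?_ <;> grind
  all_goals grind

/-- `o` in both, `u` only needs to see `X`, `v` only needs to see `Y`; either `u ~ v` or there is
a second vertex `p'` non-adjacent to both. -/
lemma caseI2a [Fintype V] {X Y : V} (c : CtxM R X Y) {p o u v q : V} (hp : p ≠ X ∧ p ≠ Y)
    (hp1 : ¬R.Adj X p) (hp2 : ¬R.Adj Y p) (ho : o ≠ X ∧ o ≠ Y) (hu : u ≠ X ∧ u ≠ Y) (hv : v ≠ X ∧ v ≠ Y)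
    (hou : o ≠ u) (hov : o ≠ v) (hoq : o ≠ q) (hpq : p ≠ q) (hq : q ≠ X ∧ q ≠ Y)
    (ao : R.Adj X o) (bo : R.Adj Y o) (au : R.Adj X u) (bv : R.Adj Y v)
    (huq : u = q ∨ R.Adj u q) (hqv : q = v ∨ R.Adj q v) :
    HasC R x5T := by
  have e1 := c.PO p o hp.1 hp.2 ho.1 ho.2 hp1 hp2 (Or.inl ao)
  have e2 := c.PO p u hp.1 hp.2 hu.1 hu.2 hp1 hp2 (Or.inl au)
  have e3 := c.PO p v hp.1 hp.2 hv.1 hv.2 hp1 hp2 (Or.inr bv)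
  have exy := c.xy
  obtain ⟨s, s1, s2, s3, s4⟩ := c.C2 o ho.1 ho.2 (Or.inl ao) p
  have sy : ∀ x y, R.Adj x y → R.Adj y x := fun x y h => h.symm
  have ir : ∀ x, ¬ R.Adj x x := fun x h => h.ne rfl
  refine x5_pts p X Y o o o u q v ?_ ?_ ?_ ?_ ?_ ?_ ?_ ?_ ?_
  · refine conM c.F1 p X Y o s ?_ ?_ s3 ?_ ?_ <;> grind
  all_goals grind

/-- the special case: `P = {p}`, all of `O` but `o` in one part. -/
lemma caseI2b [Fintype V] {X Y : V} (c : CtxM R X Y) {p o a1 a2 b1 : V} (hp : p ≠ X ∧ p ≠ Y)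
    (hp1 : ¬R.Adj X p) (hp2 : ¬R.Adj Y p) (ho : o ≠ X ∧ o ≠ Y) (h1 : a1 ≠ X ∧ a1 ≠ Y)
    (h2 : a2 ≠ X ∧ a2 ≠ Y) (h3 : b1 ≠ X ∧ b1 ≠ Y) (h12 : a1 ≠ a2)
    (ao : R.Adj X o) (bo : R.Adj Y o) (e1 : R.Adj X a1) (e2 : R.Adj X a2) (e3 : R.Adj Y b1)
    (e4 : ¬ R.Adj X b1) (n1 : ¬ R.Adj a1 b1) (n2 : ¬R.Adj a2 b1) (oa : R.Adj o a1) :
    HasC R x5T := by
  have exy := c.xy
  have sy : ∀ x y, R.Adj x y → R.Adj y x := fun x y h => h.symm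
  have ir : ∀ x, ¬ R.Adj x x := fun x h => h.ne rfl
  have ob : R.Adj o b1 := by
    by_contra h
    exact c.F1 o b1 a1 ho.1 ho.2 h3.1 h3.2 h1.1 h1.2 h (fun h => n1 h.symm) oa
  have p1 := c.PO p o hp.1 hp.2 ho.1 ho.2 hp1 hp2 (Or.inl ao)
  have p2 := c.PO p a1 hp.1 hp.2 h1.1 h1.2 hp1 hp2 (Or.inl e1)
  have p3 := c.PO p a2 hp.1 hp.2 h2.1 h2.2 hp1 hp2 (Or.inl e2)
  have p4 := c.PO p b1 hp.1 hp.2 h3.1 h3.2 hp1 hp2 (Or.inr e3)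
  have n3 : ¬ R.Adj a1 a2 := fun h => c.F1 a1 b1 a2 h1.1 h1.2 h3.1 h3.2 h2.1 h2.2 n1 (fun h => n2 h.symm) h
  have oa2 : R.Adj o a2 := by
    by_contra h
    exact c.F1 o a2 a1 ho.1 ho.2 h2.1 h2.2 h1.1 h1.2 h (fun h => n3 h.symm) oa
  refine x5_pts b1 X a1 o o o p a2 a2 ?_ ?_ ?_ ?_ ?_ ?_ ?_ ?_ ?_
  · refine conM c.F1 b1 X a1 o p ?_ ?_ p1.symm ?_ ?_ <;> grind
  all_goals grind

lemma caseI2 [Fintype V] {X Y : V} (c : CtxM R X Y) {p o u v : V} (hp : p ≠ X ∧ p ≠ Y)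
    (hp1 : ¬R.Adj X p) (hp2 : ¬R.Adj Y p) (ho : o ≠ X ∧ o ≠ Y) (hu : u ≠ X ∧ u ≠ Y) (hv : v ≠ X ∧ v ≠ Y)
    (ao : R.Adj X o) (bo : R.Adj Y o) (au : R.Adj X u) (bu : ¬ R.Adj Y u) (av : ¬R.Adj X v) (bv : R.Adj Y v)
    (huniq : ∀ w, w ≠ X → w ≠ Y → R.Adj X w → R.Adj Y w → w = o) :
    HasC R x5T := by
  have sy : ∀ x y, R.Adj x y → R.Adj y x := fun x y h => h.symm
  have ir : ∀ x, ¬ R.Adj x x := fun x h => h.ne rfl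
  have hou : o ≠ u := by rintro rfl; exact bu bo
  have hov : o ≠ v := by rintro rfl; exact av ao
  by_cases huv : R.Adj u v
  · exact caseI2a c (q := u) hp hp1 hp2 ho hu hv hou hov hou (by rintro rfl; exact hp1 au) hu ao bo au bv
      (Or.inl rfl) (Or.inr huv)
  by_cases hP : ∃ p', p' ≠ p ∧ p' ≠ X ∧ p' ≠ Y ∧ ¬R.Adj X p' ∧ ¬R.Adj Y p'
  · obtain ⟨p', q1, q2, q3, q4, q5⟩ := hP
    exact caseI2a c (q := p') hp hp1 hp2 ho hu hv hou hov (by rintro rfl; exact q4 ao) q1.symm ⟨q2, q3⟩ ao bo au bv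
      (Or.inr (c.PO p' u q2 q3 hu.1 hu.2 q4 q5 (Or.inl au)).symm)
      (Or.inr (c.PO p' v q2 q3 hv.1 hv.2 q4 q5 (Or.inr bv)))
  push Not at hP
  by_cases hall : ∃ u' v', u' ≠ X ∧ u' ≠ Y ∧ v' ≠ X ∧ v' ≠ Y ∧ R.Adj X u' ∧ ¬R.Adj Y u' ∧ R.Adj Y v' ∧ ¬R.Adj X v' ∧
      R.Adj u' v'
  · obtain ⟨u', v', k1, k2, k3, k4, k5, k6, k7, k8, k9⟩ := hall
    refine caseI2a c (o := o) (u := u') (v := v') (q := u') hp hp1 hp2 ho ⟨k1, k2⟩ ⟨k3, k4⟩ ?_ ?_ ?_ ?_ ⟨k1, k2⟩ ao bo k5 k7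
      (Or.inl rfl) (Or.inr k9)
    · rintro rfl; exact k6 bo
    · rintro rfl; exact k8 ao
    · rintro rfl; exact k6 bo
    · rintro rfl; exact hp1 k5
  push Not at hall
  -- `o ~ u`
  have hou' : R.Adj o u := by
    obtain ⟨w, w1, w2, w3, w4⟩ := c.C2 u hu.1 hu.2 (Or.inl au) p
    have hwo : w = o := by
      by_contra hne
      by_cases hXw : R.Adj X w
      · have hYw : ¬ R.Adj Y w := fun h => hne (huniq w w1 w2 hXw h)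
        have k := hall w v w1 w2 hv.1 hv.2 hXw hYw bv av
        exact c.F1 u v w hu.1 hu.2 hv.1 hv.2 w1 w2 huv (fun h => k h.symm) w3
      · by_cases hYw : R.Adj Y w
        · exact hall u w hu.1 hu.2 w1 w2 au bu hYw hXw w3
        · exact absurd hYw (by simpa using hP w w4 w1 w2 hXw)
    rw [← hwo]; exact w3.symm
  obtain ⟨w, w1, w2, w3, w4, w5, w6⟩ := c.C4 p o u v
  by_cases hXw : R.Adj X w
  · have hYw : ¬ R.Adj Y w := fun h => w4 (huniq w w1 w2 hXw h)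
    have k := hall w v w1 w2 hv.1 hv.2 hXw hYw bv av
    exact caseI2b c (p := p) (o := o) (a1 := u) (a2 := w) (b1 := v) hp hp1 hp2 ho hu ⟨w1, w2⟩ hv (Ne.symm w5) ao bo au hXw bv av huv k hou'
  · have hYw : R.Adj Y w := by
      by_contra h
      exact h (by simpa using hP w w3 w1 w2 hXw)
    have k := hall u w hu.1 hu.2 w1 w2 au bu hYw hXw
    have hov' : R.Adj o v := by
      by_contra h
      exact c.F1 o v u ho.1 ho.2 hv.1 hv.2 hu.1 hu.2 h (fun h => huv h.symm) hou'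
    exact caseI2b c.symm (p := p) (o := o) (a1 := v) (a2 := w) (b1 := u) hp.symm hp2 hp1 ho.symm hv.symm ⟨w2, w1⟩
      hu.symm (Ne.symm w6) bo ao bv hYw au bu (fun h => huv h.symm) (fun h => k h.symm) hov'

/-- disjoint neighbourhoods, a 2-matching -/
lemma caseI3a [Fintype V] {X Y : V} (c : CtxM R X Y) {p a1 a2 b1 b2 : V} (hp : p ≠ X ∧ p ≠ Y)
    (hp1 : ¬R.Adj X p) (hp2 : ¬R.Adj Y p) (ha1 : a1 ≠ X ∧ a1 ≠ Y) (ha2 : a2 ≠ X ∧ a2 ≠ Y)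
    (hb1 : b1 ≠ X ∧ b1 ≠ Y) (hb2 : b2 ≠ X ∧ b2 ≠ Y) (h12 : a1 ≠ a2) (h12' : b1 ≠ b2)
    (e1 : R.Adj X a1) (e2 : R.Adj X a2) (f1 : R.Adj Y b1) (f2 : R.Adj Y b2)
    (g1 : ¬ R.Adj Y a1) (g2 : ¬R.Adj Y a2)
    (m1 : R.Adj a1 b1) (m2 : R.Adj a2 b2) :
    HasC R x5T := by
  have exy := c.xy
  have sy : ∀ x y, R.Adj x y → R.Adj y x := fun x y h => h.symm
  have ir : ∀ x, ¬ R.Adj x x := fun x h => h.ne rfl
  have p1 := c.PO p a1 hp.1 hp.2 ha1.1 ha1.2 hp1 hp2 (Or.inl e1)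
  have p2 := c.PO p a2 hp.1 hp.2 ha2.1 ha2.2 hp1 hp2 (Or.inl e2)
  refine x5_pts p X Y a1 b1 b1 a2 b2 b2 ?_ ?_ ?_ ?_ ?_ ?_ ?_ ?_ ?_
  · refine conM c.F1 p X Y a1 b1 ?_ ?_ m1 ?_ ?_ <;> grind
  all_goals grind

/-- `W = {b1; X, a1}`, `D = {d, a2}`, `E = {q, b2, Y}` -/
lemma caseI3b [Fintype V] {X Y : V} (c : CtxM R X Y) {d a1 b1 q b2 : V}
    (a2 : V) (hd : d ≠ X ∧ d ≠ Y) (ha1 : a1 ≠ X ∧ a1 ≠ Y) (hb1 : b1 ≠ X ∧ b1 ≠ Y) (hq : q ≠ X ∧ q ≠ Y)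
    (hb2 : b2 ≠ X ∧ b2 ≠ Y) (ha2 : a2 ≠ X ∧ a2 ≠ Y)
    (e1 : R.Adj X a1) (f1 : R.Adj Y b1) (g1 : ¬ R.Adj Y a1) (g2 : ¬ R.Adj X b1) (g3 : ¬ R.Adj X b2)
    (f2 : R.Adj Y b2) (h1 : b1 ≠ b2) (n : ¬ R.Adj b1 a1) (e2 : R.Adj X a2) (ha12 : a1 ≠ a2)
    (hqd : q ≠ d) (hqa : q ≠ a2) (hdb : d ≠ b2)
    (k1 : R.Adj d b1) (k2 : R.Adj d a1) (k3 : d = a2 ∨ R.Adj d a2) (k4 : R.Adj q a1) (k5 : R.Adj q b2)
    (kds : ∃ s, s ≠ X ∧ s ≠ Y ∧ s ≠ b1 ∧ s ≠ a1 ∧ R.Adj d s) :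
    HasC R x5T := by
  have exy := c.xy
  have sy : ∀ x y, R.Adj x y → R.Adj y x := fun x y h => h.symm
  have ir : ∀ x, ¬ R.Adj x x := fun x h => h.ne rfl
  obtain ⟨s, s1, s2, s3, s4, s5⟩ := kds
  refine x5_pts b1 X a1 d a2 a2 q b2 Y ?_ ?_ ?_ ?_ ?_ ?_ ?_ ?_ ?_
  · refine conM c.F1 b1 X a1 d s ?_ ?_ s5 ?_ ?_ <;> grind
  all_goals grind

lemma caseI3 [Fintype V] {X Y : V} (c : CtxM R X Y) {p a0 a1 b0 b1 : V} (hp : p ≠ X ∧ p ≠ Y)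
    (hp1 : ¬R.Adj X p) (hp2 : ¬R.Adj Y p) (ha0 : a0 ≠ X ∧ a0 ≠ Y) (ha1 : a1 ≠ X ∧ a1 ≠ Y)
    (hb0 : b0 ≠ X ∧ b0 ≠ Y) (hb1 : b1 ≠ X ∧ b1 ≠ Y) (h12 : a0 ≠ a1) (h12' : b0 ≠ b1)
    (e0 : R.Adj X a0) (e1 : R.Adj X a1) (f0 : R.Adj Y b0) (f1 : R.Adj Y b1)
    (hdis : ∀ w, w ≠ X → w ≠ Y → R.Adj X w → R.Adj Y w → False) :
    HasC R x5T := by
  have sy : ∀ x y, R.Adj x y → R.Adj y x := fun x y h => h.symm
  have ir : ∀ x, ¬ R.Adj x x := fun x h => h.ne rfl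
  by_cases hM : ∃ a1 a2 b1 b2, (a1 ≠ X ∧ a1 ≠ Y) ∧ (a2 ≠ X ∧ a2 ≠ Y) ∧ (b1 ≠ X ∧ b1 ≠ Y) ∧ (b2 ≠ X ∧ b2 ≠ Y) ∧
      a1 ≠ a2 ∧ b1 ≠ b2 ∧ R.Adj X a1 ∧ R.Adj X a2 ∧ R.Adj Y b1 ∧ R.Adj Y b2 ∧ R.Adj a1 b1 ∧ R.Adj a2 b2
  · obtain ⟨a1, a2, b1, b2, k1, k2, k3, k4, k5, k6, k7, k8, k9, k10, k11, k12⟩ := hM
    exact caseI3a c hp hp1 hp2 k1 k2 k3 k4 k5 k6 k7 k8 k9 k10 (fun h => hdis a1 k1.1 k1.2 k7 h)
      (fun h => hdis a2 k2.1 k2.2 k8 h) k11 k12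
  have hM' : ∀ a1 a2 b1 b2, (a1 ≠ X ∧ a1 ≠ Y) → (a2 ≠ X ∧ a2 ≠ Y) → (b1 ≠ X ∧ b1 ≠ Y) → (b2 ≠ X ∧ b2 ≠ Y) →
      a1 ≠ a2 → b1 ≠ b2 → R.Adj X a1 → R.Adj X a2 → R.Adj Y b1 → R.Adj Y b2 → R.Adj a1 b1 → ¬ R.Adj a2 b2 := by
    intro a1 a2 b1 b2 k1 k2 k3 k4 k5 k6 k7 k8 k9 k10 k11 k12
    exact hM ⟨a1, a2, b1, b2, k1, k2, k3, k4, k5, k6, k7, k8, k9, k10, k11, k12⟩
  clear hM
  by_cases hE : ∃ a b, (a ≠ X ∧ a ≠ Y) ∧ (b ≠ X ∧ b ≠ Y) ∧ R.Adj X a ∧ R.Adj Y b ∧ R.Adj a b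
  · obtain ⟨a, b, ha, hb, hXa, hYb, hab⟩ := hE
    obtain ⟨a', ha', hXa', haa⟩ : ∃ a', (a' ≠ X ∧ a' ≠ Y) ∧ R.Adj X a' ∧ a ≠ a' := by
      by_cases h : a = a0
      · exact ⟨a1, ha1, e1, by rw [h]; exact h12⟩
      · exact ⟨a0, ha0, e0, h⟩
    obtain ⟨b', hb', hYb', hbb⟩ : ∃ b', (b' ≠ X ∧ b' ≠ Y) ∧ R.Adj Y b' ∧ b ≠ b' := by
      by_cases h : b = b0
      · exact ⟨b1, hb1, f1, by rw [h]; exact h12'⟩
      · exact ⟨b0, hb0, f0, h⟩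
    have n1 : ¬ R.Adj a' b' := hM' a a' b b' ha ha' hb hb' haa hbb hXa hXa' hYb hYb' hab
    have pa := c.PO p a hp.1 hp.2 ha.1 ha.2 hp1 hp2 (Or.inl hXa)
    have pa' := c.PO p a' hp.1 hp.2 ha'.1 ha'.2 hp1 hp2 (Or.inl hXa')
    have pb := c.PO p b hp.1 hp.2 hb.1 hb.2 hp1 hp2 (Or.inr hYb)
    have pb' := c.PO p b' hp.1 hp.2 hb'.1 hb'.2 hp1 hp2 (Or.inr hYb')
    by_cases h : R.Adj a' b
    · have n2 : ¬ R.Adj a b' := hM' a' a b b' ha' ha hb hb' haa.symm hbb hXa' hXa hYb hYb' h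
      have hbb' : R.Adj b b' := by
        by_contra hc
        exact c.F1 b b' a hb.1 hb.2 hb'.1 hb'.2 ha.1 ha.2 hc (fun h => n2 h.symm) hab.symm
      refine caseI3b c.symm (d := b) (a1 := b') (b1 := a) (q := p) (b2 := a') b hb.symm hb'.symm ha.symm hp.symm
        ha'.symm hb.symm hYb' hXa ?_ ?_ ?_ hXa' haa n2 hYb hbb.symm ?_ ?_ ?_ hab.symm hbb' (Or.inl rfl) pb' pa'
        ⟨p, hp.2, hp.1, ?_, ?_, pb.symm⟩
      · exact fun h => hdis b' hb'.1 hb'.2 h hYb'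
      · exact fun h => hdis a ha.1 ha.2 hXa h
      · exact fun h => hdis a' ha'.1 ha'.2 hXa' h
      · rintro rfl; exact hp2 hYb
      · rintro rfl; exact hp2 hYb
      · rintro rfl; exact hdis _ hb.1 hb.2 hXa' hYb
      · rintro rfl; exact hp1 hXa
      · rintro rfl; exact hp2 hYb'
    · have haa' : R.Adj a a' := by
        by_contra hc
        exact c.F1 a a' b ha.1 ha.2 ha'.1 ha'.2 hb.1 hb.2 hc h hab
      refine caseI3b c (d := a) (a1 := a') (b1 := b) (q := p) (b2 := b') a ha ha' hb hp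
        hb' ha hXa' hYb ?_ ?_ ?_ hYb' hbb (fun k => h k.symm) hXa haa.symm ?_ ?_ ?_ hab haa' (Or.inl rfl) pa' pb'
        ⟨p, hp.1, hp.2, ?_, ?_, pa.symm⟩
      · exact fun h => hdis a' ha'.1 ha'.2 hXa' h
      · exact fun h => hdis b hb.1 hb.2 h hYb
      · exact fun h => hdis b' hb'.1 hb'.2 h hYb'
      · rintro rfl; exact hp1 hXa
      · rintro rfl; exact hp1 hXa
      · rintro rfl; exact hdis _ ha.1 ha.2 hXa hYb'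
      · rintro rfl; exact hp2 hYb
      · rintro rfl; exact hp1 hXa'
  · push Not at hE
    have n0 : ∀ a b, (a ≠ X ∧ a ≠ Y) → (b ≠ X ∧ b ≠ Y) → R.Adj X a → R.Adj Y b → ¬ R.Adj a b := hE
    have nall : ∀ w, w ≠ X → w ≠ Y → (R.Adj X w ∨ R.Adj Y w) → ¬ R.Adj a1 w := by
      intro w w1 w2 w3 h
      by_cases hY : R.Adj Y w
      · exact n0 a1 w ha1 ⟨w1, w2⟩ e1 hY h
      · have hX : R.Adj X w := w3.resolve_right hY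
        exact c.F1 a1 b0 w ha1.1 ha1.2 hb0.1 hb0.2 w1 w2 (n0 a1 b0 ha1 hb0 e1 f0)
          (fun k => n0 w b0 ⟨w1, w2⟩ hb0 hX f0 k.symm) h
    obtain ⟨p1, q1, q2, q3, q4⟩ := c.C2 a1 ha1.1 ha1.2 (Or.inl e1) a1
    obtain ⟨p2, r1, r2, r3, r4⟩ := c.C2 a1 ha1.1 ha1.2 (Or.inl e1) p1
    have P1 : ¬ R.Adj X p1 ∧ ¬ R.Adj Y p1 :=
      ⟨fun h => nall p1 q1 q2 (Or.inl h) q3, fun h => nall p1 q1 q2 (Or.inr h) q3⟩
    have P2 : ¬ R.Adj X p2 ∧ ¬ R.Adj Y p2 :=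
      ⟨fun h => nall p2 r1 r2 (Or.inl h) r3, fun h => nall p2 r1 r2 (Or.inr h) r3⟩
    have PO1 : ∀ o, o ≠ X → o ≠ Y → (R.Adj X o ∨ R.Adj Y o) → R.Adj p1 o := fun o h1 h2 h3 =>
      c.PO p1 o q1 q2 h1 h2 P1.1 P1.2 h3
    have PO2 : ∀ o, o ≠ X → o ≠ Y → (R.Adj X o ∨ R.Adj Y o) → R.Adj p2 o := fun o h1 h2 h3 =>
      c.PO p2 o r1 r2 h1 h2 P2.1 P2.2 h3
    refine caseI3b c (d := p1) (a1 := a1) (b1 := b0) (q := p2) (b2 := b1) a0 ⟨q1, q2⟩ ha1 hb0 ⟨r1, r2⟩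
        hb1 ha0 e1 f0 ?_ ?_ ?_ f1 h12' ?_ e0 h12.symm r4 ?_ ?_ ?_ ?_ (Or.inr (PO1 a0 ha0.1 ha0.2 (Or.inl e0)))
        (PO2 a1 ha1.1 ha1.2 (Or.inl e1)) (PO2 b1 hb1.1 hb1.2 (Or.inr f1))
        ⟨a0, ha0.1, ha0.2, ?_, h12, PO1 a0 ha0.1 ha0.2 (Or.inl e0)⟩
    · exact fun h => hdis a1 ha1.1 ha1.2 e1 h
    · exact fun h => hdis b0 hb0.1 hb0.2 h f0
    · exact fun h => hdis b1 hb1.1 hb1.2 h f1
    · exact fun h => n0 a1 b0 ha1 hb0 e1 f0 h.symm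
    · rintro rfl; exact P2.1 e0
    · rintro rfl; exact P1.2 f1
    · exact PO1 b0 hb0.1 hb0.2 (Or.inr f0)
    · exact PO1 a1 ha1.1 ha1.2 (Or.inl e1)
    · rintro rfl; exact hdis _ ha0.1 ha0.2 e0 f0

/-- `Y` has degree two -/
lemma caseI4 [Fintype V] {X Y : V} (c : CtxM R X Y) {p o : V} (hp : p ≠ X ∧ p ≠ Y)
    (hp1 : ¬R.Adj X p) (hp2 : ¬R.Adj Y p) (ho : o ≠ X ∧ o ≠ Y) (bo : R.Adj Y o)
    (hb : ∀ v, v ≠ X → v ≠ Y → R.Adj Y v → v = o) :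
    HasC R x5T := by
  have exy := c.xy
  have sy : ∀ x y, R.Adj x y → R.Adj y x := fun x y h => h.symm
  have ir : ∀ x, ¬ R.Adj x x := fun x h => h.ne rfl
  have po := c.PO p o hp.1 hp.2 ho.1 ho.2 hp1 hp2 (Or.inr bo)
  have hP : ∀ v, v ≠ X → v ≠ Y → (R.Adj X v ∨ R.Adj Y v) → R.Adj p v := fun v h1 h2 h3 =>
    c.PO p v hp.1 hp.2 h1 h2 hp1 hp2 h3
  by_cases hst : ∃ s t, (s ≠ X ∧ s ≠ Y ∧ s ≠ o ∧ R.Adj X s) ∧ (t ≠ X ∧ t ≠ Y ∧ t ≠ o ∧ R.Adj X t) ∧ R.Adj s t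
  · obtain ⟨s, t, ⟨s1, s2, s3, s4⟩, ⟨t1, t2, t3, t4⟩, hst⟩ := hst
    have ps := hP s s1 s2 (Or.inl s4)
    have pt := hP t t1 t2 (Or.inl t4)
    by_cases hq : ∃ q, q ≠ X ∧ q ≠ Y ∧ q ≠ s ∧ q ≠ t ∧ R.Adj X q
    · obtain ⟨q, q1, q2, q3, q4, q5⟩ := hq
      refine x5_pts Y s t X X X o p p ?_ ?_ ?_ ?_ ?_ ?_ ?_ ?_ ?_
      · refine conM c.F1 Y s t o p ?_ ?_ po.symm ?_ ?_ <;> grind
      all_goals grind
    · push Not at hq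
      have oX : ¬ R.Adj X o := fun h => hq o ho.1 ho.2 s3.symm t3.symm h
      obtain ⟨w, w1, w2, w3, w4, w5, w6⟩ := c.C4 p o s t
      have P2 : ¬ R.Adj X w ∧ ¬ R.Adj Y w := ⟨hq w w1 w2 w5 w6, fun h => w4 (hb w w1 w2 h)⟩
      have wo := c.PO w o w1 w2 ho.1 ho.2 P2.1 P2.2 (Or.inr bo)
      have ws := c.PO w s w1 w2 s1 s2 P2.1 P2.2 (Or.inl s4)
      refine x5_pts Y s p X t t o w w ?_ ?_ ?_ ?_ ?_ ?_ ?_ ?_ ?_
      · refine conM c.F1 Y s p o w ?_ ?_ wo.symm ?_ ?_ <;> grind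
      all_goals grind
  · push Not at hst
    obtain ⟨s, s1, s2, s3, s4, _⟩ := c.C1 o o
    have s3' : R.Adj X s := s3.resolve_right (fun h => s4 (hb s s1 s2 h))
    obtain ⟨s', s1', s2', s3'', s4', s5'⟩ := c.C1 o s
    have s3''' : R.Adj X s' := s3''.resolve_right (fun h => s4' (hb s' s1' s2' h))
    have nss : ¬ R.Adj s s' := hst s s' ⟨s1, s2, s4, s3'⟩ ⟨s1', s2', s4', s3'''⟩
    have ps := hP s s1 s2 (Or.inl s3')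
    have ps' := hP s' s1' s2' (Or.inl s3''')
    by_cases hos : R.Adj o s
    · have hos' : R.Adj o s' := by
        by_contra h
        exact c.F1 o s' s ho.1 ho.2 s1' s2' s1 s2 h (fun h => nss h.symm) hos
      refine x5_pts Y s p X s' s' o o o ?_ ?_ ?_ ?_ ?_ ?_ ?_ ?_ ?_
      · refine conM c.F1 Y s p o s' ?_ ?_ hos' ?_ ?_ <;> grind
      all_goals grind
    · obtain ⟨p2, r1, r2, r3, r4⟩ := c.C2 s s1 s2 (Or.inl s3') p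
      have P2 : ¬ R.Adj X p2 ∧ ¬ R.Adj Y p2 := by
        have hne : p2 ≠ o := by rintro rfl; exact hos r3.symm
        constructor
        · intro h
          exact hst s p2 ⟨s1, s2, s4, s3'⟩ ⟨r1, r2, hne, h⟩ r3
        · intro h; exact hne (hb p2 r1 r2 h)
      have wo := c.PO p2 o r1 r2 ho.1 ho.2 P2.1 P2.2 (Or.inr bo)
      refine x5_pts Y s p X s' s' o p2 p2 ?_ ?_ ?_ ?_ ?_ ?_ ?_ ?_ ?_
      · refine conM c.F1 Y s p o p2 ?_ ?_ wo.symm ?_ ?_ <;> grind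
      all_goals grind

/-- Case I: some vertex is non-adjacent to both -/
lemma caseI [Fintype V] {X Y : V} (c : CtxM R X Y) {p : V} (hp : p ≠ X ∧ p ≠ Y)
    (hp1 : ¬R.Adj X p) (hp2 : ¬R.Adj Y p) : HasC R x5T := by
  obtain ⟨a0, ha0, ha0', e0⟩ := c.hX
  obtain ⟨b0, hb0, hb0', f0⟩ := c.hY
  by_cases hb : ∀ v, v ≠ X → v ≠ Y → R.Adj Y v → v = b0
  · exact caseI4 c hp hp1 hp2 ⟨hb0, hb0'⟩ f0 hb
  by_cases ha : ∀ v, v ≠ X → v ≠ Y → R.Adj X v → v = a0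
  · exact caseI4 c.symm hp.symm hp2 hp1 ⟨ha0', ha0⟩ e0 (fun v h1 h2 => ha v h2 h1)
  push Not at ha hb
  obtain ⟨b1, hb1, hb1', f1, hbb⟩ := hb
  obtain ⟨a1, ha1, ha1', e1, haa⟩ := ha
  by_cases h2 : ∃ o1 o2, (o1 ≠ X ∧ o1 ≠ Y) ∧ (o2 ≠ X ∧ o2 ≠ Y) ∧ o1 ≠ o2 ∧ R.Adj X o1 ∧ R.Adj Y o1 ∧
      R.Adj X o2 ∧ R.Adj Y o2
  · obtain ⟨o1, o2, k1, k2, k3, k4, k5, k6, k7⟩ := h2
    exact caseI1 c hp hp1 hp2 k1 k2 k3 k4 k5 k6 k7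
  by_cases h1 : ∃ o, (o ≠ X ∧ o ≠ Y) ∧ R.Adj X o ∧ R.Adj Y o
  · obtain ⟨o, ho, ao, bo⟩ := h1
    have huniq : ∀ w, w ≠ X → w ≠ Y → R.Adj X w → R.Adj Y w → w = o := by
      intro w w1 w2 w3 w4
      by_contra hne
      exact h2 ⟨w, o, ⟨w1, w2⟩, ho, hne, w3, w4, ao, bo⟩
    obtain ⟨u, hu, au, hne⟩ : ∃ u, (u ≠ X ∧ u ≠ Y) ∧ R.Adj X u ∧ u ≠ o := by
      by_cases h : a0 = o
      · exact ⟨a1, ⟨ha1, ha1'⟩, e1, by rw [← h]; exact haa⟩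
      · exact ⟨a0, ⟨ha0, ha0'⟩, e0, h⟩
    obtain ⟨v, hv, bv, hne'⟩ : ∃ v, (v ≠ X ∧ v ≠ Y) ∧ R.Adj Y v ∧ v ≠ o := by
      by_cases h : b0 = o
      · exact ⟨b1, ⟨hb1, hb1'⟩, f1, by rw [← h]; exact hbb⟩
      · exact ⟨b0, ⟨hb0, hb0'⟩, f0, h⟩
    exact caseI2 c hp hp1 hp2 ho hu hv ao bo au (fun h => hne (huniq u hu.1 hu.2 au h))
      (fun h => hne' (huniq v hv.1 hv.2 h bv)) bv huniq
  · refine caseI3 c hp hp1 hp2 ⟨ha0, ha0'⟩ ⟨ha1, ha1'⟩ ⟨hb0, hb0'⟩ ⟨hb1, hb1'⟩ haa.symm hbb.symm e0 e1 f0 f1 ?_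
    intro w w1 w2 w3 w4
    exact h1 ⟨w, ⟨w1, w2⟩, w3, w4⟩

def TypeK (R : SimpleGraph V) : Prop :=
  ∃ x1 x2 x3, R.Adj x1 x2 ∧ ¬R.Adj x1 x3 ∧ ¬R.Adj x2 x3 ∧ x1 ≠ x3 ∧ x2 ≠ x3 ∧
     (∀ v, v ≠ x1 → v ≠ x2 → v ≠ x3 → R.Adj v x1 ∧ R.Adj v x2 ∧ R.Adj v x3) ∧
     (∀ v w, v ≠ x1 → v ≠ x2 → v ≠ x3 → w ≠ x1 → w ≠ x2 → w ≠ x3 → ¬R.Adj v w)

lemma caseII1 [Fintype V] {X Y : V} (c : CtxM R X Y)
    (hP : ∀ v, v ≠ X → v ≠ Y → R.Adj X v ∨ R.Adj Y v) {y z : V} (hy : y ≠ X ∧ y ≠ Y)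
    (hz : z ≠ X ∧ z ≠ Y) (hyz : R.Adj y z) (ay : ¬ R.Adj X y) (az : ¬ R.Adj X z) :
    TypeK R ∨ HasC R x5T := by
  have exy := c.xy
  have sy : ∀ x y, R.Adj x y → R.Adj y x := fun x y h => h.symm
  have ir : ∀ x, ¬ R.Adj x x := fun x h => h.ne rfl
  have bY := (hP y hy.1 hy.2).resolve_left ay
  have bz := (hP z hz.1 hz.2).resolve_left az
  have F1 := c.F1
  have hyz' : ∀ s, s ≠ X → s ≠ Y → R.Adj y s ∨ R.Adj z s := by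
    intro s h1 h2
    by_contra hc
    push Not at hc
    exact F1 y s z hy.1 hy.2 h1 h2 hz.1 hz.2 hc.1 (fun h => hc.2 h.symm) hyz
  -- if no edges outside then everything is joined to y and z
  have join : (∀ s t, s ≠ X → s ≠ Y → s ≠ y → s ≠ z → t ≠ X → t ≠ Y → t ≠ y → t ≠ z → ¬ R.Adj s t) →
      ∀ q, q ≠ X → q ≠ Y → q ≠ y → q ≠ z → R.Adj q y ∧ R.Adj q z := by
    intro hE q q1 q2 q3 q4
    constructor
    · by_contra hc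
      obtain ⟨w, w1, w2, w3, w4⟩ := c.C2 y hy.1 hy.2 (Or.inr bY) z
      have w5 : w ≠ y := fun h => ir y (by rw [h] at w3; exact w3)
      exact F1 y q w hy.1 hy.2 q1 q2 w1 w2 (fun h => hc h.symm) (hE q w q1 q2 q3 q4 w1 w2 w5 w4) w3
    · by_contra hc
      obtain ⟨w, w1, w2, w3, w4⟩ := c.C2 z hz.1 hz.2 (Or.inr bz) y
      have w5 : w ≠ z := fun h => ir z (by rw [h] at w3; exact w3)
      exact F1 z q w hz.1 hz.2 q1 q2 w1 w2 (fun h => hc h.symm) (hE q w q1 q2 q3 q4 w1 w2 w4 w5) w3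
  by_cases hb : ∀ v, v ≠ X → v ≠ Y → R.Adj Y v → v = y ∨ v = z
  · have haX : ∀ v, v ≠ X → v ≠ Y → v ≠ y → v ≠ z → R.Adj X v := by
      intro v h1 h2 h3 h4
      exact (hP v h1 h2).resolve_right (fun h => by rcases hb v h1 h2 h with h | h <;> contradiction)
    by_cases hst : ∃ s t, (s ≠ X ∧ s ≠ Y ∧ s ≠ y ∧ s ≠ z) ∧ (t ≠ X ∧ t ≠ Y ∧ t ≠ y ∧ t ≠ z) ∧ R.Adj s t
    · obtain ⟨s, t, ⟨s1, s2, s3, s4⟩, ⟨t1, t2, t3, t4⟩, hst⟩ := hst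
      right
      obtain ⟨q, q1, q2, q3, q4, q5, q6⟩ := c.C4 y z s t
      have hq := haX q q1 q2 q3 q4
      have hs := haX s s1 s2 s3 s4
      have ht := haX t t1 t2 t3 t4
      have k1 := hyz' s s1 s2
      have k2 := hyz' t t1 t2
      refine x5_pts Y s t X X X y z z ?_ ?_ ?_ ?_ ?_ ?_ ?_ ?_ ?_
      · refine conM c.F1 Y s t y z ?_ ?_ hyz ?_ ?_ <;> grind
      all_goals grind
    · left
      have hE : ∀ s t, s ≠ X → s ≠ Y → s ≠ y → s ≠ z → t ≠ X → t ≠ Y → t ≠ y → t ≠ z → ¬ R.Adj s t :=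
        fun s t h1 h2 h3 h4 h5 h6 h7 h8 h9 => hst ⟨s, t, ⟨h1, h2, h3, h4⟩, ⟨h5, h6, h7, h8⟩, h9⟩
      have hj := join hE
      refine ⟨y, z, X, hyz, fun h => ay h.symm, fun h => az h.symm, hy.1, hz.1, ?_, ?_⟩
      · intro v h1 h2 h3
        by_cases hvY : v = Y
        · subst hvY; exact ⟨bY, bz, exy.symm⟩
        · exact ⟨(hj v h3 hvY h1 h2).1, (hj v h3 hvY h1 h2).2, (haX v h3 hvY h1 h2).symm⟩
      · intro v w h1 h2 h3 h4 h5 h6 h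
        by_cases hvY : v = Y
        · subst hvY
          rcases hb w h6 h.ne' h with k | k <;> contradiction
        by_cases hwY : w = Y
        · subst hwY
          rcases hb v h3 hvY h.symm with k | k <;> contradiction
        exact hE v w h3 hvY h1 h2 h6 hwY h4 h5 h
  right
  push Not at hb
  obtain ⟨y3, u1, u2, u3, u4, u5⟩ := hb
  obtain ⟨q, q1, q2, q3⟩ := c.hX
  have q4 : q ≠ y := by rintro rfl; exact ay q3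
  have q5 : q ≠ z := by rintro rfl; exact az q3
  by_cases hst : ∃ s t, (s ≠ X ∧ s ≠ Y ∧ s ≠ y ∧ s ≠ z) ∧ (t ≠ X ∧ t ≠ Y ∧ t ≠ y ∧ t ≠ z) ∧ R.Adj s t
  · obtain ⟨s, t, ⟨s1, s2, s3, s4⟩, ⟨t1, t2, t3, t4⟩, hst⟩ := hst
    have hT : Cn R (univ \ {X, y, z}) := by
      refine conM c.F1 X y z s t ?_ ?_ hst ?_ ?_ <;> grind
    by_cases hqy : R.Adj q y
    · by_cases hqz : R.Adj q z
      · refine x5_pts X y z Y Y Y q q q hT ?_ ?_ ?_ ?_ ?_ ?_ ?_ ?_ <;> grind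
      · obtain ⟨w, w1, w2, w3, w4⟩ := c.C2 z hz.1 hz.2 (Or.inr bz) y
        have qw : R.Adj q w := by
          by_contra hc
          exact F1 z q w hz.1 hz.2 q1 q2 w1 w2 (fun h => hqz h.symm) hc w3
        refine x5_pts X y z Y Y Y q w w hT ?_ ?_ ?_ ?_ ?_ ?_ ?_ ?_ <;> grind
    · have hqz : R.Adj q z := by
        rcases hyz' q q1 q2 with h | h
        · exact absurd h.symm hqy
        · exact h.symm
      obtain ⟨w, w1, w2, w3, w4⟩ := c.C2 y hy.1 hy.2 (Or.inr bY) z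
      have qw : R.Adj q w := by
        by_contra hc
        exact F1 y q w hy.1 hy.2 q1 q2 w1 w2 (fun h => hqy h.symm) hc w3
      refine x5_pts X y z Y Y Y q w w hT ?_ ?_ ?_ ?_ ?_ ?_ ?_ ?_ <;> grind
  have hE : ∀ s t, s ≠ X → s ≠ Y → s ≠ y → s ≠ z → t ≠ X → t ≠ Y → t ≠ y → t ≠ z → ¬ R.Adj s t :=
    fun s t h1 h2 h3 h4 h5 h6 h7 h8 h9 => hst ⟨s, t, ⟨h1, h2, h3, h4⟩, ⟨h5, h6, h7, h8⟩, h9⟩
  have hj := join hE
  by_cases hall : ∀ v, v ≠ X → v ≠ Y → v ≠ y → v ≠ z → R.Adj Y v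
  · have hjq := hj q q1 q2 q4 q5
    refine x5_pts X y z Y Y Y q q q ?_ ?_ ?_ ?_ ?_ ?_ ?_ ?_ ?_
    · refine conH X y z Y ⟨exy.ne', hy.2.symm, hz.2.symm⟩ ?_
      intro t h1 h2 h3
      by_cases h : t = Y
      · exact Or.inl h
      · exact Or.inr (Or.inl (hall t h1 h h2 h3).symm)
    all_goals grind
  push Not at hall
  obtain ⟨r, r1, r2, r3, r4, r5⟩ := hall
  have ar : R.Adj X r := (hP r r1 r2).resolve_right r5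
  have hjr := hj r r1 r2 r3 r4
  have hj3 := hj y3 u1 u2 u4 u5
  have hr3 : ¬ R.Adj r y3 := hE r y3 r1 r2 r3 r4 u1 u2 u4 u5
  -- general construction
  have gen : ∀ r' q', (r' ≠ X ∧ r' ≠ Y ∧ r' ≠ y ∧ r' ≠ z) → R.Adj Y r' → (q' ≠ X ∧ q' ≠ Y ∧ q' ≠ r ∧ q' ≠ r') →
      R.Adj X q' → HasC R x5T := by
    intro r' q' hr' hYr' hq' hXq'
    have k1 := hj r' hr'.1 hr'.2.1 hr'.2.2.1 hr'.2.2.2
    have k2 : ¬ R.Adj r r' := hE r r' r1 r2 r3 r4 hr'.1 hr'.2.1 hr'.2.2.1 hr'.2.2.2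
    refine x5_pts r Y r' y y y z z z ?_ ?_ ?_ ?_ ?_ ?_ ?_ ?_ ?_
    · refine conM c.F1 r Y r' y z ?_ ?_ hyz ?_ ?_ <;> grind
    all_goals grind
  by_cases ha : ∀ v, v ≠ X → v ≠ Y → R.Adj X v → v = r
  · have n3 : ¬ R.Adj X y3 := fun h => r5 (by rw [← ha y3 u1 u2 h]; exact u3)
    refine x5_pts X y y3 Y Y Y r z z ?_ ?_ ?_ ?_ ?_ ?_ ?_ ?_ ?_
    · refine conM c.F1 X y y3 z r ?_ ?_ hjr.2.symm ?_ ?_ <;> grind
    all_goals grind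
  push Not at ha
  obtain ⟨q', k1, k2, k3, k4⟩ := ha
  by_cases hq3 : q' = y3
  · obtain ⟨w, w1, w2, w3, w4, w5, w6⟩ := c.C4 y z r y3
    rcases hP w w1 w2 with h | h
    · exact gen y3 w ⟨u1, u2, u4, u5⟩ u3 ⟨w1, w2, w5, w6⟩ h
    · exact gen w q' ⟨w1, w2, w3, w4⟩ h ⟨k1, k2, k4, by rw [hq3]; exact w6.symm⟩ k3
  · exact gen y3 q' ⟨u1, u2, u4, u5⟩ u3 ⟨k1, k2, k4, hq3⟩ k3

lemma caseII2 [Fintype V] {X Y : V} (c : CtxM R X Y)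
    (hP : ∀ v, v ≠ X → v ≠ Y → R.Adj X v ∨ R.Adj Y v) {y z : V} (hy : y ≠ X ∧ y ≠ Y)
    (hz : z ≠ X ∧ z ≠ Y) (hyz : ¬ R.Adj y z) (ay : ¬ R.Adj X y) (az : R.Adj X z)
    (hno : ∀ v, v ≠ X → v ≠ Y → R.Adj y v → R.Adj X v) :
    TypeK R ∨ HasC R x5T := by
  have exy := c.xy
  have sy : ∀ x y, R.Adj x y → R.Adj y x := fun x y h => h.symm
  have ir : ∀ x, ¬ R.Adj x x := fun x h => h.ne rfl
  have bY := (hP y hy.1 hy.2).resolve_left ay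
  have F1 := c.F1
  have hne : y ≠ z := by rintro rfl; exact ay az
  have yz : ∀ v, v ≠ X → v ≠ Y → (R.Adj y v ↔ R.Adj z v) := by
    intro v h1 h2
    constructor
    · intro h
      by_contra hc
      exact F1 y z v hy.1 hy.2 hz.1 hz.2 h1 h2 hyz hc h
    · intro h
      by_contra hc
      exact F1 z y v hz.1 hz.2 hy.1 hy.2 h1 h2 (fun k => hyz k.symm) hc h
  obtain ⟨o1, p1, p2, p3, p4⟩ := c.C2 y hy.1 hy.2 (Or.inr bY) y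
  obtain ⟨o2, r1, r2, r3, r4⟩ := c.C2 y hy.1 hy.2 (Or.inr bY) o1
  have ao1 := hno o1 p1 p2 p3
  have ao2 := hno o2 r1 r2 r3
  have zo1 := (yz o1 p1 p2).1 p3
  have zo2 := (yz o2 r1 r2).1 r3
  have basic : ∀ z', z' ≠ X → z' ≠ Y → z' ≠ y → ¬ R.Adj y z' → R.Adj X z' → Cn R (univ \ {y, X, z'}) →
      HasC R x5T := by
    intro z' h1 h2 h3 h4 h5 hT
    have k1 : R.Adj z' o1 := by
      by_contra hc
      exact F1 y z' o1 hy.1 hy.2 h1 h2 p1 p2 h4 hc p3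
    have k2 : R.Adj z' o2 := by
      by_contra hc
      exact F1 y z' o2 hy.1 hy.2 h1 h2 r1 r2 h4 hc r3
    refine x5_pts y X z' o1 o1 o1 o2 o2 o2 hT ?_ ?_ ?_ ?_ ?_ ?_ ?_ ?_ <;> grind
  have join : (∀ s t, s ≠ X → s ≠ Y → s ≠ y → s ≠ z → t ≠ X → t ≠ Y → t ≠ y → t ≠ z → ¬ R.Adj s t) →
      ∀ q, q ≠ X → q ≠ Y → q ≠ y → q ≠ z → R.Adj q y ∧ R.Adj q z := by
    intro hE q q1 q2 q3 q4
    have h1 : R.Adj y q := by
      by_contra hc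
      refine F1 y q o1 hy.1 hy.2 q1 q2 p1 p2 hc ?_ p3
      refine hE q o1 q1 q2 q3 q4 p1 p2 p4 ?_
      rintro rfl; exact hyz p3
    exact ⟨h1.symm, ((yz q q1 q2).1 h1).symm⟩
  by_cases hb : ∃ y3, y3 ≠ X ∧ y3 ≠ Y ∧ y3 ≠ y ∧ y3 ≠ z ∧ R.Adj Y y3
  · obtain ⟨y3, u1, u2, u3, u4, u5⟩ := hb
    right
    by_cases hst : ∃ s t, (s ≠ X ∧ s ≠ Y ∧ s ≠ y ∧ s ≠ z) ∧ (t ≠ X ∧ t ≠ Y ∧ t ≠ y ∧ t ≠ z) ∧ R.Adj s t
    · obtain ⟨s, t, ⟨s1, s2, s3, s4⟩, ⟨t1, t2, t3, t4⟩, hst⟩ := hst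
      refine basic z hz.1 hz.2 hne.symm hyz az ?_
      refine conM c.F1 y X z s t ?_ ?_ hst ?_ ?_ <;> grind
    have hE : ∀ s t, s ≠ X → s ≠ Y → s ≠ y → s ≠ z → t ≠ X → t ≠ Y → t ≠ y → t ≠ z → ¬ R.Adj s t :=
      fun s t h1 h2 h3 h4 h5 h6 h7 h8 h9 => hst ⟨s, t, ⟨h1, h2, h3, h4⟩, ⟨h5, h6, h7, h8⟩, h9⟩
    have hj := join hE
    by_cases hall : ∀ v, v ≠ X → v ≠ Y → v ≠ y → v ≠ z → R.Adj Y v
    · refine basic z hz.1 hz.2 hne.symm hyz az ?_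
      refine conH y X z Y ⟨hy.2.symm, exy.ne', hz.2.symm⟩ ?_
      intro t h1 h2 h3
      by_cases h : t = Y
      · exact Or.inl h
      · exact Or.inr (Or.inl (hall t h2 h h1 h3).symm)
    push Not at hall
    obtain ⟨r, s1, s2, s3, s4, s5⟩ := hall
    obtain ⟨q, q1, q2, q3, q4, q5, q6⟩ := c.C4 y z r y3
    have hjr := hj r s1 s2 s3 s4
    have hjq := hj q q1 q2 q3 q4
    have hj3 := hj y3 u1 u2 u3 u4
    have ar := hno r s1 s2 hjr.1.symm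
    have aq := hno q q1 q2 hjq.1.symm
    have a3 := hno y3 u1 u2 hj3.1.symm
    have hr3 : ¬ R.Adj r y3 := hE r y3 s1 s2 s3 s4 u1 u2 u3 u4
    refine x5_pts r Y y3 X X X y y y ?_ ?_ ?_ ?_ ?_ ?_ ?_ ?_ ?_
    · refine conM c.F1 r Y y3 y q ?_ ?_ hjq.1.symm ?_ ?_ <;> grind
    all_goals grind
  push Not at hb
  by_cases bz : R.Adj Y z
  · -- neighbours of Y : X, y, z
    by_cases hz' : ∃ z', z' ≠ X ∧ z' ≠ Y ∧ z' ≠ y ∧ z' ≠ z ∧ ¬ R.Adj y z'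
    · obtain ⟨z', k1, k2, k3, k4, k5⟩ := hz'
      right
      have ak : R.Adj X z' := (hP z' k1 k2).resolve_right (hb z' k1 k2 k3 k4)
      refine basic z' k1 k2 k3 k5 ak ?_
      refine conM c.F1 y X z' o1 z ?_ ?_ zo1.symm ?_ ?_ <;> grind
    · push Not at hz'
      have jy : ∀ v, v ≠ X → v ≠ Y → v ≠ y → v ≠ z → R.Adj v y ∧ R.Adj v z ∧ R.Adj X v := by
        intro v h1 h2 h3 h4
        have := hz' v h1 h2 h3 h4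
        exact ⟨this.symm, ((yz v h1 h2).1 this).symm, hno v h1 h2 this⟩
      by_cases hst : ∃ s t, (s ≠ X ∧ s ≠ Y ∧ s ≠ y ∧ s ≠ z) ∧ (t ≠ X ∧ t ≠ Y ∧ t ≠ y ∧ t ≠ z) ∧ R.Adj s t
      · obtain ⟨s, t, ⟨s1, s2, s3, s4⟩, ⟨t1, t2, t3, t4⟩, hst⟩ := hst
        right
        obtain ⟨q, q1, q2, q3, q4, q5, q6⟩ := c.C4 y z s t
        have js := jy s s1 s2 s3 s4
        have jt := jy t t1 t2 t3 t4
        have jq := jy q q1 q2 q3 q4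
        have ns := hb s s1 s2 s3 s4
        have nt := hb t t1 t2 t3 t4
        refine x5_pts Y s t X X X y y y ?_ ?_ ?_ ?_ ?_ ?_ ?_ ?_ ?_
        · refine conM c.F1 Y s t y q ?_ ?_ jq.1.symm ?_ ?_ <;> grind
        all_goals grind
      · left
        refine ⟨X, z, y, az, ay, fun h => hyz h.symm, hy.1.symm, hne.symm, ?_, ?_⟩
        · intro v h1 h2 h3
          by_cases hvY : v = Y
          · subst hvY; exact ⟨exy.symm, bz, bY⟩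
          · have := jy v h1 hvY h3 h2
            exact ⟨this.2.2.symm, this.2.1, this.1⟩
        · intro v w h1 h2 h3 h4 h5 h6 h
          by_cases hvY : v = Y
          · subst hvY
            exact hb w h4 h.ne' h6 h5 h
          by_cases hwY : w = Y
          · subst hwY
            exact hb v h1 hvY h3 h2 h.symm
          exact hst ⟨v, w, ⟨h1, hvY, h3, h2⟩, ⟨h4, hwY, h6, h5⟩, h⟩
  · right
    have ns := hb o1 p1 p2 p4 (by rintro rfl; exact hyz p3)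
    refine x5_pts Y o1 z X X X y o2 o2 ?_ ?_ ?_ ?_ ?_ ?_ ?_ ?_ ?_
    · refine conM c.F1 Y o1 z y o2 ?_ ?_ r3 ?_ ?_ <;> grind
    all_goals grind

/-- the multipartite case -/
theorem stepM_multi [Fintype V] {X Y : V} (c : CtxM R X Y) :
    (∀ x y z, ¬R.Adj x y → ¬R.Adj y z → ¬R.Adj x z) ∨ TypeK R ∨ HasC R x5T := by
  by_cases hP : ∃ p, (p ≠ X ∧ p ≠ Y) ∧ ¬ R.Adj X p ∧ ¬R.Adj Y p
  · obtain ⟨p, hp, h1, h2⟩ := hP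
    exact Or.inr (Or.inr (caseI c hp h1 h2))
  have hP' : ∀ v, v ≠ X → v ≠ Y → R.Adj X v ∨ R.Adj Y v := by
    intro v h1 h2
    by_contra hc
    push Not at hc
    exact hP ⟨v, ⟨h1, h2⟩, hc⟩
  have bad : ∀ {X Y : V}, CtxM R X Y → (∀ v, v ≠ X → v ≠ Y → R.Adj X v ∨ R.Adj Y v) →
      (∀ y z, y ≠ X → y ≠ Y → z ≠ X → z ≠ Y → ¬ R.Adj X y → ¬ R.Adj X z → ¬ R.Adj y z) ∧
      (∀ y z, y ≠ X → y ≠ Y → z ≠ X → z ≠ Y → ¬ R.Adj y z → ¬ R.Adj X y → ¬ R.Adj X z) ∨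
      (TypeK R ∨ HasC R x5T) := by
    intro X Y c hP
    by_cases h1 : ∀ y z, y ≠ X → y ≠ Y → z ≠ X → z ≠ Y → ¬ R.Adj X y → ¬ R.Adj X z → ¬ R.Adj y z
    · by_cases h2 : ∀ y z, y ≠ X → y ≠ Y → z ≠ X → z ≠ Y → ¬ R.Adj y z → ¬ R.Adj X y → ¬ R.Adj X z
      · exact Or.inl ⟨h1, h2⟩
      · right
        push Not at h2
        obtain ⟨y, z, k1, k2, k3, k4, k5, k6, k7⟩ := h2
        refine caseII2 c hP ⟨k1, k2⟩ ⟨k3, k4⟩ k5 k6 k7 ?_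
        intro v v1 v2 v3
        by_contra hc
        exact h1 y v k1 k2 v1 v2 k6 hc v3
    · right
      push Not at h1
      obtain ⟨y, z, k1, k2, k3, k4, k5, k6, k7⟩ := h1
      exact caseII1 c hP ⟨k1, k2⟩ ⟨k3, k4⟩ k7 k5 k6
  rcases bad c hP' with ⟨x1, x2⟩ | h
  swap
  · exact Or.inr h
  rcases bad c.symm (fun v h1 h2 => (hP' v h2 h1).symm) with ⟨y1, y2⟩ | h
  swap
  · exact Or.inr h
  left
  intro x y z hxy hyz hxz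
  have exy := c.xy
  have hY1 : ∀ v, v ≠ X → v ≠ Y → R.Adj X v ∨ R.Adj Y v := hP'
  by_cases a1 : x = X
  · subst a1
    by_cases b1 : y = x
    · subst b1; exact hyz hxz
    by_cases b2 : y = Y
    · subst b2; exact hxy exy
    by_cases c1 : z = x
    · subst c1; exact hxz.ne rfl
    by_cases c2 : z = Y
    · subst c2
      rcases hP' y b1 b2 with h | h
      · exact hxy h
      · exact hyz h.symm
    exact x2 y z b1 b2 c1 c2 hyz hxy hxz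
  by_cases a2 : x = Y
  · subst a2
    by_cases b1 : y = x
    · subst b1; exact hyz hxz
    by_cases b2 : y = X
    · subst b2; exact hxy exy.symm
    by_cases c1 : z = x
    · subst c1; exact hxz.ne rfl
    by_cases c2 : z = X
    · subst c2
      rcases hP' y b2 b1 with h | h
      · exact hyz h.symm
      · exact hxy h
    exact y2 y z b1 b2 c1 c2 hyz hxy hxz
  by_cases c1 : z = X
  · subst c1
    by_cases b1 : y = z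
    · subst b1; exact hxy hxz
    by_cases b2 : y = Y
    · subst b2; exact hyz exy.symm
    exact x2 y x b1 b2 a1 a2 (fun h => hxy h.symm) (fun h => hyz h.symm) hxz.symm
  by_cases c2 : z = Y
  · subst c2
    by_cases b1 : y = z
    · subst b1; exact hxy hxz
    by_cases b2 : y = X
    · subst b2; exact hyz exy
    exact y2 y x b1 b2 a2 a1 (fun h => hxy h.symm) (fun h => hyz h.symm) hxz.symm
  by_cases b1 : y = X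
  · subst b1
    exact x1 x z a1 a2 c1 c2 (fun h => hxy h.symm) hyz hxz
  by_cases b2 : y = Y
  · subst b2
    exact y1 x z a2 a1 c2 c1 (fun h => hxy h.symm) hyz hxz
  exact c.F1 x y z a1 a2 b1 b2 c1 c2 hxy hyz hxz

/-! ### the second type -/

lemma k1a [Fintype V] {X Y : V} (exy : R.Adj X Y) (u v w : V) (hu : u ≠ X ∧ u ≠ Y) (hv : v ≠ X ∧ v ≠ Y)
    (hw : w ≠ X ∧ w ≠ Y) (huv : u ≠ v) (huw : u ≠ w) (hvw : v ≠ w)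
    (J : ∀ t, t ≠ X → t ≠ Y → t ≠ u → t ≠ v → t ≠ w →
      R.Adj t u ∧ R.Adj t v ∧ R.Adj t w ∧ ¬ R.Adj X t ∧ ¬ R.Adj Y t)
    (N : ∀ q, ∃ p, p ≠ X ∧ p ≠ Y ∧ p ≠ u ∧ p ≠ v ∧ p ≠ w ∧ p ≠ q)
    (au : R.Adj X u) (bu : R.Adj Y u) (av : R.Adj X v) (bv : R.Adj Y v) : HasC R x5T := by
  have sy : ∀ x y, R.Adj x y → R.Adj y x := fun x y h => h.symm
  have ir : ∀ x, ¬ R.Adj x x := fun x h => h.ne rfl
  obtain ⟨p, p1, p2, p3, p4, p5, -⟩ := N u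
  obtain ⟨p', q1, q2, q3, q4, q5, q6⟩ := N p
  have Jp := J p p1 p2 p3 p4 p5
  have Jp' := J p' q1 q2 q3 q4 q5
  refine x5_pts p X Y u u u v v v ?_ ?_ ?_ ?_ ?_ ?_ ?_ ?_ ?_
  · refine conH p X Y p' ⟨q6, q1, q2⟩ ?_
    intro t h1 h2 h3
    by_cases k1 : t = u
    · subst k1; exact Or.inr (Or.inl Jp'.1.symm)
    by_cases k2 : t = v
    · subst k2; exact Or.inr (Or.inl Jp'.2.1.symm)
    by_cases k3 : t = w
    · subst k3; exact Or.inr (Or.inl Jp'.2.2.1.symm)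
    exact Or.inr (Or.inr ⟨u, p3.symm, hu.1, hu.2, (J t h2 h3 k1 k2 k3).1, Jp'.1.symm⟩)
  all_goals grind

lemma k1b [Fintype V] {X Y : V} (exy : R.Adj X Y) (o u v : V) (ho : o ≠ X ∧ o ≠ Y) (hu : u ≠ X ∧ u ≠ Y)
    (hv : v ≠ X ∧ v ≠ Y) (hou : o ≠ u) (hov : o ≠ v) (huv : u ≠ v)
    (J : ∀ t, t ≠ X → t ≠ Y → t ≠ o → t ≠ u → t ≠ v →
      R.Adj t o ∧ R.Adj t u ∧ R.Adj t v ∧ ¬ R.Adj X t ∧ ¬ R.Adj Y t)
    (N : ∀ q, ∃ p, p ≠ X ∧ p ≠ Y ∧ p ≠ o ∧ p ≠ u ∧ p ≠ v ∧ p ≠ q)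
    (ao : R.Adj X o) (bo : R.Adj Y o) (au : R.Adj X u) (bv : R.Adj Y v) : HasC R x5T := by
  have sy : ∀ x y, R.Adj x y → R.Adj y x := fun x y h => h.symm
  have ir : ∀ x, ¬ R.Adj x x := fun x h => h.ne rfl
  obtain ⟨p, p1, p2, p3, p4, p5, -⟩ := N u
  obtain ⟨p', q1, q2, q3, q4, q5, q6⟩ := N p
  have Jp := J p p1 p2 p3 p4 p5
  have Jp' := J p' q1 q2 q3 q4 q5
  refine x5_pts p X Y o o o u p' v ?_ ?_ ?_ ?_ ?_ ?_ ?_ ?_ ?_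
  · refine conH p X Y p' ⟨q6, q1, q2⟩ ?_
    intro t h1 h2 h3
    by_cases k1 : t = o
    · subst k1; exact Or.inr (Or.inl Jp'.1.symm)
    by_cases k2 : t = u
    · subst k2; exact Or.inr (Or.inl Jp'.2.1.symm)
    by_cases k3 : t = v
    · subst k3; exact Or.inr (Or.inl Jp'.2.2.1.symm)
    exact Or.inr (Or.inr ⟨o, p3.symm, ho.1, ho.2, (J t h2 h3 k1 k2 k3).1, Jp'.1.symm⟩)
  all_goals grind

lemma k1c [Fintype V] {X Y : V} (exy : R.Adj X Y) (o s w : V) (ho : o ≠ X ∧ o ≠ Y) (hs : s ≠ X ∧ s ≠ Y)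
    (hw : w ≠ X ∧ w ≠ Y) (hos : o ≠ s) (how : o ≠ w) (hsw : s ≠ w)
    (J : ∀ t, t ≠ X → t ≠ Y → t ≠ o → t ≠ s → t ≠ w →
      R.Adj t o ∧ R.Adj t s ∧ R.Adj t w ∧ ¬ R.Adj X t ∧ ¬ R.Adj Y t)
    (N : ∀ q, ∃ p, p ≠ X ∧ p ≠ Y ∧ p ≠ o ∧ p ≠ s ∧ p ≠ w ∧ p ≠ q)
    (bo : R.Adj Y o) (bs : ¬ R.Adj Y s) (bw : ¬ R.Adj Y w) (as : R.Adj X s) (aw : R.Adj X w) :
    HasC R x5T := by
  have sy : ∀ x y, R.Adj x y → R.Adj y x := fun x y h => h.symm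
  have ir : ∀ x, ¬ R.Adj x x := fun x h => h.ne rfl
  obtain ⟨p, p1, p2, p3, p4, p5, -⟩ := N o
  obtain ⟨p', q1, q2, q3, q4, q5, q6⟩ := N p
  have Jp := J p p1 p2 p3 p4 p5
  have Jp' := J p' q1 q2 q3 q4 q5
  refine x5_pts Y s p X w w o p' p' ?_ ?_ ?_ ?_ ?_ ?_ ?_ ?_ ?_
  · refine conH Y s p p' ⟨q2, q4, q6⟩ ?_
    intro t h1 h2 h3
    by_cases k0 : t = X
    · subst k0; exact Or.inr (Or.inr ⟨w, hw.2, hsw.symm, p5.symm, aw, Jp'.2.2.1.symm⟩)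
    by_cases k1 : t = o
    · subst k1; exact Or.inr (Or.inl Jp'.1.symm)
    by_cases k3 : t = w
    · subst k3; exact Or.inr (Or.inl Jp'.2.2.1.symm)
    exact Or.inr (Or.inr ⟨o, ho.2, hos, p3.symm, (J t k0 h1 k1 h2 k3).1, Jp'.1.symm⟩)
  all_goals grind

lemma stepK1 [Fintype V] {X Y : V} (exy : R.Adj X Y) (u v w : V) (hu : u ≠ X ∧ u ≠ Y) (hv : v ≠ X ∧ v ≠ Y)
    (hw : w ≠ X ∧ w ≠ Y) (huv : u ≠ v) (huw : u ≠ w) (hvw : v ≠ w)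
    (J : ∀ t, t ≠ X → t ≠ Y → t ≠ u → t ≠ v → t ≠ w →
      R.Adj t u ∧ R.Adj t v ∧ R.Adj t w ∧ ¬ R.Adj X t ∧ ¬ R.Adj Y t)
    (N : ∀ q, ∃ p, p ≠ X ∧ p ≠ Y ∧ p ≠ u ∧ p ≠ v ∧ p ≠ w ∧ p ≠ q)
    (du : R.Adj X u ∨ R.Adj Y u) (dv : R.Adj X v ∨ R.Adj Y v) (dw : R.Adj X w ∨ R.Adj Y w)
    (hX : ∃ z, z ≠ X ∧ z ≠ Y ∧ R.Adj X z) (hY : ∃ z, z ≠ X ∧ z ≠ Y ∧ R.Adj Y z) : HasC R x5T := by
  have Juwv : ∀ t, t ≠ X → t ≠ Y → t ≠ u → t ≠ w → t ≠ v →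
      R.Adj t u ∧ R.Adj t w ∧ R.Adj t v ∧ ¬ R.Adj X t ∧ ¬ R.Adj Y t := by
    intro t h1 h2 h3 h4 h5
    obtain ⟨a, b, c, d⟩ := J t h1 h2 h3 h5 h4
    exact ⟨a, c, b, d⟩
  have Jvwu : ∀ t, t ≠ X → t ≠ Y → t ≠ v → t ≠ w → t ≠ u →
      R.Adj t v ∧ R.Adj t w ∧ R.Adj t u ∧ ¬ R.Adj X t ∧ ¬ R.Adj Y t := by
    intro t h1 h2 h3 h4 h5
    obtain ⟨a, b, c, d⟩ := J t h1 h2 h5 h3 h4
    exact ⟨b, c, a, d⟩
  have Jvuw : ∀ t, t ≠ X → t ≠ Y → t ≠ v → t ≠ u → t ≠ w →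
      R.Adj t v ∧ R.Adj t u ∧ R.Adj t w ∧ ¬ R.Adj X t ∧ ¬ R.Adj Y t := by
    intro t h1 h2 h3 h4 h5
    obtain ⟨a, b, c, d⟩ := J t h1 h2 h4 h3 h5
    exact ⟨b, a, c, d⟩
  have Jwuv : ∀ t, t ≠ X → t ≠ Y → t ≠ w → t ≠ u → t ≠ v →
      R.Adj t w ∧ R.Adj t u ∧ R.Adj t v ∧ ¬ R.Adj X t ∧ ¬ R.Adj Y t := by
    intro t h1 h2 h3 h4 h5
    obtain ⟨a, b, c, d⟩ := J t h1 h2 h4 h5 h3
    exact ⟨c, a, b, d⟩
  have Jwvu : ∀ t, t ≠ X → t ≠ Y → t ≠ w → t ≠ v → t ≠ u →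
      R.Adj t w ∧ R.Adj t v ∧ R.Adj t u ∧ ¬ R.Adj X t ∧ ¬ R.Adj Y t := by
    intro t h1 h2 h3 h4 h5
    obtain ⟨a, b, c, d⟩ := J t h1 h2 h5 h4 h3
    exact ⟨c, b, a, d⟩
  have Nuwv : ∀ q, ∃ p, p ≠ X ∧ p ≠ Y ∧ p ≠ u ∧ p ≠ w ∧ p ≠ v ∧ p ≠ q := by
    intro q; obtain ⟨p, h1, h2, h3, h4, h5, h6⟩ := N q; exact ⟨p, h1, h2, h3, h5, h4, h6⟩
  have Nvwu : ∀ q, ∃ p, p ≠ X ∧ p ≠ Y ∧ p ≠ v ∧ p ≠ w ∧ p ≠ u ∧ p ≠ q := by
    intro q; obtain ⟨p, h1, h2, h3, h4, h5, h6⟩ := N q; exact ⟨p, h1, h2, h4, h5, h3, h6⟩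
  have Nvuw : ∀ q, ∃ p, p ≠ X ∧ p ≠ Y ∧ p ≠ v ∧ p ≠ u ∧ p ≠ w ∧ p ≠ q := by
    intro q; obtain ⟨p, h1, h2, h3, h4, h5, h6⟩ := N q; exact ⟨p, h1, h2, h4, h3, h5, h6⟩
  have Nwuv : ∀ q, ∃ p, p ≠ X ∧ p ≠ Y ∧ p ≠ w ∧ p ≠ u ∧ p ≠ v ∧ p ≠ q := by
    intro q; obtain ⟨p, h1, h2, h3, h4, h5, h6⟩ := N q; exact ⟨p, h1, h2, h5, h3, h4, h6⟩
  have Nwvu : ∀ q, ∃ p, p ≠ X ∧ p ≠ Y ∧ p ≠ w ∧ p ≠ v ∧ p ≠ u ∧ p ≠ q := by
    intro q; obtain ⟨p, h1, h2, h3, h4, h5, h6⟩ := N q; exact ⟨p, h1, h2, h5, h4, h3, h6⟩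
  have sw : ∀ {a b c : V}, (∀ t, t ≠ X → t ≠ Y → t ≠ a → t ≠ b → t ≠ c →
      R.Adj t a ∧ R.Adj t b ∧ R.Adj t c ∧ ¬ R.Adj X t ∧ ¬ R.Adj Y t) →
      (∀ t, t ≠ Y → t ≠ X → t ≠ a → t ≠ b → t ≠ c →
      R.Adj t a ∧ R.Adj t b ∧ R.Adj t c ∧ ¬ R.Adj Y t ∧ ¬ R.Adj X t) := by
    intro a b c H t h1 h2 h3 h4 h5
    obtain ⟨k1, k2, k3, k4, k5⟩ := H t h2 h1 h3 h4 h5
    exact ⟨k1, k2, k3, k5, k4⟩
  have swN : ∀ {a b c : V}, (∀ q, ∃ p, p ≠ X ∧ p ≠ Y ∧ p ≠ a ∧ p ≠ b ∧ p ≠ c ∧ p ≠ q) →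
      (∀ q, ∃ p, p ≠ Y ∧ p ≠ X ∧ p ≠ a ∧ p ≠ b ∧ p ≠ c ∧ p ≠ q) := by
    intro a b c H q
    obtain ⟨p, h1, h2, h3⟩ := H q
    exact ⟨p, h2, h1, h3⟩
  have hX' : R.Adj X u ∨ R.Adj X v ∨ R.Adj X w := by
    obtain ⟨z, z1, z2, z3⟩ := hX
    by_cases k1 : z = u
    · subst k1; exact Or.inl z3
    by_cases k2 : z = v
    · subst k2; exact Or.inr (Or.inl z3)
    by_cases k3 : z = w
    · subst k3; exact Or.inr (Or.inr z3)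
    exact absurd z3 (J z z1 z2 k1 k2 k3).2.2.2.1
  have hY' : R.Adj Y u ∨ R.Adj Y v ∨ R.Adj Y w := by
    obtain ⟨z, z1, z2, z3⟩ := hY
    by_cases k1 : z = u
    · subst k1; exact Or.inl z3
    by_cases k2 : z = v
    · subst k2; exact Or.inr (Or.inl z3)
    by_cases k3 : z = w
    · subst k3; exact Or.inr (Or.inr z3)
    exact absurd z3 (J z z1 z2 k1 k2 k3).2.2.2.2
  by_cases a1 : R.Adj X u <;> by_cases b1 : R.Adj Y u <;> by_cases a2 : R.Adj X v <;>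
    by_cases b2 : R.Adj Y v <;> by_cases a3 : R.Adj X w <;> by_cases b3 : R.Adj Y w <;>
    first
    | exact k1a exy u v w hu hv hw huv huw hvw J N a1 b1 a2 b2
    | exact k1a exy u w v hu hw hv huw huv hvw.symm Juwv Nuwv a1 b1 a3 b3
    | exact k1a exy v w u hv hw hu hvw huv.symm huw.symm Jvwu Nvwu a2 b2 a3 b3
    | exact k1b exy u v w hu hv hw huv huw hvw J N a1 b1 a2 b3
    | exact k1b exy u w v hu hw hv huw huv hvw.symm Juwv Nuwv a1 b1 a3 b2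
    | exact k1b exy v u w hv hu hw huv.symm hvw huw Jvuw Nvuw a2 b2 a1 b3
    | exact k1b exy v w u hv hw hu hvw huv.symm huw.symm Jvwu Nvwu a2 b2 a3 b1
    | exact k1b exy w u v hw hu hv huw.symm hvw.symm huv Jwuv Nwuv a3 b3 a1 b2
    | exact k1b exy w v u hw hv hu hvw.symm huw.symm huv.symm Jwvu Nwvu a3 b3 a2 b1
    | exact k1c exy u v w hu hv hw huv huw hvw J N b1 b2 b3 a2 a3
    | exact k1c exy v u w hv hu hw huv.symm hvw huw Jvuw Nvuw b2 b1 b3 a1 a3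
    | exact k1c exy w u v hw hu hv huw.symm hvw.symm huv Jwuv Nwuv b3 b1 b2 a1 a2
    | exact k1c exy.symm u v w hu.symm hv.symm hw.symm huv huw hvw (sw J) (swN N) a1 a2 a3 b2 b3
    | exact k1c exy.symm v u w hv.symm hu.symm hw.symm huv.symm hvw huw (sw Jvuw) (swN Nvuw) a2 a1 a3 b1 b3
    | exact k1c exy.symm w u v hw.symm hu.symm hv.symm huw.symm hvw.symm huv (sw Jwuv) (swN Nwuv) a3 a1 a2 b1 b2
    | (exfalso; tauto)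

/-- context: the merged vertex is `x3` -/
structure CtxK2 [Fintype V] (R : SimpleGraph V) (X Y x1 x2 : V) : Prop where
  xy : R.Adj X Y
  h1 : x1 ≠ X ∧ x1 ≠ Y
  h2 : x2 ≠ X ∧ x2 ≠ Y
  h12 : R.Adj x1 x2
  n1 : ¬ R.Adj X x1 ∧ ¬ R.Adj Y x1
  n2 : ¬ R.Adj X x2 ∧ ¬ R.Adj Y x2
  J : ∀ t, t ≠ X → t ≠ Y → t ≠ x1 → t ≠ x2 → R.Adj t x1 ∧ R.Adj t x2 ∧ (R.Adj X t ∨ R.Adj Y t)
  I : ∀ t s, t ≠ X → t ≠ Y → t ≠ x1 → t ≠ x2 → s ≠ X → s ≠ Y → s ≠ x1 → s ≠ x2 → ¬ R.Adj t s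
  N : ∀ q r, ∃ p, p ≠ X ∧ p ≠ Y ∧ p ≠ x1 ∧ p ≠ x2 ∧ p ≠ q ∧ p ≠ r
  hX : ∃ z, z ≠ X ∧ z ≠ Y ∧ R.Adj X z
  hY : ∃ z, z ≠ X ∧ z ≠ Y ∧ R.Adj Y z

lemma CtxK2.symm [Fintype V] {X Y x1 x2 : V} (c : CtxK2 R X Y x1 x2) : CtxK2 R Y X x1 x2 := by
  refine ⟨c.xy.symm, c.h1.symm, c.h2.symm, c.h12, c.n1.symm, c.n2.symm, ?_, ?_, ?_, ?_, ?_⟩
  · intro t h1 h2 h3 h4
    obtain ⟨a, b, d⟩ := c.J t h2 h1 h3 h4
    exact ⟨a, b, d.symm⟩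
  · intro t s h1 h2 h3 h4 h5 h6 h7 h8; exact c.I t s h2 h1 h3 h4 h6 h5 h7 h8
  · intro q r
    obtain ⟨p, h1, h2, h3⟩ := c.N q r
    exact ⟨p, h2, h1, h3⟩
  · obtain ⟨z, h1, h2, h3⟩ := c.hY; exact ⟨z, h2, h1, h3⟩
  · obtain ⟨z, h1, h2, h3⟩ := c.hX; exact ⟨z, h2, h1, h3⟩

lemma CtxK2.con [Fintype V] {X Y x1 x2 : V} (c : CtxK2 R X Y x1 x2) (w0 w1 w2 : V)
    (hh : x2 ≠ w0 ∧ x2 ≠ w1 ∧ x2 ≠ w2)
    (hX : (X = w0 ∨ X = w1 ∨ X = w2) ∨ ∃ q, q ≠ X ∧ q ≠ Y ∧ q ≠ w0 ∧ q ≠ w1 ∧ q ≠ w2 ∧ R.Adj X q)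
    (hY : (Y = w0 ∨ Y = w1 ∨ Y = w2) ∨ ∃ q, q ≠ X ∧ q ≠ Y ∧ q ≠ w0 ∧ q ≠ w1 ∧ q ≠ w2 ∧ R.Adj Y q) :
    Cn R (univ \ {w0, w1, w2}) := by
  have base : ∀ t, t ≠ X → t ≠ Y → t = x2 ∨ R.Adj t x2 := by
    intro t k1 k2
    by_cases k3 : t = x1
    · subst k3; exact Or.inr c.h12
    by_cases k4 : t = x2
    · exact Or.inl k4
    exact Or.inr (c.J t k1 k2 k3 k4).2.1
  refine conH w0 w1 w2 x2 hh ?_
  intro t k1 k2 k3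
  by_cases tX : t = X
  · subst tX
    rcases hX with h | ⟨q, q1, q2, q3, q4, q5, q6⟩
    · tauto
    rcases base q q1 q2 with h | h
    · subst h; exact absurd q6 c.n2.1
    · exact Or.inr (Or.inr ⟨q, q3, q4, q5, q6, h⟩)
  by_cases tY : t = Y
  · subst tY
    rcases hY with h | ⟨q, q1, q2, q3, q4, q5, q6⟩
    · tauto
    rcases base q q1 q2 with h | h
    · subst h; exact absurd q6 c.n2.2
    · exact Or.inr (Or.inr ⟨q, q3, q4, q5, q6, h⟩)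
  rcases base t tX tY with h | h
  · exact Or.inl h
  · exact Or.inr (Or.inl h)

lemma k2d [Fintype V] {X Y x1 x2 : V} (c : CtxK2 R X Y x1 x2) {o : V} (ho : o ≠ X ∧ o ≠ Y)
    (bo : R.Adj Y o) (hb : ∀ v, v ≠ X → v ≠ Y → R.Adj Y v → v = o) : HasC R x5T := by
  have exy := c.xy
  have sy : ∀ x y, R.Adj x y → R.Adj y x := fun x y h => h.symm
  have ir : ∀ x, ¬ R.Adj x x := fun x h => h.ne rfl
  have h1 := c.h1
  have h2 := c.h2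
  have h12 := c.h12
  have n1 := c.n1
  have n2 := c.n2
  have o1 : o ≠ x1 := by rintro rfl; exact n1.2 bo
  have o2 : o ≠ x2 := by rintro rfl; exact n2.2 bo
  have Jo := c.J o ho.1 ho.2 o1 o2
  obtain ⟨p, p1, p2, p3, p4, p5, -⟩ := c.N o o
  obtain ⟨q, q1, q2, q3, q4, q5, q6⟩ := c.N o p
  have Jp := c.J p p1 p2 p3 p4
  have Jq := c.J q q1 q2 q3 q4
  have bp : ¬ R.Adj Y p := fun h => p5 (hb p p1 p2 h)
  have bq : ¬ R.Adj Y q := fun h => q5 (hb q q1 q2 h)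
  have ap := Jp.2.2.resolve_right bp
  have aq := Jq.2.2.resolve_right bq
  refine x5_pts Y x1 p X q q o x2 x2 ?_ ?_ ?_ ?_ ?_ ?_ ?_ ?_ ?_
  · refine c.con Y x1 p ?_ ?_ ?_
    · grind
    · right; exact ⟨q, q1, q2, q2, q3, q6, aq⟩
    · left; left; rfl
  all_goals grind

lemma stepK2 [Fintype V] {X Y x1 x2 : V} (c : CtxK2 R X Y x1 x2) : HasC R x5T := by
  have exy := c.xy
  have sy : ∀ x y, R.Adj x y → R.Adj y x := fun x y h => h.symm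
  have ir : ∀ x, ¬ R.Adj x x := fun x h => h.ne rfl
  have h1 := c.h1
  have h2 := c.h2
  have h12 := c.h12
  have n1 := c.n1
  have n2 := c.n2
  obtain ⟨a0, ha0, ha0', e0⟩ := c.hX
  obtain ⟨b0, hb0, hb0', f0⟩ := c.hY
  by_cases hb : ∀ v, v ≠ X → v ≠ Y → R.Adj Y v → v = b0
  · exact k2d c ⟨hb0, hb0'⟩ f0 hb
  by_cases ha : ∀ v, v ≠ X → v ≠ Y → R.Adj X v → v = a0
  · exact k2d c.symm ⟨ha0', ha0⟩ e0 (fun v h1 h2 => ha v h2 h1)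
  push Not at ha hb
  obtain ⟨b1, hb1, hb1', f1, hbb⟩ := hb
  obtain ⟨a1, ha1, ha1', e1, haa⟩ := ha
  have na : ∀ v, v ≠ X → v ≠ Y → R.Adj X v ∨ R.Adj Y v → v ≠ x1 ∧ v ≠ x2 := by
    intro v _ _ h
    constructor
    · rintro rfl; rcases h with h | h
      · exact n1.1 h
      · exact n1.2 h
    · rintro rfl; rcases h with h | h
      · exact n2.1 h
      · exact n2.2 h
  have conW : Cn R (univ \ {x1, X, Y}) := by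
    refine c.con x1 X Y ?_ ?_ ?_
    · grind
    · left; right; left; rfl
    · left; right; right; rfl
  by_cases hx2 : ∃ o1 o2, (o1 ≠ X ∧ o1 ≠ Y) ∧ (o2 ≠ X ∧ o2 ≠ Y) ∧ o1 ≠ o2 ∧ R.Adj X o1 ∧ R.Adj Y o1 ∧
      R.Adj X o2 ∧ R.Adj Y o2
  · obtain ⟨o1, o2, k1, k2, k3, k4, k5, k6, k7⟩ := hx2
    have m1 := na o1 k1.1 k1.2 (Or.inl k4)
    have m2 := na o2 k2.1 k2.2 (Or.inl k6)
    have J1 := c.J o1 k1.1 k1.2 m1.1 m1.2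
    have J2 := c.J o2 k2.1 k2.2 m2.1 m2.2
    refine x5_pts x1 X Y o1 o1 o1 o2 o2 o2 conW ?_ ?_ ?_ ?_ ?_ ?_ ?_ ?_ <;> grind
  by_cases hx1 : ∃ o, (o ≠ X ∧ o ≠ Y) ∧ R.Adj X o ∧ R.Adj Y o
  · obtain ⟨o, ho, ao, bo⟩ := hx1
    have huniq : ∀ w, w ≠ X → w ≠ Y → R.Adj X w → R.Adj Y w → w = o := by
      intro w w1 w2 w3 w4
      by_contra hne
      exact hx2 ⟨w, o, ⟨w1, w2⟩, ho, hne, w3, w4, ao, bo⟩
    obtain ⟨u, hu, au, hne⟩ : ∃ u, (u ≠ X ∧ u ≠ Y) ∧ R.Adj X u ∧ u ≠ o := by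
      by_cases h : a0 = o
      · exact ⟨a1, ⟨ha1, ha1'⟩, e1, by rw [← h]; exact haa⟩
      · exact ⟨a0, ⟨ha0, ha0'⟩, e0, h⟩
    obtain ⟨v, hv, bv, hne'⟩ : ∃ v, (v ≠ X ∧ v ≠ Y) ∧ R.Adj Y v ∧ v ≠ o := by
      by_cases h : b0 = o
      · exact ⟨b1, ⟨hb1, hb1'⟩, f1, by rw [← h]; exact hbb⟩
      · exact ⟨b0, ⟨hb0, hb0'⟩, f0, h⟩
    have mo := na o ho.1 ho.2 (Or.inl ao)
    have mu := na u hu.1 hu.2 (Or.inl au)
    have mv := na v hv.1 hv.2 (Or.inr bv)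
    have Jo := c.J o ho.1 ho.2 mo.1 mo.2
    have Ju := c.J u hu.1 hu.2 mu.1 mu.2
    have Jv := c.J v hv.1 hv.2 mv.1 mv.2
    refine x5_pts x1 X Y o o o u x2 v conW ?_ ?_ ?_ ?_ ?_ ?_ ?_ ?_ <;> grind
  · have hdis : ∀ w, w ≠ X → w ≠ Y → R.Adj X w → R.Adj Y w → False := by
      intro w w1 w2 w3 w4
      exact hx1 ⟨w, ⟨w1, w2⟩, w3, w4⟩
    have ma0 := na a0 ha0 ha0' (Or.inl e0)
    have ma1 := na a1 ha1 ha1' (Or.inl e1)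
    have mb0 := na b0 hb0 hb0' (Or.inr f0)
    have mb1 := na b1 hb1 hb1' (Or.inr f1)
    have Ja0 := c.J a0 ha0 ha0' ma0.1 ma0.2
    have Ja1 := c.J a1 ha1 ha1' ma1.1 ma1.2
    have Jb0 := c.J b0 hb0 hb0' mb0.1 mb0.2
    have Jb1 := c.J b1 hb1 hb1' mb1.1 mb1.2
    have I1 := c.I b1 a1 hb1 hb1' mb1.1 mb1.2 ha1 ha1' ma1.1 ma1.2
    have d1 := hdis a0 ha0 ha0' e0
    have d2 := hdis a1 ha1 ha1' e1
    have d3 : ¬ R.Adj X b0 := fun h => hdis b0 hb0 hb0' h f0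
    have d4 : ¬ R.Adj X b1 := fun h => hdis b1 hb1 hb1' h f1
    refine x5_pts b1 X a1 x1 a0 a0 x2 b0 Y ?_ ?_ ?_ ?_ ?_ ?_ ?_ ?_ ?_
    · refine c.con b1 X a1 ?_ ?_ ?_
      · grind
      · left; right; left; rfl
      · right; exact ⟨b0, hb0, hb0', hbb.symm, hb0, by rintro rfl; exact d2 f0, f0⟩
    all_goals grind

/-- context: the merged vertex is `x1`; `x2` is its partner -/
structure CtxK3 [Fintype V] (R : SimpleGraph V) (X Y x2 x3 : V) : Prop where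
  xy : R.Adj X Y
  h2 : x2 ≠ X ∧ x2 ≠ Y
  h3 : x3 ≠ X ∧ x3 ≠ Y
  h23 : x2 ≠ x3
  nadj : ¬ R.Adj x2 x3
  n3 : ¬ R.Adj X x3 ∧ ¬ R.Adj Y x3
  d2 : R.Adj X x2 ∨ R.Adj Y x2
  J : ∀ t, t ≠ X → t ≠ Y → t ≠ x2 → t ≠ x3 → R.Adj t x2 ∧ R.Adj t x3 ∧ (R.Adj X t ∨ R.Adj Y t)
  I : ∀ t s, t ≠ X → t ≠ Y → t ≠ x2 → t ≠ x3 → s ≠ X → s ≠ Y → s ≠ x2 → s ≠ x3 → ¬ R.Adj t s
  N : ∀ q r, ∃ p, p ≠ X ∧ p ≠ Y ∧ p ≠ x2 ∧ p ≠ x3 ∧ p ≠ q ∧ p ≠ r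
  hX : ∃ z, z ≠ X ∧ z ≠ Y ∧ R.Adj X z
  hY : ∃ z, z ≠ X ∧ z ≠ Y ∧ R.Adj Y z

lemma CtxK3.symm [Fintype V] {X Y x2 x3 : V} (c : CtxK3 R X Y x2 x3) : CtxK3 R Y X x2 x3 := by
  refine ⟨c.xy.symm, c.h2.symm, c.h3.symm, c.h23, c.nadj, c.n3.symm, c.d2.symm, ?_, ?_, ?_, ?_, ?_⟩
  · intro t h1 h2 h3 h4
    obtain ⟨a, b, d⟩ := c.J t h2 h1 h3 h4
    exact ⟨a, b, d.symm⟩
  · intro t s h1 h2 h3 h4 h5 h6 h7 h8; exact c.I t s h2 h1 h3 h4 h6 h5 h7 h8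
  · intro q r
    obtain ⟨p, h1, h2, h3⟩ := c.N q r
    exact ⟨p, h2, h1, h3⟩
  · obtain ⟨z, h1, h2, h3⟩ := c.hY; exact ⟨z, h2, h1, h3⟩
  · obtain ⟨z, h1, h2, h3⟩ := c.hX; exact ⟨z, h2, h1, h3⟩

lemma CtxK3.con [Fintype V] {X Y x2 x3 : V} (c : CtxK3 R X Y x2 x3) (w0 w1 w2 : V)
    (hh : x2 ≠ w0 ∧ x2 ≠ w1 ∧ x2 ≠ w2)
    (hX : (X = w0 ∨ X = w1 ∨ X = w2) ∨ ∃ q, q ≠ X ∧ q ≠ Y ∧ q ≠ w0 ∧ q ≠ w1 ∧ q ≠ w2 ∧ R.Adj X q)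
    (hY : (Y = w0 ∨ Y = w1 ∨ Y = w2) ∨ ∃ q, q ≠ X ∧ q ≠ Y ∧ q ≠ w0 ∧ q ≠ w1 ∧ q ≠ w2 ∧ R.Adj Y q)
    (hx3 : (x3 = w0 ∨ x3 = w1 ∨ x3 = w2) ∨ ∃ q, q ≠ X ∧ q ≠ Y ∧ q ≠ x2 ∧ q ≠ x3 ∧ q ≠ w0 ∧ q ≠ w1 ∧ q ≠ w2) :
    Cn R (univ \ {w0, w1, w2}) := by
  have base : ∀ t, t ≠ X → t ≠ Y → t ≠ x3 → t = x2 ∨ R.Adj t x2 := by
    intro t k1 k2 k3
    by_cases k4 : t = x2
    · exact Or.inl k4
    exact Or.inr (c.J t k1 k2 k4 k3).1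
  refine conH w0 w1 w2 x2 hh ?_
  intro t k1 k2 k3
  by_cases tX : t = X
  · subst tX
    rcases hX with h | ⟨q, q1, q2, q3, q4, q5, q6⟩
    · tauto
    have q7 : q ≠ x3 := by rintro rfl; exact c.n3.1 q6
    rcases base q q1 q2 q7 with h | h
    · subst h; exact Or.inr (Or.inl q6)
    · exact Or.inr (Or.inr ⟨q, q3, q4, q5, q6, h⟩)
  by_cases tY : t = Y
  · subst tY
    rcases hY with h | ⟨q, q1, q2, q3, q4, q5, q6⟩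
    · tauto
    have q7 : q ≠ x3 := by rintro rfl; exact c.n3.2 q6
    rcases base q q1 q2 q7 with h | h
    · subst h; exact Or.inr (Or.inl q6)
    · exact Or.inr (Or.inr ⟨q, q3, q4, q5, q6, h⟩)
  by_cases t3 : t = x3
  · subst t3
    rcases hx3 with h | ⟨q, q1, q2, q3, q4, q5, q6, q7⟩
    · tauto
    · exact Or.inr (Or.inr ⟨q, q5, q6, q7, (c.J q q1 q2 q3 q4).2.1.symm, (c.J q q1 q2 q3 q4).1⟩)
  rcases base t tX tY t3 with h | h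
  · exact Or.inl h
  · exact Or.inr (Or.inl h)

/-- `Y` has degree two -/
lemma k3d [Fintype V] {X Y x2 x3 : V} (c : CtxK3 R X Y x2 x3) {o : V} (ho : o ≠ X ∧ o ≠ Y)
    (bo : R.Adj Y o) (hb : ∀ v, v ≠ X → v ≠ Y → R.Adj Y v → v = o) : HasC R x5T := by
  have exy := c.xy
  have sy : ∀ x y, R.Adj x y → R.Adj y x := fun x y h => h.symm
  have ir : ∀ x, ¬ R.Adj x x := fun x h => h.ne rfl
  have h2 := c.h2
  have h3 := c.h3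
  have h23 := c.h23
  have nadj := c.nadj
  have n3 := c.n3
  have d2 := c.d2
  have o3 : o ≠ x3 := by rintro rfl; exact n3.2 bo
  by_cases o2 : o = x2
  · -- b = {x2}
    subst o2
    obtain ⟨p, p1, p2, p3, p4, -, -⟩ := c.N o o
    obtain ⟨q, q1, q2, q3, q4, q5, -⟩ := c.N p p
    obtain ⟨r, r1, r2, r3, r4, r5, r6⟩ := c.N p q
    have Jp := c.J p p1 p2 p3 p4
    have Jq := c.J q q1 q2 q3 q4
    have Jr := c.J r r1 r2 r3 r4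
    have ap := Jp.2.2.resolve_right (fun h => p3 (hb p p1 p2 h))
    have aq := Jq.2.2.resolve_right (fun h => q3 (hb q q1 q2 h))
    have ar := Jr.2.2.resolve_right (fun h => r3 (hb r r1 r2 h))
    refine x5_pts Y x3 p X q q o r r ?_ ?_ ?_ ?_ ?_ ?_ ?_ ?_ ?_
    · refine c.con Y x3 p ?_ ?_ ?_ ?_
      · grind
      · right; exact ⟨q, q1, q2, q2, q4, q5, aq⟩
      · left; left; rfl
      · left; right; left; rfl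
    all_goals grind
  · have Jo := c.J o ho.1 ho.2 o2 o3
    have a2 : R.Adj X x2 := d2.resolve_right (fun h => o2 (hb x2 h2.1 h2.2 h).symm)
    obtain ⟨p, p1, p2, p3, p4, p5, -⟩ := c.N o o
    obtain ⟨q, q1, q2, q3, q4, q5, q6⟩ := c.N o p
    have Jp := c.J p p1 p2 p3 p4
    have Jq := c.J q q1 q2 q3 q4
    have ap := Jp.2.2.resolve_right (fun h => p5 (hb p p1 p2 h))
    have aq := Jq.2.2.resolve_right (fun h => q5 (hb q q1 q2 h))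
    have bp : ¬ R.Adj Y p := (fun h => p5 (hb p p1 p2 h))
    have b2 : ¬ R.Adj Y x2 := fun h => o2 (hb x2 h2.1 h2.2 h).symm
    refine x5_pts Y x2 p X X X o x3 x3 ?_ ?_ ?_ ?_ ?_ ?_ ?_ ?_ ?_
    · refine conH Y x2 p x3 ⟨h3.2, h23.symm, p4.symm⟩ ?_
      intro t k1 k2 k3
      by_cases tX : t = X
      · subst tX; exact Or.inr (Or.inr ⟨q, q2, q3, q6, aq, Jq.2.1⟩)
      by_cases t3 : t = x3
      · exact Or.inl t3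
      exact Or.inr (Or.inl (c.J t tX k1 k2 t3).2.1)
    all_goals grind

/-- no other vertex sees both `X` and `Y`, `X` sees two others, `Y` sees one -/
lemma k3c [Fintype V] {X Y x2 x3 : V} (c : CtxK3 R X Y x2 x3) {a1 a2 b1 : V}
    (ha1 : a1 ≠ X ∧ a1 ≠ Y ∧ a1 ≠ x2 ∧ a1 ≠ x3) (ha2 : a2 ≠ X ∧ a2 ≠ Y ∧ a2 ≠ x2 ∧ a2 ≠ x3)
    (hb1 : b1 ≠ X ∧ b1 ≠ Y ∧ b1 ≠ x2 ∧ b1 ≠ x3) (h12 : a1 ≠ a2)
    (e1 : R.Adj X a1) (e2 : R.Adj X a2) (f1 : R.Adj Y b1) (g1 : ¬ R.Adj Y a1) (_g2 : ¬ R.Adj Y a2)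
    (g3 : ¬ R.Adj X b1) (hb : ∃ q, q ≠ X ∧ q ≠ Y ∧ q ≠ b1 ∧ R.Adj Y q) : HasC R x5T := by
  have exy := c.xy
  have sy : ∀ x y, R.Adj x y → R.Adj y x := fun x y h => h.symm
  have ir : ∀ x, ¬ R.Adj x x := fun x h => h.ne rfl
  have h2 := c.h2
  have h3 := c.h3
  have h23 := c.h23
  have nadj := c.nadj
  have n3 := c.n3
  have J1 := c.J a1 ha1.1 ha1.2.1 ha1.2.2.1 ha1.2.2.2
  have J2 := c.J a2 ha2.1 ha2.2.1 ha2.2.2.1 ha2.2.2.2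
  have J3 := c.J b1 hb1.1 hb1.2.1 hb1.2.2.1 hb1.2.2.2
  have I1 := c.I b1 a1 hb1.1 hb1.2.1 hb1.2.2.1 hb1.2.2.2 ha1.1 ha1.2.1 ha1.2.2.1 ha1.2.2.2
  obtain ⟨q, q1, q2, q3, q4⟩ := hb
  have hT : Cn R (univ \ {b1, X, a1}) := by
    refine c.con b1 X a1 ?_ ?_ ?_ ?_
    · grind
    · left; right; left; rfl
    · right; exact ⟨q, q1, q2, q3, q1, by rintro rfl; exact g1 q4, q4⟩
    · right; exact ⟨a2, ha2.1, ha2.2.1, ha2.2.2.1, ha2.2.2.2, by rintro rfl; exact g3 e2, ha2.1, h12.symm⟩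
  by_cases ax2 : R.Adj X x2
  · refine x5_pts b1 X a1 x3 a2 a2 x2 x2 x2 hT ?_ ?_ ?_ ?_ ?_ ?_ ?_ ?_ <;> grind
  · have bx2 := c.d2.resolve_left ax2
    refine x5_pts b1 X a1 x3 a2 a2 x2 Y Y hT ?_ ?_ ?_ ?_ ?_ ?_ ?_ ?_ <;> grind

lemma stepK3 [Fintype V] {X Y x2 x3 : V} (c : CtxK3 R X Y x2 x3) : HasC R x5T := by
  have exy := c.xy
  have sy : ∀ x y, R.Adj x y → R.Adj y x := fun x y h => h.symm
  have ir : ∀ x, ¬ R.Adj x x := fun x h => h.ne rfl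
  have h2 := c.h2
  have h3 := c.h3
  have h23 := c.h23
  have nadj := c.nadj
  have n3 := c.n3
  have d2 := c.d2
  obtain ⟨a0, ha0, ha0', e0⟩ := c.hX
  obtain ⟨b0, hb0, hb0', f0⟩ := c.hY
  by_cases hb : ∀ v, v ≠ X → v ≠ Y → R.Adj Y v → v = b0
  · exact k3d c ⟨hb0, hb0'⟩ f0 hb
  by_cases ha : ∀ v, v ≠ X → v ≠ Y → R.Adj X v → v = a0
  · exact k3d c.symm ⟨ha0', ha0⟩ e0 (fun v h1 h2 => ha v h2 h1)
  push Not at ha hb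
  obtain ⟨b1, hb1, hb1', f1, hbb⟩ := hb
  obtain ⟨a1, ha1, ha1', e1, haa⟩ := ha
  have na : ∀ v, R.Adj X v ∨ R.Adj Y v → v ≠ x3 := by
    intro v h
    rintro rfl; rcases h with h | h
    · exact n3.1 h
    · exact n3.2 h
  have conW : Cn R (univ \ {x3, X, Y}) := by
    refine c.con x3 X Y ?_ ?_ ?_ ?_
    · grind
    · left; right; left; rfl
    · left; right; right; rfl
    · left; left; rfl
  by_cases hx2 : ∃ o1 o2, (o1 ≠ X ∧ o1 ≠ Y ∧ o1 ≠ x2) ∧ (o2 ≠ X ∧ o2 ≠ Y ∧ o2 ≠ x2) ∧ o1 ≠ o2 ∧ R.Adj X o1 ∧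
      R.Adj Y o1 ∧ R.Adj X o2 ∧ R.Adj Y o2
  · obtain ⟨o1, o2, k1, k2, k3, k4, k5, k6, k7⟩ := hx2
    have J1 := c.J o1 k1.1 k1.2.1 k1.2.2 (na o1 (Or.inl k4))
    have J2 := c.J o2 k2.1 k2.2.1 k2.2.2 (na o2 (Or.inl k6))
    refine x5_pts x3 X Y o1 o1 o1 o2 o2 o2 conW ?_ ?_ ?_ ?_ ?_ ?_ ?_ ?_ <;> grind
  by_cases hx1 : ∃ o, (o ≠ X ∧ o ≠ Y ∧ o ≠ x2) ∧ R.Adj X o ∧ R.Adj Y o
  · obtain ⟨o, ho, ao, bo⟩ := hx1
    have huniq : ∀ w, w ≠ X → w ≠ Y → w ≠ x2 → R.Adj X w → R.Adj Y w → w = o := by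
      intro w w1 w2 w5 w3 w4
      by_contra hne
      exact hx2 ⟨w, o, ⟨w1, w2, w5⟩, ho, hne, w3, w4, ao, bo⟩
    obtain ⟨u, hu, au, hne⟩ : ∃ u, (u ≠ X ∧ u ≠ Y) ∧ R.Adj X u ∧ u ≠ o := by
      by_cases h : a0 = o
      · exact ⟨a1, ⟨ha1, ha1'⟩, e1, by rw [← h]; exact haa⟩
      · exact ⟨a0, ⟨ha0, ha0'⟩, e0, h⟩
    obtain ⟨v, hv, bv, hne'⟩ : ∃ v, (v ≠ X ∧ v ≠ Y) ∧ R.Adj Y v ∧ v ≠ o := by
      by_cases h : b0 = o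
      · exact ⟨b1, ⟨hb1, hb1'⟩, f1, by rw [← h]; exact hbb⟩
      · exact ⟨b0, ⟨hb0, hb0'⟩, f0, h⟩
    have Jo := c.J o ho.1 ho.2.1 ho.2.2 (na o (Or.inl ao))
    have nu := na u (Or.inl au)
    have nv := na v (Or.inr bv)
    by_cases u2 : u = x2
    · subst u2
      by_cases v2 : v = u
      · subst v2
        obtain ⟨p, p1, p2, p3, p4, p5, -⟩ := c.N o o
        have Jp := c.J p p1 p2 p3 p4
        refine x5_pts x3 X Y o o o v p p conW ?_ ?_ ?_ ?_ ?_ ?_ ?_ ?_ <;> grind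
      · have Jv := c.J v hv.1 hv.2 v2 nv
        refine x5_pts x3 X Y o o o u v v conW ?_ ?_ ?_ ?_ ?_ ?_ ?_ ?_ <;> grind
    · have Ju := c.J u hu.1 hu.2 u2 nu
      by_cases v2 : v = x2
      · subst v2
        refine x5_pts x3 X Y o o o u v v conW ?_ ?_ ?_ ?_ ?_ ?_ ?_ ?_ <;> grind
      · have Jv := c.J v hv.1 hv.2 v2 nv
        refine x5_pts x3 X Y o o o u x2 v conW ?_ ?_ ?_ ?_ ?_ ?_ ?_ ?_ <;> grind
  · have hdis : ∀ w, w ≠ X → w ≠ Y → w ≠ x2 → R.Adj X w → R.Adj Y w → False := by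
      intro w w1 w2 w5 w3 w4
      exact hx1 ⟨w, ⟨w1, w2, w5⟩, w3, w4⟩
    -- an other vertex seen by X, one seen by Y
    obtain ⟨a, haS, hXa⟩ : ∃ a, (a ≠ X ∧ a ≠ Y ∧ a ≠ x2 ∧ a ≠ x3) ∧ R.Adj X a := by
      by_cases h : a0 = x2
      · exact ⟨a1, ⟨ha1, ha1', by rw [← h]; exact haa, na a1 (Or.inl e1)⟩, e1⟩
      · exact ⟨a0, ⟨ha0, ha0', h, na a0 (Or.inl e0)⟩, e0⟩
    obtain ⟨b, hbS, hYb⟩ : ∃ b, (b ≠ X ∧ b ≠ Y ∧ b ≠ x2 ∧ b ≠ x3) ∧ R.Adj Y b := by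
      by_cases h : b0 = x2
      · exact ⟨b1, ⟨hb1, hb1', by rw [← h]; exact hbb, na b1 (Or.inr f1)⟩, f1⟩
      · exact ⟨b0, ⟨hb0, hb0', h, na b0 (Or.inr f0)⟩, f0⟩
    have hab : a ≠ b := by rintro rfl; exact hdis a haS.1 haS.2.1 haS.2.2.1 hXa hYb
    have qY : ∃ q, q ≠ X ∧ q ≠ Y ∧ q ≠ b ∧ R.Adj Y q := by
      by_cases h : b0 = b
      · exact ⟨b1, hb1, hb1', by rw [← h]; exact hbb, f1⟩
      · exact ⟨b0, hb0, hb0', h, f0⟩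
    have qX : ∃ q, q ≠ Y ∧ q ≠ X ∧ q ≠ a ∧ R.Adj X q := by
      by_cases h : a0 = a
      · exact ⟨a1, ha1', ha1, by rw [← h]; exact haa, e1⟩
      · exact ⟨a0, ha0', ha0, h, e0⟩
    obtain ⟨w, w1, w2, w3, w4, w5, w6⟩ := c.N a b
    rcases (c.J w w1 w2 w3 w4).2.2 with h | h
    · exact k3c c haS ⟨w1, w2, w3, w4⟩ hbS w5.symm hXa h hYb
        (fun k => hdis a haS.1 haS.2.1 haS.2.2.1 hXa k) (fun k => hdis w w1 w2 w3 h k)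
        (fun k => hdis b hbS.1 hbS.2.1 hbS.2.2.1 k hYb) qY
    · exact k3c c.symm ⟨hbS.2.1, hbS.1, hbS.2.2⟩ ⟨w2, w1, w3, w4⟩ ⟨haS.2.1, haS.1, haS.2.2⟩ w6.symm hYb h hXa
        (fun k => hdis b hbS.1 hbS.2.1 hbS.2.2.1 k hYb) (fun k => hdis w w1 w2 w3 k h)
        (fun k => hdis a haS.1 haS.2.1 haS.2.2.1 hXa k) qX

lemma card_sub [Fintype V] (Y : V) : Fintype.card {v : V // v ≠ Y} = Fintype.card V - 1 := by
  have h1 := Fintype.card_subtype_compl (fun v : V => v = Y)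
  rw [Fintype.card_subtype_eq] at h1
  rw [← h1]

/-- extraction of the multipartite context -/
lemma ctxM_of [Fintype V] {X Y : V} (hXY : R.Adj X Y) (hX : ∃ z, z ≠ Y ∧ R.Adj X z)
    (hY : ∃ z, z ≠ X ∧ R.Adj Y z) (hc : 6 ≤ Fintype.card {v : V // v ≠ Y})
    (ht : ∀ x y z, ¬(ctr R X Y).Adj x y → ¬(ctr R X Y).Adj y z → ¬(ctr R X Y).Adj x z)
    (hd : ∀ x, 3 ≤ (univ.filter (fun y => (ctr R X Y).Adj x y)).card) : CtxM R X Y := by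
  have hne := hXY.ne
  have e1 : ∀ x y (hx : x ≠ Y) (hy : y ≠ Y), x ≠ X → y ≠ X → ((ctr R X Y).Adj ⟨x, hx⟩ ⟨y, hy⟩ ↔ R.Adj x y) := by
    intro x y hx hy h1 h2
    constructor
    · rintro ⟨_, h | h | h⟩
      · exact h
      · exact absurd h.1 h1
      · exact absurd h.1 h2
    · intro h
      exact ⟨fun k => h.ne (by simpa using k), Or.inl h⟩
  have e2 : ∀ y (hy : y ≠ Y), y ≠ X → ((ctr R X Y).Adj ⟨X, hne⟩ ⟨y, hy⟩ ↔ (R.Adj X y ∨ R.Adj Y y)) := by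
    intro y hy h1
    constructor
    · rintro ⟨_, h | h | h⟩
      · exact Or.inl h
      · exact Or.inr h.2
      · exact absurd h.1 h1
    · rintro (h | h)
      · exact ⟨fun k => h1 (by simpa using k.symm), Or.inl h⟩
      · exact ⟨fun k => h1 (by simpa using k.symm), Or.inr (Or.inl ⟨rfl, h⟩)⟩
  have pick : ∀ (F : Finset {v : V // v ≠ Y}) (L : Finset V), L.card < F.card → ∃ x ∈ F, x.1 ∉ L := by
    intro F L hL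
    by_contra hcon
    push Not at hcon
    have h1 : F.image Subtype.val ⊆ L := by
      intro x hx
      rw [mem_image] at hx
      obtain ⟨a, ha, rfl⟩ := hx
      exact hcon a ha
    have h2 := card_le_card h1
    rw [card_image_of_injective _ Subtype.val_injective] at h2
    omega
  have c2 : ∀ a b : V, ({a, b} : Finset V).card ≤ 2 := fun a b => card_le_two
  refine ⟨hXY, ?_, ?_, ?_, ?_, ?_, ?_, ?_, ?_⟩
  · intro x y z x1 x2 y1 y2 z1 z2 h1 h2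
    have := ht ⟨x, x2⟩ ⟨y, y2⟩ ⟨z, z2⟩
    rw [e1 _ _ _ _ x1 y1, e1 _ _ _ _ y1 z1, e1 _ _ _ _ x1 z1] at this
    exact this h1 h2
  · intro p o p1 p2 o1 o2 h1 h2 h3
    by_contra hcon
    have := ht ⟨X, hne⟩ ⟨p, p2⟩ ⟨o, o2⟩
    rw [e2 _ _ p1, e1 _ _ _ _ p1 o1, e2 _ _ o1] at this
    exact this (by tauto) hcon h3
  · intro p q p1 p2 q1 q2 h1 h2 h3 h4
    have := ht ⟨p, p2⟩ ⟨X, hne⟩ ⟨q, q2⟩
    rw [SimpleGraph.adj_comm, e2 _ _ p1, e2 _ _ q1, e1 _ _ _ _ p1 q1] at this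
    exact this (by tauto) (by tauto)
  · intro u v
    obtain ⟨⟨o, ho⟩, h1, h2⟩ := pick _ {u, v} (lt_of_lt_of_le (Nat.lt_succ_of_le (c2 u v)) (hd ⟨X, hne⟩))
    simp only [mem_filter, mem_univ, true_and] at h1
    have hoX : o ≠ X := by
      rintro rfl
      exact h1.ne rfl
    rw [e2 _ _ hoX] at h1
    simp only [mem_insert, mem_singleton, not_or] at h2
    exact ⟨o, hoX, ho, h1, h2.1, h2.2⟩
  · intro v v1 v2 _ u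
    obtain ⟨⟨w, hw⟩, h1, h2⟩ := pick _ {X, u} (lt_of_lt_of_le (Nat.lt_succ_of_le (c2 X u)) (hd ⟨v, v2⟩))
    simp only [mem_filter, mem_univ, true_and] at h1
    simp only [mem_insert, mem_singleton, not_or] at h2
    rw [e1 _ _ _ _ v1 h2.1] at h1
    exact ⟨w, h2.1, hw, h1, h2.2⟩
  · intro u1 u2 u3 u4
    obtain ⟨⟨w, hw⟩, -, h2⟩ := pick univ {X, u1, u2, u3, u4} (by
      rw [card_univ]
      have : ({X, u1, u2, u3, u4} : Finset V).card ≤ 5 := card_le_five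
      omega)
    simp only [mem_insert, mem_singleton, not_or] at h2
    exact ⟨w, h2.1, hw, h2.2.1, h2.2.2.1, h2.2.2.2.1, h2.2.2.2.2⟩
  · obtain ⟨z, h1, h2⟩ := hX
    exact ⟨z, h2.ne', h1, h2⟩
  · obtain ⟨z, h1, h2⟩ := hY
    exact ⟨z, h1, h2.ne', h2⟩

lemma typeK_of [Fintype V] {X Y : V} (hXY : R.Adj X Y) (hX : ∃ z, z ≠ Y ∧ R.Adj X z)
    (hY : ∃ z, z ≠ X ∧ R.Adj Y z) (hc : 6 ≤ Fintype.card {v : V // v ≠ Y})
    (hk : TypeK (ctr R X Y)) : HasC R x5T := by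
  have hne := hXY.ne
  have e1 : ∀ x y (hx : x ≠ Y) (hy : y ≠ Y), x ≠ X → y ≠ X → ((ctr R X Y).Adj ⟨x, hx⟩ ⟨y, hy⟩ ↔ R.Adj x y) := by
    intro x y hx hy h1 h2
    constructor
    · rintro ⟨_, h | h | h⟩
      · exact h
      · exact absurd h.1 h1
      · exact absurd h.1 h2
    · intro h
      exact ⟨fun k => h.ne (by simpa using k), Or.inl h⟩
  have e2 : ∀ y (hy : y ≠ Y), y ≠ X → ((ctr R X Y).Adj ⟨X, hne⟩ ⟨y, hy⟩ ↔ (R.Adj X y ∨ R.Adj Y y)) := by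
    intro y hy h1
    constructor
    · rintro ⟨_, h | h | h⟩
      · exact Or.inl h
      · exact Or.inr h.2
      · exact absurd h.1 h1
    · rintro (h | h)
      · exact ⟨fun k => h1 (by simpa using k.symm), Or.inl h⟩
      · exact ⟨fun k => h1 (by simpa using k.symm), Or.inr (Or.inl ⟨rfl, h⟩)⟩
  have e2' : ∀ y (hy : y ≠ Y), y ≠ X → ((ctr R X Y).Adj ⟨y, hy⟩ ⟨X, hne⟩ ↔ (R.Adj X y ∨ R.Adj Y y)) := by
    intro y hy h1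
    rw [SimpleGraph.adj_comm]
    exact e2 y hy h1
  have pick : ∀ u1 u2 u3 u4 : V, ∃ w, w ≠ X ∧ w ≠ Y ∧ w ≠ u1 ∧ w ≠ u2 ∧ w ≠ u3 ∧ w ≠ u4 := by
    intro u1 u2 u3 u4
    by_contra hcon
    push Not at hcon
    have h1 : (univ : Finset {v : V // v ≠ Y}).image Subtype.val ⊆ {X, u1, u2, u3, u4} := by
      intro x hx
      rw [mem_image] at hx
      obtain ⟨a, ha, rfl⟩ := hx
      simp only [mem_insert, mem_singleton]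
      by_contra hh
      simp only [not_or] at hh
      exact hh.2.2.2.2 (hcon a.1 hh.1 a.2 hh.2.1 hh.2.2.1 hh.2.2.2.1)
    have h2 := card_le_card h1
    rw [card_image_of_injective _ Subtype.val_injective, card_univ] at h2
    have : ({X, u1, u2, u3, u4} : Finset V).card ≤ 5 := card_le_five
    omega
  have hX' : ∃ z, z ≠ X ∧ z ≠ Y ∧ R.Adj X z := by
    obtain ⟨z, h1, h2⟩ := hX
    exact ⟨z, h2.ne', h1, h2⟩
  have hY' : ∃ z, z ≠ X ∧ z ≠ Y ∧ R.Adj Y z := by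
    obtain ⟨z, h1, h2⟩ := hY
    exact ⟨z, h1, h2.ne', h2⟩
  obtain ⟨⟨x1, y1⟩, ⟨x2, y2⟩, ⟨x3, y3⟩, h12, n13, n23, d13, d23, hJ, hI⟩ := hk
  have d12 : x1 ≠ x2 := fun h => h12.ne (by simpa using h)
  have d13' : x1 ≠ x3 := fun h => d13 (by simpa using h)
  have d23' : x2 ≠ x3 := fun h => d23 (by simpa using h)
  have J' : ∀ t (ht : t ≠ Y), t ≠ x1 → t ≠ x2 → t ≠ x3 → (ctr R X Y).Adj ⟨t, ht⟩ ⟨x1, y1⟩ ∧
      (ctr R X Y).Adj ⟨t, ht⟩ ⟨x2, y2⟩ ∧ (ctr R X Y).Adj ⟨t, ht⟩ ⟨x3, y3⟩ := by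
    intro t ht k1 k2 k3
    exact hJ ⟨t, ht⟩ (fun h => k1 (by simpa using h)) (fun h => k2 (by simpa using h)) (fun h => k3 (by simpa using h))
  have I' : ∀ t s (ht : t ≠ Y) (hs : s ≠ Y), t ≠ x1 → t ≠ x2 → t ≠ x3 → s ≠ x1 → s ≠ x2 → s ≠ x3 →
      ¬ (ctr R X Y).Adj ⟨t, ht⟩ ⟨s, hs⟩ := by
    intro t s ht hs k1 k2 k3 k4 k5 k6
    exact hI ⟨t, ht⟩ ⟨s, hs⟩ (fun h => k1 (by simpa using h)) (fun h => k2 (by simpa using h)) (fun h => k3 (by simpa using h))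
      (fun h => k4 (by simpa using h)) (fun h => k5 (by simpa using h)) (fun h => k6 (by simpa using h))
  by_cases b3 : x3 = X
  · subst b3
    rw [e1 _ _ _ _ d13' d23'] at h12
    rw [e2' _ _ d13'] at n13
    rw [e2' _ _ d23'] at n23
    push Not at n13 n23
    refine stepK2 (X := x3) (Y := Y) (x1 := x1) (x2 := x2) ⟨hXY, ⟨d13', y1⟩, ⟨d23', y2⟩, h12, n13, n23, ?_, ?_, ?_, hX', hY'⟩
    · intro t t1 t2 t3 t4
      obtain ⟨k1, k2, k3⟩ := J' t t2 t3 t4 t1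
      rw [e1 _ _ _ _ t1 d13'] at k1
      rw [e1 _ _ _ _ t1 d23'] at k2
      rw [e2' _ _ t1] at k3
      exact ⟨k1, k2, k3⟩
    · intro t s t1 t2 t3 t4 s1 s2 s3 s4
      have := I' t s t2 s2 t3 t4 t1 s3 s4 s1
      rwa [e1 _ _ _ _ t1 s1] at this
    · intro q r
      obtain ⟨w, w1, w2, w3, w4, w5, w6⟩ := pick x1 x2 q r
      exact ⟨w, w1, w2, w3, w4, w5, w6⟩
  by_cases b1 : x1 = X
  · subst b1
    rw [e2 _ _ d12.symm] at h12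
    rw [e2 _ _ d13'.symm] at n13
    rw [e1 _ _ _ _ d12.symm d13'.symm] at n23
    push Not at n13
    refine stepK3 (X := x1) (Y := Y) (x2 := x2) (x3 := x3) ⟨hXY, ⟨d12.symm, y2⟩, ⟨d13'.symm, y3⟩, d23', n23, n13, h12, ?_, ?_, ?_, hX', hY'⟩
    · intro t t1 t2 t3 t4
      obtain ⟨k1, k2, k3⟩ := J' t t2 t1 t3 t4
      rw [e1 _ _ _ _ t1 d12.symm] at k2
      rw [e1 _ _ _ _ t1 d13'.symm] at k3
      rw [e2' _ _ t1] at k1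
      exact ⟨k2, k3, k1⟩
    · intro t s t1 t2 t3 t4 s1 s2 s3 s4
      have := I' t s t2 s2 t1 t3 t4 s1 s3 s4
      rwa [e1 _ _ _ _ t1 s1] at this
    · intro q r
      obtain ⟨w, w1, w2, w3, w4, w5, w6⟩ := pick x2 x3 q r
      exact ⟨w, w1, w2, w3, w4, w5, w6⟩
  by_cases b2 : x2 = X
  · subst b2
    rw [e2' _ _ d12] at h12
    rw [e2 _ _ d23'.symm] at n23
    rw [e1 _ _ _ _ d12 b3] at n13
    push Not at n23
    refine stepK3 (X := x2) (Y := Y) (x2 := x1) (x3 := x3) ⟨hXY, ⟨d12, y1⟩, ⟨d23'.symm, y3⟩, d13', n13, n23, h12, ?_, ?_, ?_, hX', hY'⟩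
    · intro t t1 t2 t3 t4
      obtain ⟨k1, k2, k3⟩ := J' t t2 t3 t1 t4
      rw [e1 _ _ _ _ t1 d12] at k1
      rw [e1 _ _ _ _ t1 d23'.symm] at k3
      rw [e2' _ _ t1] at k2
      exact ⟨k1, k3, k2⟩
    · intro t s t1 t2 t3 t4 s1 s2 s3 s4
      have := I' t s t2 s2 t3 t1 t4 s3 s1 s4
      rwa [e1 _ _ _ _ t1 s1] at this
    · intro q r
      obtain ⟨w, w1, w2, w3, w4, w5, w6⟩ := pick x1 x3 q r
      exact ⟨w, w1, w2, w3, w4, w5, w6⟩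
  · obtain ⟨k1, k2, k3⟩ := J' X hne (Ne.symm b1) (Ne.symm b2) (Ne.symm b3)
    rw [e2 _ _ b1] at k1
    rw [e2 _ _ b2] at k2
    rw [e2 _ _ b3] at k3
    refine stepK1 hXY x1 x2 x3 ⟨b1, y1⟩ ⟨b2, y2⟩ ⟨b3, y3⟩ d12 d13' d23' ?_ ?_ k1 k2 k3 hX' hY'
    · intro t t1 t2 t3 t4 t5
      obtain ⟨l1, l2, l3⟩ := J' t t2 t3 t4 t5
      have l4 := I' X t hne t2 (Ne.symm b1) (Ne.symm b2) (Ne.symm b3) t3 t4 t5
      rw [e1 _ _ _ _ t1 b1] at l1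
      rw [e1 _ _ _ _ t1 b2] at l2
      rw [e1 _ _ _ _ t1 b3] at l3
      rw [e2 _ _ t1] at l4
      push Not at l4
      exact ⟨l1, l2, l3, l4⟩
    · intro q
      obtain ⟨w, w1, w2, w3, w4, w5, w6⟩ := pick x1 x2 x3 q
      exact ⟨w, w1, w2, w3, w4, w5, w6⟩

end XM

open XM

theorem stepM {V : Type} (R : SimpleGraph V) [Fintype V] (X Y : V) (hXY : R.Adj X Y)
    (hX : ∃ z, z ≠ Y ∧ R.Adj X z) (hY : ∃ z, z ≠ X ∧ R.Adj Y z) (hQ : GoodM (ctr R X Y)) :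
    GoodM R ∨ HasC R x5T := by
  obtain ⟨hc, h | h⟩ := hQ
  swap
  · exact Or.inr (typeK_of hXY hX hY hc h)
  obtain ⟨ht, hd⟩ := h
  have c : CtxM R X Y := ctxM_of hXY hX hY hc ht hd
  have hcV : 6 ≤ Fintype.card V := by
    have := card_sub Y
    omega
  rcases stepM_multi c with h | h | h
  · left
    refine ⟨hcV, Or.inl ⟨h, ?_⟩⟩
    -- degrees
    have hS : ∀ x, x ≠ X → x ≠ Y → 3 ≤ (univ.filter (fun y => R.Adj x y)).card := by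
      intro x hx1 hx2
      refine (hd ⟨x, hx2⟩).trans ?_
      refine card_le_card_of_injOn
        (fun w => if w.1 = X then (if R.Adj x X then X else Y) else w.1) ?_ ?_
      · rintro ⟨w, hw⟩ hw'
        simp only [coe_filter, mem_univ, true_and, Set.mem_ofPred_eq] at hw'
        simp only [coe_filter, mem_univ, true_and, Set.mem_ofPred_eq]
        obtain ⟨_, k | k | k⟩ := hw'
        · by_cases hwX : w = X
          · subst hwX; simp [k]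
          · simpa [hwX] using k
        · exact absurd k.1 hx1
        · obtain ⟨k1, k2⟩ := k
          simp only at k1 k2
          subst k1
          by_cases hxX : R.Adj x w
          · simp [hxX]
          · simp [hxX, k2.symm]
      · rintro ⟨w, hw⟩ hw' ⟨w2, hw2⟩ hw2' hww
        simp only at hww
        apply Subtype.ext
        show w = w2
        by_cases k1 : w = X <;> by_cases k2 : w2 = X <;> by_cases k3 : R.Adj x X <;>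
          simp [k1, k2, k3] at hww ⊢ <;> grind
    have hXdeg : ∀ {X Y : V}, CtxM R X Y → (∀ x, x ≠ X → x ≠ Y → 3 ≤ (univ.filter (fun y => R.Adj x y)).card) →
        3 ≤ (univ.filter (fun y => R.Adj X y)).card := by
      intro X Y c hS
      by_cases hy : ∃ y, y ≠ X ∧ y ≠ Y ∧ ¬ R.Adj X y
      · obtain ⟨y, y1, y2, y3⟩ := hy
        refine (hS y y1 y2).trans (card_le_card ?_)
        intro w hw
        simp only [mem_filter, mem_univ, true_and] at hw ⊢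
        by_contra hcon
        exact h y X w (fun k => y3 k.symm) hcon hw
      · push Not at hy
        obtain ⟨a, a1, a2, -⟩ := c.C4 X X X X
        obtain ⟨b, b1, b2, b3, -⟩ := c.C4 a a a a
        obtain ⟨d, d1, d2, d3, d4, -⟩ := c.C4 a b b b
        exact Finset.two_lt_card.2 ⟨a, by simpa using hy a a1 a2, b, by simpa using hy b b1 b2, d,
          by simpa using hy d d1 d2, b3.symm, d3.symm, d4.symm⟩
    intro x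
    by_cases x1 : x = X
    · rw [x1]; exact hXdeg c hS
    by_cases x2 : x = Y
    · rw [x2]; exact hXdeg c.symm (fun x h1 h2 => hS x h2 h1)
    exact hS x x1 x2
  · exact Or.inl ⟨hcV, Or.inr h⟩
  · exact Or.inr h

theorem GoodM.iso {V V' : Type} [Fintype V] [Fintype V'] {R : SimpleGraph V} {R' : SimpleGraph V'}
    (e : R ≃g R') (h : GoodM R) : GoodM R' := by
  obtain ⟨hc, h⟩ := h
  refine ⟨by rw [← Fintype.card_congr e.toEquiv]; exact hc, ?_⟩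
  have ea : ∀ x y, R'.Adj x y ↔ R.Adj (e.symm x) (e.symm y) := fun x y => e.symm.map_adj_iff.symm
  rcases h with ⟨h1, h2⟩ | ⟨x1, x2, x3, h12, n13, n23, d13, d23, hJ, hI⟩
  · left
    refine ⟨?_, ?_⟩
    · intro x y z
      rw [ea, ea, ea]
      exact h1 _ _ _
    · intro x
      refine (h2 (e.symm x)).trans ?_
      refine card_le_card_of_injOn e ?_ e.injective.injOn
      intro w hw
      simp only [coe_filter, mem_univ, true_and, Set.mem_ofPred_eq] at hw ⊢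
      rw [ea]
      simpa using hw
  · right
    refine ⟨e x1, e x2, e x3, ?_, ?_, ?_, ?_, ?_, ?_, ?_⟩
    · rw [e.map_adj_iff]; exact h12
    · rw [e.map_adj_iff]; exact n13
    · rw [e.map_adj_iff]; exact n23
    · exact fun h => d13 (e.injective h)
    · exact fun h => d23 (e.injective h)
    · intro v k1 k2 k3
      have := hJ (e.symm v) (fun h => k1 (by rw [← h]; simp)) (fun h => k2 (by rw [← h]; simp))
        (fun h => k3 (by rw [← h]; simp))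
      rw [ea, ea, ea]
      simpa using this
    · intro v w k1 k2 k3 k4 k5 k6
      rw [ea]
      exact hI (e.symm v) (e.symm w) (fun h => k1 (by rw [← h]; simp)) (fun h => k2 (by rw [← h]; simp))
        (fun h => k3 (by rw [← h]; simp)) (fun h => k4 (by rw [← h]; simp)) (fun h => k5 (by rw [← h]; simp))
        (fun h => k6 (by rw [← h]; simp))

theorem GoodM.tame {V : Type} [Fintype V] {R : SimpleGraph V} (h : GoodM R) : Tame R 3 := by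
  obtain ⟨hc, h⟩ := h
  rcases h with ⟨h1, h2⟩ | ⟨x1, x2, x3, h12, n13, n23, d13, d23, hJ, hI⟩
  · refine ⟨∅, by simp, ?_⟩
    intro x hx
    right
    intro a _ b _ c _ d _ hac had hbd hab hbc hcd
    by_contra hcon
    push Not at hcon
    exact h1 c a d (fun k => hcon.1 k.symm) hcon.2.1 hcd
  · refine ⟨{x1, x2, x3}, card_le_three, ?_⟩
    intro x hx
    left
    intro y hy
    have hy' := cpt_subset hy
    have : (univ \ {x1, x2, x3} : Finset V).filter (fun z => R.Adj y z) = ∅ := by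
      rw [filter_eq_empty_iff]
      intro z hz
      simp only [mem_sdiff, mem_univ, true_and, mem_insert, mem_singleton, not_or] at hz hy'
      exact hI y z hy'.1 hy'.2.1 hy'.2.2 hz.1 hz.2.1 hz.2.2
    rw [this]
    simp

end Pool.Agent.H175R2
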