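import Pool.Agent.H175R2.XGood
import Pool.Agent.H175R2.XC

/-! State machine for quotients: checks and soundness. -/

namespace Pool.Agent.H175R2

open Finset Classical

variable {V : Type} [Fintype V] {G : SimpleGraph V}

/-- adjacency matrix from the bits of a number -/
def bM (m N i j : ℕ) : ℕ := tb N (m * i + j)

def isoChk (m : ℕ) (M M' : ℕ → ℕ → ℕ) (P : ℕ) : Bool :=
  allN m (fun i => Nat.blt (dg P i) m && allN m (fun j => (i == j) ||
    (!(dg P i == dg P j) && (M (dg P i) (dg P j) == M' i j))))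

theorem isoChk_sound {m : ℕ} {M M' : ℕ → ℕ → ℕ} {P : ℕ} (h : isoChk m M M' P = true)
    {B : Fin m → Finset V} (pq : PQ G (fun i j : Fin m => M i j) B) :
    ∃ B' : Fin m → Finset V, PQ G (fun i j : Fin m => M' i j) B' := by
  simp only [isoChk, Bool.and_eq_true, allN_iff, Bool.or_eq_true, beq_iff_eq, Bool.not_eq_true',
    Nat.blt_eq, beq_eq_false_iff_ne] at h
  let σ : Fin m → Fin m := fun i => ⟨dg P i, (h i i.2).1⟩
  have hinj : Function.Injective σ := by
    intro i j hij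
    by_contra hne
    have hne' : i.val ≠ j.val := fun hh => hne (Fin.ext hh)
    rcases (h i i.2).2 j j.2 with h1 | h1
    · exact hne' h1
    · exact h1.1 (congrArg Fin.val hij)
  have hsurj : Function.Surjective σ := Finite.injective_iff_surjective.1 hinj
  have hM : ∀ i j : Fin m, i ≠ j → M (σ i) (σ j) = M' i j := by
    intro i j hne
    have hne' : i.val ≠ j.val := fun hh => hne (Fin.ext hh)
    rcases (h i i.2).2 j j.2 with h1 | h1
    · exact absurd h1 hne'
    · exact h1.2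
  refine ⟨fun i => B (σ i), fun i => pq.cn _, fun i j hij => pq.disj _ _ (fun h => hij (hinj h)), ?_, ?_, ?_⟩
  · intro v
    obtain ⟨i, hi⟩ := pq.cover v
    obtain ⟨j, rfl⟩ := hsurj i
    exact ⟨j, hi⟩
  · intro i j hij h1
    exact pq.yes _ _ (fun h => hij (hinj h)) ((hM i j hij).trans h1)
  · intro i j hij h1
    exact pq.no _ _ (fun h => hij (hinj h)) ((hM i j hij).trans h1)

/-- at least two bits among the first `m` -/
def two (m α : ℕ) : Bool := anyN m (fun i => anyN i (fun j => α.testBit i && α.testBit j))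

/-- adjacency in a matrix -/
def adj (M : ℕ → ℕ → ℕ) (i j : ℕ) : Bool := !(i == j) && (M i j == 1)

/-- complete multipartite, minimum degree three -/
def multChk (m : ℕ) (M : ℕ → ℕ → ℕ) : Bool :=
  allN m (fun i => allN m (fun j => (M i j == 1) || (M i j == 0) || (i == j))) &&
  (allN m (fun x => allN m (fun y => allN m (fun z => adj M x y || adj M y z || !(adj M x z)))) &&
  allN m (fun x => anyN m (fun i => anyN i (fun j => anyN j (fun k => adj M x i && (adj M x j && adj M x k))))))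

/-- labels of bag `k` -/
noncomputable def Lk {m : ℕ} (B : Fin m → Finset V) (k : Fin m) : Fin m → Finset V :=
  fun i => if i = k then ∅ else B i

omit [Fintype V] in
lemma not_tc_empty {X : Finset V} : ¬ Tc G X ∅ := by
  rintro ⟨x, _, y, hy, _⟩; simp at hy

omit [Fintype V] in
lemma mem_labk {m : ℕ} {B : Fin m → Finset V} {k : Fin m} {X : Finset V} {i : Fin m} :
    i ∈ lab G (Lk B k) X ↔ i ≠ k ∧ Tc G X (B i) := by
  rw [mem_lab, Lk]
  by_cases h : i = k
  · simp [h, not_tc_empty]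
  · simp [h]

omit [Fintype V] in
lemma lbl_testBit_lab {m : ℕ} {B : Fin m → Finset V} {k : Fin m} {X : Finset V} (i : Fin m) :
    (lbl G B k X).testBit i = true ↔ i ∈ lab G (Lk B k) X := by
  rw [lbl_testBit, mem_labk]

omit [Fintype V] in
lemma two_of_card {m : ℕ} {B : Fin m → Finset V} {k : Fin m} {X : Finset V}
    (h : 2 ≤ (lab G (Lk B k) X).card) : two m (lbl G B k X) = true := by
  obtain ⟨i, hi, j, hj, hij⟩ := one_lt_card.1 (show 1 < (lab G (Lk B k) X).card by omega)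
  simp only [two, anyN_iff, Bool.and_eq_true]
  rcases lt_trichotomy i.val j.val with h | h | h
  · exact ⟨j, j.2, i, h, (lbl_testBit_lab j).2 hj, (lbl_testBit_lab i).2 hi⟩
  · exact absurd (Fin.ext h) hij
  · exact ⟨i, i.2, j, h, (lbl_testBit_lab i).2 hi, (lbl_testBit_lab j).2 hj⟩

/-- check of bag `k` -/
def bagChk (m : ℕ) (M : ℕ → ℕ → ℕ) (k N : ℕ) (certs : List (ℕ × ℕ × ℕ)) (isos : List (ℕ × ℕ)) : Bool :=
  Nat.blt N (2 ^ m) && (allN m (fun i => tb N i == if i = k then 0 else M k i) &&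
  allN (2 ^ m) (fun α => (!(α ||| N == N)) || (!(two m α)) || allN (2 ^ m) (fun β => (!(α ||| β == N)) ||
    (!(two m β)) ||
    certs.any (fun c => chkN (m + 1) 5 (spM m k α β M) x5N c.1 c.2.1 c.2.2) ||
    (Nat.ble 5 m && multChk (m + 1) (spM m k α β M)) ||
    isos.any (fun c => isoChk (m + 1) (spM m k α β M) (bM (m + 1) c.1) c.2))))

theorem bagChk_sound {m : ℕ} {M : ℕ → ℕ → ℕ} {B : Fin m → Finset V}
    (pq : PQ G (fun i j : Fin m => M i j) B) {k : Fin m} {N : ℕ}
    {certs : List (ℕ × ℕ × ℕ)} {isos : List (ℕ × ℕ)} (h : bagChk m M k N certs isos = true)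
    {X Y : Finset V} (s : Split G (B k) X Y) (hX : 2 ≤ (lab G (Lk B k) X).card)
    (hY : 2 ≤ (lab G (Lk B k) Y).card) :
    HasC G x5T ∨
    (∃ (M' : ℕ → ℕ → ℕ) (B' : Fin (m + 1) → Finset V), PQ G (fun i j : Fin (m + 1) => M' i j) B' ∧
      5 ≤ m ∧ multChk (m + 1) M' = true) ∨
    ∃ c ∈ isos, ∃ B' : Fin (m + 1) → Finset V, PQ G (fun i j : Fin (m + 1) => bM (m + 1) c.1 i j) B' := by
  simp only [bagChk, Bool.and_eq_true, allN_iff, Bool.or_eq_true, beq_iff_eq, Bool.not_eq_true',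
    Nat.blt_eq, beq_eq_false_iff_ne] at h
  obtain ⟨hN, hbit, hall⟩ := h
  have hor := lbl_or pq k s hN hbit
  have hα : lbl G B k X ||| N = N := by rw [← hor, ← Nat.or_assoc, Nat.or_self]
  have tX := two_of_card hX
  have tY := two_of_card hY
  have pq' := pq.split k s (lbl G B k X) (lbl G B k Y) (fun i hi => lbl_testBit' i hi)
    (fun i hi => lbl_testBit' i hi)
  rcases hall _ (lbl_lt (G := G) (B := B) (k := k) (X := X)) with (h | h) | h
  · exact absurd hα h
  · rw [tX] at h; exact absurd h (by simp)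
  rcases h _ (lbl_lt (G := G) (B := B) (k := k) (X := Y)) with (((h | h) | h) | h) | h
  · exact absurd hor h
  · rw [tY] at h; exact absurd h (by simp)
  · left
    rw [List.any_eq_true] at h
    obtain ⟨c, _, hc⟩ := h
    exact hasC_of_chkN pq' hc
  · right; left
    exact ⟨_, _, pq', Nat.le_of_ble_eq_true h.1, h.2⟩
  · right; right
    rw [List.any_eq_true] at h
    obtain ⟨c, hc, hc'⟩ := h
    exact ⟨c, hc, isoChk_sound hc' pq'⟩

/-- matrix after replacing bag `k` by a triangle with labels `i0`, `i1`, `i2` -/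
def trM (m k i0 i1 i2 : ℕ) (M : ℕ → ℕ → ℕ) : ℕ → ℕ → ℕ :=
  spM (m + 1) m (2 ^ i1 ||| 2 ^ k) (2 ^ i2 ||| 2 ^ k) (spM m k (2 ^ i0) (2 ^ i1 ||| 2 ^ i2) M)

def triChk (m : ℕ) (M : ℕ → ℕ → ℕ) (k N : ℕ) (certs : List (ℕ × ℕ × ℕ)) (isos : List (ℕ × ℕ)) : Bool :=
  Nat.blt N (2 ^ m) && (allN m (fun i => tb N i == if i = k then 0 else M k i) &&
  allN m (fun i0 => allN m (fun i1 => allN m (fun i2 => (!(2 ^ i0 ||| (2 ^ i1 ||| 2 ^ i2) == N)) ||
    (i0 == i1) || (i0 == i2) || (i1 == i2) ||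
    certs.any (fun c => chkN (m + 2) 5 (trM m k i0 i1 i2 M) x5N c.1 c.2.1 c.2.2) ||
    isos.any (fun c => isoChk (m + 2) (trM m k i0 i1 i2 M) (bM (m + 2) c.1) c.2)))))

theorem triChk_sound {m : ℕ} {M : ℕ → ℕ → ℕ} {B : Fin m → Finset V}
    (pq : PQ G (fun i j : Fin m => M i j) B) {k : Fin m} {N : ℕ}
    {certs : List (ℕ × ℕ × ℕ)} {isos : List (ℕ × ℕ)} (h : triChk m M k N certs isos = true)
    {T0 T1 T2 : Finset V} {i0 i1 i2 : Fin m} (c0 : Cn G T0) (c1 : Cn G T1) (c2 : Cn G T2)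
    (t01 : Tc G T0 T1) (t02 : Tc G T0 T2) (t12 : Tc G T1 T2) (d01 : Disjoint T0 T1)
    (d02 : Disjoint T0 T2) (d12 : Disjoint T1 T2) (hu : T0 ∪ T1 ∪ T2 = B k)
    (l0 : lab G (Lk B k) T0 = {i0}) (l1 : lab G (Lk B k) T1 = {i1}) (l2 : lab G (Lk B k) T2 = {i2})
    (n01 : i0 ≠ i1) (n02 : i0 ≠ i2) (n12 : i1 ≠ i2) :
    HasC G x5T ∨
    ∃ c ∈ isos, ∃ B' : Fin (m + 2) → Finset V, PQ G (fun i j : Fin (m + 2) => bM (m + 2) c.1 i j) B' := by
  have hT : ∀ {T : Finset V} {j : Fin m}, lab G (Lk B k) T = {j} → ∀ i : Fin m, i ≠ k →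
      (i = j ↔ Tc G T (B i)) := by
    intro T j hl i hi
    have := mem_labk (G := G) (B := B) (k := k) (X := T) (i := i)
    rw [hl, mem_singleton] at this
    rw [this]
    simp [hi]
  have hjk : ∀ {T : Finset V} {j : Fin m}, lab G (Lk B k) T = {j} → j ≠ k := by
    intro T j hl
    have : j ∈ lab G (Lk B k) T := by rw [hl]; simp
    exact (mem_labk.1 this).1
  have h0k := hjk l0
  have h1k := hjk l1
  have h2k := hjk l2
  have c12 : Cn G (T1 ∪ T2) := c1.union c2 (Or.inl t12)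
  have s : Split G (B k) T0 (T1 ∪ T2) := ⟨c0, c12, by rw [← hu, union_assoc], by
    rw [disjoint_union_right]; exact ⟨d01, d02⟩⟩
  have tb2 : ∀ (j i : ℕ), (2 ^ j).testBit i = true ↔ i = j := by
    intro j i
    rw [Nat.testBit_two_pow]
    constructor
    · intro h; exact (by simpa using h : j = i).symm
    · rintro rfl; simp
  have hα : ∀ i : Fin m, i ≠ k → ((2 ^ i0.val).testBit i = true ↔ Tc G T0 (B i)) := by
    intro i hi
    rw [tb2, ← hT l0 i hi, Fin.ext_iff]
  have hβ : ∀ i : Fin m, i ≠ k → ((2 ^ i1.val ||| 2 ^ i2.val).testBit i = true ↔ Tc G (T1 ∪ T2) (B i)) := by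
    intro i hi
    rw [Nat.testBit_or, Bool.or_eq_true, tb2, tb2, Tc.union_left, ← hT l1 i hi, ← hT l2 i hi,
      Fin.ext_iff, Fin.ext_iff]
  have pq1 := pq.split k s _ _ hα hβ
  have hBm : spB B k T0 (T1 ∪ T2) (Fin.last m) = T1 ∪ T2 := by simp [spB]
  have s' : Split G (spB B k T0 (T1 ∪ T2) (Fin.last m)) T1 T2 := by
    rw [hBm]; exact ⟨c1, c2, rfl, d12⟩
  have key : ∀ (i : Fin (m + 1)), i ≠ Fin.last m → ∀ (T : Finset V) (j : Fin m), lab G (Lk B k) T = {j} →
      Tc G T T0 → ((2 ^ j.val ||| 2 ^ k.val).testBit i = true ↔ Tc G T (spB B k T0 (T1 ∪ T2) i)) := by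
    intro i hi T j hl ht
    have him : i.val < m := by
      have := i.2
      have h' : i.val ≠ m := fun h => hi (Fin.ext h)
      omega
    rw [Nat.testBit_or, Bool.or_eq_true, tb2, tb2]
    by_cases hik : i.val = k.val
    · have : spB B k T0 (T1 ∪ T2) i = T0 := by simp [spB, hik]
      rw [this]
      simp [hik, ht]
    · have : spB B k T0 (T1 ∪ T2) i = B ⟨i, him⟩ := by simp [spB, him, hik]
      rw [this, ← hT hl ⟨i, him⟩ (fun h => hik (congrArg Fin.val h)), Fin.ext_iff]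
      simp [hik]
  have pq2 := PQ.split (M := spM m k (2 ^ i0.val) (2 ^ i1.val ||| 2 ^ i2.val) M) pq1 (Fin.last m) s'
    (2 ^ i1.val ||| 2 ^ k.val) (2 ^ i2.val ||| 2 ^ k.val)
    (fun i hi => key i hi T1 i1 l1 t01.symm) (fun i hi => key i hi T2 i2 l2 t02.symm)
  simp only [triChk, Bool.and_eq_true, allN_iff, Bool.or_eq_true, beq_iff_eq, Bool.not_eq_true',
    Nat.blt_eq, beq_eq_false_iff_ne] at h
  obtain ⟨hN, hbit, hall⟩ := h
  have hor : 2 ^ i0.val ||| (2 ^ i1.val ||| 2 ^ i2.val) = N := by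
    rw [← lbl_or pq k s hN hbit]
    apply Nat.eq_of_testBit_eq
    intro i
    simp only [Nat.testBit_or]
    by_cases hi : i < m
    · by_cases hik : i = k.val
      · have e1 : ∀ X, (lbl G B k X).testBit i = false := by
          intro X
          by_contra hc
          rw [Bool.not_eq_false] at hc
          exact ((lbl_testBit (⟨i, hi⟩ : Fin m)).1 hc).1 (Fin.ext hik)
        have e2 : ∀ j : Fin m, j ≠ k → (2 ^ j.val).testBit i = false := by
          intro j hj
          by_contra hc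
          rw [Bool.not_eq_false, tb2] at hc
          exact hj (Fin.ext (hc.symm.trans hik))
        rw [e1, e1, e2 _ h0k, e2 _ h1k, e2 _ h2k]
        rfl
      · have hne : (⟨i, hi⟩ : Fin m) ≠ k := fun h => hik (congrArg Fin.val h)
        have e1 := (hα ⟨i, hi⟩ hne).trans (lbl_testBit' (G := G) (B := B) (k := k) (X := T0) ⟨i, hi⟩ hne).symm
        have e2 := (hβ ⟨i, hi⟩ hne).trans (lbl_testBit' (G := G) (B := B) (k := k) (X := T1 ∪ T2) ⟨i, hi⟩ hne).symm
        rw [Nat.testBit_or] at e2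
        simp only at e1 e2
        rw [Bool.eq_iff_iff, Bool.or_eq_true, e1, e2]
        simp
    · have big : ∀ n, n < 2 ^ m → n.testBit i = false := fun n hn =>
        Nat.testBit_lt_two_pow (lt_of_lt_of_le hn (Nat.pow_le_pow_right (by omega) (by omega)))
      have e2 : ∀ j : Fin m, (2 ^ j.val).testBit i = false := by
        intro j
        apply big
        exact Nat.pow_lt_pow_right (by omega) j.2
      rw [big _ lbl_lt, big _ lbl_lt, e2, e2, e2]
      rfl
  rcases hall i0 i0.2 i1 i1.2 i2 i2.2 with ((((h | h) | h) | h) | h) | h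
  · exact absurd hor h
  · exact absurd (Fin.ext h) n01
  · exact absurd (Fin.ext h) n02
  · exact absurd (Fin.ext h) n12
  · left
    rw [List.any_eq_true] at h
    obtain ⟨c, _, hc⟩ := h
    exact hasC_of_chkN pq2 hc
  · right
    rw [List.any_eq_true] at h
    obtain ⟨c, hc, hc'⟩ := h
    exact ⟨c, hc, isoChk_sound hc' pq2⟩

/-- adjacency of the quotient graph -/
lemma PQ.qg_adj {m : ℕ} {M : ℕ → ℕ → ℕ} {B : Fin m → Finset V}
    (pq : PQ G (fun i j : Fin m => M i j) B) (h01 : ∀ i j : Fin m, i ≠ j → M i j = 1 ∨ M i j = 0)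
    (i j : Fin m) : (qg G B).Adj i j ↔ adj M i j = true := by
  simp only [qg, adj, Bool.and_eq_true, Bool.not_eq_true', beq_eq_false_iff_ne, beq_iff_eq]
  constructor
  · rintro ⟨hne, ht⟩
    refine ⟨fun h => hne (Fin.ext h), ?_⟩
    rcases h01 i j hne with h | h
    · exact h
    · exact absurd ht (pq.no i j hne h)
  · rintro ⟨hne, h⟩
    have hne' : i ≠ j := fun h' => hne (congrArg Fin.val h')
    exact ⟨hne', pq.yes i j hne' h⟩

end Pool.Agent.H175R2
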