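import Pool.Agent.H175R2.XState

/-! Certificates for the state machine. -/

set_option maxRecDepth 100000

namespace Pool.Agent.H175R2

def K4N : ℕ := 0x7bde
def K5N : ℕ := 0xfbefbe
def K5eN : ℕ := 0xfbef9c
def W4N : ℕ := 0xf9cf9c
def prismN : ℕ := 0x72ac6354e
def co2P3N : ℕ := 0x3c79f9e3c
def W5N : ℕ := 0x7e9d2a972
def K33eN : ℕ := 0x1c71f8e7a

def K4_c0 : List (ℕ × ℕ × ℕ) := []
def K4_i0 : List (ℕ × ℕ) := [(0xf9cf9c, 0x14230), (0xf9cf9c, 0x24130), (0xfbef9c, 0x42130), (0xf9cf9c, 0x14320), (0xf9cf9c, 0x34120), (0xfbef9c, 0x43120), (0xf9cf9c, 0x24310), (0xf9cf9c, 0x34210), (0xfbef9c, 0x43210), (0xfbef9c, 0x21043), (0xfbef9c, 0x31042), (0xfbef9c, 0x32041), (0xfbefbe, 0x43210)]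
theorem K4_b0 : bagChk 4 (bM 4 K4N) 0 0xe K4_c0 K4_i0 = true := by decide +kernel
theorem K4_t0 : triChk 4 (bM 4 K4N) 0 0xe [] [(0x72ac6354e, 0x321540), (0x72ac6354e, 0x231540), (0x72ac6354e, 0x312540), (0x72ac6354e, 0x132540), (0x72ac6354e, 0x213540), (0x72ac6354e, 0x123540)] = true := by decide +kernel
def K4_c1 : List (ℕ × ℕ × ℕ) := []
def K4_i1 : List (ℕ × ℕ) := [(0xf9cf9c, 0x4231), (0xf9cf9c, 0x23140), (0xfbef9c, 0x42031), (0xf9cf9c, 0x4321), (0xf9cf9c, 0x32140), (0xfbef9c, 0x43021), (0xf9cf9c, 0x24310), (0xf9cf9c, 0x34210), (0xfbef9c, 0x43210), (0xfbef9c, 0x21043), (0xfbef9c, 0x31042), (0xfbef9c, 0x32140), (0xfbefbe, 0x43210)]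
theorem K4_b1 : bagChk 4 (bM 4 K4N) 1 0xd K4_c1 K4_i1 = true := by decide +kernel
theorem K4_t1 : triChk 4 (bM 4 K4N) 1 0xd [] [(0x72ac6354e, 0x541320), (0x72ac6354e, 0x451320), (0x72ac6354e, 0x514320), (0x72ac6354e, 0x415320), (0x72ac6354e, 0x154320), (0x72ac6354e, 0x145320)] = true := by decide +kernel
def K4_c2 : List (ℕ × ℕ × ℕ) := []
def K4_i2 : List (ℕ × ℕ) := [(0xf9cf9c, 0x3241), (0xf9cf9c, 0x13240), (0xfbef9c, 0x41032), (0xf9cf9c, 0x4321), (0xf9cf9c, 0x32140), (0xfbef9c, 0x43021), (0xf9cf9c, 0x14320), (0xf9cf9c, 0x34120), (0xfbef9c, 0x43120), (0xfbef9c, 0x21043), (0xfbef9c, 0x32041), (0xfbef9c, 0x32140), (0xfbefbe, 0x43210)]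
theorem K4_b2 : bagChk 4 (bM 4 K4N) 2 0xb K4_c2 K4_i2 = true := by decide +kernel
theorem K4_t2 : triChk 4 (bM 4 K4N) 2 0xb [] [(0x72ac6354e, 0x542310), (0x72ac6354e, 0x452310), (0x72ac6354e, 0x524310), (0x72ac6354e, 0x425310), (0x72ac6354e, 0x254310), (0x72ac6354e, 0x245310)] = true := by decide +kernel
def K4_c3 : List (ℕ × ℕ × ℕ) := []
def K4_i3 : List (ℕ × ℕ) := [(0xf9cf9c, 0x3241), (0xf9cf9c, 0x13240), (0xfbef9c, 0x41032), (0xf9cf9c, 0x4231), (0xf9cf9c, 0x23140), (0xfbef9c, 0x42031), (0xf9cf9c, 0x14230), (0xf9cf9c, 0x24130), (0xfbef9c, 0x42130), (0xfbef9c, 0x31042), (0xfbef9c, 0x32041), (0xfbef9c, 0x32140), (0xfbefbe, 0x43210)]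
theorem K4_b3 : bagChk 4 (bM 4 K4N) 3 0x7 K4_c3 K4_i3 = true := by decide +kernel
theorem K4_t3 : triChk 4 (bM 4 K4N) 3 0x7 [] [(0x72ac6354e, 0x543210), (0x72ac6354e, 0x453210), (0x72ac6354e, 0x534210), (0x72ac6354e, 0x435210), (0x72ac6354e, 0x354210), (0x72ac6354e, 0x345210)] = true := by decide +kernel

def K5_c0 : List (ℕ × ℕ × ℕ) := [(0x433201, 0x533210, 0x53201), (0x432301, 0x523210, 0x52301), (0x420331, 0x543110, 0x51403), (0x120443, 0x543110, 0x10453), (0x423301, 0x542210, 0x52401), (0x142043, 0x513210, 0x10352), (0x124403, 0x542210, 0x20451), (0x144203, 0x533210, 0x30251), (0x423031, 0x541210, 0x51402), (0x142403, 0x523210, 0x20351), (0x432031, 0x513210, 0x51302), (0x124043, 0x541210, 0x10452)]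
def K5_i0 : List (ℕ × ℕ) := [(0x3c79f9e3c, 0x403251), (0x3c79f9e3c, 0x402351), (0x3c79f9e3c, 0x352401), (0x3c79f9e3c, 0x302451), (0x3c79f9e3c, 0x452301), (0x3c79f9e3c, 0x453201)]
theorem K5_b0 : bagChk 5 (bM 5 K5N) 0 0x1e K5_c0 K5_i0 = true := by decide +kernel
theorem K5_t0 : triChk 5 (bM 5 K5N) 0 0x1e [] [] = true := by decide +kernel
def K5_c1 : List (ℕ × ℕ × ℕ) := [(0x132043, 0x503210, 0x10352), (0x142430, 0x523210, 0x21350), (0x123043, 0x540210, 0x10452), (0x432310, 0x523210, 0x52310), (0x423310, 0x542210, 0x52410), (0x420313, 0x543010, 0x50413), (0x423013, 0x540210, 0x50412), (0x124430, 0x542210, 0x21450), (0x433210, 0x533210, 0x53210), (0x432013, 0x503210, 0x50312), (0x144230, 0x533210, 0x31250), (0x120343, 0x543010, 0x10453)]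
def K5_i1 : List (ℕ × ℕ) := [(0x3c79f9e3c, 0x413250), (0x3c79f9e3c, 0x412350), (0x3c79f9e3c, 0x352410), (0x3c79f9e3c, 0x312450), (0x3c79f9e3c, 0x452310), (0x3c79f9e3c, 0x453210)]
theorem K5_b1 : bagChk 5 (bM 5 K5N) 1 0x1d K5_c1 K5_i1 = true := by decide +kernel
theorem K5_t1 : triChk 5 (bM 5 K5N) 1 0x1d [] [] = true := by decide +kernel
def K5_c2 : List (ℕ × ℕ × ℕ) := [(0x433120, 0x533210, 0x53120), (0x420133, 0x543200, 0x50423), (0x123403, 0x540210, 0x20451), (0x123430, 0x541210, 0x21450), (0x423103, 0x540210, 0x50421), (0x132403, 0x503210, 0x20351), (0x432103, 0x503210, 0x50321), (0x144320, 0x533210, 0x32150), (0x423130, 0x541210, 0x51420), (0x120433, 0x543200, 0x20453), (0x132430, 0x513210, 0x21350), (0x432130, 0x513210, 0x51320)]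
def K5_i2 : List (ℕ × ℕ) := [(0x3c79f9e3c, 0x423150), (0x3c79f9e3c, 0x421350), (0x3c79f9e3c, 0x351420), (0x3c79f9e3c, 0x321450), (0x3c79f9e3c, 0x451320), (0x3c79f9e3c, 0x453120)]
theorem K5_b2 : bagChk 5 (bM 5 K5N) 2 0x1b K5_c2 K5_i2 = true := by decide +kernel
theorem K5_t2 : triChk 5 (bM 5 K5N) 2 0x1b [] [] = true := by decide +kernel
def K5_c3 : List (ℕ × ℕ × ℕ) := [(0x134203, 0x503210, 0x30251), (0x431230, 0x513210, 0x51230), (0x421330, 0x543110, 0x51430), (0x124303, 0x543010, 0x30451), (0x134320, 0x523210, 0x32150), (0x431320, 0x523210, 0x52130), (0x124330, 0x543110, 0x31450), (0x421033, 0x543200, 0x50432), (0x421303, 0x543010, 0x50431), (0x431203, 0x503210, 0x50231), (0x124033, 0x543200, 0x30452), (0x134230, 0x513210, 0x31250)]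
def K5_i3 : List (ℕ × ℕ) := [(0x3c79f9e3c, 0x432150), (0x3c79f9e3c, 0x431250), (0x3c79f9e3c, 0x251430), (0x3c79f9e3c, 0x231450), (0x3c79f9e3c, 0x451230), (0x3c79f9e3c, 0x452130)]
theorem K5_b3 : bagChk 5 (bM 5 K5N) 3 0x17 K5_c3 K5_i3 = true := by decide +kernel
theorem K5_t3 : triChk 5 (bM 5 K5N) 3 0x17 [] [] = true := by decide +kernel
def K5_c4 : List (ℕ × ℕ × ℕ) := [(0x412330, 0x543110, 0x51340), (0x413320, 0x542210, 0x52140), (0x412033, 0x543200, 0x50342), (0x413203, 0x540210, 0x50241), (0x142303, 0x543010, 0x40351), (0x413230, 0x541210, 0x51240), (0x143230, 0x541210, 0x41250), (0x142033, 0x543200, 0x40352), (0x143203, 0x540210, 0x40251), (0x412303, 0x543010, 0x50341), (0x143320, 0x542210, 0x42150), (0x142330, 0x543110, 0x41350)]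
def K5_i4 : List (ℕ × ℕ) := [(0x3c79f9e3c, 0x342150), (0x3c79f9e3c, 0x341250), (0x3c79f9e3c, 0x251340), (0x3c79f9e3c, 0x241350), (0x3c79f9e3c, 0x351240), (0x3c79f9e3c, 0x352140)]
theorem K5_b4 : bagChk 5 (bM 5 K5N) 4 0xf K5_c4 K5_i4 = true := by decide +kernel
theorem K5_t4 : triChk 5 (bM 5 K5N) 4 0xf [] [] = true := by decide +kernel

def K5e_c0 : List (ℕ × ℕ × ℕ) := [(0x243310, 0x542210, 0x42510), (0x244310, 0x533210, 0x32510), (0x234310, 0x523210, 0x32510)]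
def K5e_i0 : List (ℕ × ℕ) := []
theorem K5e_b0 : bagChk 5 (bM 5 K5eN) 0 0x1c K5e_c0 K5e_i0 = true := by decide +kernel
theorem K5e_t0 : triChk 5 (bM 5 K5eN) 0 0x1c [(0x2034413, 0x6502210, 0x20615), (0x2044313, 0x6533010, 0x30615), (0x2043413, 0x6520210, 0x20615)] [] = true := by decide +kernel
def K5e_c1 : List (ℕ × ℕ × ℕ) := [(0x243301, 0x542210, 0x42501), (0x244301, 0x533210, 0x32501), (0x234301, 0x523210, 0x32501)]
def K5e_i1 : List (ℕ × ℕ) := []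
theorem K5e_b1 : bagChk 5 (bM 5 K5eN) 1 0x1c K5e_c1 K5e_i1 = true := by decide +kernel
theorem K5e_t1 : triChk 5 (bM 5 K5eN) 1 0x1c [(0x2034431, 0x6512210, 0x21605), (0x2044331, 0x6533110, 0x31605), (0x2043431, 0x6521210, 0x21605)] [] = true := by decide +kernel
def K5e_c2 : List (ℕ × ℕ × ℕ) := [(0x343201, 0x343210, 0x43201), (0x234301, 0x523210, 0x32501), (0x244310, 0x533210, 0x32510), (0x443210, 0x443210, 0x43210), (0x443201, 0x443210, 0x43201), (0x433210, 0x533210, 0x53210), (0x243301, 0x542210, 0x42501), (0x320143, 0x43210, 0x10423), (0x120343, 0x543010, 0x10453)]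
def K5e_i2 : List (ℕ × ℕ) := [(0x1c71f8e7a, 0x510243), (0x3c79f9e3c, 0x423510), (0x3c79f9e3c, 0x423501), (0x1c71f8e7a, 0x210543), (0x3c79f9e3c, 0x453210), (0x3c79f9e3c, 0x453201)]
theorem K5e_b2 : bagChk 5 (bM 5 K5eN) 2 0x1b K5e_c2 K5e_i2 = true := by decide +kernel
theorem K5e_t2 : triChk 5 (bM 5 K5eN) 2 0x1b [] [] = true := by decide +kernel
def K5e_c3 : List (ℕ × ℕ × ℕ) := [(0x243310, 0x542210, 0x42510), (0x442310, 0x443210, 0x42310), (0x432301, 0x523210, 0x52301), (0x234301, 0x523210, 0x32501), (0x342310, 0x243210, 0x42310), (0x244310, 0x533210, 0x32510), (0x321043, 0x43210, 0x10432), (0x123043, 0x540210, 0x10452)]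
def K5e_i3 : List (ℕ × ℕ) := [(0x1c71f8e7a, 0x510342), (0x3c79f9e3c, 0x432510), (0x3c79f9e3c, 0x432501), (0x1c71f8e7a, 0x310542), (0x3c79f9e3c, 0x452310), (0x3c79f9e3c, 0x452301)]
theorem K5e_b3 : bagChk 5 (bM 5 K5eN) 3 0x17 K5e_c3 K5e_i3 = true := by decide +kernel
theorem K5e_t3 : triChk 5 (bM 5 K5eN) 3 0x17 [] [] = true := by decide +kernel
def K5e_c4 : List (ℕ × ℕ × ℕ) := [(0x424301, 0x343210, 0x32401), (0x234301, 0x523210, 0x32501), (0x324310, 0x243210, 0x32410), (0x243310, 0x542210, 0x42510), (0x324301, 0x243210, 0x32401), (0x423310, 0x542210, 0x52410), (0x243301, 0x542210, 0x42501), (0x132043, 0x503210, 0x10352), (0x312043, 0x43210, 0x10342)]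
def K5e_i4 : List (ℕ × ℕ) := [(0x1c71f8e7a, 0x510432), (0x3c79f9e3c, 0x342510), (0x3c79f9e3c, 0x342501), (0x1c71f8e7a, 0x410532), (0x3c79f9e3c, 0x352410), (0x3c79f9e3c, 0x352401)]
theorem K5e_b4 : bagChk 5 (bM 5 K5eN) 4 0xf K5e_c4 K5e_i4 = true := by decide +kernel
theorem K5e_t4 : triChk 5 (bM 5 K5eN) 4 0xf [] [] = true := by decide +kernel

def W4_c0 : List (ℕ × ℕ × ℕ) := [(0x244310, 0x533210, 0x32510), (0x234310, 0x523210, 0x32510)]
def W4_i0 : List (ℕ × ℕ) := [(0x7e9d2a972, 0x453120), (0x7e9d2a972, 0x452130)]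
theorem W4_b0 : bagChk 5 (bM 5 W4N) 0 0x1c W4_c0 W4_i0 = true := by decide +kernel
theorem W4_t0 : triChk 5 (bM 5 W4N) 0 0x1c [(0x2434310, 0x6323210, 0x32610), (0x2043413, 0x6520210, 0x20615), (0x4234310, 0x3523210, 0x32510)] [] = true := by decide +kernel
def W4_c1 : List (ℕ × ℕ × ℕ) := [(0x244301, 0x533210, 0x32501), (0x234301, 0x523210, 0x32501)]
def W4_i1 : List (ℕ × ℕ) := [(0x7e9d2a972, 0x435120), (0x7e9d2a972, 0x431520)]
theorem W4_b1 : bagChk 5 (bM 5 W4N) 1 0x1c W4_c1 W4_i1 = true := by decide +kernel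
theorem W4_t1 : triChk 5 (bM 5 W4N) 1 0x1c [(0x2434301, 0x6323210, 0x32601), (0x2043431, 0x6521210, 0x21605), (0x4234301, 0x3523210, 0x32501)] [] = true := by decide +kernel
def W4_c2 : List (ℕ × ℕ × ℕ) := [(0x241043, 0x513210, 0x10532), (0x231043, 0x503210, 0x10532)]
def W4_i2 : List (ℕ × ℕ) := [(0x7e9d2a972, 0x431520), (0x7e9d2a972, 0x452130)]
theorem W4_b2 : bagChk 5 (bM 5 W4N) 2 0x13 W4_c2 W4_i2 = true := by decide +kernel
theorem W4_t2 : triChk 5 (bM 5 W4N) 2 0x13 [(0x2431043, 0x6103210, 0x10632), (0x2031443, 0x6503110, 0x10635), (0x4231043, 0x1503210, 0x10532)] [] = true := by decide +kernel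
def W4_c3 : List (ℕ × ℕ × ℕ) := [(0x240143, 0x513210, 0x10523), (0x230143, 0x503210, 0x10523)]
def W4_i3 : List (ℕ × ℕ) := [(0x7e9d2a972, 0x435120), (0x7e9d2a972, 0x453120)]
theorem W4_b3 : bagChk 5 (bM 5 W4N) 3 0x13 W4_c3 W4_i3 = true := by decide +kernel
theorem W4_t3 : triChk 5 (bM 5 W4N) 3 0x13 [(0x2430143, 0x6103210, 0x10623), (0x2034143, 0x6501210, 0x10625), (0x4230143, 0x1503210, 0x10523)] [] = true := by decide +kernel
def W4_c4 : List (ℕ × ℕ × ℕ) := [(0x321043, 0x43210, 0x10432), (0x234310, 0x523210, 0x32510), (0x324310, 0x243210, 0x32410), (0x241043, 0x513210, 0x10532), (0x413230, 0x541210, 0x51240), (0x230143, 0x503210, 0x10523), (0x244301, 0x533210, 0x32501), (0x412303, 0x543010, 0x50341), (0x420143, 0x143210, 0x10423), (0x424301, 0x343210, 0x32401), (0x143230, 0x541210, 0x41250), (0x143203, 0x540210, 0x40251), (0x142303, 0x543010, 0x40351), (0x142330, 0x543110, 0x41350)]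
def W4_i4 : List (ℕ × ℕ) := [(0x1c71f8e7a, 0x432150), (0x1c71f8e7a, 0x432051), (0x72ac6354e, 0x513420), (0x72ac6354e, 0x412530), (0x1c71f8e7a, 0x510342), (0x3c79f9e3c, 0x432510), (0x3c79f9e3c, 0x432501), (0x72ac6354e, 0x512430), (0x72ac6354e, 0x413520), (0x1c71f8e7a, 0x510243), (0x3c79f9e3c, 0x423510), (0x3c79f9e3c, 0x423501), (0x1c71f8e7a, 0x410352), (0x1c71f8e7a, 0x410253), (0x1c71f8e7a, 0x532140), (0x3c79f9e3c, 0x532410), (0x3c79f9e3c, 0x523410), (0x1c71f8e7a, 0x532041), (0x3c79f9e3c, 0x532401), (0x3c79f9e3c, 0x523401)]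
theorem W4_b4 : bagChk 5 (bM 5 W4N) 4 0xf W4_c4 W4_i4 = true := by decide +kernel
theorem W4_t4 : triChk 5 (bM 5 W4N) 4 0xf [] [] = true := by decide +kernel

def prism_c0 : List (ℕ × ℕ × ℕ) := [(0x4204331, 0x3543110, 0x31504), (0x1203443, 0x6540110, 0x10564)]
def prism_i0 : List (ℕ × ℕ) := []
theorem prism_b0 : bagChk 6 (bM 6 prismN) 0 0xe prism_c0 prism_i0 = true := by decide +kernel
theorem prism_t0 : triChk 6 (bM 6 prismN) 0 0xe [(0x20133443, 0x76530110, 0x10756), (0x20414433, 0x76245200, 0x20746), (0x20144343, 0x76514010, 0x10756)] [] = true := by decide +kernel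
def prism_c1 : List (ℕ × ℕ × ℕ) := [(0x1240343, 0x6513010, 0x10563), (0x4240313, 0x4543010, 0x40513)]
def prism_i1 : List (ℕ × ℕ) := []
theorem prism_b1 : bagChk 6 (bM 6 prismN) 1 0x15 prism_c1 prism_i1 = true := by decide +kernel
theorem prism_t1 : triChk 6 (bM 6 prismN) 1 0x15 [(0x24143303, 0x74540010, 0x40751), (0x42143303, 0x46540010, 0x40651), (0x20143343, 0x76510010, 0x10756)] [] = true := by decide +kernel
def prism_c2 : List (ℕ × ℕ × ℕ) := [(0x1420433, 0x6243200, 0x20463), (0x4420133, 0x5543200, 0x50423)]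
def prism_i2 : List (ℕ × ℕ) := []
theorem prism_b2 : bagChk 6 (bM 6 prismN) 2 0x23 prism_c2 prism_i2 = true := by decide +kernel
theorem prism_t2 : triChk 6 (bM 6 prismN) 2 0x23 [(0x42413033, 0x56540200, 0x50642), (0x20413433, 0x76240200, 0x20746), (0x24413033, 0x75540200, 0x50742)] [] = true := by decide +kernel
def prism_c3 : List (ℕ × ℕ × ℕ) := [(0x1443203, 0x6440210, 0x40261), (0x3441203, 0x443210, 0x40231)]
def prism_i3 : List (ℕ × ℕ) := []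
theorem prism_b3 : bagChk 6 (bM 6 prismN) 3 0x31 prism_c3 prism_i3 = true := by decide +kernel
theorem prism_t3 : triChk 6 (bM 6 prismN) 3 0x31 [(0x20434133, 0x76313200, 0x30726), (0x24430133, 0x75513200, 0x50723), (0x42430133, 0x56513200, 0x50623)] [] = true := by decide +kernel
def prism_c4 : List (ℕ × ℕ × ℕ) := [(0x1434230, 0x6313210, 0x31260), (0x3414230, 0x1343210, 0x31240)]
def prism_i4 : List (ℕ × ℕ) := []
theorem prism_b4 : bagChk 6 (bM 6 prismN) 4 0x2a prism_c4 prism_i4 = true := by decide +kernel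
theorem prism_t4 : triChk 6 (bM 6 prismN) 4 0x2a [(0x24403133, 0x75540200, 0x50724), (0x20443133, 0x76440200, 0x40726), (0x42403133, 0x56540200, 0x50624)] [] = true := by decide +kernel
def prism_c5 : List (ℕ × ℕ × ℕ) := [(0x1344320, 0x6233210, 0x32160), (0x3144320, 0x2533210, 0x32150)]
def prism_i5 : List (ℕ × ℕ) := []
theorem prism_b5 : bagChk 6 (bM 6 prismN) 5 0x1c prism_c5 prism_i5 = true := by decide +kernel
theorem prism_t5 : triChk 6 (bM 6 prismN) 5 0x1c [(0x20443313, 0x76440010, 0x40716), (0x42043313, 0x46540010, 0x40615), (0x24043313, 0x74540010, 0x40715)] [] = true := by decide +kernel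

def co2P3_c0 : List (ℕ × ℕ × ℕ) := [(0x2434310, 0x6323210, 0x32610), (0x2014343, 0x6541010, 0x10645), (0x2301433, 0x6043250, 0x20634), (0x4123330, 0x6541310, 0x61450), (0x4312330, 0x6143510, 0x61340)]
def co2P3_i0 : List (ℕ × ℕ) := []
theorem co2P3_b0 : bagChk 6 (bM 6 co2P3N) 0 0x3c co2P3_c0 co2P3_i0 = true := by decide +kernel
theorem co2P3_t0 : triChk 6 (bM 6 co2P3N) 0 0x3c [] [] = true := by decide +kernel
def co2P3_c1 : List (ℕ × ℕ × ℕ) := [(0x1434230, 0x6313210, 0x31260), (0x4343210, 0x4343210, 0x43210)]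
def co2P3_i1 : List (ℕ × ℕ) := []
theorem co2P3_b1 : bagChk 6 (bM 6 co2P3N) 1 0x38 co2P3_c1 co2P3_i1 = true := by decide +kernel
theorem co2P3_t1 : triChk 6 (bM 6 co2P3N) 1 0x38 [(0x20434133, 0x76303240, 0x30726), (0x24343103, 0x74040210, 0x40721), (0x42343103, 0x46040210, 0x40621)] [] = true := by decide +kernel
def co2P3_c2 : List (ℕ × ℕ × ℕ) := [(0x2434013, 0x6303210, 0x30612), (0x2401443, 0x6143510, 0x10634), (0x2014343, 0x6541010, 0x10645), (0x4123033, 0x6540230, 0x60452), (0x4312033, 0x6043250, 0x60342)]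
def co2P3_i2 : List (ℕ × ℕ) := []
theorem co2P3_b2 : bagChk 6 (bM 6 co2P3N) 2 0x39 co2P3_c2 co2P3_i2 = true := by decide +kernel
theorem co2P3_t2 : triChk 6 (bM 6 co2P3N) 2 0x39 [] [] = true := by decide +kernel
def co2P3_c3 : List (ℕ × ℕ × ℕ) := [(0x2410343, 0x6143010, 0x10643), (0x3432103, 0x503210, 0x50321), (0x4432013, 0x5503210, 0x50312), (0x2013343, 0x6540010, 0x10645), (0x2310433, 0x6043250, 0x20643)]
def co2P3_i3 : List (ℕ × ℕ) := []
theorem co2P3_b3 : bagChk 6 (bM 6 co2P3N) 3 0x27 co2P3_c3 co2P3_i3 = true := by decide +kernel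
theorem co2P3_t3 : triChk 6 (bM 6 co2P3N) 3 0x27 [] [] = true := by decide +kernel
def co2P3_c4 : List (ℕ × ℕ × ℕ) := [(0x1240343, 0x6513010, 0x10563), (0x4210343, 0x1543010, 0x10543)]
def co2P3_i4 : List (ℕ × ℕ) := []
theorem co2P3_b4 : bagChk 6 (bM 6 co2P3N) 4 0x7 co2P3_c4 co2P3_i4 = true := by decide +kernel
theorem co2P3_t4 : triChk 6 (bM 6 co2P3N) 4 0x7 [(0x20143433, 0x76520230, 0x20756), (0x24103433, 0x72540230, 0x20754), (0x42103433, 0x26540230, 0x20654)] [] = true := by decide +kernel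
def co2P3_c5 : List (ℕ × ℕ × ℕ) := [(0x2014343, 0x6541010, 0x10645), (0x4234013, 0x3503210, 0x30512), (0x3124043, 0x541210, 0x10452), (0x2013343, 0x6540010, 0x10645), (0x2013433, 0x6540230, 0x20645)]
def co2P3_i5 : List (ℕ × ℕ) := []
theorem co2P3_b5 : bagChk 6 (bM 6 co2P3N) 5 0xf co2P3_c5 co2P3_i5 = true := by decide +kernel
theorem co2P3_t5 : triChk 6 (bM 6 co2P3N) 5 0xf [] [] = true := by decide +kernel

def sts (m : ℕ) : List ℕ := if m = 4 then [K4N] else if m = 5 then [K5N, K5eN, W4N] else if m = 6 then [prismN, co2P3N] else []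

def tgt (m : ℕ) : List ℕ := if m = 4 then [K5N, K5eN, W4N] else if m = 5 then [prismN, co2P3N, W5N, K33eN] else []

def BagOk (m N : ℕ) (k : Fin m) : Prop := ∃ row certs isos, bagChk m (bM m N) k row certs isos = true ∧ ∀ c ∈ isos, c.1 ∈ tgt m

def TriOk (m N : ℕ) (k : Fin m) : Prop := ∃ row certs isos, triChk m (bM m N) k row certs isos = true ∧ ∀ c ∈ isos, m = 4 ∧ c.1 = prismN

def DegOk (m N : ℕ) (k : Fin m) : Prop := ∃ i0 i1 i2 : Fin m, i0 ≠ k ∧ i1 ≠ k ∧ i2 ≠ k ∧ i0 ≠ i1 ∧ i0 ≠ i2 ∧ i1 ≠ i2 ∧ bM m N k i0 = 1 ∧ bM m N k i1 = 1 ∧ bM m N k i2 = 1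

instance (m N : ℕ) (k : Fin m) : Decidable (DegOk m N k) := by unfold DegOk; infer_instance

theorem K4_ok (k : Fin 4) : BagOk 4 K4N k ∧ TriOk 4 K4N k := by
  fin_cases k
  · exact ⟨⟨_, _, _, K4_b0, by decide⟩, ⟨_, _, _, K4_t0, by decide⟩⟩
  · exact ⟨⟨_, _, _, K4_b1, by decide⟩, ⟨_, _, _, K4_t1, by decide⟩⟩
  · exact ⟨⟨_, _, _, K4_b2, by decide⟩, ⟨_, _, _, K4_t2, by decide⟩⟩
  · exact ⟨⟨_, _, _, K4_b3, by decide⟩, ⟨_, _, _, K4_t3, by decide⟩⟩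

theorem K5_ok (k : Fin 5) : BagOk 5 K5N k ∧ TriOk 5 K5N k := by
  fin_cases k
  · exact ⟨⟨_, _, _, K5_b0, by decide⟩, ⟨_, _, _, K5_t0, by decide⟩⟩
  · exact ⟨⟨_, _, _, K5_b1, by decide⟩, ⟨_, _, _, K5_t1, by decide⟩⟩
  · exact ⟨⟨_, _, _, K5_b2, by decide⟩, ⟨_, _, _, K5_t2, by decide⟩⟩
  · exact ⟨⟨_, _, _, K5_b3, by decide⟩, ⟨_, _, _, K5_t3, by decide⟩⟩
  · exact ⟨⟨_, _, _, K5_b4, by decide⟩, ⟨_, _, _, K5_t4, by decide⟩⟩

theorem K5e_ok (k : Fin 5) : BagOk 5 K5eN k ∧ TriOk 5 K5eN k := by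
  fin_cases k
  · exact ⟨⟨_, _, _, K5e_b0, by decide⟩, ⟨_, _, _, K5e_t0, by decide⟩⟩
  · exact ⟨⟨_, _, _, K5e_b1, by decide⟩, ⟨_, _, _, K5e_t1, by decide⟩⟩
  · exact ⟨⟨_, _, _, K5e_b2, by decide⟩, ⟨_, _, _, K5e_t2, by decide⟩⟩
  · exact ⟨⟨_, _, _, K5e_b3, by decide⟩, ⟨_, _, _, K5e_t3, by decide⟩⟩
  · exact ⟨⟨_, _, _, K5e_b4, by decide⟩, ⟨_, _, _, K5e_t4, by decide⟩⟩

theorem W4_ok (k : Fin 5) : BagOk 5 W4N k ∧ TriOk 5 W4N k := by
  fin_cases k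
  · exact ⟨⟨_, _, _, W4_b0, by decide⟩, ⟨_, _, _, W4_t0, by decide⟩⟩
  · exact ⟨⟨_, _, _, W4_b1, by decide⟩, ⟨_, _, _, W4_t1, by decide⟩⟩
  · exact ⟨⟨_, _, _, W4_b2, by decide⟩, ⟨_, _, _, W4_t2, by decide⟩⟩
  · exact ⟨⟨_, _, _, W4_b3, by decide⟩, ⟨_, _, _, W4_t3, by decide⟩⟩
  · exact ⟨⟨_, _, _, W4_b4, by decide⟩, ⟨_, _, _, W4_t4, by decide⟩⟩

theorem prism_ok (k : Fin 6) : BagOk 6 prismN k ∧ TriOk 6 prismN k := by
  fin_cases k
  · exact ⟨⟨_, _, _, prism_b0, by decide⟩, ⟨_, _, _, prism_t0, by decide⟩⟩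
  · exact ⟨⟨_, _, _, prism_b1, by decide⟩, ⟨_, _, _, prism_t1, by decide⟩⟩
  · exact ⟨⟨_, _, _, prism_b2, by decide⟩, ⟨_, _, _, prism_t2, by decide⟩⟩
  · exact ⟨⟨_, _, _, prism_b3, by decide⟩, ⟨_, _, _, prism_t3, by decide⟩⟩
  · exact ⟨⟨_, _, _, prism_b4, by decide⟩, ⟨_, _, _, prism_t4, by decide⟩⟩
  · exact ⟨⟨_, _, _, prism_b5, by decide⟩, ⟨_, _, _, prism_t5, by decide⟩⟩

theorem co2P3_ok (k : Fin 6) : BagOk 6 co2P3N k ∧ TriOk 6 co2P3N k := by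
  fin_cases k
  · exact ⟨⟨_, _, _, co2P3_b0, by decide⟩, ⟨_, _, _, co2P3_t0, by decide⟩⟩
  · exact ⟨⟨_, _, _, co2P3_b1, by decide⟩, ⟨_, _, _, co2P3_t1, by decide⟩⟩
  · exact ⟨⟨_, _, _, co2P3_b2, by decide⟩, ⟨_, _, _, co2P3_t2, by decide⟩⟩
  · exact ⟨⟨_, _, _, co2P3_b3, by decide⟩, ⟨_, _, _, co2P3_t3, by decide⟩⟩
  · exact ⟨⟨_, _, _, co2P3_b4, by decide⟩, ⟨_, _, _, co2P3_t4, by decide⟩⟩
  · exact ⟨⟨_, _, _, co2P3_b5, by decide⟩, ⟨_, _, _, co2P3_t5, by decide⟩⟩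

theorem sts_ok {m N : ℕ} (h : N ∈ sts m) (k : Fin m) : 4 ≤ m ∧ m ≤ 6 ∧ BagOk m N k ∧ TriOk m N k ∧ DegOk m N k := by
  unfold sts at h
  split_ifs at h with h4 h5 h6
  · subst h4
    simp only [List.mem_cons, List.mem_nil_iff, or_false] at h
    subst h
    exact ⟨by omega, by omega, (K4_ok k).1, (K4_ok k).2, by revert k; decide +kernel⟩
  · subst h5
    simp only [List.mem_cons, List.mem_nil_iff, or_false] at h
    rcases h with h | h | h
    · subst h; exact ⟨by omega, by omega, (K5_ok k).1, (K5_ok k).2, by revert k; decide +kernel⟩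
    · subst h; exact ⟨by omega, by omega, (K5e_ok k).1, (K5e_ok k).2, by revert k; decide +kernel⟩
    · subst h; exact ⟨by omega, by omega, (W4_ok k).1, (W4_ok k).2, by revert k; decide +kernel⟩
  · subst h6
    simp only [List.mem_cons, List.mem_nil_iff, or_false] at h
    rcases h with h | h
    · subst h; exact ⟨by omega, by omega, (prism_ok k).1, (prism_ok k).2, by revert k; decide +kernel⟩
    · subst h; exact ⟨by omega, by omega, (co2P3_ok k).1, (co2P3_ok k).2, by revert k; decide +kernel⟩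
  · simp at h

end Pool.Agent.H175R2
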