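import Pool.Agent.H175R2.Quot
import Pool.Agent.H175R2.Width

/-! Wheel-like quotients: finite certificates. -/

set_option autoImplicit false

namespace Pool.Agent.H175R2

open Finset Classical

/-- adjacency of the seven bags when a rim vertex is split: `X, Y, hub`, four arcs -/
def MA (x1 x4 xh y1 y4 yh : Bool) : Fin 7 → Fin 7 → ℕ :=
  ![![0, 1, xh.toNat, x1.toNat, 0, 0, x4.toNat],
    ![1, 0, yh.toNat, y1.toNat, 0, 0, y4.toNat],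
    ![xh.toNat, yh.toNat, 0, 1, 1, 1, 1],
    ![x1.toNat, y1.toNat, 1, 0, 1, 0, 0],
    ![0, 0, 1, 1, 0, 1, 0],
    ![0, 0, 1, 0, 1, 0, 1],
    ![x4.toNat, y4.toNat, 1, 0, 0, 1, 0]]

/-- adjacency of the seven bags when the hub is split: `X, Y`, five arcs -/
def MB (a0 a1 a2 a3 a4 b0 b1 b2 b3 b4 : Bool) : Fin 7 → Fin 7 → ℕ :=
  ![![0, 1, a0.toNat, a1.toNat, a2.toNat, a3.toNat, a4.toNat],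
    ![1, 0, b0.toNat, b1.toNat, b2.toNat, b3.toNat, b4.toNat],
    ![a0.toNat, b0.toNat, 0, 1, 0, 0, 1],
    ![a1.toNat, b1.toNat, 1, 0, 1, 0, 0],
    ![a2.toNat, b2.toNat, 0, 1, 0, 1, 0],
    ![a3.toNat, b3.toNat, 0, 0, 1, 0, 1],
    ![a4.toNat, b4.toNat, 1, 0, 0, 1, 0]]

def cA : Fin 6 → Fin 7 → Fin 5 := ![
  ![1, 3, 4, 3, 0, 2, 3],
  ![3, 1, 4, 3, 0, 2, 3],
  ![1, 3, 0, 3, 2, 2, 4],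
  ![1, 3, 0, 4, 2, 2, 3],
  ![3, 1, 0, 3, 2, 2, 4],
  ![3, 1, 0, 4, 2, 2, 3]]
def pA : Fin 6 → Fin 7 → Fin 7 := ![
  ![0, 1, 2, 1, 4, 5, 1],
  ![0, 1, 2, 0, 4, 5, 0],
  ![0, 1, 2, 1, 4, 4, 6],
  ![0, 1, 2, 3, 4, 4, 1],
  ![0, 1, 2, 0, 4, 4, 6],
  ![0, 1, 2, 3, 4, 4, 0]]
def rA : Fin 6 → Fin 5 → Fin 7 := ![
  ![4, 0, 5, 1, 2],
  ![4, 1, 5, 0, 2],
  ![2, 0, 4, 1, 6],
  ![2, 0, 4, 1, 3],
  ![2, 1, 4, 0, 6],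
  ![2, 1, 4, 0, 3]]

def cB : Fin 12 → Fin 7 → Fin 5 := ![
  ![3, 4, 1, 4, 0, 2, 3],
  ![3, 4, 1, 3, 0, 2, 4],
  ![3, 4, 0, 2, 4, 1, 3],
  ![3, 4, 0, 4, 1, 3, 2],
  ![1, 3, 4, 4, 4, 0, 2],
  ![3, 1, 4, 0, 2, 4, 4],
  ![1, 3, 0, 2, 4, 4, 4],
  ![3, 1, 0, 4, 4, 4, 2],
  ![1, 3, 4, 0, 2, 4, 4],
  ![3, 0, 2, 4, 4, 1, 3],
  ![0, 3, 4, 2, 3, 1, 4],
  ![1, 3, 0, 4, 4, 4, 2]]
def pB : Fin 12 → Fin 7 → Fin 7 := ![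
  ![0, 1, 2, 1, 4, 5, 0],
  ![0, 1, 2, 0, 4, 5, 1],
  ![0, 1, 2, 3, 1, 5, 0],
  ![0, 1, 2, 1, 4, 0, 6],
  ![0, 1, 3, 3, 3, 5, 6],
  ![0, 1, 6, 3, 4, 6, 6],
  ![0, 1, 2, 3, 5, 5, 5],
  ![0, 1, 2, 4, 4, 4, 6],
  ![0, 1, 6, 3, 4, 6, 6],
  ![0, 1, 2, 3, 3, 5, 0],
  ![0, 1, 2, 3, 1, 5, 2],
  ![0, 1, 2, 4, 4, 4, 6]]
def rB : Fin 12 → Fin 5 → Fin 7 := ![
  ![4, 2, 5, 0, 1],
  ![4, 2, 5, 0, 1],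
  ![2, 5, 3, 0, 1],
  ![2, 4, 6, 0, 1],
  ![5, 0, 6, 1, 3],
  ![3, 1, 4, 0, 6],
  ![2, 0, 3, 1, 5],
  ![2, 1, 6, 0, 4],
  ![3, 0, 4, 1, 6],
  ![1, 5, 2, 0, 3],
  ![0, 5, 3, 1, 2],
  ![2, 0, 6, 1, 4]]

theorem certA : ∀ x1 x4 xh y1 y4 yh : Bool, (x1 || y1) = true → (x4 || y4) = true →
    (x1 || x4 || xh) = true → (y1 || y4 || yh) = true →
    (x1 && y4 && !x4 && !y1) = false → (x4 && y1 && !x1 && !y4) = false →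
    ∃ k, Chk (MA x1 x4 xh y1 y4 yh) x5T (cA k) (pA k) (rA k) := by
  decide +kernel

theorem certB : ∀ a0 a1 a2 a3 a4 b0 b1 b2 b3 b4 : Bool,
    (a0 || b0) = true → (a1 || b1) = true → (a2 || b2) = true → (a3 || b3) = true →
    (a4 || b4) = true → (a0 || a1 || a2 || a3 || a4) = true → (b0 || b1 || b2 || b3 || b4) = true →
    ∃ k, Chk (MB a0 a1 a2 a3 a4 b0 b1 b2 b3 b4) x5T (cB k) (pB k) (rB k) := by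
  decide +kernel

end Pool.Agent.H175R2
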